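import Pool.Agent.Lib.MP_0655ed_mp.Defs

open scoped ComplexConjugate
open Finset

namespace Pool.Agent.Lib.MP_0655ed_mp

structure Sys (V : Type) [AddCommGroup V] [Module ℂ V] where
  D : Submodule ℂ V
  ip : V → V → ℂ
  B : V → V → ℂ
  nr : V → ℝ
  q : V → ℝ
  ip_symm : ∀ x ∈ D, ∀ y ∈ D, conj (ip y x) = ip x y
  ip_add : ∀ x ∈ D, ∀ y ∈ D, ∀ z ∈ D, ip x (y + z) = ip x y + ip x z
  ip_smul : ∀ x ∈ D, ∀ y ∈ D, ∀ c : ℂ, ip x (c • y) = c * ip x y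
  ip_self : ∀ x ∈ D, ip x x = nr x
  nr_nonneg : ∀ x ∈ D, 0 ≤ nr x
  nr_def : ∀ x ∈ D, nr x = 0 → x = 0
  B_symm : ∀ x ∈ D, ∀ y ∈ D, conj (B y x) = B x y
  B_add : ∀ x ∈ D, ∀ y ∈ D, ∀ z ∈ D, B x (y + z) = B x y + B x z
  B_smul : ∀ x ∈ D, ∀ y ∈ D, ∀ c : ℂ, B x (c • y) = c * B x y
  B_self : ∀ x ∈ D, B x x = q x

theorem diagH {H : Type} [NormedAddCommGroup H] [InnerProductSpace ℂ H] [FiniteDimensional ℂ H]
    (B : H → H →ₗ[ℂ] ℂ) (hB : ∀ x y, conj (B y x) = B x y) :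
    ∃ (u : OrthonormalBasis (Fin (Module.finrank ℂ H)) ℂ H) (μ : Fin (Module.finrank ℂ H) → ℝ),
      Monotone μ ∧ ∀ φ, B φ φ = ((∑ k, μ k * ‖inner ℂ (u k) φ‖ ^ 2 : ℝ) : ℂ) := by
  let e := stdOrthonormalBasis ℂ H
  let T : H →ₗ[ℂ] H := -∑ i, (B (e i)).smulRight (e i)
  have hT : ∀ y x, inner ℂ y (T x) = -B y x := by
    intro y x
    have h1 : T x = -∑ i, (B (e i) x) • e i := by
      simp [T, LinearMap.sum_apply]
    rw [h1, inner_neg_right, inner_sum]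
    simp only [inner_smul_right]
    congr 1
    rw [← hB y x]
    conv_rhs => rw [← e.sum_repr' y]
    rw [map_sum, map_sum]
    refine Finset.sum_congr rfl fun i _ => ?_
    rw [map_smul, smul_eq_mul, map_mul, hB, inner_conj_symm, mul_comm]
  have hS : T.IsSymmetric := by
    intro x y
    rw [hT x y, ← inner_conj_symm, hT, map_neg, hB]
  refine ⟨hS.eigenvectorBasis rfl, fun k => -hS.eigenvalues rfl k, ?_, ?_⟩
  · intro a b hab
    exact neg_le_neg (hS.eigenvalues_antitone rfl hab)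
  · intro φ
    have h1 : B φ φ = -inner ℂ φ (T φ) := by rw [hT, neg_neg]
    rw [h1, ← (hS.eigenvectorBasis rfl).sum_inner_mul_inner φ (T φ)]
    push_cast
    rw [← Finset.sum_neg_distrib]
    refine Finset.sum_congr rfl fun k _ => ?_
    rw [← hS (hS.eigenvectorBasis rfl k) φ, hS.apply_eigenvectorBasis rfl k, inner_smul_left]
    rw [← inner_conj_symm φ (hS.eigenvectorBasis rfl k)]
    have := Complex.conj_mul' (inner ℂ (hS.eigenvectorBasis rfl k) φ)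
    simp only [RCLike.conj_ofReal]
    rw [← this]
    simp only [Complex.coe_algebraMap]
    ring

namespace Sys
variable {V : Type} [AddCommGroup V] [Module ℂ V] (S : Sys V)

def ON {κ : Type} [DecidableEq κ] (u : κ → V) : Prop :=
  (∀ k, u k ∈ S.D) ∧ ∀ k l, S.ip (u k) (u l) = if k = l then 1 else 0

theorem diag (W : Submodule ℂ V) (hW : ∀ ψ ∈ W, ψ ∈ S.D) [FiniteDimensional ℂ W] :
    ∃ (u : Fin (Module.finrank ℂ W) → V) (μ : Fin (Module.finrank ℂ W) → ℝ),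
      Monotone μ ∧ (∀ k, u k ∈ W) ∧ S.ON u ∧
      ∀ φ ∈ W, S.nr φ = ∑ k, ‖S.ip (u k) φ‖ ^ 2 ∧ S.q φ = ∑ k, μ k * ‖S.ip (u k) φ‖ ^ 2 := by
  let c : InnerProductSpace.Core ℂ W :=
    { inner := fun x y => S.ip x y
      conj_inner_symm := fun x y => S.ip_symm _ (hW _ x.2) _ (hW _ y.2)
      re_inner_nonneg := fun x => by
        show 0 ≤ RCLike.re (S.ip x x)
        rw [S.ip_self _ (hW _ x.2)]
        exact S.nr_nonneg _ (hW _ x.2)
      add_left := fun x y z => by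
        show S.ip (x + y : V) z = S.ip x z + S.ip y z
        rw [← S.ip_symm _ (S.D.add_mem (hW _ x.2) (hW _ y.2)) _ (hW _ z.2),
          S.ip_add _ (hW _ z.2) _ (hW _ x.2) _ (hW _ y.2), map_add,
          S.ip_symm _ (hW _ x.2) _ (hW _ z.2), S.ip_symm _ (hW _ y.2) _ (hW _ z.2)]
      smul_left := fun x y r => by
        show S.ip (r • x : V) y = conj r * S.ip x y
        rw [← S.ip_symm _ (S.D.smul_mem r (hW _ x.2)) _ (hW _ y.2),
          S.ip_smul _ (hW _ y.2) _ (hW _ x.2), map_mul, S.ip_symm _ (hW _ x.2) _ (hW _ y.2)]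
      definite := fun x hx => by
        have h : S.ip x x = 0 := hx
        rw [S.ip_self _ (hW _ x.2)] at h
        exact Subtype.ext (S.nr_def _ (hW _ x.2) (by exact_mod_cast h)) }
  let : NormedAddCommGroup W := @InnerProductSpace.Core.toNormedAddCommGroup ℂ W _ _ _ c
  let : InnerProductSpace ℂ W := InnerProductSpace.ofCore c.toCore
  let B : W → W →ₗ[ℂ] ℂ := fun x =>
    { toFun := fun y => S.B x y
      map_add' := fun y z => S.B_add _ (hW _ x.2) _ (hW _ y.2) _ (hW _ z.2)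
      map_smul' := fun r y => S.B_smul _ (hW _ x.2) _ (hW _ y.2) r }
  obtain ⟨u, μ, hμ, h⟩ := diagH (H := W) B (fun x y => S.B_symm _ (hW _ x.2) _ (hW _ y.2))
  refine ⟨fun k => u k, μ, hμ, fun k => (u k).2, ⟨fun k => hW _ (u k).2, fun k l => ?_⟩, ?_⟩
  · exact (orthonormal_iff_ite.mp u.orthonormal) k l
  · intro φ hφ
    constructor
    · have h1 := u.sum_sq_norm_inner_right (⟨φ, hφ⟩ : W)
      have h2 : inner ℂ (⟨φ, hφ⟩ : W) (⟨φ, hφ⟩ : W) = S.ip φ φ := rfl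
      rw [inner_self_eq_norm_sq_to_K, S.ip_self _ (hW _ hφ)] at h2
      have h3 : ‖(⟨φ, hφ⟩ : W)‖ ^ 2 = S.nr φ :=
        Complex.ofReal_injective (by rw [Complex.ofReal_pow]; exact h2)
      rw [← h3, ← h1]
      rfl
    · have h1 := h ⟨φ, hφ⟩
      have h2 : B ⟨φ, hφ⟩ ⟨φ, hφ⟩ = S.B φ φ := rfl
      rw [h2, S.B_self _ (hW _ hφ)] at h1
      exact_mod_cast h1

theorem ip_zero (x : V) (hx : x ∈ S.D) : S.ip x 0 = 0 := by
  have := S.ip_smul x hx 0 S.D.zero_mem 0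
  simpa using this

theorem ip_sum {κ : Type} (s : Finset κ) (x : V) (hx : x ∈ S.D) (y : κ → V)
    (hy : ∀ k ∈ s, y k ∈ S.D) : S.ip x (∑ k ∈ s, y k) = ∑ k ∈ s, S.ip x (y k) := by
  classical
  induction s using Finset.induction_on with
  | empty => simp [S.ip_zero x hx]
  | insert a s ha ih =>
    rw [Finset.sum_insert ha, Finset.sum_insert ha, S.ip_add x hx _ (hy a (by simp)) _
      (S.D.sum_mem fun k hk => hy k (by simp [hk])), ih fun k hk => hy k (by simp [hk])]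

theorem norm_ip_symm (x : V) (hx : x ∈ S.D) (y : V) (hy : y ∈ S.D) :
    ‖S.ip x y‖ = ‖S.ip y x‖ := by
  rw [← S.ip_symm x hx y hy, Complex.norm_conj]

theorem ON.ip_comb {κ : Type} [Fintype κ] [DecidableEq κ] {u : κ → V} (hu : S.ON u)
    (a : κ → ℂ) (l : κ) : S.ip (u l) (∑ k, a k • u k) = a l := by
  rw [S.ip_sum _ _ (hu.1 l) _ fun k _ => S.D.smul_mem _ (hu.1 k)]
  simp only [S.ip_smul _ (hu.1 l) _ (hu.1 _), hu.2]
  simp

theorem ON.linearIndependent {κ : Type} [Fintype κ] [DecidableEq κ] {u : κ → V} (hu : S.ON u) :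
    LinearIndependent ℂ u := by
  rw [Fintype.linearIndependent_iff]
  intro g hg i
  rw [← hu.ip_comb S g i, hg, S.ip_zero _ (hu.1 i)]

theorem bessel {κ : Type} [Fintype κ] [DecidableEq κ] {u : κ → V} (hu : S.ON u)
    (v : V) (hv : v ∈ S.D) : ∑ k, ‖S.ip (u k) v‖ ^ 2 ≤ S.nr v := by
  set p : V := ∑ k, S.ip (u k) v • u k with hp
  have hpD : p ∈ S.D := S.D.sum_mem fun k _ => S.D.smul_mem _ (hu.1 k)
  have hw : v + (-1 : ℂ) • p ∈ S.D := S.D.add_mem hv (S.D.smul_mem _ hpD)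
  have h0 := S.nr_nonneg _ hw
  have h1 : ∀ k, S.ip (u k) (v + (-1 : ℂ) • p) = 0 := by
    intro k
    rw [S.ip_add _ (hu.1 k) _ hv _ (S.D.smul_mem _ hpD), S.ip_smul _ (hu.1 k) _ hpD, hp,
      hu.ip_comb S]
    ring
  have h2 : S.ip (v + (-1 : ℂ) • p) p = 0 := by
    conv_lhs => rw [hp]
    rw [← hp, hp, S.ip_sum _ _ (by rw [← hp]; exact hw) _ fun k _ => S.D.smul_mem _ (hu.1 k)]
    refine Finset.sum_eq_zero fun k _ => ?_
    rw [← hp, S.ip_smul _ hw _ (hu.1 k), ← S.ip_symm _ hw _ (hu.1 k), h1 k]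
    simp
  have h3 : S.ip v p = ((∑ k, ‖S.ip (u k) v‖ ^ 2 : ℝ) : ℂ) := by
    rw [hp, S.ip_sum _ _ hv _ fun k _ => S.D.smul_mem _ (hu.1 k)]
    push_cast
    refine Finset.sum_congr rfl fun k _ => ?_
    rw [S.ip_smul _ hv _ (hu.1 k), ← S.ip_symm _ hv _ (hu.1 k), Complex.mul_conj']
  have h4 : (S.nr (v + (-1 : ℂ) • p) : ℂ) = S.nr v - ((∑ k, ‖S.ip (u k) v‖ ^ 2 : ℝ) : ℂ) := by
    rw [← S.ip_self _ hw, S.ip_add _ hw _ hv _ (S.D.smul_mem _ hpD), S.ip_smul _ hw _ hpD, h2,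
      ← S.ip_symm _ hw _ hv, S.ip_add _ hv _ hv _ (S.D.smul_mem _ hpD), S.ip_smul _ hv _ hpD, h3,
      S.ip_self _ hv]
    simp only [map_add, map_mul, map_neg, map_one, Complex.conj_ofReal]
    ring
  have h5 : S.nr (v + (-1 : ℂ) • p) = S.nr v - ∑ k, ‖S.ip (u k) v‖ ^ 2 := by exact_mod_cast h4
  linarith

theorem ON.nr_eq {κ : Type} [DecidableEq κ] {u : κ → V} (hu : S.ON u) (k : κ) :
    S.nr (u k) = 1 := by
  have := hu.2 k k
  rw [S.ip_self _ (hu.1 k)] at this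
  simpa using this

theorem ON.q_eq {n : ℕ} {u : Fin n → V} (hu : S.ON u) {μ : Fin n → ℝ} (k : Fin n)
    (h : S.q (u k) = ∑ l, μ l * ‖S.ip (u l) (u k)‖ ^ 2) : S.q (u k) = μ k := by
  rw [h, Finset.sum_eq_single k]
  · simp [hu.2]
  · intro l _ hl
    simp [hu.2, hl]
  · simp

/-- bound on all Peierls sums -/
def Bd (β Z : ℝ) : Prop :=
  ∀ (m : ℕ) (u : Fin m → V), S.ON u → ∑ k, Real.exp (-β * S.q (u k)) ≤ Z

def Bes {Γ : Type} [Fintype Γ] (a : Γ → ℝ) (φ : Γ → V) (K : ℝ) : Prop :=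
  ∀ v ∈ S.D, ∑ γ, a γ * ‖S.ip (φ γ) v‖ ^ 2 ≤ K * S.nr v

/-- Berezin-Lieb type bound -/
def BL (Y : Type) [Fintype Y] (Pr : Y → V → Prop) (q : Y → V → ℝ) (β Z : ℝ) : Prop :=
  ∀ (Γ : Type) [Fintype Γ] (φ : Y → Γ → V) (a m : Y → Γ → ℝ) (K : ℝ), 0 ≤ K →
    (∀ y γ, φ y γ ∈ S.D ∧ Pr y (φ y γ)) → (∀ y γ, 0 ≤ a y γ) → (∀ y, S.Bes (a y) (φ y) K) →
    ∑ y, ∑ γ, a y γ * (Real.exp (-β * m y γ) *
      (S.nr (φ y γ) * (1 + β * m y γ) - β * q y (φ y γ))) ≤ K * Z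

def GB (Y : Type) (Pr : Y → V → Prop) (q : Y → V → ℝ) (E : ℝ) : Prop :=
  ∀ y φ, φ ∈ S.D → Pr y φ → E * S.nr φ ≤ q y φ

theorem BL_of_Bd {β Z : ℝ} (h : S.Bd β Z) :
    S.BL Unit (fun _ _ => True) (fun _ => S.q) β Z := by
  intro Γ _ φ a m K hK hφ ha hB
  simp only [Finset.univ_unique, Finset.sum_singleton]
  let W : Submodule ℂ V := Submodule.span ℂ (Set.range (φ default))
  have hW : ∀ ψ ∈ W, ψ ∈ S.D := fun ψ hψ =>
    (Submodule.span_le.mpr (by rintro _ ⟨γ, rfl⟩; exact (hφ _ γ).1)) hψ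
  have : FiniteDimensional ℂ W := FiniteDimensional.span_of_finite ℂ (Set.finite_range _)
  obtain ⟨u, μ, -, hu, hON, hd⟩ := S.diag W hW
  have h1 : ∀ γ, Real.exp (-β * m default γ) *
      (S.nr (φ default γ) * (1 + β * m default γ) - β * S.q (φ default γ)) ≤
      ∑ k, Real.exp (-β * μ k) * ‖S.ip (φ default γ) (u k)‖ ^ 2 := by
    intro γ
    obtain ⟨h1, h2⟩ := hd (φ default γ) (Submodule.subset_span ⟨γ, rfl⟩)
    rw [h1, h2, Finset.sum_mul, Finset.mul_sum, ← Finset.sum_sub_distrib, Finset.mul_sum]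
    refine Finset.sum_le_sum fun k _ => ?_
    rw [S.norm_ip_symm _ (hφ _ γ).1 _ (hON.1 k)]
    have h3 := Real.add_one_le_exp (β * m default γ - β * μ k)
    have h4 : Real.exp (-β * μ k) =
        Real.exp (-β * m default γ) * Real.exp (β * m default γ - β * μ k) := by
      rw [← Real.exp_add]; congr 1; ring
    rw [h4]
    have h5 := Real.exp_pos (-β * m default γ)
    have h6 : 0 ≤ ‖S.ip (u k) (φ default γ)‖ ^ 2 := by positivity
    have h7 := mul_le_mul_of_nonneg_left h3 (mul_nonneg h5.le h6)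
    nlinarith
  calc _ ≤ ∑ γ, a default γ * ∑ k, Real.exp (-β * μ k) * ‖S.ip (φ default γ) (u k)‖ ^ 2 :=
        Finset.sum_le_sum fun γ _ => mul_le_mul_of_nonneg_left (h1 γ) (ha _ γ)
    _ = ∑ k, Real.exp (-β * μ k) * ∑ γ, a default γ * ‖S.ip (φ default γ) (u k)‖ ^ 2 := by
        simp only [Finset.mul_sum]
        rw [Finset.sum_comm]
        refine Finset.sum_congr rfl fun k _ => Finset.sum_congr rfl fun γ _ => by ring
    _ ≤ ∑ k, Real.exp (-β * μ k) * K := by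
        refine Finset.sum_le_sum fun k _ => mul_le_mul_of_nonneg_left ?_ (Real.exp_pos _).le
        have := hB default (u k) (hON.1 k)
        rwa [hON.nr_eq S k, mul_one] at this
    _ = K * ∑ k, Real.exp (-β * S.q (u k)) := by
        rw [Finset.mul_sum]
        refine Finset.sum_congr rfl fun k _ => ?_
        rw [hON.q_eq S k (hd _ (hu k)).2, mul_comm]
    _ ≤ K * Z := mul_le_mul_of_nonneg_left (h _ u hON) hK

theorem sum_le_of_BL {q : V → ℝ} {β Z : ℝ}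
    (h : S.BL Unit (fun _ _ => True) (fun _ => q) β Z) {κ : Type} [Fintype κ] [DecidableEq κ]
    {u : κ → V} (hu : S.ON u) : ∑ k, Real.exp (-β * q (u k)) ≤ Z := by
  have := h κ (fun _ => u) (fun _ _ => 1) (fun _ k => q (u k)) 1 zero_le_one
    (fun _ k => ⟨hu.1 k, trivial⟩) (fun _ _ => zero_le_one) (fun _ v hv => by
      simpa using S.bessel hu v hv)
  simp only [Finset.univ_unique, Finset.sum_singleton, hu.nr_eq S, one_mul] at this
  refine le_trans (le_of_eq ?_) this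
  refine Finset.sum_congr rfl fun k _ => by ring

theorem BL.mono {Y : Type} [Fintype Y] {Pr Pr' : Y → V → Prop} {q q' : Y → V → ℝ} {β Z Z' : ℝ}
    (h : S.BL Y Pr q β Z) (hβ : 0 ≤ β) (hP : ∀ y φ, φ ∈ S.D → Pr' y φ → Pr y φ ∧ q y φ ≤ q' y φ)
    (hZ : Z ≤ Z') : S.BL Y Pr' q' β Z' := by
  intro Γ _ φ a m K hK hφ ha hB
  refine le_trans ?_ ((h Γ φ a m K hK (fun y γ => ⟨(hφ y γ).1, (hP _ _ (hφ y γ).1 (hφ y γ).2).1⟩)
    ha hB).trans (mul_le_mul_of_nonneg_left hZ hK))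
  refine Finset.sum_le_sum fun y _ => Finset.sum_le_sum fun γ _ =>
    mul_le_mul_of_nonneg_left (mul_le_mul_of_nonneg_left ?_ (Real.exp_pos _).le) (ha y γ)
  have := mul_le_mul_of_nonneg_left (hP _ _ (hφ y γ).1 (hφ y γ).2).2 hβ
  linarith

theorem GB.mono {Y : Type} {Pr Pr' : Y → V → Prop} {q q' : Y → V → ℝ} {E : ℝ}
    (h : S.GB Y Pr q E) (hP : ∀ y φ, φ ∈ S.D → Pr' y φ → Pr y φ ∧ q y φ ≤ q' y φ) :
    S.GB Y Pr' q' E := fun y φ hφ hp =>
  (h y φ hφ (hP y φ hφ hp).1).trans (hP y φ hφ hp).2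

/-! min-max -/

def eset (k : ℕ) : Set ℝ := {c | ∃ W : Submodule ℂ V, (∀ ψ ∈ W, ψ ∈ S.D) ∧
  Module.finrank ℂ W = k + 1 ∧ ∀ ψ ∈ W, S.q ψ ≤ c * S.nr ψ}

noncomputable def lam (k : ℕ) : ℝ := sInf (S.eset k)

theorem lam_eq (k : ℕ) : S.lam k = minmax (fun ψ => ψ ∈ S.D) S.nr S.q k := rfl

theorem eset_bdd {A : ℝ} (hA : ∀ ψ ∈ S.D, A * S.nr ψ ≤ S.q ψ) (k : ℕ) :
    ∀ c ∈ S.eset k, A ≤ c := by
  rintro c ⟨W, hW, hr, hq⟩
  have : Nontrivial W := Module.nontrivial_of_finrank_eq_succ hr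
  obtain ⟨⟨ψ, hψ⟩, h0⟩ := exists_ne (0 : W)
  have h1 : S.nr ψ ≠ 0 := fun h => h0 (Subtype.ext (S.nr_def _ (hW _ hψ) h))
  have h2 : 0 < S.nr ψ := lt_of_le_of_ne (S.nr_nonneg _ (hW _ hψ)) h1.symm
  exact le_of_mul_le_mul_right ((hA _ (hW _ hψ)).trans (hq _ hψ)) h2

theorem eset_ne (k : ℕ) (h : ∃ W : Submodule ℂ V, (∀ ψ ∈ W, ψ ∈ S.D) ∧
    Module.finrank ℂ W = k + 1) : (S.eset k).Nonempty := by
  obtain ⟨W, hW, hr⟩ := h
  have : FiniteDimensional ℂ W := Module.finite_of_finrank_eq_succ hr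
  obtain ⟨u, μ, -, hu, hON, hd⟩ := S.diag W hW
  refine ⟨∑ l, |μ l|, W, hW, hr, fun ψ hψ => ?_⟩
  rw [(hd ψ hψ).1, (hd ψ hψ).2, Finset.mul_sum]
  refine Finset.sum_le_sum fun l _ => mul_le_mul_of_nonneg_right ?_ (by positivity)
  exact (le_abs_self _).trans (Finset.single_le_sum (f := fun l => |μ l|)
    (fun _ _ => abs_nonneg _) (Finset.mem_univ l))

theorem mu_mem {n : ℕ} {u : Fin n → V} {μ : Fin n → ℝ} (hμ : Monotone μ) (hON : S.ON u)
    (W : Submodule ℂ V) (hu : ∀ k, u k ∈ W)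
    (hd : ∀ φ ∈ W, S.nr φ = ∑ k, ‖S.ip (u k) φ‖ ^ 2 ∧ S.q φ = ∑ k, μ k * ‖S.ip (u k) φ‖ ^ 2)
    (k : Fin n) : μ k ∈ S.eset k := by
  let j : Fin (k + 1) → Fin n := fun l => ⟨l, by have := l.2; have := k.2; omega⟩
  have hj : Function.Injective j := fun a b h => Fin.ext (by simpa [j] using h)
  have hli : LinearIndependent ℂ (u ∘ j) := (hON.linearIndependent S).comp j hj
  have hle : Submodule.span ℂ (Set.range (u ∘ j)) ≤ W :=
    Submodule.span_le.mpr (by rintro _ ⟨l, rfl⟩; exact hu _)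
  have hD : ∀ ψ ∈ Submodule.span ℂ (Set.range (u ∘ j)), ψ ∈ S.D := fun ψ hψ =>
    (Submodule.span_le.mpr (by rintro _ ⟨l, rfl⟩; exact hON.1 _)) hψ
  refine ⟨_, hD, by rw [finrank_span_eq_card hli]; simp, fun ψ hψ => ?_⟩
  rw [(hd ψ (hle hψ)).1, (hd ψ (hle hψ)).2, Finset.mul_sum]
  refine Finset.sum_le_sum fun l _ => ?_
  by_cases hl : l ≤ k
  · exact mul_le_mul_of_nonneg_right (hμ hl) (by positivity)
  · obtain ⟨c, rfl⟩ := (Submodule.mem_span_range_iff_exists_fun ℂ).mp hψ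
    have : S.ip (u l) (∑ i, c i • (u ∘ j) i) = 0 := by
      simp only [Function.comp_apply]
      rw [S.ip_sum _ _ (hON.1 l) _ fun i _ => S.D.smul_mem _ (hON.1 _)]
      refine Finset.sum_eq_zero fun i _ => ?_
      rw [S.ip_smul _ (hON.1 l) _ (hON.1 _), hON.2, if_neg, mul_zero]
      rintro rfl
      apply hl
      show (i : ℕ) ≤ k
      have := i.2
      omega
    rw [this]
    simp

theorem mu_le {n : ℕ} {u : Fin n → V} {μ : Fin n → ℝ} (hμ : Monotone μ) (hON : S.ON u)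
    (W : Submodule ℂ V) (hW : ∀ ψ ∈ W, ψ ∈ S.D)
    (hd : ∀ φ ∈ W, S.nr φ = ∑ k, ‖S.ip (u k) φ‖ ^ 2 ∧ S.q φ = ∑ k, μ k * ‖S.ip (u k) φ‖ ^ 2)
    (k : Fin n) (W' : Submodule ℂ V) (hle : W' ≤ W) (hr : Module.finrank ℂ W' = k + 1) {c : ℝ}
    (hc : ∀ ψ ∈ W', S.q ψ ≤ c * S.nr ψ) : μ k ≤ c := by
  have : FiniteDimensional ℂ W' := Module.finite_of_finrank_eq_succ hr
  let j : Fin k → Fin n := fun l => ⟨l, by have := l.2; have := k.2; omega⟩
  let Φ : W' →ₗ[ℂ] (Fin k → ℂ) :=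
    { toFun := fun ψ l => S.ip (u (j l)) ψ
      map_add' := fun x y => funext fun l =>
        S.ip_add _ (hON.1 _) _ (hW _ (hle x.2)) _ (hW _ (hle y.2))
      map_smul' := fun r x => funext fun l => S.ip_smul _ (hON.1 _) _ (hW _ (hle x.2)) r }
  have hk : LinearMap.ker Φ ≠ ⊥ := LinearMap.ker_ne_bot_of_finrank_lt (by simp [hr])
  obtain ⟨⟨ψ, hψ⟩, h1, h0⟩ := Submodule.exists_mem_ne_zero_of_ne_bot hk
  have hψD := hW _ (hle hψ)
  have h2 : S.nr ψ ≠ 0 := fun h => h0 (Subtype.ext (S.nr_def _ hψD h))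
  have h3 : 0 < S.nr ψ := lt_of_le_of_ne (S.nr_nonneg _ hψD) h2.symm
  refine le_of_mul_le_mul_right (le_trans ?_ (hc ψ hψ)) h3
  rw [(hd ψ (hle hψ)).1, (hd ψ (hle hψ)).2, Finset.mul_sum]
  refine Finset.sum_le_sum fun l _ => ?_
  by_cases hl : k ≤ l
  · exact mul_le_mul_of_nonneg_right (hμ hl) (by positivity)
  · have h4 : S.ip (u l) ψ = 0 := congrFun (LinearMap.mem_ker.mp h1) ⟨l, not_le.mp hl⟩
    simp [h4]

theorem psum_le {β Z : ℝ} (hβ : 0 ≤ β) (h : S.Bd β Z)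
    (hinf : ∀ k, ∃ W : Submodule ℂ V, (∀ ψ ∈ W, ψ ∈ S.D) ∧ Module.finrank ℂ W = k + 1) (m : ℕ) :
    ∑ k ∈ Finset.range m, Real.exp (-β * S.lam k) ≤ Z := by
  have key : ∀ ε : ℝ, 0 < ε → ∑ k ∈ Finset.range m, Real.exp (-β * (S.lam k + ε)) ≤ Z := by
    intro ε hε
    have h1 : ∀ k : ℕ, ∃ c ∈ S.eset k, c < S.lam k + ε := fun k =>
      exists_lt_of_csInf_lt (S.eset_ne k (hinf k)) (by unfold lam; linarith)
    choose c hc hcl using h1
    choose Wk hWk hr hq using hc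
    let W : Submodule ℂ V := ⨆ k : Fin m, Wk k
    have hfd : ∀ k, FiniteDimensional ℂ (Wk k) := fun k => Module.finite_of_finrank_eq_succ (hr k)
    have : FiniteDimensional ℂ W := inferInstance
    have hW0 : W ≤ S.D := iSup_le fun k : Fin m => fun ψ hψ => hWk k ψ hψ
    have hW : ∀ ψ ∈ W, ψ ∈ S.D := fun ψ hψ => hW0 hψ
    obtain ⟨u, μ, hμ, hu, hON, hd⟩ := S.diag W hW
    have hm : ∀ k : Fin m, (k : ℕ) < Module.finrank ℂ W := fun k => by
      have := Submodule.finrank_mono (le_iSup (fun k : Fin m => Wk k) k)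
      rw [hr] at this
      exact this
    let j : Fin m → Fin (Module.finrank ℂ W) := fun k => ⟨k, hm k⟩
    have hj : Function.Injective j := fun a b h => Fin.ext (by simpa [j] using h)
    calc _ = ∑ k : Fin m, Real.exp (-β * (S.lam k + ε)) := by
          rw [Finset.sum_range]
      _ ≤ ∑ k : Fin m, Real.exp (-β * S.q (u (j k))) := by
          refine Finset.sum_le_sum fun k _ => Real.exp_le_exp.mpr ?_
          rw [hON.q_eq S _ (hd _ (hu _)).2]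
          have := S.mu_le hμ hON W hW hd (j k) (Wk k) (le_iSup (fun k : Fin m => Wk k) k)
            (hr k) (hq k)
          have := hcl k
          nlinarith
      _ = ∑ l ∈ Finset.univ.image j, Real.exp (-β * S.q (u l)) := by
          rw [Finset.sum_image fun a _ b _ h => hj h]
      _ ≤ ∑ l, Real.exp (-β * S.q (u l)) :=
          Finset.sum_le_sum_of_subset_of_nonneg (Finset.subset_univ _)
            fun _ _ _ => (Real.exp_pos _).le
      _ ≤ Z := h _ u hON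
  have hc : Continuous fun ε : ℝ => ∑ k ∈ Finset.range m, Real.exp (-β * (S.lam k + ε)) := by
    fun_prop
  have ht := (hc.tendsto 0).mono_left (nhdsWithin_le_nhds (s := Set.Ioi 0))
  simp only [add_zero] at ht
  exact le_of_tendsto ht (eventually_nhdsWithin_of_forall fun ε hε => key ε hε)

theorem summable_of_Bd {β Z : ℝ} (hβ : 0 ≤ β) (h : S.Bd β Z)
    (hinf : ∀ k, ∃ W : Submodule ℂ V, (∀ ψ ∈ W, ψ ∈ S.D) ∧ Module.finrank ℂ W = k + 1) :
    Summable (fun k => Real.exp (-β * S.lam k)) ∧ ∑' k, Real.exp (-β * S.lam k) ≤ Z :=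
  ⟨summable_of_sum_range_le (fun _ => (Real.exp_pos _).le) (S.psum_le hβ h hinf),
    Real.tsum_le_of_sum_range_le (fun _ => (Real.exp_pos _).le)
      (S.psum_le hβ h hinf)⟩

theorem Bd_tsum {β A : ℝ} (hβ : 0 ≤ β) (hA : ∀ ψ ∈ S.D, A * S.nr ψ ≤ S.q ψ)
    (hs : Summable (fun k => Real.exp (-β * S.lam k))) :
    S.Bd β (∑' k, Real.exp (-β * S.lam k)) := by
  intro m ψ hψ
  let W : Submodule ℂ V := Submodule.span ℂ (Set.range ψ)
  have hW : ∀ φ ∈ W, φ ∈ S.D := fun φ hφ =>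
    (Submodule.span_le.mpr (by rintro _ ⟨γ, rfl⟩; exact hψ.1 γ)) hφ
  have : FiniteDimensional ℂ W := FiniteDimensional.span_of_finite ℂ (Set.finite_range _)
  obtain ⟨u, μ, hμ, hu, hON, hd⟩ := S.diag W hW
  have h1 : ∀ γ, Real.exp (-β * S.q (ψ γ)) ≤
      ∑ k, Real.exp (-β * μ k) * ‖S.ip (ψ γ) (u k)‖ ^ 2 := by
    intro γ
    obtain ⟨h1, h2⟩ := hd (ψ γ) (Submodule.subset_span ⟨γ, rfl⟩)
    have h0 : Real.exp (-β * S.q (ψ γ)) = Real.exp (-β * S.q (ψ γ)) *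
        (S.nr (ψ γ) * (1 + β * S.q (ψ γ)) - β * S.q (ψ γ)) := by
      rw [hψ.nr_eq S]; ring
    rw [h0]
    generalize S.q (ψ γ) = M at h2 ⊢
    have h2' : S.nr (ψ γ) * (1 + β * M) - β * M =
        S.nr (ψ γ) * (1 + β * M) - β * ∑ k, μ k * ‖S.ip (u k) (ψ γ)‖ ^ 2 := by rw [← h2]
    rw [h2', h1, Finset.sum_mul, Finset.mul_sum, ← Finset.sum_sub_distrib, Finset.mul_sum]
    refine Finset.sum_le_sum fun k _ => ?_
    rw [S.norm_ip_symm _ (hψ.1 γ) _ (hON.1 k)]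
    have h3 := Real.add_one_le_exp (β * M - β * μ k)
    have h4 : Real.exp (-β * μ k) = Real.exp (-β * M) * Real.exp (β * M - β * μ k) := by
      rw [← Real.exp_add]; congr 1; ring
    rw [h4]
    have h5 := Real.exp_pos (-β * M)
    have h6 : 0 ≤ ‖S.ip (u k) (ψ γ)‖ ^ 2 := by positivity
    have h7 := mul_le_mul_of_nonneg_left h3 (mul_nonneg h5.le h6)
    nlinarith
  calc _ ≤ ∑ γ, ∑ k, Real.exp (-β * μ k) * ‖S.ip (ψ γ) (u k)‖ ^ 2 :=
        Finset.sum_le_sum fun γ _ => h1 γ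
    _ = ∑ k, Real.exp (-β * μ k) * ∑ γ, ‖S.ip (ψ γ) (u k)‖ ^ 2 := by
        simp only [Finset.mul_sum]
        rw [Finset.sum_comm]
    _ ≤ ∑ k : Fin (Module.finrank ℂ W), Real.exp (-β * S.lam k) := by
        refine Finset.sum_le_sum fun k _ => ?_
        have h2 := S.bessel hψ (u k) (hON.1 k)
        rw [hON.nr_eq S] at h2
        have h3 : S.lam k ≤ μ k :=
          csInf_le ⟨A, S.eset_bdd hA k⟩ (S.mu_mem hμ hON W hu hd k)
        calc _ ≤ Real.exp (-β * μ k) * 1 := mul_le_mul_of_nonneg_left h2 (Real.exp_pos _).le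
          _ ≤ _ := by rw [mul_one]; exact Real.exp_le_exp.mpr (by nlinarith)
    _ = ∑ k ∈ Finset.range (Module.finrank ℂ W), Real.exp (-β * S.lam k) := by
        rw [Finset.sum_range]
    _ ≤ _ := hs.sum_le_tsum _ fun _ _ => (Real.exp_pos _).le

/-- the lowest min-max value is the best lower bound -/
theorem lam_zero_le {A : ℝ} (hA : ∀ ψ ∈ S.D, A * S.nr ψ ≤ S.q ψ) (ψ : V) (hψ : ψ ∈ S.D) :
    S.lam 0 * S.nr ψ ≤ S.q ψ := by
  let W : Submodule ℂ V := Submodule.span ℂ {ψ}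
  have hW : ∀ φ ∈ W, φ ∈ S.D := fun φ hφ =>
    (Submodule.span_le.mpr (by rintro _ rfl; exact hψ)) hφ
  have : FiniteDimensional ℂ W := FiniteDimensional.span_of_finite ℂ (Set.finite_singleton _)
  obtain ⟨u, μ, hμ, hu, hON, hd⟩ := S.diag W hW
  rw [(hd ψ (Submodule.subset_span rfl)).1, (hd ψ (Submodule.subset_span rfl)).2, Finset.mul_sum]
  refine Finset.sum_le_sum fun l _ => mul_le_mul_of_nonneg_right ?_ (by positivity)
  have h0 : 0 < Module.finrank ℂ W := lt_of_le_of_lt (Nat.zero_le _) l.2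
  have h3 : S.lam 0 ≤ μ ⟨0, h0⟩ :=
    csInf_le ⟨A, S.eset_bdd hA 0⟩ (S.mu_mem hμ hON W hu hd ⟨0, h0⟩)
  exact h3.trans (hμ (Nat.zero_le _))

theorem le_lam_zero {E : ℝ} (hE : ∀ ψ ∈ S.D, E * S.nr ψ ≤ S.q ψ)
    (hinf : ∃ W : Submodule ℂ V, (∀ ψ ∈ W, ψ ∈ S.D) ∧ Module.finrank ℂ W = 0 + 1) :
    E ≤ S.lam 0 :=
  le_csInf (S.eset_ne 0 hinf) (S.eset_bdd hE 0)

end Sys

end Pool.Agent.Lib.MP_0655ed_mp
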