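import Pool.Agent.Lib.MP_0655ed_mp.Ops

open scoped ComplexConjugate
open Finset MeasureTheory

set_option linter.unusedSectionVars false
set_option maxHeartbeats 400000

namespace Pool.Agent.Lib.MP_0655ed_mp

variable {σ Sp ι ι' κ Y : Type} [Fintype κ] [DecidableEq κ] [Fintype Sp] [DecidableEq Sp]
  [DecidableEq σ] [Fintype ι] [DecidableEq ι] [Fintype ι'] [DecidableEq ι'] [Fintype Y]
  [DecidableEq Y]

theorem Phi_fy (f : E → ℂ) (t t' : Sp) (y : E) (ch : ι → ℝ) :
    Phi (fy f t y) ch = Phi (fy f t' y) ch := by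
  funext x
  simp only [Phi, Vf_fy f t t']

theorem Phi_rel (f : Sp → E → ℂ) (e : ι ≃ ι') (ch : ι' → ℝ) (x : X ι') :
    Phi f (fun j => ch (e j)) (x ∘ e) = Phi f ch x :=
  e.sum_comp fun j => ch j * Vf f (x j)

theorem Phi_cons (f : Sp → E → ℂ) (ch : Option κ → ℝ) (x : X (Option κ)) :
    Phi f ch x = ch none * Vf f (x none) + Phi f (fun j => ch (some j)) (x ∘ some) := by
  simp [Phi]

noncomputable def Pbar {l : ℝ} (hl : 0 < l) (c : Y → E) (f : E → ℂ) (t : Sp) (ch : ι → ℝ)
    (x : X ι) : ℝ := ∑ y, Gt hl c y x ^ 2 * Phi (fy f t (c y)) ch x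

theorem Pbar_rel {l : ℝ} (hl : 0 < l) (c : Y → E) (f : E → ℂ) (t : Sp) (e : ι ≃ ι') (ch : ι' → ℝ)
    (x : X ι') : Pbar hl c f t (fun j => ch (e j)) (x ∘ e) = Pbar hl c f t ch x := by
  simp only [Pbar, Gt_rel, Phi_rel]

theorem continuous_Pbar {l : ℝ} (hl : 0 < l) {c : Y → E} (g : Grid l c (Fintype.card ι))
    {f : E → ℂ} (hf : Orb l f) (t : Sp) (ch : ι → ℝ) : Continuous (Pbar hl c f t ch) :=
  continuous_finsetSum _ fun y _ =>
    ((g.contDiff hl y).continuous.pow 2).mul (continuous_Phi (hf.nice t _).cc ch)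

theorem sum_pot_Phi {l : ℝ} (hl : 0 < l) {c : Y → E} (g : Grid l c (Fintype.card ι))
    {f : E → ℂ} (hf : Orb l f) (t : Sp) (ch : ι → ℝ) {ψ : Wv ι Sp} (hψ : Cc ψ) :
    ∑ y, pot (Phi (fy f t (c y)) ch) (mulF (Gt hl c y) ψ) = pot (Pbar hl c f t ch) ψ := by
  simp only [pot_mulF]
  exact (pot_sum (U := fun y x => Gt hl c y x ^ 2 * Phi (fy f t (c y)) ch x) _
    (fun y _ => (((g.contDiff hl y).continuous.pow 2).mul
      (continuous_Phi (hf.nice t _).cc ch)).locallyIntegrable) hψ).symm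

theorem hole_mulF {l : ℝ} (hl : 0 < l) (c : Y → E) (y : Y) (sp : ι → σ) (s : σ) (ψ : Wv ι Sp) :
    Hole sp s (c y) l (mulF (Gt hl c y) ψ) := fun _ _ hx j _ =>
  Gt_hole hl c y (by exact_mod_cast left_ne_zero_of_mul hx) j

theorem Hole.mulF {l : ℝ} {y : E} {sp : ι → σ} {s : σ} {ψ : Wv ι Sp} (h : Hole sp s y l ψ)
    (G : X ι → ℝ) : Hole sp s y l (mulF G ψ) := fun τ x hx => h τ x (right_ne_zero_of_mul hx)

theorem en_ins {P : Species σ Sp} {I : ℝ} (hI : ∀ s, 1 / (2 * P.mass s) ≤ I) {sp : Option κ → σ}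
    {L l : ℝ} {c : Y → E} {f : E → ℂ} {t0 : σ → Sp} (g : Geo P L l c f t0) (t : Sp) (y : Y)
    {ψ : Wv κ Sp} (hψ : Nice ψ) (hh : Hole (fun j => sp (some j)) (sp none) (c y) l ψ) :
    en P sp (insT P sp (fy f (t0 (sp none)) (c y)) ψ) ≤ en P (fun j => sp (some j)) ψ +
      k0 f * I * nr ψ +
      P.charge (sp none) * pot (Phi (fy f t (c y)) fun j => P.charge (sp (some j))) ψ := by
  rw [en_insT g.hl (g.orb.nice _ _) (fun t z hz => g.orb.supp _ (fy_ne hz).2) hψ hh,
    en_tens P sp (g.orb.nice _ _) hψ, g.orb.nr_fy, kin1_fy, one_mul, Phi_fy f _ t]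
  have h1 := mul_le_mul_of_nonneg_right (mul_le_mul_of_nonneg_left (hI (sp none)) (k0_nonneg f))
    (nr_nonneg ψ)
  rw [mul_one_div] at h1
  linarith

theorem locInt_cm {Z : Type} [TopologicalSpace Z] [MeasureSpace Z] {U : Z → ℝ}
    (hU : LocallyIntegrable U) (a : ℝ) : LocallyIntegrable fun x => a * U x := hU.smul a

theorem locInt_add {Z : Type} [TopologicalSpace Z] [MeasureSpace Z] {U U' : Z → ℝ}
    (hU : LocallyIntegrable U) (hU' : LocallyIntegrable U') :
    LocallyIntegrable fun x => U x + U' x := hU.add hU'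

theorem split_q {P : Species σ Sp} (hm : ∀ s, 0 < P.mass s) {I : ℝ}
    (hI : ∀ s, 1 / (2 * P.mass s) ≤ I) (hI0 : 0 ≤ I) (sp : ι → σ) {l : ℝ} (hl : 0 < l)
    {c : Y → E} (gr : Grid l c (Fintype.card ι)) {D : ℝ} (hD : ∀ z, ‖fderiv ℝ (bp hl) z‖ ≤ D)
    {f : E → ℂ} (hf : Orb l f) (t : Sp) (ch : ι → ℝ) {U : X ι → ℝ} (hU : LocallyIntegrable U)
    (C a b : ℝ) {ψ : Wv ι Sp} (hψ : Nice ψ) :
    ∑ y, (en P sp (mulF (Gt hl c y) ψ) + C * nr (mulF (Gt hl c y) ψ) +
      a * pot U (mulF (Gt hl c y) ψ) + b * pot (Phi (fy f t (c y)) ch) (mulF (Gt hl c y) ψ)) ≤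
    en P sp ψ + (C + 3 * D ^ 2 * I) * nr ψ + a * pot U ψ + b * pot (Pbar hl c f t ch) ψ := by
  have h4 := en_split hm hI hI0 sp hl gr hD hψ
  have h5 := pot_part (fun y => (gr.contDiff hl y).continuous) (gr.sum_sq hl) hU hψ.cc
  have h6 : ∑ y, nr (mulF (Gt hl c y) ψ) = nr ψ :=
    pot_part (fun y => (gr.contDiff hl y).continuous) (gr.sum_sq hl) locInt_one hψ.cc
  rw [Finset.sum_add_distrib, Finset.sum_add_distrib, Finset.sum_add_distrib, ← Finset.mul_sum,
    ← Finset.mul_sum, ← Finset.mul_sum, h5, h6, sum_pot_Phi hl gr hf t ch hψ.cc]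
  linarith

theorem ins_b {P : Species σ Sp} {I : ℝ} (hI : ∀ s, 1 / (2 * P.mass s) ≤ I) {sp : Option κ → σ}
    {e : ℝ} (ha : 0 < e) (hb : P.charge (sp none) = -e)
    {L l : ℝ} {c : Y → E} {f : E → ℂ} {t0 : σ → Sp} (g : Geo P L l c f t0) (t : Sp) (y0 y : Y)
    {ψ : Wv κ Sp} (hψ : Nice ψ) (hh : Hole (fun j => sp (some j)) (sp none) (c y) l ψ) :
    en P sp (insT P sp (fy f (t0 (sp none)) (c y)) ψ) +
      k0 f * I * nr (insT P sp (fy f (t0 (sp none)) (c y)) ψ) +
      e * pot (Phi (fy f t (c y0)) fun j => P.charge (sp j))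
        (insT P sp (fy f (t0 (sp none)) (c y)) ψ) ≤
    en P (fun j => sp (some j)) ψ + 2 * (k0 f * I) * nr ψ +
      e * pot (Phi (fy f t (c y0)) fun j => P.charge (sp (some j))) ψ +
      -e * pot (Phi (fy f t (c y)) fun j => P.charge (sp (some j))) ψ := by
  have h3 := en_ins hI g t y hψ hh
  have hn := g.orb.nice (t0 (sp none)) (c y)
  have hs := fun t z (hz : fy f (t0 (sp none)) (c y) t z ≠ 0) => g.orb.supp _ (fy_ne hz).2
  have h4 : nr (insT P sp (fy f (t0 (sp none)) (c y)) ψ) = nr ψ := by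
    rw [nr, pot_insT g.hl hn.cc hs hψ.cc hh locInt_one fun _ _ _ => rfl, ← nr,
      nr_tens hn.cc hψ.cc, g.orb.nr_fy, one_mul]
  have hc1 := (continuous_Phi (g.orb.nice t (c y0)).cc
    fun j => P.charge (sp j)).locallyIntegrable (μ := volume)
  have hc2 := (continuous_Phi (g.orb.nice t (c y0)).cc
    fun j => P.charge (sp (some j))).locallyIntegrable (μ := volume)
  have h5 : pot (Phi (fy f t (c y0)) fun j => P.charge (sp j))
      (insT P sp (fy f (t0 (sp none)) (c y)) ψ) ≤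
      pot (Phi (fy f t (c y0)) fun j => P.charge (sp (some j))) ψ := by
    rw [pot_insT g.hl hn.cc hs hψ.cc hh hc1 fun o ho x => by
      rw [← Phi_rel _ (Equiv.swap none o) _ x]
      simp only [sp_swap (mem_Jset.mp ho).symm]]
    have h6 := pot_tens_rest hc2 hn.cc hψ.cc
    rw [g.orb.nr_fy, one_mul] at h6
    rw [← h6]
    refine pot_mono hc1 (locInt_rest hc2) (hn.tens hψ).cc fun x => ?_
    rw [Phi_cons, hb]
    have := mul_nonneg ha.le (Vf_nonneg (fy f t (c y0)) (x none))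
    linarith
  have h7 := mul_le_mul_of_nonneg_left h5 ha.le
  rw [h4]
  rw [hb] at h3
  linarith

theorem upper {P : Species σ Sp} (hm : ∀ s, 0 < P.mass s) {I : ℝ}
    (hI : ∀ s, 1 / (2 * P.mass s) ≤ I) (hI0 : 0 ≤ I) {sp : Option (Option κ) → σ}
    (ha : 0 < P.charge (sp none)) (hb : P.charge (sp (some none)) = -P.charge (sp none))
    {L l : ℝ} {c : Y → E} {f : E → ℂ} {t0 : σ → Sp} (g : Geo P L l c f t0)
    (gr : Grid l c (Fintype.card κ)) {D : ℝ} (hD : ∀ z, ‖fderiv ℝ (bp g.hl) z‖ ≤ D)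
    {β Z E0 : ℝ} (hβ : 0 ≤ β) (h : BG P sp L Unit (fun _ _ => True) (fun _ => en P sp) β Z E0) :
    BG P (fun j => sp (some (some j))) L Unit (fun _ _ => True)
      (fun _ φ => en P (fun j => sp (some (some j))) φ +
        (2 * (k0 f * I) + 2 * (3 * D ^ 2 * I)) * nr φ) β
      (2 / Fintype.card Y * (2 / Fintype.card Y *
        ((Jset fun j => sp (some j)).card * ((Jset sp).card * Z)))) E0 := by
  have t := t0 (sp none)
  have hne : sp (some none) ≠ sp none := fun h0 => by rw [h0] at hb; linarith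
  have h1 := h.insert g hβ (Pr := fun p φ => Hole (fun j => sp (some j)) (sp none) (c p.2) l φ)
    (q := fun p φ => en P (fun j => sp (some j)) φ + k0 f * I * nr φ + P.charge (sp none) *
      pot (Phi (fy f t (c p.2)) fun j => P.charge (sp (some j))) φ)
    fun _ y ψ hψ hp => ⟨hp, trivial, en_ins hI g t y hψ.nice hp⟩
  have h2 := h1.insert g hβ
    (Pr := fun p φ => Hole (fun j => sp (some (some j))) (sp none) (c p.1.2) l φ ∧
      Hole (fun j => sp (some (some j))) (sp (some none)) (c p.2) l φ)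
    (q := fun p φ => en P (fun j => sp (some (some j))) φ + 2 * (k0 f * I) * nr φ +
      P.charge (sp none) * pot (Phi (fy f t (c p.1.2)) fun j => P.charge (sp (some (some j)))) φ +
      -P.charge (sp none) * pot (Phi (fy f t (c p.2)) fun j => P.charge (sp (some (some j)))) φ)
    fun y0 y ψ hψ hp => ⟨hp.2, (Hole.cre (sp := fun j => sp (some j)) hne _ hp.1).smul _,
      ins_b (sp := fun j => sp (some j)) hI ha hb g t y0.2 y hψ.nice hp.2⟩
  have h3 := h2.split g.hl gr hβ
    (Pr' := fun p φ => Hole (fun j => sp (some (some j))) (sp none) (c p.2) l φ)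
    (q' := fun p φ => en P (fun j => sp (some (some j))) φ +
      (2 * (k0 f * I) + 3 * D ^ 2 * I) * nr φ +
      P.charge (sp none) * pot (Phi (fy f t (c p.2)) fun j => P.charge (sp (some (some j)))) φ +
      -P.charge (sp none) * pot (Pbar g.hl c f t fun j => P.charge (sp (some (some j)))) φ)
    fun y0 ψ hψ hp => ⟨fun y => ⟨Hole.mulF hp _, hole_mulF g.hl c y _ _ _⟩,
      split_q hm hI hI0 (fun j => sp (some (some j))) g.hl gr hD g.orb t
        (fun j => P.charge (sp (some (some j))))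
        (continuous_Phi (g.orb.nice t (c y0.2)).cc
          (fun j => P.charge (sp (some (some j))))).locallyIntegrable
        (2 * (k0 f * I)) (P.charge (sp none)) (-P.charge (sp none)) hψ.nice⟩
  refine h3.split g.hl gr hβ fun y0 ψ hψ _ => ⟨fun y => hole_mulF g.hl c y _ _ _, ?_⟩
  have h4 := split_q hm hI hI0 (fun j => sp (some (some j))) g.hl gr hD g.orb t
    (fun j => P.charge (sp (some (some j))))
    (continuous_Pbar g.hl gr g.orb t (fun j => P.charge (sp (some (some j))))).locallyIntegrable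
    (2 * (k0 f * I) + 3 * D ^ 2 * I) (-P.charge (sp none)) (P.charge (sp none)) hψ.nice
  refine le_trans (le_of_eq (Finset.sum_congr rfl fun y _ => ?_)) (h4.trans (le_of_eq ?_))
  · exact add_right_comm _ _ _
  · ring

theorem gain_split {P : Species σ Sp} (hm : ∀ s, 0 < P.mass s) (sp : ι → σ) {l : ℝ} (hl : 0 < l)
    {c : Y → E} (g : Grid l c (Fintype.card ι)) {ψ : Wv ι Sp} (hψ : Nice ψ) (i : ι) :
    gain P sp i ψ ≤ ∑ y, gain P sp i (mulF (Gt hl c y) ψ) := by
  obtain ⟨D, hD⟩ := exists_D hl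
  unfold gain
  rw [Finset.sum_add_distrib, pot_part (fun y => (g.contDiff hl y).continuous) (g.sum_sq hl)
    (locInt_potl _ _) hψ.cc, ← Finset.sum_div]
  have := hm (sp i)
  exact add_le_add (div_le_div_of_nonneg_right (kin_split hl g hD hψ i).1 (by positivity)) le_rfl

theorem pot_zero {T Z : Type} [Fintype T] [MeasureSpace Z] (ψ : T → Z → ℂ) :
    pot (fun _ => 0) ψ = 0 := by simp [pot]

theorem move_pot {P : Species σ Sp} {sp : Option κ → σ} {g : Sp → E → ℂ} (hg : Cc g) (C : ℝ)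
    {u : Wv (Option κ) Sp} (hu : Cc u) :
    pot (fun x => C * 1 + P.charge (sp none) *
      Phi g (fun j => P.charge (sp (some j))) (x ∘ some)) u ≤
    C * nr u + P.charge (sp none) * pot (Phi g fun j => P.charge (sp j)) u := by
  have h1 := locInt_cm ((continuous_Phi hg fun j => P.charge (sp j)).locallyIntegrable
    (μ := volume)) (P.charge (sp none))
  have h2 := locInt_cm ((continuous_Phi hg fun j => P.charge (sp (some j))).locallyIntegrable
    (μ := volume)) (P.charge (sp none))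
  rw [nr, ← pot_const_mul, ← pot_const_mul, ← pot_add (locInt_cm locInt_one C) h1 hu]
  refine pot_mono (locInt_rest (locInt_add (locInt_cm locInt_one C) h2))
    (locInt_add (locInt_cm locInt_one C) h1) hu fun x => ?_
  rw [Phi_cons _ (fun j => P.charge (sp j)), mul_add, ← mul_assoc]
  have := mul_nonneg (mul_self_nonneg (P.charge (sp none))) (Vf_nonneg g (x none))
  linarith

theorem move {P : Species σ Sp} (hm : ∀ s, 0 < P.mass s) {I : ℝ}
    (hI : ∀ s, 1 / (2 * P.mass s) ≤ I) (hI0 : 0 ≤ I) {sp : Option κ → σ}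
    {L l : ℝ} (hL : 0 < L) {c : Y → E} {f : E → ℂ} {t0 : σ → Sp} (g : Geo P L l c f t0) (t : Sp)
    (gr : Grid l c (Fintype.card (Option κ))) {D : ℝ} (hD : ∀ z, ‖fderiv ℝ (bp g.hl) z‖ ≤ D)
    {a β Z E0 : ℝ} (ha : 0 < a) (hβ : 0 < β)
    (hw : β⁻¹ / a ^ 2 ≤ (2 * Real.pi / L) ^ 2 / (4 * P.mass (sp none)))
    (h : BG P sp L Unit (fun _ _ => True) (fun _ => en P sp) β Z E0) :
    BG P sp L Unit (fun _ _ => True)
      (fun _ u => en P sp u - gain P sp none u + (k0 f * I + 3 * D ^ 2 * I) * nr u +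
        P.charge (sp none) * pot (Pbar g.hl c f t fun j => P.charge (sp j)) u) β
      (2 / Fintype.card Y * ((Fintype.card Sp * (1 + 4 * a) ^ 3 + Fintype.card κ) * Z)) E0 := by
  have hc : ∀ y, LocallyIntegrable fun x => P.charge (sp none) *
      Phi (fy f t (c y)) (fun j => P.charge (sp (some j))) x := fun y =>
    locInt_cm (continuous_Phi (g.orb.nice t (c y)).cc _).locallyIntegrable _
  have h1 := h.insert g hβ.le (Pr := fun p φ => Hole (fun j => sp (some j)) (sp none) (c p.2) l φ)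
    (q := fun p φ => en P (fun j => sp (some j)) φ + ∑ j, (0 : ℝ) * kin j φ +
      pot (fun x => k0 f * I * 1 + P.charge (sp none) *
        Phi (fy f t (c p.2)) (fun j => P.charge (sp (some j))) x) φ)
    fun _ y ψ hψ hp => ⟨hp, trivial, (en_ins hI g t y hψ.nice hp).trans (le_of_eq (by
      rw [pot_add (locInt_cm locInt_one _) (hc y) hψ.nice.cc, pot_const_mul, pot_const_mul, ← nr]
      simp only [zero_mul, Finset.sum_const_zero, add_zero, add_assoc]))⟩
  have h2 := BG.remove hm hL ha hβ hw (fun _ => 0)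
    (U := fun (p : Unit × Y) x => k0 f * I * 1 + P.charge (sp none) *
      Phi (fy f t (c p.2)) (fun j => P.charge (sp (some j))) x)
    (fun p => locInt_add (locInt_cm locInt_one _) (hc p.2)) h1
    (Pr := fun p u => Hole sp (sp none) (c p.2) l u) fun p u hu f => Hole.ann hu f
  rw [← mul_assoc, div_mul_cancel₀ _ (card_Jset_pos sp).ne'] at h2
  refine h2.split g.hl gr hβ.le fun y0 ψ hψ _ => ⟨fun y => hole_mulF g.hl c y _ _ _, ?_⟩
  have h4 := split_q hm hI hI0 sp g.hl gr hD g.orb t (fun j => P.charge (sp j))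
    locInt_one (k0 f * I) 0 (P.charge (sp none)) hψ.nice
  have h5 := gain_split hm sp g.hl gr hψ.nice none
  have h7 := sub_le_sub h4 h5
  rw [← Finset.sum_sub_distrib] at h7
  refine le_trans (Finset.sum_le_sum fun y _ => ?_) (h7.trans (le_of_eq (by ring)))
  have h6 := move_pot (P := P) (sp := sp) (g.orb.nice t (c y)).cc (k0 f * I)
    (hψ.nice.mulF (gr.contDiff g.hl y)).cc
  simp only [zero_mul, Finset.sum_const_zero, add_zero]
  linarith

theorem remove1 {P : Species σ Sp} (hm : ∀ s, 0 < P.mass s) {sp : Option κ → σ}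
    {L a β Z E0 : ℝ} (hL : 0 < L) (ha : 0 < a) (hβ : 0 < β)
    (hw : β⁻¹ / a ^ 2 ≤ (2 * Real.pi / L) ^ 2 / (4 * P.mass (sp none)))
    (h : BG P (fun j => sp (some j)) L Unit (fun _ _ => True)
      (fun _ => en P (fun j => sp (some j))) β Z E0) :
    BG P sp L Unit (fun _ _ => True) (fun _ u => en P sp u - gain P sp none u) β
      ((Fintype.card Sp * (1 + 4 * a) ^ 3 + Fintype.card κ) / (Jset sp).card * Z) E0 := by
  have h1 := BG.remove hm hL ha hβ hw (fun _ => 0) (U := fun _ _ => 0)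
    (fun _ => locallyIntegrable_const _) (h.mono (Pr' := fun _ _ => True) hβ.le
      (fun _ φ _ _ => ⟨trivial, by simp [pot_zero]⟩) le_rfl) (Pr := fun _ _ => True)
    fun _ _ _ _ => trivial
  exact h1.mono hβ.le (fun _ φ _ _ => ⟨trivial, by simp [pot_zero]⟩) le_rfl

theorem remove2 {P : Species σ Sp} (hm : ∀ s, 0 < P.mass s) {sp : Option (Option κ) → σ}
    (hab : P.charge (sp none) * P.charge (sp (some none)) ≤ 0)
    {L a β Z E0 : ℝ} (hL : 0 < L) (ha : 0 < a) (hβ : 0 < β)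
    (hw : ∀ s, β⁻¹ / a ^ 2 ≤ (2 * Real.pi / L) ^ 2 / (4 * P.mass s))
    (h : BG P (fun j => sp (some (some j))) L Unit (fun _ _ => True)
      (fun _ => en P (fun j => sp (some (some j)))) β Z E0) :
    BG P sp L Unit (fun _ _ => True)
      (fun _ u => en P sp u - gain P sp none u - gain P sp (some none) u) β
      ((Fintype.card Sp * (1 + 4 * a) ^ 3 + Fintype.card (Option κ)) / (Jset sp).card *
        ((Fintype.card Sp * (1 + 4 * a) ^ 3 + Fintype.card κ) /
          (Jset fun j => sp (some j)).card * Z)) E0 := by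
  have h1 := remove1 (sp := fun j => sp (some j)) hm hL ha hβ (hw _) h
  have hU : LocallyIntegrable fun x : X (Option κ) =>
      -1 * potl (fun j => P.charge (sp (some j))) none x := (locInt_potl _ _).smul (-1 : ℝ)
  have h2 := BG.remove hm hL ha hβ (hw (sp none))
    (fun j => if j = none then -(4 * P.mass (sp (some none)))⁻¹ else 0)
    (U := fun _ x => -1 * potl (fun j => P.charge (sp (some j))) none x)
    (fun _ => hU) (h1.mono (Pr' := fun _ _ => True) hβ.le
      (fun _ φ _ _ => ⟨trivial, by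
        rw [pot_const_mul]
        simp only [gain, ite_mul, zero_mul, Finset.sum_ite_eq', Finset.mem_univ, if_true]
        rw [div_eq_inv_mul]
        linarith⟩) le_rfl) (Pr := fun _ _ => True)
    fun _ _ _ _ => trivial
  refine h2.mono hβ.le (fun _ u hu _ => ⟨trivial, ?_⟩) le_rfl
  have h3 : pot (fun x => -1 * potl (fun j => P.charge (sp (some j))) none (x ∘ some)) u ≤
      -1 * pot (potl (fun j => P.charge (sp j)) (some none)) u := by
    rw [← pot_const_mul]
    refine pot_mono (locInt_rest hU) (locInt_cm (locInt_potl _ _) (-1 : ℝ)) hu.nice.cc fun x => ?_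
    rw [potl_some]
    have := mul_nonneg (neg_nonneg.mpr hab) (vk_nonneg (x none - x (some none)))
    linarith
  simp only [gain, ite_mul, zero_mul, Finset.sum_ite_eq', Finset.mem_univ, if_true] at h3 ⊢
  rw [div_eq_inv_mul (kin (some none) u)]
  linarith

end Pool.Agent.Lib.MP_0655ed_mp
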