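import Pool.Agent.Lib.MP_0655ed_mp.Pot

open scoped ComplexConjugate
open Finset MeasureTheory

set_option linter.unusedSectionVars false

namespace Pool.Agent.Lib.MP_0655ed_mp

abbrev E := Fin 3 → ℝ
abbrev X (ι : Type) := ι → Fin 3 → ℝ
abbrev Wv (ι Sp : Type) := (ι → Sp) → X ι → ℂ

variable {σ Sp ι ι' κ : Type}

/-! relabelling -/

def rel (e : ι ≃ ι') (ψ : Wv ι Sp) : Wv ι' Sp := fun τ x => ψ (τ ∘ e) (x ∘ e)

noncomputable def relL [Fintype ι] [Fintype ι'] (e : ι ≃ ι') : X ι' ≃L[ℝ] X ι :=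
  (LinearEquiv.funCongrLeft ℝ E e).toContinuousLinearEquiv

theorem relL_apply [Fintype ι] [Fintype ι'] (e : ι ≃ ι') (x : X ι') : relL e x = x ∘ e := rfl

theorem rel_rel {ι'' : Type} (e : ι ≃ ι') (e' : ι' ≃ ι'') (ψ : Wv ι Sp) :
    rel e' (rel e ψ) = rel (e.trans e') ψ := rfl

@[simp] theorem rel_refl (ψ : Wv ι Sp) : rel (Equiv.refl ι) ψ = ψ := rfl

theorem rel_symm_rel (e : ι ≃ ι') (ψ : Wv ι Sp) : rel e.symm (rel e ψ) = ψ := by
  rw [rel_rel, Equiv.self_trans_symm, rel_refl]

theorem rel_rel_symm (e : ι ≃ ι') (ψ : Wv ι' Sp) : rel e (rel e.symm ψ) = ψ := by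
  rw [rel_rel, Equiv.symm_trans_self, rel_refl]

theorem rel_smul (e : ι ≃ ι') (c : ℂ) (ψ : Wv ι Sp) : rel e (c • ψ) = c • rel e ψ := rfl

theorem rel_add (e : ι ≃ ι') (φ ψ : Wv ι Sp) : rel e (φ + ψ) = rel e φ + rel e ψ := rfl

theorem rel_sum {J : Type} (s : Finset J) (e : ι ≃ ι') (ψ : J → Wv ι Sp) :
    rel e (∑ j ∈ s, ψ j) = ∑ j ∈ s, rel e (ψ j) := by
  funext τ x
  simp [rel, Finset.sum_apply]

section fin
variable [Fintype ι] [Fintype ι'] [Fintype κ]

theorem mp_rel (e : ι ≃ ι') : MeasurePreserving (fun x : X ι' => x ∘ e) volume volume :=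
  volume_preserving_arrowCongr' e.symm (MeasurableEquiv.refl E) (MeasurePreserving.id _)

theorem integral_rel {F : Type} [NormedAddCommGroup F] [NormedSpace ℝ F] (e : ι ≃ ι')
    (G : X ι → F) : ∫ x : X ι', G (x ∘ e) = ∫ x, G x :=
  (mp_rel e).integral_comp (MeasurableEquiv.arrowCongr' e.symm
    (MeasurableEquiv.refl E)).measurableEmbedding G

theorem locInt_rel (e : ι ≃ ι') {U : X ι → ℝ} (hU : LocallyIntegrable U) :
    LocallyIntegrable (fun x : X ι' => U (x ∘ e)) := by
  rw [locallyIntegrable_iff] at hU ⊢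
  intro K hK
  have h1 := hU _ (hK.image (relL e).continuous)
  have h2 := ((mp_rel e).integrableOn_comp_preimage (MeasurableEquiv.arrowCongr' e.symm
    (MeasurableEquiv.refl E)).measurableEmbedding).mpr h1
  exact h2.mono_set fun x hx => ⟨x, hx, rfl⟩

theorem Cc.rel {ψ : Wv ι Sp} (h : Cc ψ) (e : ι ≃ ι') : Cc (rel e ψ) := fun _ =>
  ⟨(h _).1.comp (relL e).continuous, (h _).2.comp_homeomorph (relL e).toHomeomorph⟩

theorem Nice.rel {ψ : Wv ι Sp} (h : Nice ψ) (e : ι ≃ ι') : Nice (rel e ψ) := fun _ =>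
  ⟨(h _).1.comp (relL e).contDiff, (h _).2.comp_homeomorph (relL e).toHomeomorph⟩

theorem Dv_rel (e : ι ≃ ι') (v : X ι') (ψ : Wv ι Sp) :
    Dv v (rel e ψ) = rel e (Dv (v ∘ e) ψ) := by
  funext τ x
  have := (relL e).comp_right_fderiv (f := ψ (τ ∘ e)) (x := x)
  exact congrArg (fun L : X ι' →L[ℝ] ℂ => L v) this

variable [DecidableEq ι] [DecidableEq ι'] [DecidableEq κ] [Fintype Sp]

theorem sum_rel {M : Type} [AddCommMonoid M] (e : ι ≃ ι') (F : (ι → Sp) → M) :
    ∑ τ : ι' → Sp, F (τ ∘ e) = ∑ τ, F τ :=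
  (Equiv.arrowCongr e.symm (Equiv.refl Sp)).sum_comp F

theorem ipU_rel (e : ι ≃ ι') (U : X ι → ℝ) (φ ψ : Wv ι Sp) :
    ipU (fun x : X ι' => U (x ∘ e)) (rel e φ) (rel e ψ) = ipU U φ ψ := by
  unfold ipU
  rw [← sum_rel e]
  refine Finset.sum_congr rfl fun τ _ => ?_
  exact integral_rel e fun x => (U x : ℂ) * (conj (φ (τ ∘ e) x) * ψ (τ ∘ e) x)

theorem pot_rel (e : ι ≃ ι') (U : X ι → ℝ) (ψ : Wv ι Sp) :
    pot (fun x : X ι' => U (x ∘ e)) (rel e ψ) = pot U ψ := by
  have := ipU_rel e U ψ ψ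
  rw [ipU_self, ipU_self] at this
  exact_mod_cast this

theorem ip_rel (e : ι ≃ ι') (φ ψ : Wv ι Sp) : ip (rel e φ) (rel e ψ) = ip φ ψ :=
  ipU_rel e (fun _ => 1) φ ψ

theorem nr_rel (e : ι ≃ ι') (ψ : Wv ι Sp) : nr (rel e ψ) = nr ψ :=
  pot_rel e (fun _ => 1) ψ

def dir (i : ι) (k : Fin 3) : X ι := Pi.single i (Pi.single k 1)

omit [Fintype ι] [Fintype ι'] in
theorem dir_comp (e : ι ≃ ι') (i : ι) (k : Fin 3) : dir (e i) k ∘ e = dir i k := by
  funext j
  simp [dir, Pi.single_apply]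

noncomputable def kin (i : ι) (ψ : Wv ι Sp) : ℝ := ∑ k, nr (Dv (dir i k) ψ)

theorem kin_nonneg (i : ι) (ψ : Wv ι Sp) : 0 ≤ kin i ψ :=
  Finset.sum_nonneg fun _ _ => nr_nonneg _

theorem kin_rel (e : ι ≃ ι') (i : ι) (ψ : Wv ι Sp) : kin (e i) (rel e ψ) = kin i ψ := by
  unfold kin
  refine Finset.sum_congr rfl fun k _ => ?_
  rw [Dv_rel, nr_rel, dir_comp]

theorem kin_smul (i : ι) {ψ : Wv ι Sp} (h : Nice ψ) (c : ℂ) :
    kin i (c • ψ) = ‖c‖ ^ 2 * kin i ψ := by
  unfold kin nr
  rw [Finset.mul_sum]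
  refine Finset.sum_congr rfl fun k _ => ?_
  rw [Dv_smul h, pot_smul]

end fin

/-! splitting off one particle -/

def cons {β : Type} (z : β) (x : κ → β) : Option κ → β := fun o => o.elim z x

@[simp] theorem cons_none {β : Type} (z : β) (x : κ → β) : cons z x none = z := rfl
@[simp] theorem cons_some {β : Type} (z : β) (x : κ → β) (j : κ) : cons z x (some j) = x j := rfl
@[simp] theorem cons_comp_some {β : Type} (z : β) (x : κ → β) : cons z x ∘ some = x := rfl

theorem cons_eta {β : Type} (x : Option κ → β) : cons (x none) (x ∘ some) = x := by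
  funext o; cases o <;> rfl

def consEquiv (κ β : Type) : (κ → β) × β ≃ (Option κ → β) where
  toFun p := cons p.2 p.1
  invFun x := (x ∘ some, x none)
  left_inv _ := rfl
  right_inv x := cons_eta x

def consLin (κ : Type) : (X κ × E) ≃ₗ[ℝ] X (Option κ) where
  toEquiv := consEquiv κ E
  map_add' _ _ := by funext o; cases o <;> rfl
  map_smul' _ _ := by funext o; cases o <;> rfl

noncomputable def consL (κ : Type) [Fintype κ] : (X κ × E) ≃L[ℝ] X (Option κ) :=
  (consLin κ).toContinuousLinearEquiv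

theorem consL_apply [Fintype κ] (p : X κ × E) : consL κ p = cons p.2 p.1 := rfl

noncomputable def consM (κ : Type) [Fintype κ] : (X κ × E) ≃ᵐ X (Option κ) :=
  (consL κ).toHomeomorph.toMeasurableEquiv

theorem mp_cons [Fintype κ] :
    MeasurePreserving (fun p : X κ × E => cons p.2 p.1) (volume.prod volume) volume := by
  refine ⟨(consM κ).measurable, ?_⟩
  refine (Measure.pi_eq fun s hs => ?_).symm
  have h : (fun p : X κ × E => cons p.2 p.1) ⁻¹' Set.pi Set.univ s =
      (Set.pi Set.univ fun i => s (some i)) ×ˢ s none := by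
    ext x
    simp only [Set.mem_preimage, Set.mem_pi, Set.mem_univ, forall_true_left, Set.mem_prod]
    refine ⟨fun h => ⟨fun i => h (some i), h none⟩, fun h i => ?_⟩
    cases i
    · exact h.2
    · exact h.1 _
  have h2 := (consM κ).measurableEmbedding.map_apply (volume.prod volume) (Set.pi Set.univ s)
  refine h2.trans ?_
  refine (congrArg _ h).trans ?_
  rw [Measure.prod_prod, volume_pi_pi, Fintype.prod_option, mul_comm]

theorem integrable_cons [Fintype κ] {F : Type} [NormedAddCommGroup F] {G : X (Option κ) → F}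
    (hG : Integrable G) : Integrable (fun p : X κ × E => G (cons p.2 p.1)) (volume.prod volume) :=
  (mp_cons.integrable_comp_emb (consM κ).measurableEmbedding).mpr hG

theorem integral_cons [Fintype κ] {F : Type} [NormedAddCommGroup F] [NormedSpace ℝ F]
    {G : X (Option κ) → F} (hG : Integrable G) : ∫ x, G x = ∫ x : X κ, ∫ z : E, G (cons z x) := by
  rw [← mp_cons.integral_comp (consM κ).measurableEmbedding G]
  exact integral_prod _ (integrable_cons hG)

theorem sum_cons {M : Type} [AddCommMonoid M] [Fintype κ] [DecidableEq κ] [Fintype Sp]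
    (F : (Option κ → Sp) → M) : ∑ τ, F τ = ∑ τ : κ → Sp, ∑ t, F (cons t τ) := by
  rw [← (consEquiv κ Sp).sum_comp F, Fintype.sum_prod_type]
  rfl

theorem locInt_rest [Fintype κ] {U : X κ → ℝ} (hU : LocallyIntegrable U) :
    LocallyIntegrable (fun x : X (Option κ) => U (x ∘ some)) := by
  rw [locallyIntegrable_iff] at hU ⊢
  intro K hK
  have hc : Continuous fun x : X (Option κ) => x ∘ some := by fun_prop
  have hc' : Continuous fun x : X (Option κ) => x none := by fun_prop
  have h1 := (integrable_indicator_iff (hK.image hc).measurableSet).mpr (hU _ (hK.image hc))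
  have h2 : Integrable (((fun x : X (Option κ) => x none) '' K).indicator fun _ => (1 : ℝ)) :=
    (integrable_indicator_iff (hK.image hc').measurableSet).mpr
      (locInt_one.integrableOn_isCompact (hK.image hc'))
  have h3 := h1.mul_prod h2
  have h4 := ((mp_cons.symm (consM κ)).integrable_comp_emb
    (consM κ).symm.measurableEmbedding).mpr h3
  refine (h4.integrableOn (s := K)).congr_fun (fun x hx => ?_) hK.measurableSet
  show Set.indicator _ U (x ∘ some) * Set.indicator _ _ (x none) = _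
  rw [Set.indicator_of_mem (Set.mem_image_of_mem _ hx),
    Set.indicator_of_mem (Set.mem_image_of_mem (fun x : X (Option κ) => x none) hx), mul_one]

/-! the Coulomb kernel -/

noncomputable def vk (z : E) : ℝ := (√(∑ k, z k ^ 2))⁻¹

theorem vk_nonneg (z : E) : 0 ≤ vk z := by unfold vk; positivity

theorem vk_neg (z : E) : vk (-z) = vk z := by simp [vk]

theorem vk_smul {c : ℝ} (hc : 0 < c) (z : E) : vk (c • z) = c⁻¹ * vk z := by
  unfold vk
  simp only [Pi.smul_apply, smul_eq_mul, mul_pow, ← Finset.mul_sum]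
  rw [Real.sqrt_mul (by positivity), Real.sqrt_sq hc.le, mul_inv]

theorem measurable_vk : Measurable vk := by unfold vk; fun_prop

theorem locInt_vk : LocallyIntegrable vk := by
  refine locallyIntegrable_of_norm_le_rpow (C := 1) (α := 1) (by simp) (by simp)
    (ae_of_all _ fun z => ?_) measurable_vk.aestronglyMeasurable
  rw [Real.norm_eq_abs, abs_of_nonneg (vk_nonneg z), one_mul, Real.rpow_neg_one]
  rcases eq_or_ne z 0 with rfl | hz
  · simp [vk]
  · refine inv_anti₀ (norm_pos_iff.mpr hz) ?_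
    refine (pi_norm_le_iff_of_nonneg (Real.sqrt_nonneg _)).mpr fun k => ?_
    rw [Real.norm_eq_abs]
    exact Real.abs_le_sqrt (Finset.single_le_sum (f := fun k => z k ^ 2)
      (fun _ _ => sq_nonneg _) (Finset.mem_univ k))

theorem locInt_pair0 [Fintype κ] (j : κ) :
    LocallyIntegrable (fun x : X (Option κ) => vk (x none - x (some j))) := by
  rw [locallyIntegrable_iff]
  intro K hK
  have hc : Continuous fun x : X (Option κ) => x ∘ some := by fun_prop
  have hc' : Continuous fun x : X (Option κ) => x none - x (some j) := by fun_prop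
  have h1 : Integrable (((fun x : X (Option κ) => x ∘ some) '' K).indicator fun _ => (1 : ℝ)) :=
    (integrable_indicator_iff (hK.image hc).measurableSet).mpr
      (locInt_one.integrableOn_isCompact (hK.image hc))
  have h2 := (integrable_indicator_iff (hK.image hc').measurableSet).mpr
      (locInt_vk.integrableOn_isCompact (hK.image hc'))
  have h3 := h1.mul_prod h2
  have hs : MeasurePreserving (fun p : X κ × E => (id p.1, p.2 - p.1 j))
      (volume.prod volume) (volume.prod volume) :=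
    MeasurePreserving.skew_product (g := fun (x : X κ) (z : E) => z - x j)
      (MeasurePreserving.id _) (by fun_prop)
      (ae_of_all _ fun x => (measurePreserving_sub_right volume (x j)).map_eq)
  have h3' := hs.integrable_comp_of_integrable h3
  have h4 := ((mp_cons.symm (consM κ)).integrable_comp_emb
    (consM κ).symm.measurableEmbedding).mpr h3'
  refine (h4.integrableOn (s := K)).congr_fun (fun x hx => ?_) hK.measurableSet
  show Set.indicator _ _ (x ∘ some) * Set.indicator _ vk (x none - x (some j)) = _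
  rw [Set.indicator_of_mem (Set.mem_image_of_mem (fun x : X (Option κ) => x ∘ some) hx),
    Set.indicator_of_mem (Set.mem_image_of_mem (fun x : X (Option κ) => x none - x (some j)) hx),
    one_mul]

theorem locInt_pair [Fintype ι] [DecidableEq ι] (i j : ι) :
    LocallyIntegrable (fun x : X ι => vk (x i - x j)) := by
  rcases eq_or_ne j i with rfl | h
  · simp only [sub_self]
    exact locallyIntegrable_const _
  · exact locInt_rel (Equiv.optionSubtypeNe i) (locInt_pair0 (κ := {b // b ≠ i}) ⟨j, h⟩)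

/-- potential energy of particle `i` -/
noncomputable def potl [Fintype ι] (c : ι → ℝ) (i : ι) (x : X ι) : ℝ :=
  ∑ j, c i * c j * vk (x i - x j)

theorem locInt_potl [Fintype ι] [DecidableEq ι] (c : ι → ℝ) (i : ι) :
    LocallyIntegrable (potl c i) :=
  locallyIntegrable_finsetSum _ fun j _ => (locInt_pair i j).smul (c i * c j)

theorem coulomb_eq [Fintype ι] [DecidableEq ι] (c : ι → ℝ) :
    coulomb c = fun x => (1 / 2) * ∑ i, potl c i x := by
  funext x
  unfold coulomb potl
  congr 1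
  refine Finset.sum_congr rfl fun i _ => ?_
  rw [Finset.sum_erase _ (by simp)]
  refine Finset.sum_congr rfl fun j _ => ?_
  rw [div_eq_mul_inv]
  rfl

theorem locInt_coulomb [Fintype ι] [DecidableEq ι] (c : ι → ℝ) : LocallyIntegrable (coulomb c) := by
  rw [coulomb_eq]
  exact (locallyIntegrable_finsetSum _ fun i _ => locInt_potl c i).smul (1 / 2 : ℝ)

theorem potl_rel [Fintype ι] [Fintype ι'] (e : ι ≃ ι') (c : ι' → ℝ) (i : ι) (x : X ι') :
    potl (fun j => c (e j)) i (x ∘ e) = potl c (e i) x := by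
  unfold potl
  exact e.sum_comp fun j => c (e i) * c j * vk (x (e i) - x j)

theorem coulomb_rel [Fintype ι] [Fintype ι'] [DecidableEq ι] [DecidableEq ι'] (e : ι ≃ ι')
    (c : ι' → ℝ) (x : X ι') : coulomb (fun j => c (e j)) (x ∘ e) = coulomb c x := by
  simp only [coulomb_eq, potl_rel]
  rw [e.sum_comp fun i => potl c i x]

theorem potl_none [Fintype κ] (c : Option κ → ℝ) (x : X (Option κ)) :
    potl c none x = ∑ j, c none * c (some j) * vk (x none - x (some j)) := by
  simp [potl, vk]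

theorem potl_some [Fintype κ] (c : Option κ → ℝ) (i : κ) (x : X (Option κ)) :
    potl c (some i) x = potl (fun j => c (some j)) i (x ∘ some) +
      c none * c (some i) * vk (x none - x (some i)) := by
  simp only [potl, Fintype.sum_option, Function.comp_apply]
  rw [← vk_neg (x (some i) - x none), neg_sub]
  ring

theorem coulomb_cons [Fintype κ] [DecidableEq κ] (c : Option κ → ℝ) (x : X (Option κ)) :
    coulomb c x = coulomb (fun j => c (some j)) (x ∘ some) + potl c none x := by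
  simp only [coulomb_eq, Fintype.sum_option, potl_some, Finset.sum_add_distrib, ← potl_none]
  ring

/-! energy -/

section energy
variable [Fintype ι] [DecidableEq ι] [Fintype ι'] [DecidableEq ι'] [Fintype Sp]

theorem nrm_eq (ψ : Wv ι Sp) : nrm ψ = nr ψ := by simp [nrm, nr, pot]

noncomputable def en (P : Species σ Sp) (sp : ι → σ) (ψ : Wv ι Sp) : ℝ :=
  ∑ i, kin i ψ / (2 * P.mass (sp i)) + pot (coulomb fun i => P.charge (sp i)) ψ

theorem energy_eq (P : Species σ Sp) (sp : ι → σ) {ψ : Wv ι Sp} (h : Nice ψ) :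
    energy P sp ψ = en P sp ψ := by
  unfold energy en kin nr pot
  simp only [Finset.sum_div]
  have : ∀ (F : ι → Fin 3 → (ι → Sp) → ℝ), ∑ i, ∑ k, ∑ τ, F i k τ = ∑ τ, ∑ i, ∑ k, F i k τ := by
    intro F
    rw [Finset.sum_comm (s := (Finset.univ : Finset (ι → Sp)))]
    exact Finset.sum_congr rfl fun i _ => Finset.sum_comm
  rw [this, ← Finset.sum_add_distrib]
  refine Finset.sum_congr rfl fun τ _ => ?_
  have hi : ∀ i k, Integrable fun x => ‖fderiv ℝ (ψ τ) x (Pi.single i (Pi.single k 1))‖ ^ 2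
      / (2 * P.mass (sp i)) := fun i k => by
    have := (integrable_pot locInt_one (h.dv (dir i k)).cc τ).div_const (2 * P.mass (sp i))
    simp only [one_mul] at this
    exact this
  rw [integral_add (integrable_finsetSum _ fun i _ => integrable_finsetSum _ fun k _ => hi i k)
    (integrable_pot (locInt_coulomb _) h.cc τ),
    integral_finsetSum _ fun i _ => integrable_finsetSum _ fun k _ => hi i k]
  congr 1
  refine Finset.sum_congr rfl fun i _ => ?_
  rw [integral_finsetSum _ fun k _ => hi i k]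
  refine Finset.sum_congr rfl fun k _ => ?_
  rw [integral_div]
  simp only [one_mul]
  rfl

theorem en_rel (P : Species σ Sp) (e : ι ≃ ι') (sp : ι' → σ) (ψ : Wv ι Sp) :
    en P sp (rel e ψ) = en P (fun i => sp (e i)) ψ := by
  unfold en
  rw [← e.sum_comp]
  simp only [kin_rel]
  congr 1
  rw [← pot_rel e]
  congr 1
  funext x
  exact (coulomb_rel e (fun i => P.charge (sp i)) x).symm

theorem en_smul (P : Species σ Sp) (sp : ι → σ) {ψ : Wv ι Sp} (h : Nice ψ) (c : ℂ) :
    en P sp (c • ψ) = ‖c‖ ^ 2 * en P sp ψ := by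
  unfold en
  simp only [kin_smul _ h, pot_smul, mul_add, Finset.mul_sum, mul_div_assoc]

def eta (P : Species σ Sp) (s : σ) : ℂ := if P.fermion s then -1 else 1

theorem eta_sq (P : Species σ Sp) (s : σ) : eta P s * eta P s = 1 := by
  unfold eta; split_ifs <;> simp

theorem norm_eta (P : Species σ Sp) (s : σ) : ‖eta P s‖ = 1 := by
  unfold eta; split_ifs <;> simp

theorem conj_eta (P : Species σ Sp) (s : σ) : conj (eta P s) = eta P s := by
  unfold eta; split_ifs <;> simp

def Supp (r : ℝ) (ψ : Wv ι Sp) : Prop := ∀ τ x, ψ τ x ≠ 0 → ∀ i, ‖x i‖ ≤ r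

structure Tst (P : Species σ Sp) (sp : ι → σ) (L : ℝ) (ψ : Wv ι Sp) : Prop where
  smooth : ∀ τ, ContDiff ℝ (⊤ : ℕ∞) (ψ τ)
  supp : ∃ r, r < L / 2 ∧ Supp r ψ
  spin : ∀ τ x, ψ τ x ≠ 0 → ∀ i, τ i ∈ P.spins (sp i)
  sym : ∀ i j, i ≠ j → sp i = sp j → rel (Equiv.swap i j) ψ = eta P (sp i) • ψ

omit [DecidableEq ι] [Fintype Sp] in
theorem Supp.compact {r : ℝ} {ψ : Wv ι Sp} (h : Supp r ψ) (τ : ι → Sp) :
    HasCompactSupport (ψ τ) := by
  refine HasCompactSupport.intro (isCompact_closedBall 0 |r|) fun x hx => ?_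
  by_contra h0
  apply hx
  rw [mem_closedBall_zero_iff]
  exact (pi_norm_le_iff_of_nonneg (abs_nonneg r)).mpr fun i => (h τ x h0 i).trans (le_abs_self r)

omit [Fintype Sp] in
theorem Tst.nice {P : Species σ Sp} {sp : ι → σ} {L : ℝ} {ψ : Wv ι Sp} (h : Tst P sp L ψ) :
    Nice ψ := fun τ => ⟨h.smooth τ, h.supp.choose_spec.2.compact τ⟩

theorem isTest_iff {P : Species σ Sp} {sp : ι → σ} {L : ℝ} (hL : 0 < L) {ψ : Wv ι Sp} :
    IsTest P sp L ψ ↔ Tst P sp L ψ := by
  have hset : {x : X ι | ∀ i k, |x i k| < L / 2} = Metric.ball 0 (L / 2) := by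
    ext x
    simp only [Set.mem_ofPred_eq, mem_ball_zero_iff, pi_norm_lt_iff (half_pos hL),
      Real.norm_eq_abs]
  constructor
  · rintro ⟨h1, h2, h3, h4⟩
    refine ⟨h1, ?_, h3, fun i j hij hs => funext fun τ => funext fun x => h4 i j hij hs τ x⟩
    have hK : IsCompact (⋃ τ, tsupport (ψ τ)) := isCompact_iUnion fun τ =>
      Metric.isCompact_of_isClosed_isBounded (isClosed_tsupport _)
        (Metric.isBounded_ball.subset (hset ▸ h2 τ))
    obtain ⟨r, hr, hr'⟩ := exists_lt_subset_ball hK.isClosed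
      (Set.iUnion_subset fun τ => hset ▸ h2 τ)
    refine ⟨r, hr, fun τ x hx i => ?_⟩
    have := hr' (Set.mem_iUnion.mpr ⟨τ, subset_tsupport _ hx⟩)
    exact (norm_le_pi_norm x i).trans (mem_ball_zero_iff.mp this).le
  · intro h
    refine ⟨h.smooth, fun τ => ?_, h.spin, fun i j hij hs τ x =>
      congrFun (congrFun (h.sym i j hij hs) τ) x⟩
    obtain ⟨r, hr, hs⟩ := h.supp
    rw [hset]
    refine (closure_minimal (t := Metric.closedBall 0 (max r 0)) (fun x hx => ?_)
      Metric.isClosed_closedBall).trans (Metric.closedBall_subset_ball (max_lt hr (half_pos hL)))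
    rw [mem_closedBall_zero_iff]
    exact (pi_norm_le_iff_of_nonneg (le_max_right _ _)).mpr fun i =>
      (hs τ x hx i).trans (le_max_left _ _)

omit [Fintype Sp] in
theorem Tst.add {P : Species σ Sp} {sp : ι → σ} {L : ℝ} {φ ψ : Wv ι Sp} (h : Tst P sp L φ)
    (h' : Tst P sp L ψ) : Tst P sp L (φ + ψ) := by
  have hne : ∀ τ x, (φ + ψ) τ x ≠ 0 → φ τ x ≠ 0 ∨ ψ τ x ≠ 0 := by
    intro τ x hx
    by_contra h0
    push Not at h0
    exact hx (by simp [h0.1, h0.2])
  refine ⟨fun τ => (h.smooth τ).add (h'.smooth τ), ?_, ?_, ?_⟩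
  · obtain ⟨r, hr, hs⟩ := h.supp
    obtain ⟨r', hr', hs'⟩ := h'.supp
    refine ⟨max r r', max_lt hr hr', fun τ x hx i => ?_⟩
    rcases hne τ x hx with h0 | h0
    · exact (hs τ x h0 i).trans (le_max_left _ _)
    · exact (hs' τ x h0 i).trans (le_max_right _ _)
  · intro τ x hx
    rcases hne τ x hx with h0 | h0
    · exact h.spin τ x h0
    · exact h'.spin τ x h0
  · intro i j hij hs
    rw [rel_add, h.sym i j hij hs, h'.sym i j hij hs, smul_add]

omit [Fintype Sp] in
theorem Tst.smul {P : Species σ Sp} {sp : ι → σ} {L : ℝ} {ψ : Wv ι Sp} (h : Tst P sp L ψ)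
    (c : ℂ) : Tst P sp L (c • ψ) := by
  have hne : ∀ τ x, (c • ψ) τ x ≠ 0 → ψ τ x ≠ 0 := fun τ x hx h0 => hx (by simp [h0])
  refine ⟨fun τ => (h.smooth τ).const_smul c, ?_, fun τ x hx => h.spin τ x (hne τ x hx), ?_⟩
  · obtain ⟨r, hr, hs⟩ := h.supp
    exact ⟨r, hr, fun τ x hx => hs τ x (hne τ x hx)⟩
  · intro i j hij hs
    rw [rel_smul, h.sym i j hij hs, smul_comm]

omit [Fintype Sp] in
theorem Tst.zero (P : Species σ Sp) (sp : ι → σ) (L : ℝ) : Tst P sp L (0 : Wv ι Sp) :=
  ⟨fun _ => contDiff_const, ⟨L / 2 - 1, by linarith, fun _ _ h => (h rfl).elim⟩,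
    fun _ _ h => (h rfl).elim, fun _ _ _ _ => by rw [smul_zero]; rfl⟩

omit [Fintype Sp] in
theorem Tst.rel {P : Species σ Sp} {sp : ι' → σ} {L : ℝ} {ψ : Wv ι Sp} (e : ι ≃ ι')
    (h : Tst P (fun i => sp (e i)) L ψ) : Tst P sp L (rel e ψ) := by
  refine ⟨fun τ => (h.nice.rel e τ).1, ?_, fun τ x hx i => ?_, fun i j hij hs => ?_⟩
  · obtain ⟨r, hr, hs⟩ := h.supp
    refine ⟨r, hr, fun τ x hx i => ?_⟩
    simpa using hs _ _ hx (e.symm i)
  · simpa using h.spin _ _ hx (e.symm i)
  · have h1 := h.sym (e.symm i) (e.symm j) (fun h => hij (e.symm.injective h)) (by simpa using hs)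
    have h2 : e.trans (Equiv.swap i j) = (Equiv.swap (e.symm i) (e.symm j)).trans e := by
      ext a
      simp [Equiv.swap_apply_def, Equiv.eq_symm_apply, apply_ite e]
    rw [rel_rel, h2, ← rel_rel, h1, rel_smul]
    simp

omit [Fintype Sp] in
theorem Tst.mulF {P : Species σ Sp} {sp : ι → σ} {L : ℝ} {ψ : Wv ι Sp} (h : Tst P sp L ψ)
    {G : X ι → ℝ} (hG : ContDiff ℝ (⊤ : ℕ∞) G) (hs : ∀ i j x, G (x ∘ Equiv.swap i j) = G x) :
    Tst P sp L (mulF G ψ) := by
  have hne : ∀ τ x, Pool.Agent.Lib.MP_0655ed_mp.mulF G ψ τ x ≠ 0 → ψ τ x ≠ 0 :=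
    fun τ x hx => right_ne_zero_of_mul hx
  refine ⟨fun τ => (h.nice.mulF hG τ).1, ?_, fun τ x hx => h.spin τ x (hne τ x hx), ?_⟩
  · obtain ⟨r, hr, hs⟩ := h.supp
    exact ⟨r, hr, fun τ x hx => hs τ x (hne τ x hx)⟩
  · intro i j hij hsp
    funext τ x
    have := congrFun (congrFun (h.sym i j hij hsp) τ) x
    simp only [Pool.Agent.Lib.MP_0655ed_mp.rel, Pool.Agent.Lib.MP_0655ed_mp.mulF,
      Pi.smul_apply, smul_eq_mul, hs] at this ⊢
    rw [this]
    ring

noncomputable def tSys (P : Species σ Sp) (sp : ι → σ) (L : ℝ) : Sys (Wv ι Sp) where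
  D := { carrier := {ψ | Tst P sp L ψ}
         add_mem' := fun h h' => Tst.add h h'
         zero_mem' := Tst.zero P sp L
         smul_mem' := fun c _ h => Tst.smul h c }
  ip := ip
  B := fun φ ψ => ∑ i, (∑ k, ip (Dv (dir i k) φ) (Dv (dir i k) ψ)) / (2 * P.mass (sp i) : ℝ) +
    ipU (coulomb fun i => P.charge (sp i)) φ ψ
  nr := nr
  q := en P sp
  ip_symm := fun _ _ _ _ => ipU_symm _ _ _
  ip_add := fun _ hx _ hy _ hz =>
    ipU_add locInt_one (fun τ => (hx.nice.cc τ).1) hy.nice.cc hz.nice.cc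
  ip_smul := fun _ _ _ _ c => ipU_smul _ _ _ c
  ip_self := fun _ _ => ipU_self _ _
  nr_nonneg := fun _ _ => nr_nonneg _
  nr_def := fun _ hx h => eq_zero_of_nr hx.nice.cc h
  B_symm := fun _ _ _ _ => by
    simp only [map_add, map_sum, map_div₀, Complex.conj_ofReal, ip, ipU_symm]
  B_add := fun x hx y hy z hz => by
    have h1 : ∀ v, ip (Dv v x) (Dv v (y + z)) = ip (Dv v x) (Dv v y) + ip (Dv v x) (Dv v z) := by
      intro v
      rw [Dv_add hy.nice hz.nice]
      exact ipU_add locInt_one (fun τ => ((hx.nice.dv v).cc τ).1) (hy.nice.dv v).cc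
        (hz.nice.dv v).cc
    simp only [h1, Finset.sum_add_distrib, add_div,
      ipU_add (locInt_coulomb _) (fun τ => (hx.nice.cc τ).1) hy.nice.cc hz.nice.cc]
    ring
  B_smul := fun x _ y hy c => by
    simp only [Dv_smul hy.nice, ip, ipU_smul, mul_add, Finset.mul_sum, mul_div_assoc,
      Finset.sum_div]
  B_self := fun x _ => by
    simp only [ip, ipU_self, en, kin, nr]
    push_cast
    rfl

theorem mem_tSys {P : Species σ Sp} {sp : ι → σ} {L : ℝ} {ψ : Wv ι Sp} :
    ψ ∈ (tSys P sp L).D ↔ Tst P sp L ψ := Iff.rfl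

end energy

end Pool.Agent.Lib.MP_0655ed_mp
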