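import Pool.Agent.Lib.MP_0655ed_mp.Tensor

open scoped ComplexConjugate
open Finset MeasureTheory

set_option linter.unusedSectionVars false
set_option maxHeartbeats 400000

namespace Pool.Agent.Lib.MP_0655ed_mp

variable {σ Sp ι ι' κ : Type} [Fintype κ] [DecidableEq κ] [Fintype Sp] [DecidableEq σ]

def Jset (sp : Option κ → σ) : Finset (Option κ) := Finset.univ.filter fun o => sp o = sp none

theorem mem_Jset {sp : Option κ → σ} {o : Option κ} : o ∈ Jset sp ↔ sp o = sp none := by
  simp [Jset]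

theorem none_mem_Jset (sp : Option κ → σ) : none ∈ Jset sp := mem_Jset.mpr rfl

theorem card_Jset_pos (sp : Option κ → σ) : (0 : ℝ) < (Jset sp).card := by
  exact_mod_cast Finset.card_pos.mpr ⟨_, none_mem_Jset sp⟩

def sg (P : Species σ Sp) (sp : Option κ → σ) (o : Option κ) : ℂ :=
  if o = none then 1 else eta P (sp none)

theorem norm_sg (P : Species σ Sp) (sp : Option κ → σ) (o : Option κ) : ‖sg P sp o‖ = 1 := by
  unfold sg; split_ifs <;> simp [norm_eta]

noncomputable def symz (P : Species σ Sp) (sp : Option κ → σ) (t : Wv (Option κ) Sp) :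
    Wv (Option κ) Sp :=
  ∑ o ∈ Jset sp, sg P sp o • rel (Equiv.swap none o) t

theorem sp_swap {sp : ι → σ} [DecidableEq ι] {i j : ι} (h : sp i = sp j) (a : ι) :
    sp (Equiv.swap i j a) = sp a := by
  rw [Equiv.swap_apply_def]
  split_ifs with h1 h2
  · rw [h1, h]
  · rw [h2, h]
  · rfl

theorem symz_ne {P : Species σ Sp} {sp : Option κ → σ} {t : Wv (Option κ) Sp} {τ x}
    (h : symz P sp t τ x ≠ 0) :
    ∃ o, sp o = sp none ∧ t (τ ∘ Equiv.swap none o) (x ∘ Equiv.swap none o) ≠ 0 := by
  by_contra h0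
  push Not at h0
  apply h
  simp only [symz, Finset.sum_apply]
  exact Finset.sum_eq_zero fun o ho => by simp [rel, h0 o (mem_Jset.mp ho)]

theorem Nice.symz {P : Species σ Sp} {sp : Option κ → σ} {t : Wv (Option κ) Sp} (h : Nice t) :
    Nice (symz P sp t) := Nice.sum _ fun _ _ => (h.rel _).smul _

theorem symz_sym {P : Species σ Sp} {sp : Option κ → σ} {t : Wv (Option κ) Sp}
    (ht : ∀ i j, i ≠ j → sp (some i) = sp (some j) →
      rel (Equiv.swap (some i) (some j)) t = eta P (sp (some i)) • t)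
    (i j : Option κ) (hij : i ≠ j) (hs : sp i = sp j) :
    rel (Equiv.swap i j) (symz P sp t) = eta P (sp i) • symz P sp t := by
  have key : ∀ a : κ, sp none = sp (some a) →
      rel (Equiv.swap none (some a)) (symz P sp t) = eta P (sp none) • symz P sp t := by
    intro a ha
    unfold Pool.Agent.Lib.MP_0655ed_mp.symz
    rw [rel_sum, Finset.smul_sum]
    refine Finset.sum_equiv (Equiv.swap none (some a)) (fun o => ?_) fun o ho => ?_
    · rw [mem_Jset, mem_Jset, sp_swap ha]
    · rw [rel_smul, rel_rel, smul_smul]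
      rcases o with _ | b
      · simp [sg, eta_sq]
      · rcases eq_or_ne b a with rfl | hb
        · simp [sg]
        · have h1 : (Equiv.swap none (some b)).trans (Equiv.swap none (some a)) =
              (Equiv.swap (some a) (some b)).trans (Equiv.swap none (some b)) := by
            ext1 o
            simp only [Equiv.trans_apply, Equiv.swap_apply_def]
            grind
          have h2 : Equiv.swap none (some a) (some b) = some b :=
            Equiv.swap_apply_of_ne_of_ne (by simp) (by simpa using hb)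
          rw [h1, ← rel_rel, ht a b hb.symm (by rw [← ha, mem_Jset.mp ho]), rel_smul, smul_smul,
            h2, ← ha, mul_comm]
  rcases i with _ | a
  · rcases j with _ | b
    · exact (hij rfl).elim
    · exact key b hs
  · rcases j with _ | b
    · rw [Equiv.swap_comm, hs]
      exact key a hs.symm
    · unfold Pool.Agent.Lib.MP_0655ed_mp.symz
      rw [rel_sum, Finset.smul_sum]
      refine Finset.sum_equiv (Equiv.swap (some a) (some b)) (fun o => ?_) fun o ho => ?_
      · rw [mem_Jset, mem_Jset, sp_swap hs]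
      · have h1 : (Equiv.swap none o).trans (Equiv.swap (some a) (some b)) =
            (Equiv.swap (some a) (some b)).trans
              (Equiv.swap none (Equiv.swap (some a) (some b) o)) := by
          ext1 o'
          simp only [Equiv.trans_apply, Equiv.swap_apply_def]
          grind
        have h2 : sg P sp (Equiv.swap (some a) (some b) o) = sg P sp o := by
          unfold sg
          refine if_congr ?_ rfl rfl
          simp only [Equiv.swap_apply_def]
          grind
        rw [rel_smul, rel_rel, h1, ← rel_rel, ht a b (by simpa using hij) hs, rel_smul, h2,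
          smul_comm]

theorem tens_sym {P : Species σ Sp} {sp : Option κ → σ} {L : ℝ} (f : Sp → E → ℂ) {φ : Wv κ Sp}
    (hφ : Tst P (fun j => sp (some j)) L φ) (i j : κ) (hij : i ≠ j)
    (hs : sp (some i) = sp (some j)) :
    rel (Equiv.swap (some i) (some j)) (tens f φ) = eta P (sp (some i)) • tens f φ := by
  funext τ x
  have h1 := congrFun (congrFun (hφ.sym i j hij hs) (τ ∘ some)) (x ∘ some)
  have h2 : ∀ {β : Type} (x : Option κ → β),
      (x ∘ Equiv.swap (some i) (some j)) ∘ some = (x ∘ some) ∘ Equiv.swap i j := by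
    intro β x
    funext a
    simp only [Function.comp_apply]
    rw [(Option.some_injective κ).map_swap]
  have h3 : Equiv.swap (some i) (some j) none = none :=
    Equiv.swap_apply_of_ne_of_ne (by simp) (by simp)
  simp only [rel, tens, h2, Pi.smul_apply, smul_eq_mul, Function.comp_apply, h3] at h1 ⊢
  rw [h1]
  ring

noncomputable def cre (P : Species σ Sp) (sp : Option κ → σ) (f : Sp → E → ℂ) (φ : Wv κ Sp) :
    Wv (Option κ) Sp := symz P sp (tens f φ)

/-- admissible one-particle function -/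
structure Adm (P : Species σ Sp) (s : σ) (L : ℝ) (f : Sp → E → ℂ) : Prop where
  nice : Nice f
  supp : ∃ r, r < L / 2 ∧ ∀ t z, f t z ≠ 0 → ‖z‖ ≤ r
  spin : ∀ t z, f t z ≠ 0 → t ∈ P.spins s

theorem cre_supp {P : Species σ Sp} {sp : Option κ → σ} {f : Sp → E → ℂ} {φ : Wv κ Sp}
    {C : E → Prop} (hf : ∀ t z, f t z ≠ 0 → C z) (hφ : ∀ τ x, φ τ x ≠ 0 → ∀ j, C (x j)) {τ x}
    (h : cre P sp f φ τ x ≠ 0) (i : Option κ) : C (x i) := by
  obtain ⟨o, -, h1⟩ := symz_ne h
  have h2 : ∀ a, C ((x ∘ Equiv.swap none o) a) := by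
    rintro (_ | a)
    · exact hf _ _ (left_ne_zero_of_mul h1)
    · exact hφ _ _ (right_ne_zero_of_mul h1) a
  simpa using h2 (Equiv.swap none o i)

theorem Tst.cre {P : Species σ Sp} {sp : Option κ → σ} {L : ℝ} {f : Sp → E → ℂ}
    (hf : Adm P (sp none) L f) {φ : Wv κ Sp} (hφ : Tst P (fun j => sp (some j)) L φ) :
    Tst P sp L (cre P sp f φ) := by
  refine ⟨fun τ => ((hf.nice.tens hφ.nice).symz τ).1, ?_, fun τ x hx i => ?_,
    symz_sym (tens_sym f hφ)⟩
  · obtain ⟨r, hr, hs⟩ := hφ.supp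
    obtain ⟨r', hr', hs'⟩ := hf.supp
    exact ⟨max r r', max_lt hr hr', fun τ x hx i =>
      cre_supp (C := fun z => ‖z‖ ≤ max r r') (fun t z h => (hs' t z h).trans (le_max_right _ _))
        (fun τ x h j => (hs τ x h j).trans (le_max_left _ _)) hx i⟩
  · obtain ⟨o, ho, h1⟩ := symz_ne hx
    have h2 : ∀ a, (τ ∘ Equiv.swap none o) a ∈ P.spins (sp a) := by
      rintro (_ | a)
      · exact hf.spin _ _ (left_ne_zero_of_mul h1)
      · exact hφ.spin _ _ (right_ne_zero_of_mul h1) a
    have := h2 (Equiv.swap none o i)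
    rw [sp_swap ho.symm] at this
    simpa using this

theorem ip_symm {T Y : Type} [Fintype T] [MeasureSpace Y] (φ ψ : T → Y → ℂ) :
    conj (ip ψ φ) = ip φ ψ := ipU_symm _ _ _

theorem ip_smul_right {T Y : Type} [Fintype T] [MeasureSpace Y] (φ ψ : T → Y → ℂ) (c : ℂ) :
    ip φ (c • ψ) = c * ip φ ψ := ipU_smul _ _ _ _

theorem ip_smul_left {T Y : Type} [Fintype T] [MeasureSpace Y] (φ ψ : T → Y → ℂ) (c : ℂ) :
    ip (c • φ) ψ = conj c * ip φ ψ := by
  rw [← ip_symm, ip_smul_right, map_mul, ip_symm]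

theorem ip_symz {P : Species σ Sp} {sp : Option κ → σ} {L : ℝ} {t u : Wv (Option κ) Sp}
    (ht : Cc t) (hu : Tst P sp L u) : ip (symz P sp t) u = (Jset sp).card * ip t u := by
  have h1 : ∀ o ∈ Jset sp, ip u (sg P sp o • rel (Equiv.swap none o) t) = ip u t := by
    intro o ho
    rcases eq_or_ne o none with rfl | h0
    · simp [sg]
    · have h2 := hu.sym none o h0.symm (mem_Jset.mp ho).symm
      have h3 : ip (rel (Equiv.swap none o) u) (rel (Equiv.swap none o) t) = ip u t := ip_rel _ _ _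
      rw [← h3, h2, ip_smul_left, ip_smul_right, conj_eta]
      simp only [sg, if_neg h0]
  rw [← ip_symm, symz, ip, ipU_sum locInt_one (fun τ => (hu.nice.cc τ).1) _
    fun o _ => (ht.rel _).smul _]
  have h4 := Finset.sum_congr rfl h1
  simp only [ip] at h4
  rw [h4, Finset.sum_const, nsmul_eq_mul, map_mul, ipU_symm]
  simp [ip]

theorem ip_cre {P : Species σ Sp} {sp : Option κ → σ} {L : ℝ} {f : Sp → E → ℂ} (hf : Cc f)
    {φ : Wv κ Sp} (hφ : Cc φ) {u : Wv (Option κ) Sp} (hu : Tst P sp L u) :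
    ip (cre P sp f φ) u = (Jset sp).card * ip φ (ann f u) := by
  rw [cre, ip_symz (hf.tens hφ) hu, ip_tens (fun t => (hf t).1) (fun t => (hφ t).1) hu.nice.cc]

theorem ip_exch {f : Sp → E → ℂ} (hf : Nice f) {v : Wv κ Sp} (hv : Nice v) (j : κ) :
    ip (tens f v) (rel (Equiv.swap none (some j)) (tens f v)) =
      nr (ann f (rel (Equiv.optionSubtypeNe j).symm v)) := by
  set e := Equiv.optionSubtypeNe j with he
  set v' := rel e.symm v with hv'
  have hv'n : Nice v' := hv.rel _
  have hfc : ∀ t, Continuous (f t) := fun t => (hf.cc t).1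
  have h1 : ann f (rel (Equiv.swap none (some j)) (tens f v)) = rel e (tens f (ann f v')) := by
    funext τ x
    have h2 : ∀ {β : Type} (z : β) (x : κ → β), (cons z x ∘ Equiv.swap none (some j)) ∘ some =
        cons z ((x ∘ e) ∘ some) ∘ e.symm := by
      intro β z x
      funext a
      rcases eq_or_ne a j with rfl | ha
      · simp [he]
      · simp [he, Equiv.optionSubtypeNe_symm_of_ne ha, Equiv.swap_apply_of_ne_of_ne, ha]
    have h3 : slice (rel (Equiv.swap none (some j)) (tens f v)) τ x =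
        f (τ j) (x j) • slice v' ((τ ∘ e) ∘ some) ((x ∘ e) ∘ some) := by
      funext t z
      simp only [slice, rel, tens, h2, hv', Pi.smul_apply, smul_eq_mul]
      simp
    show ip f _ = _
    rw [h3, ip, ipU_smul]
    rfl
  rw [ip_tens hfc (fun t => (hv.cc t).1) ((hf.tens hv).rel _).cc, h1, ← rel_rel_symm e v, ip_rel,
    ← hv', ip, ← ipU_symm, ← ip, ip_tens hfc (fun t => ((hv'n.ann hfc).cc t).1) hv'n.cc, ip,
    ipU_self, Complex.conj_ofReal, nr]

theorem nr_cre_le {P : Species σ Sp} {sp : Option κ → σ} {L : ℝ} {f : Sp → E → ℂ}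
    (hf : Adm P (sp none) L f) {v : Wv κ Sp} (hv : Tst P (fun j => sp (some j)) L v) :
    nr (cre P sp f v) ≤ (Jset sp).card * (nr f * nr v +
      ∑ j, nr (ann f (rel (Equiv.optionSubtypeNe j).symm v))) := by
  have ht := hf.nice.tens hv.nice
  have h1 := ip_symz ht.cc (hv.cre hf)
  have h2 : (nr (cre P sp f v) : ℂ) = (Jset sp).card *
      ∑ o ∈ Jset sp, sg P sp o * ip (tens f v) (rel (Equiv.swap none o) (tens f v)) := by
    rw [nr, ← ipU_self]
    refine h1.trans ?_
    rw [ip, cre, symz, ipU_sum locInt_one (fun τ => (ht.cc τ).1) _ fun o _ => (ht.cc.rel _).smul _]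
    simp only [ipU_smul, ip]
  have h3 : nr (cre P sp f v) = ‖(nr (cre P sp f v) : ℂ)‖ := by
    rw [Complex.norm_real, Real.norm_eq_abs, abs_of_nonneg (nr_nonneg _)]
  rw [h3, h2, norm_mul, Complex.norm_natCast]
  refine mul_le_mul_of_nonneg_left ((norm_sum_le _ _).trans ?_) (Nat.cast_nonneg _)
  refine (Finset.sum_le_sum_of_subset_of_nonneg (Finset.subset_univ _)
    fun _ _ _ => norm_nonneg _).trans (le_of_eq ?_)
  rw [Fintype.sum_option]
  simp only [norm_mul, norm_sg, one_mul, ip_exch hf.nice hv.nice, Complex.norm_real,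
    Real.norm_eq_abs, abs_of_nonneg (nr_nonneg _), Equiv.swap_self, rel_refl]
  rw [ip, ipU_self, ← nr, nr_tens hf.nice.cc hv.nice.cc, Complex.norm_real, Real.norm_eq_abs,
    abs_of_nonneg (mul_nonneg (nr_nonneg _) (nr_nonneg _))]

/-! insertion into a hole -/

def Hole (sp : ι → σ) (s : σ) (y : E) (l : ℝ) (φ : Wv ι Sp) : Prop :=
  ∀ τ x, φ τ x ≠ 0 → ∀ j, sp j = s → 2 * l ≤ ‖x j - y‖

def Loc (sp : Option κ → σ) (y : E) (l : ℝ) (t : Wv (Option κ) Sp) : Prop :=
  ∀ τ x, t τ x ≠ 0 → ‖x none - y‖ ≤ l ∧ ∀ j, sp (some j) = sp none → 2 * l ≤ ‖x (some j) - y‖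

theorem Loc.dv {sp : Option κ → σ} {y : E} {l : ℝ} {t : Wv (Option κ) Sp} (h : Loc sp y l t)
    (v : X (Option κ)) : Loc sp y l (Dv v t) := by
  intro τ x hx
  have hc : IsClosed {x : X (Option κ) |
      ‖x none - y‖ ≤ l ∧ ∀ j, sp (some j) = sp none → 2 * l ≤ ‖x (some j) - y‖} := by
    rw [Set.ofPred_and]
    refine IsClosed.inter (isClosed_le (by fun_prop) continuous_const) ?_
    simp only [Set.ofPred_forall]
    exact isClosed_iInter fun j => isClosed_iInter fun _ =>
      isClosed_le continuous_const (by fun_prop)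
  have h1 : fderiv ℝ (t τ) x ≠ 0 := fun h0 => hx (by simp [Dv, h0])
  exact closure_minimal (fun x hx => h τ x hx) hc (support_fderiv_subset ℝ h1)

theorem Loc.disj {sp : Option κ → σ} {y : E} {l : ℝ} (hl : 0 < l) {t t' : Wv (Option κ) Sp}
    (h : Loc sp y l t) (h' : Loc sp y l t') (τ x) {o o' : Option κ} (ho : o ∈ Jset sp)
    (ho' : o' ∈ Jset sp) (hne : o ≠ o') (c c' : ℂ) :
    (c • rel (Equiv.swap none o) t) τ x = 0 ∨ (c' • rel (Equiv.swap none o') t') τ x = 0 := by
  by_contra h0
  push Not at h0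
  have h1 := (h _ _ (right_ne_zero_of_mul h0.1)).1
  have h2 := (h' _ _ (right_ne_zero_of_mul h0.2)).2
  simp only [Function.comp_apply, Equiv.swap_apply_left] at h1 h2
  rcases hj : Equiv.swap none o' o with _ | j
  · apply hne
    have := congrArg (Equiv.swap none o') hj
    simpa using this
  · have h3 := h2 j (by rw [← hj, sp_swap (mem_Jset.mp ho').symm, mem_Jset.mp ho])
    rw [← hj, Equiv.swap_apply_self] at h3
    linarith

theorem pot_symz {P : Species σ Sp} {sp : Option κ → σ} {y : E} {l : ℝ} (hl : 0 < l)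
    {t : Wv (Option κ) Sp} (ht : Cc t) (h : Loc sp y l t) {U : X (Option κ) → ℝ}
    (hU : LocallyIntegrable U) (hs : ∀ o ∈ Jset sp, ∀ x, U (x ∘ Equiv.swap none o) = U x) :
    pot U (symz P sp t) = (Jset sp).card * pot U t := by
  rw [symz, pot_sum_of_disj hU _ (fun o _ => (ht.rel _).smul _)
    fun τ x o ho o' ho' hne => h.disj hl h τ x ho ho' hne _ _]
  rw [Finset.sum_congr rfl (g := fun _ => pot U t), Finset.sum_const, nsmul_eq_mul]
  intro o ho
  rw [pot_smul, norm_sg, ← pot_rel (Equiv.swap none o) U t]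
  simp only [hs o ho]
  simp

theorem en_symz {P : Species σ Sp} {sp : Option κ → σ} {y : E} {l : ℝ} (hl : 0 < l)
    {t : Wv (Option κ) Sp} (ht : Nice t) (h : Loc sp y l t) :
    en P sp (symz P sp t) = (Jset sp).card * en P sp t := by
  have h1 : ∀ i, kin i (symz P sp t) =
      ∑ o ∈ Jset sp, kin i (sg P sp o • rel (Equiv.swap none o) t) := by
    intro i
    unfold kin
    rw [Finset.sum_comm]
    refine Finset.sum_congr rfl fun k _ => ?_
    rw [symz, Dv_sum _ fun o _ => (ht.rel _).smul _]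
    refine pot_sum_of_disj locInt_one _ (fun o _ => (((ht.rel _).smul _).dv _).cc)
      fun τ x o ho o' ho' hne => ?_
    rw [Dv_smul (ht.rel _), Dv_smul (ht.rel _), Dv_rel, Dv_rel]
    exact (h.dv _).disj hl (h.dv _) τ x ho ho' hne _ _
  have h2 : en P sp (symz P sp t) =
      ∑ o ∈ Jset sp, en P sp (sg P sp o • rel (Equiv.swap none o) t) := by
    unfold en
    rw [Finset.sum_add_distrib, Finset.sum_comm (s := Jset sp)]
    simp only [h1, Finset.sum_div]
    congr 1
    exact pot_sum_of_disj (locInt_coulomb _) _ (fun o _ => (ht.cc.rel _).smul _)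
      fun τ x o ho o' ho' hne => h.disj hl h τ x ho ho' hne _ _
  rw [h2, Finset.sum_congr rfl (g := fun _ => en P sp t), Finset.sum_const, nsmul_eq_mul]
  intro o ho
  rw [en_smul _ _ (ht.rel _), norm_sg, en_rel]
  simp only [sp_swap (mem_Jset.mp ho).symm]
  simp

theorem loc_tens {sp : Option κ → σ} {y : E} {l : ℝ} {f : Sp → E → ℂ}
    (hf : ∀ t z, f t z ≠ 0 → ‖z - y‖ ≤ l) {φ : Wv κ Sp}
    (hφ : Hole (fun j => sp (some j)) (sp none) y l φ) : Loc sp y l (tens f φ) :=
  fun _ _ hx => ⟨hf _ _ (left_ne_zero_of_mul hx), hφ _ _ (right_ne_zero_of_mul hx)⟩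

theorem Hole.cre {P : Species σ Sp} {sp : Option κ → σ} {s : σ} (hs : sp none ≠ s) {y : E} {l : ℝ}
    (f : Sp → E → ℂ) {φ : Wv κ Sp} (hφ : Hole (fun j => sp (some j)) s y l φ) :
    Hole sp s y l (cre P sp f φ) := by
  intro τ x hx i hi
  obtain ⟨o, ho, h1⟩ := symz_ne hx
  rcases i with _ | i
  · exact (hs hi).elim
  · have h2 := hφ _ _ (right_ne_zero_of_mul h1) i hi
    have h3 : Equiv.swap none o (some i) = some i :=
      Equiv.swap_apply_of_ne_of_ne (by simp) (by rintro rfl; exact hs (ho.symm.trans hi))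
    simpa [h3] using h2

theorem Hole.smul {sp : ι → σ} {s : σ} {y : E} {l : ℝ} {φ : Wv ι Sp} (h : Hole sp s y l φ)
    (c : ℂ) : Hole sp s y l (c • φ) := fun τ x hx => h τ x (right_ne_zero_of_mul hx)

theorem Hole.ann {sp : Option κ → σ} {s : σ} {y : E} {l : ℝ} {u : Wv (Option κ) Sp}
    (h : Hole sp s y l u) (f : Sp → E → ℂ) : Hole (fun j => sp (some j)) s y l (ann f u) := by
  intro τ x hx j hj
  obtain ⟨t, z, h1⟩ := ann_ne hx
  exact h _ _ h1 (some j) hj

end Pool.Agent.Lib.MP_0655ed_mp
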