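import Mathlib

open MeasureTheory

namespace Pool.Agent.Lib.MP_0655ed_mp

/-- Species data: charge, mass, statistics and the finite set of spin states of each species. -/
structure Species (σ Sp : Type) where
  charge : σ → ℝ
  mass : σ → ℝ
  fermion : σ → Bool
  spins : σ → Finset Sp

variable {σ Sp ι : Type}

/-- Smooth wave functions compactly supported in the open cube of side `L`, with the allowed spins
and the symmetry of each species; particle `i` has species `sp i`. -/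
def IsTest [Fintype ι] [DecidableEq ι] (P : Species σ Sp) (sp : ι → σ) (L : ℝ)
    (ψ : (ι → Sp) → (ι → Fin 3 → ℝ) → ℂ) : Prop :=
  (∀ τ, ContDiff ℝ (⊤ : ℕ∞) (ψ τ)) ∧
  (∀ τ, tsupport (ψ τ) ⊆ {x | ∀ i k, |x i k| < L / 2}) ∧
  (∀ τ x, ψ τ x ≠ 0 → ∀ i, τ i ∈ P.spins (sp i)) ∧
  ∀ i j, i ≠ j → sp i = sp j → ∀ τ x,
    ψ (τ ∘ Equiv.swap i j) (x ∘ Equiv.swap i j) = (if P.fermion (sp i) then -1 else 1) * ψ τ x

/-- Squared `L²` norm. -/
noncomputable def nrm [Fintype ι] [DecidableEq ι] [Fintype Sp]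
    (ψ : (ι → Sp) → (ι → Fin 3 → ℝ) → ℂ) : ℝ :=
  ∑ τ, ∫ x, ‖ψ τ x‖ ^ 2

/-- Coulomb energy of a configuration. -/
noncomputable def coulomb [Fintype ι] [DecidableEq ι] (c : ι → ℝ) (x : ι → Fin 3 → ℝ) : ℝ :=
  (1 / 2) * ∑ i, ∑ j ∈ Finset.univ.erase i, c i * c j / √(∑ k, (x i k - x j k) ^ 2)

/-- Quadratic form of the Hamiltonian. -/
noncomputable def energy [Fintype ι] [DecidableEq ι] [Fintype Sp] (P : Species σ Sp)
    (sp : ι → σ) (ψ : (ι → Sp) → (ι → Fin 3 → ℝ) → ℂ) : ℝ :=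
  ∑ τ, ∫ x, ((∑ i, ∑ k, ‖fderiv ℝ (ψ τ) x (Pi.single i (Pi.single k 1))‖ ^ 2
      / (2 * P.mass (sp i))) + coulomb (fun i => P.charge (sp i)) x * ‖ψ τ x‖ ^ 2)

/-- Min-max values of a quadratic form `q` on the vectors satisfying `T`. -/
noncomputable def minmax {V : Type} [AddCommGroup V] [Module ℂ V] (T : V → Prop)
    (nr q : V → ℝ) (k : ℕ) : ℝ :=
  sInf {c | ∃ W : Submodule ℂ V, (∀ ψ ∈ W, T ψ) ∧ Module.finrank ℂ W = k + 1 ∧
    ∀ ψ ∈ W, q ψ ≤ c * nr ψ}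

/-- The `k`-th eigenvalue (from `0`, with multiplicity) of the Dirichlet Hamiltonian with
occupation numbers `n` in the cube of side `L`. -/
noncomputable def eig [Fintype σ] [DecidableEq σ] [Fintype Sp] (P : Species σ Sp) (L : ℝ)
    (n : σ → ℕ) (k : ℕ) : ℝ :=
  minmax (IsTest (ι := (s : σ) × Fin (n s)) P Sigma.fst L) nrm (energy P Sigma.fst) k

/-- Free energy `-T log Tr exp (-H / T)`. -/
noncomputable def freeEnergy [Fintype σ] [DecidableEq σ] [Fintype Sp] (P : Species σ Sp) (L : ℝ)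
    (n : σ → ℕ) (T : ℝ) : ℝ :=
  -T * Real.log (∑' k, Real.exp (-eig P L n k / T))

/-- H-stability with constant `A`. -/
def Stable [Fintype σ] [DecidableEq σ] [Fintype Sp] (P : Species σ Sp) (A : ℝ) : Prop :=
  ∀ L : ℝ, 0 < L → ∀ (n : σ → ℕ) (ψ), IsTest (ι := (s : σ) × Fin (n s)) P Sigma.fst L ψ →
    -A * (∑ s, n s : ℕ) * nrm ψ ≤ energy P Sigma.fst ψ

end Pool.Agent.Lib.MP_0655ed_mp
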