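import Pool.Agent.Lib.MP_0655ed_mp.Main

open scoped ComplexConjugate
open Finset MeasureTheory

set_option linter.unusedSectionVars false
set_option maxHeartbeats 400000

namespace Pool.Agent.Lib.MP_0655ed_mp

variable {σ Sp : Type} [Fintype σ] [DecidableEq σ] [Fintype Sp]

theorem eig_eq (P : Species σ Sp) {L : ℝ} (hL : 0 < L) (n : σ → ℕ) (k : ℕ) :
    eig P L n k = (tSys (ι := (s : σ) × Fin (n s)) P Sigma.fst L).lam k := by
  unfold eig minmax Sys.lam Sys.eset
  congr 1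
  ext c
  constructor
  · rintro ⟨W, h1, h2, h3⟩
    refine ⟨W, fun ψ hψ => (isTest_iff hL).mp (h1 ψ hψ), h2, fun ψ hψ => ?_⟩
    have := h3 ψ hψ
    rwa [energy_eq _ _ ((isTest_iff hL).mp (h1 ψ hψ)).nice, nrm_eq] at this
  · rintro ⟨W, h1, h2, h3⟩
    refine ⟨W, fun ψ hψ => (isTest_iff hL).mpr (h1 ψ hψ), h2, fun ψ hψ => ?_⟩
    rw [energy_eq _ _ (Tst.nice (h1 ψ hψ)), nrm_eq]
    exact h3 ψ hψ

theorem card_fiber (n : σ → ℕ) (s : σ) (d : ∀ i : (s : σ) × Fin (n s), Decidable (i.1 = s)) :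
    ∑ i : (s : σ) × Fin (n s), (@ite _ (i.1 = s) (d i) 1 0) = n s := by
  rw [Fintype.sum_sigma, Finset.sum_eq_single s]
  · simp
  · intro b _ hb
    simp [hb]
  · simp

theorem final {P : Species σ Sp} (hm : ∀ s, 0 < P.mass s) (hs : ∀ s, (P.spins s).Nonempty)
    {a b : σ} (ha : 0 < P.charge a) (hb : P.charge b = -P.charge a) {A : ℝ} (hA : Stable P A)
    {ρ β : ℝ} (hρ : 0 < ρ) (hβ : 0 < β) :
    ∃ C : ℝ, ∀ n : σ → ℕ, n ≠ 0 → ∑ s, n s * P.charge s = 0 → ∀ L, 0 < L →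
      L ^ 3 = (∑ s, n s : ℕ) / ρ →
      (Summable (fun k => Real.exp (-β * eig P L n k)) ∧
        Summable (fun k => Real.exp (-β * eig P L (n + Pi.single a 1 + Pi.single b 1) k))) ∧
      (eig P L (n + Pi.single a 1 + Pi.single b 1) 0 ≤ eig P L n 0 + C ∧
        eig P L n 0 - eig P L (n + Pi.single a 1 + Pi.single b 1) 0 ≤
          C * ((∑ s, n s : ℕ) / (min (n a) (n b) + 1 : ℕ))) ∧
      Real.log (∑' k, Real.exp (-β * eig P L n k)) -
        Real.log (∑' k, Real.exp (-β * eig P L (n + Pi.single a 1 + Pi.single b 1) k)) ≤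
        C + Real.log ((n a + 1) * (n b + 1) / ((∑ s, n s : ℕ) : ℝ) ^ 2) ∧
      Real.log (∑' k, Real.exp (-β * eig P L (n + Pi.single a 1 + Pi.single b 1) k)) -
        Real.log (∑' k, Real.exp (-β * eig P L n k)) ≤
        C * ((∑ s, n s : ℕ) / (min (n a) (n b) + 1 : ℕ)) := by
  classical
  obtain ⟨C, hC⟩ := main hm hs hA.stb hρ hβ
  refine ⟨C, fun n hn hneu L hL hL3 => ?_⟩
  have hab : a ≠ b := fun h => by rw [h] at ha hb; linarith
  obtain ⟨s0, hs0⟩ := Function.ne_iff.mp hn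
  have hne : Nonempty ((s : σ) × Fin (n s)) := ⟨⟨s0, ⟨0, Nat.pos_of_ne_zero hs0⟩⟩⟩
  set n' : σ → ℕ := n + Pi.single a 1 + Pi.single b 1 with hn'
  have hne' : Nonempty ((s : σ) × Fin (n' s)) := ⟨⟨a, ⟨0, by simp [hn', hab]⟩⟩⟩
  let sp : Option (Option ((s : σ) × Fin (n s))) → σ := cons a (cons b Sigma.fst)
  obtain ⟨e, he⟩ := exists_equiv sp n' fun s => by
    rw [Fintype.card_subtype, Finset.card_filter, Fintype.sum_option, Fintype.sum_option]
    simp only [sp, cons_none, cons_some, hn', Pi.add_apply, Pi.single_apply]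
    erw [card_fiber]
    simp only [eq_comm (a := s)]
    ring
  have h1 := spec_lam hm hs hA.stb (ι := (s : σ) × Fin (n s)) Sigma.fst hL hβ
  have h2 := spec_lam hm hs hA.stb (ι := (s : σ) × Fin (n' s)) Sigma.fst hL hβ
  have h3 : (fun i => sp (e.symm i)) = Sigma.fst := funext fun i => by rw [← he]; simp
  have h4 := Spec.rel (sp := sp) e.symm (by rw [h3]; exact h2.2)
  have hcard : Fintype.card ((s : σ) × Fin (n s)) = ∑ s, n s := by simp
  have h5 := hC _ sp ha hb (by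
    rw [← hneu, Fintype.sum_sigma]
    simp [sp]) L hL (by rw [hcard]; exact hL3) _ _ _ _ h1.2 h4
  have hJa : (Jset sp).card = n a + 1 := by
    rw [Jset, Finset.card_filter, Fintype.sum_option, Fintype.sum_option]
    simp only [sp, cons_none, cons_some, if_neg hab.symm, if_true]
    erw [card_fiber]
    ring
  have hJb : (Jset fun j => sp (some j)).card = n b + 1 := by
    rw [Jset, Finset.card_filter, Fintype.sum_option]
    simp only [sp, cons_none, cons_some, if_true]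
    erw [card_fiber]
    ring
  have hmin : min ((n a + 1 : ℕ) : ℝ) ((n b + 1 : ℕ) : ℝ) = (min (n a) (n b) + 1 : ℕ) := by
    rw [← Nat.cast_min, Nat.add_min_add_right]
  rw [hJa, hJb, hcard, hmin] at h5
  simp only [eig_eq P hL]
  push_cast at h5 ⊢
  exact ⟨⟨h1.1, h2.1⟩, h5⟩

end Pool.Agent.Lib.MP_0655ed_mp
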