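import Pool.Agent.Lib.MP_0655ed_mp.Create

open scoped ComplexConjugate
open Finset MeasureTheory

set_option linter.unusedSectionVars false
set_option maxHeartbeats 400000

namespace Pool.Agent.Lib.MP_0655ed_mp

noncomputable def ek (L : ℝ) (k : Fin 3 → ℤ) (z : E) : ℂ :=
  Complex.exp (∑ d, 2 * Real.pi * Complex.I * k d / L * z d)

theorem continuous_ek (L : ℝ) (k : Fin 3 → ℤ) : Continuous (ek L k) := by
  unfold ek; fun_prop

noncomputable local instance instMS : MeasureSpace UnitAddCircle := ⟨AddCircle.haarAddCircle⟩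

local instance instPM : IsProbabilityMeasure (volume : Measure UnitAddCircle) :=
  inferInstanceAs (IsProbabilityMeasure AddCircle.haarAddCircle)

theorem parseval_unit {h : E → ℂ} (hc : Continuous h) {r : ℝ} (hr : r < 1 / 2)
    (hs : ∀ z, h z ≠ 0 → ‖z‖ ≤ r) :
    HasSum (fun k : Fin 3 → ℤ => ‖∫ z, conj (ek 1 k z) * h z‖ ^ 2) (∫ z, ‖h z‖ ^ 2) := by
  let a : Fin 3 → ℝ := fun _ => -(1 / 2)
  let H : UnitAddTorus (Fin 3) → ℂ := fun t => h (UnitAddTorus.measurableEquivPiIoc a t).1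
  have hcs : HasCompactSupport h := HasCompactSupport.intro (isCompact_closedBall 0 r)
    fun z hz => by
      by_contra h0
      exact hz (mem_closedBall_zero_iff.mpr (hs z h0))
  obtain ⟨C, hC⟩ := hc.bounded_above_of_compact_support hcs
  have hm : Measurable H := hc.measurable.comp
    (measurable_subtype_coe.comp (UnitAddTorus.measurableEquivPiIoc a).measurable)
  have hL : MemLp H 2 volume :=
    MemLp.of_bound hm.aestronglyMeasurable C (ae_of_all _ fun t => hC _)
  have hH : ∀ x : E, (∀ i, x i ∈ Set.Ioc (a i) (a i + 1)) → H (fun i => x i) = h x := by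
    intro x hx
    have := (UnitAddTorus.measurableEquivPiIoc a).apply_symm_apply ⟨x, hx⟩
    exact congrArg (fun y : {x : E // ∀ i, x i ∈ Set.Ioc (a i) (a i + 1)} => h y.1) this
  have hout : ∀ x : E, x ∉ {x : E | ∀ i, x i ∈ Set.Ioc (a i) (a i + 1)} → h x = 0 := by
    intro x hx
    by_contra h0
    apply hx
    intro i
    have h1 := (norm_le_pi_norm x i).trans (hs x h0)
    rw [Real.norm_eq_abs, abs_le] at h1
    constructor <;> simp only [a] <;> linarith [h1.1, h1.2]
  have hms : MeasurableSet {x : E | ∀ i, x i ∈ Set.Ioc (a i) (a i + 1)} :=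
    MeasurableSet.univ_pi' fun i => measurableSet_Ioc
  have h1 := UnitAddTorus.hasSum_sq_mFourierCoeff (hL.toLp H)
  have h2 : ∫ t, ‖(hL.toLp H) t‖ ^ 2 = ∫ z, ‖h z‖ ^ 2 := by
    rw [integral_congr_ae (g := fun t => ‖H t‖ ^ 2) (by
      filter_upwards [hL.coeFn_toLp] with t ht
      rw [ht])]
    refine (UnitAddTorus.integral_preimage (fun t => ‖H t‖ ^ 2) a).trans ?_
    rw [setIntegral_congr_fun hms (g := fun z => ‖h z‖ ^ 2) fun x hx => by simp only [hH x hx]]
    exact setIntegral_eq_integral_of_forall_compl_eq_zero fun x hx => by simp [hout x hx]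
  have h3 : ∀ k, UnitAddTorus.mFourierCoeff (hL.toLp H) k = ∫ z, conj (ek 1 k z) * h z := by
    intro k
    have h4 : UnitAddTorus.mFourierCoeff (hL.toLp H) k = UnitAddTorus.mFourierCoeff H k := by
      refine integral_congr_ae ?_
      filter_upwards [hL.coeFn_toLp] with t ht
      rw [ht]
    rw [h4, UnitAddTorus.mFourierCoeff_eq_integral H k a,
      setIntegral_congr_fun hms (g := fun z => conj (ek 1 k z) * h z) fun x hx => ?_]
    · exact setIntegral_eq_integral_of_forall_compl_eq_zero fun x hx => by simp [hout x hx]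
    · simp only [hH x hx, smul_eq_mul, UnitAddTorus.mFourier_neg]
      congr 2
      simp only [UnitAddTorus.mFourier, ContinuousMap.coe_mk, ek, Complex.exp_sum,
        fourier_coe_apply]
      refine Finset.prod_congr rfl fun d _ => ?_
      congr 1
      push_cast
      ring
  simp only [h3] at h1
  exact h2 ▸ h1

theorem parseval {L : ℝ} (hL : 0 < L) {h : E → ℂ} (hc : Continuous h) {r : ℝ} (hr : r < L / 2)
    (hs : ∀ z, h z ≠ 0 → ‖z‖ ≤ r) :
    HasSum (fun k : Fin 3 → ℤ => (L ^ 3)⁻¹ * ‖∫ z, conj (ek L k z) * h z‖ ^ 2)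
      (∫ z, ‖h z‖ ^ 2) := by
  have h1 := parseval_unit (h := fun z => h (L • z)) (hc.comp (continuous_const_smul L))
    (r := r / L) (by rw [div_lt_iff₀ hL]; linarith) (fun z hz => by
      have := hs _ hz
      rw [norm_smul, Real.norm_eq_abs, abs_of_pos hL] at this
      rw [le_div_iff₀ hL]
      linarith)
  have h2 : ∀ k z, ek 1 k z = ek L k (L • z) := by
    intro k z
    unfold ek
    congr 1
    refine Finset.sum_congr rfl fun d _ => ?_
    have : (L : ℂ) ≠ 0 := by exact_mod_cast hL.ne'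
    simp only [Pi.smul_apply, smul_eq_mul]
    push_cast
    field_simp
  have hp : 0 < L ^ 3 := by positivity
  simp only [h2] at h1
  have h3 := fun k => Measure.integral_comp_smul (μ := (volume : Measure E))
    (fun z => conj (ek L k z) * h z) L
  have h4 := Measure.integral_comp_smul (μ := (volume : Measure E)) (fun z => ‖h z‖ ^ 2) L
  simp only [Module.finrank_fin_fun, abs_of_pos (inv_pos.mpr hp)] at h3 h4
  simp only [h3, h4, norm_smul, Real.norm_eq_abs, abs_of_pos (inv_pos.mpr hp), smul_eq_mul] at h1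
  have h5 := h1.mul_left (L ^ 3)
  rw [← mul_assoc, mul_inv_cancel₀ hp.ne', one_mul] at h5
  refine h5.congr_fun fun k => ?_
  field_simp

theorem ek_deriv (L : ℝ) (k : Fin 3 → ℤ) {h : E → ℂ} (hc : ContDiff ℝ (⊤ : ℕ∞) h)
    (hs : HasCompactSupport h) (d : Fin 3) :
    ∫ z, conj (ek L k z) * fderiv ℝ h z (Pi.single d 1) =
      (2 * Real.pi * Complex.I * k d / L) * ∫ z, conj (ek L k z) * h z := by
  let l : E →L[ℝ] ℂ := ∑ d, (-(2 * Real.pi * Complex.I * k d / L) : ℂ) •
    Complex.ofRealCLM.comp (ContinuousLinearMap.proj d)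
  have hl : ∀ z, l z = ∑ d, -(2 * Real.pi * Complex.I * k d / L) * z d := by
    intro z
    simp [l]
  have h1 : ∀ z, conj (ek L k z) = Complex.exp (l z) := by
    intro z
    rw [ek, ← Complex.exp_conj, hl, map_sum]
    congr 1
    refine Finset.sum_congr rfl fun d _ => ?_
    simp only [map_mul, map_div₀, Complex.conj_ofReal, Complex.conj_I, map_intCast, map_ofNat]
    ring
  have h2 : ∀ z, HasFDerivAt (fun z => Complex.exp (l z)) (Complex.exp (l z) • l) z :=
    fun z => l.hasFDerivAt.cexp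
  have h3 : ∀ z, fderiv ℝ (fun z => Complex.exp (l z)) z (Pi.single d 1) =
      -(2 * Real.pi * Complex.I * k d / L) * Complex.exp (l z) := by
    intro z
    rw [(h2 z).fderiv, _root_.smul_apply, hl (Pi.single d 1), Finset.sum_eq_single d]
    · simp [mul_comm]
    · intro b _ hb
      simp [hb]
    · simp
  have hce : Continuous fun z => Complex.exp (l z) := by fun_prop
  simp only [h1]
  rw [integral_mul_fderiv_eq_neg_fderiv_mul_of_integrable]
  · simp only [h3, mul_assoc, integral_const_mul]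
    ring
  · simp only [h3]
    exact ((continuous_const.mul hce).mul hc.continuous).integrable_of_hasCompactSupport
      hs.mul_left
  · exact (hce.mul ((hc.continuous_fderiv (by simp)).clm_apply
      continuous_const)).integrable_of_hasCompactSupport (hs.fderiv_apply ℝ _).mul_left
  · exact (hce.mul hc.continuous).integrable_of_hasCompactSupport hs.mul_left
  · exact fun z _ => (h2 z).differentiableAt
  · exact fun z _ => hc.differentiable (by simp) z

variable {σ Sp ι κ : Type} [Fintype κ] [DecidableEq κ] [Fintype Sp] [DecidableEq Sp]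

noncomputable def fm (L : ℝ) (α : (Fin 3 → ℤ) × Sp) : Sp → E → ℂ :=
  fun t z => if t = α.2 then ((√(L ^ 3))⁻¹ : ℝ) * ek L α.1 z else 0

theorem continuous_fm (L : ℝ) (α : (Fin 3 → ℤ) × Sp) (t : Sp) : Continuous (fm L α t) := by
  unfold fm
  split_ifs
  · exact continuous_const.mul (continuous_ek _ _)
  · exact continuous_const

theorem contDiff_fm (L : ℝ) (α : (Fin 3 → ℤ) × Sp) (t : Sp) :
    ContDiff ℝ (⊤ : ℕ∞) (fm L α t) := by
  unfold fm
  split_ifs
  · refine contDiff_const.mul (ContDiff.cexp (ContDiff.sum fun d _ => contDiff_const.mul ?_))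
    exact Complex.ofRealCLM.contDiff.comp (contDiff_apply ℝ ℝ d)
  · exact contDiff_const

theorem ip_fm (L : ℝ) (α : (Fin 3 → ℤ) × Sp) (h : Sp → E → ℂ) :
    ip (fm L α) h = ((√(L ^ 3))⁻¹ : ℝ) * ∫ z, conj (ek L α.1 z) * h α.2 z := by
  unfold ip ipU
  rw [Finset.sum_eq_single α.2]
  · rw [← integral_const_mul]
    refine integral_congr_ae (ae_of_all _ fun z => ?_)
    simp only [fm, if_true, map_mul, Complex.conj_ofReal]
    push_cast
    ring
  · intro t _ ht
    simp [fm, ht]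
  · simp

theorem parseval_fm {L : ℝ} (hL : 0 < L) {h : Sp → E → ℂ} (hc : Cc h) {r : ℝ} (hr : r < L / 2)
    (hs : ∀ t z, h t z ≠ 0 → ‖z‖ ≤ r) :
    HasSum (fun α : (Fin 3 → ℤ) × Sp => ‖ip (fm L α) h‖ ^ 2) (nr h) := by
  have h1 : ∀ t : Sp, HasSum (fun α : (Fin 3 → ℤ) × Sp =>
      if α.2 = t then ‖ip (fm L α) h‖ ^ 2 else 0) (∫ z, 1 * ‖h t z‖ ^ 2) := by
    intro t
    have hi : Function.Injective fun k : Fin 3 → ℤ => (k, t) := fun a b h => (Prod.mk.inj h).1
    rw [← hi.hasSum_iff]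
    · simp only [one_mul]
      refine (parseval hL (hc t).1 hr (hs t)).congr_fun fun k => ?_
      simp only [Function.comp_apply, if_true, ip_fm, norm_mul, mul_pow, Complex.norm_real,
        Real.norm_eq_abs, sq_abs, inv_pow]
      rw [Real.sq_sqrt (by positivity)]
    · rintro ⟨k, t'⟩ hx
      rw [if_neg]
      rintro rfl
      exact hx ⟨k, rfl⟩
  refine (hasSum_sum fun t (_ : t ∈ Finset.univ) => h1 t).congr_fun fun α => ?_
  simp

theorem ann_fm_dv (L : ℝ) (α : (Fin 3 → ℤ) × Sp) {u : Wv (Option κ) Sp} (hu : Nice u)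
    (d : Fin 3) : ann (fm L α) (Dv (dir none d) u) =
      (2 * Real.pi * Complex.I * α.1 d / L : ℂ) • ann (fm L α) u := by
  funext τ x
  simp only [ann, Pi.smul_apply, smul_eq_mul, ← Dv_slice hu, ip_fm, Dv]
  rw [ek_deriv L α.1 (hu.slice τ x _).1 (hu.slice τ x _).2]
  ring

theorem Supp.dv [Fintype ι] {r : ℝ} {u : Wv ι Sp} (h : Supp r u) (v : X ι) : Supp r (Dv v u) := by
  intro τ x hx
  have hc : IsClosed {x : X ι | ∀ i, ‖x i‖ ≤ r} := by
    simp only [Set.ofPred_forall]
    exact isClosed_iInter fun j => isClosed_le (by fun_prop) continuous_const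
  have h1 : fderiv ℝ (u τ) x ≠ 0 := fun h0 => hx (by simp [Dv, h0])
  exact closure_minimal (fun x hx => h τ x hx) hc (support_fderiv_subset ℝ h1)

theorem hasSum_pot_ann {L : ℝ} (hL : 0 < L) {u : Wv (Option κ) Sp} (hu : Nice u) {r : ℝ}
    (hr : r < L / 2) (hs : Supp r u) {U : X κ → ℝ} (hU : LocallyIntegrable U) :
    HasSum (fun α : (Fin 3 → ℤ) × Sp => pot U (ann (fm L α) u))
      (pot (fun x => U (x ∘ some)) u) := by
  rw [(pot_rest hU hu.cc).2]
  refine hasSum_sum fun τ _ => ?_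
  have hp : ∀ x, HasSum (fun α : (Fin 3 → ℤ) × Sp => ‖ann (fm L α) u τ x‖ ^ 2)
      (nr (slice u τ x)) := fun x =>
    parseval_fm hL (hu.cc.slice τ x) hr fun t z h => hs _ _ h none
  have hi : ∀ α : (Fin 3 → ℤ) × Sp, Integrable fun x => U x * ‖ann (fm L α) u τ x‖ ^ 2 :=
    fun α => integrable_pot hU (hu.ann (continuous_fm L α)).cc τ
  have h1 := hasSum_integral_of_summable_integral_norm hi (by
    refine summable_of_sum_le (c := ∫ x, ‖U x * nr (slice u τ x)‖)
      (fun α => integral_nonneg fun x => norm_nonneg _) fun s => ?_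
    rw [← integral_finsetSum _ fun α _ => (hi α).norm]
    refine integral_mono (integrable_finsetSum _ fun α _ => (hi α).norm)
      ((pot_rest hU hu.cc).1 τ).norm fun x => ?_
    simp only [norm_mul, ← Finset.mul_sum, norm_pow, norm_norm]
    refine mul_le_mul_of_nonneg_left ?_ (norm_nonneg _)
    exact (sum_le_hasSum s (fun _ _ => by positivity) (hp x)).trans (le_abs_self _))
  have h2 : ∀ x, ∑' α : (Fin 3 → ℤ) × Sp, U x * ‖ann (fm L α) u τ x‖ ^ 2 =
      U x * nr (slice u τ x) := fun x => ((hp x).mul_left (U x)).tsum_eq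
  simpa only [h2] using h1

theorem hasSum_nr_ann {L : ℝ} (hL : 0 < L) {u : Wv (Option κ) Sp} (hu : Nice u) {r : ℝ}
    (hr : r < L / 2) (hs : Supp r u) :
    HasSum (fun α : (Fin 3 → ℤ) × Sp => nr (ann (fm L α) u)) (nr u) :=
  hasSum_pot_ann hL hu hr hs (U := fun _ => 1) locInt_one

theorem hasSum_kin_none {L : ℝ} (hL : 0 < L) {u : Wv (Option κ) Sp} (hu : Nice u) {r : ℝ}
    (hr : r < L / 2) (hs : Supp r u) :
    HasSum (fun α : (Fin 3 → ℤ) × Sp => (∑ d, (2 * Real.pi * α.1 d / L) ^ 2) * nr (ann (fm L α) u))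
      (kin none u) := by
  simp only [Finset.sum_mul]
  refine hasSum_sum fun d _ => ?_
  refine (hasSum_nr_ann hL (hu.dv (dir none d)) hr (hs.dv _)).congr_fun fun α => ?_
  rw [ann_fm_dv L α hu, nr, nr, pot_smul]
  congr 1
  have : (2 * Real.pi * Complex.I * α.1 d / L : ℂ) =
      ((2 * Real.pi * α.1 d / L : ℝ) : ℂ) * Complex.I := by
    push_cast
    ring
  rw [this, norm_mul, Complex.norm_I, mul_one, Complex.norm_real, Real.norm_eq_abs, sq_abs]

theorem hasSum_en_ann (P : Species σ Sp) (sp : Option κ → σ) {L : ℝ} (hL : 0 < L)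
    {u : Wv (Option κ) Sp} (hu : Nice u) {r : ℝ} (hr : r < L / 2) (hs : Supp r u) :
    HasSum (fun α : (Fin 3 → ℤ) × Sp => en P (fun j => sp (some j)) (ann (fm L α) u))
      (en P sp u - kin none u / (2 * P.mass (sp none)) -
        pot (potl (fun i => P.charge (sp i)) none) u) := by
  have h1 : ∀ j, HasSum (fun α : (Fin 3 → ℤ) × Sp => kin j (ann (fm L α) u)) (kin (some j) u) := by
    intro j
    refine hasSum_sum fun d _ => ?_
    simp only [Dv_ann (continuous_fm L _) hu]
    exact hasSum_nr_ann hL (hu.dv _) hr (hs.dv _)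
  have h2 := (hasSum_sum fun j (_ : j ∈ Finset.univ) =>
    (h1 j).div_const (2 * P.mass (sp (some j)))).add
    (hasSum_pot_ann hL hu hr hs (locInt_coulomb fun j => P.charge (sp (some j))))
  have h4 : (coulomb fun i => P.charge (sp i)) = fun x =>
      coulomb (fun j => P.charge (sp (some j))) (x ∘ some) +
        potl (fun i => P.charge (sp i)) none x := funext fun x => coulomb_cons _ x
  have h5 : en P sp u - kin none u / (2 * P.mass (sp none)) -
      pot (potl (fun i => P.charge (sp i)) none) u =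
      ∑ j, kin (some j) u / (2 * P.mass (sp (some j))) +
        pot (fun x => coulomb (fun j => P.charge (sp (some j))) (x ∘ some)) u := by
    unfold en
    rw [h4, pot_add (locInt_rest (locInt_coulomb _)) (locInt_potl _ _) hu.cc, Fintype.sum_option]
    ring
  rw [h5]
  exact h2

/-! weights -/

noncomputable def wt (a : ℝ) (α : (Fin 3 → ℤ) × Sp) : ℝ := ∏ d, (1 + (α.1 d : ℝ) ^ 2 / a ^ 2)⁻¹

theorem wt_pos (a : ℝ) (α : (Fin 3 → ℤ) × Sp) : 0 < wt a α :=
  Finset.prod_pos fun _ _ => by positivity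

theorem wt_le_one (a : ℝ) (α : (Fin 3 → ℤ) × Sp) : wt a α ≤ 1 :=
  Finset.prod_le_one (fun _ _ => by positivity) fun _ _ =>
    inv_le_one_of_one_le₀ (le_add_of_nonneg_right (by positivity))

theorem neg_log_wt (a : ℝ) (α : (Fin 3 → ℤ) × Sp) :
    -Real.log (wt a α) ≤ ∑ d, (α.1 d : ℝ) ^ 2 / a ^ 2 := by
  rw [wt, Real.log_prod fun _ _ => by positivity, ← Finset.sum_neg_distrib]
  refine Finset.sum_le_sum fun d _ => ?_
  rw [Real.log_inv, neg_neg]
  have := Real.log_le_sub_one_of_pos (x := 1 + (α.1 d : ℝ) ^ 2 / a ^ 2) (by positivity)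
  linarith

theorem sum_nat_wt {a : ℝ} (ha : 0 < a) (n : ℕ) :
    ∑ k ∈ Finset.range n, (1 + ((k : ℝ) + 1) ^ 2 / a ^ 2)⁻¹ ≤ 2 * a - 2 * a ^ 2 / (a + n) := by
  induction n with
  | zero => simp; field_simp; rfl
  | succ n ih =>
    rw [Finset.sum_range_succ]
    have hn : (0 : ℝ) ≤ n := Nat.cast_nonneg n
    have h1 : (1 + ((n : ℝ) + 1) ^ 2 / a ^ 2)⁻¹ ≤
        2 * a ^ 2 / (a + n) - 2 * a ^ 2 / (a + (n + 1 : ℕ)) := by
      push_cast
      have h2 : 2 * a ^ 2 / (a + n) - 2 * a ^ 2 / (a + (n + 1)) =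
          2 * a ^ 2 / ((a + n) * (a + n + 1)) := by
        field_simp
        ring
      have h3 : (1 + ((n : ℝ) + 1) ^ 2 / a ^ 2)⁻¹ = a ^ 2 / (a ^ 2 + (n + 1) ^ 2) := by
        field_simp
      rw [h2, h3, div_le_div_iff₀ (by positivity) (by positivity)]
      have h4 : (a + n) * (a + n + 1) ≤ 2 * (a ^ 2 + (n + 1) ^ 2) := by
        nlinarith [sq_nonneg (a - (n + 1))]
      nlinarith [mul_le_mul_of_nonneg_left h4 (sq_nonneg a)]
    linarith

theorem sum_int_wt {a : ℝ} (ha : 0 < a) (s : Finset ℤ) :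
    ∑ k ∈ s, (1 + (k : ℝ) ^ 2 / a ^ 2)⁻¹ ≤ 1 + 4 * a := by
  let f : ℤ → ℝ := fun k => (1 + (k : ℝ) ^ 2 / a ^ 2)⁻¹
  have hb : ∀ n, ∑ k ∈ Finset.range n, (1 + ((k : ℝ) + 1) ^ 2 / a ^ 2)⁻¹ ≤ 2 * a := fun n =>
    (sum_nat_wt ha n).trans (sub_le_self _ (by positivity))
  have h1 : Summable fun k : ℕ => (1 + ((k : ℝ) + 1) ^ 2 / a ^ 2)⁻¹ :=
    summable_of_sum_range_le (fun _ => by positivity) hb
  have h2 : ∑' k : ℕ, (1 + ((k : ℝ) + 1) ^ 2 / a ^ 2)⁻¹ ≤ 2 * a :=
    Real.tsum_le_of_sum_range_le (fun _ => by positivity) hb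
  have h3 : HasSum (fun n : ℕ => f (n + 1)) (∑' k : ℕ, (1 + ((k : ℝ) + 1) ^ 2 / a ^ 2)⁻¹) := by
    simpa [f] using h1.hasSum
  have h4 : HasSum (fun n : ℕ => f (-(n + 1))) (∑' k : ℕ, (1 + ((k : ℝ) + 1) ^ 2 / a ^ 2)⁻¹) := by
    refine h1.hasSum.congr_fun fun n => ?_
    simp only [f]
    push_cast
    ring
  have h5 := HasSum.of_add_one_of_neg_add_one h3 h4
  refine (sum_le_hasSum s (fun _ _ => by positivity) h5).trans ?_
  simp only [f]
  norm_num
  linarith

theorem sum_wt {a : ℝ} (ha : 0 < a) (s : Finset ((Fin 3 → ℤ) × Sp)) :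
    ∑ α ∈ s, wt a α ≤ Fintype.card Sp * (1 + 4 * a) ^ 3 := by
  classical
  let B : Finset ℤ := s.biUnion fun α => Finset.univ.image α.1
  have hs : s ⊆ Fintype.piFinset (fun _ : Fin 3 => B) ×ˢ Finset.univ := by
    intro α hα
    simp only [Finset.mem_product, Fintype.mem_piFinset, Finset.mem_univ, and_true]
    exact fun d => Finset.mem_biUnion.mpr ⟨α, hα, Finset.mem_image_of_mem _ (Finset.mem_univ d)⟩
  refine (Finset.sum_le_sum_of_subset_of_nonneg hs fun α _ _ => (wt_pos a α).le).trans ?_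
  rw [Finset.sum_product]
  simp only [wt, Finset.sum_const, Finset.card_univ, nsmul_eq_mul, ← Finset.mul_sum]
  refine mul_le_mul_of_nonneg_left ?_ (Nat.cast_nonneg _)
  rw [← Finset.prod_univ_sum (fun _ : Fin 3 => B) fun _ (k : ℤ) => (1 + (k : ℝ) ^ 2 / a ^ 2)⁻¹,
    Finset.prod_const, Finset.card_univ, Fintype.card_fin]
  exact pow_le_pow_left₀ (Finset.sum_nonneg fun _ _ => by positivity) (sum_int_wt ha B) 3

end Pool.Agent.Lib.MP_0655ed_mp
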