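import Pool.Agent.Lib.MP_0655ed_mp.Chain

open scoped ComplexConjugate
open Finset MeasureTheory

set_option linter.unusedSectionVars false
set_option maxHeartbeats 400000

namespace Pool.Agent.Lib.MP_0655ed_mp

variable {σ Sp ι ι' κ Y : Type} [Fintype κ] [DecidableEq κ] [Fintype Sp] [DecidableEq Sp]
  [DecidableEq σ] [Fintype ι] [DecidableEq ι] [Fintype ι'] [DecidableEq ι'] [Fintype Y]
  [DecidableEq Y]

theorem Tst.rel_symm {P : Species σ Sp} {sp : ι' → σ} {L : ℝ} {ψ : Wv ι' Sp} (e : ι ≃ ι')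
    (h : Tst P sp L ψ) : Tst P (fun i => sp (e i)) L (Pool.Agent.Lib.MP_0655ed_mp.rel e.symm ψ) :=
  Tst.rel e.symm (by simpa using h)

theorem BG.rel {P : Species σ Sp} {sp : ι' → σ} {L β Z E0 : ℝ} (e : ι ≃ ι') {q : Wv ι Sp → ℝ}
    (h : BG P (fun i => sp (e i)) L Unit (fun _ _ => True) (fun _ => q) β Z E0) :
    BG P sp L Unit (fun _ _ => True) (fun _ u => q (rel e.symm u)) β Z E0 := by
  constructor
  · intro Γ _ φ a m K hK hφ ha hB
    have := h.1 Γ (fun y γ => Pool.Agent.Lib.MP_0655ed_mp.rel e.symm (φ y γ)) a m K hK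
      (fun y γ => ⟨Tst.rel_symm e (hφ y γ).1, trivial⟩) ha fun y v hv => by
        have h1 := hB y _ (Tst.rel e hv)
        have h2 : ∀ γ, ip (Pool.Agent.Lib.MP_0655ed_mp.rel e.symm (φ y γ)) v =
            ip (φ y γ) (Pool.Agent.Lib.MP_0655ed_mp.rel e v) := fun γ => by
          rw [← ip_rel e, rel_rel_symm]
        show ∑ γ, a y γ * ‖ip _ v‖ ^ 2 ≤ K * nr v
        simp only [h2, ← nr_rel e v]
        exact h1
    have h3 : ∀ u, (tSys P (fun i => sp (e i)) L).nr (Pool.Agent.Lib.MP_0655ed_mp.rel e.symm u) =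
        (tSys P sp L).nr u := fun u => nr_rel e.symm u
    simpa only [h3] using this
  · intro y φ hφ _
    have := h.2 y _ (Tst.rel_symm e hφ) trivial
    rw [show (tSys P (fun i => sp (e i)) L).nr (Pool.Agent.Lib.MP_0655ed_mp.rel e.symm φ) =
      (tSys P sp L).nr φ from nr_rel e.symm φ] at this
    exact this

theorem en_rel_symm (P : Species σ Sp) (e : ι ≃ ι') (sp : ι' → σ) (u : Wv ι' Sp) :
    en P (fun i => sp (e i)) (rel e.symm u) = en P sp u := by
  rw [← en_rel, rel_rel_symm]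

theorem gain_rel (P : Species σ Sp) (e : ι ≃ ι') (sp : ι' → σ) (i : ι) (u : Wv ι Sp) :
    gain P sp (e i) (rel e u) = gain P (fun i => sp (e i)) i u := by
  unfold gain
  rw [kin_rel, ← pot_rel e _ u]
  congr 2
  funext x
  exact (potl_rel e (fun j => P.charge (sp j)) i x).symm

theorem gain_sym {P : Species σ Sp} {sp : ι → σ} {L : ℝ} {u : Wv ι Sp} (hu : Tst P sp L u)
    {i j : ι} (h : sp i = sp j) : gain P sp j u = gain P sp i u := by
  rcases eq_or_ne i j with rfl | hij
  · rfl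
  · have h1 := gain_rel P (Equiv.swap i j) sp i u
    simp only [sp_swap h, Equiv.swap_apply_left] at h1
    rw [← h1, hu.sym i j hij h]
    simp only [gain, kin_smul _ hu.nice, pot_smul, norm_eta]
    simp

def Stb (P : Species σ Sp) (A : ℝ) : Prop :=
  ∀ (ι : Type) [Fintype ι] [DecidableEq ι] (sp : ι → σ) (L : ℝ), 0 < L → ∀ ψ : Wv ι Sp,
    Tst P sp L ψ → -A * Fintype.card ι * nr ψ ≤ en P sp ψ

theorem exists_equiv [Fintype σ] (sp : ι → σ) (n : σ → ℕ)
    (h : ∀ s, Fintype.card {i // sp i = s} = n s) :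
    ∃ e : ι ≃ (s : σ) × Fin (n s), ∀ i, (e i).1 = sp i := by
  refine ⟨(Equiv.sigmaFiberEquiv sp).symm.trans (Equiv.sigmaCongrRight fun s =>
    Fintype.equivFinOfCardEq (h s)), fun i => rfl⟩

theorem Stable.stb [Fintype σ] {P : Species σ Sp} {A : ℝ} (h : Stable P A) : Stb P A := by
  intro ι _ _ sp L hL ψ hψ
  obtain ⟨e, he⟩ := exists_equiv sp (fun s => Fintype.card {i // sp i = s}) fun _ => rfl
  have h0 : (fun i => (e i).1) = sp := funext he
  have h1 : Tst P Sigma.fst L (rel e ψ) := Tst.rel e (by rw [h0]; exact hψ)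
  have h2 := h L hL _ _ ((isTest_iff hL).mpr h1)
  rw [energy_eq _ _ h1.nice, nrm_eq, nr_rel, en_rel, h0] at h2
  have h3 : ∑ s, Fintype.card {i // sp i = s} = Fintype.card ι := by
    rw [Fintype.card_congr e]
    simp
  rwa [h3] at h2

theorem Stb.gain {P : Species σ Sp} (hm : ∀ s, 0 < P.mass s) {A : ℝ} (h : Stb P A) {sp : ι → σ}
    {L : ℝ} (hL : 0 < L) {ψ : Wv ι Sp} (hψ : Tst P sp L ψ) :
    -(8 * |A|) * Fintype.card ι * nr ψ ≤ ∑ i, gain P sp i ψ := by
  let φ : Wv ι Sp := fun τ x => ψ τ ((4 : ℝ)⁻¹ • x)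
  have hφ : Tst P sp (4 * L) φ := by
    refine ⟨fun τ => (hψ.smooth τ).comp (contDiff_const_smul _), ?_,
      fun τ x hx => hψ.spin τ _ hx, fun i j hij hs => ?_⟩
    · obtain ⟨r, hr, hs⟩ := hψ.supp
      refine ⟨4 * r, by linarith, fun τ x hx i => ?_⟩
      have := hs τ _ hx i
      rw [Pi.smul_apply, norm_smul] at this
      norm_num at this
      linarith
    · funext τ x
      exact congrFun (congrFun (hψ.sym i j hij hs) τ) ((4 : ℝ)⁻¹ • x)
  set J : ℝ := |(4 : ℝ) ^ Module.finrank ℝ (X ι)| with hJ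
  have hJ0 : 0 < J := by positivity
  have hp : ∀ (U : X ι → ℝ) (ψ : Wv ι Sp), pot (fun x => U ((4 : ℝ)⁻¹ • x))
      (fun τ x => ψ τ ((4 : ℝ)⁻¹ • x)) = J * pot U ψ := by
    intro U ψ
    unfold pot
    rw [Finset.mul_sum]
    exact Finset.sum_congr rfl fun τ _ =>
      Measure.integral_comp_inv_smul volume (fun x => U x * ‖ψ τ x‖ ^ 2) 4
  have h1 : nr φ = J * nr ψ := hp (fun _ => 1) ψ
  have h2 : ∀ i, kin i φ = J / 16 * kin i ψ := by
    intro i
    unfold kin
    rw [Finset.mul_sum]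
    refine Finset.sum_congr rfl fun k _ => ?_
    have h3 : Dv (dir i k) φ =
        (((4 : ℝ)⁻¹ : ℝ) : ℂ) • fun τ x => Dv (dir i k) ψ τ ((4 : ℝ)⁻¹ • x) := by
      funext τ x
      have := (hψ.nice.diff τ _).hasFDerivAt.comp x
        ((hasFDerivAt_id x).const_smul (4 : ℝ)⁻¹)
      show fderiv ℝ (ψ τ ∘ ((4 : ℝ)⁻¹ • id)) x _ = _
      rw [this.fderiv]
      simp [Dv]
    have h4 := hp (fun _ => 1) (Dv (dir i k) ψ)
    rw [h3, nr, pot_smul, h4, nr, Complex.norm_real]
    norm_num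
    ring
  have h3 : pot (coulomb fun i => P.charge (sp i)) φ =
      J / 4 * pot (coulomb fun i => P.charge (sp i)) ψ := by
    have h4 : (coulomb fun i => P.charge (sp i)) = fun x : X ι =>
        (4 : ℝ)⁻¹ * coulomb (fun i => P.charge (sp i)) ((4 : ℝ)⁻¹ • x) := by
      funext x
      simp only [coulomb_eq, potl, Pi.smul_apply, ← smul_sub,
        vk_smul (c := (4 : ℝ)⁻¹) (by norm_num), Finset.mul_sum]
      refine Finset.sum_congr rfl fun i _ => Finset.sum_congr rfl fun j _ => by ring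
    conv_lhs => rw [h4]
    rw [pot_const_mul, hp]
    ring
  have h4 := h ι sp (4 * L) (by linarith) φ hφ
  have h5 : ∑ i, Pool.Agent.Lib.MP_0655ed_mp.gain P sp i ψ =
      (1 / 2) * ∑ i, kin i ψ / (2 * P.mass (sp i)) +
        2 * pot (coulomb fun i => P.charge (sp i)) ψ := by
    unfold Pool.Agent.Lib.MP_0655ed_mp.gain
    rw [Finset.sum_add_distrib, coulomb_eq, pot_const_mul,
      pot_sum _ (fun i _ => locInt_potl _ i) hψ.nice.cc, Finset.mul_sum]
    congr 1
    · refine Finset.sum_congr rfl fun i _ => ?_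
      have := hm (sp i)
      field_simp
      ring
    · ring
  unfold en at h4
  simp only [h1, h2, h3, mul_div_assoc, ← Finset.mul_sum] at h4
  rw [h5]
  have h6 : -|A| * Fintype.card ι * nr ψ ≤ -A * Fintype.card ι * nr ψ :=
    mul_le_mul_of_nonneg_right (mul_le_mul_of_nonneg_right (neg_le_neg (le_abs_self A))
      (Nat.cast_nonneg _)) (nr_nonneg ψ)
  have h7 : -A * Fintype.card ι * nr ψ ≤ (1 / 16) * ∑ i, kin i ψ / (2 * P.mass (sp i)) +
      (1 / 4) * pot (coulomb fun i => P.charge (sp i)) ψ := by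
    refine le_of_mul_le_mul_left ?_ hJ0
    linarith
  linarith

theorem BG.base {P : Species σ Sp} {sp : ι → σ} {L β Z E0 : ℝ} (h : (tSys P sp L).Bd β Z)
    (h' : ∀ ψ, Tst P sp L ψ → E0 * nr ψ ≤ en P sp ψ) :
    BG P sp L Unit (fun _ _ => True) (fun _ => en P sp) β Z E0 :=
  ⟨(tSys P sp L).BL_of_Bd h, fun _ φ hφ _ => h' φ hφ⟩

theorem tst_one [IsEmpty ι] (P : Species σ Sp) (sp : ι → σ) (L : ℝ) :
    Tst P sp L (fun _ _ => 1) ∧ nr (fun (_ : ι → Sp) (_ : X ι) => (1 : ℂ)) = 1 :=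
  ⟨⟨fun _ => contDiff_const, ⟨L / 2 - 1, by linarith, fun _ _ _ i => isEmptyElim i⟩,
    fun _ _ _ i => isEmptyElim i, fun i => isEmptyElim i⟩, by
      simp [nr, pot, Measure.real, volume_pi]⟩

theorem hw_of {β m a0 L : ℝ} (hL : 0 < L) (hm : 0 < m) (ha : 1 ≤ a0) (h : β⁻¹ * m ≤ a0) :
    β⁻¹ / (L * a0) ^ 2 ≤ (2 * Real.pi / L) ^ 2 / (4 * m) := by
  have hpi : 1 ≤ Real.pi ^ 2 := one_le_pow₀ (by linarith [Real.pi_gt_three])
  have h1 : (2 * Real.pi / L) ^ 2 / (4 * m) = (Real.pi ^ 2 * a0 ^ 2 / m) / (L * a0) ^ 2 := by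
    field_simp
    ring
  rw [h1]
  refine div_le_div_of_nonneg_right ?_ (by positivity)
  rw [le_div_iff₀ hm]
  nlinarith

theorem exists_bd {P : Species σ Sp} (hm : ∀ s, 0 < P.mass s) {A : ℝ} (hA : Stb P A)
    {L β : ℝ} (hL : 0 < L) (hβ : 0 < β) (n : ℕ) :
    ∀ (ι : Type) [Fintype ι] [DecidableEq ι] (sp : ι → σ), Fintype.card ι = n →
      ∃ Z, (tSys P sp L).Bd β Z := by
  induction n with
  | zero =>
    intro ι _ _ sp hn
    have : IsEmpty ι := Fintype.card_eq_zero_iff.mp hn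
    refine ⟨1, fun m u hu => ?_⟩
    have h1 := (tSys P sp L).bessel hu _ (tst_one P sp L).1
    have h2 : ∀ k, Real.exp (-β * (tSys P sp L).q (u k)) =
        ‖(tSys P sp L).ip (u k) fun _ _ => 1‖ ^ 2 := by
      intro k
      have h3 : (tSys P sp L).q (u k) = 0 := by
        show en P sp (u k) = 0
        simp [en, pot, coulomb]
      have h4 : nr (u k) = 1 := hu.nr_eq _ k
      rw [h3, mul_zero, Real.exp_zero, ← h4]
      show nr _ = ‖ip _ _‖ ^ 2
      simp [nr, pot, ip, ipU, integral_unique, Measure.real, volume_pi]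
    simp only [h2]
    exact h1.trans (le_of_eq (tst_one P sp L).2)
  | succ n ih =>
    intro ι _ _ sp hn
    have key : ∀ i : ι, ∃ Z, ∀ (m : ℕ) (u : Fin m → Wv ι Sp), (tSys P sp L).ON u →
        ∑ k, Real.exp (-β * (en P sp (u k) - gain P sp i (u k))) ≤ Z := by
      intro i
      let e := Equiv.optionSubtypeNe i
      obtain ⟨Z, hZ⟩ := ih {b // b ≠ i} (fun j => sp (e (some j))) (by
        have := Fintype.card_congr e
        rw [Fintype.card_option, hn] at this
        omega)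
      have h0 := hm (sp i)
      have h1 := remove1 (sp := fun j => sp (e j)) hm hL
        (a := L * (1 + β⁻¹ * P.mass (sp i))) (by positivity) hβ
        (hw_of hL h0 (le_add_of_nonneg_right (by positivity)) (le_add_of_nonneg_left zero_le_one))
        (BG.base hZ (hA _ _ L hL))
      refine ⟨_, fun m u hu => le_trans (le_of_eq ?_)
        ((tSys P sp L).sum_le_of_BL (h1.rel e).1 hu)⟩
      refine Finset.sum_congr rfl fun k _ => ?_
      rw [en_rel_symm, ← gain_rel, rel_rel_symm]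
      rfl
    choose Z hZ using key
    refine ⟨Real.exp (β * (8 * |A|)) * ∑ i, Z i, fun m u hu => ?_⟩
    have h1 : ∀ k, Real.exp (-β * (tSys P sp L).q (u k)) ≤ Real.exp (β * (8 * |A|)) *
        ∑ i, Real.exp (-β * (en P sp (u k) - gain P sp i (u k))) := by
      intro k
      have h2 := hA.gain hm hL (hu.1 k)
      rw [show nr (u k) = 1 from hu.nr_eq _ k, mul_one, mul_comm, ← nsmul_eq_mul,
        ← Finset.card_univ, ← Finset.sum_const] at h2
      have : Nonempty ι := Fintype.card_pos_iff.mp (by omega)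
      obtain ⟨i, -, hi⟩ := Finset.exists_le_of_sum_le Finset.univ_nonempty h2
      refine le_trans ?_ (mul_le_mul_of_nonneg_left (Finset.single_le_sum
        (f := fun i => Real.exp (-β * (en P sp (u k) - gain P sp i (u k))))
        (fun _ _ => (Real.exp_pos _).le) (Finset.mem_univ i)) (Real.exp_pos _).le)
      rw [← Real.exp_add]
      refine Real.exp_le_exp.mpr ?_
      show -β * en P sp (u k) ≤ _
      nlinarith
    refine (Finset.sum_le_sum fun k _ => h1 k).trans ?_
    rw [← Finset.mul_sum, Finset.sum_comm]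
    exact mul_le_mul_of_nonneg_left (Finset.sum_le_sum fun i _ => hZ i m u hu) (Real.exp_pos _).le

theorem exists_loc {P : Species σ Sp} (hs : ∀ s, (P.spins s).Nonempty) {L : ℝ} (n : ℕ) :
    ∀ (ι : Type) [Fintype ι] [DecidableEq ι] (sp : ι → σ), Fintype.card ι = n →
      ∀ (y : E) (r : ℝ), 0 < r → ‖y‖ + r < L / 2 → ∃ ψ : Wv ι Sp, Tst P sp L ψ ∧ nr ψ = 1 ∧
        ∀ τ x, ψ τ x ≠ 0 → ∀ i, ‖x i - y‖ ≤ r := by
  induction n with
  | zero =>
    intro ι _ _ sp hn y r _ _
    have : IsEmpty ι := Fintype.card_eq_zero_iff.mp hn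
    exact ⟨_, (tst_one P sp L).1, (tst_one P sp L).2, fun _ _ _ i => isEmptyElim i⟩
  | succ n ih =>
    intro ι _ _ sp hn y r hr hy
    obtain ⟨i⟩ : Nonempty ι := Fintype.card_pos_iff.mp (by omega)
    let e := Equiv.optionSubtypeNe i
    let w : E := fun _ => r / 2
    have hw : ‖w‖ = r / 2 := by
      rw [pi_norm_const, Real.norm_eq_abs, abs_of_pos (half_pos hr)]
    have hy1 := norm_add_le y w
    have hy2 := norm_sub_le y w
    obtain ⟨φ, hφ, hφ1, hφ2⟩ := ih {b // b ≠ i} (fun j => sp (e (some j))) (by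
        have := Fintype.card_congr e
        rw [Fintype.card_option, hn] at this
        omega) (y - w) (r / 8) (by positivity) (by linarith)
    obtain ⟨f, hf⟩ := exists_orb (l := r / 8) (by positivity)
    obtain ⟨t, ht⟩ := hs (sp i)
    have hadm : Adm P (sp (e none)) L (fy f t (y + w)) := hf.adm ht (by linarith)
    have hfs := fun t' z (hz : fy f t (y + w) t' z ≠ 0) => hf.supp _ (fy_ne hz).2
    refine ⟨rel e (insT P (fun j => sp (e j)) (fy f t (y + w)) φ),
      Tst.rel e ((Tst.cre hadm hφ).smul _), ?_, fun τ x hx j => ?_⟩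
    · rw [nr_rel, nr, pot_insT (by positivity) hadm.nice.cc hfs hφ.nice.cc (fun τ x hx j _ => ?_)
        locInt_one fun _ _ _ => rfl, ← nr, nr_tens hadm.nice.cc hφ.nice.cc, hf.nr_fy, hφ1, one_mul]
      have h1 := hφ2 τ x hx j
      have h2 := norm_sub_le (x j - (y - w)) (x j - (y + w))
      have h3 : x j - (y - w) - (x j - (y + w)) = (2 : ℝ) • w := by
        rw [two_smul]; abel
      rw [h3, norm_smul, hw] at h2
      norm_num at h2
      linarith
    · have h1 := cre_supp (C := fun z => ‖z - y‖ ≤ r) (fun t' z hz => by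
        have h2 := hfs t' z hz
        have h3 := norm_add_le (z - (y + w)) w
        rw [show z - (y + w) + w = z - y by abel] at h3
        linarith) (fun τ x hx j => by
        have h2 := hφ2 τ x hx j
        have h3 := norm_sub_le (x j - (y - w)) w
        rw [show x j - (y - w) - w = x j - y by abel] at h3
        linarith) (right_ne_zero_of_mul hx) (e.symm j)
      rwa [Function.comp_apply, Equiv.apply_symm_apply] at h1

theorem exists_dim {P : Species σ Sp} (hs : ∀ s, (P.spins s).Nonempty) [Nonempty ι] (sp : ι → σ)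
    {L : ℝ} (hL : 0 < L) (k : ℕ) : ∃ W : Submodule ℂ (Wv ι Sp),
      (∀ ψ ∈ W, ψ ∈ (tSys P sp L).D) ∧ Module.finrank ℂ W = k + 1 := by
  have hl : 0 < L / (14 * (k + 1)) := by positivity
  obtain ⟨m, c, hc, hin, hm⟩ := exists_grid hl (L := L) (by
    rw [← mul_div_assoc, div_le_iff₀ (by positivity)]
    have : (0 : ℝ) ≤ k := Nat.cast_nonneg k
    nlinarith)
  have h1 : k + 1 ≤ m := by
    have : L / (14 * (L / (14 * (k + 1)))) = (k + 1 : ℕ) := by
      push_cast
      field_simp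
    rw [this] at hm
    exact_mod_cast hm
  choose ψ hψ hψ1 hψ2 using fun j : Fin (k + 1) =>
    exists_loc hs _ ι sp rfl (c fun _ => Fin.castLE h1 j) _ hl (hin _)
  have hON : (tSys P sp L).ON ψ := by
    refine ⟨hψ, fun j j' => ?_⟩
    show ip _ _ = _
    split_ifs with hj
    · rw [hj, ip, ipU_self, ← nr, hψ1]
      simp
    · refine Finset.sum_eq_zero fun τ _ => integral_eq_zero_of_ae (ae_of_all _ fun x => ?_)
      by_contra h0
      have h2 := right_ne_zero_of_mul h0
      have h3 : ψ j τ x ≠ 0 := fun h => left_ne_zero_of_mul h2 (by simp [h])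
      obtain ⟨i⟩ := ‹Nonempty ι›
      have h4 := hc.eq hl ((hψ2 j τ x h3 i).trans (by linarith))
        ((hψ2 j' τ x (right_ne_zero_of_mul h2) i).trans (by linarith))
      exact hj (Fin.castLE_injective h1 (congrFun h4 0))
  refine ⟨Submodule.span ℂ (Set.range ψ), fun φ hφ => ?_, ?_⟩
  · exact (Submodule.span_le.mpr (by rintro _ ⟨j, rfl⟩; exact hψ j)) hφ
  · rw [finrank_span_eq_card (hON.linearIndependent _), Fintype.card_fin]

end Pool.Agent.Lib.MP_0655ed_mp
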