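import Pool.Agent.Lib.MP_0655ed_mp.ImpCore4

open Finset MeasureTheory Real Filter Topology

namespace Pool.Agent.Lib.MP_0655ed_mp

variable {σ Sp : Type} [Fintype σ] [DecidableEq σ] [Fintype Sp] {P : Species σ Sp}
  {I mb cm cb : ℝ}

/-- the statement proved by the core argument -/
def Core (P : Species σ Sp) (ρ t0 K0 L0 : ℝ) : Prop :=
  ∀ (ι : Type) [Fintype ι] [DecidableEq ι] (sp : ι → σ) (L : ℝ), L0 ≤ L →
    L ^ 3 = Fintype.card ι / ρ → ∑ j, ch P sp j = 0 → ∀ t K : ℝ, t0 ≤ |t| → t ^ 4 ≤ K → K0 ≤ K →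
    ∃ ε : ℝ, 0 < ε ∧ ∀ (x0 : E) (e1 : ℝ) (ψ : Wv ι Sp), St P sp L t x0 e1 K ε ψ →
      |pot (ph (ch P sp) vk x0) ψ| ≤ K / 2

theorem co_root {K e0 : ℝ} (he0 : 0 < e0) (hK : 1 / e0 ^ 200 ≤ K) :
    ∃ e : ℝ, 0 < e ∧ e ≤ e0 ∧ K = 1 / e ^ 200 := by
  have hK0 : 0 < K := lt_of_lt_of_le (by positivity) hK
  have h1 : ((1 / K) ^ ((200 : ℕ) : ℝ)⁻¹) ^ (200 : ℕ) = 1 / K :=
    Real.rpow_inv_natCast_pow (by positivity) (by norm_num)
  have h2 : 0 < (1 / K) ^ ((200 : ℕ) : ℝ)⁻¹ := Real.rpow_pos_of_pos (by positivity) _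
  refine ⟨_, h2, ?_, by rw [h1, one_div_one_div]⟩
  refine (pow_le_pow_iff_left₀ h2.le he0.le (by norm_num : (200 : ℕ) ≠ 0)).mp ?_
  rw [h1]
  exact (one_div_le hK0 (by positivity)).mpr hK

theorem co_grid {ρ : ℝ} (hρ : 0 < ρ) : ∃ l : ℝ, 0 < l ∧ l ≤ 1 ∧ ∀ (L : ℝ) (N : ℕ), 14 ≤ L →
    L ^ 3 = N / ρ → ∃ (m : ℕ) (c : (Fin 3 → Fin m) → E), Grid l c N ∧ ∀ y, ‖c y‖ + l < L / 2 := by
  have h0 : 0 < 14 * (2 * ρ + 1) := by positivity
  have h1 : 1 / (14 * (2 * ρ + 1)) ≤ 1 := by rw [div_le_one h0]; linarith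
  refine ⟨1 / (14 * (2 * ρ + 1)), by positivity, h1, fun L N hL hN => ?_⟩
  obtain ⟨m, c, hs, hin, hm⟩ := exists_grid (l := 1 / (14 * (2 * ρ + 1))) (L := L) (by positivity)
    (by linarith)
  have h2 : L / (14 * (1 / (14 * (2 * ρ + 1)))) = L * (2 * ρ + 1) := by field_simp
  rw [h2] at hm
  have h3 : (L * (2 * ρ + 1)) ^ 3 ≤ (m : ℝ) ^ 3 := pow_le_pow_left₀ (by positivity) hm 3
  have h4 : 2 * ρ + 1 ≤ (2 * ρ + 1) ^ 3 := le_self_pow₀ (by linarith) (by norm_num)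
  have h5 : (N : ℝ) = ρ * L ^ 3 := by rw [hN]; field_simp
  have h6 : 0 < L ^ 3 := by positivity
  have h7 := mul_le_mul_of_nonneg_left h4 h6.le
  have h8 : (2 * N : ℝ) < (m : ℝ) ^ 3 := by rw [mul_pow] at h3; nlinarith
  have h9 : 2 * N < m ^ 3 := by exact_mod_cast h8
  exact ⟨m, c, ⟨hs, by simp; omega, by simp; omega⟩, hin⟩

theorem co_small {e c b : ℝ} (he : Sc e) (hc : c ≤ b) (hb : 1 ≤ b) (h : e ≤ 1 / (4 * b ^ 2))
    {k : ℕ} (hk : 1 ≤ k) : c * e ^ k ≤ 1 / (4 * b) := by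
  have h1 : c * e ^ k ≤ b * e ^ k := mul_le_mul_of_nonneg_right hc (he.p k).le
  have h2 : b * e ^ k ≤ b * (1 / (4 * b ^ 2)) :=
    mul_le_mul_of_nonneg_left ((nm_e he.pos he.le1 hk).trans h) (by linarith)
  have h3 : b * (1 / (4 * b ^ 2)) = 1 / (4 * b) := by field_simp
  linarith

theorem co_kap {e K b Cx Cc l : ℝ} (he : Sc e) (hb : 1 ≤ b) (h : e ≤ 1 / (4 * b ^ 3))
    (hK : K = 1 / e ^ 200) (hCx : Cx ≤ b) (hCc : Cc ≤ b) (hCc0 : 0 ≤ Cc) (hl : 1 / l ^ 2 ≤ b) :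
    Cx * (Cc * (K + 1 / l ^ 2 + 1 / e ^ 186) + 1) * √(e ^ 184) ^ 5 ≤ 1 := by
  have h0 := he.pos
  have a1 : 1 / e ^ 186 ≤ K :=
    (one_div_le_one_div_of_le (he.p 200) (he.m (by norm_num))).trans hK.ge
  have a2 : 1 ≤ K := (one_le_one_div (he.p 200) (nm_1 h0 he.le1 _)).trans hK.ge
  have a3 : b * 1 ≤ b * K := by gcongr
  have a4 : 1 * K ≤ b * K := by gcongr
  have a5 : Cc * (K + 1 / l ^ 2 + 1 / e ^ 186) ≤ b * (3 * (b * K)) := by
    refine mul_le_mul hCc (by linarith) (by positivity) (by linarith)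
  have a6 : 1 * (b * K) ≤ b * (b * K) := by gcongr
  have a7 : Cx * (Cc * (K + 1 / l ^ 2 + 1 / e ^ 186) + 1) ≤ b * (4 * (b * (b * K))) :=
    mul_le_mul hCx (by linarith) (by positivity) (by linarith)
  rw [he.sa]
  calc _ ≤ b * (4 * (b * (b * K))) * (e ^ 92) ^ 5 := by gcongr
    _ = 4 * b ^ 3 * e ^ 260 := by rw [hK]; field_simp
    _ ≤ 4 * b ^ 3 * (1 / (4 * b ^ 3)) := by
        gcongr
        exact (nm_e h0 he.le1 (by norm_num)).trans h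
    _ = 1 := by field_simp

theorem core (hD : Dat P I mb cm cb) {A : ℝ} (hA : Stb P A)
    (hf : ∀ s, P.charge s < 0 → P.fermion s = true) {ρ t0 : ℝ} (hρ : 0 < ρ) (ht0 : 0 < t0) :
    ∃ K0 L0 : ℝ, 0 < L0 ∧ Core P ρ t0 K0 L0 := by
  obtain ⟨Cd, hCd0, hdens⟩ := dens hf
  obtain ⟨Ce, hCe0, hes⟩ := es_exp hf
  obtain ⟨D1, hD1, hhf⟩ := exists_holeFn
  obtain ⟨D2, hD2, hgo⟩ := exists_gorb
  have hD0 : 0 < D1 + D2 := by positivity
  obtain ⟨Ch, hCh0, hhole⟩ := hole_ineq hD hA hD0 ht0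
  obtain ⟨Ct, hCt0, htau⟩ := tau_ineq hD hD0 ht0
  obtain ⟨Cc, hCc0, hcnt⟩ := cnt_ineq hD hD0 ht0
  obtain ⟨Cx, hCx0, hext⟩ := ext_max
  obtain ⟨Cs, hCs0, hspr⟩ := spread
  obtain ⟨Cl, hCl0, hloc⟩ := hyd_loc
  obtain ⟨l, hl0, hl1, hgrid⟩ := co_grid hρ
  have hcm0 := hD.cpos
  obtain ⟨b, hb, hCd, hCe, hCh, hCt, hCc, hCx, hCs, hCl, hDb, hlb, hIb, htb, hmb, hcm, hcb⟩ :
      ∃ b : ℝ, 1 ≤ b ∧ Cd ≤ b ∧ Ce ≤ b ∧ Ch ≤ b ∧ Ct ≤ b ∧ Cc ≤ b ∧ Cx ≤ b ∧ Cs ≤ b ∧ Cl ≤ b ∧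
      D1 + D2 ≤ b ∧ 1 / l ^ 2 ≤ b ∧ 2 * I / t0 ≤ b ∧ 1 / t0 ≤ b ∧ mb ≤ b ∧ 1 / cm ≤ b ∧ cb ≤ b := by
    have a1 : 0 < 1 / l ^ 2 := by positivity
    have a2 : 0 < 1 / t0 := by positivity
    have a3 : 0 < 1 / cm := by positivity
    have a4 := le_abs_self (2 * I / t0)
    have a5 := le_abs_self mb
    have a6 := le_abs_self cb
    have a7 := abs_nonneg (2 * I / t0)
    have a8 := abs_nonneg mb
    have a9 := abs_nonneg cb
    refine ⟨1 + Cd + Ce + Ch + Ct + Cc + Cx + Cs + Cl + (D1 + D2) + 1 / l ^ 2 + |2 * I / t0| +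
      1 / t0 + |mb| + 1 / cm + |cb|, ?_, ?_, ?_, ?_, ?_, ?_, ?_, ?_, ?_, ?_, ?_, ?_, ?_, ?_, ?_, ?_⟩
    all_goals
      linarith only [a1, a2, a3, a4, a5, a6, a7, a8, a9, hCd0, hCe0, hCh0, hCt0, hCc0, hCx0, hCs0,
        hCl0, hD0]
  have hb0 : 0 < b := by linarith only [hb]
  have b3 : 1 ≤ b ^ 3 := one_le_pow₀ hb
  have b4 : 1 ≤ b ^ 4 := one_le_pow₀ hb
  obtain ⟨e0, he0, -, hnum⟩ := num_core (C := 10 ^ 8 * b ^ 4) (by linarith only [b4])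
  refine ⟨1 / (min e0 (1 / (4 * b ^ 3))) ^ 200, 14, by norm_num, ?_⟩
  intro ι _ _ sp L hL hL3 hneu t K ht ht4 hK0
  obtain ⟨e, h0, hee, hK⟩ := co_root (lt_min he0 (by positivity)) hK0
  have he3 : e ≤ 1 / (4 * b ^ 3) := hee.trans (min_le_right _ _)
  have he2 : e ≤ 1 / (4 * b ^ 2) := he3.trans (one_div_le_one_div_of_le (by positivity)
    (by linarith only [nz_pow hb (i := 2) (j := 3) (by norm_num)]))
  have he : Sc e := ⟨h0, he3.trans (one_div_le_one_div_of_le (by norm_num) (by linarith only [b3]))⟩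
  have hKp : 0 < K := by rw [hK]; positivity
  have hL0 : 0 < L := by linarith only [hL]
  have hN : (0 : ℝ) < Fintype.card ι := by
    have : 0 < (Fintype.card ι : ℝ) / ρ := by rw [← hL3]; positivity
    exact (div_pos_iff_of_pos_right hρ).mp this
  have hne : Nonempty ι := Fintype.card_pos_iff.mp (by exact_mod_cast hN)
  obtain ⟨i0⟩ := id hne
  have hI : 0 ≤ I := le_trans (by have := hD.mpos (sp i0); positivity) (hD.hI (sp i0))
  have hmb0 : 0 < mb := (hD.mpos (sp i0)).trans_le (hD.hmb _)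
  have hcb0 : 0 ≤ cb := (abs_nonneg _).trans (hD.hcb (sp i0))
  have ht2 : t ^ 2 ≤ 1 / e ^ 100 := by
    refine (pow_le_pow_iff_left₀ (sq_nonneg t) (by positivity) two_ne_zero).mp ?_
    calc (t ^ 2) ^ 2 = t ^ 4 := by ring
      _ ≤ K := ht4
      _ = _ := by rw [hK]; field_simp
  obtain ⟨m, cy, hg, hin⟩ := hgrid L _ hL hL3
  have hY : Nonempty (Fin 3 → Fin m) := Fintype.card_pos_iff.mp hg.pos
  choose hh hhh using fun y => hhf ι l hl0 (cy y)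
  replace hhh := fun y => (hhh y).mono (by linarith only [hD2] : D1 ≤ D1 + D2) hl0
  have hD2b : D2 ≤ b := by linarith only [hD1, hDb]
  have hq : 1 / (4 * b) ≤ 1 := by rw [div_le_one (by positivity)]; linarith only [hb]
  obtain ⟨f, Z, hf1⟩ := hgo (e ^ 186) (e ^ 85) (he.p _) (he.p _) (by
    have a1 := mul_le_mul_of_nonneg_right ((co_small he hD2b hb he2 (k := 16) (by norm_num)).trans hq)
      (he.p 170).le
    calc D2 * e ^ 186 = D2 * e ^ 16 * e ^ 170 := by ring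
      _ ≤ 1 * e ^ 170 := a1
      _ = _ := by ring)
  obtain ⟨f', Z', hf2⟩ := hgo (e ^ 100) l (he.p _) hl0 (by
    have a1 := co_small he hD2b hb he2 (k := 100) (by norm_num)
    have a2 : 1 / b ≤ l ^ 2 := (one_div_le (by positivity) hb0).mp hlb
    have a3 : 1 / (4 * b) ≤ 1 / b := one_div_le_one_div_of_le hb0 (by linarith only [hb0])
    linarith only [a1, a2, a3])
  replace hf1 := hf1.mono (by linarith only [hD1] : D2 ≤ D1 + D2) (he.p _)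
  replace hf2 := hf2.mono (by linarith only [hD1] : D2 ≤ D1 + D2) (he.p _)
  obtain ⟨M1, hM10, hM1, hM2⟩ : ∃ M1 : ℝ, 0 ≤ M1 ∧
      (∀ z x, |ph (ch P sp) (VV (e ^ 186)) z x| ≤ M1 / 2) ∧
      ∀ z x, |ph (ch P sp) (VV (e ^ 100)) z x| ≤ M1 / 2 := by
    have a0 : 0 ≤ ∑ j, |ch P sp j| := Finset.sum_nonneg fun _ _ => abs_nonneg _
    have a1 : 0 ≤ (∑ j, |ch P sp j|) * (√(e ^ 186))⁻¹ :=
      mul_nonneg a0 (inv_nonneg.mpr (Real.sqrt_nonneg _))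
    have a2 : 0 ≤ (∑ j, |ch P sp j|) * (√(e ^ 100))⁻¹ :=
      mul_nonneg a0 (inv_nonneg.mpr (Real.sqrt_nonneg _))
    refine ⟨2 * ((∑ j, |ch P sp j|) * (√(e ^ 186))⁻¹ + (∑ j, |ch P sp j|) * (√(e ^ 100))⁻¹),
      by linarith only [a1, a2], fun z x => ?_, fun z x => ?_⟩
    · linarith only [ex_phi_abs (ch P sp) (he.p 186) z x, a2]
    · linarith only [ex_phi_abs (ch P sp) (he.p 100) z x, a1]
  obtain ⟨ε0, hε0, hext'⟩ := hext (Fintype.card ι) L cb (M1 / 2) (e ^ 184) (e ^ 186)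
    (by linarith only [hL]) (he.p _) (by linarith only [he.va, he.p 186])
    (by linarith only [he.a64])
  have p1 : 0 < Fintype.card ι * hk (e ^ 186) 0 + 1 :=
    add_pos_of_nonneg_of_pos (mul_nonneg (Nat.cast_nonneg _) (hk_nonneg _ _)) one_pos
  have p2 : 0 < M1 + K + 1 := by positivity
  have p3 : 0 < Fintype.card ι * hk (e ^ 184 + e ^ 186) 0 + 1 :=
    add_pos_of_nonneg_of_pos (mul_nonneg (Nat.cast_nonneg _) (hk_nonneg _ _)) one_pos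
  refine ⟨min (ε0 / (Cc * (Fintype.card ι * hk (e ^ 186) 0 + 1)))
    (min (1 / (M1 + K + 1)) (1 / (Fintype.card ι * hk (e ^ 184 + e ^ 186) 0 + 1))),
    lt_min (div_pos hε0 (mul_pos hCc0 p1)) (lt_min (one_div_pos.mpr p2) (one_div_pos.mpr p3)),
    fun x0 e1 ψ h => ?_⟩
  generalize hε : min (ε0 / (Cc * (Fintype.card ι * hk (e ^ 186) 0 + 1)))
    (min (1 / (M1 + K + 1)) (1 / (Fintype.card ι * hk (e ^ 184 + e ^ 186) 0 + 1))) = ε at h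
  have hε1 : Cc * (Fintype.card ι * hk (e ^ 186) 0 + 1) * ε ≤ ε0 :=
    (le_div_iff₀' (mul_pos hCc0 p1)).mp (hε.ge.trans (min_le_left _ _))
  have hε2 : (M1 + K + 1) * ε ≤ 1 :=
    (le_div_iff₀' p2).mp (hε.ge.trans ((min_le_right _ _).trans (min_le_left _ _)))
  have hε3 : (Fintype.card ι * hk (e ^ 184 + e ^ 186) 0 + 1) * ε ≤ 1 :=
    (le_div_iff₀' p3).mp (hε.ge.trans ((min_le_right _ _).trans (min_le_right _ _)))
  have hεp := h.eps_nonneg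
  obtain ⟨r, hr, hsupp⟩ := h.tst.supp
  refine core_a hD h ht0 ht hb he hK ht2 (by linarith only [hL]) hI hmb0 hcb0 hCd0.le hCe0.le
    hCh0.le hCt0.le hCs0.le hCl0.le hD0.le hCd hCe hCh hCt hCs hCl hDb hlb hIb htb hmb
    ((div_le_iff₀ hcm0).mp hcm) hcb hhh (hole_half hl0 hg hhh)
    (fun z => (hhf ι _ (he.p 85) z).imp fun g hg' =>
      hg'.mono (by linarith only [hD2]) (he.p 85)) hM1 hM2 hε2 hε3
    (hdens ι sp L ψ h.tst)
    (hes ι sp L ψ h.tst _ _ (he.p _) (by linarith only [he.va, he.p 186])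
      (by linarith only [he.a64]))
    (fun y z0 => htau ι sp L t e1 K ε x0 ψ h ht hKp.le _ l Z' f' (cy y) (hh y) (he.p _)
      (nm_1 h0 he.le1 _) hl0 hf2 (hin y) (hhh y) _ he.Bpos z0)
    (fun z y hz F hF hFs hFM hF0 => hhole ι sp L t e1 K ε x0 ψ hL0 h hneu ht hKp.le _ _ Z _ l Z'
      f f' z (cy y) (he.p _) (nm_1 h0 he.le1 _) (he.p _) (nm_1 h0 he.le1 _) (he.p _) hl0 hf1 hf2
      hz (hin y) F (M1 + K) hF hFs (by positivity) hFM hF0)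
    (hext' Sp ι _ rfl (ch P sp) (fun j => hD.hcb _) hneu ψ h.tst.nice.cc h.one
      (fun τ x hx i => (hsupp τ x hx i).trans hr.le) _ _
      (fun y => (hhh y).smooth.continuous.pow 2) (fun y => nb_cont_ph _ (continuous_VV _) _)
      (fun y x => sq_nonneg _) (fun y x => pow_le_one₀ ((hhh y).nonneg x) ((hhh y).le_one x))
      (fun y x => hM2 _ x) (Cc * (K + 1 / l ^ 2 + 1 / e ^ 186)) (by positivity)
      (co_kap he hb he3 hK hCx hCc hCc0.le hlb) fun y z r hr1 hr2 => ?_)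
    (hspr _ (he.p _)) (hloc Sp ι ψ h.tst.nice _ cb hcb0 fun j => hD.hcb _)
    fun s τ ν β χ α => hnum e s τ ν β χ α h0 (hee.trans (min_le_left _ _))
  have hr0 : 0 < r := (he.p _).trans_le hr1
  refine (hcnt ι sp L t e1 K ε x0 ψ h ht hKp.le _ _ l r (cy y) z (hh y) (he.p _) (he.p _) hl0 hr0
    (hhh y)).trans (add_le_add ?_ (le_trans ?_ hε1))
  · have a1 := nb_nonneg ψ (hk_nonneg r) z
    have a2 := nb_nonneg ψ (hk_nonneg (2 * r)) z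
    have a3 := he.p 186
    gcongr
  · have a1 := hk_zero_anti (he.p 186) hr1
    gcongr

end Pool.Agent.Lib.MP_0655ed_mp
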