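import Pool.Agent.Lib.MP_0655ed_mp.ImpExt1

open Finset MeasureTheory Real Filter Topology

namespace Pool.Agent.Lib.MP_0655ed_mp

variable {Sp ι Y : Type} [Fintype ι] [DecidableEq ι] [Fintype Sp] [Fintype Y]

theorem ex_sqrt_r2 (x : E) :
    √(r2 x) = ‖(WithLp.toLp 2 x : EuclideanSpace ℝ (Fin 3))‖ := by
  rw [EuclideanSpace.norm_eq]
  simp [r2]

theorem ex_sqrt_r2_sub (x z : E) : |√(r2 (x - z)) - √(r2 z)| ≤ 2 * ‖x‖ := by
  have h1 : √(r2 x) ≤ 2 * ‖x‖ := by
    refine Real.sqrt_le_iff.mpr ⟨by positivity, ?_⟩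
    nlinarith [r2_le x, sq_nonneg ‖x‖]
  refine le_trans ?_ h1
  rw [← r2_neg z, ex_sqrt_r2, ex_sqrt_r2, ex_sqrt_r2]
  refine (abs_norm_sub_norm_le _ _).trans (le_of_eq ?_)
  congr 1
  ext k
  simp

theorem ex_exp_le {s : ℝ} (hs : 0 < s) : exp (-s) ≤ s⁻¹ := by
  rw [Real.exp_neg]
  exact inv_anti₀ hs (by linarith [Real.add_one_le_exp s])

theorem ex_le_sqrt (y : E) : ‖y‖ ≤ √(r2 y) := Real.le_sqrt_of_sq_le (norm_sq_le_r2 y)

theorem ex_vk_VV {w : ℝ} (hw : 0 < w) {y : E} (hy : y ≠ 0) :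
    vk y - VV w y ≤ vk y * (4 * w / ‖y‖ ^ 2) := by
  have hn : 0 < ‖y‖ := norm_pos_iff.mpr hy
  have hr : 0 < r2 y := lt_of_lt_of_le (by positivity) (norm_sq_le_r2 y)
  refine (vk_sub_VV hw hy).trans (mul_le_mul_of_nonneg_left ?_ (vk_nonneg y))
  rw [neg_div]
  refine (ex_exp_le (by positivity)).trans ?_
  rw [inv_div]
  exact div_le_div_of_nonneg_left (by positivity) (by positivity) (norm_sq_le_r2 y)

theorem ex_dip {w L : ℝ} (hw : 0 < w) (hw' : w ≤ 1 / 16) (hL : 2 ≤ L) {x z : E}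
    (hx : ‖x‖ ≤ L / 2) (hz : L ≤ ‖z‖) : |VV w (x - z) - vk z| ≤ (2 * L + 1) / ‖z‖ ^ 2 := by
  have hd := ex_dist (z := z) hx
  have hz0 : 0 < ‖z‖ := by linarith
  have hy : ‖z‖ / 2 ≤ ‖x - z‖ := by linarith
  have hy1 : 1 ≤ ‖x - z‖ := by linarith
  have hy0 : x - z ≠ 0 := norm_pos_iff.mp (by linarith)
  have h1 := VV_le_vk hw hy0
  have h2 := ex_vk_VV hw hy0
  have h3 : vk (x - z) ≤ 1 := (ex_vk_le hy0).trans (inv_le_one_of_one_le₀ hy1)
  have h4 : 4 * w / ‖x - z‖ ^ 2 ≤ 1 / ‖z‖ ^ 2 := by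
    rw [div_le_div_iff₀ (by positivity) (by positivity)]
    have : (‖z‖ / 2) ^ 2 ≤ ‖x - z‖ ^ 2 := pow_le_pow_left₀ (by positivity) hy 2
    nlinarith [sq_nonneg ‖z‖]
  have h5 : vk (x - z) * (4 * w / ‖x - z‖ ^ 2) ≤ 1 / ‖z‖ ^ 2 :=
    (mul_le_of_le_one_left (by positivity) h3).trans h4
  have h6 : |vk (x - z) - vk z| ≤ 2 * L / ‖z‖ ^ 2 := by
    rw [vk_eq, vk_eq]
    have hp := ex_le_sqrt (x - z)
    have hq := ex_le_sqrt z
    have hpq := ex_sqrt_r2_sub x z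
    set p := √(r2 (x - z))
    set q := √(r2 z)
    have hp0 : 0 < p := by linarith
    have hq0 : 0 < q := by linarith
    rw [inv_sub_inv hp0.ne' hq0.ne', abs_div, abs_of_pos (mul_pos hp0 hq0), abs_sub_comm,
      div_le_div_iff₀ (by positivity) (by positivity)]
    have h7 : ‖z‖ / 2 * ‖z‖ ≤ p * q := mul_le_mul (by linarith) hq hz0.le hp0.le
    have h8 : |p - q| * ‖z‖ ^ 2 ≤ L * ‖z‖ ^ 2 :=
      mul_le_mul_of_nonneg_right (by linarith) (by positivity)
    nlinarith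
  have h9 : (2 * L + 1) / ‖z‖ ^ 2 = 2 * L / ‖z‖ ^ 2 + 1 / ‖z‖ ^ 2 := by ring
  have h10 : 0 ≤ 1 / ‖z‖ ^ 2 := by positivity
  rw [abs_le] at h6 ⊢
  constructor <;> linarith [h6.1, h6.2]

omit [DecidableEq ι] in
theorem ex_neutral {c : ι → ℝ} (h0 : ∑ j, c j = 0) {w L : ℝ} (hw : 0 < w) (hw' : w ≤ 1 / 16)
    (hL : 2 ≤ L) {x : X ι} {z : E} (hx : ∀ j, ‖x j‖ ≤ L / 2) (hz : L ≤ ‖z‖) :
    |ph c (VV w) z x| ≤ (∑ j, |c j|) * ((2 * L + 1) / ‖z‖ ^ 2) := by
  have e : ph c (VV w) z x = ph c (fun y => VV w y - vk z) z x := by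
    unfold ph
    simp only [mul_sub, Finset.sum_sub_distrib, ← Finset.sum_mul, h0, zero_mul, sub_zero]
  rw [e]
  exact ex_ph_abs c fun j => ex_dip hw hw' hL (hx j) hz

theorem ex_VV_ge {v : ℝ} (hv : 0 < v) (hv' : v ≤ 1 / 8) {z : E} (hz : 1 ≤ ‖z‖) :
    1 / (4 * ‖z‖) ≤ VV v z := by
  have hz0 : z ≠ 0 := norm_pos_iff.mp (by linarith)
  have h1 := ex_vk_VV hv hz0
  have h2 : 4 * v / ‖z‖ ^ 2 ≤ 1 / 2 := by
    rw [div_le_div_iff₀ (by positivity) (by positivity)]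
    nlinarith
  have h3 : 1 / (2 * ‖z‖) ≤ vk z := by
    rw [vk_eq, one_div]
    refine inv_anti₀ (lt_of_lt_of_le (by linarith) (ex_le_sqrt z)) ?_
    refine Real.sqrt_le_iff.mpr ⟨by positivity, ?_⟩
    nlinarith [r2_le z, sq_nonneg ‖z‖]
  have h4 := mul_le_mul_of_nonneg_left h2 (vk_nonneg z)
  have h5 : 1 / (4 * ‖z‖) = 1 / (2 * ‖z‖) / 2 := by field_simp; ring
  linarith

theorem ex_hk_far {y : E} {R : ℝ} (hR : 1 ≤ R) (hy : R ≤ ‖y‖) : hk (1 / 12) y ≤ 54 / R := by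
  have h1 := r2_mul_hk (u := 1 / 12) (by norm_num) y
  have h2 : hk (2 * (1 / 12)) y ≤ 27 := by
    refine (hk_le_zero (by norm_num) y).trans ((hk_zero_le (by norm_num)).trans ?_)
    have : (√(2 * (1 / 12) : ℝ))⁻¹ ≤ 3 := by
      rw [inv_le_comm₀ (by positivity) (by norm_num)]
      exact Real.le_sqrt_of_sq_le (by norm_num)
    exact (pow_le_pow_left₀ (by positivity) this 3).trans (by norm_num)
  have h3 : R ≤ r2 y := by nlinarith [norm_sq_le_r2 y]
  rw [le_div_iff₀ (by linarith)]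
  nlinarith [mul_le_mul_of_nonneg_left h3 (hk_nonneg (1 / 12) y)]

theorem ex_hk_one (z : E) : hk (1 / 12) z ≤ 1 := by
  refine (hk_le_zero (by norm_num) z).trans ?_
  rw [hk_zero]
  refine pow_le_one₀ (by positivity) (inv_le_one_of_one_le₀ ?_)
  exact Real.le_sqrt_of_sq_le (by linarith [Real.pi_gt_three])

theorem ex_hk_ge {z : E} {R : ℝ} (hz : ‖z‖ ≤ R) :
    hk (1 / 12) (fun _ => R) ≤ hk (1 / 12) z := by
  unfold hk
  refine mul_le_mul_of_nonneg_left (Real.exp_le_exp.mpr ?_) (by positivity)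
  have h1 : r2 (fun _ => R) = 3 * R ^ 2 := by simp [r2]
  have h2 := r2_le z
  have h3 := pow_le_pow_left₀ (norm_nonneg z) hz 2
  rw [h1, div_le_div_iff_of_pos_right (by norm_num)]
  linarith

theorem ex_pot_le {U : X ι → ℝ} (hU : Continuous U) {ψ : Wv ι Sp} (h : Cc ψ) (h1 : nr ψ = 1)
    {t : ℝ} (ht : ∀ x, (∃ τ, ψ τ x ≠ 0) → U x ≤ t) : pot U ψ ≤ t := by
  have := pot_mono_ae hU.locallyIntegrable (locallyIntegrable_const t) h (ae_of_all _ ht)
  rwa [pot_const, h1, mul_one] at this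

theorem ex_nb_le {ψ : Wv ι Sp} (h : Cc ψ) {g g' : E → ℝ} (hg : Continuous g) (hg' : Continuous g')
    {r s t : ℝ} (hr : Supp r ψ) {z : E} (hle : ∀ y, ‖z‖ - r ≤ ‖y‖ → s * g y ≤ t * g' y) :
    s * nb ψ g z ≤ t * nb ψ g' z := by
  unfold nb
  rw [← pot_const_mul, ← pot_const_mul]
  refine pot_mono_ae (continuous_const.mul (ex_cx _ hg z)).locallyIntegrable
    (continuous_const.mul (ex_cx _ hg' z)).locallyIntegrable h (ae_of_all _ fun x ⟨τ, hx⟩ => ?_)
  show s * ph _ g z x ≤ t * ph _ g' z x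
  unfold ph
  simp only [Finset.mul_sum, one_mul]
  exact Finset.sum_le_sum fun j _ => hle _ (ex_dist (hr τ x hx j))

theorem ex_pot_VV_abs (c : ι → ℝ) {v : ℝ} (hv : 0 < v) {ψ : Wv ι Sp} (h : Cc ψ) (h1 : nr ψ = 1)
    (z : E) : |pot (ph c (VV v) z) ψ| ≤ (∑ j, |c j|) * (√v)⁻¹ :=
  (abs_pot_le (ex_cx c (continuous_VV v) z).locallyIntegrable h).trans
    (ex_pot_le (ex_cx c (continuous_VV v) z).abs h h1 fun x _ => ex_phi_abs c hv z x)

/-- upper bound for the averaged mean square potential -/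
theorem ex_M_le (c : ι → ℝ) {a v : ℝ} (ha : 0 < a) (hv : 0 < v) {ω b : Y → X ι → ℝ}
    (hω : ∀ y, Continuous (ω y)) (hb : ∀ y, Continuous (b y)) (hω0 : ∀ y x, 0 ≤ ω y x)
    (hω1 : ∀ y x, ω y x ≤ 1) {Mb : ℝ} (hMb : ∀ y x, |b y x| ≤ Mb) (hMb0 : 0 ≤ Mb)
    {ψ : Wv ι Sp} (h : Cc ψ) (h1 : nr ψ = 1) (z : E) :
    gav a (mm c v ω b ψ) z ≤ exAv ω ψ (fun y x => b y x ^ 2) +
      ((∑ j, |c j|) * (√v)⁻¹ + 2 * Mb) * pot (ph (fun j => |c j|) (VV (a + v)) z) ψ := by
  set K := (∑ j, |c j|) * (√v)⁻¹ + 2 * Mb with hK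
  have hK0 : 0 ≤ K := by positivity
  have hp : ∀ z, mm c v ω b ψ z ≤ exAv ω ψ (fun y x => b y x ^ 2) +
      K * pot (ph (fun j => |c j|) (VV v) z) ψ := by
    intro z
    have hc := ex_cx c (continuous_VV v) z
    have hc' := ex_cx (fun j => |c j|) (continuous_VV v) z
    have hn : ∀ x, 0 ≤ ph (fun j => |c j|) (VV v) z x := fun x =>
      Finset.sum_nonneg fun j _ => mul_nonneg (abs_nonneg _) (VV_nonneg _ _)
    have h2 := exAv_add (F := fun y x => b y x ^ 2)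
      (G := fun _ x => K * ph (fun j => |c j|) (VV v) z x) hω (fun y => (hb y).pow 2)
      (fun _ => continuous_const.mul hc') h
    have h3 := exAv_mul ω (fun _ => ph (fun j => |c j|) (VV v) z) ψ K
    have h4 := exAv_le_pot hω hω1 hc' hn h
    have h5 := exAv_mono (F := fun y x => (ph c (VV v) z x - b y x) ^ 2)
      (G := fun y x => b y x ^ 2 + K * ph (fun j => |c j|) (VV v) z x) hω hω0
      (fun y => (hc.sub (hb y)).pow 2) (fun y => ((hb y).pow 2).add (continuous_const.mul hc')) h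
      fun y x _ => by
        have e1 : |ph c (VV v) z x| ≤ ph (fun j => |c j|) (VV v) z x := by
          unfold ph
          refine (Finset.abs_sum_le_sum_abs _ _).trans (Finset.sum_le_sum fun j _ => ?_)
          rw [abs_mul, abs_of_nonneg (VV_nonneg _ _)]
        have e2 := ex_phi_abs c hv z x
        have e3 : |ph c (VV v) z x - 2 * b y x| ≤ K := by
          refine (abs_sub _ _).trans ?_
          rw [abs_mul, abs_two]
          linarith [hMb y x]
        have e4 : ph c (VV v) z x * (ph c (VV v) z x - 2 * b y x) ≤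
            ph (fun j => |c j|) (VV v) z x * K := by
          refine (le_abs_self _).trans ?_
          rw [abs_mul]
          exact mul_le_mul e1 e3 (abs_nonneg _) (hn x)
        nlinarith
    rw [ex_mm_eq]
    linarith [mul_le_mul_of_nonneg_left h4 hK0]
  obtain ⟨M, hM⟩ := mm_bdd c hv hω hb h
  have hcp : Continuous fun z => pot (ph (fun j => |c j|) (VV v) z) ψ :=
    continuous_pot (F := fun z x => ph (fun j => |c j|) (VV v) z x)
      (continuous_ph _ (continuous_VV _)) h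
  have hbd : ∀ z, |K * pot (ph (fun j => |c j|) (VV v) z) ψ| ≤
      K * ((∑ j, |(|c j|)|) * (√v)⁻¹) := fun z => by
    rw [abs_mul, abs_of_nonneg hK0]
    exact mul_le_mul_of_nonneg_left (ex_pot_VV_abs _ hv h h1 z) hK0
  have h6 := ex_gav_mono ha (continuous_mm c v hω hb h)
    (m' := fun z => exAv ω ψ (fun y x => b y x ^ 2) + K * pot (ph (fun j => |c j|) (VV v) z) ψ)
    (continuous_const.add (continuous_const.mul hcp)) hM
    (fun z => (abs_add_le _ _).trans (add_le_add le_rfl (hbd z))) hp z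
  rw [ex_gav_add ha continuous_const (m' := fun z => K * pot (ph (fun j => |c j|) (VV v) z) ψ)
    (continuous_const.mul hcp) (fun _ => le_rfl) hbd, ex_gav_const ha, ex_gav_mul] at h6
  have e := congrFun (gav_pot_VV h (fun j => |c j|) (F := fun _ => 1) continuous_const ha hv) z
  simp only [one_mul] at e
  rw [← show (fun x => ph (fun j => |c j|) (VV (a + v)) z x) =
    ph (fun j => |c j|) (VV (a + v)) z from rfl, ← e]
  exact h6

omit [DecidableEq ι] in
theorem ex_ph_int (c : ι → ℝ) {v : ℝ} (hv : 0 < v) (z : E) (x : X ι) :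
    ph c (VV v) z x - ph c (VV (2 * v)) z x =
      4 * π * ∫ r in Set.Ioc v (2 * v), ph c (hk r) z x := by
  unfold ph
  rw [integral_finsetSum _ fun j _ => (((integrableOn_hk_Ioi hv (x j - z)).mono_set
    Set.Ioc_subset_Ioi_self).const_mul (c j)), ← Finset.sum_sub_distrib, Finset.mul_sum]
  refine Finset.sum_congr rfl fun j _ => ?_
  rw [integral_const_mul, ← mul_sub, VV_sub hv (by positivity),
    intervalIntegral.integral_of_le (by linarith)]
  ring

theorem ex_diff (c : ι → ℝ) {v : ℝ} (hv : 0 < v) {ω b : X ι → ℝ} (hω : Continuous ω)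
    (hb : Continuous b) {ψ : Wv ι Sp} (h : Cc ψ) (z : E) {T : ℝ}
    (hT : ∀ r, v ≤ r → r ≤ 2 * v →
      pot (fun x => ω x * ((ph c (VV v) z x - b x) * ph c (hk r) z x)) ψ ≤ T) :
    pot (fun x => ω x * ((ph c (VV v) z x - b x) *
      (ph c (VV v) z x - ph c (VV (2 * v)) z x))) ψ ≤ 4 * π * v * T := by
  have hc := ex_cx c (continuous_VV v) z
  have hm : Measurable fun p : ℝ × X ι =>
      ω p.2 * ((ph c (VV v) z p.2 - b p.2) * ph c (hk p.1) z p.2) := by
    refine (hω.measurable.comp measurable_snd).mul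
      (((hc.sub hb).measurable.comp measurable_snd).mul ?_)
    unfold ph
    refine Finset.measurable_sum _ fun j _ => measurable_const.mul ?_
    exact measurable_hk.comp (f := fun p : ℝ × X ι => (p.1, p.2 j - z)) (by fun_prop)
  have hI := pot_integral (μ := volume.restrict (Set.Ioc v (2 * v)))
    (F := fun r x => ω x * ((ph c (VV v) z x - b x) * ph c (hk r) z x)) hm
    (g := fun _ => 1) (integrable_const _)
    (H := fun x => |ω x| * (|ph c (VV v) z x - b x| * ((∑ j, |c j|) * hk v 0))) (by fun_prop)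
    (ae_restrict_of_forall_mem measurableSet_Ioc fun r hr x => by
      rw [one_mul, abs_mul, abs_mul]
      refine mul_le_mul_of_nonneg_left (mul_le_mul_of_nonneg_left (ex_ph_abs c fun j => ?_)
        (abs_nonneg _)) (abs_nonneg _)
      rw [abs_of_nonneg (hk_nonneg _ _)]
      exact (hk_le_zero (hv.trans hr.1) _).trans (hk_zero_anti hv hr.1.le)) h
  have e : (fun x => ω x * ((ph c (VV v) z x - b x) *
      (ph c (VV v) z x - ph c (VV (2 * v)) z x))) = fun x => 4 * π * ∫ r in Set.Ioc v (2 * v),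
      ω x * ((ph c (VV v) z x - b x) * ph c (hk r) z x) := by
    funext x
    rw [ex_ph_int c hv, integral_const_mul, integral_const_mul]
    ring
  rw [e, pot_const_mul, ← hI.2.2, mul_assoc (4 * π)]
  refine mul_le_mul_of_nonneg_left ?_ (by positivity)
  refine (setIntegral_mono_on hI.1 (integrable_const T) measurableSet_Ioc
    fun r hr => hT r hr.1.le hr.2).trans (le_of_eq ?_)
  rw [setIntegral_const, Real.volume_real_Ioc_of_le (by linarith), smul_eq_mul]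
  ring

/-- one heat step almost increases the mean square potential -/
theorem ex_step (c : ι → ℝ) {v : ℝ} (hv : 0 < v) {ω b : Y → X ι → ℝ}
    (hω : ∀ y, Continuous (ω y)) (hb : ∀ y, Continuous (b y)) (hω0 : ∀ y x, 0 ≤ ω y x)
    {ψ : Wv ι Sp} (h : Cc ψ) (z : E) {T : ℝ} (hT0 : 0 ≤ T)
    (hT : ∀ y r, v ≤ r → r ≤ 2 * v →
      pot (fun x => ω y x * ((ph c (VV v) z x - b y x) * ph c (hk r) z x)) ψ ≤ T) :
    mm c v ω b ψ z - 8 * π * v * T ≤ gav v (mm c v ω b ψ) z := by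
  have h1 := ex_mm_le c hv hv hω hb hω0 h z
  rw [← two_mul] at h1
  have hc := ex_cx c (continuous_VV v) z
  have hc2 := ex_cx c (continuous_VV (2 * v)) z
  have hcG : ∀ y, Continuous fun x => (ph c (VV v) z x - b y x) *
      (ph c (VV v) z x - ph c (VV (2 * v)) z x) := fun y => (hc.sub (hb y)).mul (hc.sub hc2)
  have h2 := exAv_add (F := fun y x => (ph c (VV (2 * v)) z x - b y x) ^ 2)
    (G := fun y x => 2 * ((ph c (VV v) z x - b y x) *
      (ph c (VV v) z x - ph c (VV (2 * v)) z x))) hω (fun y => (hc2.sub (hb y)).pow 2)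
    (fun y => continuous_const.mul (hcG y)) h
  rw [exAv_mul, ← ex_mm_eq] at h2
  have h3 := exAv_mono (F := fun y x => (ph c (VV v) z x - b y x) ^ 2)
    (G := fun y x => (ph c (VV (2 * v)) z x - b y x) ^ 2 + 2 * ((ph c (VV v) z x - b y x) *
      (ph c (VV v) z x - ph c (VV (2 * v)) z x))) hω hω0 (fun y => (hc.sub (hb y)).pow 2)
    (fun y => ((hc2.sub (hb y)).pow 2).add (continuous_const.mul (hcG y))) h
    fun y x _ => by nlinarith [sq_nonneg (ph c (VV v) z x - ph c (VV (2 * v)) z x)]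
  rw [← ex_mm_eq] at h3
  have h4 : exAv ω ψ (fun y x => (ph c (VV v) z x - b y x) *
      (ph c (VV v) z x - ph c (VV (2 * v)) z x)) ≤ 4 * π * v * T := by
    refine le_trans ?_ (ex_card_le (Y := Y) _ (by positivity))
    unfold exAv
    exact mul_le_mul_of_nonneg_left (Finset.sum_le_sum fun y _ =>
      ex_diff c hv (hω y) (hb y) h z (hT y)) (by positivity)
  linarith

theorem ex_nb_abs {ψ : Wv ι Sp} (h : Cc ψ) {w : ℝ} (hw : 0 < w) (z : E) :
    |nb ψ (hk w) z| ≤ Fintype.card ι * hk w 0 * nr ψ := by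
  rw [abs_of_nonneg (nb_nonneg ψ (hk_nonneg w) z)]
  exact nb_le_const h (continuous_hk w) (hk_le_zero hw) z

theorem ex_nb4 {ψ : Wv ι Sp} (h : Cc ψ) {v r : ℝ} (hv : 0 < v) (h1 : v ≤ r) (h2 : r ≤ 4 * v)
    (z : E) : nb ψ (hk r) z ≤ 8 * nb ψ (hk (4 * v)) z := by
  refine nb_le_mul h (continuous_hk _) (continuous_hk _) (fun x => ?_) z
  refine (hk_le_hk (hv.trans_le h1) h2 x).trans (mul_le_mul_of_nonneg_right ?_ (hk_nonneg _ _))
  have : √(4 * v / r) ≤ 2 := by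
    refine Real.sqrt_le_iff.mpr ⟨by norm_num, ?_⟩
    rw [div_le_iff₀ (hv.trans_le h1)]
    linarith
  exact (pow_le_pow_left₀ (by positivity) this 3).trans (by norm_num)

theorem ex_step2 (c : ι → ℝ) {a v : ℝ} (ha : 0 < a) (hv : 0 < v) {ω b : Y → X ι → ℝ}
    (hω : ∀ y, Continuous (ω y)) (hb : ∀ y, Continuous (b y)) (hω0 : ∀ y x, 0 ≤ ω y x)
    {ψ : Wv ι Sp} (h : Cc ψ) {κ ε0 : ℝ} (hκ : 0 ≤ κ) (hε : 0 ≤ ε0)
    (hT : ∀ y z r, v ≤ r → r ≤ 2 * v →
      |pot (fun x => ω y x * ((ph c (VV v) z x - b y x) * ph c (hk r) z x)) ψ| ≤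
        κ * (nb ψ (hk r) z + nb ψ (hk (2 * r)) z) + ε0) (z0 : E) :
    gav a (mm c v ω b ψ) z0 - 8 * π * v * (16 * κ * nb ψ (hk (a + 4 * v)) z0 + ε0) ≤
      gav v (gav a (mm c v ω b ψ)) z0 := by
  obtain ⟨M, hM⟩ := mm_bdd c hv hω hb h
  have hcm := continuous_mm c v hω hb h
  have h4 : 0 < 4 * v := by positivity
  have hcn := continuous_nb h (continuous_hk (4 * v))
  have hp : ∀ z, mm c v ω b ψ z + (-(8 * π * v * (16 * κ)) * nb ψ (hk (4 * v)) z +
      -(8 * π * v * ε0)) ≤ gav v (mm c v ω b ψ) z := by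
    intro z
    have hn := nb_nonneg ψ (hk_nonneg (4 * v)) z
    have := ex_step c hv hω hb hω0 h z (T := 16 * κ * nb ψ (hk (4 * v)) z + ε0) (by positivity)
      fun y r hr hr' => (le_abs_self _).trans ((hT y z r hr hr').trans (by
        have e1 := ex_nb4 h hv hr (by linarith) z
        have e2 := ex_nb4 h (r := 2 * r) hv (by linarith) (by linarith) z
        nlinarith [mul_le_mul_of_nonneg_left (add_le_add e1 e2) hκ]))
    linarith
  have hb1 : ∀ z, |-(8 * π * v * (16 * κ)) * nb ψ (hk (4 * v)) z| ≤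
      |-(8 * π * v * (16 * κ))| * (Fintype.card ι * hk (4 * v) 0 * nr ψ) := fun z => by
    rw [abs_mul]
    exact mul_le_mul_of_nonneg_left (ex_nb_abs h h4 z) (abs_nonneg _)
  have hc1 : Continuous fun z => -(8 * π * v * (16 * κ)) * nb ψ (hk (4 * v)) z :=
    continuous_const.mul hcn
  have hc2 : Continuous fun z => -(8 * π * v * (16 * κ)) * nb ψ (hk (4 * v)) z +
      -(8 * π * v * ε0) := hc1.add continuous_const
  have hb2 := fun z => (abs_add_le (-(8 * π * v * (16 * κ)) * nb ψ (hk (4 * v)) z)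
    (-(8 * π * v * ε0))).trans (add_le_add (hb1 z) le_rfl)
  have h5 := ex_gav_mono ha (m := fun z => mm c v ω b ψ z +
      (-(8 * π * v * (16 * κ)) * nb ψ (hk (4 * v)) z + -(8 * π * v * ε0))) (hcm.add hc2)
    (continuous_gav hv hcm hM) (fun z => (abs_add_le _ _).trans (add_le_add (hM z) (hb2 z)))
    (ex_gav_abs hv hcm hM) hp z0
  rw [ex_gav_add ha hcm hc2 hM hb2, ex_gav_add ha hc1 continuous_const hb1 (fun _ => le_rfl),
    ex_gav_const ha, ex_gav_mul, gav_gav hv ha hcm hM] at h5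
  have e : gav a (fun z => nb ψ (hk (4 * v)) z) z0 = nb ψ (hk (a + 4 * v)) z0 :=
    congrFun (gav_nb h ha h4) z0
  rw [gav_gav ha hv hcm hM, add_comm a v]
  rw [e] at h5
  linarith

theorem ex_gav_hk {v w : ℝ} (hv : 0 < v) (hw : 0 < w) (z0 : E) :
    gav v (hk w) z0 = hk (w + v) z0 := by
  have := hk_conv hv hw z0 0
  simp only [zero_sub, hk_neg] at this
  rw [add_comm]
  exact this

theorem ex_gav_VV {v w : ℝ} (hv : 0 < v) (hw : 0 < w) (z0 : E) :
    gav v (VV w) z0 = VV (v + w) z0 := by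
  have := VV_conv hv hw z0 0
  simp only [zero_sub, VV_neg] at this
  exact this

theorem ex_VV_loss {v T : ℝ} (hv : 0 < v) {z0 : E} (hT : ∀ r, v ≤ r → r ≤ 2 * v → hk r z0 ≤ T) :
    VV v z0 - VV (v + v) z0 ≤ 4 * π * v * T := by
  rw [← two_mul, VV_sub hv (by positivity), intervalIntegral.integral_of_le (by linarith),
    mul_assoc (4 * π)]
  refine mul_le_mul_of_nonneg_left ?_ (by positivity)
  refine (setIntegral_mono_on ((integrableOn_hk_Ioi hv z0).mono_set Set.Ioc_subset_Ioi_self)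
    (integrable_const T) measurableSet_Ioc fun r hr => hT r hr.1.le hr.2).trans (le_of_eq ?_)
  rw [setIntegral_const, Real.volume_real_Ioc_of_le (by linarith), smul_eq_mul]
  ring

theorem ex_global {k : E → ℝ} (hk : Continuous k) {z1 : E} {R : ℝ} (h1 : ‖z1‖ ≤ R)
    (h2 : ∀ z, R ≤ ‖z‖ → k z ≤ k z1) : ∃ z0, ‖z0‖ ≤ R ∧ ∀ z, k z ≤ k z0 := by
  have hz1 : z1 ∈ Metric.closedBall (0 : E) R := mem_closedBall_zero_iff.mpr h1
  obtain ⟨z0, hz0, hmax⟩ := (isCompact_closedBall (0 : E) R).exists_isMaxOn ⟨z1, hz1⟩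
    hk.continuousOn
  refine ⟨z0, mem_closedBall_zero_iff.mp hz0, fun z => ?_⟩
  rcases le_total ‖z‖ R with hz | hz
  · exact hmax (mem_closedBall_zero_iff.mpr hz)
  · exact (h2 z hz).trans (hmax hz1)

/-- the comparison function -/
noncomputable def exK (c : ι → ℝ) (a v : ℝ) (ω b : Y → X ι → ℝ) (ψ : Wv ι Sp) (z : E) : ℝ :=
  gav a (mm c v ω b ψ) z + (nb ψ (hk (1 / 12)) z + (hk (1 / 12) z + VV v z))

noncomputable def exR1 (A L Mb : ℝ) : ℝ := L + 16 * Mb * (A * (2 * L + 1))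

noncomputable def exR2 (N A L Mb v : ℝ) : ℝ :=
  exR1 A L Mb + 8 * exR1 A L Mb * (2 * (A * (√v)⁻¹ + 2 * Mb) * A + 108 * N + 55)

theorem ex_K_max {c : ι → ℝ} {A L Mb a v : ℝ} (hL : 2 ≤ L) (hv : 0 < v) (hva : 4 * v ≤ a)
    (ha' : a ≤ 1 / 48) (hA : ∑ j, |c j| ≤ A) (h0 : ∑ j, c j = 0) {ψ : Wv ι Sp} (h : Cc ψ)
    (h1 : nr ψ = 1) (hs : Supp (L / 2) ψ) {ω b : Y → X ι → ℝ}
    (hω : ∀ y, Continuous (ω y)) (hb : ∀ y, Continuous (b y)) (hω0 : ∀ y x, 0 ≤ ω y x)
    (hω1 : ∀ y x, ω y x ≤ 1) (hMb : ∀ y x, |b y x| ≤ Mb) (hMb0 : 0 ≤ Mb) :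
    ∃ z0, ‖z0‖ ≤ exR2 (Fintype.card ι) A L Mb v ∧
      ∀ z, exK c a v ω b ψ z ≤ exK c a v ω b ψ z0 := by
  have ha : 0 < a := by linarith
  have hS0 : 0 ≤ ∑ j, |c j| := Finset.sum_nonneg fun _ _ => abs_nonneg _
  have hA0 : 0 ≤ A := hS0.trans hA
  obtain ⟨M, hM⟩ := mm_bdd c hv hω hb h
  have hcm := continuous_mm c v hω hb h
  have hcK : Continuous (exK c a v ω b ψ) := (continuous_gav ha hcm hM).add
    ((continuous_nb h (continuous_hk _)).add ((continuous_hk _).add (continuous_VV v)))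
  set R1 := exR1 A L Mb with hR1
  set C1 := 2 * (A * (√v)⁻¹ + 2 * Mb) * A + 108 * (Fintype.card ι : ℝ) + 55 with hC1
  have hLR : L ≤ R1 := by
    rw [hR1, exR1]
    have : 0 ≤ 16 * Mb * (A * (2 * L + 1)) := by positivity
    linarith
  have hR0 : 0 < R1 := by linarith
  have hC0 : 0 < C1 := by positivity
  have hR2 : exR2 (Fintype.card ι) A L Mb v = R1 + 8 * R1 * C1 := rfl
  have hn1 : ‖(fun _ => R1 : E)‖ = R1 := ex_norm_const hR0.le
  set minf := exAv ω ψ (fun y x => b y x ^ 2) with hminf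
  have hlow : minf + 1 / (8 * R1) ≤ exK c a v ω b ψ (fun _ => R1) := by
    have e1 := ex_mm_le c ha hv hω hb hω0 h (fun _ => R1)
    have e2 := ex_mm_ge c (a + v) hω hb hω0 h (fun _ => R1) (η := A * ((2 * L + 1) / R1 ^ 2))
      fun x ⟨τ, hx⟩ => by
        have := ex_neutral h0 (w := a + v) (z := fun _ => R1) (by positivity) (by linarith) hL
          (hs τ x hx) (by rw [hn1]; exact hLR)
        rw [hn1] at this
        exact this.trans (mul_le_mul_of_nonneg_right hA (by positivity))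
    have e3 : exAv ω ψ (fun y x => |b y x|) ≤ Mb := by
      refine (exAv_mono (G := fun _ _ => Mb) hω hω0 (fun y => (hb y).abs)
        (fun _ => continuous_const) h fun y x _ => hMb y x).trans ?_
      refine (exAv_le_pot hω hω1 continuous_const (fun _ => hMb0) h).trans ?_
      rw [pot_const, h1, mul_one]
    have e4 := ex_VV_ge hv (by linarith) (z := fun _ => R1) (by rw [hn1]; linarith)
    rw [hn1] at e4
    have e5 : 2 * (A * ((2 * L + 1) / R1 ^ 2)) * Mb ≤ 1 / (8 * R1) := by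
      have : 2 * (A * ((2 * L + 1) / R1 ^ 2)) * Mb =
          16 * Mb * (A * (2 * L + 1)) / R1 * (1 / (8 * R1)) := by
        field_simp
        ring
      rw [this]
      refine mul_le_of_le_one_left (by positivity) ((div_le_one hR0).mpr ?_)
      rw [hR1, exR1]
      linarith
    have e6 := mul_le_mul_of_nonneg_left e3
      (show 0 ≤ 2 * (A * ((2 * L + 1) / R1 ^ 2)) by positivity)
    have e7 : 1 / (4 * R1) = 2 * (1 / (8 * R1)) := by field_simp; ring
    unfold exK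
    linarith [nb_nonneg ψ (hk_nonneg (1 / 12)) (fun _ => R1), hk_nonneg (1 / 12) (fun _ => R1)]
  refine ex_global hcK (z1 := fun _ => R1) (by rw [hn1, hR2]; nlinarith) fun z hz => ?_
  refine le_trans ?_ hlow
  rw [hR2] at hz
  have hz1 : L ≤ ‖z‖ := by nlinarith
  have hz0 : 0 < ‖z‖ := by linarith
  have e1 := ex_M_le c ha hv hω hb hω0 hω1 hMb hMb0 h h1 z
  have e2 : pot (ph (fun j => |c j|) (VV (a + v)) z) ψ ≤ A * (2 / ‖z‖) := by
    refine ex_pot_le (ex_cx _ (continuous_VV _) z) h h1 fun x ⟨τ, hx⟩ => ?_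
    refine (le_abs_self _).trans ((ex_ph_abs _ (t := (‖z‖ / 2)⁻¹) fun j => ex_VV_far
      (by positivity) (by positivity) (by linarith [ex_dist (z := z) (hs τ x hx j)])).trans ?_)
    simp only [abs_abs, inv_div]
    exact mul_le_mul_of_nonneg_right hA (by positivity)
  have e2' : 0 ≤ pot (ph (fun j => |c j|) (VV (a + v)) z) ψ := pot_nonneg (fun x =>
    Finset.sum_nonneg fun j _ => mul_nonneg (abs_nonneg _) (VV_nonneg _ _)) ψ
  have e3 : ((∑ j, |c j|) * (√v)⁻¹ + 2 * Mb) * pot (ph (fun j => |c j|) (VV (a + v)) z) ψ ≤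
      (A * (√v)⁻¹ + 2 * Mb) * (A * (2 / ‖z‖)) :=
    mul_le_mul (by linarith [mul_le_mul_of_nonneg_right hA (show 0 ≤ (√v)⁻¹ by positivity)])
      e2 e2' (by positivity)
  have e4 : nb ψ (hk (1 / 12)) z ≤ Fintype.card ι * (54 / (‖z‖ / 2)) := by
    refine ex_pot_le (ex_cx _ (continuous_hk _) z) h h1 fun x ⟨τ, hx⟩ => ?_
    refine (le_abs_self _).trans ((ex_ph_abs _ (t := 54 / (‖z‖ / 2)) fun j => ?_).trans ?_)
    · rw [abs_of_nonneg (hk_nonneg _ _)]
      exact ex_hk_far (by linarith) (by linarith [ex_dist (z := z) (hs τ x hx j)])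
    · simp
  have e5 := ex_hk_far (y := z) (by linarith) le_rfl
  have e6 := (le_abs_self _).trans (ex_VV_far hv hz0 (le_refl ‖z‖))
  have e7 : (A * (√v)⁻¹ + 2 * Mb) * (A * (2 / ‖z‖)) + (Fintype.card ι * (54 / (‖z‖ / 2)) +
      (54 / ‖z‖ + ‖z‖⁻¹)) = C1 / ‖z‖ := by
    rw [hC1]
    field_simp
    ring
  have e8 : C1 / ‖z‖ ≤ 1 / (8 * R1) := by
    rw [div_le_div_iff₀ hz0 (by positivity)]
    linarith
  unfold exK
  linarith

/-- exterior maximum principle -/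
theorem ext_max : ∃ C : ℝ, 0 < C ∧ ∀ (N : ℕ) (L cb Mb a v : ℝ), 2 ≤ L → 0 < v → 4 * v ≤ a →
    a ≤ 1 / 48 → ∃ ε0 : ℝ, 0 < ε0 ∧
    ∀ (Sp ι Y : Type) [Fintype ι] [DecidableEq ι] [Fintype Sp] [Fintype Y] [Nonempty Y],
    Fintype.card ι = N → ∀ (c : ι → ℝ), (∀ j, |c j| ≤ cb) → ∑ j, c j = 0 →
    ∀ ψ : Wv ι Sp, Cc ψ → nr ψ = 1 → Supp (L / 2) ψ → ∀ ω b : Y → X ι → ℝ,
    (∀ y, Continuous (ω y)) → (∀ y, Continuous (b y)) → (∀ y x, 0 ≤ ω y x) → (∀ y x, ω y x ≤ 1) →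
    (∀ y x, |b y x| ≤ Mb) → ∀ κ : ℝ, 0 ≤ κ → C * (κ + 1) * √a ^ 5 ≤ 1 →
    (∀ y z r, v ≤ r → r ≤ 2 * v →
      |pot (fun x => ω y x * ((ph c (VV v) z x - b y x) * ph c (hk r) z x)) ψ| ≤
        κ * (nb ψ (hk r) z + nb ψ (hk (2 * r)) z) + ε0) →
    ∀ D : ℝ, (∀ z, nb ψ (hk (1 / 12)) z ≤ D) →
    ∃ z0 : E, ‖z0‖ ≤ L / 2 + 1 ∧
      ∀ z, gav a (mm c v ω b ψ) z ≤ gav a (mm c v ω b ψ) z0 + D + 3 / √v := by
  obtain ⟨C, hC, hfar⟩ := hk_far
  refine ⟨16384 * C, by positivity, fun N L cb Mb a v hL hv hva ha' => ?_⟩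
  have ha : 0 < a := by linarith
  refine ⟨hk (1 / 12) (fun _ => exR2 N (N * cb) L Mb v) / 32,
    div_pos (hk_pos (by norm_num) _) (by norm_num), ?_⟩
  intro Sp ι Y _ _ _ _ _ hN c hc h0 ψ h h1 hs ω b hω hb hω0 hω1 hMb κ hκ hκC hT D hD
  subst hN
  have hA : ∑ j, |c j| ≤ Fintype.card ι * cb := by
    refine (Finset.sum_le_sum fun j _ => hc j).trans (le_of_eq ?_)
    simp
  have hMb0 : 0 ≤ Mb := (abs_nonneg _).trans (hMb (Classical.arbitrary Y) 0)
  obtain ⟨z0, hz0, hmax⟩ := ex_K_max hL hv hva ha' hA h0 h h1 hs hω hb hω0 hω1 hMb hMb0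
  refine ⟨z0, ?_, fun z => ?_⟩
  · by_contra hcon
    push Not at hcon
    set ε0 := hk (1 / 12) (fun _ => exR2 (Fintype.card ι) (Fintype.card ι * cb) L Mb v) / 32
      with hε0
    have hε1 : 0 < ε0 := div_pos (hk_pos (by norm_num) _) (by norm_num)
    have hε2 : 32 * ε0 ≤ hk (1 / 12) z0 := by linarith [ex_hk_ge hz0]
    obtain ⟨M, hM⟩ := mm_bdd c hv hω hb h
    have hcm := continuous_mm c v hω hb h
    have hc1 := continuous_gav ha hcm hM
    have hc2 := continuous_nb h (continuous_hk (1 / 12))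
    have hc3 := continuous_hk (1 / 12)
    have hc4 := continuous_VV v
    have hb1 := ex_gav_abs ha hcm hM
    have hb2 := ex_nb_abs h (w := 1 / 12) (by norm_num)
    have hb3 : ∀ z, |hk (1 / 12) z| ≤ 1 := fun z => by
      rw [abs_of_nonneg (hk_nonneg _ _)]; exact ex_hk_one z
    have hb4 := ex_VV_abs hv
    have hb5 := fun z => (abs_add_le (hk (1 / 12) z) (VV v z)).trans (add_le_add (hb3 z) (hb4 z))
    have hb6 := fun z => (abs_add_le (nb ψ (hk (1 / 12)) z) (hk (1 / 12) z + VV v z)).trans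
      (add_le_add (hb2 z) (hb5 z))
    have hc5 : Continuous fun z => hk (1 / 12) z + VV v z := hc3.add hc4
    have hc6 : Continuous fun z => nb ψ (hk (1 / 12)) z + (hk (1 / 12) z + VV v z) := hc2.add hc5
    have hle := gav_le hv (m := exK c a v ω b ψ) (hc1.add hc6)
      (fun z => (abs_add_le _ _).trans (add_le_add (hb1 z) (hb6 z))) hmax z0
    have hsplit : gav v (exK c a v ω b ψ) z0 = gav v (gav a (mm c v ω b ψ)) z0 +
        (nb ψ (hk (1 / 12 + v)) z0 + (hk (1 / 12 + v) z0 + VV (v + v) z0)) := by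
      unfold exK
      rw [ex_gav_add hv hc1 hc6 hb1 hb6, ex_gav_add hv hc2 hc5 hb2 hb5,
        ex_gav_add hv hc3 hc4 hb3 hb4, gav_nb h hv (by norm_num), ex_gav_hk hv (by norm_num),
        ex_gav_VV hv hv, add_comm v (1 / 12)]
    have hr2 : ∀ y : E, ‖z0‖ - L / 2 ≤ ‖y‖ → 1 ≤ r2 y := fun y hy => by
      have : 1 ≤ ‖y‖ := by linarith
      nlinarith [norm_sq_le_r2 y]
    have hz2 : 1 ≤ r2 z0 := hr2 z0 (by linarith)
    have hq : 0 ≤ √a ^ 5 := by positivity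
    have hfar' : ∀ u, 0 < u → u ≤ 2 * a → ∀ y, 1 ≤ r2 y →
        hk u y ≤ 32 * C * √a ^ 5 * hk (1 / 12) y := fun u hu hu' y hy => by
      refine (hfar u hu (by linarith) y hy).trans
        (mul_le_mul_of_nonneg_right ?_ (hk_nonneg _ _))
      have e1 : √u ≤ 2 * √a := by
        refine Real.sqrt_le_iff.mpr ⟨by positivity, ?_⟩
        rw [mul_pow, Real.sq_sqrt ha.le]
        linarith
      have e2 := mul_le_mul_of_nonneg_left (pow_le_pow_left₀ (by positivity) e1 5) hC.le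
      rw [mul_pow] at e2
      linarith
    have g1 := ex_step2 c ha hv hω hb hω0 h hκ hε1.le hT z0
    have g2 := ex_nb_le h (continuous_hk (a + 4 * v)) hc3 (s := 1) (t := 32 * C * √a ^ 5) hs
      (z := z0) fun y hy => by
        rw [one_mul]
        exact hfar' _ (by positivity) (by linarith) y (hr2 y hy)
    have g3 := ex_nb_le h hc3 (continuous_hk (1 / 12 + v)) (s := 1 + 6 * v) (t := 1) hs
      (z := z0) fun y hy => by
        rw [one_mul]
        exact hk_grow hv (by linarith) (hr2 y hy)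
    have g4 := hk_grow hv (by linarith) hz2
    have g5 := ex_VV_loss hv (z0 := z0) fun r hr hr' =>
      hfar' r (by linarith) (by linarith) z0 hz2
    have hn := nb_nonneg ψ (hk_nonneg (1 / 12)) z0
    have hn' := nb_nonneg ψ (hk_nonneg (a + 4 * v)) z0
    have hp := hk_pos (u := 1 / 12) (by norm_num) z0
    have hπ := Real.pi_le_four
    have hCq : 0 ≤ C * √a ^ 5 := by positivity
    have k1 : 16384 * (κ * (C * √a ^ 5)) ≤ 1 := by nlinarith
    have k2 : 16384 * (C * √a ^ 5) ≤ 1 := by nlinarith [mul_nonneg hκ hCq]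
    have k3 : 512 * (κ * nb ψ (hk (a + 4 * v)) z0) ≤ nb ψ (hk (1 / 12)) z0 := by
      have e1 := mul_le_mul_of_nonneg_left g2 hκ
      have e2 := mul_le_mul_of_nonneg_right k1 hn
      nlinarith
    have k4 : 8 * π * (16 * κ * nb ψ (hk (a + 4 * v)) z0 + ε0) ≤
        nb ψ (hk (1 / 12)) z0 + hk (1 / 12) z0 := by
      have e1 := mul_le_mul_of_nonneg_right hπ
        (show 0 ≤ 16 * κ * nb ψ (hk (a + 4 * v)) z0 + ε0 by positivity)
      nlinarith
    have k5 : 4 * π * (32 * C * √a ^ 5 * hk (1 / 12) z0) ≤ hk (1 / 12) z0 := by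
      have e1 := mul_le_mul_of_nonneg_right hπ
        (show 0 ≤ 32 * C * √a ^ 5 * hk (1 / 12) z0 by positivity)
      have e2 := mul_le_mul_of_nonneg_right k2 hp.le
      nlinarith
    have k6 := mul_le_mul_of_nonneg_left k4 hv.le
    have k7 := mul_le_mul_of_nonneg_left k5 hv.le
    have k8 := mul_pos hv hp
    have k9 := mul_nonneg hv.le hn
    rw [hsplit] at hle
    unfold exK at hle
    nlinarith
  · have e1 := hmax z
    unfold exK at e1
    have e2 := VV_le hv z0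
    have e3 : 1 ≤ (√v)⁻¹ := by
      rw [one_le_inv₀ (by positivity)]
      exact Real.sqrt_le_iff.mpr ⟨by norm_num, by linarith⟩
    rw [div_eq_mul_inv]
    linarith [nb_nonneg ψ (hk_nonneg (1 / 12)) z, hk_nonneg (1 / 12) z, VV_nonneg v z, hD z0,
      ex_hk_one z0]

end Pool.Agent.Lib.MP_0655ed_mp
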