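import Pool.Agent.Lib.MP_0655ed_mp.ImpNb

open Finset MeasureTheory Real Filter Topology

namespace Pool.Agent.Lib.MP_0655ed_mp

variable {σ Sp ι : Type} [Fintype ι] [DecidableEq ι] [Fintype Sp]

/-- integration by parts against the density -/
theorem hy_ibp {ψ : Wv ι Sp} (h : Nice ψ) {G : X ι → ℝ} (hG : ContDiff ℝ (⊤ : ℕ∞) G) (v : X ι)
    {δ : ℝ} (hδ : 0 < δ) :
    pot (fun x => fderiv ℝ G x v) ψ ≤ δ * nr (Dv v ψ) + pot (fun x => G x ^ 2) ψ / δ := by
  have hGc : Continuous G := hG.continuous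
  have hG' : Continuous fun x => fderiv ℝ G x v :=
    (hG.continuous_fderiv (by simp)).clm_apply continuous_const
  unfold nr pot
  rw [Finset.mul_sum, Finset.sum_div, ← Finset.sum_add_distrib]
  refine Finset.sum_le_sum fun τ _ => ?_
  have hd : ∀ x, HasFDerivAt (fun x => ‖ψ τ x‖ ^ 2)
      (2 • (innerSL ℝ (ψ τ x)).comp (fderiv ℝ (ψ τ) x)) x := fun x =>
    (h.diff τ x).hasFDerivAt.norm_sq
  have hfd : ∀ x, fderiv ℝ (fun x => ‖ψ τ x‖ ^ 2) x v = 2 * inner ℝ (ψ τ x) (Dv v ψ τ x) := by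
    intro x
    rw [(hd x).fderiv]
    simp [Dv]
    ring
  have hc1 : Continuous fun x => inner ℝ (ψ τ x) (Dv v ψ τ x) :=
    (h.cc τ).1.inner ((h.dv v).cc τ).1
  have hs1 : HasCompactSupport fun x => inner ℝ (ψ τ x) (Dv v ψ τ x) := by
    refine (h τ).2.mono fun x hx => ?_
    intro h0
    exact hx (by simp [h0])
  have i1 := integrable_pot hG'.locallyIntegrable h.cc τ
  have i2 : Integrable fun x => G x * fderiv ℝ (fun x => ‖ψ τ x‖ ^ 2) x v := by
    simp only [hfd]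
    exact (hGc.mul (continuous_const.mul hc1)).integrable_of_hasCompactSupport
      hs1.mul_left.mul_left
  have i3 := integrable_pot hGc.locallyIntegrable h.cc τ
  have key := integral_mul_fderiv_eq_neg_fderiv_mul_of_integrable (μ := volume) i1 i2 i3
    (fun x _ => hG.differentiable (by simp) x) (fun x _ => (hd x).differentiableAt)
  have i4 := integrable_pot locInt_one (h.dv v).cc τ
  have hG2 : Continuous fun x => G x ^ 2 := hGc.pow 2
  have i5 := integrable_pot hG2.locallyIntegrable h.cc τ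
  have e1 : ∫ x, fderiv ℝ G x v * ‖ψ τ x‖ ^ 2 =
      ∫ x, -(G x * fderiv ℝ (fun x => ‖ψ τ x‖ ^ 2) x v) := by
    rw [integral_neg, key, neg_neg]
  beta_reduce
  rw [e1, ← integral_const_mul, ← integral_div, ← integral_add (i4.const_mul δ) (i5.div_const δ)]
  refine integral_mono i2.neg ((i4.const_mul δ).add (i5.div_const δ)) fun x => ?_
  beta_reduce
  rw [hfd]
  have h1 := abs_real_inner_le_norm (ψ τ x) (Dv v ψ τ x)
  set a := ‖ψ τ x‖
  set b := ‖Dv v ψ τ x‖
  set p := inner ℝ (ψ τ x) (Dv v ψ τ x)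
  have h2 : -(G x * (2 * p)) ≤ 2 * (|G x| * a) * b := by
    have : -(G x * (2 * p)) ≤ |G x| * (2 * |p|) := by
      calc -(G x * (2 * p)) ≤ |G x * (2 * p)| := neg_le_abs _
        _ = |G x| * (2 * |p|) := by rw [abs_mul, abs_mul, abs_two]
    have h3 : |G x| * (2 * |p|) ≤ |G x| * (2 * (a * b)) := by gcongr
    linarith
  have h4 : 2 * (|G x| * a) * b ≤ δ * (1 * b ^ 2) + G x ^ 2 * a ^ 2 / δ := by
    rw [← sq_abs (G x), ← mul_pow, ← sub_nonneg]
    have : δ * (1 * b ^ 2) + (|G x| * a) ^ 2 / δ - 2 * (|G x| * a) * b =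
        (δ * b - |G x| * a) ^ 2 / δ := by
      field_simp
      ring
    rw [this]
    positivity
  exact h2.trans h4

/-- the regularised radial field -/
noncomputable def hyF (ε : ℝ) (k : Fin 3) (y : E) : ℝ := y k * (√(r2 y + ε))⁻¹

noncomputable def hyW (ε : ℝ) (y : E) : ℝ := r2 y * (√(r2 y + ε))⁻¹ ^ 3

theorem hy_contDiff {ε : ℝ} (hε : 0 < ε) (k : Fin 3) : ContDiff ℝ (⊤ : ℕ∞) (hyF ε k) := by
  have h0 : ∀ y, 0 < r2 y + ε := fun y => by linarith [r2_nonneg y]
  refine (contDiff_apply ℝ ℝ k).mul (ContDiff.inv ?_ fun y => (Real.sqrt_pos.mpr (h0 y)).ne')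
  exact (contDiff_r2.add contDiff_const).sqrt fun y => (h0 y).ne'

theorem hy_contW {ε : ℝ} (hε : 0 < ε) : Continuous (hyW ε) := by
  have h0 : ∀ y, 0 < r2 y + ε := fun y => by linarith [r2_nonneg y]
  refine contDiff_r2.continuous.mul (Continuous.pow (Continuous.inv₀ ?_
    fun y => (Real.sqrt_pos.mpr (h0 y)).ne') 3)
  exact (contDiff_r2.continuous.add continuous_const).sqrt

theorem hy_line {ε : ℝ} (hε : 0 < ε) (k : Fin 3) (y : E) :
    HasDerivAt (fun s : ℝ => hyF ε k (y + s • ee k))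
      ((√(r2 y + ε))⁻¹ - y k ^ 2 * (√(r2 y + ε))⁻¹ ^ 3) 0 := by
  have h0 : 0 < r2 y + ε := by linarith [r2_nonneg y]
  have hs : 0 < √(r2 y + ε) := Real.sqrt_pos.mpr h0
  have h1 : HasDerivAt (fun s : ℝ => (y + s • ee k) k) 1 0 := by
    have : (fun s : ℝ => (y + s • ee k) k) = fun s => y k + s := by
      funext s; simp [ee]
    rw [this]
    exact (hasDerivAt_id (0 : ℝ)).const_add _
  have h2 := ((hasDerivAt_r2_line y k).add_const ε).sqrt (by simpa using h0.ne')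
  have h3 := h2.inv (by simpa using hs.ne')
  have h4 := h1.mul h3
  refine h4.congr_deriv ?_
  simp only [zero_smul, add_zero, Pi.inv_apply]
  field_simp
  ring

theorem hy_div {ε : ℝ} (hε : 0 < ε) (y : E) :
    2 * hyW ε y ≤ ∑ k, ((√(r2 y + ε))⁻¹ - y k ^ 2 * (√(r2 y + ε))⁻¹ ^ 3) := by
  have h0 : 0 < r2 y + ε := by linarith [r2_nonneg y]
  have hs : 0 < √(r2 y + ε) := Real.sqrt_pos.mpr h0
  have hq : √(r2 y + ε) ^ 2 = r2 y + ε := Real.sq_sqrt h0.le
  rw [Finset.sum_sub_distrib, ← Finset.sum_mul]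
  simp only [Finset.sum_const, Finset.card_univ, Fintype.card_fin, nsmul_eq_mul, Nat.cast_ofNat]
  show 2 * (r2 y * (√(r2 y + ε))⁻¹ ^ 3) ≤ 3 * (√(r2 y + ε))⁻¹ - r2 y * (√(r2 y + ε))⁻¹ ^ 3
  set s := √(r2 y + ε)
  have h1 : s⁻¹ = (r2 y + ε) * s⁻¹ ^ 3 := by
    rw [← hq]; field_simp
  have h2 : 0 ≤ ε * s⁻¹ ^ 3 := by positivity
  nlinarith

theorem hy_sq {ε : ℝ} (hε : 0 < ε) (y : E) : ∑ k, hyF ε k y ^ 2 ≤ 1 := by
  have h0 : 0 < r2 y + ε := by linarith [r2_nonneg y]
  have hq : √(r2 y + ε) ^ 2 = r2 y + ε := Real.sq_sqrt h0.le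
  simp only [hyF, mul_pow, ← Finset.sum_mul, inv_pow, hq]
  show r2 y * (r2 y + ε)⁻¹ ≤ 1
  rw [← div_eq_mul_inv, div_le_one h0]
  linarith

theorem hy_nonneg (ε : ℝ) (y : E) : 0 ≤ hyW ε y := by
  have := r2_nonneg y
  unfold hyW
  positivity

theorem hy_le {ε : ℝ} (hε : 0 < ε) (y : E) : hyW ε y ≤ vk y := by
  rcases (r2_nonneg y).eq_or_lt with h | h
  · simp [hyW, ← h, vk_nonneg]
  · have hs : 0 < √(r2 y) := Real.sqrt_pos.mpr h
    have h1 : (√(r2 y + ε))⁻¹ ≤ (√(r2 y))⁻¹ := inv_anti₀ hs (Real.sqrt_le_sqrt (by linarith))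
    have hq : √(r2 y) ^ 2 = r2 y := Real.sq_sqrt h.le
    rw [vk_eq]
    calc hyW ε y ≤ r2 y * (√(r2 y))⁻¹ ^ 3 := by unfold hyW; gcongr
      _ = _ := by
        set s := √(r2 y)
        rw [← hq]; field_simp

theorem hy_tendsto (y : E) :
    Tendsto (fun n : ℕ => hyW (1 / ((n : ℝ) + 1)) y) atTop (𝓝 (vk y)) := by
  rcases (r2_nonneg y).eq_or_lt with h | h
  · simp [hyW, ← h, vk_eq]
  · have hs : 0 < √(r2 y) := Real.sqrt_pos.mpr h
    have hq : √(r2 y) ^ 2 = r2 y := Real.sq_sqrt h.le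
    have h1 : Tendsto (fun n : ℕ => r2 y + 1 / ((n : ℝ) + 1)) atTop (𝓝 (r2 y)) := by
      simpa using tendsto_one_div_add_atTop_nhds_zero_nat.const_add (r2 y)
    have h2 := ((h1.sqrt.inv₀ hs.ne').pow 3).const_mul (r2 y)
    have h3 : vk y = r2 y * (√(r2 y))⁻¹ ^ 3 := by
      rw [vk_eq]
      set s := √(r2 y)
      rw [← hq]; field_simp
    rw [h3]
    exact h2

theorem hy_gen {ψ : Wv ι Sp} (h : Nice ψ) (i : ι) (A : X ι →L[ℝ] E) (z : E)
    (hA : ∀ k, A (dir i k) = ee k) (hL : LocallyIntegrable fun x => vk (A x - z))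
    {δ : ℝ} (hδ : 0 < δ) : pot (fun x => vk (A x - z)) ψ ≤ δ * kin i ψ + nr ψ / δ := by
  have hAc : ContDiff ℝ (⊤ : ℕ∞) fun x => A x - z := A.contDiff.sub contDiff_const
  have step : ∀ ε, 0 < ε → pot (fun x => hyW ε (A x - z)) ψ ≤ δ * kin i ψ + nr ψ / δ := by
    intro ε hε
    have hG : ∀ k, ContDiff ℝ (⊤ : ℕ∞) fun x => hyF ε k (A x - z) := fun k =>
      (hy_contDiff hε k).comp hAc
    have hG' : ∀ k, Continuous fun x => fderiv ℝ (fun x => hyF ε k (A x - z)) x (dir i k) :=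
      fun k => ((hG k).continuous_fderiv (by simp)).clm_apply continuous_const
    have hfd : ∀ k x, fderiv ℝ (fun x => hyF ε k (A x - z)) x (dir i k) =
        (√(r2 (A x - z) + ε))⁻¹ - (A x - z) k ^ 2 * (√(r2 (A x - z) + ε))⁻¹ ^ 3 := by
      intro k x
      have h1 := ((hG k).differentiable (by simp) x).hasFDerivAt.hasLineDerivAt (dir i k)
      refine h1.unique ?_
      have h2 := hy_line hε k (A x - z)
      have h3 : (fun s : ℝ => hyF ε k (A (x + s • dir i k) - z)) =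
          fun s : ℝ => hyF ε k (A x - z + s • ee k) := by
        funext s
        rw [map_add, map_smul, hA]
        congr 1
        abel
      unfold HasLineDerivAt
      rw [h3]
      exact h2
    have hW : Continuous fun x => hyW ε (A x - z) := (hy_contW hε).comp hAc.continuous
    have h1 : 2 * pot (fun x => hyW ε (A x - z)) ψ ≤
        ∑ k, pot (fun x => fderiv ℝ (fun x => hyF ε k (A x - z)) x (dir i k)) ψ := by
      have hW2 : Continuous fun x => 2 * hyW ε (A x - z) := continuous_const.mul hW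
      rw [← pot_const_mul, ← pot_sum _ (fun k _ => (hG' k).locallyIntegrable) h.cc]
      refine pot_mono hW2.locallyIntegrable
        (continuous_finsetSum _ fun k _ => hG' k).locallyIntegrable h.cc fun x => ?_
      simp only [hfd]
      exact hy_div hε _
    have h2 : ∑ k, pot (fun x => hyF ε k (A x - z) ^ 2) ψ ≤ nr ψ := by
      have hc : ∀ k, Continuous fun x => hyF ε k (A x - z) ^ 2 := fun k => (hG k).continuous.pow 2
      rw [← pot_sum _ (fun k _ => (hc k).locallyIntegrable) h.cc]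
      exact pot_mono (continuous_finsetSum _ fun k _ => hc k).locallyIntegrable
        locInt_one h.cc fun x => hy_sq hε _
    have h3 := Finset.sum_le_sum fun k (_ : k ∈ Finset.univ) => hy_ibp h (hG k) (dir i k) hδ
    rw [Finset.sum_add_distrib, ← Finset.mul_sum, ← Finset.sum_div] at h3
    have h4 := div_le_div_of_nonneg_right h2 hδ.le
    have h5 := pot_nonneg (fun x => hy_nonneg ε (A x - z)) ψ
    unfold kin
    linarith
  have lim : Tendsto (fun n : ℕ => pot (fun x => hyW (1 / ((n : ℝ) + 1)) (A x - z)) ψ) atTop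
      (𝓝 (pot (fun x => vk (A x - z)) ψ)) := by
    unfold pot
    refine tendsto_finsetSum _ fun τ _ => ?_
    refine tendsto_integral_of_dominated_convergence _ (fun n => ?_) (integrable_pot hL h.cc τ)
      (fun n => ae_of_all _ fun x => ?_) (ae_of_all _ fun x => (hy_tendsto _).mul_const _)
    · exact (((hy_contW (by positivity)).comp hAc.continuous).mul
        ((h.cc τ).1.norm.pow 2)).aestronglyMeasurable
    · rw [Real.norm_eq_abs, abs_of_nonneg (mul_nonneg (hy_nonneg _ _) (by positivity))]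
      exact mul_le_mul_of_nonneg_right (hy_le (by positivity) _) (by positivity)
  exact le_of_tendsto' lim fun n => step _ (by positivity)

/-- hydrogen inequality, fixed centre -/
theorem hyd {ψ : Wv ι Sp} (h : Nice ψ) (i : ι) (z : E) {δ : ℝ} (hδ : 0 < δ) :
    pot (fun x => vk (x i - z)) ψ ≤ δ * kin i ψ + nr ψ / δ :=
  hy_gen h i (ContinuousLinearMap.proj i) z (fun k => by simp [dir, ee])
    (locInt_one_body i locInt_vk z) hδ

/-- hydrogen inequality, moving centre -/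
theorem hyd2 {ψ : Wv ι Sp} (h : Nice ψ) {i j : ι} (hij : i ≠ j) {δ : ℝ} (hδ : 0 < δ) :
    pot (fun x => vk (x i - x j)) ψ ≤ δ * kin i ψ + nr ψ / δ := by
  let A : X ι →L[ℝ] E := (ContinuousLinearMap.proj i : X ι →L[ℝ] E) -
    (ContinuousLinearMap.proj j : X ι →L[ℝ] E)
  have hA : ∀ x, A x - 0 = x i - x j := fun x => sub_zero _
  have := hy_gen h i A 0 (fun k => by
    rw [← sub_zero (A _), hA]; simp [dir, ee, Pi.single_eq_of_ne hij.symm])
    (by simp only [hA]; exact locInt_pair i j) hδ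
  simpa only [hA] using this

theorem hy_dir {ψ : Wv ι Sp} (h : Nice ψ) {F : X ι → ℝ} (hF : ContDiff ℝ (⊤ : ℕ∞) F) (v : X ι) :
    nr (Dv v (mulF F ψ)) ≤ 2 * pot (fun x => F x ^ 2) (Dv v ψ) +
      2 * pot (fun x => fderiv ℝ F x v ^ 2) ψ ∧
    pot (fun x => F x ^ 2) (Dv v ψ) ≤ 2 * nr (Dv v (mulF F ψ)) +
      2 * pot (fun x => fderiv ℝ F x v ^ 2) ψ := by
  have hF' : Continuous fun x => fderiv ℝ F x v ^ 2 :=
    ((hF.continuous_fderiv (by simp)).clm_apply continuous_const).pow 2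
  have i1 := integrable_pot locInt_one ((h.mulF hF).dv v).cc
  have hF2 : Continuous fun x => F x ^ 2 := hF.continuous.pow 2
  have i2 := integrable_pot hF2.locallyIntegrable (h.dv v).cc
  have i3 := integrable_pot hF'.locallyIntegrable h.cc
  have e1 : ∀ (a : ℝ) (p : ℂ), ‖(a : ℂ) * p‖ ^ 2 = a ^ 2 * ‖p‖ ^ 2 := fun a p => by
    rw [norm_mul, Complex.norm_real, Real.norm_eq_abs, mul_pow, sq_abs]
  have e2 : ∀ p q : ℂ, ‖p + q‖ ^ 2 ≤ 2 * ‖p‖ ^ 2 + 2 * ‖q‖ ^ 2 := fun p q => by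
    have := norm_add_le p q
    have h2 : ‖p + q‖ ^ 2 ≤ (‖p‖ + ‖q‖) ^ 2 := by gcongr
    nlinarith [sq_nonneg (‖p‖ - ‖q‖)]
  unfold nr pot
  simp only [Finset.mul_sum, ← Finset.sum_add_distrib, ← integral_const_mul]
  constructor
  · refine Finset.sum_le_sum fun τ _ => ?_
    rw [← integral_add ((i2 τ).const_mul 2) ((i3 τ).const_mul 2)]
    refine integral_mono (i1 τ) (((i2 τ).const_mul 2).add ((i3 τ).const_mul 2)) fun x => ?_
    simp only [Dv_mulF h (hF.differentiable (by simp)), one_mul]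
    have := e2 ((fderiv ℝ F x v : ℝ) * ψ τ x) (F x * Dv v ψ τ x)
    rw [e1, e1] at this
    linarith
  · refine Finset.sum_le_sum fun τ _ => ?_
    rw [← integral_add ((i1 τ).const_mul 2) ((i3 τ).const_mul 2)]
    refine integral_mono (i2 τ) (((i1 τ).const_mul 2).add ((i3 τ).const_mul 2)) fun x => ?_
    simp only [Dv_mulF h (hF.differentiable (by simp)), one_mul]
    have := e2 ((fderiv ℝ F x v : ℝ) * ψ τ x + F x * Dv v ψ τ x) (-((fderiv ℝ F x v : ℝ) * ψ τ x))
    rw [norm_neg, e1, add_comm _ (F x * Dv v ψ τ x), add_neg_cancel_right, e1,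
      add_comm (F x * Dv v ψ τ x)] at this
    linarith

theorem hy_sum {ψ : Wv ι Sp} (h : Nice ψ) {F : X ι → ℝ} (hF : ContDiff ℝ (⊤ : ℕ∞) F) (i : ι) :
    pot (fun x => ∑ k, fderiv ℝ F x (dir i k) ^ 2) ψ =
      ∑ k, pot (fun x => fderiv ℝ F x (dir i k) ^ 2) ψ :=
  pot_sum _ (fun _ _ => (((hF.continuous_fderiv (by simp)).clm_apply
    continuous_const).pow 2).locallyIntegrable) h.cc

/-- localised kinetic energy -/
theorem kin_mulF_le {ψ : Wv ι Sp} (h : Nice ψ) {F : X ι → ℝ} (hF : ContDiff ℝ (⊤ : ℕ∞) F) (i : ι) :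
    kin i (mulF F ψ) ≤ 2 * (∑ k, pot (fun x => F x ^ 2) (Dv (dir i k) ψ)) +
      2 * pot (fun x => ∑ k, fderiv ℝ F x (dir i k) ^ 2) ψ := by
  rw [hy_sum h hF, Finset.mul_sum, Finset.mul_sum, ← Finset.sum_add_distrib]
  exact Finset.sum_le_sum fun k _ => (hy_dir h hF _).1

theorem le_kin_mulF {ψ : Wv ι Sp} (h : Nice ψ) {F : X ι → ℝ} (hF : ContDiff ℝ (⊤ : ℕ∞) F) (i : ι) :
    (∑ k, pot (fun x => F x ^ 2) (Dv (dir i k) ψ)) / 2 -
      pot (fun x => ∑ k, fderiv ℝ F x (dir i k) ^ 2) ψ ≤ kin i (mulF F ψ) := by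
  have := Finset.sum_le_sum fun k (_ : k ∈ Finset.univ) => (hy_dir h hF (dir i k)).2
  rw [Finset.sum_add_distrib, ← Finset.mul_sum, ← Finset.mul_sum, ← hy_sum h hF] at this
  unfold kin
  linarith

theorem hy_one {ψ : Wv ι Sp} (h : Nice ψ) (j : ι) {B δ : ℝ} (hB : 0 < B) (hδ : 0 < δ) (z : E) :
    |pot (fun x => vk (x j - z)) ψ - pot (fun x => VV B (x j - z)) ψ| ≤ 4 * √(4 * π * B) ^ 3 *
      (δ * (∑ k, pot (fun x => hk B (x j - z)) (Dv (dir j k) ψ)) +
        pot (fun x => hk B (x j - z)) ψ / δ + δ * pot (fun x => hk (2 * B) (x j - z)) ψ / B) := by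
  have hl : ContDiff ℝ (⊤ : ℕ∞) fun x : X ι => x j - z :=
    (contDiff_apply ℝ E j).sub contDiff_const
  have L1 : LocallyIntegrable fun x : X ι => vk (x j - z) := locInt_one_body j locInt_vk z
  have L2 : LocallyIntegrable fun x : X ι => VV B (x j - z) :=
    ((continuous_VV B).comp hl.continuous).locallyIntegrable
  have hg : ContDiff ℝ (⊤ : ℕ∞) fun x : X ι => √(hk B (x j - z)) := (contDiff_sqrt_hk hB).comp hl
  have hsq : ∀ x : X ι, √(hk B (x j - z)) ^ 2 = hk B (x j - z) := fun x =>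
    Real.sq_sqrt (hk_nonneg _ _)
  have hR : 0 < √(4 * π * B) := Real.sqrt_pos.mpr (by positivity)
  have h1 : pot (fun x => VV B (x j - z)) ψ ≤ pot (fun x => vk (x j - z)) ψ :=
    pot_mono_ae L2 L1 h.cc ((ae_ne j z).mono fun x hx _ => VV_le_vk hB (sub_ne_zero.mpr hx))
  have L3 : LocallyIntegrable fun x : X ι => √(hk B (x j - z)) ^ 2 * vk (x j - z) :=
    locInt_mul (hg.continuous.pow 2) L1
  have h2 : pot (fun x => vk (x j - z)) ψ - pot (fun x => VV B (x j - z)) ψ ≤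
      √(4 * π * B) ^ 3 * pot (fun x => vk (x j - z)) (mulF (fun x => √(hk B (x j - z))) ψ) := by
    rw [pot_mulF, ← pot_const_mul, ← pot_sub L1 L2 h.cc]
    have L4 : LocallyIntegrable fun x : X ι => vk (x j - z) - VV B (x j - z) := L1.sub L2
    have L5 : LocallyIntegrable fun x : X ι =>
        √(4 * π * B) ^ 3 * (√(hk B (x j - z)) ^ 2 * vk (x j - z)) := L3.smul (√(4 * π * B) ^ 3)
    refine pot_mono_ae L4 L5 h.cc ((ae_ne j z).mono fun x hx _ => ?_)
    refine (vk_sub_VV hB (sub_ne_zero.mpr hx)).trans (le_of_eq ?_)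
    rw [hsq]
    unfold hk
    field_simp
  have h3 := hyd (h.mulF hg) j z hδ
  have h4 := kin_mulF_le h hg j
  have h5 : nr (mulF (fun x => √(hk B (x j - z))) ψ) = pot (fun x => hk B (x j - z)) ψ := by
    unfold nr
    rw [pot_mulF]
    simp only [hsq, mul_one]
  have h6 : pot (fun x => ∑ k, fderiv ℝ (fun x : X ι => √(hk B (x j - z))) x (dir j k) ^ 2) ψ ≤
      2 * pot (fun x => hk (2 * B) (x j - z)) ψ / B := by
    rw [mul_div_right_comm, ← pot_const_mul]
    have c1 : Continuous fun x =>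
        ∑ k, fderiv ℝ (fun x : X ι => √(hk B (x j - z))) x (dir j k) ^ 2 :=
      continuous_finsetSum _ fun k _ => ((hg.continuous_fderiv
        (by simp)).clm_apply continuous_const).pow 2
    have c2 : Continuous fun x : X ι => 2 / B * hk (2 * B) (x j - z) :=
      continuous_const.mul ((continuous_hk _).comp hl.continuous)
    refine pot_mono c1.locallyIntegrable c2.locallyIntegrable h.cc fun x => ?_
    have e1 := Gam_one_body j (contDiff_sqrt_hk hB) z x
    have e2 := grad_sqrt_hk hB (x j - z)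
    have e3 : ∑ k, fderiv ℝ (fun x : X ι => √(hk B (x j - z))) x (dir j k) ^ 2 ≤
        Gam (fun x : X ι => √(hk B (x j - z))) x :=
      Finset.single_le_sum (f := fun i => ∑ k,
        fderiv ℝ (fun x : X ι => √(hk B (x j - z))) x (dir i k) ^ 2)
        (fun _ _ => Finset.sum_nonneg fun _ _ => sq_nonneg _) (Finset.mem_univ j)
    rw [mul_div_right_comm] at e2
    linarith
  simp only [hsq] at h4
  rw [h5] at h3
  rw [abs_of_nonneg (sub_nonneg.mpr h1)]
  refine h2.trans ?_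
  rw [mul_comm (4 : ℝ) (√(4 * π * B) ^ 3), mul_assoc (√(4 * π * B) ^ 3)]
  refine mul_le_mul_of_nonneg_left (h3.trans ?_) (pow_pos hR 3).le
  have p1 : 0 ≤ ∑ k, pot (fun x => hk B (x j - z)) (Dv (dir j k) ψ) :=
    Finset.sum_nonneg fun k _ => pot_nonneg (fun x => hk_nonneg _ _) _
  have p2 : 0 ≤ pot (fun x => hk B (x j - z)) ψ / δ :=
    div_nonneg (pot_nonneg (fun x => hk_nonneg _ _) _) hδ.le
  have h7 := mul_le_mul_of_nonneg_left (h4.trans (add_le_add le_rfl
    (mul_le_mul_of_nonneg_left h6 zero_le_two))) hδ.le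
  have p3 := mul_nonneg hδ.le p1
  have e : δ * (2 * (∑ k, pot (fun x => hk B (x j - z)) (Dv (dir j k) ψ)) +
      2 * (2 * pot (fun x => hk (2 * B) (x j - z)) ψ / B)) =
      2 * (δ * ∑ k, pot (fun x => hk B (x j - z)) (Dv (dir j k) ψ)) +
      4 * (δ * pot (fun x => hk (2 * B) (x j - z)) ψ / B) := by ring
  linarith

omit [DecidableEq ι] in
theorem hy_ph {ψ : Wv ι Sp} [DecidableEq ι] (h : Cc ψ) (c : ι → ℝ) {g : E → ℝ}
    (hg : LocallyIntegrable g) (z : E) :
    pot (ph c g z) ψ = ∑ j, c j * pot (fun x => g (x j - z)) ψ := by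
  simp only [← pot_const_mul]
  exact pot_sum _ (fun j _ => (locInt_one_body j hg z).smul (c j)) h

/-- the short range part of the potential at a point -/
theorem hyd_loc : ∃ C : ℝ, 0 < C ∧ ∀ (Sp ι : Type) [Fintype ι] [DecidableEq ι] [Fintype Sp]
    (ψ : Wv ι Sp), Nice ψ → ∀ (c : ι → ℝ) (cb : ℝ), 0 ≤ cb → (∀ j, |c j| ≤ cb) →
    ∀ B δ : ℝ, 0 < B → 0 < δ → ∀ z : E,
    |pot (ph c vk z) ψ - pot (ph c (VV B) z) ψ| ≤ C * cb * √B ^ 3 *
      (δ * tb ψ (hk B) z + nb ψ (hk B) z / δ + δ * nb ψ (hk (2 * B)) z / B) := by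
  refine ⟨4 * √(4 * π) ^ 3, by positivity, ?_⟩
  intro Sp ι _ _ _ ψ h c cb hcb hc B δ hB hδ z
  unfold nb tb
  rw [hy_ph h.cc c locInt_vk, hy_ph h.cc c (continuous_VV B).locallyIntegrable,
    hy_ph h.cc _ (continuous_hk B).locallyIntegrable,
    hy_ph h.cc _ (continuous_hk (2 * B)).locallyIntegrable, ← Finset.sum_sub_distrib]
  simp only [one_mul]
  rw [Finset.mul_sum, Finset.mul_sum, Finset.sum_div, Finset.sum_div, ← Finset.sum_add_distrib,
    ← Finset.sum_add_distrib, Finset.mul_sum]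
  refine (Finset.abs_sum_le_sum_abs _ _).trans (Finset.sum_le_sum fun j _ => ?_)
  rw [← mul_sub, abs_mul]
  refine (mul_le_mul (hc j) (hy_one h j hB hδ z) (abs_nonneg _) hcb).trans (le_of_eq ?_)
  rw [Real.sqrt_mul (by positivity) B]
  ring

end Pool.Agent.Lib.MP_0655ed_mp
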