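import Pool.Agent.Lib.MP_0655ed_mp.ImpNb

open Finset MeasureTheory Real Filter Topology

namespace Pool.Agent.Lib.MP_0655ed_mp

variable {σ Sp ι : Type} [Fintype ι] [DecidableEq ι] [Fintype Sp]

theorem ob_bound (b : ContDiffBump (0 : E)) : ∃ D : ℝ, 0 ≤ D ∧ ∀ z, ‖fderiv ℝ b z‖ ≤ D := by
  obtain ⟨D, hD⟩ := ((b.contDiff (n := 1)).continuous_fderiv
    (by simp)).bounded_above_of_compact_support (b.hasCompactSupport.fderiv ℝ)
  exact ⟨D, (norm_nonneg _).trans (hD 0), hD⟩

theorem ob_smooth (b : ContDiffBump (0 : E)) (r : ℝ) :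
    ContDiff ℝ (⊤ : ℕ∞) fun y : E => b (r⁻¹ • y) :=
  b.contDiff.comp (contDiff_id.const_smul r⁻¹)

theorem ob_deriv (b : ContDiffBump (0 : E)) {D : ℝ} (hD : ∀ z, ‖fderiv ℝ b z‖ ≤ D) {r : ℝ}
    (hr : 0 < r) (y : E) (k : Fin 3) :
    fderiv ℝ (fun y : E => b (r⁻¹ • y)) y (ee k) ^ 2 ≤ D ^ 2 / r ^ 2 := by
  have hb : Differentiable ℝ b := (b.contDiff (n := 1)).differentiable (by simp)
  have h1 : HasFDerivAt (fun y : E => b (r⁻¹ • y))
      ((fderiv ℝ b (r⁻¹ • y)).comp (r⁻¹ • ContinuousLinearMap.id ℝ E)) y :=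
    (hb _).hasFDerivAt.comp y ((hasFDerivAt_id y).const_smul r⁻¹)
  rw [h1.fderiv]
  have h2 : ‖fderiv ℝ b (r⁻¹ • y) (ee k)‖ ≤ D := by
    refine (ContinuousLinearMap.le_opNorm _ _).trans ?_
    rw [ee, Pi.norm_single, norm_one, mul_one]
    exact hD _
  have h3 := pow_le_pow_left₀ (norm_nonneg _) h2 2
  rw [Real.norm_eq_abs, sq_abs] at h3
  have h4 : ((fderiv ℝ b (r⁻¹ • y)).comp (r⁻¹ • ContinuousLinearMap.id ℝ E)) (ee k) =
      r⁻¹ * fderiv ℝ b (r⁻¹ • y) (ee k) := by simp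
  rw [h4, mul_pow, inv_pow, mul_comm, ← div_eq_mul_inv]
  exact div_le_div_of_nonneg_right h3 (by positivity)

theorem ob_one (b : ContDiffBump (0 : E)) {r : ℝ} (hr : 0 < r) {y : E} (hy : ‖y‖ ≤ b.rIn * r) :
    b (r⁻¹ • y) = 1 := by
  refine b.one_of_mem_closedBall (mem_closedBall_zero_iff.mpr ?_)
  rw [norm_smul, norm_inv, Real.norm_of_nonneg hr.le, inv_mul_le_iff₀ hr]
  linarith

theorem ob_zero (b : ContDiffBump (0 : E)) {r : ℝ} (hr : 0 < r) {y : E}
    (hy : b.rOut * r ≤ ‖y‖) : b (r⁻¹ • y) = 0 := by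
  refine b.zero_of_le_dist ?_
  rw [dist_zero_right, norm_smul, norm_inv, Real.norm_of_nonneg hr.le, le_inv_mul_iff₀ hr]
  linarith

theorem ob_deriv_zero {t : ℝ} (ht : 1 < t) : deriv smoothTransition t = 0 := by
  have : smoothTransition =ᶠ[𝓝 t] fun _ => 1 :=
    (lt_mem_nhds ht).mono fun s hs => smoothTransition.one_of_one_le hs.le
  rw [this.deriv_eq, deriv_const]

theorem ob_trans : ∃ K : ℝ, 0 ≤ K ∧ (∀ t, 0 ≤ t → |deriv smoothTransition t| ≤ K) ∧
    ∀ t, 0 ≤ t → smoothTransition t ≤ K * t := by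
  have hc : Continuous (deriv smoothTransition) :=
    (smoothTransition.contDiff (n := 1)).continuous_deriv le_rfl
  obtain ⟨K, hK⟩ := (isCompact_Icc (a := (0 : ℝ)) (b := 1)).exists_bound_of_continuousOn
    hc.continuousOn
  have hK0 : 0 ≤ K := (norm_nonneg _).trans (hK 0 (by simp))
  have h1 : ∀ t, 0 ≤ t → |deriv smoothTransition t| ≤ K := fun t ht => by
    by_cases h : t ≤ 1
    · exact hK t ⟨ht, h⟩
    · rw [ob_deriv_zero (not_le.mp h), abs_zero]; exact hK0
  refine ⟨K, hK0, h1, fun t ht => ?_⟩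
  have hd : Differentiable ℝ smoothTransition :=
    (smoothTransition.contDiff (n := 1)).differentiable (by simp)
  have h2 := (convex_Ici (0 : ℝ)).norm_image_sub_le_of_norm_deriv_le (f := smoothTransition)
    (C := K) (fun x _ => hd x) (fun x hx => h1 x hx) (Set.mem_Ici.mpr le_rfl)
    (Set.mem_Ici.mpr ht)
  rw [smoothTransition.zero, sub_zero, sub_zero, Real.norm_of_nonneg ht] at h2
  exact (le_abs_self _).trans h2

theorem ob_hk {r : ℝ} (hr : 0 < r) {y : E} (hy : ‖y‖ ≤ 3 * r) :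
    (√(4 * π))⁻¹ ^ 3 * exp (-(27 / 4)) ≤ r ^ 3 * hk (r ^ 2) y := by
  have h1 : √(4 * π * r ^ 2) = √(4 * π) * r := by
    rw [Real.sqrt_mul (by positivity), Real.sqrt_sq hr.le]
  have h2 : r2 y ≤ 27 * r ^ 2 := by
    have := r2_le y
    have := pow_le_pow_left₀ (norm_nonneg y) hy 2
    nlinarith
  have h3 : exp (-(27 / 4)) ≤ exp (-r2 y / (4 * r ^ 2)) := by
    refine exp_le_exp.mpr ?_
    rw [le_div_iff₀ (by positivity)]
    linarith
  have h4 : r ^ 3 * hk (r ^ 2) y = (√(4 * π))⁻¹ ^ 3 * exp (-r2 y / (4 * r ^ 2)) := by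
    rw [hk, h1]
    field_simp
  rw [h4]
  exact mul_le_mul_of_nonneg_left h3 (by positivity)

theorem exists_holeFn : ∃ D : ℝ, 0 < D ∧ ∀ (ι : Type) [Fintype ι] [DecidableEq ι] (r : ℝ), 0 < r →
    ∀ z : E, ∃ h : X ι → ℝ, HoleFn D r z h := by
  let b : ContDiffBump (0 : E) := ⟨2, 3, by norm_num, by norm_num⟩
  obtain ⟨D, hD0, hD⟩ := ob_bound b
  obtain ⟨K, hK0, hK1, hK2⟩ := ob_trans
  set c0 : ℝ := (√(4 * π))⁻¹ ^ 3 * exp (-(27 / 4)) with hc0
  have hc : 0 < c0 := by have := pi_pos; positivity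
  refine ⟨12 * K ^ 2 * D ^ 2 + K / c0 + 1, by positivity, fun ι _ _ r hr z => ?_⟩
  let g : E → ℝ := fun y => b (r⁻¹ • y) ^ 2
  have hg : ContDiff ℝ (⊤ : ℕ∞) g := (ob_smooth b r).pow 2
  have hg0 : ∀ y, 0 ≤ g y := fun y => sq_nonneg _
  let F : X ι → ℝ := ph (fun _ => 1) g z
  have hF : ContDiff ℝ (⊤ : ℕ∞) F := contDiff_ph _ hg z
  have hFe : ∀ x, F x = ∑ j, g (x j - z) := fun x => by simp only [F, ph, one_mul]
  have hF0 : ∀ x, 0 ≤ F x := fun x => by
    rw [hFe]; exact Finset.sum_nonneg fun j _ => hg0 _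
  have hKc : 0 ≤ K / c0 := by positivity
  refine ⟨fun x => 1 - smoothTransition (F x), contDiff_const.sub
    (smoothTransition.contDiff.comp hF), fun i j x => ?_, fun x => ?_, fun x => ?_,
    fun x hx j => ?_, fun x hx => ?_, fun x => ?_, fun x => ?_⟩
  · have : F (x ∘ Equiv.swap i j) = F x := by
      rw [hFe, hFe]
      exact Equiv.sum_comp (Equiv.swap i j) fun l => g (x l - z)
    simp only [this]
  · exact sub_nonneg.mpr (smoothTransition.le_one _)
  · exact sub_le_self _ (smoothTransition.nonneg _)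
  · by_contra h0
    apply hx
    have h1 : g (x j - z) = 1 := by
      simp only [g]
      rw [ob_one b hr (not_le.mp h0).le, one_pow]
    have h2 : g (x j - z) ≤ F x := by
      rw [hFe]
      exact Finset.single_le_sum (f := fun l => g (x l - z)) (fun l _ => hg0 _) (Finset.mem_univ j)
    simp only [smoothTransition.one_of_one_le (h1 ▸ h2), sub_self]
  · have : F x = 0 := by
      rw [hFe]
      refine Finset.sum_eq_zero fun j _ => ?_
      simp only [g]
      rw [ob_zero b hr (hx j).le]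
      simp
    simp only [this, smoothTransition.zero, sub_zero]
  · have hd : HasDerivAt (fun t => 1 - smoothTransition t) (-deriv smoothTransition (F x))
        (F x) := (((smoothTransition.contDiff (n := 1)).differentiable (by simp))
          (F x)).hasDerivAt.const_sub 1
    have h1 := Gam_comp hF hd
    have h2 : Gam F x ≤ 12 * D ^ 2 / r ^ 2 * F x := by
      rw [Gam_ph _ hg, hFe, Finset.mul_sum]
      refine Finset.sum_le_sum fun j _ => ?_
      rw [one_pow, one_mul]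
      have h3 : ∀ k, fderiv ℝ g (x j - z) (ee k) ^ 2 ≤ 4 * D ^ 2 / r ^ 2 * g (x j - z) := by
        intro k
        have h4 := (((ob_smooth b r).differentiable (by simp)) (x j - z)).hasFDerivAt.pow 2
        have h5 := ob_deriv b hD hr (x j - z) k
        have h6 : fderiv ℝ g (x j - z) (ee k) = 2 * b (r⁻¹ • (x j - z)) *
            fderiv ℝ (fun y : E => b (r⁻¹ • y)) (x j - z) (ee k) := by
          simp only [g]
          rw [h4.fderiv]
          simp
        rw [h6, mul_pow, mul_pow]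
        have h7 := mul_le_mul_of_nonneg_left h5 (hg0 (x j - z))
        simp only [g] at h7 ⊢
        calc _ = 4 * (b (r⁻¹ • (x j - z)) ^ 2 *
              fderiv ℝ (fun y : E => b (r⁻¹ • y)) (x j - z) (ee k) ^ 2) := by ring
          _ ≤ 4 * (b (r⁻¹ • (x j - z)) ^ 2 * (D ^ 2 / r ^ 2)) := by linarith
          _ = _ := by ring
      calc _ ≤ ∑ _k : Fin 3, 4 * D ^ 2 / r ^ 2 * g (x j - z) := Finset.sum_le_sum fun k _ => h3 k
        _ = _ := by simp; ring
    rw [h1, neg_sq]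
    have h8 : 12 * K ^ 2 * D ^ 2 / r ^ 2 ≤ (12 * K ^ 2 * D ^ 2 + K / c0 + 1) / r ^ 2 :=
      div_le_div_of_nonneg_right (by linarith) (by positivity)
    refine le_trans ?_ h8
    by_cases h9 : F x ≤ 1
    · have h10 : deriv smoothTransition (F x) ^ 2 ≤ K ^ 2 := by
        rw [← sq_abs]
        exact pow_le_pow_left₀ (abs_nonneg _) (hK1 _ (hF0 x)) 2
      have h11 : Gam F x ≤ 12 * D ^ 2 / r ^ 2 :=
        h2.trans (mul_le_of_le_one_right (by positivity) h9)
      calc _ ≤ K ^ 2 * (12 * D ^ 2 / r ^ 2) :=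
            mul_le_mul h10 h11 (Gam_nonneg _ _) (sq_nonneg _)
        _ = _ := by ring
    · rw [ob_deriv_zero (not_le.mp h9)]
      simp only [ne_eq, OfNat.ofNat_ne_zero, not_false_eq_true, zero_pow, zero_mul]
      positivity
  · have h1 : ∀ y, c0 * g y ≤ r ^ 3 * hk (r ^ 2) y := fun y => by
      by_cases hy : ‖y‖ ≤ 3 * r
      · refine le_trans (mul_le_of_le_one_right hc.le ?_) (ob_hk hr hy)
        exact pow_le_one₀ b.nonneg b.le_one
      · have : g y = 0 := by
          simp only [g]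
          rw [ob_zero b hr (not_le.mp hy).le]
          simp
        rw [this, mul_zero]
        exact mul_nonneg (by positivity) (hk_nonneg _ _)
    have h2 : c0 * F x ≤ r ^ 3 * ph (fun _ => 1) (hk (r ^ 2)) z x := by
      rw [hFe]
      simp only [ph, one_mul, Finset.mul_sum]
      exact Finset.sum_le_sum fun j _ => h1 _
    have h3 : 0 ≤ r ^ 3 * ph (fun _ => 1) (hk (r ^ 2)) z x :=
      (mul_nonneg hc.le (hF0 x)).trans h2
    have h4 := hK2 _ (hF0 x)
    have h5 : K * F x = K / c0 * (c0 * F x) := by field_simp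
    have h6 := mul_le_mul_of_nonneg_left h2 hKc
    have h7 : 0 ≤ (12 * K ^ 2 * D ^ 2 + 1) * (r ^ 3 * ph (fun _ => 1) (hk (r ^ 2)) z x) :=
      mul_nonneg (by positivity) h3
    rw [sub_sub_cancel, mul_assoc]
    nlinarith

theorem exists_gorb : ∃ D : ℝ, 0 < D ∧ ∀ v r : ℝ, 0 < v → 0 < r → D * v ≤ r ^ 2 →
    ∃ f Z, GOrb D v r f Z := by
  let b : ContDiffBump (0 : E) := ⟨1 / 2, 1, by norm_num, by norm_num⟩
  obtain ⟨D, hD0, hD⟩ := ob_bound b
  refine ⟨216 + 12 * D ^ 2, by positivity, fun v r hv hr hvr => ?_⟩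
  let g : E → ℝ := fun y => b (r⁻¹ • y)
  have hg : ContDiff ℝ (⊤ : ℕ∞) g := ob_smooth b r
  have hg1 : ∀ y, g y ^ 2 ≤ 1 := fun y => pow_le_one₀ b.nonneg b.le_one
  have hi : Integrable fun y => hk v y * g y ^ 2 :=
    (integrable_hk hv).mono ((continuous_hk v).mul (hg.continuous.pow 2)).aestronglyMeasurable
      (ae_of_all _ fun y => by
        rw [Real.norm_of_nonneg (hk_nonneg v y),
          Real.norm_of_nonneg (mul_nonneg (hk_nonneg v y) (sq_nonneg _))]
        exact mul_le_of_le_one_right (hk_nonneg v y) (hg1 y))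
  set Z := ∫ y, hk v y * g y ^ 2 with hZ
  have hr2 : 0 < r ^ 2 := by positivity
  have h2v : 0 < 2 * v := by positivity
  have hZ1 : Z ≤ 1 := by
    rw [← integral_hk hv]
    exact integral_mono hi (integrable_hk hv) fun y =>
      mul_le_of_le_one_right (hk_nonneg v y) (hg1 y)
  have hZ2 : 1 - Z ≤ 96 * v / r ^ 2 := by
    have h1 : 1 - Z = ∫ y, (hk v y - hk v y * g y ^ 2) := by
      rw [integral_sub (integrable_hk hv) hi, integral_hk hv]
    have h2 : 96 * v / r ^ 2 = ∫ y, 96 * v / r ^ 2 * hk (2 * v) y := by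
      rw [integral_const_mul, integral_hk h2v, mul_one]
    rw [h1, h2]
    refine integral_mono ((integrable_hk hv).sub hi) ((integrable_hk h2v).const_mul _) fun y => ?_
    have h3 := hk_nonneg v y
    have h4 := hk_nonneg (2 * v) y
    by_cases hy : ‖y‖ ≤ 1 / 2 * r
    · have : g y = 1 := ob_one b hr hy
      simp only [this, one_pow, mul_one, sub_self]
      positivity
    · have h5 := pow_le_pow_left₀ (by positivity) (not_le.mp hy).le 2
      have h6 := norm_sq_le_r2 y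
      have h7 := r2_mul_hk hv y
      have h8 : r ^ 2 * hk v y ≤ 4 * (r2 y * hk v y) := by nlinarith
      have h9 : 0 ≤ hk v y * g y ^ 2 := mul_nonneg h3 (sq_nonneg _)
      have h10 : hk v y ≤ 96 * v / r ^ 2 * hk (2 * v) y := by
        rw [div_mul_eq_mul_div, le_div_iff₀ hr2]
        linarith
      simp only
      linarith
  have hDv : 0 ≤ 12 * D ^ 2 * v := by positivity
  have hZ3 : 1 / 2 ≤ Z := by
    have : 96 * v / r ^ 2 ≤ 1 / 2 := by
      rw [div_le_iff₀ hr2]
      nlinarith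
    linarith
  have hZ0 : 0 < Z := by linarith
  let F : E → ℝ := fun y => (√Z)⁻¹ * (√(hk v y) * g y)
  have hF : ContDiff ℝ (⊤ : ℕ∞) F := contDiff_const.mul ((contDiff_sqrt_hk hv).mul hg)
  have hF2 : ∀ y, ‖((F y : ℝ) : ℂ)‖ ^ 2 = Z⁻¹ * (hk v y * g y ^ 2) := fun y => by
    simp only [F, Complex.norm_real, Real.norm_eq_abs, sq_abs, mul_pow, inv_pow,
      Real.sq_sqrt hZ0.le, Real.sq_sqrt (hk_nonneg v y)]
  refine ⟨fun y => ((F y : ℝ) : ℂ), Z, ⟨Complex.ofRealCLM.contDiff.comp hF, fun y hy => ?_, ?_⟩,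
    ?_, hZ3, hZ2.trans ?_, hZ1, fun y => ?_⟩
  · by_contra h0
    apply hy
    have : g y = 0 := ob_zero b hr (by simpa [b] using (not_le.mp h0).le)
    simp [F, this]
  · simp only [hF2, integral_const_mul, ← hZ]
    exact inv_mul_cancel₀ hZ0.ne'
  · have h1 : ∀ k : Fin 3, ∫ y, ‖fderiv ℝ (fun y => ((F y : ℝ) : ℂ)) y (Pi.single k 1)‖ ^ 2 ≤
        8 / v + 4 * D ^ 2 / r ^ 2 := by
      intro k
      have h2 : 8 / v + 4 * D ^ 2 / r ^ 2 =
          ∫ y, (8 / v * hk (2 * v) y + 4 * D ^ 2 / r ^ 2 * hk v y) := by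
        rw [integral_add ((integrable_hk h2v).const_mul _) ((integrable_hk hv).const_mul _),
          integral_const_mul, integral_const_mul, integral_hk h2v, integral_hk hv, mul_one,
          mul_one]
      rw [h2]
      refine integral_mono_of_nonneg (ae_of_all _ fun y => by positivity)
        (((integrable_hk h2v).const_mul _).add ((integrable_hk hv).const_mul _))
        (ae_of_all _ fun y => ?_)
      have d1 := (((contDiff_sqrt_hk hv).differentiable (by simp)) y).hasFDerivAt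
      have d2 := ((hg.differentiable (by simp)) y).hasFDerivAt
      have d3 := (Complex.ofRealCLM.hasFDerivAt.comp y ((d1.mul d2).const_mul (√Z)⁻¹)).fderiv
      set A := fderiv ℝ (fun x => √(hk v x)) y (ee k) with hA
      set B := fderiv ℝ g y (ee k) with hB
      have h3 : fderiv ℝ (fun y => ((F y : ℝ) : ℂ)) y (Pi.single k 1) =
          (((√Z)⁻¹ * (√(hk v y) * B + g y * A) : ℝ) : ℂ) := by
        have h4 : (fun y => ((F y : ℝ) : ℂ)) = Complex.ofRealCLM ∘ fun y =>
            (√Z)⁻¹ * ((fun x => √(hk v x)) * g) y := rfl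
        rw [h4, d3]
        simp [hA, hB, ee, mul_add]
      have h5 : A ^ 2 ≤ 2 * hk (2 * v) y / v :=
        le_trans (Finset.single_le_sum
          (f := fun k => fderiv ℝ (fun x => √(hk v x)) y (ee k) ^ 2) (fun _ _ => sq_nonneg _)
          (Finset.mem_univ k)) (grad_sqrt_hk hv y)
      have h6 : B ^ 2 ≤ D ^ 2 / r ^ 2 := ob_deriv b hD hr y k
      have h7 : Z⁻¹ ≤ 2 := by
        rw [inv_le_comm₀ hZ0 (by norm_num)]
        linarith
      have h8 : (√(hk v y) * B + g y * A) ^ 2 ≤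
          2 * (hk v y * (D ^ 2 / r ^ 2)) + 2 * (2 * hk (2 * v) y / v) := by
        have h9 : (√(hk v y) * B) ^ 2 ≤ hk v y * (D ^ 2 / r ^ 2) := by
          rw [mul_pow, Real.sq_sqrt (hk_nonneg v y)]
          exact mul_le_mul_of_nonneg_left h6 (hk_nonneg v y)
        have h10 : (g y * A) ^ 2 ≤ 2 * hk (2 * v) y / v := by
          rw [mul_pow]
          exact (mul_le_of_le_one_left (sq_nonneg _) (hg1 y)).trans h5
        nlinarith [sq_nonneg (√(hk v y) * B - g y * A)]
      simp only [h3, Complex.norm_real, Real.norm_eq_abs, sq_abs, mul_pow, inv_pow,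
        Real.sq_sqrt hZ0.le]
      calc _ ≤ 2 * (2 * (hk v y * (D ^ 2 / r ^ 2)) + 2 * (2 * hk (2 * v) y / v)) :=
            mul_le_mul h7 h8 (sq_nonneg _) (by norm_num)
        _ = _ := by ring
    have h2 : D ^ 2 / r ^ 2 ≤ D ^ 2 / v :=
      div_le_div_of_nonneg_left (sq_nonneg _) hv (by nlinarith)
    calc k0 _ ≤ ∑ _k : Fin 3, (8 / v + 4 * D ^ 2 / r ^ 2) := Finset.sum_le_sum fun k _ => h1 k
      _ = 24 * v⁻¹ + 12 * (D ^ 2 / r ^ 2) := by simp; ring
      _ ≤ 216 * v⁻¹ + 12 * (D ^ 2 / v) := by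
          have : 0 < v⁻¹ := inv_pos.mpr hv
          linarith
      _ = _ := by ring
  · exact div_le_div_of_nonneg_right (by nlinarith) hr2.le
  · rw [hF2, ← mul_assoc, mul_inv_cancel₀ hZ0.ne', one_mul]
    exact mul_le_of_le_one_right (hk_nonneg v y) (hg1 y)

theorem HoleFn.mono {D D' r : ℝ} (hD : D ≤ D') (hr : 0 < r) {z : E} {h : X ι → ℝ}
    (hh : HoleFn D r z h) : HoleFn D' r z h :=
  ⟨hh.smooth, hh.symm, hh.nonneg, hh.le_one, hh.hole, hh.eq_one,
    fun x => (hh.gam x).trans (div_le_div_of_nonneg_right hD (by positivity)),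
    fun x => (hh.cnt x).trans (mul_le_mul_of_nonneg_right
      (mul_le_mul_of_nonneg_right hD (by positivity))
      (Finset.sum_nonneg fun _ _ => mul_nonneg zero_le_one (hk_nonneg _ _)))⟩

theorem GOrb.mono {D D' v r : ℝ} (hD : D ≤ D') (hv : 0 < v) {f : E → ℂ} {Z : ℝ}
    (h : GOrb D v r f Z) : GOrb D' v r f Z :=
  ⟨h.orb, h.kin.trans (div_le_div_of_nonneg_right hD hv.le), h.half,
    h.near.trans (div_le_div_of_nonneg_right (mul_le_mul_of_nonneg_right hD hv.le) (sq_nonneg _)),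
    h.le_one, h.dom⟩

theorem GOrb.cv_le {D v r : ℝ} (hv : 0 < v) {f : E → ℂ} {Z : ℝ} (h : GOrb D v r f Z) (x : E) :
    cv (fun w => ‖f w‖ ^ 2) x ≤ 2 / √v := by
  have hi := integrable_mul_vk (continuous_hk v) (integrable_hk hv) (M := hk v 0)
    (fun w => by rw [abs_of_nonneg (hk_nonneg v w)]; exact hk_le_zero hv w) x
  have h1 : cv (fun w => ‖f w‖ ^ 2) x ≤ ∫ w, 2 * (hk v w * vk (x - w)) := by
    refine integral_mono_of_nonneg
      (ae_of_all _ fun w => mul_nonneg (sq_nonneg _) (vk_nonneg _)) (hi.const_mul 2)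
      (ae_of_all _ fun w => ?_)
    have h2 : ‖f w‖ ^ 2 ≤ 2 * hk v w := by
      have h3 := h.dom w
      have h4 := mul_le_mul_of_nonneg_right h.half (sq_nonneg ‖f w‖)
      linarith
    have h5 := mul_le_mul_of_nonneg_right h2 (vk_nonneg (x - w))
    simp only
    linarith
  have h6 : ∫ w, hk v w * vk (x - w) = VV v x := by rw [← cv_hk hv]; rfl
  rw [integral_const_mul, h6] at h1
  have h7 := VV_le hv x
  rw [div_eq_mul_inv]
  linarith

/-- at least half of the grid points are centres of holes -/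
theorem hole_half {Y : Type} [Fintype Y] {D l : ℝ} (hl : 0 < l) {c : Y → E}
    (g : Grid l c (Fintype.card ι)) {h : Y → X ι → ℝ} (hh : ∀ y, HoleFn D l (c y) (h y))
    (x : X ι) : 1 / 2 ≤ (Fintype.card Y : ℝ)⁻¹ * ∑ y, h y x ^ 2 := by
  classical
  let B : Finset Y := Finset.univ.filter fun y => ∃ j, ‖x j - c y‖ ≤ 3 * l
  have h1 : B.card ≤ Fintype.card ι := by
    have h2 : B ⊆ Finset.univ.biUnion fun j : ι =>
        Finset.univ.filter fun y => ‖x j - c y‖ ≤ 3 * l := by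
      intro y hy
      obtain ⟨j, hj⟩ := (Finset.mem_filter.mp hy).2
      exact Finset.mem_biUnion.mpr ⟨j, Finset.mem_univ _, Finset.mem_filter.mpr ⟨by simp, hj⟩⟩
    refine (Finset.card_le_card h2).trans (Finset.card_biUnion_le.trans ?_)
    rw [← Finset.card_univ, Finset.card_eq_sum_ones Finset.univ]
    refine Finset.sum_le_sum fun j _ => Finset.card_le_one.mpr fun y hy y' hy' => ?_
    exact g.sep.eq hl (Finset.mem_filter.mp hy).2 (Finset.mem_filter.mp hy').2
  have h3 : ∑ y ∈ Bᶜ, h y x ^ 2 = Bᶜ.card := by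
    rw [Finset.card_eq_sum_ones]
    push_cast
    refine Finset.sum_congr rfl fun y hy => ?_
    rw [(hh y).eq_one x fun j => ?_, one_pow]
    by_contra h0
    exact (Finset.mem_compl.mp hy) (Finset.mem_filter.mpr ⟨by simp, j, not_lt.mp h0⟩)
  have h4 : ∑ y ∈ Bᶜ, h y x ^ 2 ≤ ∑ y, h y x ^ 2 :=
    Finset.sum_le_sum_of_subset_of_nonneg (Finset.subset_univ _) fun _ _ _ => sq_nonneg _
  have h5 : (Bᶜ.card : ℝ) + B.card = Fintype.card Y := by
    exact_mod_cast Finset.card_compl_add_card B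
  have h6 : (B.card : ℝ) ≤ Fintype.card ι := by exact_mod_cast h1
  have h7 : (2 * Fintype.card ι : ℝ) ≤ Fintype.card Y := by exact_mod_cast g.big
  have h8 : (0 : ℝ) < Fintype.card Y := by exact_mod_cast g.pos
  rw [le_inv_mul_iff₀ h8]
  linarith

end Pool.Agent.Lib.MP_0655ed_mp
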