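import Pool.Agent.Lib.MP_0655ed_mp.ImpNb

open Finset MeasureTheory Real Filter Topology

namespace Pool.Agent.Lib.MP_0655ed_mp

variable {σ Sp ι : Type} [Fintype ι] [DecidableEq ι] [Fintype Sp]
  {P : Species σ Sp} {sp : ι → σ} {L t e1 K ε I mb cm cb : ℝ} {x0 : E} {ψ : Wv ι Sp}

theorem St.eps_nonneg (h : St P sp L t x0 e1 K ε ψ) : 0 ≤ ε := by
  have h1 := h.low ψ h.tst
  have h2 := h.near
  rw [h.one] at h1
  linarith

theorem var_abs_I (hD : Dat P I mb cm cb) (sp : ι → σ) (F : X ι → ℝ) (ψ : Wv ι Sp) :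
    |I| * pot (Gam F) ψ = I * pot (Gam F) ψ := by
  rcases isEmpty_or_nonempty ι with hι | ⟨⟨i⟩⟩
  · have : Gam F = fun _ => 0 := funext fun x => by simp [Gam]
    rw [this, pot_const]; simp
  · have := hD.mpos (sp i)
    rw [abs_of_nonneg (le_trans (by positivity) (hD.hI (sp i)))]

omit [DecidableEq ι] in
theorem var_cont_d {F : X ι → ℝ} (hF : ContDiff ℝ (⊤ : ℕ∞) F) (v : X ι) :
    Continuous fun x => fderiv ℝ F x v :=
  (hF.continuous_fderiv (by simp)).clm_apply continuous_const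

theorem var_ims (hD : Dat P I mb cm cb) (hψ : Nice ψ) {J : Type} [Fintype J] {G : J → X ι → ℝ}
    (hG : ∀ j, ContDiff ℝ (⊤ : ℕ∞) (G j)) (h1 : ∀ x, ∑ j, G j x ^ 2 = 1) :
    ∑ j, dq P sp t x0 e1 (mulF (G j) ψ) ≤ dq P sp t x0 e1 ψ + |I| * ∑ j, pot (Gam (G j)) ψ := by
  have hc : ∀ j, Continuous (G j) := fun j => (hG j).continuous
  have hq : ∀ j v, LocallyIntegrable fun x => fderiv ℝ (G j) x v ^ 2 :=
    fun j v => ((var_cont_d (hG j) v).pow 2).locallyIntegrable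
  have e1 := pot_part hc h1 (locInt_coulomb fun i => P.charge (sp i)) hψ.cc
  have e2 := pot_part hc h1 (locInt_ph (ch P sp) locInt_vk x0) hψ.cc
  have e3 : ∑ j, nr (mulF (G j) ψ) = nr ψ := pot_part hc h1 locInt_one hψ.cc
  have e4 : ∀ i, ∑ j, kin i (mulF (G j) ψ)
      = kin i ψ + ∑ j, ∑ k, pot (fun x => fderiv ℝ (G j) x (dir i k) ^ 2) ψ := by
    intro i
    unfold kin
    rw [Finset.sum_comm, Finset.sum_comm (f := fun j k => pot _ ψ), ← Finset.sum_add_distrib]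
    refine Finset.sum_congr rfl fun k _ => ?_
    rw [ims hG h1 hψ, pot_sum _ (fun j _ => hq j _) hψ.cc]
  have e5 : ∑ j, pot (Gam (G j)) ψ
      = ∑ i, ∑ j, ∑ k, pot (fun x => fderiv ℝ (G j) x (dir i k) ^ 2) ψ := by
    rw [Finset.sum_comm]
    refine Finset.sum_congr rfl fun j _ => ?_
    unfold Gam
    rw [pot_sum _ (fun i _ => locallyIntegrable_finsetSum _ fun k _ => hq j _) hψ.cc]
    exact Finset.sum_congr rfl fun i _ => pot_sum _ (fun k _ => hq j _) hψ.cc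
  have e6 : ∑ j, ∑ i, kin i (mulF (G j) ψ) / (2 * P.mass (sp i))
      ≤ ∑ i, kin i ψ / (2 * P.mass (sp i)) + |I| * ∑ j, pot (Gam (G j)) ψ := by
    rw [Finset.sum_comm, e5, Finset.mul_sum, ← Finset.sum_add_distrib]
    refine Finset.sum_le_sum fun i _ => ?_
    rw [← Finset.sum_div, e4, add_div, add_le_add_iff_left, div_eq_inv_mul, ← one_div]
    exact mul_le_mul_of_nonneg_right ((hD.hI _).trans (le_abs_self _))
      (Finset.sum_nonneg fun j _ => Finset.sum_nonneg fun k _ =>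
        pot_nonneg (fun _ => sq_nonneg _) _)
  simp only [dq, qx, en, Finset.sum_sub_distrib, Finset.sum_add_distrib, ← Finset.mul_sum, e1, e2,
    e3]
  linarith

theorem var_dq_smul (hψ : Nice ψ) {F : X ι → ℝ} (hF : ContDiff ℝ (⊤ : ℕ∞) F) (c : ℝ) :
    dq P sp t x0 e1 (mulF (fun x => c * F x) ψ) = c ^ 2 * dq P sp t x0 e1 (mulF F ψ) := by
  have e : mulF (fun x => c * F x) ψ = (c : ℂ) • mulF F ψ := by
    funext τ x; simp [mulF, mul_assoc]
  rw [e]
  simp only [dq, qx, nr, en_smul _ _ (hψ.mulF hF), pot_smul, Complex.norm_real, Real.norm_eq_abs,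
    sq_abs]
  ring

theorem var_Gam_mul {F : X ι → ℝ} (hF : ContDiff ℝ (⊤ : ℕ∞) F) (c : ℝ) (x : X ι) :
    Gam (fun x => c * F x) x = c ^ 2 * Gam F x := by
  simpa using Gam_comp hF (φ := fun y => c * y) (x := x) ((hasDerivAt_id (F x)).const_mul c)

theorem var_Gam_sq {J : Type} [Fintype J] {f : J → X ι → ℝ}
    (hf : ∀ j, ContDiff ℝ (⊤ : ℕ∞) (f j)) (x : X ι) :
    Gam (fun x => ∑ j, f j x ^ 2) x ≤ 4 * (∑ j, f j x ^ 2) * ∑ j, Gam (f j) x := by
  have h3 : HasFDerivAt (fun x => ∑ j, f j x ^ 2)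
      (∑ j, (2 • f j x ^ (2 - 1)) • fderiv ℝ (f j) x) x :=
    HasFDerivAt.fun_sum fun j _ => ((hf j).differentiable (by simp) x).hasFDerivAt.pow 2
  unfold Gam
  rw [h3.fderiv, Finset.sum_comm (f := fun j i => ∑ k, fderiv ℝ (f j) x (dir i k) ^ 2),
    Finset.mul_sum]
  refine Finset.sum_le_sum fun i _ => ?_
  rw [Finset.sum_comm, Finset.mul_sum]
  refine Finset.sum_le_sum fun k _ => ?_
  simp only [_root_.sum_apply, _root_.smul_apply, smul_eq_mul, nsmul_eq_mul, Nat.cast_ofNat,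
    Nat.add_one_sub_one, pow_one, mul_assoc, ← Finset.mul_sum]
  nlinarith [Finset.sum_mul_sq_le_sq_mul_sq Finset.univ (fun j => f j x)
    fun j => fderiv ℝ (f j) x (dir i k)]

theorem var_Gam_sqrt {G : X ι → ℝ} (hG : ContDiff ℝ (⊤ : ℕ∞) G) (a b : ℝ) (x : X ι)
    (h : 0 < a * G x + b) :
    Gam (fun x => √(a * G x + b)) x = a ^ 2 / (4 * (a * G x + b)) * Gam G x := by
  rw [Gam_comp hG (φ := fun y => √(a * y + b)) (x := x)
    ((((hasDerivAt_id (G x)).const_mul a).add_const b).sqrt h.ne'), div_pow, mul_pow, mul_pow]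
  simp only [id, Real.sq_sqrt h.le]
  norm_num

/-- master localisation inequality -/
theorem St.mi (hD : Dat P I mb cm cb) (h : St P sp L t x0 e1 K ε ψ) {J : Type} [Fintype J]
    {f : J → X ι → ℝ} (hf : ∀ j, ContDiff ℝ (⊤ : ℕ∞) (f j)) (hs : Sym sp fun x => ∑ j, f j x ^ 2)
    {M : ℝ} (hM0 : 0 < M) (hM : ∀ x, ∑ j, f j x ^ 2 ≤ M) :
    ∑ j, dq P sp t x0 e1 (mulF (f j) ψ) ≤ 2 * I * ∑ j, pot (Gam (f j)) ψ + 2 * M * ε := by
  have hψ := h.tst.nice
  have hG : ContDiff ℝ (⊤ : ℕ∞) fun x => ∑ j, f j x ^ 2 := ContDiff.sum fun j _ => (hf j).pow 2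
  have hG0 : ∀ x, 0 ≤ ∑ j, f j x ^ 2 := fun x => by positivity
  have hp : ∀ x, 1 / 2 ≤ -(2 * M)⁻¹ * ∑ j, f j x ^ 2 + 1 := fun x => by
    have : (2 * M)⁻¹ * ∑ j, f j x ^ 2 ≤ 1 / 2 := by
      rw [inv_mul_le_iff₀ (by positivity)]; linarith [hM x]
    linarith
  have hp' : ∀ x, 0 < -(2 * M)⁻¹ * ∑ j, f j x ^ 2 + 1 := fun x => by linarith [hp x]
  have hc : √(2 * M)⁻¹ ^ 2 = (2 * M)⁻¹ := Real.sq_sqrt (by positivity)
  have s0 : ContDiff ℝ (⊤ : ℕ∞) fun x => √(-(2 * M)⁻¹ * ∑ j, f j x ^ 2 + 1) :=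
    ((contDiff_const.mul hG).add contDiff_const).sqrt fun x => (hp' x).ne'
  have key := var_ims (sp := sp) (t := t) (x0 := x0) (e1 := e1) hD hψ (J := Option J)
    (G := fun o => o.elim (fun x => √(-(2 * M)⁻¹ * ∑ j, f j x ^ 2 + 1))
      fun j x => √(2 * M)⁻¹ * f j x)
    (by rintro (_ | j); exacts [s0, contDiff_const.mul (hf j)])
    (fun x => by
      simp only [Fintype.sum_option, Option.elim, Real.sq_sqrt (hp' x).le, mul_pow, hc,
        ← Finset.mul_sum]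
      ring)
  have e1' : ∀ j, pot (Gam fun x => √(2 * M)⁻¹ * f j x) ψ = (2 * M)⁻¹ * pot (Gam (f j)) ψ :=
    fun j => by rw [← pot_const_mul]; congr 1; funext x; rw [var_Gam_mul (hf j), hc]
  simp only [Fintype.sum_option, Option.elim, var_dq_smul hψ (hf _), hc, e1',
    ← Finset.mul_sum] at key
  have a1 := h.low _ (tst_mulS h.tst s0 fun i j hij x => by
    have := hs i j hij x
    simp only at this ⊢
    rw [this])
  have a2 : pot (Gam fun x => √(-(2 * M)⁻¹ * ∑ j, f j x ^ 2 + 1)) ψ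
      ≤ (2 * M)⁻¹ * ∑ j, pot (Gam (f j)) ψ := by
    rw [← pot_sum _ (fun j _ => (continuous_Gam (hf j)).locallyIntegrable) hψ.cc, ← pot_const_mul]
    have c0 : Continuous fun x => (2 * M)⁻¹ * ∑ j, Gam (f j) x :=
      continuous_const.mul (continuous_finsetSum _ fun j _ => continuous_Gam (hf j))
    refine pot_mono (continuous_Gam s0).locallyIntegrable c0.locallyIntegrable hψ.cc fun x => ?_
    have b0 : 0 ≤ ∑ j, Gam (f j) x := Finset.sum_nonneg fun j _ => Gam_nonneg _ _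
    rw [var_Gam_sqrt hG _ _ x (hp' x)]
    calc _ ≤ (-(2 * M)⁻¹) ^ 2 / (4 * (1 / 2)) * (4 * M * ∑ j, Gam (f j) x) := by
          gcongr
          · exact Gam_nonneg _ _
          · exact hp x
          · exact (var_Gam_sq hf x).trans (by gcongr; exact hM x)
      _ = _ := by field_simp
  have a3 : |I| * ∑ j, pot (Gam (f j)) ψ = I * ∑ j, pot (Gam (f j)) ψ := by
    simp only [Finset.mul_sum, var_abs_I hD sp]
  have a4 : dq P sp t x0 e1 ψ ≤ ε := by rw [dq, h.one]; linarith [h.near]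
  have a5 := mul_le_mul_of_nonneg_left a2 (abs_nonneg I)
  have a6 : (2 * M)⁻¹ * ∑ j, dq P sp t x0 e1 (mulF (f j) ψ)
      ≤ ε + (2 * M)⁻¹ * (2 * (|I| * ∑ j, pot (Gam (f j)) ψ)) := by
    rw [dq] at key
    linarith
  rw [inv_mul_le_iff₀ (by positivity), mul_add, mul_inv_cancel_left₀ (by positivity), a3] at a6
  linarith

/-- conditional bound on the potential at a point -/
theorem St.ii (hD : Dat P I mb cm cb) (h : St P sp L t x0 e1 K ε ψ) {t0 : ℝ} (ht0 : 0 < t0)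
    (ht : t0 ≤ |t|) {J : Type} [Fintype J]
    {f : J → X ι → ℝ} (hf : ∀ j, ContDiff ℝ (⊤ : ℕ∞) (f j)) (hs : Sym sp fun x => ∑ j, f j x ^ 2)
    {M : ℝ} (hM0 : 0 ≤ M) (hM : ∀ x, ∑ j, f j x ^ 2 ≤ M) (z : E) :
    |pot (fun x => (∑ j, f j x ^ 2) * ph (ch P sp) vk z x) ψ| ≤
      31 * K * pot (fun x => ∑ j, f j x ^ 2) ψ +
        (2 * I * ∑ j, pot (Gam (f j)) ψ + 2 * (M + 1) * ε) / t0 := by
  have hψ := h.tst.nice
  have hG : ContDiff ℝ (⊤ : ℕ∞) fun x => ∑ j, f j x ^ 2 := ContDiff.sum fun j _ => (hf j).pow 2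
  have hG0 : ∀ x, 0 ≤ ∑ j, f j x ^ 2 := fun x => by positivity
  have hph := locInt_ph (ch P sp) locInt_vk z
  set B := 2 * I * ∑ j, pot (Gam (f j)) ψ + 2 * (M + 1) * ε with hB
  have key : ∀ η, 0 < η → η ≤ 1 →
      |pot (fun x => (∑ j, f j x ^ 2) * ph (ch P sp) vk z x) ψ + η * pot (ph (ch P sp) vk z) ψ|
        ≤ 31 * K * (pot (fun x => ∑ j, f j x ^ 2) ψ + η) + B / t0 := by
    intro η h0 h1
    have hp : ∀ x, 0 < 1 * ∑ j, f j x ^ 2 + η := fun x => by linarith [hG0 x]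
    have s0 : ContDiff ℝ (⊤ : ℕ∞) fun x => √(1 * ∑ j, f j x ^ 2 + η) :=
      ((contDiff_const.mul hG).add contDiff_const).sqrt fun x => (hp x).ne'
    have sy : Sym sp fun x => √(1 * ∑ j, f j x ^ 2 + η) := fun i j hij x => by
      have := hs i j hij x
      simp only at this ⊢
      rw [this]
    have tu := tst_mulS h.tst s0 sy
    have m := h.mi hD (J := Unit) (f := fun _ x => √(1 * ∑ j, f j x ^ 2 + η)) (fun _ => s0)
      (fun i j hij x => by
        have := sy i j hij x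
        simp only at this ⊢
        rw [this]) (M := M + 1) (by linarith) fun x => by
        simp only [Finset.univ_unique, Finset.sum_singleton, Real.sq_sqrt (hp x).le]
        linarith [hM x]
    simp only [Finset.univ_unique, Finset.sum_singleton] at m
    have a2 : pot (Gam fun x => √(1 * ∑ j, f j x ^ 2 + η)) ψ ≤ ∑ j, pot (Gam (f j)) ψ := by
      rw [← pot_sum _ (fun j _ => (continuous_Gam (hf j)).locallyIntegrable) hψ.cc]
      refine pot_mono (continuous_Gam s0).locallyIntegrable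
        (continuous_finsetSum _ fun j _ => continuous_Gam (hf j)).locallyIntegrable hψ.cc
        fun x => ?_
      have b0 : 0 ≤ ∑ j, Gam (f j) x := Finset.sum_nonneg fun j _ => Gam_nonneg _ _
      rw [var_Gam_sqrt hG _ _ x (hp x), div_mul_eq_mul_div, div_le_iff₀ (by linarith [hp x])]
      nlinarith [var_Gam_sq hf x, mul_nonneg h0.le b0]
    have a3 : |I| * ∑ j, pot (Gam (f j)) ψ = I * ∑ j, pot (Gam (f j)) ψ := by
      simp only [Finset.mul_sum, var_abs_I hD sp]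
    have a4 := mul_le_mul_of_nonneg_left a2 (abs_nonneg I)
    rw [var_abs_I hD sp, a3] at a4
    have e1' : pot (ph (ch P sp) vk z) (mulF (fun x => √(1 * ∑ j, f j x ^ 2 + η)) ψ)
        = pot (fun x => (∑ j, f j x ^ 2) * ph (ch P sp) vk z x) ψ
          + η * pot (ph (ch P sp) vk z) ψ := by
      rw [pot_mulF, ← pot_const_mul, ← pot_add (locInt_mul hG.continuous hph)
        (locInt_mul continuous_const hph) hψ.cc]
      congr 1; funext x; rw [Real.sq_sqrt (hp x).le]; ring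
    have e2 : nr (mulF (fun x => √(1 * ∑ j, f j x ^ 2 + η)) ψ)
        = pot (fun x => ∑ j, f j x ^ 2) ψ + η := by
      have := pot_const η ψ
      rw [h.one, mul_one] at this
      rw [nr, pot_mulF, ← this, ← pot_add hG.continuous.locallyIntegrable
        (locallyIntegrable_const _) hψ.cc, this]
      congr 1; funext x; rw [Real.sq_sqrt (hp x).le]; ring
    rw [← e1', ← e2]
    set u := mulF (fun x => √(1 * ∑ j, f j x ^ 2 + η)) ψ
    have hd : dq P sp t x0 e1 u ≤ B := by rw [hB]; linarith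
    have hd0 : 0 ≤ dq P sp t x0 e1 u := sub_nonneg.2 (h.low u tu)
    have l0 := h.low2 (2 * t) (by rw [abs_mul]; norm_num) x0 u tu
    have l1 := h.low2 (2 * |t|) (by rw [abs_mul, abs_abs]; norm_num) z u tu
    have l2 := h.low2 (-(2 * |t|)) (by rw [abs_neg, abs_mul, abs_abs]; norm_num) z u tu
    have ht' : 0 < |t| := ht0.trans_le ht
    have b1 : |t| * (B / t0) ≥ dq P sp t x0 e1 u := by
      have : B / t0 * t0 = B := div_mul_cancel₀ _ ht0.ne'
      nlinarith [div_nonneg (hd0.trans hd) ht0.le]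
    simp only [dq, qx] at l0 l1 l2 b1
    rw [← mul_le_mul_iff_of_pos_left ht', ← abs_abs t, ← abs_mul, abs_abs, abs_le]
    constructor <;> nlinarith
  have l : Tendsto (fun η : ℝ => η) (𝓝[>] 0) (𝓝 0) := tendsto_nhdsWithin_of_tendsto_nhds tendsto_id
  have l1 := ((l.mul_const (pot (ph (ch P sp) vk z) ψ)).const_add
    (pot (fun x => (∑ j, f j x ^ 2) * ph (ch P sp) vk z x) ψ)).abs
  have l2 := (((l.const_add (pot (fun x => ∑ j, f j x ^ 2) ψ)).const_mul (31 * K)).add_const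
    (B / t0))
  simp only [zero_mul, add_zero] at l1 l2
  refine le_of_tendsto_of_tendsto l1 l2 ?_
  filter_upwards [Ioc_mem_nhdsGT one_pos] with η hη using key η hη.1 hη.2

/-- smooth positive part -/
noncomputable def var_gam (K y : ℝ) : ℝ := (y + √(y ^ 2 + K ^ 2)) / 2

theorem var_gam_pos (hK : 0 < K) (y : ℝ) : 0 < var_gam K y := by
  have : |y| < √(y ^ 2 + K ^ 2) := Real.lt_sqrt_of_sq_lt (by rw [sq_abs]; nlinarith)
  unfold var_gam
  linarith [neg_abs_le y]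

theorem var_rho_le (hK : 0 < K) (y : ℝ) : √(y ^ 2 + K ^ 2) ≤ |y| + K :=
  Real.sqrt_le_iff.2 ⟨by positivity, by nlinarith [sq_abs y, mul_nonneg (abs_nonneg y) hK.le]⟩

theorem var_F {g s : X ι → ℝ} (hg : ContDiff ℝ (⊤ : ℕ∞) g) (hs : ContDiff ℝ (⊤ : ℕ∞) s)
    (hK : 0 < K) (hg0 : ∀ x, 0 ≤ g x) (hg1 : ∀ x, g x ≤ 1) {Γ0 : ℝ} (hΓ : ∀ x, Gam g x ≤ Γ0) :
    ContDiff ℝ (⊤ : ℕ∞) (fun x => g x * √(var_gam K (s x))) ∧ ∀ x,
      Gam (fun x => g x * √(var_gam K (s x))) x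
        ≤ var_gam K (s x) * (2 * Γ0 + Gam s x / (2 * (s x ^ 2 + K ^ 2))) := by
  have hp : ∀ y : ℝ, 0 < y ^ 2 + K ^ 2 := fun y => by positivity
  have s1 : ContDiff ℝ (⊤ : ℕ∞) fun x => √(var_gam K (s x)) :=
    ((hs.add (((hs.pow 2).add contDiff_const).sqrt fun x => (hp _).ne')).div_const 2).sqrt
      fun x => (var_gam_pos hK _).ne'
  refine ⟨hg.mul s1, fun x => (Gam_mul_le hg s1 x).trans ?_⟩
  have hγ := var_gam_pos hK (s x)
  have d := ((((hasDerivAt_id (s x)).add ((((hasDerivAt_id (s x)).pow 2).add_const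
    (K ^ 2)).sqrt (hp _).ne')).div_const 2).sqrt hγ.ne')
  have e := Gam_comp hs (φ := fun y => √(var_gam K y)) (x := x) d
  have hρ : 0 < √(s x ^ 2 + K ^ 2) := Real.sqrt_pos.2 (hp _)
  have e2 : Gam (fun x => √(var_gam K (s x))) x
      = var_gam K (s x) / (4 * (s x ^ 2 + K ^ 2)) * Gam s x := by
    rw [e]
    congr 1
    simp only [id, Pi.add_apply, Pi.pow_apply, Nat.cast_ofNat, Nat.add_one_sub_one, pow_one,
      mul_one, div_pow, mul_pow]
    change _ / (2 ^ 2 * √(var_gam K (s x)) ^ 2) = _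
    rw [Real.sq_sqrt hγ.le, div_eq_div_iff (by positivity) (by have := hp (s x); positivity)]
    have r := Real.sq_sqrt (hp (s x)).le
    set ρ := √(s x ^ 2 + K ^ 2)
    rw [← r, var_gam]
    change _ = (s x + ρ) / 2 * (2 ^ 2 * ((s x + ρ) / 2))
    field_simp
    ring
  rw [e2, Real.sq_sqrt hγ.le]
  have a1 : g x ^ 2 ≤ 1 := pow_le_one₀ (hg0 x) (hg1 x)
  have a2 := Gam_nonneg s x
  have a3 := hp (s x)
  calc _ ≤ 2 * var_gam K (s x) * Γ0
        + 2 * 1 * (var_gam K (s x) / (4 * (s x ^ 2 + K ^ 2)) * Gam s x) := by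
        gcongr; exact hΓ x
    _ = _ := by field_simp; ring

/-- second moments from conditional first moments -/
theorem second_moment (hψ : Cc ψ) (h1 : nr ψ = 1) {g s : X ι → ℝ}
    (hg : ContDiff ℝ (⊤ : ℕ∞) g) (hs : ContDiff ℝ (⊤ : ℕ∞) s) (hgs : Sym sp g) (hss : Sym sp s)
    (hg0 : ∀ x, 0 ≤ g x) (hg1 : ∀ x, g x ≤ 1) {M1 Γ0 K κ c er : ℝ} (hM : ∀ x, |s x| ≤ M1)
    (hΓ : ∀ x, Gam g x ≤ Γ0) (hK : 0 < K) (hκ : 0 ≤ κ) (hc : 0 ≤ c)
    (H : ∀ F : X ι → ℝ, ContDiff ℝ (⊤ : ℕ∞) F → Sym sp F → (∀ x, F x ^ 2 ≤ M1 + K) →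
      (∀ x, F x ≠ 0 → g x ≠ 0) →
      |pot (fun x => F x ^ 2 * s x) ψ| ≤ κ * pot (fun x => F x ^ 2) ψ + c * pot (Gam F) ψ + er) :
    pot (fun x => g x ^ 2 * s x ^ 2) ψ ≤ (κ ^ 2 + 2 * κ * K) * pot (fun x => g x ^ 2) ψ +
      4 * c * Γ0 * (pot (fun x => |s x|) ψ + K) + c / K * pot (Gam s) ψ + 4 * er := by
  have hΓ0 : 0 ≤ Γ0 := (Gam_nonneg g 0).trans (hΓ 0)
  obtain ⟨s1, g1⟩ := var_F hg hs hK hg0 hg1 hΓ
  obtain ⟨s2, g2⟩ := var_F hg hs.neg hK hg0 hg1 hΓ
  have hb : ∀ x (y : ℝ), |y| ≤ M1 → (g x * √(var_gam K y)) ^ 2 ≤ M1 + K := fun x y hy => by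
    have a1 : g x ^ 2 ≤ 1 := pow_le_one₀ (hg0 x) (hg1 x)
    have a2 := var_gam_pos hK y
    have a3 : var_gam K y ≤ M1 + K := by
      unfold var_gam; linarith [var_rho_le hK y, le_abs_self y]
    rw [mul_pow, Real.sq_sqrt a2.le]
    nlinarith
  have H1 := (abs_le.1 (H _ s1 (fun i j hij x => by simp only [hgs i j hij x, hss i j hij x])
    (fun x => hb x _ (hM x)) fun x hx => left_ne_zero_of_mul hx)).2
  have H2 := (abs_le.1 (H _ s2 (fun i j hij x => by simp only [hgs i j hij x, hss i j hij x])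
    (fun x => hb x _ (by rw [abs_neg]; exact hM x)) fun x hx => left_ne_zero_of_mul hx)).1
  have cg := hg.continuous
  have cs := hs.continuous
  have c1 := s1.continuous
  have c2 := s2.continuous
  have G1 := continuous_Gam s1
  have G2 := continuous_Gam s2
  have Gs := continuous_Gam hs
  set F1 := fun x => g x * √(var_gam K (s x)) with hF1
  set F2 := fun x => g x * √(var_gam K (-s x)) with hF2
  have q1 : ∀ x, F1 x ^ 2 = g x ^ 2 * var_gam K (s x) := fun x => by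
    rw [hF1, mul_pow, Real.sq_sqrt (var_gam_pos hK _).le]
  have q2 : ∀ x, F2 x ^ 2 = g x ^ 2 * var_gam K (-s x) := fun x => by
    rw [hF2, mul_pow, Real.sq_sqrt (var_gam_pos hK _).le]
  have li : ∀ {U : X ι → ℝ}, Continuous U → LocallyIntegrable U := fun h => h.locallyIntegrable
  have A : pot (fun x => F1 x ^ 2 * s x) ψ - pot (fun x => F2 x ^ 2 * s x) ψ
      = pot (fun x => g x ^ 2 * s x ^ 2) ψ := by
    rw [← pot_sub (li (by fun_prop)) (li (by fun_prop)) hψ]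
    congr 1; funext x
    rw [q1, q2, var_gam, var_gam, neg_sq]; ring
  have B : κ * pot (fun x => F1 x ^ 2) ψ + κ * pot (fun x => F2 x ^ 2) ψ
      ≤ 1 / 2 * pot (fun x => g x ^ 2 * s x ^ 2) ψ
        + (κ ^ 2 / 2 + κ * K) * pot (fun x => g x ^ 2) ψ := by
    simp only [← pot_const_mul]
    rw [← pot_add (li (by fun_prop)) (li (by fun_prop)) hψ,
      ← pot_add (li (by fun_prop)) (li (by fun_prop)) hψ]
    refine pot_mono (li (by fun_prop)) (li (by fun_prop)) hψ fun x => ?_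
    rw [q1, q2, var_gam, var_gam, neg_sq]
    have a1 := mul_le_mul_of_nonneg_left (var_rho_le hK (s x)) hκ
    have a2 : κ * √(s x ^ 2 + K ^ 2) ≤ 1 / 2 * s x ^ 2 + (κ ^ 2 / 2 + κ * K) := by
      nlinarith [sq_nonneg (|s x| - κ), sq_abs (s x)]
    nlinarith [mul_le_mul_of_nonneg_left a2 (sq_nonneg (g x))]
  have C : pot (Gam F1) ψ + pot (Gam F2) ψ
      ≤ 2 * Γ0 * (pot (fun x => |s x|) ψ + K) + 1 / (2 * K) * pot (Gam s) ψ := by
    have e := pot_const K ψ
    rw [h1, mul_one] at e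
    have e2 : pot (fun x => |s x|) ψ + K = pot (fun x => |s x| + K) ψ := by
      rw [pot_add (li (by fun_prop)) (li (by fun_prop)) hψ, e]
    rw [e2]
    simp only [← pot_const_mul]
    rw [← pot_add (li G1) (li G2) hψ, ← pot_add (li (by fun_prop)) (li (by fun_prop)) hψ]
    refine pot_mono (li (by fun_prop)) (li (by fun_prop)) hψ fun x => ?_
    have a0 : Gam (fun x => -s x) x = Gam s x := by simpa using var_Gam_mul hs (-1) x
    have a1 := g2 x
    rw [a0, neg_sq] at a1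
    refine (add_le_add (g1 x) a1).trans ?_
    have a2 : var_gam K (s x) + var_gam K (-s x) = √(s x ^ 2 + K ^ 2) := by
      rw [var_gam, var_gam, neg_sq]; ring
    rw [← add_mul, a2, mul_add, mul_comm]
    have a3 : K ≤ √(s x ^ 2 + K ^ 2) := Real.le_sqrt_of_sq_le (by nlinarith)
    have a4 := Gam_nonneg s x
    have r := Real.sq_sqrt (show 0 ≤ s x ^ 2 + K ^ 2 by positivity)
    refine add_le_add (mul_le_mul_of_nonneg_left (var_rho_le hK _) (by positivity)) ?_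
    set ρ := √(s x ^ 2 + K ^ 2)
    have a5 : 0 < ρ := hK.trans_le a3
    calc _ = 1 / (2 * ρ) * Gam s x := by rw [← r]; field_simp
      _ ≤ _ := by gcongr
  have D := mul_le_mul_of_nonneg_left C hc
  have e : c * (1 / (2 * K) * pot (Gam s) ψ) = c / K * pot (Gam s) ψ / 2 := by field_simp
  rw [mul_add, mul_add, e] at D
  linarith

/-- potentials conditioned on a weighted charge count -/
theorem St.ii_count (hD : Dat P I mb cm cb) (h : St P sp L t x0 e1 K ε ψ) {t0 : ℝ} (ht0 : 0 < t0)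
    (ht : t0 ≤ |t|) (hK : 0 ≤ K) {F : X ι → ℝ} (hF : ContDiff ℝ (⊤ : ℕ∞) F) (hFs : Sym sp F)
    (hF1 : ∀ x, F x ^ 2 ≤ 1) {Γ0 : ℝ} (hΓ : ∀ x, Gam F x ≤ Γ0) {g g' : E → ℝ}
    (hg : ContDiff ℝ (⊤ : ℕ∞) fun x => √(g x)) (hg0 : ∀ x, 0 ≤ g x) (hgc : Continuous g)
    (hg' : Continuous g') (hgg : ∀ x, ∑ k, fderiv ℝ (fun x => √(g x)) x (ee k) ^ 2 ≤ g' x)
    {M : ℝ} (hM : ∀ x, g x ≤ M) (z0 : E) (φ : ℝ → ℝ) (hφ0 : ∀ y, 0 ≤ φ y) (hφ : ∀ y, φ y ≤ |y|)
    (z : E) :
    |pot (fun x => F x ^ 2 * ph (fun j => φ (ch P sp j)) g z0 x * ph (ch P sp) vk z x) ψ| ≤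
      31 * K * (cb * nb ψ g z0) + (4 * I * cb * (Γ0 * nb ψ g z0 + nb ψ g' z0) +
        2 * (Fintype.card ι * |cb| * |M| + 1) * ε) / t0 := by
  have hψ := h.tst.nice
  have hφc : ∀ j, φ (ch P sp j) ≤ cb := fun j => (hφ _).trans (hD.hcb _)
  have s1 : ∀ j : ι, ContDiff ℝ (⊤ : ℕ∞) fun x : X ι => √(g (x j - z0)) := fun j =>
    hg.comp ((contDiff_apply ℝ E j).sub contDiff_const)
  have s2 : ∀ j : ι, ContDiff ℝ (⊤ : ℕ∞) fun x : X ι => √(φ (ch P sp j)) * √(g (x j - z0)) :=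
    fun j => contDiff_const.mul (s1 j)
  have e : ∀ x, ∑ j, (F x * (√(φ (ch P sp j)) * √(g (x j - z0)))) ^ 2
      = F x ^ 2 * ph (fun j => φ (ch P sp j)) g z0 x := fun x => by
    simp only [ph, Finset.mul_sum, mul_pow, Real.sq_sqrt (hφ0 _), Real.sq_sqrt (hg0 _)]
  have cp : ∀ (c : ι → ℝ) {g : E → ℝ}, Continuous g → Continuous (ph c g z0) := fun c g hg =>
    (continuous_ph c hg).comp (continuous_const.prodMk continuous_id)
  have key := h.ii hD ht0 ht (f := fun j x => F x * (√(φ (ch P sp j)) * √(g (x j - z0))))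
    (fun j => hF.mul (s2 j)) (fun i j hij x => (e _).trans (by
      rw [hFs i j hij x, sym_ph P sp φ g z0 i j hij x]; exact (e x).symm))
    (M := Fintype.card ι * |cb| * |M|) (by positivity) (fun x => by
      rw [mul_assoc, ← Finset.card_univ, ← nsmul_eq_mul]
      refine Finset.sum_le_card_nsmul _ _ _ fun j _ => ?_
      rw [mul_pow, mul_pow, Real.sq_sqrt (hφ0 _), Real.sq_sqrt (hg0 _)]
      have := hφ0 (ch P sp j)
      have := hg0 (x j - z0)
      calc _ ≤ 1 * (|cb| * |M|) := by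
            gcongr
            exacts [hF1 x, (hφc j).trans (le_abs_self _), (hM _).trans (le_abs_self _)]
        _ = _ := one_mul _) z
  simp only [e] at key
  refine key.trans (add_le_add (mul_le_mul_of_nonneg_left ?_ (by positivity))
    (div_le_div_of_nonneg_right (add_le_add ?_ le_rfl) ht0.le))
  · rw [nb, ← pot_const_mul]
    have c1 : Continuous fun x => F x ^ 2 * ph (fun j => φ (ch P sp j)) g z0 x :=
      (hF.continuous.pow 2).mul (cp _ hgc)
    have c2 : Continuous fun x => cb * ph (fun _ : ι => 1) g z0 x :=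
      continuous_const.mul (cp _ hgc)
    refine pot_mono c1.locallyIntegrable c2.locallyIntegrable hψ.cc fun x => ?_
    simp only [ph, Finset.mul_sum]
    refine Finset.sum_le_sum fun j _ => ?_
    have := hφ0 (ch P sp j)
    have := hg0 (x j - z0)
    calc _ ≤ 1 * (cb * g (x j - z0)) := by gcongr; exacts [hF1 x, hφc j]
      _ = _ := by ring
  · rcases isEmpty_or_nonempty ι with hι | ⟨⟨i⟩⟩
    · have : ∀ g, nb ψ g z0 = 0 := fun g => by
        have : ph (fun _ : ι => (1 : ℝ)) g z0 = fun _ => 0 := funext fun x => by simp [ph]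
        rw [nb, this, pot_const, zero_mul]
      simp [this]
    have hI : 0 ≤ I := le_trans (by have := hD.mpos (sp i); positivity) (hD.hI (sp i))
    have hΓ0 : 0 ≤ Γ0 := (Gam_nonneg F 0).trans (hΓ 0)
    rw [show 4 * I * cb * (Γ0 * nb ψ g z0 + nb ψ g' z0)
      = 2 * I * (2 * cb * (Γ0 * nb ψ g z0 + nb ψ g' z0)) by ring]
    refine mul_le_mul_of_nonneg_left ?_ (by positivity)
    have c1 : Continuous fun x => Γ0 * ph (fun _ : ι => 1) g z0 x :=
      continuous_const.mul (cp _ hgc)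
    have c2 : Continuous fun x =>
        2 * cb * (Γ0 * ph (fun _ : ι => 1) g z0 x + ph (fun _ : ι => 1) g' z0 x) :=
      continuous_const.mul (c1.add (cp _ hg'))
    rw [← pot_sum _ (fun j _ => (continuous_Gam (hF.mul (s2 j))).locallyIntegrable) hψ.cc, nb, nb,
      ← pot_const_mul, ← pot_add c1.locallyIntegrable (cp _ hg').locallyIntegrable hψ.cc,
      ← pot_const_mul]
    refine pot_mono (continuous_finsetSum _ fun j _ =>
      continuous_Gam (hF.mul (s2 j))).locallyIntegrable c2.locallyIntegrable hψ.cc fun x => ?_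
    simp only [ph, Finset.mul_sum, ← Finset.sum_add_distrib]
    refine Finset.sum_le_sum fun j _ => (Gam_mul_le hF (s2 j) x).trans ?_
    rw [var_Gam_mul (s1 j), Gam_one_body j hg z0 x, mul_pow, Real.sq_sqrt (hφ0 _),
      Real.sq_sqrt (hg0 _)]
    have a1 := hφ0 (ch P sp j)
    have a2 := hg0 (x j - z0)
    have a3 := Gam_nonneg F x
    have a4 : 0 ≤ cb := a1.trans (hφc j)
    calc _ ≤ 2 * (cb * g (x j - z0)) * Γ0 + 2 * 1 * (cb * g' (x j - z0)) := by
          gcongr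
          exacts [hφc j, hΓ x, hF1 x, hφc j, hgg _]
      _ = _ := by ring

end Pool.Agent.Lib.MP_0655ed_mp
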