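import Pool.Agent.Lib.MP_0655ed_mp.ImpMove
import Pool.Agent.Lib.MP_0655ed_mp.ImpVar
import Pool.Agent.Lib.MP_0655ed_mp.ImpHyd
import Pool.Agent.Lib.MP_0655ed_mp.ImpOrb

open Finset MeasureTheory Real Filter Topology

namespace Pool.Agent.Lib.MP_0655ed_mp

variable {σ Sp : Type} [DecidableEq σ] [Fintype Sp] {P : Species σ Sp} {I mb cm cb : ℝ}

theorem loc_cont_ph {ι : Type} [Fintype ι] (c : ι → ℝ) {g : E → ℝ} (hg : Continuous g) (z : E) :
    Continuous (ph c g z) := by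
  unfold ph
  fun_prop

theorem loc_ph_nonneg {ι : Type} [Fintype ι] {c : ι → ℝ} (hc : ∀ j, 0 ≤ c j) {g : E → ℝ}
    (hg : ∀ x, 0 ≤ g x) (z : E) (x : X ι) : 0 ≤ ph c g z x :=
  Finset.sum_nonneg fun j _ => mul_nonneg (hc j) (hg _)

theorem loc_ph_split {ι : Type} [Fintype ι] (c : ι → ℝ) (g : E → ℝ) (z : E) (x : X ι) :
    ph c g z x = ph (fun j => max (c j) 0) g z x - ph (fun j => max (-c j) 0) g z x := by
  unfold ph
  rw [← Finset.sum_sub_distrib]
  refine Finset.sum_congr rfl fun j _ => ?_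
  rw [← sub_mul, max_zero_sub_max_neg_zero_eq_self]

theorem loc_cont_cv {D v r Z : ℝ} (hv : 0 < v) {f : E → ℂ} (hf : GOrb D v r f Z) :
    Continuous (cv fun w => ‖f w‖ ^ 2) := by
  refine continuous_cv (hf.orb.smooth.continuous.norm.pow 2)
    (Integrable.of_integral_ne_zero (by rw [hf.orb.norm]; exact one_ne_zero))
    (M := 2 * hk v 0) fun w => ?_
  rw [abs_of_nonneg (by positivity)]
  have h1 := hf.dom w
  have h2 := hk_le_zero hv w
  have h3 := hf.half
  nlinarith [sq_nonneg ‖f w‖]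

omit [DecidableEq σ] [Fintype Sp] in
theorem loc_dat (hD : Dat P I mb cm cb) : Dat P |I| mb cm |cb| :=
  ⟨hD.mpos, fun s => (hD.hI s).trans (le_abs_self _), hD.hmb, hD.cpos, hD.hcm,
    fun s => (hD.hcb s).trans (le_abs_self _), hD.spin⟩

theorem loc_nb_lin {ι : Type} [Fintype ι] [DecidableEq ι] {ψ : Wv ι Sp} (h : Cc ψ)
    {g g' : E → ℝ} (hg : Continuous g) (hg' : Continuous g') (a b : ℝ) (z : E) :
    nb ψ (fun x => a * g x + b * g' x) z = a * nb ψ g z + b * nb ψ g' z := by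
  unfold nb
  have h1 := loc_cont_ph (fun _ : ι => (1 : ℝ)) hg z
  have h2 := loc_cont_ph (fun _ : ι => (1 : ℝ)) hg' z
  rw [← pot_const_mul, ← pot_const_mul, ← pot_add (Continuous.locallyIntegrable (by fun_prop))
    (Continuous.locallyIntegrable (by fun_prop)) h]
  congr 1
  funext x
  simp only [ph, Finset.mul_sum, ← Finset.sum_add_distrib]
  refine Finset.sum_congr rfl fun j _ => by ring

/-- moving one particle into a hole, in terms of `gain` -/
theorem loc_move {ι : Type} [Fintype ι] [DecidableEq ι] {sp : ι → σ} {L t e1 : ℝ} {x0 : E}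
    {ψ : Wv ι Sp} (hD : Dat P I mb cm cb)
    (hlow : ∀ u, Tst P sp L u → e1 * nr u ≤ qx P sp t x0 u) (hψ : Tst P sp L ψ) (ht : t ≠ 0)
    (i : ι) {F : X ι → ℝ} (hF : ContDiff ℝ (⊤ : ℕ∞) F)
    (hs : ∀ j k, j ≠ i → k ≠ i → sp j = sp k → ∀ x, F (x ∘ Equiv.swap j k) = F x)
    {D v l Z : ℝ} (hv : 0 < v) {y : E} (hl : 0 < l) {f : E → ℂ} (hf : GOrb D v l f Z)
    (hy : ‖y‖ + l < L / 2) (hh : ∀ x, F x ≠ 0 → ∀ j, j ≠ i → 2 * l ≤ ‖x j - y‖) :
    gain P sp i (mulF F ψ) ≤ dq P sp t x0 e1 (mulF F ψ) +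
      ((I * D + 1) / v + (4 * |mb| + 1) * cb ^ 2 * t ^ 2) * pot (fun x => F x ^ 2) ψ +
      ch P sp i * pot (fun x => F x ^ 2 * ph (ch P sp) (cv fun w => ‖f w‖ ^ 2) y x) ψ := by
  have h1 := move_ineq hD hlow hψ i hF hs hl hf.orb hy hh (hf.cv_le hv)
  have hm := hD.mpos (sp i)
  have hcb : 0 < cb := hD.cpos.trans_le ((hD.hcm (sp i)).trans (hD.hcb (sp i)))
  have hI : 0 ≤ I := le_trans (by positivity) (hD.hI (sp i))
  have ht' : 0 < |t| := abs_pos.mpr ht
  have h2 := hyd (hψ.nice.mulF hF) i x0 (δ := 1 / (4 * P.mass (sp i) * |t| * cb)) (by positivity)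
  have hn : nr (mulF F ψ) = pot (fun x => F x ^ 2) ψ := by
    rw [nr, pot_mulF]
    simp only [mul_one]
  rw [pot_mulF (ph _ _ _), hn] at h1
  rw [hn] at h2
  have hn0 : 0 ≤ pot (fun x => F x ^ 2) ψ := pot_nonneg (fun _ => sq_nonneg _) _
  have hp0 : 0 ≤ pot (fun x => vk (x i - x0)) (mulF F ψ) := pot_nonneg (fun _ => vk_nonneg _) _
  unfold gain
  set n := pot (fun x => F x ^ 2) ψ
  set p := pot (fun x => vk (x i - x0)) (mulF F ψ)
  set k := kin i (mulF F ψ)
  set m := P.mass (sp i)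
  have h3 : -(|t| * cb) ≤ t * ch P sp i := by
    have h4 : |t * ch P sp i| ≤ |t| * cb := by
      rw [abs_mul]
      exact mul_le_mul_of_nonneg_left (hD.hcb (sp i)) ht'.le
    exact (abs_le.mp h4).1
  have h4 : -(|t| * cb) * p ≤ t * ch P sp i * p := mul_le_mul_of_nonneg_right h3 hp0
  have h5 : |t| * cb * p ≤ k / (4 * m) + 4 * m * cb ^ 2 * t ^ 2 * n := by
    refine (mul_le_mul_of_nonneg_left h2 (by positivity)).trans (le_of_eq ?_)
    rw [← sq_abs t]
    field_simp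
  have h6 : 4 * m * cb ^ 2 * t ^ 2 * n ≤ 4 * |mb| * cb ^ 2 * t ^ 2 * n := by
    have : m ≤ |mb| := (hD.hmb (sp i)).trans (le_abs_self _)
    gcongr
  have h7 : I * k0 f + |t| * cb * (2 / √v) ≤ (I * D + 1) / v + cb ^ 2 * t ^ 2 := by
    have h8 : I * k0 f ≤ I * (D / v) := mul_le_mul_of_nonneg_left hf.kin hI
    have h9 : (√v)⁻¹ ^ 2 = 1 / v := by rw [inv_pow, Real.sq_sqrt hv.le, one_div]
    have h10 := sq_nonneg (|t| * cb - (√v)⁻¹)
    rw [sub_sq, h9, mul_pow, sq_abs] at h10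
    rw [add_div, mul_div_assoc, div_eq_mul_inv 2]
    linarith
  have h8 := mul_le_mul_of_nonneg_right h7 hn0
  have h9 : k / (2 * m) = k / (4 * m) + k / (4 * m) := by
    field_simp
    ring
  change k / (2 * m) + pot (potl (fun j => P.charge (sp j)) i) (mulF F ψ) + _ ≤ _ at h1
  nlinarith

theorem loc_pot_split {ι : Type} [Fintype ι] [DecidableEq ι] {ψ : Wv ι Sp} (h : Cc ψ)
    (c : ι → ℝ) {g : E → ℝ} (hg : Continuous g) (z : E) {F U : X ι → ℝ} (hF : Continuous F)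
    (hU : Continuous U) :
    pot (fun x => F x * ph c g z x * U x) ψ =
      pot (fun x => F x * ph (fun j => max (c j) 0) g z x * U x) ψ -
        pot (fun x => F x * ph (fun j => max (-c j) 0) g z x * U x) ψ := by
  have h1 := loc_cont_ph (fun j => max (c j) 0) hg z
  have h2 := loc_cont_ph (fun j => max (-c j) 0) hg z
  rw [← pot_sub (Continuous.locallyIntegrable (by fun_prop))
    (Continuous.locallyIntegrable (by fun_prop)) h]
  congr 1
  funext x
  rw [loc_ph_split c]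
  ring

theorem loc_pos_le (y : ℝ) : max y 0 ≤ |y| := max_le (le_abs_self y) (abs_nonneg y)

theorem loc_neg_le (y : ℝ) : max (-y) 0 ≤ |y| := max_le (neg_le_abs y) (abs_nonneg y)

theorem loc_hole_sq {ι : Type} [Fintype ι] [DecidableEq ι] {D l : ℝ} {y : E} {h : X ι → ℝ}
    (hh : HoleFn D l y h) (x : X ι) : h x ^ 2 ≤ 1 :=
  pow_le_one₀ (hh.nonneg x) (hh.le_one x)

theorem loc_min (c a b : ℝ) {g d : ℝ} (h1 : g ≤ d + c * a) (h2 : g ≤ d + c * b) :
    g ≤ d + c * ((a + b) / 2) - |c| * (|a - b| / 2) := by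
  have h3 : |c| * |a - b| = |c * a - c * b| := by rw [← abs_mul, mul_sub]
  rw [← mul_div_assoc |c|, h3]
  rcases abs_cases (c * a - c * b) with h | h <;> rw [h.1] <;> linarith

/-- two holes have comparable potentials -/
theorem hole_ineq (hD : Dat P I mb cm cb) {A : ℝ} (hA : Stb P A) {D t0 : ℝ} (hD0 : 0 < D)
    (ht0 : 0 < t0) :
    ∃ C : ℝ, 0 < C ∧ ∀ (ι : Type) [Fintype ι] [DecidableEq ι] [Nonempty ι] (sp : ι → σ)
    (L t e1 K ε : ℝ) (x0 : E) (ψ : Wv ι Sp), 0 < L → St P sp L t x0 e1 K ε ψ →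
    ∑ j, ch P sp j = 0 → t0 ≤ |t| → 0 ≤ K →
    ∀ (v r Z v' l Z' : ℝ) (f f' : E → ℂ) (z y : E), 0 < v → v ≤ 1 → 0 < v' → v' ≤ 1 → 0 < r →
    0 < l → GOrb D v r f Z → GOrb D v' l f' Z' → ‖z‖ + r < L / 2 → ‖y‖ + l < L / 2 →
    ∀ (F : X ι → ℝ) (M : ℝ), ContDiff ℝ (⊤ : ℕ∞) F → Sym sp F → 0 ≤ M → (∀ x, F x ^ 2 ≤ M) →
    (∀ x, F x ≠ 0 → ∀ j, 2 * r ≤ ‖x j - z‖ ∧ 2 * l ≤ ‖x j - y‖) →
    |pot (fun x => F x ^ 2 * (ph (ch P sp) (VV v) z x - ph (ch P sp) (VV v') y x)) ψ| ≤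
      C * (1 / v + 1 / v' + t ^ 2 + (v / r ^ 2 + v' / l ^ 2) * K) * pot (fun x => F x ^ 2) ψ +
      C * pot (Gam F) ψ + C * (M + 1) * ε := by
  have hcm := hD.cpos
  obtain ⟨C, hC0, hC1, hC2, hC3, hC4, hC5⟩ : ∃ C : ℝ, 0 < C ∧
      2 / cm * (|I| * D + 1 + 8 * |A|) ≤ C ∧ 2 / cm * (2 * ((4 * |mb| + 1) * cb ^ 2)) ≤ C ∧
      62 * D ≤ C ∧ 2 / cm * (2 * |I|) + 4 * |I| / t0 ≤ C ∧ 2 / cm * 2 + 4 / t0 ≤ C := by
    have h1 : 0 < 2 / cm * (|I| * D + 1 + 8 * |A|) := by positivity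
    have h2 : 0 ≤ 2 / cm * (2 * ((4 * |mb| + 1) * cb ^ 2)) := by positivity
    have h3 : 0 ≤ 62 * D := by positivity
    have h4 : 0 ≤ 2 / cm * (2 * |I|) + 4 * |I| / t0 := by positivity
    have h5 : 0 ≤ 2 / cm * 2 + 4 / t0 := by positivity
    exact ⟨2 / cm * (|I| * D + 1 + 8 * |A|) + 2 / cm * (2 * ((4 * |mb| + 1) * cb ^ 2)) + 62 * D +
      (2 / cm * (2 * |I|) + 4 * |I| / t0) + (2 / cm * 2 + 4 / t0), by linarith, by linarith,
      by linarith, by linarith, by linarith, by linarith⟩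
  refine ⟨C, hC0, ?_⟩
  intro ι _ _ _ sp L t e1 K ε x0 ψ hL hS hneu ht hK v r Z v' l Z' f f' z y hv hv1 hv' hv1' hr hl
    hf hf' hz hy F M hF hFs hM0 hM hh
  have hD' := loc_dat hD
  have ht1 : t ≠ 0 := abs_pos.mp (ht0.trans_le ht)
  have hε := hS.eps_nonneg
  have hcc := hS.tst.nice.cc
  have hFc : Continuous fun x => F x ^ 2 := hF.continuous.pow 2
  have hm1 := fun i => loc_move hD' hS.low hS.tst ht1 i hF (fun j k _ _ hjk => hFs j k hjk) hv hr
    hf hz fun x hx j _ => (hh x hx j).1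
  have hm2 := fun i => loc_move hD' hS.low hS.tst ht1 i hF (fun j k _ _ hjk => hFs j k hjk) hv' hl
    hf' hy fun x hx j _ => (hh x hx j).2
  have hsym : Sym sp fun x => ∑ _j : Unit, F x ^ 2 := by
    intro i j hij x
    simp only [hFs i j hij x]
  have hmi := hS.mi hD' (J := Unit) (f := fun _ => F) (fun _ => hF) hsym (M := M + 1)
    (by linarith) fun x => by simpa using (hM x).trans (by linarith)
  have hii := hS.ii hD' ht0 ht (J := Unit) (f := fun _ => F) (fun _ => hF) hsym hM0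
    fun x => by simpa using hM x
  simp only [Finset.univ_unique, Finset.sum_singleton] at hmi hii
  have hg1 := pot_gorb_le hFc hcc hii hv hf z
  have hg2 := pot_gorb_le hFc hcc hii hv' hf' y
  have hdec : DecidableEq Sp := Classical.decEq Sp
  have hgain := hA.gain hD.mpos hL (tst_mulS hS.tst hF hFs)
  have hn : nr (mulF F ψ) = pot (fun x => F x ^ 2) ψ := by
    rw [nr, pot_mulF]
    simp only [mul_one]
  rw [hn] at hgain
  have hsplit : pot (fun x => F x ^ 2 * (ph (ch P sp) (VV v) z x - ph (ch P sp) (VV v') y x)) ψ =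
      pot (fun x => F x ^ 2 * ph (ch P sp) (VV v) z x) ψ -
        pot (fun x => F x ^ 2 * ph (ch P sp) (VV v') y x) ψ := by
    have h1 := loc_cont_ph (ch P sp) (continuous_VV v) z
    have h2 := loc_cont_ph (ch P sp) (continuous_VV v') y
    rw [← pot_sub (Continuous.locallyIntegrable (by fun_prop))
      (Continuous.locallyIntegrable (by fun_prop)) hcc]
    simp only [mul_sub]
  rw [hsplit]
  have hn0 : 0 ≤ pot (fun x => F x ^ 2) ψ := pot_nonneg (fun _ => sq_nonneg _) _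
  have hG0 : 0 ≤ pot (Gam F) ψ := pot_nonneg (Gam_nonneg F) _
  set n := pot (fun x => F x ^ 2) ψ
  set G := pot (Gam F) ψ
  set a := pot (fun x => F x ^ 2 * ph (ch P sp) (cv fun w => ‖f w‖ ^ 2) z x) ψ
  set b := pot (fun x => F x ^ 2 * ph (ch P sp) (cv fun w => ‖f' w‖ ^ 2) y x) ψ
  set a' := pot (fun x => F x ^ 2 * ph (ch P sp) (VV v) z x) ψ
  set b' := pot (fun x => F x ^ 2 * ph (ch P sp) (VV v') y x) ψ
  set d := dq P sp t x0 e1 (mulF F ψ)
  set w := (4 * |mb| + 1) * cb ^ 2 * t ^ 2 with hw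
  have hw0 : 0 ≤ w := by positivity
  simp only [sq_abs cb] at hm1 hm2
  set A1 := (|I| * D + 1) / v + (|I| * D + 1) / v' + 2 * w with hA1
  have hq1 : 0 ≤ (|I| * D + 1) / v := by positivity
  have hq2 : 0 ≤ (|I| * D + 1) / v' := by positivity
  have hm3 : ∀ i, gain P sp i (mulF F ψ) ≤
      d + A1 * n + ch P sp i * ((a + b) / 2) - cm * (|a - b| / 2) := by
    intro i
    have h1 := loc_min (ch P sp i) a b (g := gain P sp i (mulF F ψ)) (d := d + A1 * n)
      ((hm1 i).trans (by gcongr; linarith)) ((hm2 i).trans (by gcongr; linarith))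
    have h2 : cm * (|a - b| / 2) ≤ |ch P sp i| * (|a - b| / 2) :=
      mul_le_mul_of_nonneg_right (hD.hcm (sp i)) (by positivity)
    linarith
  have hsum := Finset.sum_le_sum fun i (_ : i ∈ (Finset.univ : Finset ι)) => hm3 i
  simp only [Finset.sum_sub_distrib, Finset.sum_add_distrib, ← Finset.sum_mul, hneu, zero_mul,
    add_zero, Finset.sum_const, Finset.card_univ, nsmul_eq_mul] at hsum
  have hN : (0 : ℝ) < Fintype.card ι := by exact_mod_cast Fintype.card_pos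
  have hab : cm * (|a - b| / 2) ≤ d + A1 * n + 8 * |A| * n := by
    refine le_of_mul_le_mul_left ?_ hN
    nlinarith
  have hab2 : |a - b| ≤ 2 / cm * (2 * |I| * G + 2 * (M + 1) * ε + (A1 + 8 * |A|) * n) := by
    rw [div_mul_eq_mul_div, le_div_iff₀ hcm]
    linarith
  have hR : ∀ (Z q : ℝ), 1 / 2 ≤ Z → Z ≤ 1 → 1 - Z ≤ D * q → 2 * (1 - Z) *
      (31 * K * n + (2 * |I| * G + 2 * (M + 1) * ε) / t0) ≤
      62 * D * (q * K) * n + (2 * |I| * G + 2 * (M + 1) * ε) / t0 := by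
    intro Z q h1 h2 h3
    have h4 : 0 ≤ (2 * |I| * G + 2 * (M + 1) * ε) / t0 := by positivity
    have h5 : 0 ≤ K * n := by positivity
    nlinarith [mul_le_mul_of_nonneg_right h3 h5]
  have hR1 := hg1.trans (hR Z (v / r ^ 2) hf.half hf.le_one (by rw [← mul_div_assoc]; exact hf.near))
  have hR2 := hg2.trans (hR Z' (v' / l ^ 2) hf'.half hf'.le_one
    (by rw [← mul_div_assoc]; exact hf'.near))
  have htri : |a' - b'| ≤ |a' - a| + |a - b| + |b' - b| := by
    have h1 := abs_sub_le a' a b'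
    have h2 := abs_sub_le a b b'
    rw [abs_sub_comm b b'] at h2
    linarith
  have hk1 : 2 / cm * (A1 + 8 * |A|) ≤ C * (1 / v + 1 / v' + t ^ 2) := by
    have h1 : 8 * |A| ≤ 8 * |A| * (1 / v + 1 / v') := by
      have h2 : 1 ≤ 1 / v := by rw [le_div_iff₀ hv]; linarith
      have h3 : 0 ≤ 1 / v' := by positivity
      exact le_mul_of_one_le_right (by positivity) (by linarith)
    have h2 : A1 + 8 * |A| ≤ (|I| * D + 1 + 8 * |A|) * (1 / v + 1 / v') +
        2 * ((4 * |mb| + 1) * cb ^ 2) * t ^ 2 := by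
      rw [hA1, hw, div_eq_mul_one_div _ v, div_eq_mul_one_div _ v']
      linarith
    have h3 := mul_le_mul_of_nonneg_left h2 (show 0 ≤ 2 / cm by positivity)
    have h4 := mul_le_mul_of_nonneg_right hC1 (show 0 ≤ 1 / v + 1 / v' by positivity)
    have h5 := mul_le_mul_of_nonneg_right hC2 (sq_nonneg t)
    linarith
  have hk2 := mul_le_mul_of_nonneg_right hk1 hn0
  have hk3 := mul_le_mul_of_nonneg_right hC3
    (show 0 ≤ (v / r ^ 2 + v' / l ^ 2) * K * n by positivity)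
  have hk4 := mul_le_mul_of_nonneg_right hC4 hG0
  have hk5 := mul_le_mul_of_nonneg_right hC5 (show 0 ≤ (M + 1) * ε by positivity)
  have hk6 : 2 * ((2 * |I| * G + 2 * (M + 1) * ε) / t0) =
      4 * |I| / t0 * G + 4 / t0 * ((M + 1) * ε) := by ring
  linarith

/-- local energy inequality -/
theorem tau_ineq (hD : Dat P I mb cm cb) {D t0 : ℝ} (hD0 : 0 < D) (ht0 : 0 < t0) :
    ∃ C : ℝ, 0 < C ∧ ∀ (ι : Type) [Fintype ι] [DecidableEq ι] (sp : ι → σ)
    (L t e1 K ε : ℝ) (x0 : E) (ψ : Wv ι Sp), St P sp L t x0 e1 K ε ψ → t0 ≤ |t| → 0 ≤ K →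
    ∀ (v' l Z' : ℝ) (f' : E → ℂ) (y : E) (h : X ι → ℝ), 0 < v' → v' ≤ 1 → 0 < l →
    GOrb D v' l f' Z' → ‖y‖ + l < L / 2 → HoleFn D l y h → ∀ B : ℝ, 0 < B → ∀ z0 : E,
    (∑ i, ∑ k, pot (fun x => h x ^ 2 * th B (x i - z0)) (Dv (dir i k) ψ)) / (8 * mb) +
      pot (fun x => h x ^ 2 * ∑ i, th B (x i - z0) *
        (potl (ch P sp) i x - ch P sp i * ph (ch P sp) (VV v') y x)) ψ ≤
      C * ((1 / v' + t ^ 2 + v' / l ^ 2 * K + 1 / l ^ 2) * nb ψ (th B) z0 + nb ψ (xi B) z0 +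
        (Fintype.card ι * hk B 0 + 1) * ε) := by
  obtain ⟨C, hC0, hC1, hC2, hC3, hC4, hC5, hC6⟩ : ∃ C : ℝ, 0 < C ∧
      |I| * D + 1 + 5 / 4 * |I| + 2 * |I| * |cb| / t0 ≤ C ∧ (4 * |mb| + 1) * cb ^ 2 ≤ C ∧
      124 * D * |cb| ≤ C ∧ 5 * |I| * D + 8 * |I| * |cb| * D / t0 ≤ C ∧
      5 / 4 * |I| + 2 * |I| * |cb| / t0 ≤ C ∧ 2 + 4 * (|cb| + 1) / t0 ≤ C := by
    have h1 : 0 < |I| * D + 1 + 5 / 4 * |I| + 2 * |I| * |cb| / t0 := by positivity
    have h2 : 0 ≤ (4 * |mb| + 1) * cb ^ 2 := by positivity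
    have h3 : 0 ≤ 124 * D * |cb| := by positivity
    have h4 : 0 ≤ 5 * |I| * D + 8 * |I| * |cb| * D / t0 := by positivity
    have h5 : 0 ≤ 5 / 4 * |I| + 2 * |I| * |cb| / t0 := by positivity
    have h6 : 0 ≤ 2 + 4 * (|cb| + 1) / t0 := by positivity
    exact ⟨(|I| * D + 1 + 5 / 4 * |I| + 2 * |I| * |cb| / t0) + (4 * |mb| + 1) * cb ^ 2 +
      124 * D * |cb| + (5 * |I| * D + 8 * |I| * |cb| * D / t0) +
      (5 / 4 * |I| + 2 * |I| * |cb| / t0) + (2 + 4 * (|cb| + 1) / t0), by linarith, by linarith,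
      by linarith, by linarith, by linarith, by linarith, by linarith⟩
  refine ⟨C, hC0, ?_⟩
  intro ι _ _ sp L t e1 K ε x0 ψ hS ht hK v' l Z' f' y h hv' hv1' hl hf' hy hh B hB z0
  have hD' := loc_dat hD
  have ht1 : t ≠ 0 := abs_pos.mp (ht0.trans_le ht)
  have hε := hS.eps_nonneg
  have hni := hS.tst.nice
  have hcc := hni.cc
  have hhc := hh.smooth.continuous
  have hFc : Continuous fun x => h x ^ 2 := hhc.pow 2
  have hth := continuous_th hB
  have hxi := continuous_xi hB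
  have hth0 := fun x => (th_pos hB x).le
  have hH := hk_nonneg B 0
  -- the localising functions
  have hs1 : ∀ i : ι, ContDiff ℝ (⊤ : ℕ∞) fun x : X ι => √(th B (x i - z0)) := fun i =>
    (contDiff_sqrt_th hB).comp ((contDiff_apply ℝ E i).sub contDiff_const)
  set F : ι → X ι → ℝ := fun i x => h x * √(th B (x i - z0)) with hF
  have hFs : ∀ i, ContDiff ℝ (⊤ : ℕ∞) (F i) := fun i => hh.smooth.mul (hs1 i)
  have hF2 : ∀ i x, F i x ^ 2 = h x ^ 2 * th B (x i - z0) := fun i x => by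
    rw [hF, mul_pow, Real.sq_sqrt (hth0 _)]
  have hF3 : ∀ x, ∑ i, F i x ^ 2 = h x ^ 2 * ph (fun _ => 1) (th B) z0 x := fun x => by
    simp only [hF2, ph, one_mul, Finset.mul_sum]
  have hm := fun i => loc_move hD' hS.low hS.tst ht1 i (hFs i) (fun j k hj hk _ x => by
    simp only [hF, hh.symm j k x, Function.comp_apply,
      Equiv.swap_apply_of_ne_of_ne hj.symm hk.symm]) hv' hl hf' hy
    fun x hx j _ => hh.hole x (left_ne_zero_of_mul hx) j
  have hmi := hS.mi hD' hFs (M := Fintype.card ι * hk B 0 + 1) (fun i j hij x => by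
    simp only [hF3, hh.symm i j x]
    rw [sym_ph P sp (fun _ => 1) (th B) z0 i j hij x]) (by positivity) fun x => by
      have h1 : ∑ i, F i x ^ 2 ≤ ∑ _i : ι, hk B 0 := Finset.sum_le_sum fun i _ => by
        rw [hF2]
        exact (mul_le_of_le_one_left (hth0 _) (loc_hole_sq hh x)).trans (th_le hB _)
      rw [Finset.sum_const, Finset.card_univ, nsmul_eq_mul] at h1
      linarith
  -- kinetic energy
  have hkin : ∀ i, (∑ k, pot (fun x => h x ^ 2 * th B (x i - z0)) (Dv (dir i k) ψ)) / (8 * mb) +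
      pot (fun x => F i x ^ 2 * potl (ch P sp) i x) ψ ≤
      gain P sp i (mulF (F i) ψ) + |I| / 2 * pot (Gam (F i)) ψ := by
    intro i
    have h1 := le_kin_mulF hni (hFs i) i
    simp only [hF2] at h1
    have hd : Continuous fun x => ∑ k, fderiv ℝ (F i) x (dir i k) ^ 2 := by
      have := (hFs i).continuous_fderiv (by simp)
      fun_prop
    have h2 : pot (fun x => ∑ k, fderiv ℝ (F i) x (dir i k) ^ 2) ψ ≤ pot (Gam (F i)) ψ :=
      pot_mono hd.locallyIntegrable (continuous_Gam (hFs i)).locallyIntegrable hcc fun x =>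
        Finset.single_le_sum (f := fun j => ∑ k, fderiv ℝ (F i) x (dir j k) ^ 2)
          (fun _ _ => by positivity) (Finset.mem_univ i)
    have hG0 : 0 ≤ pot (Gam (F i)) ψ := pot_nonneg (Gam_nonneg _) _
    have hm0 := hD.mpos (sp i)
    have hm1 := hD.hmb (sp i)
    have hm2 := hD'.hI (sp i)
    have hk0 := kin_nonneg i (mulF (F i) ψ)
    unfold gain
    rw [pot_mulF]
    set T := ∑ k, pot (fun x => h x ^ 2 * th B (x i - z0)) (Dv (dir i k) ψ)
    set G := pot (Gam (F i)) ψ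
    set k := kin i (mulF (F i) ψ)
    set m := P.mass (sp i)
    have hmb : 0 < mb := hm0.trans_le hm1
    have h3 : T / (8 * mb) ≤ (k + G) / (4 * mb) := by
      rw [div_le_div_iff₀ (by positivity) (by positivity)]
      nlinarith
    have h4 : (k + G) / (4 * mb) ≤ (k + G) / (4 * m) := by gcongr
    have h5 : G / (4 * m) ≤ |I| / 2 * G := by
      have h6 : G / (4 * m) = 1 / (2 * m) / 2 * G := by field_simp; ring
      rw [h6]
      gcongr
    rw [add_div k G (4 * m)] at h4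
    change _ ≤ k / (4 * m) + pot (fun x => F i x ^ 2 * potl (ch P sp) i x) ψ + _
    linarith
  -- gradient terms
  have hgam : ∑ i, pot (Gam (F i)) ψ ≤
      (2 * D / l ^ 2 + 1 / 2) * nb ψ (th B) z0 + 1 / 2 * nb ψ (xi B) z0 := by
    rw [← loc_nb_lin hcc hth hxi, ← pot_sum _ (fun i _ => (continuous_Gam (hFs i)).locallyIntegrable)
      hcc]
    refine pot_mono (continuous_finsetSum _ fun i _ => continuous_Gam (hFs i)).locallyIntegrable
      (loc_cont_ph _ (by fun_prop) z0).locallyIntegrable hcc fun x => ?_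
    refine Finset.sum_le_sum fun i _ => ?_
    have h1 := Gam_mul_le hh.smooth (hs1 i) x
    rw [Gam_one_body i (contDiff_sqrt_th hB), Real.sq_sqrt (hth0 _)] at h1
    have h2 := grad_sqrt_th hB (x i - z0)
    have h3 := mul_le_mul_of_nonneg_left (hh.gam x) (hth0 (x i - z0))
    have h4 : h x ^ 2 * ∑ k, fderiv ℝ (fun x => √(th B x)) (x i - z0) (ee k) ^ 2 ≤
        ∑ k, fderiv ℝ (fun x => √(th B x)) (x i - z0) (ee k) ^ 2 :=
      mul_le_of_le_one_left (by positivity) (loc_hole_sq hh x)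
    have h5 : th B (x i - z0) * (D / l ^ 2) = D / l ^ 2 * th B (x i - z0) := mul_comm _ _
    rw [mul_div_assoc]
    change Gam (fun x => h x * √(th B (x i - z0))) x ≤ _
    linarith
  have hF2c : ∀ i, Continuous fun x => F i x ^ 2 := fun i => (hFs i).continuous.pow 2
  have hnr : ∑ i, pot (fun x => F i x ^ 2) ψ ≤ nb ψ (th B) z0 := by
    rw [← pot_sum _ (fun i _ => (hF2c i).locallyIntegrable) hcc]
    refine pot_mono (continuous_finsetSum _ fun i _ => hF2c i).locallyIntegrable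
      (loc_cont_ph _ hth z0).locallyIntegrable hcc fun x => ?_
    rw [hF3]
    exact mul_le_of_le_one_left (loc_ph_nonneg (fun _ => zero_le_one) hth0 _ _) (loc_hole_sq hh x)
  have hU : ∀ U : X ι → ℝ, Continuous U → ∑ i, ch P sp i * pot (fun x => F i x ^ 2 * U x) ψ =
      pot (fun x => h x ^ 2 * ph (ch P sp) (th B) z0 x * U x) ψ := by
    intro U hU
    simp only [← pot_const_mul]
    rw [← pot_sum _ (fun i _ => Continuous.locallyIntegrable (by have := hF2c i; fun_prop)) hcc]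
    congr 1
    funext x
    simp only [hF2, ph, Finset.mul_sum, Finset.sum_mul]
    refine Finset.sum_congr rfl fun i _ => by ring
  have hV := loc_cont_ph (ch P sp) (continuous_VV v') y
  have hW := loc_cont_ph (ch P sp) (loc_cont_cv hv' hf') y
  have hlhs : pot (fun x => h x ^ 2 * ∑ i, th B (x i - z0) *
      (potl (ch P sp) i x - ch P sp i * ph (ch P sp) (VV v') y x)) ψ =
      ∑ i, pot (fun x => F i x ^ 2 * potl (ch P sp) i x) ψ -
        pot (fun x => h x ^ 2 * ph (ch P sp) (th B) z0 x * ph (ch P sp) (VV v') y x) ψ := by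
    have h1 := loc_cont_ph (ch P sp) hth z0
    have h2 := fun i => locInt_mul (hF2c i) (locInt_potl (ch P sp) i)
    rw [← pot_sum _ (fun i _ => h2 i) hcc, ← pot_sub (locallyIntegrable_finsetSum _ fun i _ => h2 i)
      (Continuous.locallyIntegrable (by fun_prop)) hcc]
    congr 1
    funext x
    generalize ph (ch P sp) (VV v') y x = U
    simp only [hF2, ph, Finset.mul_sum, Finset.sum_mul, ← Finset.sum_sub_distrib]
    refine Finset.sum_congr rfl fun i _ => by ring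
  -- replacing the orbital average
  have key := fun (φ : ℝ → ℝ) (hφ0 : ∀ y, 0 ≤ φ y) (hφ : ∀ y, φ y ≤ |y|) =>
    hS.ii_count hD' ht0 ht hK hh.smooth (fun i j _ => hh.symm i j) (loc_hole_sq hh) hh.gam
      (contDiff_sqrt_th hB) hth0 hth (g' := fun x => 1 / 4 * th B x + 1 / 4 * xi B x) (by fun_prop)
      (fun x => (grad_sqrt_th hB x).trans (le_of_eq (by ring))) (th_le hB) z0 φ hφ0 hφ
  rw [loc_nb_lin hcc hth hxi, abs_abs, abs_of_nonneg hH] at key
  have hc := fun φ : ℝ → ℝ => hFc.mul (loc_cont_ph (fun j => φ (ch P sp j)) hth z0)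
  have k1 := pot_gorb_le (hc fun y => max y 0) hcc
    (key (fun y => max y 0) (fun _ => le_max_right _ _) loc_pos_le) hv' hf' y
  have k2 := pot_gorb_le (hc fun y => max (-y) 0) hcc
    (key (fun y => max (-y) 0) (fun _ => le_max_right _ _) loc_neg_le) hv' hf' y
  simp only [Pi.mul_apply] at k1 k2
  have s1 := Finset.sum_le_sum fun i (_ : i ∈ (Finset.univ : Finset ι)) => hm i
  have s2 := Finset.sum_le_sum fun i (_ : i ∈ (Finset.univ : Finset ι)) => hkin i
  simp only [Finset.sum_add_distrib, ← Finset.mul_sum, ← Finset.sum_div] at s1 s2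
  rw [hU _ hW, loc_pot_split hcc _ hth z0 hFc hW, sq_abs cb] at s1
  rw [hlhs, loc_pot_split hcc _ hth z0 hFc hV]
  have hn0 := nb_nonneg ψ hth0 z0
  have hn1 := nb_nonneg ψ (xi_nonneg hB) z0
  set n := nb ψ (th B) z0
  set n' := nb ψ (xi B) z0
  set N : ℝ := (Fintype.card ι : ℝ)
  have hN : 0 ≤ N := Nat.cast_nonneg _
  have s3 := mul_le_mul_of_nonneg_left hnr
    (show 0 ≤ (|I| * D + 1) / v' + (4 * |mb| + 1) * cb ^ 2 * t ^ 2 by positivity)
  have s4 := mul_le_mul_of_nonneg_left hgam (show 0 ≤ 5 / 2 * |I| by positivity)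
  set R2 := (4 * |I| * |cb| * (D / l ^ 2 * n + (1 / 4 * n + 1 / 4 * n')) +
    2 * (N * |cb| * hk B 0 + 1) * ε) / t0 with hR2
  have hR20 : 0 ≤ R2 := by positivity
  have hR : 2 * (1 - Z') * (31 * K * (|cb| * n) + R2) ≤
      62 * D * |cb| * (v' / l ^ 2 * K * n) + R2 := by
    have h1 := hf'.half
    have h2 := hf'.le_one
    have h3 := hf'.near
    rw [mul_div_assoc] at h3
    have h5 : 0 ≤ K * (|cb| * n) := by positivity
    nlinarith [mul_le_mul_of_nonneg_right h3 h5]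
  have hv1 : 1 ≤ 1 / v' := by rw [le_div_iff₀ hv']; linarith
  have e1 := mul_le_mul_of_nonneg_right hC1 (show 0 ≤ 1 / v' * n by positivity)
  have e2 := mul_le_mul_of_nonneg_right hC2 (show 0 ≤ t ^ 2 * n by positivity)
  have e3 := mul_le_mul_of_nonneg_right hC3 (show 0 ≤ v' / l ^ 2 * K * n by positivity)
  have e4 := mul_le_mul_of_nonneg_right hC4 (show 0 ≤ 1 / l ^ 2 * n by positivity)
  have e5 := mul_le_mul_of_nonneg_right hC5 hn1
  have e6 := mul_le_mul_of_nonneg_right hC6 (show 0 ≤ (N * hk B 0 + 1) * ε by positivity)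
  have e7 := mul_le_mul_of_nonneg_right hv1
    (show 0 ≤ (5 / 4 * |I| + 2 * |I| * |cb| / t0) * n by positivity)
  have e8 : 0 ≤ 4 / t0 * (N * hk B 0 * ε) := by positivity
  have e9 : 0 ≤ 4 / t0 * (|cb| * ε) := by positivity
  have e10 : 2 * R2 = 8 * |I| * |cb| * D / t0 * (1 / l ^ 2 * n) + 2 * |I| * |cb| / t0 * n +
      2 * |I| * |cb| / t0 * n' + (4 * (|cb| + 1) / t0 * ((N * hk B 0 + 1) * ε) -
        4 / t0 * (N * hk B 0 * ε) - 4 / t0 * (|cb| * ε)) := by
    rw [hR2]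
    ring
  have e11 : ((|I| * D + 1) / v' + (4 * |mb| + 1) * cb ^ 2 * t ^ 2) * n =
      (|I| * D + 1) * (1 / v' * n) + (4 * |mb| + 1) * cb ^ 2 * (t ^ 2 * n) := by ring
  have e12 : 5 / 2 * |I| * ((2 * D / l ^ 2 + 1 / 2) * n + 1 / 2 * n') =
      5 * |I| * D * (1 / l ^ 2 * n) + 5 / 4 * |I| * n + 5 / 4 * |I| * n' := by ring
  have k3 := (abs_le.mp (k1.trans hR)).1
  have k4 := (abs_le.mp (k2.trans hR)).2
  linarith

/-- the correlation of the potential with the local charge -/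
theorem cnt_ineq (hD : Dat P I mb cm cb) {D t0 : ℝ} (hD0 : 0 < D) (ht0 : 0 < t0) :
    ∃ C : ℝ, 0 < C ∧ ∀ (ι : Type) [Fintype ι] [DecidableEq ι] (sp : ι → σ)
    (L t e1 K ε : ℝ) (x0 : E) (ψ : Wv ι Sp), St P sp L t x0 e1 K ε ψ → t0 ≤ |t| → 0 ≤ K →
    ∀ (v v' l r : ℝ) (y z : E) (h : X ι → ℝ), 0 < v → 0 < v' → 0 < l → 0 < r → HoleFn D l y h →
    |pot (fun x => h x ^ 2 * ((ph (ch P sp) (VV v) z x - ph (ch P sp) (VV v') y x) *
      ph (ch P sp) (hk r) z x)) ψ| ≤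
      C * (K + 1 / l ^ 2 + 1 / r) * (nb ψ (hk r) z + nb ψ (hk (2 * r)) z) +
        C * (Fintype.card ι * hk r 0 + 1) * ε := by
  obtain ⟨C, hC0, hC1, hC2, hC3, hC4⟩ : ∃ C : ℝ, 0 < C ∧ 124 * |cb| ≤ C ∧
      16 * |I| * |cb| * D / t0 ≤ C ∧ 32 * |I| * |cb| / t0 ≤ C ∧ 8 * (|cb| + 1) / t0 ≤ C := by
    have h1 : 0 ≤ 124 * |cb| := by positivity
    have h2 : 0 ≤ 16 * |I| * |cb| * D / t0 := by positivity
    have h3 : 0 ≤ 32 * |I| * |cb| / t0 := by positivity
    have h4 : 0 < 8 * (|cb| + 1) / t0 := by positivity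
    exact ⟨124 * |cb| + 16 * |I| * |cb| * D / t0 + 32 * |I| * |cb| / t0 + 8 * (|cb| + 1) / t0,
      by linarith, by linarith, by linarith, by linarith, by linarith⟩
  refine ⟨C, hC0, ?_⟩
  intro ι _ _ sp L t e1 K ε x0 ψ hS ht hK v v' l r y z h hv hv' hl hr hh
  have hD' := loc_dat hD
  have hε := hS.eps_nonneg
  have hcc := hS.tst.nice.cc
  have hFc : Continuous fun x => h x ^ 2 := hh.smooth.continuous.pow 2
  have hg' : Continuous fun x => 2 / r * hk (2 * r) x + 0 * hk r x := by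
    have := continuous_hk (2 * r)
    have := continuous_hk r
    fun_prop
  have key := fun (φ : ℝ → ℝ) (hφ0 : ∀ y, 0 ≤ φ y) (hφ : ∀ y, φ y ≤ |y|) =>
    hS.ii_count hD' ht0 ht hK hh.smooth (fun i j _ => hh.symm i j) (loc_hole_sq hh) hh.gam
      (contDiff_sqrt_hk hr) (hk_nonneg r) (continuous_hk r) hg'
      (fun x => (grad_sqrt_hk hr x).trans (le_of_eq (by ring))) (hk_le_zero hr) z φ hφ0 hφ
  rw [loc_nb_lin hcc (continuous_hk _) (continuous_hk _), zero_mul, add_zero, abs_abs,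
    abs_of_nonneg (hk_nonneg r 0)] at key
  have hc := fun φ : ℝ → ℝ => hFc.mul (loc_cont_ph (fun j => φ (ch P sp j)) (continuous_hk r) z)
  have k1 := key (fun y => max y 0) (fun _ => le_max_right _ _) loc_pos_le
  have k2 := key (fun y => max (-y) 0) (fun _ => le_max_right _ _) loc_neg_le
  have k3 := pot_VV_le (hc fun y => max y 0) hcc k1 hv z
  have k4 := pot_VV_le (hc fun y => max y 0) hcc k1 hv' y
  have k5 := pot_VV_le (hc fun y => max (-y) 0) hcc k2 hv z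
  have k6 := pot_VV_le (hc fun y => max (-y) 0) hcc k2 hv' y
  have h1 := loc_cont_ph (ch P sp) (continuous_VV v) z
  have h2 := loc_cont_ph (ch P sp) (continuous_VV v') y
  have h3 := loc_cont_ph (ch P sp) (continuous_hk r) z
  have hsplit : pot (fun x => h x ^ 2 * ((ph (ch P sp) (VV v) z x - ph (ch P sp) (VV v') y x) *
      ph (ch P sp) (hk r) z x)) ψ =
      pot (fun x => h x ^ 2 * ph (ch P sp) (hk r) z x * ph (ch P sp) (VV v) z x) ψ -
        pot (fun x => h x ^ 2 * ph (ch P sp) (hk r) z x * ph (ch P sp) (VV v') y x) ψ := by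
    rw [← pot_sub (Continuous.locallyIntegrable (by fun_prop))
      (Continuous.locallyIntegrable (by fun_prop)) hcc]
    congr 1
    funext x
    ring
  rw [hsplit, loc_pot_split hcc _ (continuous_hk r) z hFc h1,
    loc_pot_split hcc _ (continuous_hk r) z hFc h2]
  simp only [Pi.mul_apply] at k3 k4 k5 k6
  have hn0 := nb_nonneg ψ (hk_nonneg r) z
  have hn1 := nb_nonneg ψ (hk_nonneg (2 * r)) z
  have hH := hk_nonneg r 0
  set n := nb ψ (hk r) z
  set n' := nb ψ (hk (2 * r)) z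
  set N : ℝ := (Fintype.card ι : ℝ)
  have hN : 0 ≤ N := Nat.cast_nonneg _
  have hR : 4 * (31 * K * (|cb| * n) + (4 * |I| * |cb| * (D / l ^ 2 * n + 2 / r * n') +
      2 * (N * |cb| * hk r 0 + 1) * ε) / t0) ≤
      C * (K + 1 / l ^ 2 + 1 / r) * (n + n') + C * (N * hk r 0 + 1) * ε := by
    have e1 := mul_le_mul_of_nonneg_right hC1 (show 0 ≤ K * n by positivity)
    have e2 := mul_le_mul_of_nonneg_right hC2 (show 0 ≤ 1 / l ^ 2 * n by positivity)
    have e3 := mul_le_mul_of_nonneg_right hC3 (show 0 ≤ 1 / r * n' by positivity)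
    have e4 := mul_le_mul_of_nonneg_right hC4 (show 0 ≤ (N * hk r 0 + 1) * ε by positivity)
    have e5 : 0 ≤ C * (K * n') := by positivity
    have e6 : 0 ≤ C * (1 / l ^ 2 * n') := by positivity
    have e7 : 0 ≤ C * (1 / r * n) := by positivity
    have e8 : 0 ≤ 8 / t0 * (N * hk r 0 * ε) := by positivity
    have e9 : 0 ≤ 8 / t0 * (|cb| * ε) := by positivity
    have e10 : 4 * (31 * K * (|cb| * n) + (4 * |I| * |cb| * (D / l ^ 2 * n + 2 / r * n') +
        2 * (N * |cb| * hk r 0 + 1) * ε) / t0) = 124 * |cb| * (K * n) +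
        16 * |I| * |cb| * D / t0 * (1 / l ^ 2 * n) + 32 * |I| * |cb| / t0 * (1 / r * n') +
        (8 * (|cb| + 1) / t0 * ((N * hk r 0 + 1) * ε) - 8 / t0 * (N * hk r 0 * ε) -
          8 / t0 * (|cb| * ε)) := by ring
    rw [e10]
    linarith
  rw [abs_le] at k3 k4 k5 k6 ⊢
  constructor <;> linarith [k3.1, k3.2, k4.1, k4.2, k5.1, k5.2, k6.1, k6.2]

end Pool.Agent.Lib.MP_0655ed_mp
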