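import Pool.Agent.Lib.MP_0655ed_mp.ImpES
import Pool.Agent.Lib.MP_0655ed_mp.ImpLocal
import Pool.Agent.Lib.MP_0655ed_mp.ImpExt

open Finset MeasureTheory Real Filter Topology

namespace Pool.Agent.Lib.MP_0655ed_mp

variable {σ Sp ι : Type} [Fintype ι] [DecidableEq ι] [Fintype Sp]

theorem co_nb {ψ : Wv ι Sp} (h : Cc ψ) {B w n : ℝ} (hB : 0 < B) (hw : B ≤ w) (hw1 : w ≤ 1)
    (hn : ∀ z, nb ψ (th B) z ≤ n) (z : E) : nb ψ (hk w) z ≤ 25 / w * n :=
  (nb_le_mul h (continuous_hk w) (continuous_th hB) (hk_le_th hB hw hw1) z).trans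
    (mul_le_mul_of_nonneg_left (hn z) (by have := hB.trans_le hw; positivity))

theorem co_tb1 {ψ : Wv ι Sp} (h : Nice ψ) {B w T : ℝ} (hB : 0 < B) (hw : B ≤ w) (hw1 : w ≤ 1)
    (hT : ∀ z, tb ψ (th B) z ≤ T) (z : E) : tb ψ (hk w) z ≤ 25 / w * T :=
  (tb_le_mul h (continuous_hk w) (continuous_th hB) (hk_le_th hB hw hw1) z).trans
    (mul_le_mul_of_nonneg_left (hT z) (by have := hB.trans_le hw; positivity))

theorem co_tb {ψ : Wv ι Sp} (h : Nice ψ) {B w T : ℝ} (hB : 0 < B) (hB1 : B ≤ 1) (hw : B ≤ w)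
    (hT : ∀ z, tb ψ (th B) z ≤ T) (z : E) : tb ψ (hk w) z ≤ 25 * T + 25 * T / w := by
  have hT0 : 0 ≤ T := (tb_nonneg ψ (fun x => (th_pos hB x).le) 0).trans (hT 0)
  have hw0 := hB.trans_le hw
  rcases le_total w 1 with h1 | h1
  · have := co_tb1 h hB hw h1 hT z
    have h2 : 25 / w * T = 25 * T / w := by ring
    linarith
  · have := tb_hk_mono h one_pos h1 (co_tb1 h hB hB1 le_rfl hT) z
    have h2 : 0 ≤ 25 * T / w := by positivity
    linarith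

/-- the density hypothesis for one state -/
def DensH (c : ι → ℝ) (Cd : ℝ) (ψ : Wv ι Sp) : Prop :=
  ∀ g : E → ℝ, Continuous g → (∀ x, 0 ≤ g x) → (∃ M, ∀ x, g x ≤ M) → Integrable g →
    ∫ x, g x ≤ 1 → ∀ T : ℝ, (∀ z, tb ψ g z ≤ T) → ∀ r : ℝ, 0 < r → ∀ z,
    pot (ph (ngv c) g z) ψ ≤ Cd * (nr ψ / r ^ 3 + r ^ 2 * T)

theorem co_dens_hk {ψ : Wv ι Sp} (h : Nice ψ) (h1 : nr ψ = 1) {c : ι → ℝ} {cm cb Cd : ℝ}
    (hcm0 : 0 < cm) (hcb0 : 0 ≤ cb) (hCd : 0 ≤ Cd) (hcm : ∀ j, cm ≤ |c j|) (hcb : ∀ j, |c j| ≤ cb)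
    (hd : DensH c Cd ψ) {B T S : ℝ} (hB : 0 < B) (hB1 : B ≤ 1) (hT : ∀ z, tb ψ (th B) z ≤ T)
    (hS : ∀ w, B ≤ w → ∀ z, |pot (ph c (VV w) z) ψ| ≤ S) {r : ℝ} (hr : 0 < r) {w : ℝ}
    (hw : B ≤ w) (z : E) :
    cm * nb ψ (hk w) z ≤ 6 * cb * Cd * (1 / r ^ 3 + 25 * r ^ 2 * T) +
      (150 * cb * Cd * r ^ 2 * T + S) / w := by
  have hT0 : 0 ≤ T := (tb_nonneg ψ (fun x => (th_pos hB x).le) 0).trans (hT 0)
  have hw0 := hB.trans_le hw
  have := poisson_hk h.cc hcm0 hcb0 hcm hcb hw0 z (hS w hw z) (hS _ (by linarith) z)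
    (D := Cd * (1 / r ^ 3 + r ^ 2 * (25 * T + 25 * T / w))) fun u hu _ => by
      have hu0 := hw0.trans_le hu
      have h2 := hd (hk u) (continuous_hk u) (hk_nonneg u) ⟨_, hk_le_zero hu0⟩ (integrable_hk hu0)
        (integral_hk hu0).le (25 * T + 25 * T / w) (fun z => (co_tb h hB hB1 (hw.trans hu) hT z).trans
          (by gcongr)) r hr z
      rwa [h1] at h2
  refine this.trans (le_of_eq ?_)
  ring

theorem co_dens_th {ψ : Wv ι Sp} (h : Nice ψ) (h1 : nr ψ = 1) {c : ι → ℝ} {cm cb Cd : ℝ}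
    (hcb0 : 0 ≤ cb) (hcm : ∀ j, cm ≤ |c j|) (hcb : ∀ j, |c j| ≤ cb)
    (hd : DensH c Cd ψ) {B T S : ℝ} (hB : 0 < B) (hT : ∀ z, tb ψ (th B) z ≤ T)
    (hS : ∀ w, B ≤ w → ∀ z, |pot (ph c (VV w) z) ψ| ≤ S) {r : ℝ} (hr : 0 < r) (z : E) :
    cm * nb ψ (th B) z ≤ S + 2 * cb * Cd * (1 / r ^ 3 + r ^ 2 * T) := by
  have h2 := count_split h.cc hcm hcb (continuous_th hB) (fun x => (th_pos hB x).le) z
  have h3 := (abs_le.mp (poisson_th h.cc c hB z fun w hw => hS w hw z)).2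
  have h4 := hd (th B) (continuous_th hB) (fun x => (th_pos hB x).le) ⟨_, th_le hB⟩
    (integrable_th hB) (integral_th hB).le T hT r hr z
  rw [h1] at h4
  have h5 := mul_le_mul_of_nonneg_left h4 (by positivity : 0 ≤ 2 * cb)
  linarith

/-- averaging the local inequalities over the holes -/
theorem co_local {Y : Type} [Fintype Y] [Nonempty Y] {ψ : Wv ι Sp} (h : Nice ψ) {c : ι → ℝ}
    {a v mb U W : ℝ} (ha : 0 < a) (hv : 0 < v) (hmb : 0 < mb) {hh b : Y → X ι → ℝ}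
    (hc : ∀ y, Continuous (hh y)) (hb : ∀ y, Continuous (b y))
    (hhalf : ∀ x, 1 / 2 ≤ (Fintype.card Y : ℝ)⁻¹ * ∑ y, hh y x ^ 2) (z0 : E)
    (hes : ∀ y, (1 - 8 * v / a) / 2 * pot (fun x => hh y x ^ 2 * av2 (hk a) c v (b y x) z0 x) ψ ≤
      4 * π * pot (fun x => hh y x ^ 2 * ∑ i, th (a + v) (x i - z0) *
        (potl c i x - c i * b y x)) ψ +
      pot (fun x => hh y x ^ 2 * av2 (th a) c v (b y x) z0 x) ψ / 2 + U)
    (htau : ∀ y, (∑ i, ∑ k, pot (fun x => hh y x ^ 2 * th (a + v) (x i - z0))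
      (Dv (dir i k) ψ)) / (8 * mb) + pot (fun x => hh y x ^ 2 * ∑ i, th (a + v) (x i - z0) *
        (potl c i x - c i * b y x)) ψ ≤ W) :
    (1 - 8 * v / a) / 2 * gav a (mm c v (fun y x => hh y x ^ 2) b ψ) z0 +
      π / (4 * mb) * tb ψ (th (a + v)) z0 ≤
      (∫ z, th a (z - z0) * mm c v (fun y x => hh y x ^ 2) b ψ z) / 2 + U + 4 * π * W := by
  have hB : 0 < a + v := by positivity
  have hω : ∀ y, Continuous fun x => hh y x ^ 2 := fun y => (hc y).pow 2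
  have e1 := mm_av2 c hv hω hb h.cc (continuous_hk a) (integrable_hk ha) z0
  have e2 := mm_av2 c hv hω hb h.cc (continuous_th ha) (integrable_th ha) z0
  have hN : (0 : ℝ) < Fintype.card Y := by exact_mod_cast Fintype.card_pos
  have e3 : 1 / 2 * tb ψ (th (a + v)) z0 ≤ (Fintype.card Y : ℝ)⁻¹ * ∑ y, ∑ i, ∑ k,
      pot (fun x => hh y x ^ 2 * th (a + v) (x i - z0)) (Dv (dir i k) ψ) := by
    unfold tb
    rw [Finset.sum_comm (s := (Finset.univ : Finset Y)), Finset.mul_sum, Finset.mul_sum]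
    refine Finset.sum_le_sum fun i _ => ?_
    rw [Finset.sum_comm (s := (Finset.univ : Finset Y)), Finset.mul_sum, Finset.mul_sum]
    refine Finset.sum_le_sum fun k _ => ?_
    exact exAv_half (G := fun x => th (a + v) (x i - z0)) hω hhalf
      ((continuous_th hB).comp ((continuous_apply i).sub continuous_const))
      (fun x => (th_pos hB _).le) (h.dv _).cc
  have e4 : ∀ y, (1 - 8 * v / a) / 2 *
      pot (fun x => hh y x ^ 2 * av2 (hk a) c v (b y x) z0 x) ψ + π / (2 * mb) *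
      (∑ i, ∑ k, pot (fun x => hh y x ^ 2 * th (a + v) (x i - z0)) (Dv (dir i k) ψ)) ≤
      1 / 2 * pot (fun x => hh y x ^ 2 * av2 (th a) c v (b y x) z0 x) ψ + (U + 4 * π * W) := by
    intro y
    have h1 := mul_le_mul_of_nonneg_left (htau y) (by positivity : 0 ≤ 4 * π)
    have h2 : ∀ A : ℝ, 4 * π * (A / (8 * mb)) = π / (2 * mb) * A := fun A => by
      field_simp; ring
    rw [mul_add, h2] at h1
    linarith [hes y]
  have e5 := mul_le_mul_of_nonneg_left (Finset.sum_le_sum fun y (_ : y ∈ Finset.univ) => e4 y)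
    (by positivity : (0 : ℝ) ≤ (Fintype.card Y : ℝ)⁻¹)
  simp only [Finset.sum_add_distrib, ← Finset.mul_sum, Finset.sum_const, Finset.card_univ,
    nsmul_eq_mul] at e5
  rw [mul_add, mul_add, mul_left_comm, e1, mul_left_comm _ (1 / 2 : ℝ), e2,
    mul_left_comm _ (π / (2 * mb))] at e5
  have e8 : (Fintype.card Y : ℝ)⁻¹ * (Fintype.card Y * U + 4 * π * (Fintype.card Y * W)) =
      U + 4 * π * W := by field_simp
  have e6 := mul_le_mul_of_nonneg_left e3 (by positivity : 0 ≤ π / (2 * mb))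
  have e7 : π / (2 * mb) * (1 / 2 * tb ψ (th (a + v)) z0) =
      π / (4 * mb) * tb ψ (th (a + v)) z0 := by field_simp; ring
  unfold gav
  linarith

variable {P : Species σ Sp} {sp : ι → σ} {L t e1 K ε I mb cm cb : ℝ} {x0 : E} {ψ : Wv ι Sp}

theorem co_sym_VV (P : Species σ Sp) (sp : ι → σ) (w : ℝ) (z : E) :
    Sym sp (ph (ch P sp) (VV w) z) := sym_ph P sp id (VV w) z

/-- conditional bound for the smoothed potential -/
theorem co_ii (hD : Dat P I mb cm cb) (h : St P sp L t x0 e1 K ε ψ) {t0 : ℝ} (ht0 : 0 < t0)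
    (ht : t0 ≤ |t|) {F : X ι → ℝ} (hF : ContDiff ℝ (⊤ : ℕ∞) F) (hs : Sym sp F) {M : ℝ}
    (hM : ∀ x, F x ^ 2 ≤ M) {w : ℝ} (hw : 0 < w) (z : E) :
    |pot (fun x => F x ^ 2 * ph (ch P sp) (VV w) z x) ψ| ≤ 31 * K * pot (fun x => F x ^ 2) ψ +
      2 * I / t0 * pot (Gam F) ψ + 2 * (M + 1) * ε / t0 := by
  refine pot_VV_le (hF.continuous.pow 2) h.tst.nice.cc (fun z => ?_) hw z
  have := h.ii hD ht0 ht (J := Unit) (f := fun _ => F) (fun _ => hF)
    (by intro i j hij x; simp [hs i j hij x]) (M := M) ((sq_nonneg _).trans (hM 0))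
    (by simpa using hM) z
  simp only [Finset.univ_unique, Finset.sum_singleton] at this
  refine this.trans (le_of_eq ?_)
  ring

theorem co_gam_one (x : X ι) : Gam (fun _ : X ι => (1 : ℝ)) x = 0 := by simp [Gam]

/-- second moment of the smoothed potential -/
theorem co_sm (hD : Dat P I mb cm cb) (h : St P sp L t x0 e1 K ε ψ) {t0 : ℝ} (ht0 : 0 < t0)
    (ht : t0 ≤ |t|) (hI : 0 ≤ I) (hK : 0 < K) {w : ℝ} (hw : 0 < w) (z : E) {M1 : ℝ}
    (hM : ∀ x, |ph (ch P sp) (VV w) z x| ≤ M1) :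
    pot (fun x => ph (ch P sp) (VV w) z x ^ 2) ψ ≤ 1023 * K ^ 2 +
      2 * I / t0 / K * pot (Gam (ph (ch P sp) (VV w) z)) ψ + 8 * ((M1 + K + 1) * ε) / t0 := by
  have := second_moment (sp := sp) h.tst.nice.cc h.one (g := fun _ => 1) contDiff_const
    (contDiff_ph _ (contDiff_VV w) z) (fun _ _ _ _ => rfl) (co_sym_VV P sp w z)
    (fun _ => zero_le_one) (fun _ => le_rfl) hM (Γ0 := 0) (fun x => (co_gam_one x).le) hK
    (κ := 31 * K) (by positivity) (c := 2 * I / t0) (by positivity)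
    (er := 2 * (M1 + K + 1) * ε / t0) fun F hF hs hFM _ => co_ii hD h ht0 ht hF hs hFM hw z
  simp only [one_pow, one_mul, pot_const, h.one] at this
  refine this.trans (le_of_eq ?_)
  ring

end Pool.Agent.Lib.MP_0655ed_mp
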