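import Pool.Agent.Lib.MP_0655ed_mp.ImpCore1

open Finset MeasureTheory Real Filter Topology

namespace Pool.Agent.Lib.MP_0655ed_mp

variable {σ Sp ι : Type} [Fintype ι] [DecidableEq ι] [Fintype Sp]
  {P : Species σ Sp} {sp : ι → σ} {L t e1 K ε I mb cm cb : ℝ} {x0 : E} {ψ : Wv ι Sp}

theorem co_diff_sq {ψ : Wv ι Sp} (h : Cc ψ) {ω f g : X ι → ℝ} (hω : Continuous ω)
    (hf : Continuous f) (hg : Continuous g) (hω0 : ∀ x, 0 ≤ ω x) (hω1 : ∀ x, ω x ≤ 1) {A : ℝ}
    (h1 : pot (fun x => f x ^ 2) ψ ≤ A ^ 2) (h2 : pot (fun x => g x ^ 2) ψ ≤ A ^ 2) :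
    pot (fun x => ω x * (f x - g x) ^ 2) ψ ≤ (2 * A) ^ 2 := by
  have h3 : pot (fun x => ω x * (f x - g x) ^ 2) ψ ≤ pot (fun x => 2 * f x ^ 2 + 2 * g x ^ 2) ψ :=
    pot_mono (by fun_prop : Continuous _).locallyIntegrable
      (by fun_prop : Continuous _).locallyIntegrable h fun x =>
      (mul_le_of_le_one_left (sq_nonneg _) (hω1 x)).trans (by nlinarith [sq_nonneg (f x + g x)])
  rw [pot_add (by fun_prop : Continuous _).locallyIntegrable
    (by fun_prop : Continuous _).locallyIntegrable h, pot_const_mul, pot_const_mul] at h3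
  linarith

theorem co_gam_compl {F : X ι → ℝ} (hF : ContDiff ℝ (⊤ : ℕ∞) F) (x : X ι) :
    Gam (fun x => 1 - F x) x = Gam F x := by
  have := Gam_comp hF (φ := fun y => 1 - y) (φ' := -1) (x := x)
    ((hasDerivAt_id' (F x)).const_sub 1)
  simpa using this

/-- the mean square potential inside the box -/
theorem co_box (hD : Dat P I mb cm cb) (h : St P sp L t x0 e1 K ε ψ) {t0 : ℝ} (ht0 : 0 < t0)
    (ht : t0 ≤ |t|) (hI : 0 ≤ I) (hK : 0 < K) {v v' r l D : ℝ} (hv : 0 < v) (hv' : 0 < v')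
    {z y : E} {hz hy : X ι → ℝ} (hhz : HoleFn D r z hz) (hhy : HoleFn D l y hy)
    {M1 A G κ C er : ℝ} (hA0 : 0 ≤ A) (hκ : 0 ≤ κ) (hC : 0 ≤ C)
    (hM : ∀ x, |ph (ch P sp) (VV v) z x - ph (ch P sp) (VV v') y x| ≤ M1)
    (hA1 : pot (fun x => ph (ch P sp) (VV v) z x ^ 2) ψ ≤ A ^ 2)
    (hA2 : pot (fun x => ph (ch P sp) (VV v') y x ^ 2) ψ ≤ A ^ 2)
    (hG1 : pot (Gam (ph (ch P sp) (VV v) z)) ψ ≤ G)
    (hG2 : pot (Gam (ph (ch P sp) (VV v') y)) ψ ≤ G)
    (H : ∀ F : X ι → ℝ, ContDiff ℝ (⊤ : ℕ∞) F → Sym sp F → (∀ x, F x ^ 2 ≤ M1 + K) →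
      (∀ x, F x ≠ 0 → ∀ j, 2 * r ≤ ‖x j - z‖ ∧ 2 * l ≤ ‖x j - y‖) →
      |pot (fun x => F x ^ 2 * (ph (ch P sp) (VV v) z x - ph (ch P sp) (VV v') y x)) ψ| ≤
        κ * pot (fun x => F x ^ 2) ψ + C * pot (Gam F) ψ + er) :
    pot (fun x => hy x ^ 2 * (ph (ch P sp) (VV v) z x - ph (ch P sp) (VV v') y x) ^ 2) ψ ≤
      2 * (κ ^ 2 + 2 * κ * K) + 8 * (C + 4 * I / t0) * (2 * D / l ^ 2 + 2 * D / r ^ 2) *
        (2 * A + K) + 8 * (C + 4 * I / t0) / K * G + 8 * er + 32 * ((M1 + K + 1) * ε) / t0 +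
        7936 * K ^ 2 * D * r ^ 3 * nb ψ (hk (r ^ 2)) z := by
  have hc := h.tst.nice.cc
  set s : X ι → ℝ := fun x => ph (ch P sp) (VV v) z x - ph (ch P sp) (VV v') y x with hs
  have hs1 := contDiff_ph (ch P sp) (contDiff_VV v) z
  have hs2 := contDiff_ph (ch P sp) (contDiff_VV v') y
  have hsd : ContDiff ℝ (⊤ : ℕ∞) s := hs1.sub hs2
  have hss : Sym sp s := fun i j hij x => by
    simp only [hs, co_sym_VV P sp v z i j hij x, co_sym_VV P sp v' y i j hij x]
  have ha : pot (fun x => |s x|) ψ ≤ 2 * A := by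
    have h1 := pot_abs_sq_le hsd.continuous hc
    have h2 := co_diff_sq hc (ω := fun _ => 1) continuous_const hs1.continuous hs2.continuous
      (fun _ => zero_le_one) (fun _ => le_rfl) hA1 hA2
    simp only [one_mul] at h2
    rw [h.one, mul_one] at h1
    exact (pow_le_pow_iff_left₀ (pot_nonneg (fun _ => abs_nonneg _) _) (by positivity)
      two_ne_zero).mp (h1.trans h2)
  have hg : pot (Gam s) ψ ≤ 4 * G := by
    have h1 : pot (Gam s) ψ ≤ pot (fun x => 2 * Gam (ph (ch P sp) (VV v) z) x +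
        2 * Gam (ph (ch P sp) (VV v') y) x) ψ :=
      pot_mono (continuous_Gam hsd).locallyIntegrable
        ((continuous_const.mul (continuous_Gam hs1)).add
          (continuous_const.mul (continuous_Gam hs2))).locallyIntegrable hc
        fun x => Gam_sub_le hs1 hs2 x
    have g1 := continuous_Gam hs1
    have g2 := continuous_Gam hs2
    rw [pot_add (by fun_prop : Continuous _).locallyIntegrable
      (by fun_prop : Continuous _).locallyIntegrable hc, pot_const_mul, pot_const_mul] at h1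
    linarith
  have hΓ : ∀ g : X ι → ℝ, ContDiff ℝ (⊤ : ℕ∞) g → (∀ x, 0 ≤ g x) → (∀ x, g x ≤ 1) →
      (∀ x, Gam g x ≤ D / r ^ 2) → ∀ x, Gam (fun x => hy x * g x) x ≤
        2 * D / l ^ 2 + 2 * D / r ^ 2 := by
    intro g hg g0 g1 gg x
    have h1 := Gam_mul_le hhy.smooth hg x
    have h2 : g x ^ 2 * Gam hy x ≤ D / l ^ 2 :=
      (mul_le_of_le_one_left (Gam_nonneg _ _) (pow_le_one₀ (g0 x) (g1 x))).trans (hhy.gam x)
    have h3 : hy x ^ 2 * Gam g x ≤ D / r ^ 2 :=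
      (mul_le_of_le_one_left (Gam_nonneg _ _)
        (pow_le_one₀ (hhy.nonneg x) (hhy.le_one x))).trans (gg x)
    have h4 : 2 * D / l ^ 2 + 2 * D / r ^ 2 = 2 * (D / l ^ 2) + 2 * (D / r ^ 2) := by ring
    linarith
  have hΓ0 : 0 ≤ 2 * D / l ^ 2 + 2 * D / r ^ 2 :=
    (Gam_nonneg _ 0).trans (hΓ hz hhz.smooth hhz.nonneg hhz.le_one hhz.gam 0)
  have m1 := second_moment (sp := sp) hc h.one (g := fun x => hy x * hz x)
    (hhy.smooth.mul hhz.smooth) hsd (fun i j _ x => by simp only [hhy.symm, hhz.symm]) hss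
    (fun x => mul_nonneg (hhy.nonneg x) (hhz.nonneg x))
    (fun x => mul_le_one₀ (hhy.le_one x) (hhz.nonneg x) (hhz.le_one x)) hM
    (hΓ hz hhz.smooth hhz.nonneg hhz.le_one hhz.gam) hK hκ hC
    fun F hF hFs hFM hF0 => H F hF hFs hFM fun x hx j =>
      ⟨hhz.hole x (right_ne_zero_of_mul (hF0 x hx)) j, hhy.hole x (left_ne_zero_of_mul (hF0 x hx)) j⟩
  have hz' : ContDiff ℝ (⊤ : ℕ∞) fun x => 1 - hz x := contDiff_const.sub hhz.smooth
  have z0 : ∀ x, 0 ≤ 1 - hz x := fun x => sub_nonneg.mpr (hhz.le_one x)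
  have z1 : ∀ x, 1 - hz x ≤ 1 := fun x => sub_le_self _ (hhz.nonneg x)
  have m2 := second_moment (sp := sp) hc h.one (g := fun x => hy x * (1 - hz x))
    (hhy.smooth.mul hz') hsd (fun i j _ x => by simp only [hhy.symm, hhz.symm]) hss
    (fun x => mul_nonneg (hhy.nonneg x) (z0 x))
    (fun x => mul_le_one₀ (hhy.le_one x) (z0 x) (z1 x)) hM
    (hΓ _ hz' z0 z1 fun x => (co_gam_compl hhz.smooth x).le.trans (hhz.gam x)) hK
    (κ := 62 * K) (by positivity) (c := 4 * I / t0) (by positivity)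
    (er := 4 * ((M1 + K + 1) * ε) / t0) fun F hF hFs hFM _ => by
      have h1 := co_ii hD h ht0 ht hF hFs hFM hv z
      have h2 := co_ii hD h ht0 ht hF hFs hFM hv' y
      have h3 : pot (fun x => F x ^ 2 * s x) ψ =
          pot (fun x => F x ^ 2 * ph (ch P sp) (VV v) z x) ψ -
          pot (fun x => F x ^ 2 * ph (ch P sp) (VV v') y x) ψ := by
        have g1 := hs1.continuous
        have g2 := hs2.continuous
        have g3 := hF.continuous
        rw [← pot_sub (by fun_prop : Continuous _).locallyIntegrable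
          (by fun_prop : Continuous _).locallyIntegrable hc]
        simp only [hs, mul_sub]
      rw [h3]
      refine (abs_sub _ _).trans ((add_le_add h1 h2).trans (le_of_eq ?_))
      ring
  have c1 := hhy.smooth.continuous
  have c2 := hhz.smooth.continuous
  have c3 := hsd.continuous
  have p1 : pot (fun x => (hy x * hz x) ^ 2) ψ ≤ 1 := by
    have := pot_mono (U := fun x => (hy x * hz x) ^ 2) (U' := fun _ => 1)
      (by fun_prop : Continuous _).locallyIntegrable locInt_one hc fun x =>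
      pow_le_one₀ (mul_nonneg (hhy.nonneg x) (hhz.nonneg x))
        (mul_le_one₀ (hhy.le_one x) (hhz.nonneg x) (hhz.le_one x))
    exact this.trans h.one.le
  have p2 : pot (fun x => (hy x * (1 - hz x)) ^ 2) ψ ≤ D * r ^ 3 * nb ψ (hk (r ^ 2)) z := by
    unfold nb
    rw [← pot_const_mul]
    refine pot_mono (by fun_prop : Continuous _).locallyIntegrable
      (continuous_const.mul (nb_cont_ph _ (continuous_hk _) z)).locallyIntegrable hc fun x => ?_
    refine le_trans ?_ (hhz.cnt x)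
    have h1 := mul_le_one₀ (hhy.le_one x) (z0 x) (z1 x)
    have h2 := mul_le_of_le_one_left (z0 x) (hhy.le_one x)
    have h3 := mul_nonneg (hhy.nonneg x) (z0 x)
    exact (pow_le_of_le_one h3 h1 two_ne_zero).trans h2
  have p3 : pot (fun x => hy x ^ 2 * s x ^ 2) ψ ≤
      pot (fun x => 2 * ((hy x * hz x) ^ 2 * s x ^ 2) + 2 * ((hy x * (1 - hz x)) ^ 2 * s x ^ 2)) ψ :=
    pot_mono (by fun_prop : Continuous _).locallyIntegrable
      (by fun_prop : Continuous _).locallyIntegrable hc fun x => by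
      have h1 : 0 ≤ (hy x * s x * (2 * hz x - 1)) ^ 2 := sq_nonneg _
      linarith
  rw [pot_add (by fun_prop : Continuous _).locallyIntegrable
    (by fun_prop : Continuous _).locallyIntegrable hc, pot_const_mul, pot_const_mul] at p3
  have q1 := mul_le_mul_of_nonneg_left p1 (by positivity : 0 ≤ κ ^ 2 + 2 * κ * K)
  have q2 := mul_le_mul_of_nonneg_left p2 (by positivity : 0 ≤ (62 * K) ^ 2 + 2 * (62 * K) * K)
  have q3 := mul_le_mul_of_nonneg_left (add_le_add_left ha K)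
    (by positivity : 0 ≤ 4 * C * (2 * D / l ^ 2 + 2 * D / r ^ 2))
  have q4 := mul_le_mul_of_nonneg_left (add_le_add_left ha K)
    (by positivity : 0 ≤ 4 * (4 * I / t0) * (2 * D / l ^ 2 + 2 * D / r ^ 2))
  have q5 := mul_le_mul_of_nonneg_left hg (by positivity : 0 ≤ C / K)
  have q6 := mul_le_mul_of_nonneg_left hg (by positivity : 0 ≤ 4 * I / t0 / K)
  have e1 : 8 * (C + 4 * I / t0) / K * G = 2 * (C / K * (4 * G)) + 2 * (4 * I / t0 / K * (4 * G)) := by
    ring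
  have e2 : 32 * ((M1 + K + 1) * ε) / t0 = 8 * (4 * ((M1 + K + 1) * ε) / t0) := by ring
  rw [e1, e2]
  linarith

/-- a point deep inside the box close to a given point near the box -/
theorem co_clamp {L : ℝ} (hL : 4 ≤ L) {z0 : E} (h : ‖z0‖ ≤ L / 2 + 1) :
    ∃ z1 : E, ‖z1‖ ≤ L / 2 - 2 ∧ ‖z1 - z0‖ ≤ 3 := by
  refine ⟨fun k => max (-(L / 2 - 2)) (min (L / 2 - 2) (z0 k)), ?_, ?_⟩
  · refine (pi_norm_le_iff_of_nonneg (by linarith)).mpr fun k => ?_
    rw [Real.norm_eq_abs, abs_le]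
    exact ⟨le_max_left _ _, max_le (by linarith) (min_le_left _ _)⟩
  · refine (pi_norm_le_iff_of_nonneg (by norm_num)).mpr fun k => ?_
    have h1 := abs_le.mp ((norm_le_pi_norm z0 k).trans h)
    rw [Pi.sub_apply, Real.norm_eq_abs, abs_le]
    constructor
    · have : z0 k - 3 ≤ min (L / 2 - 2) (z0 k) := le_min (by linarith) (by linarith)
      linarith [le_max_right (-(L / 2 - 2)) (min (L / 2 - 2) (z0 k))]
    · have : max (-(L / 2 - 2)) (min (L / 2 - 2) (z0 k)) ≤ z0 k + 3 :=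
        max_le (by linarith) ((min_le_right _ _).trans (by linarith))
      linarith

theorem co_sup {f : E → ℝ} {M : ℝ} (h0 : ∀ z, 0 ≤ f z) (hM : ∀ z, f z ≤ M) :
    ∃ s : ℝ, 0 ≤ s ∧ (∀ z, f z ≤ s) ∧ ∀ u, (∀ z, f z ≤ u) → s ≤ u := by
  have hb : BddAbove (Set.range f) := ⟨M, by rintro _ ⟨z, rfl⟩; exact hM z⟩
  exact ⟨⨆ z, f z, (h0 0).trans (le_ciSup hb 0), le_ciSup hb, fun u hu => ciSup_le hu⟩

end Pool.Agent.Lib.MP_0655ed_mp
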