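import Pool.Agent.Lib.MP_0655ed_mp.ImpNum

namespace Pool.Agent.Lib.MP_0655ed_mp

theorem nz_div {b cm n X : ℝ} (hb : 1 ≤ b * cm) (hb0 : 0 ≤ b) (hn : 0 ≤ n) (h : cm * n ≤ X) :
    n ≤ b * X := by
  have h1 := mul_le_mul_of_nonneg_right hb hn
  have h2 := mul_le_mul_of_nonneg_left h hb0
  linarith

theorem nz_t {e x c C : ℝ} (he : 0 < e) (he1 : e ≤ 1) (hx : 0 ≤ x) (hc : c ≤ C) (hC : 0 ≤ C)
    {i j : ℕ} (h : i ≤ j) : c * (e ^ j * x) ≤ C * (e ^ i * x) :=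
  mul_le_mul hc (nm_m he he1 hx h) (by positivity) hC

theorem nz_pow {b : ℝ} (hb : 1 ≤ b) {i j : ℕ} (h : i ≤ j) : b ^ i ≤ b ^ j := pow_le_pow_right₀ hb h

theorem nz1 {b e p n S T : ℝ} (hb : 1 ≤ b) (he : 0 < e) (he1 : e ≤ 1) (hp : p ≤ b ^ 2)
    (hS : 0 ≤ S) (hT : 0 ≤ T)
    (h : n ≤ b * (3 * S + 2 * p * (1 / (e ^ 80) ^ 3 + (e ^ 80) ^ 2 * T))) :
    n * e ^ 240 ≤ 3 * b ^ 3 * (1 + T * e ^ 400 + S * e ^ 200) := by
  have h1 : n ≤ b * (3 * S + 2 * b ^ 2 * (1 / (e ^ 80) ^ 3 + (e ^ 80) ^ 2 * T)) :=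
    h.trans (by gcongr)
  have h2 := mul_le_mul_of_nonneg_right h1 (pow_pos he 240).le
  have h3 : b * (3 * S + 2 * b ^ 2 * (1 / (e ^ 80) ^ 3 + (e ^ 80) ^ 2 * T)) * e ^ 240 =
      3 * b ^ 1 * (e ^ 40 * (S * e ^ 200)) + 2 * b ^ 3 * (1 + T * e ^ 400) := by
    field_simp
  have h4 := nz_t he he1 (x := S * e ^ 200) (by positivity)
    (by linarith [nz_pow hb (i := 1) (j := 3) (by norm_num)] : 3 * b ^ 1 ≤ 3 * b ^ 3)
    (by positivity) (i := 0) (j := 40) (by norm_num)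
  have h5 : 0 ≤ b ^ 3 * (1 + T * e ^ 400) := by positivity
  rw [pow_zero] at h4
  linarith

theorem nz2 {b e p n S T B : ℝ} (hb : 1 ≤ b) (he : 0 < e) (he1 : e ≤ 1) (hp : p ≤ b ^ 2)
    (hS : 0 ≤ S) (hT : 0 ≤ T) (hB : e ^ 184 ≤ B)
    (h : n ≤ b * (6 * p * (1 / (e ^ 114) ^ 3 + 25 * (e ^ 114) ^ 2 * T) +
      (150 * p * (e ^ 114) ^ 2 * T + 3 * S) / B)) :
    n * e ^ 384 ≤ 300 * b ^ 3 * (e ^ 28 * (1 + T * e ^ 400) + S * e ^ 200) := by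
  have hB0 : 0 < B := (pow_pos he _).trans_le hB
  have h1 : n ≤ b * (6 * b ^ 2 * (1 / (e ^ 114) ^ 3 + 25 * (e ^ 114) ^ 2 * T) +
      (150 * b ^ 2 * (e ^ 114) ^ 2 * T + 3 * S) / e ^ 184) := by
    refine h.trans ?_
    have : (150 * p * (e ^ 114) ^ 2 * T + 3 * S) / B ≤
        (150 * b ^ 2 * (e ^ 114) ^ 2 * T + 3 * S) / B := by gcongr
    have h0 : (150 * b ^ 2 * (e ^ 114) ^ 2 * T + 3 * S) / B ≤
        (150 * b ^ 2 * (e ^ 114) ^ 2 * T + 3 * S) / e ^ 184 := by gcongr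
    have h5 : 6 * p * (1 / (e ^ 114) ^ 3 + 25 * (e ^ 114) ^ 2 * T) ≤
        6 * b ^ 2 * (1 / (e ^ 114) ^ 3 + 25 * (e ^ 114) ^ 2 * T) := by gcongr
    exact mul_le_mul_of_nonneg_left (by linarith) (by linarith)
  have h2 := mul_le_mul_of_nonneg_right h1 (pow_pos he 384).le
  have h3 : b * (6 * b ^ 2 * (1 / (e ^ 114) ^ 3 + 25 * (e ^ 114) ^ 2 * T) +
      (150 * b ^ 2 * (e ^ 114) ^ 2 * T + 3 * S) / e ^ 184) * e ^ 384 =
      6 * b ^ 3 * (e ^ 42 * 1) + 150 * b ^ 3 * (e ^ 212 * (T * e ^ 400)) +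
      150 * b ^ 3 * (e ^ 28 * (T * e ^ 400)) + 3 * b ^ 1 * (S * e ^ 200) := by
    field_simp; ring
  have h4 := nz_t he he1 zero_le_one (by linarith [pow_pos (by linarith : 0 < b) 3] :
    6 * b ^ 3 ≤ 300 * b ^ 3) (by positivity) (i := 28) (j := 42) (by norm_num)
  have h5 := nz_t he he1 (x := T * e ^ 400) (by positivity) (le_refl (150 * b ^ 3))
    (by positivity) (i := 28) (j := 212) (by norm_num)
  have b13 := nz_pow hb (i := 1) (j := 3) (by norm_num)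
  have b3 := pow_pos (by linarith : 0 < b) 3
  have h6 : 3 * b ^ 1 * (S * e ^ 200) ≤ 300 * b ^ 3 * (S * e ^ 200) :=
    mul_le_mul_of_nonneg_right (by linarith) (by positivity)
  linarith

theorem nz3 {b e p x S T B sB : ℝ} (hb : 1 ≤ b) (he : 0 < e) (he1 : e ≤ 1) (hp : p ≤ b ^ 2)
    (hS : 0 ≤ S) (hT : 0 ≤ T) (hB : e ^ 184 ≤ B) (hsB : e ^ 92 ≤ sB)
    (h : x ≤ 10 * (b * (6 * p * (1 / (e ^ 94) ^ 3 + 25 * (e ^ 94) ^ 2 * T)) / sB +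
      b * (150 * p * (e ^ 94) ^ 2 * T + 3 * S) / B)) :
    x * e ^ 400 ≤ 3000 * b ^ 3 * (e ^ 26 + e ^ 4 * (T * e ^ 400) + e ^ 16 * (S * e ^ 200)) := by
  have hB0 : 0 < B := (pow_pos he _).trans_le hB
  have hB1 : 0 < sB := (pow_pos he _).trans_le hsB
  have h1 : x ≤ 10 * (b * (6 * b ^ 2 * (1 / (e ^ 94) ^ 3 + 25 * (e ^ 94) ^ 2 * T)) / e ^ 92 +
      b * (150 * b ^ 2 * (e ^ 94) ^ 2 * T + 3 * S) / e ^ 184) := by
    refine h.trans ?_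
    have a1 : b * (6 * p * (1 / (e ^ 94) ^ 3 + 25 * (e ^ 94) ^ 2 * T)) / sB ≤
        b * (6 * b ^ 2 * (1 / (e ^ 94) ^ 3 + 25 * (e ^ 94) ^ 2 * T)) / sB := by gcongr
    have a2 : b * (6 * b ^ 2 * (1 / (e ^ 94) ^ 3 + 25 * (e ^ 94) ^ 2 * T)) / sB ≤
        b * (6 * b ^ 2 * (1 / (e ^ 94) ^ 3 + 25 * (e ^ 94) ^ 2 * T)) / e ^ 92 := by gcongr
    have a3 : b * (150 * p * (e ^ 94) ^ 2 * T + 3 * S) / B ≤
        b * (150 * b ^ 2 * (e ^ 94) ^ 2 * T + 3 * S) / B := by gcongr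
    have a4 : b * (150 * b ^ 2 * (e ^ 94) ^ 2 * T + 3 * S) / B ≤
        b * (150 * b ^ 2 * (e ^ 94) ^ 2 * T + 3 * S) / e ^ 184 := by gcongr
    linarith
  have h2 := mul_le_mul_of_nonneg_right h1 (pow_pos he 400).le
  have h3 : 10 * (b * (6 * b ^ 2 * (1 / (e ^ 94) ^ 3 + 25 * (e ^ 94) ^ 2 * T)) / e ^ 92 +
      b * (150 * b ^ 2 * (e ^ 94) ^ 2 * T + 3 * S) / e ^ 184) * e ^ 400 =
      60 * (b ^ 3 * e ^ 26) + 1500 * b ^ 3 * (e ^ 96 * (T * e ^ 400)) +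
      1500 * b ^ 3 * (e ^ 4 * (T * e ^ 400)) + 30 * b ^ 1 * (e ^ 16 * (S * e ^ 200)) := by
    field_simp; ring
  have h4 : 0 ≤ b ^ 3 * e ^ 26 := by positivity
  have h5 := nz_t he he1 (x := T * e ^ 400) (by positivity) (le_refl (1500 * b ^ 3))
    (by positivity) (i := 4) (j := 96) (by norm_num)
  have h6 := nz_t he he1 (x := S * e ^ 200) (by positivity)
    (by linarith [nz_pow hb (i := 1) (j := 3) (by norm_num), pow_pos (by linarith : 0 < b) 3] :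
      30 * b ^ 1 ≤ 3000 * b ^ 3) (by positivity) (i := 16) (j := 16) le_rfl
  linarith

/-- the error term of the local inequality -/
theorem nz_er {b e Ce Ct p Λ n x T u : ℝ} (hb : 1 ≤ b) (he : 0 < e) (he1 : e ≤ 1) (hCe : Ce ≤ b)
    (hCt : Ct ≤ b) (hp : p ≤ 4) (hp0 : 0 ≤ p) (hΛ0 : 0 ≤ Λ) (hΛ : Λ ≤ 4 * b / e ^ 100)
    (hn : 0 ≤ n) (hx : 0 ≤ x) (hT : 0 ≤ T) (hu0 : 0 ≤ u) (hu : u ≤ 1) :
    (Ce * (n / e ^ 93 + e ^ 93 * T) + 4 * p * (Ct * (Λ * n + x + u))) * e ^ 400 ≤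
      70 * b ^ 2 * (e ^ 60 * (n * e ^ 240) + x * e ^ 400 + e ^ 4 * (T * e ^ 400) + e ^ 26) := by
  have hb0 : 0 < b := by linarith
  have h1 : Ce * (n / e ^ 93 + e ^ 93 * T) + 4 * p * (Ct * (Λ * n + x + u)) ≤
      b * (n / e ^ 93 + e ^ 93 * T) + 4 * 4 * (b * (4 * b / e ^ 100 * n + x + 1)) := by
    have a1 : Ct * (Λ * n + x + u) ≤ b * (Λ * n + x + u) := by gcongr
    have a2 : b * (Λ * n + x + u) ≤ b * (4 * b / e ^ 100 * n + x + 1) := by gcongr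
    have a3 : p * (Ct * (Λ * n + x + u)) ≤ p * (b * (4 * b / e ^ 100 * n + x + 1)) :=
      mul_le_mul_of_nonneg_left (a1.trans a2) hp0
    have a4 : p * (b * (4 * b / e ^ 100 * n + x + 1)) ≤ 4 * (b * (4 * b / e ^ 100 * n + x + 1)) := by
      gcongr
    have a5 : Ce * (n / e ^ 93 + e ^ 93 * T) ≤ b * (n / e ^ 93 + e ^ 93 * T) := by gcongr
    linarith
  have h2 := mul_le_mul_of_nonneg_right h1 (pow_pos he 400).le
  have h3 : (b * (n / e ^ 93 + e ^ 93 * T) + 4 * 4 * (b * (4 * b / e ^ 100 * n + x + 1))) *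
      e ^ 400 = b ^ 1 * (e ^ 67 * (n * e ^ 240)) + b ^ 1 * (e ^ 93 * (T * e ^ 400)) +
      64 * b ^ 2 * (e ^ 60 * (n * e ^ 240)) + 16 * b ^ 1 * (x * e ^ 400) +
      16 * b ^ 1 * (e ^ 400 * 1) := by
    field_simp; ring
  have b12 := nz_pow hb (i := 1) (j := 2) (by norm_num)
  have b2 := pow_pos hb0 2
  have h4 := nz_t he he1 (x := n * e ^ 240) (by positivity) (by linarith : b ^ 1 ≤ 6 * b ^ 2)
    (by positivity) (i := 60) (j := 67) (by norm_num)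
  have h5 := nz_t he he1 (x := T * e ^ 400) (by positivity) (by linarith : b ^ 1 ≤ 70 * b ^ 2)
    (by positivity) (i := 4) (j := 93) (by norm_num)
  have h6 : 16 * b ^ 1 * (x * e ^ 400) ≤ 70 * b ^ 2 * (x * e ^ 400) :=
    mul_le_mul_of_nonneg_right (by linarith) (by positivity)
  have h7 := nz_t he he1 zero_le_one (by linarith : 16 * b ^ 1 ≤ 70 * b ^ 2)
    (by positivity) (i := 26) (j := 400) (by norm_num)
  linarith

theorem nz4 {b e S T Er R : ℝ} (hb : 1 ≤ b) (he : 0 < e) (hR : 0 ≤ R)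
    (h : T ≤ 2 * b * (S ^ 2 / 2 + Er)) (hE : Er * e ^ 400 ≤ 70 * b ^ 2 * R) :
    T * e ^ 400 ≤ 140 * b ^ 3 * ((S * e ^ 200) ^ 2 + R) := by
  have hb0 : 0 < b := by linarith
  have h1 := mul_le_mul_of_nonneg_right h (pow_pos he 400).le
  have h2 := mul_le_mul_of_nonneg_left hE (by positivity : 0 ≤ 2 * b)
  have b13 := nz_pow hb (i := 1) (j := 3) (by norm_num)
  have b3 := pow_pos hb0 3
  have h3 : b ^ 1 * (S * e ^ 200) ^ 2 ≤ 140 * b ^ 3 * (S * e ^ 200) ^ 2 :=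
    mul_le_mul_of_nonneg_right (by linarith) (by positivity)
  have h4 : 2 * b * (S ^ 2 / 2 + Er) * e ^ 400 =
      b ^ 1 * (S * e ^ 200) ^ 2 + 2 * b * (Er * e ^ 400) := by ring
  linarith

theorem nz6 {b e K c D A2 u : ℝ} (hb : 1 ≤ b) (he : 0 < e) (he1 : e ≤ 1) (hK : K = 1 / e ^ 200)
    (hc : c ≤ b) (hD : 0 ≤ D) (hu : u ≤ b)
    (h : A2 = 1023 * K ^ 2 + c / K * (3200 * b ^ 2 * D / e ^ 96) + 8 * u) :
    A2 * (e ^ 200) ^ 2 ≤ 3200 * b ^ 3 * (1 + e ^ 120 * (D * e ^ 384)) := by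
  have hb0 : 0 < b := by linarith
  have h1 : A2 ≤ 1023 * K ^ 2 + b / K * (3200 * b ^ 2 * D / e ^ 96) + 8 * b := by
    have : 0 < K := by rw [hK]; positivity
    rw [h]; gcongr
  have h2 := mul_le_mul_of_nonneg_right h1 (pow_pos (pow_pos he 200) 2).le
  have h3 : (1023 * K ^ 2 + b / K * (3200 * b ^ 2 * D / e ^ 96) + 8 * b) * (e ^ 200) ^ 2 =
      1023 + 3200 * b ^ 3 * (e ^ 120 * (D * e ^ 384)) + 8 * b ^ 1 * (e ^ 400 * 1) := by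
    rw [hK]; field_simp
  have h4 := nz_t he he1 zero_le_one
    (by linarith [nz_pow hb (i := 1) (j := 3) (by norm_num)] : 8 * b ^ 1 ≤ 8 * b ^ 3)
    (by positivity) (i := 0) (j := 400) (by norm_num)
  have h5 := nz_pow hb (i := 0) (j := 3) (by norm_num)
  simp only [pow_zero] at h4 h5
  linarith

theorem nz8 {b e K p sB B S T D tB n1 n2 : ℝ} (hb : 1 ≤ b) (he : 0 < e) (he1 : e ≤ 1)
    (hK : K = 1 / e ^ 200) (hp0 : 0 ≤ p) (hp : p ≤ b ^ 2) (hsB0 : 0 ≤ sB) (hsB : sB ≤ 2 * e ^ 92)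
    (hB : e ^ 184 ≤ B) (hS : 0 ≤ S) (hT : 0 ≤ T) (hD : 0 ≤ D) (ht0 : 0 ≤ tB) (ht : tB ≤ 25 / B * T)
    (h10 : 0 ≤ n1) (h20 : 0 ≤ n2) (hn1 : n1 ≤ D) (hn2 : n2 ≤ D)
    (h : K / 2 ≤ 3 * S + p * sB ^ 3 * (e ^ 97 * tB + n1 / e ^ 97 + e ^ 97 * n2 / B)) :
    e ^ 11 ≤ 400 * b ^ 2 * (e ^ 11 * (S * e ^ 200) + T * e ^ 400 + e ^ 6 * (D * e ^ 384)) := by
  have hb0 : 0 < b := by linarith
  have hB0 : 0 < B := (pow_pos he _).trans_le hB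
  have ht' : tB ≤ 25 / e ^ 184 * T := ht.trans (by gcongr)
  have h1 : K / 2 ≤ 3 * S + b ^ 2 * (2 * e ^ 92) ^ 3 *
      (e ^ 97 * (25 / e ^ 184 * T) + D / e ^ 97 + e ^ 97 * D / e ^ 184) := h.trans (by gcongr)
  have h2 := mul_le_mul_of_nonneg_right h1 (pow_pos he 211).le
  have h3 : (3 * S + b ^ 2 * (2 * e ^ 92) ^ 3 *
      (e ^ 97 * (25 / e ^ 184 * T) + D / e ^ 97 + e ^ 97 * D / e ^ 184)) * e ^ 211 =
      3 * (e ^ 11 * (S * e ^ 200)) + 200 * b ^ 2 * (T * e ^ 400) +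
      8 * (b ^ 2 * (e ^ 6 * (D * e ^ 384))) + 8 * b ^ 2 * (e ^ 16 * (D * e ^ 384)) := by
    field_simp; ring
  have h4 : K / 2 * e ^ 211 = e ^ 11 / 2 := by rw [hK]; field_simp
  have h5 := nz_t he he1 (x := D * e ^ 384) (by positivity) (le_refl (8 * b ^ 2))
    (by positivity) (i := 6) (j := 16) (by norm_num)
  have b2 : 1 ≤ b ^ 2 := one_le_pow₀ hb
  have h6 : 3 * (e ^ 11 * (S * e ^ 200)) ≤ 200 * b ^ 2 * (e ^ 11 * (S * e ^ 200)) :=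
    mul_le_mul_of_nonneg_right (by linarith) (by positivity)
  have h7 : 0 ≤ b ^ 2 * (e ^ 6 * (D * e ^ 384)) := by positivity
  linarith

theorem nz7a {b e K κ c Γ A D er u : ℝ} (hb : 1 ≤ b) (he : 0 < e) (he1 : e ≤ 1)
    (hK : K = 1 / e ^ 200) (hκ0 : 0 ≤ κ) (hκ : κ ≤ 5 * b ^ 2 / e ^ 186) (hc : c ≤ 3 * b)
    (hΓ0 : 0 ≤ Γ) (hΓ : Γ ≤ 4 * b ^ 2 / e ^ 170) (hA : 0 ≤ A) (hD : 0 ≤ D) (her : er ≤ b)
    (hu : u ≤ b) :
    (2 * (κ ^ 2 + 2 * κ * K) + 8 * c * Γ * (2 * A + K) +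
      8 * c / K * (3200 * b ^ 2 * D / e ^ 96) + 8 * er + 32 * u) * e ^ 400 ≤
      80000 * b ^ 4 * (e ^ 14 * (1 + A * e ^ 200 + D * e ^ 384)) := by
  have hb0 : 0 < b := by linarith
  have hK0 : 0 < K := by rw [hK]; positivity
  have h1 : 2 * (κ ^ 2 + 2 * κ * K) + 8 * c * Γ * (2 * A + K) +
      8 * c / K * (3200 * b ^ 2 * D / e ^ 96) + 8 * er + 32 * u ≤
      2 * ((5 * b ^ 2 / e ^ 186) ^ 2 + 2 * (5 * b ^ 2 / e ^ 186) * K) +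
      8 * (3 * b) * (4 * b ^ 2 / e ^ 170) * (2 * A + K) +
      8 * (3 * b) / K * (3200 * b ^ 2 * D / e ^ 96) + 8 * b + 32 * b := by gcongr
  have h2 := mul_le_mul_of_nonneg_right h1 (pow_pos he 400).le
  have h3 : (2 * ((5 * b ^ 2 / e ^ 186) ^ 2 + 2 * (5 * b ^ 2 / e ^ 186) * K) +
      8 * (3 * b) * (4 * b ^ 2 / e ^ 170) * (2 * A + K) +
      8 * (3 * b) / K * (3200 * b ^ 2 * D / e ^ 96) + 8 * b + 32 * b) * e ^ 400 =
      50 * b ^ 4 * (e ^ 28 * 1) + 20 * b ^ 2 * (e ^ 14 * 1) + 192 * b ^ 3 * (e ^ 30 * (A * e ^ 200)) +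
      96 * b ^ 3 * (e ^ 30 * 1) + 76800 * b ^ 3 * (e ^ 120 * (D * e ^ 384)) +
      40 * b ^ 1 * (e ^ 400 * 1) := by
    rw [hK]; field_simp; ring
  have b14 := nz_pow hb (i := 1) (j := 4) (by norm_num)
  have b24 := nz_pow hb (i := 2) (j := 4) (by norm_num)
  have b34 := nz_pow hb (i := 3) (j := 4) (by norm_num)
  have b4 := pow_pos hb0 4
  have t1 := nz_t he he1 zero_le_one (le_refl (50 * b ^ 4)) (by positivity) (i := 14) (j := 28)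
    (by norm_num)
  have t2 := nz_t he he1 zero_le_one (by linarith : 20 * b ^ 2 ≤ 20 * b ^ 4) (by positivity)
    (i := 14) (j := 14) (by norm_num)
  have t3 := nz_t he he1 (x := A * e ^ 200) (by positivity)
    (by linarith : 192 * b ^ 3 ≤ 80000 * b ^ 4) (by positivity) (i := 14) (j := 30) (by norm_num)
  have t4 := nz_t he he1 zero_le_one (by linarith : 96 * b ^ 3 ≤ 96 * b ^ 4) (by positivity)
    (i := 14) (j := 30) (by norm_num)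
  have t5 := nz_t he he1 (x := D * e ^ 384) (by positivity)
    (by linarith : 76800 * b ^ 3 ≤ 80000 * b ^ 4) (by positivity) (i := 14) (j := 120) (by norm_num)
  have t6 := nz_t he he1 zero_le_one (by linarith : 40 * b ^ 1 ≤ 40 * b ^ 4) (by positivity)
    (i := 14) (j := 400) (by norm_num)
  have t7 : 0 ≤ b ^ 4 * (e ^ 14 * 1) := by positivity
  linarith

theorem nz7 {b e K Cs D S T n x A DB Er Ah : ℝ} (hb : 1 ≤ b) (he : 0 < e) (he1 : e ≤ 1)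
    (hK : K = 1 / e ^ 200) (hCs0 : 0 ≤ Cs) (hCs : Cs ≤ b) (hD : D ≤ b) (hT : 0 ≤ T) (hn : 0 ≤ n)
    (hx : 0 ≤ x) (hA : 0 ≤ A) (hDB : 0 ≤ DB)
    (hE : Er * e ^ 400 ≤
      70 * b ^ 2 * (e ^ 60 * (n * e ^ 240) + x * e ^ 400 + e ^ 4 * (T * e ^ 400) + e ^ 26))
    (hAh : Ah * e ^ 400 ≤ 80000 * b ^ 4 * (e ^ 14 * (1 + A * e ^ 200 + DB * e ^ 384)))
    (h : S ^ 2 - Cs * (8 * e ^ 2 * S ^ 2 + 300 * n + 3 / e ^ 93 + 2 * Er) ≤
      Ah + 7936 * K ^ 2 * D * (e ^ 85) ^ 3 * (800 * n) + 2 / 5 * S ^ 2) :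
    (S * e ^ 200) ^ 2 ≤ 10 ^ 8 * b ^ 4 * (e ^ 2 * (S * e ^ 200) ^ 2 + x * e ^ 400 +
      e ^ 4 * (T * e ^ 400) + e ^ 14 * (1 + A * e ^ 200 + DB * e ^ 384 + n * e ^ 240)) := by
  have hb0 : 0 < b := by linarith
  have h1 : 7936 * K ^ 2 * D * (e ^ 85) ^ 3 * (800 * n) ≤
      7936 * K ^ 2 * b * (e ^ 85) ^ 3 * (800 * n) := by gcongr
  have h2 := mul_le_mul_of_nonneg_right (h.trans (add_le_add (add_le_add le_rfl h1) le_rfl))
    (pow_pos he 400).le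
  have h3 : (Ah + 7936 * K ^ 2 * b * (e ^ 85) ^ 3 * (800 * n) + 2 / 5 * S ^ 2) * e ^ 400 =
      Ah * e ^ 400 + 6348800 * b ^ 1 * (e ^ 15 * (n * e ^ 240)) + 2 / 5 * (S * e ^ 200) ^ 2 := by
    rw [hK]; field_simp; ring
  have h4 : (S ^ 2 - Cs * (8 * e ^ 2 * S ^ 2 + 300 * n + 3 / e ^ 93 + 2 * Er)) * e ^ 400 =
      (S * e ^ 200) ^ 2 - Cs * (8 * (e ^ 2 * (S * e ^ 200) ^ 2) + 300 * (e ^ 160 * (n * e ^ 240)) +
        3 * (e ^ 307 * 1) + 2 * (Er * e ^ 400)) := by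
    field_simp
  have b2 : 1 ≤ b ^ 2 := one_le_pow₀ hb
  have t1 := nz_t he he1 (x := n * e ^ 240) (by positivity) (by linarith : 300 ≤ 300 * b ^ 2)
    (by positivity) (i := 14) (j := 160) (by norm_num)
  have t2 := nz_t he he1 zero_le_one (by linarith : 3 ≤ 3 * b ^ 2)
    (by positivity) (i := 14) (j := 307) (by norm_num)
  have t3 := nz_t he he1 (x := n * e ^ 240) (by positivity) (le_refl (140 * b ^ 2))
    (by positivity) (i := 14) (j := 60) (by norm_num)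
  have t4 := nz_t he he1 zero_le_one (le_refl (140 * b ^ 2))
    (by positivity) (i := 14) (j := 26) (by norm_num)
  have t5 : 8 * (e ^ 2 * (S * e ^ 200) ^ 2) ≤ 8 * b ^ 2 * (e ^ 2 * (S * e ^ 200) ^ 2) :=
    mul_le_mul_of_nonneg_right (by linarith) (by positivity)
  obtain ⟨R, hR⟩ : ∃ R, R = e ^ 2 * (S * e ^ 200) ^ 2 + x * e ^ 400 + e ^ 4 * (T * e ^ 400) +
      e ^ 14 * (1 + A * e ^ 200 + DB * e ^ 384 + n * e ^ 240) := ⟨_, rfl⟩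
  have p1 : 0 ≤ e ^ 2 * (S * e ^ 200) ^ 2 := by positivity
  have p2 : 0 ≤ x * e ^ 400 := by positivity
  have p3 : 0 ≤ e ^ 4 * (T * e ^ 400) := by positivity
  have p4 : 0 ≤ e ^ 14 * (A * e ^ 200) := by positivity
  have p5 : 0 ≤ e ^ 14 * (DB * e ^ 384) := by positivity
  have p6 : 0 ≤ e ^ 14 * (n * e ^ 240) := by positivity
  have p7 : 0 ≤ e ^ 14 := by positivity
  have hR0 : 0 ≤ R := by rw [hR]; positivity
  have u1 : 8 * (e ^ 2 * (S * e ^ 200) ^ 2) + 300 * (e ^ 160 * (n * e ^ 240)) +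
      3 * (e ^ 307 * 1) + 2 * (Er * e ^ 400) ≤ 440 * b ^ 2 * R := by
    have := mul_le_mul_of_nonneg_left (by rw [hR]; linarith : 8 * (e ^ 2 * (S * e ^ 200) ^ 2) +
      440 * (e ^ 14 * (n * e ^ 240)) + 143 * (e ^ 14 * 1) + 140 * (x * e ^ 400) +
      140 * (e ^ 4 * (T * e ^ 400)) ≤ 440 * R) (by positivity : 0 ≤ b ^ 2)
    linarith
  have u2 := mul_le_mul_of_nonneg_left u1 hCs0
  have u3 : Cs * (440 * b ^ 2 * R) ≤ b * (440 * b ^ 2 * R) := by gcongr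
  have b14 := nz_pow hb (i := 1) (j := 4) (by norm_num)
  have b34 := nz_pow hb (i := 3) (j := 4) (by norm_num)
  have u4 : 440 * b ^ 3 * R ≤ 440 * b ^ 4 * R := mul_le_mul_of_nonneg_right (by linarith) hR0
  have u5 := nz_t he he1 (x := n * e ^ 240) (by positivity)
    (by linarith : 6348800 * b ^ 1 ≤ 6348800 * b ^ 4) (by positivity) (i := 14) (j := 15)
    (by norm_num)
  have u6 := mul_le_mul_of_nonneg_left (by rw [hR]; linarith :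
    80000 * (e ^ 14 * (1 + A * e ^ 200 + DB * e ^ 384)) + 6348800 * (e ^ 14 * (n * e ^ 240)) ≤
      6348800 * R) (by positivity : 0 ≤ b ^ 4)
  have u7 : 0 ≤ b ^ 4 * R := by positivity
  rw [← hR]
  linarith

end Pool.Agent.Lib.MP_0655ed_mp
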