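import Pool.Agent.Lib.MP_0655ed_mp.ImpCore2
import Pool.Agent.Lib.MP_0655ed_mp.ImpNum2

open Finset MeasureTheory Real Filter Topology

namespace Pool.Agent.Lib.MP_0655ed_mp

theorem co_sqrt {e : ℝ} (he : 0 < e) (k : ℕ) : √(e ^ (2 * k)) = e ^ k := by
  rw [mul_comm, pow_mul, Real.sqrt_sq (by positivity)]

/-- elementary facts on the scales -/
structure Sc (e : ℝ) : Prop where
  pos : 0 < e
  le : e ≤ 1 / 4

namespace Sc
variable {e : ℝ} (h : Sc e)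
include h
theorem le1 : e ≤ 1 := by linarith [h.le]
theorem p (k : ℕ) : 0 < e ^ k := pow_pos h.pos k
theorem m {i j : ℕ} (hij : i ≤ j) : e ^ j ≤ e ^ i := nm_p h.pos h.le1 hij
theorem e2 : e ^ 2 ≤ 1 / 16 := by nlinarith [h.pos, h.le]
theorem e3 : e ^ 3 ≤ 1 / 64 := by
  have := mul_le_mul h.e2 h.le h.pos.le (by norm_num)
  calc e ^ 3 = e ^ 2 * e := by ring
    _ ≤ _ := by linarith
theorem va : 16 * e ^ 186 ≤ e ^ 184 := by
  have := mul_le_mul_of_nonneg_right h.e2 (h.p 184).le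
  calc 16 * e ^ 186 = 16 * (e ^ 2 * e ^ 184) := by ring
    _ ≤ _ := by linarith
theorem a64 : e ^ 184 ≤ 1 / 64 := (h.m (by norm_num)).trans h.e3
theorem Bpos : 0 < e ^ 184 + e ^ 186 := by have := h.pos; positivity
theorem aB : e ^ 184 ≤ e ^ 184 + e ^ 186 := by linarith [h.p 186]
theorem B2 : e ^ 184 + e ^ 186 ≤ 2 * e ^ 184 := by linarith [h.va, h.p 186]
theorem B32 : e ^ 184 + e ^ 186 ≤ 1 / 32 := by linarith [h.B2, h.a64]
theorem Bv' : e ^ 184 + e ^ 186 ≤ e ^ 100 := by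
  have h1 : e ^ 184 ≤ e ^ 102 := h.m (by norm_num)
  have h2 := mul_le_mul_of_nonneg_right h.e2 (h.p 100).le
  have h3 : e ^ 102 = e ^ 2 * e ^ 100 := by ring
  linarith [h.B2, h.p 100]
theorem sv : √(e ^ 186) = e ^ 93 := co_sqrt h.pos 93
theorem sv' : √(e ^ 100) = e ^ 50 := co_sqrt h.pos 50
theorem sa : √(e ^ 184) = e ^ 92 := co_sqrt h.pos 92
theorem sB1 : e ^ 92 ≤ √(e ^ 184 + e ^ 186) := h.sa.symm.le.trans (Real.sqrt_le_sqrt h.aB)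
theorem sB2 : √(e ^ 184 + e ^ 186) ≤ 2 * e ^ 92 := by
  refine Real.sqrt_le_iff.mpr ⟨by have := h.pos; positivity, ?_⟩
  have : (2 * e ^ 92) ^ 2 = 4 * e ^ 184 := by ring
  linarith [h.B2, h.p 184]
theorem sBv : √((e ^ 184 + e ^ 186) / e ^ 186) ≤ 2 / e := by
  have he := h.pos
  refine Real.sqrt_le_iff.mpr ⟨by positivity, ?_⟩
  rw [div_le_iff₀ (h.p 186)]
  have : (2 / e) ^ 2 * e ^ 186 = 4 * e ^ 184 := by field_simp; ring
  linarith [h.B2, h.p 184]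
theorem rat : 8 * e ^ 186 / e ^ 184 = 8 * e ^ 2 := by have := h.pos; field_simp
end Sc

theorem co_kappa {b e K C t l : ℝ} (hb : 1 ≤ b) (h : Sc e) (hK : K = 1 / e ^ 200) (hC : C ≤ b)
    (ht : t ^ 2 ≤ 1 / e ^ 100) (hl : 1 / l ^ 2 ≤ b) :
    C * (1 / e ^ 186 + 1 / e ^ 100 + t ^ 2 + (e ^ 186 / (e ^ 85) ^ 2 + e ^ 100 / l ^ 2) * K) ≤
      5 * b ^ 2 / e ^ 186 := by
  have he := h.pos
  have h1 : 1 / e ^ 100 ≤ 1 / e ^ 186 := one_div_le_one_div_of_le (h.p _) (h.m (by norm_num))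
  have h2 : 1 / e ^ 184 ≤ 1 / e ^ 186 := one_div_le_one_div_of_le (h.p _) (h.m (by norm_num))
  have h3 : (e ^ 186 / (e ^ 85) ^ 2 + e ^ 100 / l ^ 2) * K =
      1 / e ^ 184 + 1 / l ^ 2 * (1 / e ^ 100) := by rw [hK]; field_simp
  have h4 : 1 / l ^ 2 * (1 / e ^ 100) ≤ b * (1 / e ^ 186) := by gcongr
  have h5 : 1 * (1 / e ^ 186) ≤ b * (1 / e ^ 186) := by gcongr
  have h6 : 0 ≤ 1 / l ^ 2 * (1 / e ^ 100) := by positivity
  rw [h3]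
  calc _ ≤ b * (1 / e ^ 186 + 1 / e ^ 100 + t ^ 2 + (1 / e ^ 184 + 1 / l ^ 2 * (1 / e ^ 100))) := by
        gcongr
    _ ≤ b * (5 * (b * (1 / e ^ 186))) := mul_le_mul_of_nonneg_left (by linarith) (by linarith)
    _ = _ := by ring

theorem co_lambda {b e K t l : ℝ} (hb : 1 ≤ b) (h : Sc e) (hK : K = 1 / e ^ 200)
    (ht : t ^ 2 ≤ 1 / e ^ 100) (hl : 1 / l ^ 2 ≤ b) :
    1 / e ^ 100 + t ^ 2 + e ^ 100 / l ^ 2 * K + 1 / l ^ 2 ≤ 4 * b / e ^ 100 := by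
  have he := h.pos
  have h3 : e ^ 100 / l ^ 2 * K = 1 / l ^ 2 * (1 / e ^ 100) := by rw [hK]; field_simp
  have h4 : 1 / l ^ 2 * (1 / e ^ 100) ≤ b * (1 / e ^ 100) := by gcongr
  have h5 : 1 * (1 / e ^ 100) ≤ b * (1 / e ^ 100) := by gcongr
  have h6 : b * 1 ≤ b * (1 / e ^ 100) := by
    gcongr
    exact one_le_one_div (h.p _) (nm_1 he h.le1 _)
  have h7 : 4 * b / e ^ 100 = 4 * (b * (1 / e ^ 100)) := by ring
  linarith

theorem co_gamma {b e D l : ℝ} (hb : 1 ≤ b) (h : Sc e) (hD0 : 0 ≤ D) (hD : D ≤ b)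
    (hl : 1 / l ^ 2 ≤ b) : 2 * D / l ^ 2 + 2 * D / (e ^ 85) ^ 2 ≤ 4 * b ^ 2 / e ^ 170 := by
  have he := h.pos
  have h1 : D * (1 / l ^ 2) ≤ b * b := by gcongr
  have h2 : b * b * 1 ≤ b * b * (1 / e ^ 170) := by
    gcongr
    exact one_le_one_div (h.p _) (nm_1 he h.le1 _)
  have h3 : D * (1 / e ^ 170) ≤ b * b * (1 / e ^ 170) := by
    gcongr
    nlinarith
  have h4 : 2 * D / l ^ 2 + 2 * D / (e ^ 85) ^ 2 =
      2 * (D * (1 / l ^ 2)) + 2 * (D * (1 / e ^ 170)) := by ring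
  have h5 : 4 * b ^ 2 / e ^ 170 = 4 * (b * b * (1 / e ^ 170)) := by ring
  linarith

variable {σ Sp ι : Type} [Fintype ι] [DecidableEq ι] [Fintype Sp]

theorem co_G {ψ : Wv ι Sp} (h : Cc ψ) {c : ι → ℝ} {cb b e DB : ℝ} (hc : ∀ j, |c j| ≤ cb)
    (hcb0 : 0 ≤ cb) (hcb : cb ≤ b) (he : Sc e) (hDB0 : 0 ≤ DB)
    (hDB : ∀ z, nb ψ (hk (e ^ 184 + e ^ 186)) z ≤ DB) (z : E) :
    pot (Gam (ph c (VV (e ^ 186)) z)) ψ ≤ 3200 * b ^ 2 * DB / e ^ 96 ∧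
    pot (Gam (ph c (VV (e ^ 100)) z)) ψ ≤ 3200 * b ^ 2 * DB / e ^ 96 := by
  have h0 := he.pos
  constructor
  · have h1 := pot_Gam_VV h hc (he.p 186) (D := (2 / e) ^ 3 * DB) (fun z =>
      (nb_le_mul h (continuous_hk _) (continuous_hk _) (hk_le_hk (he.p 186)
        (by linarith [he.p 184] : e ^ 186 ≤ e ^ 184 + e ^ 186)) z).trans
        (mul_le_mul (pow_le_pow_left₀ (Real.sqrt_nonneg _) he.sBv 3) (hDB z)
          (nb_nonneg _ (hk_nonneg _) _) (by positivity))) z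
    rw [he.sv] at h1
    refine h1.trans ?_
    have h2 : 400 * cb ^ 2 * ((2 / e) ^ 3 * DB) / e ^ 93 = 3200 * cb ^ 2 * DB / e ^ 96 := by
      field_simp; ring
    rw [h2]
    gcongr
  · have h1 := pot_Gam_VV h hc (he.p 100) (nb_hk_mono h he.Bpos he.Bv' hDB) z
    rw [he.sv'] at h1
    refine h1.trans ?_
    have h2 : e ^ 96 ≤ e ^ 50 := he.m (by norm_num)
    have h3 : 0 ≤ b := hcb0.trans hcb
    gcongr
    norm_num

end Pool.Agent.Lib.MP_0655ed_mp
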