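import Pool.Agent.Lib.MP_0655ed_mp.ImpCore3

open Finset MeasureTheory Real Filter Topology

namespace Pool.Agent.Lib.MP_0655ed_mp

variable {σ Sp ι Y : Type} [Fintype ι] [DecidableEq ι] [Fintype Sp] [Fintype Y] [Nonempty Y]
  {P : Species σ Sp} {sp : ι → σ} {L t e1 K ε I mb cm cb : ℝ} {x0 : E} {ψ : Wv ι Sp}

theorem co_weak {X c C R : ℝ} (h : X ≤ c * R) (hc : c ≤ C) (hR : 0 ≤ R) : X ≤ C * R :=
  h.trans (mul_le_mul_of_nonneg_right hc hR)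

theorem core_a (hD : Dat P I mb cm cb) (h : St P sp L t x0 e1 K ε ψ) {t0 : ℝ} (ht0 : 0 < t0)
    (ht : t0 ≤ |t|) {b e Cd Ce Ch Ct Cs Cl D l M1 : ℝ} (hb : 1 ≤ b) (he : Sc e)
    (hK : K = 1 / e ^ 200) (ht2 : t ^ 2 ≤ 1 / e ^ 100) (hL : 4 ≤ L)
    (hI : 0 ≤ I) (hmb0 : 0 < mb) (hcb0 : 0 ≤ cb) (hCd0 : 0 ≤ Cd) (hCe0 : 0 ≤ Ce) (hCh0 : 0 ≤ Ch)
    (hCt0 : 0 ≤ Ct) (hCs0 : 0 ≤ Cs) (hCl0 : 0 ≤ Cl) (hD0 : 0 ≤ D)
    (hCd : Cd ≤ b) (hCe : Ce ≤ b) (hCh : Ch ≤ b) (hCt : Ct ≤ b) (hCs : Cs ≤ b) (hCl : Cl ≤ b)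
    (hDb : D ≤ b) (hlb : 1 / l ^ 2 ≤ b) (hIb : 2 * I / t0 ≤ b) (htb : 1 / t0 ≤ b) (hmb : mb ≤ b)
    (hcm : 1 ≤ b * cm) (hcb : cb ≤ b)
    {cy : Y → E} {hh : Y → X ι → ℝ} (hhh : ∀ y, HoleFn D l (cy y) (hh y))
    (hhalf : ∀ x, 1 / 2 ≤ (Fintype.card Y : ℝ)⁻¹ * ∑ y, hh y x ^ 2)
    (hz : ∀ z : E, ∃ g : X ι → ℝ, HoleFn D (e ^ 85) z g)
    (hM1 : ∀ z x, |ph (ch P sp) (VV (e ^ 186)) z x| ≤ M1 / 2)
    (hM2 : ∀ z x, |ph (ch P sp) (VV (e ^ 100)) z x| ≤ M1 / 2)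
    (hε1 : (M1 + K + 1) * ε ≤ 1) (hε2 : (Fintype.card ι * hk (e ^ 184 + e ^ 186) 0 + 1) * ε ≤ 1)
    (hd : DensH (ch P sp) Cd ψ)
    (hes : ∀ T : ℝ, (∀ z, tb ψ (th (e ^ 184 + e ^ 186)) z ≤ T) → ∀ ω b : X ι → ℝ, Continuous ω →
      Continuous b → (∀ x, 0 ≤ ω x) → (∀ x, ω x ≤ 1) → ∀ z0 : E,
      (1 - 8 * e ^ 186 / e ^ 184) / 2 *
        pot (fun x => ω x * av2 (hk (e ^ 184)) (ch P sp) (e ^ 186) (b x) z0 x) ψ ≤
      4 * π * pot (fun x => ω x * ∑ i, th (e ^ 184 + e ^ 186) (x i - z0) *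
        (potl (ch P sp) i x - ch P sp i * b x)) ψ +
      pot (fun x => ω x * av2 (th (e ^ 184)) (ch P sp) (e ^ 186) (b x) z0 x) ψ / 2 +
      Ce * (nb ψ (th (e ^ 184 + e ^ 186)) z0 / √(e ^ 186) + √(e ^ 186) * T))
    (htau : ∀ y z0, (∑ i, ∑ k, pot (fun x => hh y x ^ 2 * th (e ^ 184 + e ^ 186) (x i - z0))
      (Dv (dir i k) ψ)) / (8 * mb) +
      pot (fun x => hh y x ^ 2 * ∑ i, th (e ^ 184 + e ^ 186) (x i - z0) *
        (potl (ch P sp) i x - ch P sp i * ph (ch P sp) (VV (e ^ 100)) (cy y) x)) ψ ≤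
      Ct * ((1 / e ^ 100 + t ^ 2 + e ^ 100 / l ^ 2 * K + 1 / l ^ 2) *
        nb ψ (th (e ^ 184 + e ^ 186)) z0 + nb ψ (xi (e ^ 184 + e ^ 186)) z0 +
        (Fintype.card ι * hk (e ^ 184 + e ^ 186) 0 + 1) * ε))
    (hhole : ∀ z y, ‖z‖ + e ^ 85 < L / 2 → ∀ F : X ι → ℝ, ContDiff ℝ (⊤ : ℕ∞) F → Sym sp F →
      (∀ x, F x ^ 2 ≤ M1 + K) →
      (∀ x, F x ≠ 0 → ∀ j, 2 * e ^ 85 ≤ ‖x j - z‖ ∧ 2 * l ≤ ‖x j - cy y‖) →
      |pot (fun x => F x ^ 2 * (ph (ch P sp) (VV (e ^ 186)) z x -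
        ph (ch P sp) (VV (e ^ 100)) (cy y) x)) ψ| ≤
      Ch * (1 / e ^ 186 + 1 / e ^ 100 + t ^ 2 +
        (e ^ 186 / (e ^ 85) ^ 2 + e ^ 100 / l ^ 2) * K) * pot (fun x => F x ^ 2) ψ +
      Ch * pot (Gam F) ψ + Ch * (M1 + K + 1) * ε)
    (hext : ∀ D' : ℝ, (∀ z, nb ψ (hk (1 / 12)) z ≤ D') → ∃ z0 : E, ‖z0‖ ≤ L / 2 + 1 ∧ ∀ z,
      gav (e ^ 184) (mm (ch P sp) (e ^ 186) (fun y x => hh y x ^ 2)
        (fun y => ph (ch P sp) (VV (e ^ 100)) (cy y)) ψ) z ≤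
      gav (e ^ 184) (mm (ch P sp) (e ^ 186) (fun y x => hh y x ^ 2)
        (fun y => ph (ch P sp) (VV (e ^ 100)) (cy y)) ψ) z0 + D' + 3 / √(e ^ 186))
    (hspr : ∀ m : E → ℝ, Continuous m → ∀ M S Er : ℝ, (∀ z, |m z| ≤ M) →
      (∀ z, gav (e ^ 184) m z ≤ S) → ∀ z0 z1 : E, ‖z1 - z0‖ ≤ 3 →
      S - Er ≤ ∫ z, th (e ^ 184) (z - z0) * m z → S - Cs * Er ≤ gav (e ^ 184 + 1 / 32) m z1)
    (hloc : ∀ B δ : ℝ, 0 < B → 0 < δ → ∀ z : E,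
      |pot (ph (ch P sp) vk z) ψ - pot (ph (ch P sp) (VV B) z) ψ| ≤ Cl * cb * √B ^ 3 *
      (δ * tb ψ (hk B) z + nb ψ (hk B) z / δ + δ * nb ψ (hk (2 * B)) z / B))
    (hnum : ∀ s τ ν β χ α : ℝ, 0 ≤ s → 0 ≤ τ → 0 ≤ β →
      ν ≤ 10 ^ 8 * b ^ 4 * (1 + τ + s) → β ≤ 10 ^ 8 * b ^ 4 * (e ^ 28 * (1 + τ) + s) →
      χ ≤ 10 ^ 8 * b ^ 4 * (e ^ 26 + e ^ 4 * τ + e ^ 16 * s) →
      τ ≤ 10 ^ 8 * b ^ 4 * (s ^ 2 + e ^ 60 * ν + χ + e ^ 4 * τ + e ^ 26) →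
      s ≤ 10 ^ 8 * b ^ 4 * α → α ^ 2 ≤ 10 ^ 8 * b ^ 4 * (1 + e ^ 120 * β) →
      s ^ 2 ≤ 10 ^ 8 * b ^ 4 * (e ^ 2 * s ^ 2 + χ + e ^ 4 * τ + e ^ 14 * (1 + α + β + ν)) →
      e ^ 11 ≤ 10 ^ 8 * b ^ 4 * (e ^ 11 * s + τ + e ^ 6 * β) → False) :
    |pot (ph (ch P sp) vk x0) ψ| ≤ K / 2 := by
  by_contra hbig
  have hn := h.tst.nice
  have hc := hn.cc
  have h0 := he.pos
  have h1 := he.le1
  have hb0 : 0 < b := by linarith
  have hK0 : 0 < K := by rw [hK]; positivity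
  have hε := h.eps_nonneg
  have hB := he.Bpos
  have hB1 : e ^ 184 + e ^ 186 ≤ 1 := by linarith [he.B32]
  have hccb : ∀ j, |ch P sp j| ≤ cb := fun j => hD.hcb _
  have hccm : ∀ j, cm ≤ |ch P sp j| := fun j => hD.hcm _
  have hp : cb * Cd ≤ b ^ 2 := by rw [sq]; gcongr
  have b04 := nz_pow hb (i := 0) (j := 4) (by norm_num)
  have b24 := nz_pow hb (i := 2) (j := 4) (by norm_num)
  have b34 := nz_pow hb (i := 3) (j := 4) (by norm_num)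
  rw [pow_zero] at b04
  have k1 : 3 * b ^ 3 ≤ 10 ^ 8 * b ^ 4 := by linarith only [b04, b34]
  have k2 : 300 * b ^ 3 ≤ 10 ^ 8 * b ^ 4 := by linarith only [b04, b34]
  have k3 : 3000 * b ^ 3 ≤ 10 ^ 8 * b ^ 4 := by linarith only [b04, b34]
  have k4 : 140 * b ^ 3 ≤ 10 ^ 8 * b ^ 4 := by linarith only [b04, b34]
  have k5 : 2 ≤ 10 ^ 8 * b ^ 4 := by linarith only [b04]
  have k6 : 3200 * b ^ 3 ≤ 10 ^ 8 * b ^ 4 := by linarith only [b04, b34]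
  have k8 : 400 * b ^ 2 ≤ 10 ^ 8 * b ^ 4 := by linarith only [b04, b24]
  have hB12 : e ^ 184 + e ^ 186 ≤ 1 / 12 := by linarith only [he.B32]
  have hB2 : e ^ 184 + e ^ 186 ≤ 2 * (e ^ 184 + e ^ 186) := by linarith only [hB]
  have ha32 : e ^ 184 ≤ 1 / 32 := by linarith only [he.a64]
  have hr2 : 0 < (e ^ 85) ^ 2 := by positivity
  have h32 : 1 / 32 ≤ e ^ 184 + 1 / 32 + (e ^ 85) ^ 2 := by linarith only [he.p 184, hr2]
  have hc3 : Ch + 4 * I / t0 ≤ 3 * b := by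
    have : 4 * I / t0 = 2 * (2 * I / t0) := by ring
    linarith only [this, hCh, hIb]
  have her : Ch * (M1 + K + 1) * ε ≤ b := by
    have hM10 : 0 ≤ M1 := by
      linarith only [abs_nonneg (ph (ch P sp) (VV (e ^ 100)) 0 0), hM2 0 0]
    have := mul_le_mul hCh hε1 (by positivity) hb0.le
    linarith only [this]
  have a4 : 1 ≤ 2 * b * (π / (4 * mb)) := by
    rw [← mul_div_assoc, one_le_div (by positivity)]
    have := mul_le_mul_of_nonneg_left Real.pi_gt_three.le hb0.le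
    linarith only [this, hmb, hb0]
  have hM10 : 0 ≤ M1 := by linarith only [abs_nonneg (ph (ch P sp) (VV (e ^ 100)) 0 0), hM2 0 0]
  have cω : ∀ y, Continuous fun x => hh y x ^ 2 := fun y => (hhh y).smooth.continuous.pow 2
  have cb' : ∀ y, Continuous (ph (ch P sp) (VV (e ^ 100)) (cy y)) :=
    fun y => nb_cont_ph _ (continuous_VV _) _
  have ω0 : ∀ y x, 0 ≤ hh y x ^ 2 := fun y x => sq_nonneg _
  have ω1 : ∀ y x, hh y x ^ 2 ≤ 1 := fun y x => pow_le_one₀ ((hhh y).nonneg x) ((hhh y).le_one x)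
  set m := mm (ch P sp) (e ^ 186) (fun y x => hh y x ^ 2)
    (fun y => ph (ch P sp) (VV (e ^ 100)) (cy y)) ψ with hm
  have mc : Continuous m := continuous_mm _ _ cω cb' hc
  have m0 : ∀ z, 0 ≤ m z := mm_nonneg _ _ _ ω0 ψ
  obtain ⟨Mm, hMm⟩ : ∃ M, ∀ z, |m z| ≤ M := mm_bdd _ (he.p _) cω cb' hc
  have g0 : ∀ z, 0 ≤ gav (e ^ 184) m z := fun z =>
    integral_nonneg fun w => mul_nonneg (hk_nonneg _ _) (m0 w)
  obtain ⟨S2, hS20, hS2, hS2'⟩ := co_sup g0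
    fun z => (le_abs_self _).trans (ex_gav_abs (he.p _) mc hMm z)
  obtain ⟨S, hS0, rfl⟩ : ∃ S : ℝ, 0 ≤ S ∧ S2 = S ^ 2 := ⟨√S2, Real.sqrt_nonneg _,
    (Real.sq_sqrt hS20).symm⟩
  obtain ⟨T, hT0, hT, hT'⟩ := co_sup (tb_nonneg ψ fun x => (th_pos hB x).le)
    (tb_le_const hn (continuous_th hB) (th_le hB))
  obtain ⟨n, hn0, hnn, hn'⟩ := co_sup (nb_nonneg ψ fun x => (th_pos hB x).le)
    (nb_le_const hc (continuous_th hB) (th_le hB))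
  obtain ⟨DB, hDB0, hDB, hDB'⟩ := co_sup (nb_nonneg ψ (hk_nonneg (e ^ 184 + e ^ 186)))
    (nb_le_const hc (continuous_hk _) (hk_le_zero hB))
  have hS : ∀ w, e ^ 184 + e ^ 186 ≤ w → ∀ z, |pot (ph (ch P sp) (VV w) z) ψ| ≤ 3 * S :=
    fun w hw z => phi_mean _ (he.p _) (he.p _) cω cb' ω0 hhalf hc h.one hS0 hS2 hw z
  have N1 := nz1 hb h0 h1 hp hS0 hT0 (hn' _ fun z => nz_div hcm hb0.le
    (nb_nonneg ψ (fun x => (th_pos hB x).le) z) (by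
      have := co_dens_th hn h.one hcb0 hccm hccb hd hB hT hS (he.p 80) z
      linarith only [this]))
  have hdk := fun (r : ℝ) (hr : 0 < r) (w : ℝ) (hw : e ^ 184 + e ^ 186 ≤ w) (z : E) =>
    nz_div hcm hb0.le (nb_nonneg ψ (hk_nonneg w) z)
      (co_dens_hk hn h.one hD.cpos hcb0 hCd0 hccm hccb hd hB hB1 hT hS hr hw z)
  have N2 := nz2 hb h0 h1 hp hS0 hT0 he.aB (hDB' _ fun z => by
    have := hdk _ (he.p 114) _ le_rfl z
    simpa only [mul_assoc] using this)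
  have hxi : ∀ z, nb ψ (xi (e ^ 184 + e ^ 186)) z ≤ 10 *
      (b * (6 * (cb * Cd) * (1 / (e ^ 94) ^ 3 + 25 * (e ^ 94) ^ 2 * T)) / √(e ^ 184 + e ^ 186) +
      b * (150 * (cb * Cd) * (e ^ 94) ^ 2 * T + 3 * S) / (e ^ 184 + e ^ 186)) := fun z =>
    nb_xi hc hB hB1 (by positivity) (by positivity) z fun w hw =>
      (hdk _ (he.p 94) w hw z).trans (le_of_eq (by ring))
  obtain ⟨ξ, hξ0, hξ, hξ'⟩ := co_sup (nb_nonneg ψ (xi_nonneg hB)) hxi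
  have N3 := nz3 hb h0 h1 hp hS0 hT0 he.aB he.sB1 (hξ' _ hxi)
  have hΛ0 : 0 ≤ 1 / e ^ 100 + t ^ 2 + e ^ 100 / l ^ 2 * K + 1 / l ^ 2 := by positivity
  have hE := nz_er hb h0 h1 hCe hCt Real.pi_le_four Real.pi_pos.le hΛ0
    (co_lambda hb he hK ht2 hlb) hn0 hξ0 hT0 (mul_nonneg (by have := hk_nonneg (e ^ 184 + e ^ 186) 0; positivity) hε) hε2
  obtain ⟨Er, hEr⟩ : ∃ Er, Er = Ce * (n / e ^ 93 + e ^ 93 * T) + 4 * π * (Ct *
    ((1 / e ^ 100 + t ^ 2 + e ^ 100 / l ^ 2 * K + 1 / l ^ 2) * n + ξ +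
      (Fintype.card ι * hk (e ^ 184 + e ^ 186) 0 + 1) * ε)) := ⟨_, rfl⟩
  rw [← hEr] at hE
  have hl : ∀ z0, (1 - 8 * e ^ 2) / 2 * gav (e ^ 184) m z0 +
      π / (4 * mb) * tb ψ (th (e ^ 184 + e ^ 186)) z0 ≤
      (∫ z, th (e ^ 184) (z - z0) * m z) / 2 + Er := by
    intro z0
    have := co_local hn (he.p 184) (he.p 186) hmb0 (fun y => (hhh y).smooth.continuous) cb' hhalf z0
      (U := Ce * (n / e ^ 93 + e ^ 93 * T))
      (W := Ct * ((1 / e ^ 100 + t ^ 2 + e ^ 100 / l ^ 2 * K + 1 / l ^ 2) * n + ξ +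
        (Fintype.card ι * hk (e ^ 184 + e ^ 186) 0 + 1) * ε))
      (fun y => (hes T hT _ _ (cω y) (cb' y) (ω0 y) (ω1 y) z0).trans (by
        rw [he.sv]
        have := hnn z0
        gcongr))
      (fun y => (htau y z0).trans (by
        have := hnn z0
        have := hξ z0
        gcongr))
    rw [he.rat] at this
    rw [hEr]
    linarith only [this]
  have h8 : 0 ≤ (1 - 8 * e ^ 2) / 2 := by linarith only [he.e2]
  have hH : ∀ z0, ∫ z, th (e ^ 184) (z - z0) * m z ≤ S ^ 2 := th_av_le (he.p _) mc hMm hS2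
  have hR0 : 0 ≤ e ^ 60 * (n * e ^ 240) + ξ * e ^ 400 + e ^ 4 * (T * e ^ 400) + e ^ 26 :=
    add_nonneg (add_nonneg (add_nonneg (mul_nonneg (he.p _).le (mul_nonneg hn0 (he.p _).le))
      (mul_nonneg hξ0 (he.p _).le)) (mul_nonneg (he.p _).le (mul_nonneg hT0 (he.p _).le)))
      (he.p _).le
  have N4 := nz4 (S := S) (Er := Er) hb h0 hR0 (hT' _ fun z => by
    have a1 := hl z
    have a2 := mul_nonneg h8 (g0 z)
    have a3 := hH z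
    exact nz_div a4 (by positivity) (tb_nonneg ψ (fun x => (th_pos hB x).le) z)
      (by linarith only [a1, a2, a3])) hE
  have hG := co_G hc hccb hcb0 hcb he hDB0 hDB
  have hu : (M1 + K + 1) * ε / t0 ≤ b := by
    refine le_trans ?_ htb
    gcongr
  obtain ⟨A2, hA2⟩ : ∃ A2, A2 = 1023 * K ^ 2 + 2 * I / t0 / K * (3200 * b ^ 2 * DB / e ^ 96) +
    8 * ((M1 + K + 1) * ε / t0) := ⟨_, rfl⟩
  have N6 := nz6 hb h0 h1 hK hIb hDB0 hu hA2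
  obtain ⟨A, hA0, rfl⟩ : ∃ A : ℝ, 0 ≤ A ∧ A2 = A ^ 2 := ⟨√A2, Real.sqrt_nonneg _,
    (Real.sq_sqrt (by rw [hA2]; positivity)).symm⟩
  have hsm : ∀ w, 0 < w → ∀ z, (∀ x, |ph (ch P sp) (VV w) z x| ≤ M1 / 2) →
      pot (Gam (ph (ch P sp) (VV w) z)) ψ ≤ 3200 * b ^ 2 * DB / e ^ 96 →
      pot (fun x => ph (ch P sp) (VV w) z x ^ 2) ψ ≤ A ^ 2 := by
    intro w hw z a1 a2
    have a3 := co_sm hD h ht0 ht hI hK0 hw z (M1 := M1) fun x => (a1 x).trans (by linarith only [hM10])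
    have a4 := mul_le_mul_of_nonneg_left a2 (by positivity : 0 ≤ 2 * I / t0 / K)
    rw [mul_div_assoc (8 : ℝ)] at a3
    linarith only [a3, a4, hA2]
  have hA1 := fun z => hsm _ (he.p 186) z (hM1 z) (hG z).1
  have hA2' := fun z => hsm _ (he.p 100) z (hM2 z) (hG z).2
  have N5 : S ≤ 2 * A := by
    refine (pow_le_pow_iff_left₀ hS0 (by positivity) two_ne_zero).mp
      (hS2' _ (gav_le (he.p _) mc hMm fun z => ?_))
    refine le_trans ?_ (ex_card_le (Y := Y) _ (sq_nonneg _))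
    exact mul_le_mul_of_nonneg_left (Finset.sum_le_sum fun y _ => co_diff_sq hc (cω y)
      (nb_cont_ph _ (continuous_VV _) _) (cb' y) (ω0 y) (ω1 y) (hA1 z) (hA2' _)) (by positivity)
  have N8 := nz8 hb h0 h1 hK (by positivity : 0 ≤ Cl * cb) (by rw [sq]; gcongr)
    (Real.sqrt_nonneg _) he.sB2 he.aB hS0 hT0 hDB0 (tb_nonneg ψ (hk_nonneg _) x0)
    (co_tb1 hn hB le_rfl hB1 hT x0) (nb_nonneg ψ (hk_nonneg _) x0) (nb_nonneg ψ (hk_nonneg _) x0)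
    (hDB x0) (nb_hk_mono hc hB hB2 hDB x0) (by
      have a1 := abs_le.mp (hloc _ _ hB (he.p 97) x0)
      have a2 := abs_le.mp (hS _ le_rfl x0)
      rcases lt_abs.mp (not_le.mp hbig) with a3 | a3 <;> linarith only [a1.1, a1.2, a2.1, a2.2, a3])
  obtain ⟨z0, hz0, hmax⟩ := hext (25 / (1 / 12) * n)
    (co_nb hc hB hB12 (by norm_num) hnn)
  obtain ⟨z1, hz1, hz10⟩ := co_clamp hL hz0
  rw [he.sv] at hmax
  have s1 := hS2' _ hmax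
  have s2 := hspr m mc Mm (S ^ 2) (8 * e ^ 2 * S ^ 2 + 300 * n + 3 / e ^ 93 + 2 * Er) hMm hS2
    z0 z1 hz10 (by
      have a1 := hl z0
      have a2 : 0 ≤ π / (4 * mb) * tb ψ (th (e ^ 184 + e ^ 186)) z0 :=
        mul_nonneg (by positivity) (tb_nonneg ψ (fun x => (th_pos hB x).le) z0)
      have a3 := mul_le_mul_of_nonneg_left (hS2 z0) (by positivity : 0 ≤ 8 * e ^ 2)
      linarith only [a1, a2, a3, s1])
  have hAh := nz7a hb h0 h1 hK (by positivity) (co_kappa hb he hK hCh ht2 hlb)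
    hc3 (by positivity) (co_gamma hb he hD0 hDb hlb) hA0 hDB0 her hu
  obtain ⟨Ah, hAh'⟩ : ∃ Ah, Ah = 2 * ((Ch * (1 / e ^ 186 + 1 / e ^ 100 + t ^ 2 +
      (e ^ 186 / (e ^ 85) ^ 2 + e ^ 100 / l ^ 2) * K)) ^ 2 + 2 * (Ch * (1 / e ^ 186 + 1 / e ^ 100 +
      t ^ 2 + (e ^ 186 / (e ^ 85) ^ 2 + e ^ 100 / l ^ 2) * K)) * K) +
      8 * (Ch + 4 * I / t0) * (2 * D / l ^ 2 + 2 * D / (e ^ 85) ^ 2) * (2 * A + K) +
      8 * (Ch + 4 * I / t0) / K * (3200 * b ^ 2 * DB / e ^ 96) + 8 * (Ch * (M1 + K + 1) * ε) +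
      32 * ((M1 + K + 1) * ε / t0) := ⟨_, rfl⟩
  rw [← hAh'] at hAh
  have hAh0 : 0 ≤ Ah := by rw [hAh']; positivity
  have hcN : 0 ≤ 7936 * K ^ 2 * D * (e ^ 85) ^ 3 := by positivity
  have cn := continuous_nb hc (continuous_hk ((e ^ 85) ^ 2))
  have n0 := nb_nonneg ψ (hk_nonneg ((e ^ 85) ^ 2))
  have n1 := nb_le_const hc (continuous_hk _) (hk_le_zero hr2)
  have s3 := inbox (he.p 184) ha32 mc
    (g := fun z => Ah + 7936 * K ^ 2 * D * (e ^ 85) ^ 3 * nb ψ (hk ((e ^ 85) ^ 2)) z)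
    (continuous_const.add (continuous_const.mul cn))
    (M := max Mm (Ah + 7936 * K ^ 2 * D * (e ^ 85) ^ 3 *
      (Fintype.card ι * hk ((e ^ 85) ^ 2) 0 * nr ψ))) m0
    (fun z => ((le_abs_self _).trans (hMm z)).trans (le_max_left _ _))
    (fun z => add_nonneg hAh0 (mul_nonneg hcN (n0 z)))
    (fun z => (add_le_add le_rfl (mul_le_mul_of_nonneg_left (n1 z) hcN)).trans (le_max_right _ _))
    hS2 z1 fun z hzz => by
      obtain ⟨g, hg⟩ := hz z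
      have a1 : ‖z‖ + e ^ 85 < L / 2 := by
        have := norm_le_norm_add_norm_sub' z z1
        linarith only [nm_1 h0 h1 85, this, hz1, hzz]
      refine le_trans ?_ (ex_card_le (Y := Y) _ (add_nonneg hAh0 (mul_nonneg hcN (n0 z))))
      refine mul_le_mul_of_nonneg_left (Finset.sum_le_sum fun y _ => ?_) (by positivity)
      have a2 := co_box hD h ht0 ht hI hK0 (he.p 186) (he.p 100) hg (hhh y) hA0 (by positivity)
        hCh0 (M1 := M1) (fun x => (abs_sub _ _).trans (by linarith only [hM1 z x, hM2 (cy y) x]))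
        (hA1 z) (hA2' _) (hG z).1 (hG _).2 (hhole z y a1)
      rw [mul_div_assoc (32 : ℝ)] at a2
      rw [hAh']
      exact a2
  have hw : 0 < e ^ 184 + 1 / 32 := by positivity
  rw [ex_gav_add hw continuous_const
    (m' := fun z => 7936 * K ^ 2 * D * (e ^ 85) ^ 3 * nb ψ (hk ((e ^ 85) ^ 2)) z)
    (continuous_const.mul cn) (M := |Ah|) (fun _ => le_rfl)
    (M' := 7936 * K ^ 2 * D * (e ^ 85) ^ 3 * (Fintype.card ι * hk ((e ^ 85) ^ 2) 0 * nr ψ))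
    (fun z => by
      rw [abs_of_nonneg (mul_nonneg hcN (n0 z))]
      exact mul_le_mul_of_nonneg_left (n1 z) hcN), ex_gav_const hw, ex_gav_mul,
    gav_nb hc hw hr2] at s3
  have s4 : nb ψ (hk (e ^ 184 + 1 / 32 + (e ^ 85) ^ 2)) z1 ≤ 800 * n :=
    (nb_hk_mono hc (by norm_num) h32
      (co_nb hc hB he.B32 (by norm_num) hnn) z1).trans (le_of_eq (by ring))
  have s5 := mul_le_mul_of_nonneg_left s4 hcN
  have N7 := nz7 (S := S) hb h0 h1 hK hCs0 hCs hDb hT0 hn0 hξ0 hA0 hDB0 hE hAh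
    (s2.trans (s3.trans (add_le_add (add_le_add le_rfl s5) le_rfl)))
  have q1 : 0 ≤ S * e ^ 200 := mul_nonneg hS0 (he.p _).le
  have q2 : 0 ≤ T * e ^ 400 := mul_nonneg hT0 (he.p _).le
  have q3 : 0 ≤ DB * e ^ 384 := mul_nonneg hDB0 (he.p _).le
  have q4 : 0 ≤ A * e ^ 200 := mul_nonneg hA0 (he.p _).le
  have q5 := fun (k : ℕ) (y : ℝ) (hy : 0 ≤ y) => mul_nonneg (he.p k).le hy
  refine hnum (S * e ^ 200) (T * e ^ 400) (n * e ^ 240) (DB * e ^ 384) (ξ * e ^ 400) (A * e ^ 200)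
    q1 q2 q3 (co_weak N1 k1 (by linarith only [q1, q2]))
    (co_weak N2 k2 (add_nonneg (q5 _ _ (by linarith only [q2])) q1))
    (co_weak N3 k3 (add_nonneg (add_nonneg (he.p _).le (q5 _ _ q2)) (q5 _ _ q1)))
    ?_ ?_ ?_ N7 (co_weak N8 k8 (add_nonneg (add_nonneg (q5 _ _ q1) q2) (q5 _ _ q3)))
  · refine (co_weak N4 k4 (add_nonneg (sq_nonneg _) hR0)).trans (le_of_eq ?_)
    simp only [add_assoc]
  · refine co_weak (c := 2) ?_ k5 q4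
    have := mul_le_mul_of_nonneg_right N5 (he.p 200).le
    linarith only [this]
  · rw [mul_pow]
    exact co_weak N6 k6 (add_nonneg zero_le_one (q5 _ _ q3))

end Pool.Agent.Lib.MP_0655ed_mp
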