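import Pool.Agent.Lib.MP_0655ed_mp.ImpNb

open Finset MeasureTheory Real Filter Topology

set_option linter.unusedSectionVars false

namespace Pool.Agent.Lib.MP_0655ed_mp

variable {Sp ι : Type} [Fintype ι] [DecidableEq ι] [Fintype Sp] {ψ : Wv ι Sp}

theorem cv_nonneg {μ : E → ℝ} (h0 : ∀ w, 0 ≤ μ w) (x : E) : 0 ≤ cv μ x :=
  integral_nonneg fun w => mul_nonneg (h0 w) (vk_nonneg _)

theorem continuous_cv {μ : E → ℝ} (hc : Continuous μ) (hi : Integrable μ) {M : ℝ}
    (hM : ∀ w, |μ w| ≤ M) : Continuous (cv μ) := by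
  let v2 : E → ℝ := fun z => (max (√(r2 z)) 1)⁻¹
  have h2c : Continuous v2 :=
    ((contDiff_r2.continuous.sqrt).max continuous_const).inv₀ fun z =>
      (lt_of_lt_of_le one_pos (le_max_right _ _)).ne'
  have h2b : ∀ z, ‖v2 z‖ ≤ 1 := fun z => by
    have h1 : (1 : ℝ) ≤ max (√(r2 z)) 1 := le_max_right _ _
    rw [Real.norm_eq_abs, abs_of_nonneg (by positivity)]
    exact inv_le_one_of_one_le₀ h1
  have h1i : Integrable fun z => vk z - v2 z := by
    refine (locInt_vk.sub h2c.locallyIntegrable).integrableOn_isCompact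
      (isCompact_closedBall (0 : E) 1) |>.integrable_of_forall_notMem_eq_zero fun z hz => ?_
    rw [mem_closedBall_zero_iff, not_le] at hz
    have h1 : 1 ≤ √(r2 z) := by
      rw [Real.one_le_sqrt]
      have := norm_sq_le_r2 z
      nlinarith
    simp only [Pi.sub_apply, v2, vk_eq, max_eq_left h1, sub_self]
  have hb1 : BddAbove (Set.range fun x => ‖μ x‖) := ⟨M, by rintro _ ⟨x, rfl⟩; exact hM x⟩
  have hb2 : BddAbove (Set.range fun x => ‖v2 x‖) := ⟨1, by rintro _ ⟨x, rfl⟩; exact h2b x⟩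
  have c1 := hb1.continuous_convolution_left_of_integrable (ContinuousLinearMap.mul ℝ ℝ) hc h1i
  have c2 := hb2.continuous_convolution_right_of_integrable (ContinuousLinearMap.mul ℝ ℝ) hi h2c
  refine (c1.add c2).congr fun x => ?_
  simp only [Pi.add_apply, convolution_mul, cv]
  have i2 : Integrable fun w => μ w * v2 (x - w) :=
    hi.mul_bdd (c := 1) (h2c.comp (continuous_const.sub continuous_id)).aestronglyMeasurable
      (ae_of_all _ fun w => h2b _)
  have i1 : Integrable fun w => μ w * (vk (x - w) - v2 (x - w)) := by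
    simp only [mul_sub]
    exact (integrable_mul_vk hc hi hM x).sub i2
  rw [← integral_add i1 i2]
  exact integral_congr_ae (ae_of_all _ fun w => by ring)

theorem cv_fubini_one {G : X ι → ℝ} (hG : Continuous G) (hψ : Cc ψ) {μ : E → ℝ}
    (hc : Continuous μ) (hi : Integrable μ) (h0 : ∀ w, 0 ≤ μ w) {M : ℝ} (hM : ∀ w, μ w ≤ M)
    (z : E) (j : ι) (τ : ι → Sp) :
    Integrable (fun p : X ι × E => μ p.2 * (G p.1 * vk (p.1 j - (z + p.2)) * ‖ψ τ p.1‖ ^ 2))
      (volume.prod volume) := by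
  have hM' : ∀ w, |μ w| ≤ M := fun w => (abs_of_nonneg (h0 w)).trans_le (hM w)
  have hm : Measurable
      fun p : X ι × E => μ p.2 * (G p.1 * vk (p.1 j - (z + p.2)) * ‖ψ τ p.1‖ ^ 2) :=
    (hc.measurable.comp measurable_snd).mul (((hG.measurable.comp measurable_fst).mul
      (measurable_vk.comp (by fun_prop))).mul
      ((((hψ τ).1.norm.pow 2).measurable).comp measurable_fst))
  rw [integrable_prod_iff hm.aestronglyMeasurable]
  constructor
  · refine ae_of_all _ fun x => ?_
    refine ((integrable_mul_vk hc hi hM' (x j - z)).const_mul (G x * ‖ψ τ x‖ ^ 2)).congr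
      (ae_of_all _ fun w => ?_)
    simp only [sub_sub]
    ring
  · have h1 : Continuous fun x : X ι => |G x| * cv μ (x j - z) :=
      hG.abs.mul ((continuous_cv hc hi hM').comp ((continuous_apply j).sub continuous_const))
    refine (integrable_pot h1.locallyIntegrable hψ τ).congr (ae_of_all _ fun x => ?_)
    simp only [cv, ← integral_const_mul, ← integral_mul_const]
    refine integral_congr_ae (ae_of_all _ fun w => ?_)
    simp only [sub_sub, norm_mul, Real.norm_eq_abs, abs_of_nonneg (h0 w),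
      abs_of_nonneg (vk_nonneg _), abs_pow, abs_norm]
    ring

/-- mixtures of point potentials -/
theorem pot_cv_le {c : ι → ℝ} {G : X ι → ℝ} (hG : Continuous G) (hψ : Cc ψ) {R : ℝ}
    (hR : ∀ z, |pot (fun x => G x * ph c vk z x) ψ| ≤ R) {μ : E → ℝ} (hc : Continuous μ)
    (hi : Integrable μ) (h0 : ∀ w, 0 ≤ μ w) {M : ℝ} (hM : ∀ w, μ w ≤ M) (z : E) :
    |pot (fun x => G x * ph c (cv μ) z x) ψ| ≤ (∫ w, μ w) * R := by
  have hM' : ∀ w, |μ w| ≤ M := fun w => (abs_of_nonneg (h0 w)).trans_le (hM w)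
  have h1 : ∀ τ, Integrable
      (fun p : X ι × E => μ p.2 * (G p.1 * ph c vk (z + p.2) p.1 * ‖ψ τ p.1‖ ^ 2))
      (volume.prod volume) := fun τ => by
    refine (integrable_finsetSum Finset.univ fun j _ =>
      (cv_fubini_one hG hψ hc hi h0 hM z j τ).const_mul (c j)).congr (ae_of_all _ fun p => ?_)
    simp only [ph, Finset.mul_sum, Finset.sum_mul]
    exact Finset.sum_congr rfl fun j _ => by ring
  have h2 : pot (fun x => G x * ph c (cv μ) z x) ψ =
      ∫ w, μ w * pot (fun x => G x * ph c vk (z + w) x) ψ := by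
    simp only [pot, Finset.mul_sum, ← integral_const_mul]
    rw [integral_finsetSum _ fun τ _ => (h1 τ).integral_prod_right]
    refine Finset.sum_congr rfl fun τ _ => ?_
    rw [← integral_integral_swap (h1 τ)]
    refine integral_congr_ae (ae_of_all _ fun x => ?_)
    have h3 : ∀ w, μ w * (G x * ph c vk (z + w) x * ‖ψ τ x‖ ^ 2) =
        ∑ j, G x * ‖ψ τ x‖ ^ 2 * c j * (μ w * vk (x j - z - w)) := fun w => by
      simp only [ph, Finset.mul_sum, Finset.sum_mul, sub_sub]
      exact Finset.sum_congr rfl fun j _ => by ring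
    simp only [h3]
    rw [integral_finsetSum _ fun j _ => (integrable_mul_vk hc hi hM' (x j - z)).const_mul _]
    simp only [integral_const_mul, ph, cv, Finset.mul_sum, Finset.sum_mul]
    exact Finset.sum_congr rfl fun j _ => by ring
  rw [h2, ← integral_mul_const, ← Real.norm_eq_abs]
  refine norm_integral_le_of_norm_le (hi.mul_const R) (ae_of_all _ fun w => ?_)
  rw [norm_mul, Real.norm_eq_abs, Real.norm_eq_abs, abs_of_nonneg (h0 w)]
  exact mul_le_mul_of_nonneg_left (hR _) (h0 w)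

theorem pot_VV_le {c : ι → ℝ} {G : X ι → ℝ} (hG : Continuous G) (hψ : Cc ψ) {R : ℝ}
    (hR : ∀ z, |pot (fun x => G x * ph c vk z x) ψ| ≤ R) {v : ℝ} (hv : 0 < v) (z : E) :
    |pot (fun x => G x * ph c (VV v) z x) ψ| ≤ R := by
  have := pot_cv_le hG hψ hR (continuous_hk v) (integrable_hk hv) (hk_nonneg v) (hk_le_zero hv) z
  rwa [cv_hk hv, integral_hk hv, one_mul] at this

theorem Orb.sq_cont {l : ℝ} {f : E → ℂ} (h : Orb l f) : Continuous fun w => ‖f w‖ ^ 2 :=
  h.smooth.continuous.norm.pow 2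

theorem Orb.sq_compact {l : ℝ} {f : E → ℂ} (h : Orb l f) :
    HasCompactSupport fun w => ‖f w‖ ^ 2 := by
  refine HasCompactSupport.intro (isCompact_closedBall (0 : E) l) fun z hz => ?_
  by_contra h0
  exact hz (mem_closedBall_zero_iff.mpr (h.supp z fun h1 => h0 (by simp [h1])))

theorem Orb.sq_int {l : ℝ} {f : E → ℂ} (h : Orb l f) : Integrable fun w => ‖f w‖ ^ 2 :=
  h.sq_cont.integrable_of_hasCompactSupport h.sq_compact

theorem Orb.sq_bdd {l : ℝ} {f : E → ℂ} (h : Orb l f) : ∃ M, ∀ w, |‖f w‖ ^ 2| ≤ M :=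
  h.sq_cont.bounded_above_of_compact_support h.sq_compact

theorem Orb.cont_cv {l : ℝ} {f : E → ℂ} (h : Orb l f) :
    Continuous (cv fun w => ‖f w‖ ^ 2) :=
  continuous_cv h.sq_cont h.sq_int h.sq_bdd.choose_spec

/-- replacing the orbital average by the Gaussian average -/
theorem pot_gorb_le {c : ι → ℝ} {G : X ι → ℝ} (hG : Continuous G) (hψ : Cc ψ) {R : ℝ}
    (hR : ∀ z, |pot (fun x => G x * ph c vk z x) ψ| ≤ R) {D v r Z : ℝ} (hv : 0 < v) {f : E → ℂ}
    (hf : GOrb D v r f Z) (z : E) :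
    |pot (fun x => G x * ph c (VV v) z x) ψ -
      pot (fun x => G x * ph c (cv fun w => ‖f w‖ ^ 2) z x) ψ| ≤ 2 * (1 - Z) * R := by
  obtain ⟨M, hM⟩ := hf.orb.sq_bdd
  have hZ : 0 ≤ Z := by linarith [hf.half]
  have hZ1 := hf.le_one
  set μ : E → ℝ := fun w => hk v w - Z * ‖f w‖ ^ 2 with hμ
  have hc : Continuous μ := (continuous_hk v).sub (continuous_const.mul hf.orb.sq_cont)
  have hi : Integrable μ := (integrable_hk hv).sub (hf.orb.sq_int.const_mul Z)
  have h0 : ∀ w, 0 ≤ μ w := fun w => sub_nonneg.mpr (hf.dom w)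
  have hb : ∀ w, μ w ≤ hk v 0 := fun w =>
    (sub_le_self _ (by positivity)).trans (hk_le_zero hv w)
  have hb' : ∀ w, |μ w| ≤ hk v 0 := fun w => (abs_of_nonneg (h0 w)).trans_le (hb w)
  have hI : ∫ w, μ w = 1 - Z := by
    rw [hμ, integral_sub (integrable_hk hv) (hf.orb.sq_int.const_mul Z), integral_hk hv,
      integral_const_mul, hf.orb.norm, mul_one]
  have hA := pot_cv_le hG hψ hR hf.orb.sq_cont hf.orb.sq_int (fun _ => by positivity)
    (fun w => (le_abs_self _).trans (hM w)) z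
  have hB := pot_cv_le hG hψ hR hc hi h0 hb z
  rw [hf.orb.norm, one_mul] at hA
  rw [hI] at hB
  have h1 : ∀ x, VV v x = Z * cv (fun w => ‖f w‖ ^ 2) x + cv μ x := fun x => by
    rw [← cv_hk hv]
    simp only [cv]
    rw [← integral_const_mul, ← integral_add
      ((integrable_mul_vk hf.orb.sq_cont hf.orb.sq_int hM x).const_mul Z)
      (integrable_mul_vk hc hi hb' x)]
    exact integral_congr_ae (ae_of_all _ fun w => by simp only [hμ]; ring)
  have hl : ∀ g : E → ℝ, Continuous g → LocallyIntegrable fun x : X ι => G x * ph c g z x :=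
    fun g hg => (hG.mul ((continuous_ph c hg).comp
      (continuous_const.prodMk continuous_id))).locallyIntegrable
  have h2 : pot (fun x => G x * ph c (VV v) z x) ψ =
      Z * pot (fun x => G x * ph c (cv fun w => ‖f w‖ ^ 2) z x) ψ +
        pot (fun x => G x * ph c (cv μ) z x) ψ := by
    rw [← pot_const_mul, ← pot_add (U := fun x => Z * (G x * ph c (cv fun w => ‖f w‖ ^ 2) z x))
      ((hl _ hf.orb.cont_cv).smul Z) (hl _ (continuous_cv hc hi hb')) hψ]
    congr 1
    funext x
    simp only [ph, h1, Finset.mul_sum, ← Finset.sum_add_distrib]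
    exact Finset.sum_congr rfl fun j _ => by ring
  rw [h2]
  rw [abs_le] at hA hB ⊢
  constructor <;> nlinarith [hA.1, hA.2, hB.1, hB.2]

end Pool.Agent.Lib.MP_0655ed_mp
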