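import Pool.Agent.Lib.MP_0655ed_mp.Final

open Finset MeasureTheory Real

namespace Pool.Agent.Lib.MP_0655ed_mp

variable {σ Sp ι : Type}

/-- squared Euclidean length -/
noncomputable def r2 (x : E) : ℝ := ∑ k, x k ^ 2

/-- heat kernel -/
noncomputable def hk (u : ℝ) (x : E) : ℝ := (√(4 * π * u))⁻¹ ^ 3 * exp (-r2 x / (4 * u))

noncomputable def Fk (k : ℕ) (t : ℝ) : ℝ := ∫ s in (0 : ℝ)..1, s ^ (2 * k) * exp (-t * s ^ 2)

/-- Coulomb kernel smoothed by the heat kernel -/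
noncomputable def VV (u : ℝ) (x : E) : ℝ := (√(π * u))⁻¹ * Fk 0 (r2 x / (4 * u))

noncomputable def Th (k : ℕ) (b t : ℝ) : ℝ :=
  ∫ r in Set.Ioi (0 : ℝ), exp (-r) *
    ((√(4 * π * (b + r)))⁻¹ ^ 3 * (4 * (b + r))⁻¹ ^ k * exp (-t / (4 * (b + r))))

/-- Yukawa kernel smoothed by the heat kernel -/
noncomputable def th (b : ℝ) (x : E) : ℝ := Th 0 b (r2 x)

noncomputable def xi (b : ℝ) (x : E) : ℝ := 6 * Th 1 b (r2 x)

/-- Coulomb potential of a density -/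
noncomputable def cv (μ : E → ℝ) (x : E) : ℝ := ∫ w, μ w * vk (x - w)

/-- unit vector -/
def ee (k : Fin 3) : E := Pi.single k 1

/-- first derivatives of `VV` -/
noncomputable def V1 (u : ℝ) (k : Fin 3) (x : E) : ℝ :=
  -((√(π * u))⁻¹ * (x k / (2 * u)) * Fk 1 (r2 x / (4 * u)))

/-- time derivative of `hk` -/
noncomputable def hkt (u : ℝ) (x : E) : ℝ := hk u x * (r2 x / (4 * u ^ 2) - 3 / (2 * u))

/-- Gaussian average of a function of position -/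
noncomputable def gav (w : ℝ) (m : E → ℝ) (z0 : E) : ℝ := ∫ z, hk w (z - z0) * m z

section
variable [Fintype ι]

/-- one-body sum centred at `z` -/
noncomputable def ph (c : ι → ℝ) (g : E → ℝ) (z : E) (x : X ι) : ℝ := ∑ j, c j * g (x j - z)

/-- squared gradient -/
noncomputable def Gam [DecidableEq ι] (F : X ι → ℝ) (x : X ι) : ℝ :=
  ∑ j, ∑ k, fderiv ℝ F x (dir j k) ^ 2

noncomputable def I0 (c : ι → ℝ) (a v b : ℝ) (z0 : E) (u : ℝ) (x : X ι) : ℝ :=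
  (∫ z, th (a + v - u) (z - z0) * ((ph c (VV u) z x - b) * ph c (hk u) z x)) -
    ∑ i, c i ^ 2 * ∫ z, th (a + v - u) (z - z0) * (VV u (x i - z) * hk u (x i - z))

noncomputable def SR (c : ι → ℝ) (cb a v : ℝ) (z0 : E) (u : ℝ) (x : X ι) : ℝ :=
  ∫ z, th (a + v - u) (z - z0) * (ph (fun j => max (-c j) 0) (hk u) z x *
    min (cb * hk u 0) (ph (fun j => max (c j) 0) (hk u) z x))

noncomputable def av2 (g : E → ℝ) (c : ι → ℝ) (v b : ℝ) (z0 : E) (x : X ι) : ℝ :=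
  ∫ z, g (z - z0) * (ph c (VV v) z x - b) ^ 2

/-- weighted field energy -/
noncomputable def eg (c : ι → ℝ) (b' u : ℝ) (z0 : E) (x : X ι) : ℝ :=
  ∫ z, th b' (z - z0) * ∑ k, ph c (V1 u k) z x ^ 2

/-- indicator of the negative particles -/
noncomputable def ngv (c : ι → ℝ) : ι → ℝ := fun j => if c j < 0 then 1 else 0

end

/-- invariance under exchange of two particles of one species -/
def Sym [DecidableEq ι] (sp : ι → σ) (F : X ι → ℝ) : Prop :=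
  ∀ i j, sp i = sp j → ∀ x, F (x ∘ Equiv.swap i j) = F x

abbrev ch (P : Species σ Sp) (sp : ι → σ) : ι → ℝ := fun i => P.charge (sp i)

variable [Fintype ι] [DecidableEq ι] [Fintype Sp]

/-- weighted particle number -/
noncomputable def nb (ψ : Wv ι Sp) (g : E → ℝ) (z : E) : ℝ := pot (ph (fun _ => 1) g z) ψ

/-- weighted kinetic energy -/
noncomputable def tb (ψ : Wv ι Sp) (g : E → ℝ) (z : E) : ℝ :=
  ∑ i, ∑ k, pot (fun x => g (x i - z)) (Dv (dir i k) ψ)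

/-- mean square potential relative to the reference values `b y` -/
noncomputable def mm {Y : Type} [Fintype Y] (c : ι → ℝ) (v : ℝ) (ω b : Y → X ι → ℝ) (ψ : Wv ι Sp)
    (z : E) : ℝ :=
  (Fintype.card Y : ℝ)⁻¹ * ∑ y, pot (fun x => ω y x * (ph c (VV v) z x - b y x) ^ 2) ψ

/-- energy with an external point charge `t` at `z` -/
noncomputable def qx (P : Species σ Sp) (sp : ι → σ) (t : ℝ) (z : E) (ψ : Wv ι Sp) : ℝ :=
  en P sp ψ + t * pot (ph (ch P sp) vk z) ψ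

/-- energy defect -/
noncomputable def dq (P : Species σ Sp) (sp : ι → σ) (t : ℝ) (z : E) (e1 : ℝ) (ψ : Wv ι Sp) : ℝ :=
  qx P sp t z ψ - e1 * nr ψ

/-- an approximate ground state of the tilted Hamiltonian -/
structure St (P : Species σ Sp) (sp : ι → σ) (L t : ℝ) (x0 : E) (e1 K ε : ℝ) (ψ : Wv ι Sp) :
    Prop where
  tst : Tst P sp L ψ
  one : nr ψ = 1
  low : ∀ u, Tst P sp L u → e1 * nr u ≤ qx P sp t x0 u
  low2 : ∀ s, |s| = 2 * |t| → ∀ z u, Tst P sp L u → (e1 - 31 * |t| * K) * nr u ≤ qx P sp s z u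
  near : qx P sp t x0 ψ ≤ e1 + ε

/-- bounds on the species data -/
structure Dat (P : Species σ Sp) (I mb cm cb : ℝ) : Prop where
  mpos : ∀ s, 0 < P.mass s
  hI : ∀ s, 1 / (2 * P.mass s) ≤ I
  hmb : ∀ s, P.mass s ≤ mb
  cpos : 0 < cm
  hcm : ∀ s, cm ≤ |P.charge s|
  hcb : ∀ s, |P.charge s| ≤ cb
  spin : ∀ s, (P.spins s).Nonempty

/-- a smooth function supported on configurations with a hole of radius `2 r` at `z` -/
structure HoleFn (D r : ℝ) (z : E) (h : X ι → ℝ) : Prop where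
  smooth : ContDiff ℝ (⊤ : ℕ∞) h
  symm : ∀ i j x, h (x ∘ Equiv.swap i j) = h x
  nonneg : ∀ x, 0 ≤ h x
  le_one : ∀ x, h x ≤ 1
  hole : ∀ x, h x ≠ 0 → ∀ j, 2 * r ≤ ‖x j - z‖
  eq_one : ∀ x, (∀ j, 3 * r < ‖x j - z‖) → h x = 1
  gam : ∀ x, Gam h x ≤ D / r ^ 2
  cnt : ∀ x, 1 - h x ≤ D * r ^ 3 * ph (fun _ => 1) (hk (r ^ 2)) z x

/-- a truncated Gaussian orbital -/
structure GOrb (D v r : ℝ) (f : E → ℂ) (Z : ℝ) : Prop where
  orb : Orb r f
  kin : k0 f ≤ D / v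
  half : 1 / 2 ≤ Z
  near : 1 - Z ≤ D * v / r ^ 2
  le_one : Z ≤ 1
  dom : ∀ x, Z * ‖f x‖ ^ 2 ≤ hk v x

end Pool.Agent.Lib.MP_0655ed_mp
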