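import Pool.Agent.Lib.MP_0655ed_mp.ImpDyson3

open Finset MeasureTheory

set_option linter.unusedSectionVars false
set_option maxHeartbeats 400000

namespace Pool.Agent.Lib.MP_0655ed_mp

namespace Dyson

variable {Y ι Sp : Type} [Fintype Y] [DecidableEq Y] [Fintype ι] [DecidableEq ι] [Fintype Sp]
  [DecidableEq Sp]

def wrap (τ0 : ι → Sp) (Ψ : X ι → ℝ) : Wv ι Sp := fun τ x => if τ = τ0 then (Ψ x : ℂ) else 0

theorem pot_wrap (U : X ι → ℝ) (τ0 : ι → Sp) (Ψ : X ι → ℝ) :
    pot U (wrap τ0 Ψ) = ∫ x, U x * Ψ x ^ 2 := by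
  unfold pot
  rw [Finset.sum_eq_single τ0]
  · simp [wrap]
  · intro t _ ht
    simp [wrap, ht]
  · simp

theorem Dv_wrap (v : X ι) (τ0 : ι → Sp) {Ψ : X ι → ℝ} (h : Differentiable ℝ Ψ) :
    Dv v (wrap τ0 Ψ) = wrap τ0 fun x => fderiv ℝ Ψ x v := by
  funext τ x
  unfold Dv wrap
  split_ifs
  · have h1 : HasFDerivAt (fun x => (Ψ x : ℂ)) (Complex.ofRealCLM.comp (fderiv ℝ Ψ x)) x :=
      Complex.ofRealCLM.hasFDerivAt.comp x (h x).hasFDerivAt
    rw [h1.fderiv]
    rfl
  · simp

theorem hasF_coord {f : E → ℝ} (hf : Differentiable ℝ f) (x : X ι) (i : ι) :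
    HasFDerivAt (fun x : X ι => f (x i))
      ((fderiv ℝ f (x i)).comp (ContinuousLinearMap.proj i)) x :=
  (hf _).hasFDerivAt.comp x (ContinuousLinearMap.proj (R := ℝ) (φ := fun _ : ι => E) i).hasFDerivAt

theorem fderiv_prod {f : E → ℝ} (hf : Differentiable ℝ f) (x : X ι) (j : ι) (k : Fin 3) :
    fderiv ℝ (fun x : X ι => ∏ i, f (x i)) x (dir j k) =
      ∏ i, if i = j then fderiv ℝ f (x i) (Pi.single k 1) else f (x i) := by
  rw [(HasFDerivAt.finsetProd (u := Finset.univ) fun i _ => hasF_coord hf x i).fderiv,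
    _root_.sum_apply, Finset.sum_eq_single j, ← Finset.mul_prod_erase _ _ (Finset.mem_univ j),
    Finset.prod_congr rfl (g := fun i => f (x i)) fun i hi => if_neg (Finset.ne_of_mem_erase hi)]
  · simp [dir, mul_comm]
  · intro i _ hi
    simp [dir, hi]
  · simp

variable {φ : E → ℝ} {χ : Y → E → ℝ} {α β D K t : ℝ}

theorem Data.smooth_G (d : Data φ χ α β D K) (ε : ι → ℝ) : ContDiff ℝ (⊤ : ℕ∞) (GG t χ ε) :=
  contDiff_prod fun μ _ => Real.contDiff_cos.comp ((ContDiff.sum fun j _ =>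
    contDiff_const.mul (contDiff_const.mul ((d.χs μ).comp (contDiff_apply ℝ E j)))).div_const _)

theorem Data.smooth_P (d : Data φ χ α β D K) :
    ContDiff ℝ (⊤ : ℕ∞) fun x : X ι => ∏ i, φ (x i) :=
  contDiff_prod fun j _ => d.φs.comp (contDiff_apply ℝ E j)

theorem Data.abs_dG (d : Data φ χ α β D K) (ht : 0 ≤ t) {ε : ι → ℝ}
    (hε : ∀ k, ε k = 1 ∨ ε k = -1) (x : X ι) (j : ι) (k : Fin 3) :
    |fderiv ℝ (GG t χ ε) x (dir j k)| ≤ Fintype.card Y * (t * |D|) := by
  have h1 := fun μ => ((HasFDerivAt.fun_sum (u := Finset.univ) fun i _ =>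
    ((hasF_coord ((d.χs μ).differentiable (by simp)) x i).const_mul t).const_mul
      (ε i)).mul_const (2 : ℝ)⁻¹).cos
  have h2 := (HasFDerivAt.finsetProd (u := Finset.univ) fun μ _ => h1 μ).fderiv
  have h3 : GG t χ ε = fun x : X ι => ∏ μ, Real.cos ((∑ j, ε j * (t * χ μ (x j))) * 2⁻¹) := by
    funext x
    simp only [GG, div_eq_mul_inv]
  rw [h3, h2, _root_.sum_apply]
  refine (Finset.abs_sum_le_sum_abs _ _).trans ?_
  rw [← nsmul_eq_mul, ← Finset.card_univ]
  refine Finset.sum_le_card_nsmul _ _ _ fun μ _ => ?_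
  simp only [_root_.smul_apply, _root_.sum_apply, smul_eq_mul, ContinuousLinearMap.comp_apply,
    ContinuousLinearMap.proj_apply]
  rw [Finset.sum_eq_single (f := fun i => ε i * (t * fderiv ℝ (χ μ) (x i) (dir j k i))) j
    (fun i _ hi => by simp [dir, hi]) (by simp)]
  have h4 : (dir j k : X ι) j = Pi.single k 1 := by simp [dir]
  have h5 : |ε j| = 1 := by rcases hε j with h | h <;> simp [h]
  rw [h4]
  simp only [abs_mul, abs_neg, h5, one_mul, abs_of_nonneg ht, Finset.abs_prod]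
  have h6 := (d.χder μ (x j) k).trans (le_abs_self D)
  have h7 := mul_le_mul_of_nonneg_left h6 ht
  have h8 := mul_nonneg ht (abs_nonneg (fderiv ℝ (χ μ) (x j) (Pi.single k 1)))
  refine le_trans (mul_le_of_le_one_left (by positivity) (Finset.prod_le_one
    (fun _ _ => abs_nonneg _) fun _ _ => Real.abs_cos_le_one _)) ?_
  refine le_trans (mul_le_of_le_one_left (by positivity) (Real.abs_sin_le_one _)) ?_
  rw [abs_of_pos (by norm_num : (0 : ℝ) < 2⁻¹)]
  linarith

theorem Data.kin_tot (d : Data φ χ α β D K) (ht : 0 ≤ t) (ht1 : t ≤ 1) {ε : ι → ℝ}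
    (hε : ∀ k, ε k = 1 ∨ ε k = -1) (τ0 : ι → Sp) (j : ι) :
    kin j (wrap τ0 fun x => GG t χ ε x * ∏ i, φ (x i)) ≤
      3 * (4 * K + t ^ 2 * (2 * (Fintype.card Y * |D|) ^ 2 * 4 ^ Fintype.card Y)) *
        ∫ x, GG t χ ε x ^ 2 * ∏ k, φ (x k) ^ 2 := by
  have hG : Differentiable ℝ (GG (ι := ι) t χ ε) := (d.smooth_G ε).differentiable (by simp)
  have hP : Differentiable ℝ fun x : X ι => ∏ i, φ (x i) := d.smooth_P.differentiable (by simp)
  unfold kin
  rw [mul_assoc, show (3 : ℝ) = (Finset.univ : Finset (Fin 3)).card by simp, ← nsmul_eq_mul]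
  refine Finset.sum_le_card_nsmul _ _ _ fun k _ => ?_
  rw [Dv_wrap _ _ (hG.fun_mul hP), nr, pot_wrap]
  let r : ι → E → ℝ := fun i z => (if i = j then fderiv ℝ φ z (Pi.single k 1) else φ z) ^ 2
  have hr : ∀ i, CS (r i) := fun i => by
    by_cases hi : i = j
    · simpa only [r, hi, if_true] using d.csd k
    · simpa only [r, hi, if_false] using d.cs
  have i1 : Integrable fun x : X ι => 2 * (GG t χ ε x ^ 2 * ∏ i, r i (x i)) :=
    (((hG.continuous.pow 2).mul (continuous_finsetProd _ fun i _ => (hr i).1.comp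
      (continuous_apply i))).integrable_of_hasCompactSupport
        (compact_prod fun i => (hr i).2).mul_left).const_mul _
  have i2 : Integrable fun x : X ι => 2 * (Fintype.card Y * (t * |D|)) ^ 2 * ∏ i, φ (x i) ^ 2 :=
    (Continuous.integrable_of_hasCompactSupport (continuous_finsetProd _ fun i _ => d.cs.1.comp
      (continuous_apply i)) (compact_prod (g := fun (_ : ι) z => φ z ^ 2)
        fun _ => d.cs.2)).const_mul _
  have h1 : ∫ x, 1 * fderiv ℝ (fun x => GG t χ ε x * ∏ i, φ (x i)) x (dir j k) ^ 2 ≤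
      ∫ x : X ι, (2 * (GG t χ ε x ^ 2 * ∏ i, r i (x i)) +
        2 * (Fintype.card Y * (t * |D|)) ^ 2 * ∏ i, φ (x i) ^ 2) := by
    refine integral_mono_of_nonneg (ae_of_all _ fun x => by positivity) (i1.add i2)
      (ae_of_all _ fun x => ?_)
    simp only [r, Finset.prod_pow]
    rw [fderiv_fun_mul (hG x) (hP x), ← fderiv_prod (d.φs.differentiable (by simp))]
    simp only [_root_.add_apply, _root_.smul_apply, smul_eq_mul]
    have h2 := pow_le_pow_left₀ (abs_nonneg _) (d.abs_dG ht hε x j k) 2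
    rw [sq_abs] at h2
    have h3 := mul_le_mul_of_nonneg_right h2 (sq_nonneg (∏ i, φ (x i)))
    have h4 : ∀ a b c e : ℝ, 1 * (a * b + c * e) ^ 2 ≤ 2 * (a ^ 2 * b ^ 2) + 2 * (e ^ 2 * c ^ 2) :=
      fun a b c e => by nlinarith [sq_nonneg (a * b - c * e)]
    refine (h4 _ _ _ _).trans ?_
    linarith
  refine h1.trans ?_
  rw [integral_add i1 i2, integral_const_mul, integral_const_mul,
    integral_fintype_prod_volume_eq_prod fun (_ : ι) z => φ z ^ 2]
  simp only [d.φnorm, Finset.prod_const_one, mul_one]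
  have h4 := d.kin_le ht ht1 hε j k
  have h5 := mul_le_mul_of_nonneg_left (d.norm_ge ht ht1 hε)
    (by positivity : 0 ≤ 2 * (Fintype.card Y * (t * |D|)) ^ 2)
  simp only [r]
  linarith

theorem Data.tst {σ : Type} (d : Data φ χ α β D K) {P : Species σ Sp} {sp : ι → σ}
    (hb : ∀ i, P.fermion (sp i) = false) (e : σ → ℝ) {s0 : σ → Sp} (hs : ∀ s, s0 s ∈ P.spins s) :
    Tst P sp 5 (wrap (fun i => s0 (sp i)) fun x => GG t χ (fun i => e (sp i)) x * ∏ i, φ (x i)) := by
  have hne : ∀ τ x, wrap (fun i => s0 (sp i))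
      (fun x => GG t χ (fun i => e (sp i)) x * ∏ i, φ (x i)) τ x ≠ 0 →
      (τ = fun i => s0 (sp i)) ∧ ∀ i, φ (x i) ≠ 0 := by
    intro τ x h
    unfold wrap at h
    split_ifs at h with h1
    · refine ⟨h1, fun i hi => h ?_⟩
      simp [Finset.prod_eq_zero (f := fun i => φ (x i)) (Finset.mem_univ i) hi]
    · exact (h rfl).elim
  refine ⟨fun τ => ?_, ⟨2, by norm_num, fun τ x hx i => d.φsupp _ ((hne τ x hx).2 i)⟩,
    fun τ x hx i => by rw [(hne τ x hx).1]; exact hs _, fun i j _ hij => ?_⟩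
  · unfold wrap
    split_ifs
    · exact Complex.ofRealCLM.contDiff.comp ((d.smooth_G _).mul d.smooth_P)
    · exact contDiff_const
  · have h0 : ∀ k, sp (Equiv.swap i j k) = sp k := fun k => by
      rw [Equiv.swap_apply_def]
      split_ifs with h1 h2
      · rw [h1, hij]
      · rw [h2, hij]
      · rfl
    funext τ x
    have h1 : (τ ∘ Equiv.swap i j = fun i => s0 (sp i)) ↔ τ = fun i => s0 (sp i) := by
      constructor
      · intro h
        funext k
        have := congrFun h (Equiv.swap i j k)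
        simpa [h0] using this
      · rintro rfl
        funext k
        simp [h0]
    have h2 : GG t χ (fun i => e (sp i)) (x ∘ Equiv.swap i j) = GG t χ (fun i => e (sp i)) x := by
      unfold GG
      refine Finset.prod_congr rfl fun μ _ => ?_
      rw [← Equiv.sum_comp (Equiv.swap i j) fun k => e (sp k) * (t * χ μ (x k))]
      simp only [h0, Function.comp_apply]
    have h3 : ∏ k, φ ((x ∘ Equiv.swap i j) k) = ∏ k, φ (x k) :=
      Equiv.prod_comp (Equiv.swap i j) fun k => φ (x k)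
    simp only [rel, wrap, h1, h2, h3, eta, hb, Pi.smul_apply]
    simp

end Dyson

open Dyson in
/-- bosons of both signs of charge: no H-stability -/
theorem dyson {σ Sp : Type} [Fintype Sp] [DecidableEq σ] {P : Species σ Sp}
    (hm : ∀ s, 0 < P.mass s) (hs : ∀ s, (P.spins s).Nonempty) {a b : σ}
    (ha : 0 < P.charge a) (hb : P.charge b < 0)
    (hfa : P.fermion a = false) (hfb : P.fermion b = false) (A : ℝ) : ¬ Stb P A := by
  classical
  intro hA
  choose s0 hs0 using hs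
  obtain ⟨φ, K, hK⟩ := exists_data
  set cm := min (P.charge a) (-P.charge b) with hcm
  set m0 := min (P.mass a) (P.mass b) with hm0
  have hcm0 : 0 < cm := lt_min ha (by linarith)
  have hm00 : 0 < m0 := lt_min (hm a) (hm b)
  set R := 3 * (4 * K + 1) / (2 * m0) with hR
  obtain ⟨m, χ, α, β, D, hα, d, hC⟩ := hK (24 * (|R| + |A| + 1) / cm ^ 2)
  set B : ℝ := 2 * (Fintype.card (Fin 3 → Fin m) * |D|) ^ 2 * 4 ^ Fintype.card (Fin 3 → Fin m)
    with hB
  have hB0 : 0 ≤ B := by positivity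
  obtain ⟨n, hn⟩ := exists_nat_ge (2 + (1 + B) / (2 * α) + P.charge a ^ 2 / P.charge b ^ 2)
  have hb2 : 0 < P.charge b ^ 2 := by nlinarith
  have p1 : 0 ≤ (1 + B) / (2 * α) := by positivity
  have p2 : 0 ≤ P.charge a ^ 2 / P.charge b ^ 2 := by positivity
  set na := ⌊-P.charge b * n / P.charge a⌋₊ with hna
  let sp : Fin na ⊕ Fin n → σ := Sum.elim (fun _ => a) fun _ => b
  let e : σ → ℝ := fun s => if 0 < P.charge s then 1 else -1
  have hN : (Fintype.card (Fin na ⊕ Fin n) : ℝ) = na + n := by simp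
  set N : ℝ := (Fintype.card (Fin na ⊕ Fin n) : ℝ) with hNdef
  have hNn : (n : ℝ) ≤ N := by rw [hN]; linarith [Nat.cast_nonneg (α := ℝ) na]
  have hN2 : 2 ≤ N := by linarith
  have hN3 : 1 + B ≤ N * (2 * α) := by
    rw [← div_le_iff₀ (by positivity)]
    linarith
  set t := √(1 / (N * (2 * α))) with ht
  have ht0 : 0 ≤ t := Real.sqrt_nonneg _
  have ht2 : t ^ 2 * (N * (2 * α)) = 1 := by
    rw [ht, Real.sq_sqrt (by positivity)]
    field_simp
  have ht3 : t ^ 2 * (1 + B) ≤ 1 := (mul_le_mul_of_nonneg_left hN3 (sq_nonneg t)).trans ht2.le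
  have ht1 : t ≤ 1 := by nlinarith [mul_nonneg (sq_nonneg t) hB0]
  have hε : ∀ k, e (sp k) = 1 ∨ e (sp k) = -1 := fun k => by
    simp only [e]
    split_ifs <;> simp
  have hc : ∀ k, cm ≤ e (sp k) * P.charge (sp k) := by
    rintro (k | k)
    · simp [e, sp, ha, hcm]
    · simp [e, sp, not_lt.mpr hb.le, hcm]
  have hq : (∑ k, P.charge (sp k)) ^ 2 ≤ ∑ k, P.charge (sp k) ^ 2 := by
    simp only [Fintype.sum_sum_type, sp, Sum.elim_inl, Sum.elim_inr, Finset.sum_const,
      Finset.card_univ, Fintype.card_fin, nsmul_eq_mul]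
    have h1 : (na : ℝ) ≤ -P.charge b * n / P.charge a :=
      Nat.floor_le (div_nonneg (mul_nonneg (by linarith) (Nat.cast_nonneg _)) ha.le)
    have h2 : -P.charge b * n / P.charge a < na + 1 := Nat.lt_floor_add_one _
    rw [le_div_iff₀ ha] at h1
    rw [div_lt_iff₀ ha] at h2
    have h3 : P.charge a ^ 2 ≤ n * P.charge b ^ 2 := by
      rw [← div_le_iff₀ hb2]
      linarith
    have h4 : (na * P.charge a + n * P.charge b) ^ 2 ≤ P.charge a ^ 2 :=
      sq_le_sq' (by linarith) (by linarith)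
    have h5 : 0 ≤ na * P.charge a ^ 2 := by positivity
    linarith
  have hT := d.tst (t := t) (P := P) (sp := sp) (by rintro (k | k) <;> simp [sp, hfa, hfb]) e hs0
  have h1 := hA _ sp 5 (by norm_num) _ hT
  have h2 := d.coul_le ht0 ht1 hε hcm0.le hc hq (by rw [← hNdef]; linarith)
    (by rw [hNdef] at hN2; exact_mod_cast hN2)
  have h3 := d.norm_ge ht0 ht1 hε
  set I := ∫ x, GG t χ (fun k => e (sp k)) x ^ 2 * ∏ k, φ (x k) ^ 2 with hI
  have hI0 : 0 < I := (mul_pos_iff_of_pos_left (by positivity)).mp (lt_of_lt_of_le one_pos h3)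
  have h4 : ∑ i, kin i (wrap (fun i => s0 (sp i)) fun x => GG t χ (fun k => e (sp k)) x *
      ∏ i, φ (x i)) / (2 * P.mass (sp i)) ≤ N * (R * I) := by
    rw [hNdef, ← nsmul_eq_mul, ← Finset.card_univ]
    refine Finset.sum_le_card_nsmul _ _ _ fun i _ => ?_
    have h5 := d.kin_tot ht0 ht1 hε (fun i => s0 (sp i)) i
    have h6 : m0 ≤ P.mass (sp i) := by
      rcases i with k | k
      · exact min_le_left _ _
      · exact min_le_right _ _
    refine (div_le_div_of_nonneg_left (kin_nonneg _ _) (by positivity : 0 < 2 * m0)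
      (by linarith)).trans ?_
    rw [hR, div_mul_eq_mul_div]
    refine div_le_div_of_nonneg_right (h5.trans ?_) (by positivity)
    refine mul_le_mul_of_nonneg_right ?_ hI0.le
    rw [← hB]
    nlinarith [sq_nonneg t]
  unfold en at h1
  rw [nr, pot_wrap, pot_wrap] at h1
  simp only [mul_pow, ← Finset.prod_pow, one_mul] at h1
  rw [← hI, ← hNdef] at h1
  rw [← hNdef] at h2
  set M : ℝ := (Fintype.card (Fin 3 → Fin m) : ℝ) with hM
  have h5 : N * (|R| + |A| + 1) ≤ N * (N - 1) * cm ^ 2 * (M * (β * t ^ 2)) / 6 := by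
    rw [div_mul_eq_mul_div, div_le_iff₀ (by positivity)] at hC
    have h6 : N * (N - 1) * cm ^ 2 * (M * (β * t ^ 2)) / 6 * (2 * α) =
        (N - 1) * (M * β * cm ^ 2) / 6 := by
      calc _ = (N - 1) * (M * β * cm ^ 2) / 6 * (t ^ 2 * (N * (2 * α))) := by ring
        _ = _ := by rw [ht2, mul_one]
    refine le_of_mul_le_mul_right ?_ (by positivity : 0 < 2 * α)
    rw [h6]
    have h7 : 0 ≤ (|R| + |A| + 1) * α := by positivity
    have h8 := mul_le_mul_of_nonneg_left hC (by linarith : 0 ≤ N - 1)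
    nlinarith
  have h6 := mul_le_mul_of_nonneg_right h5 hI0.le
  have h7 : 0 < N * I := by positivity
  have h8 := mul_le_mul_of_nonneg_right (le_abs_self R) h7.le
  have h9 := mul_le_mul_of_nonneg_right (le_abs_self A) h7.le
  nlinarith

end Pool.Agent.Lib.MP_0655ed_mp
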