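import Pool.Agent.Lib.MP_0655ed_mp.Gen

open Finset MeasureTheory

set_option linter.unusedSectionVars false
set_option maxHeartbeats 400000

namespace Pool.Agent.Lib.MP_0655ed_mp

namespace Dyson

theorem locInt_EE : LocallyIntegrable (fun p : E × E => vk (p.1 - p.2)) := by
  rw [locallyIntegrable_iff]
  intro K hK
  have hc : Continuous fun p : E × E => p.1 - p.2 := by fun_prop
  have h1 : Integrable ((Prod.snd '' K).indicator fun _ : E => (1 : ℝ)) :=
    (integrable_indicator_iff (hK.image continuous_snd).measurableSet).mpr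
      (locInt_one.integrableOn_isCompact (hK.image continuous_snd))
  have h2 := (integrable_indicator_iff (hK.image hc).measurableSet).mpr
      (locInt_vk.integrableOn_isCompact (hK.image hc))
  have h3 := h1.convolution_integrand (ContinuousLinearMap.mul ℝ ℝ) h2
  refine (h3.integrableOn (s := K)).congr_fun (fun x hx => ?_) hK.measurableSet
  show Set.indicator _ _ x.2 * Set.indicator _ vk (x.1 - x.2) = _
  rw [Set.indicator_of_mem (Set.mem_image_of_mem _ hx),
    Set.indicator_of_mem (Set.mem_image_of_mem (fun p : E × E => p.1 - p.2) hx), one_mul]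

theorem compact_two {F : Type} [MulZeroClass F] {f g : E → F} (hf : HasCompactSupport f)
    (hg : HasCompactSupport g) : HasCompactSupport fun p : E × E => f p.1 * g p.2 := by
  refine HasCompactSupport.intro (hf.prod hg) fun p hp => ?_
  by_contra h0
  exact hp ⟨subset_tsupport _ (left_ne_zero_of_mul h0), subset_tsupport _ (right_ne_zero_of_mul h0)⟩

theorem compact_prod {F ι : Type} [Fintype ι] [CommMonoidWithZero F] {g : ι → E → F}
    (hg : ∀ k, HasCompactSupport (g k)) : HasCompactSupport fun x : X ι => ∏ k, g k (x k) := by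
  refine HasCompactSupport.intro (isCompact_univ_pi hg) fun x hx => ?_
  by_contra h0
  refine hx fun k _ => subset_tsupport _ fun h => h0 ?_
  exact Finset.prod_eq_zero (Finset.mem_univ k) h

/-- continuous with compact support -/
def CS {F : Type} [TopologicalSpace F] [Zero F] (f : E → F) : Prop :=
  Continuous f ∧ HasCompactSupport f

theorem int_pairR {f g : E → ℝ} (hf : CS f) (hg : CS g) :
    Integrable fun p : E × E => vk (p.1 - p.2) * (f p.1 * g p.2) :=
  locInt_EE.integrable_smul_right_of_hasCompactSupport (g := fun p : E × E => f p.1 * g p.2)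
    ((hf.1.comp continuous_fst).mul (hg.1.comp continuous_snd)) (compact_two hf.2 hg.2)

theorem int_pairC {f g : E → ℂ} (hf : CS f) (hg : CS g) :
    Integrable fun p : E × E => (vk (p.1 - p.2) : ℂ) * (f p.1 * g p.2) := by
  have := locInt_EE.integrable_smul_right_of_hasCompactSupport
    (g := fun p : E × E => f p.1 * g p.2)
    ((hf.1.comp continuous_fst).mul (hg.1.comp continuous_snd)) (compact_two hf.2 hg.2)
  simpa only [Complex.real_smul] using this

theorem int_prodC {ι : Type} [Fintype ι] {U : X ι → ℝ} (hU : LocallyIntegrable U)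
    {g : ι → E → ℂ} (hg : ∀ k, CS (g k)) :
    Integrable fun x : X ι => (U x : ℂ) * ∏ k, g k (x k) := by
  have := hU.integrable_smul_right_of_hasCompactSupport (g := fun x : X ι => ∏ k, g k (x k))
    (continuous_finsetProd _ fun k _ => (hg k).1.comp (continuous_apply k))
    (compact_prod fun k => (hg k).2)
  simpa only [Complex.real_smul] using this

/-- the Coulomb bilinear form -/
noncomputable def DD (f g : E → ℝ) : ℝ := ∫ p : E × E, vk (p.1 - p.2) * (f p.1 * g p.2)

theorem pair_prod {ι : Type} [Fintype ι] [DecidableEq ι] {g : ι → E → ℂ} (hg : ∀ k, CS (g k))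
    {A : ℂ} (hA : ∀ k, ∫ z, g k z = A) {i j : ι} (hij : i ≠ j) :
    ∫ x : X ι, (vk (x i - x j) : ℂ) * ∏ k, g k (x k) =
      (∫ p : E × E, (vk (p.1 - p.2) : ℂ) * (g i p.1 * g j p.2)) * A ^ (Fintype.card ι - 2) := by
  let e := Equiv.optionSubtypeNe i
  let j' : {b // b ≠ i} := ⟨j, hij.symm⟩
  let G : X (Option {b // b ≠ i}) → ℂ := fun w =>
    (vk (w none - w (some j')) : ℂ) * ∏ o, g (e o) (w o)
  have h1 : ∫ x : X ι, (vk (x i - x j) : ℂ) * ∏ k, g k (x k) = ∫ w, G w := by
    rw [← integral_rel e G]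
    refine integral_congr_ae (ae_of_all _ fun x => ?_)
    show _ = (vk (x i - x j) : ℂ) * ∏ o, g (e o) (x (e o))
    rw [e.prod_comp fun k => g k (x k)]
  have hG : Integrable G := int_prodC (locInt_pair0 j') fun o => hg (e o)
  let g' : {b // b ≠ i} → E → ℂ := fun k y =>
    if k = j' then (∫ z, (vk (z - y) : ℂ) * g i z) * g j y else g k y
  have h2 : ∀ x : X {b // b ≠ i}, ∫ z, G (cons z x) = ∏ k, g' k (x k) := by
    intro x
    have h3 : ∀ z, G (cons z x) = ((vk (z - x j') : ℂ) * g i z) * ∏ k, g k.1 (x k) := by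
      intro z
      simp only [G, Fintype.prod_option, cons_none, cons_some, mul_assoc]
      rfl
    simp only [h3, integral_mul_const]
    rw [← Finset.mul_prod_erase _ _ (Finset.mem_univ j'),
      ← Finset.mul_prod_erase _ _ (Finset.mem_univ j'), ← mul_assoc]
    congr 1
    · simp [g', j']
    · exact Finset.prod_congr rfl fun k hk => by simp [g', Finset.ne_of_mem_erase hk]
  rw [h1, integral_cons hG]
  simp only [h2]
  rw [integral_fintype_prod_volume_eq_prod, ← Finset.mul_prod_erase _ _ (Finset.mem_univ j')]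
  congr 1
  · have := integral_prod_symm _ (int_pairC (hg i) (hg j))
    refine Eq.trans ?_ this.symm
    refine integral_congr_ae (ae_of_all _ fun y => ?_)
    simp only [g', if_true, ← integral_mul_const, mul_assoc]
  · rw [Finset.prod_congr rfl (g := fun _ => A) fun k hk => by
      simp [g', Finset.ne_of_mem_erase hk, hA], Finset.prod_const, Finset.card_erase_of_mem
      (Finset.mem_univ _), Finset.card_univ]
    have := Fintype.card_congr e
    rw [Fintype.card_option] at this
    congr 1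
    omega

theorem one_prod {ι : Type} [Fintype ι] [DecidableEq ι] {g : ι → E → ℂ} {A : ℂ} (j : ι)
    (hA : ∀ k, k ≠ j → ∫ z, g k z = A) :
    ∫ x : X ι, ∏ k, g k (x k) = (∫ z, g j z) * A ^ (Fintype.card ι - 1) := by
  rw [integral_fintype_prod_volume_eq_prod, ← Finset.mul_prod_erase _ _ (Finset.mem_univ j),
    Finset.prod_congr rfl (g := fun _ => A) fun k hk => hA k (Finset.ne_of_mem_erase hk),
    Finset.prod_const, Finset.card_erase_of_mem (Finset.mem_univ _), Finset.card_univ]

/-! the signs -/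

def sg : Fin 4 → ℝ := ![1, 0, -1, 0]

theorem sg_two (p : Fin 4) : sg (p + 2) = -sg p := by
  fin_cases p <;> simp [sg]

theorem sg_one (p : Fin 4) : sg (p + 1) ^ 2 = 1 - sg p ^ 2 := by
  fin_cases p <;> simp [sg]

theorem sg_cases (p : Fin 4) : sg p = 0 ∨ sg p = 1 ∨ sg p = -1 := by
  fin_cases p <;> simp [sg]

theorem sg_sum (s : ℝ) :
    ∑ p, Complex.exp (Complex.I * (sg p * s : ℝ)) = (4 * Real.cos (s / 2) ^ 2 : ℝ) := by
  have h1 : 4 * Real.cos (s / 2) ^ 2 = 2 + 2 * Real.cos s := by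
    rw [Real.cos_sq, show 2 * (s / 2) = s by ring]
    ring
  rw [h1]
  simp only [Fin.sum_univ_four, sg]
  push_cast
  rw [Complex.two_cos]
  simp [mul_comm]
  ring

variable {Y : Type} [Fintype Y] [DecidableEq Y]

noncomputable def AA (a : Y → ℝ) (h : Y → Fin 4) : ℝ := 1 - ∑ μ, sg (h μ) ^ 2 * a μ

theorem AA_two (a : Y → ℝ) (h : Y → Fin 4) (μ : Y) : AA a (h + Pi.single μ 2) = AA a h := by
  unfold AA
  congr 1
  refine Finset.sum_congr rfl fun ν _ => ?_
  rcases eq_or_ne ν μ with rfl | hν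
  · simp [sg_two]
  · simp [hν]

theorem AA_one (a : Y → ℝ) (h : Y → Fin 4) (μ : Y) (h0 : sg (h μ) = 0) :
    AA a (h + Pi.single μ 1) = AA a h - a μ := by
  unfold AA
  rw [← Finset.add_sum_erase _ _ (Finset.mem_univ μ),
    ← Finset.add_sum_erase _ _ (Finset.mem_univ μ),
    Finset.sum_congr rfl (g := fun ν => sg (h ν) ^ 2 * a ν) fun ν hν => by
      simp [Finset.ne_of_mem_erase hν]]
  simp [sg_one, h0]
  ring

theorem comb {a : Y → ℝ} {a0 β : ℝ} {N : ℕ} (ha : ∀ μ, 0 ≤ a μ) (ha0 : ∀ μ, a μ ≤ a0)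
    (hN : 4 * a0 * N ≤ 1) (hN2 : 2 ≤ N) (hA : ∀ h, 1 / 2 ≤ AA a h) {Dm : Y → Y → ℝ}
    (hβ : 0 ≤ β) (hD : ∀ μ, β ≤ Dm μ μ) :
    Fintype.card Y * β / 3 * ∑ h, AA a h ^ N ≤
      ∑ h : Y → Fin 4, AA a h ^ (N - 2) * ∑ μ, ∑ ν, sg (h μ) * sg (h ν) * Dm μ ν := by
  have hA0 : ∀ h, 0 ≤ AA a h := fun h => le_trans (by norm_num) (hA h)
  have hA1 : ∀ h, AA a h ≤ 1 := fun h =>
    sub_le_self _ (Finset.sum_nonneg fun μ _ => mul_nonneg (sq_nonneg _) (ha μ))
  have h1 : ∀ μ ν, μ ≠ ν → ∑ h : Y → Fin 4, AA a h ^ (N - 2) * (sg (h μ) * sg (h ν)) = 0 := by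
    intro μ ν hμν
    have := Equiv.sum_comp (Equiv.addRight (Pi.single μ 2 : Y → Fin 4))
      fun h => AA a h ^ (N - 2) * (sg (h μ) * sg (h ν))
    simp only [Equiv.coe_addRight, AA_two, Pi.add_apply, Pi.single_eq_same, sg_two,
      Pi.single_eq_of_ne hμν.symm, add_zero, neg_mul, mul_neg, Finset.sum_neg_distrib] at this
    linarith
  have h2 : ∀ μ, (1 / 3) * ∑ h, AA a h ^ N ≤
      ∑ h : Y → Fin 4, AA a h ^ (N - 2) * (sg (h μ) * sg (h μ)) := by
    intro μ
    have h3 := Equiv.sum_comp (Equiv.addRight (Pi.single μ 1 : Y → Fin 4))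
      fun h => AA a h ^ N * sg (h μ) ^ 2
    simp only [Equiv.coe_addRight, Pi.add_apply, Pi.single_eq_same, sg_one] at h3
    have h4 : ∑ h : Y → Fin 4, (1 / 2) * (AA a h ^ N * (1 - sg (h μ) ^ 2)) ≤
        ∑ h : Y → Fin 4, AA a (h + Pi.single μ 1) ^ N * (1 - sg (h μ) ^ 2) := by
      refine Finset.sum_le_sum fun h _ => ?_
      rcases sg_cases (h μ) with h0 | h0 | h0
      · rw [AA_one a h μ h0, h0]
        have hN' : (2 : ℝ) ≤ N := by exact_mod_cast hN2
        have h00 : 0 ≤ a0 := (ha μ).trans (ha0 μ)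
        have h8 : 2 * a0 ≤ 1 := by nlinarith
        have h5 : AA a h * (1 + -(2 * a0)) ≤ AA a h - a μ := by
          have := hA h
          have := ha0 μ
          nlinarith
        have h6 := pow_le_pow_left₀ (mul_nonneg (hA0 h) (by linarith)) h5 N
        have h7 := one_add_mul_le_pow (a := -(2 * a0)) (by linarith) N
        rw [mul_pow] at h6
        have h9 := pow_nonneg (hA0 h) N
        nlinarith
      · simp [h0]
      · simp [h0]
    have h5 : ∑ h : Y → Fin 4, AA a h ^ N * sg (h μ) ^ 2 ≤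
        ∑ h : Y → Fin 4, AA a h ^ (N - 2) * (sg (h μ) * sg (h μ)) := by
      refine Finset.sum_le_sum fun h _ => ?_
      rw [← sq]
      exact mul_le_mul_of_nonneg_right (pow_le_pow_of_le_one (hA0 h) (hA1 h) (Nat.sub_le _ _))
        (sq_nonneg _)
    simp only [mul_sub, mul_one, Finset.sum_sub_distrib, ← Finset.mul_sum] at h3 h4
    linarith
  have h3 : ∑ h : Y → Fin 4, AA a h ^ (N - 2) * ∑ μ, ∑ ν, sg (h μ) * sg (h ν) * Dm μ ν =
      ∑ μ, ∑ ν, (∑ h : Y → Fin 4, AA a h ^ (N - 2) * (sg (h μ) * sg (h ν))) * Dm μ ν := by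
    simp only [Finset.mul_sum, Finset.sum_mul, mul_assoc]
    rw [Finset.sum_comm]
    exact Finset.sum_congr rfl fun μ _ => Finset.sum_comm
  rw [h3]
  have h0 : 0 ≤ ∑ h, AA a h ^ N := Finset.sum_nonneg fun h _ => pow_nonneg (hA0 h) N
  calc _ = ∑ _μ : Y, (1 / 3 * ∑ h, AA a h ^ N) * β := by
        rw [Finset.sum_const, Finset.card_univ, nsmul_eq_mul]; ring
    _ ≤ _ := Finset.sum_le_sum fun μ _ => by
        rw [Finset.sum_eq_single μ (fun ν _ hν => by rw [h1 μ ν hν.symm, zero_mul]) (by simp)]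
        exact mul_le_mul (h2 μ) (hD μ) hβ (le_trans (by positivity) (h2 μ))

end Dyson

end Pool.Agent.Lib.MP_0655ed_mp
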