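import Pool.Agent.Lib.MP_0655ed_mp.ImpDyson1

open Finset MeasureTheory

set_option linter.unusedSectionVars false
set_option maxHeartbeats 400000

namespace Pool.Agent.Lib.MP_0655ed_mp

namespace Dyson

variable {Y ι : Type} [Fintype Y] [DecidableEq Y] [Fintype ι] [DecidableEq ι]

/-- one-body data of the trial function -/
structure Data (φ : E → ℝ) (χ : Y → E → ℝ) (α β D K : ℝ) : Prop where
  φs : ContDiff ℝ (⊤ : ℕ∞) φ
  φsupp : ∀ x, φ x ≠ 0 → ‖x‖ ≤ 2
  φeven : ∀ x, φ (-x) = φ x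
  φnorm : ∫ x, φ x ^ 2 = 1
  φkin : ∀ k, ∫ x, (fderiv ℝ φ x (Pi.single k 1)) ^ 2 ≤ K
  χs : ∀ μ, ContDiff ℝ (⊤ : ℕ∞) (χ μ)
  χodd : ∀ μ x, χ μ (-x) = -χ μ x
  χabs : ∀ μ x, |χ μ x| ≤ 1
  χdisj : ∀ μ ν x, χ μ x ≠ 0 → χ ν x ≠ 0 → μ = ν
  χder : ∀ μ x k, |fderiv ℝ (χ μ) x (Pi.single k 1)| ≤ D
  hα : ∀ μ, ∫ x, φ x ^ 2 * χ μ x ^ 2 ≤ α
  β0 : 0 ≤ β
  hβ : ∀ μ t, 0 ≤ t → t ≤ 1 → β * t ^ 2 ≤
    DD (fun x => φ x ^ 2 * Real.sin (t * χ μ x)) (fun x => φ x ^ 2 * Real.sin (t * χ μ x))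

noncomputable def uu (t : ℝ) (χ : Y → E → ℝ) (h : Y → Fin 4) (x : E) : ℝ :=
  ∑ μ, sg (h μ) * (t * χ μ x)

noncomputable def GG (t : ℝ) (χ : Y → E → ℝ) (ε : ι → ℝ) (x : X ι) : ℝ :=
  ∏ μ, Real.cos ((∑ j, ε j * (t * χ μ (x j))) / 2)

noncomputable def aa (t : ℝ) (φ : E → ℝ) (χ : Y → E → ℝ) (μ : Y) : ℝ :=
  ∫ x, φ x ^ 2 * (1 - Real.cos (t * χ μ x))

noncomputable def gg (t : ℝ) (χ : Y → E → ℝ) (r : E → ℝ) (e : ℝ) (h : Y → Fin 4) (z : E) : ℂ :=
  r z * Complex.exp (Complex.I * (e * uu t χ h z : ℝ))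

theorem G_sq (t : ℝ) (χ : Y → E → ℝ) (ε : ι → ℝ) (x : X ι) :
    ((4 ^ Fintype.card Y * GG t χ ε x ^ 2 : ℝ) : ℂ) =
      ∑ h : Y → Fin 4, ∏ j, Complex.exp (Complex.I * (ε j * uu t χ h (x j) : ℝ)) := by
  have h1 : (4 ^ Fintype.card Y * GG t χ ε x ^ 2 : ℝ) =
      ∏ μ, 4 * Real.cos ((∑ j, ε j * (t * χ μ (x j))) / 2) ^ 2 := by
    rw [Finset.prod_mul_distrib, Finset.prod_const, Finset.card_univ, Finset.prod_pow]
    rfl
  rw [h1, Complex.ofReal_prod]
  simp only [← sg_sum]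
  rw [Fintype.prod_sum]
  refine Finset.sum_congr rfl fun h _ => ?_
  rw [← Complex.exp_sum, ← Complex.exp_sum, ← Finset.mul_sum, ← Finset.mul_sum,
    ← Complex.ofReal_sum, ← Complex.ofReal_sum]
  congr 3
  simp only [uu, Finset.mul_sum]
  rw [Finset.sum_comm]
  exact Finset.sum_congr rfl fun j _ => Finset.sum_congr rfl fun μ _ => by ring

theorem gg_eq (t : ℝ) (χ : Y → E → ℝ) (r : E → ℝ) {e : ℝ} (he : e = 1 ∨ e = -1)
    (h : Y → Fin 4) (z : E) : gg t χ r e h z = (r z * Real.cos (uu t χ h z) : ℝ) +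
      (e * (r z * Real.sin (uu t χ h z)) : ℝ) * Complex.I := by
  unfold gg
  rw [mul_comm Complex.I, Complex.exp_mul_I]
  rcases he with rfl | rfl
  · push_cast
    simp only [one_mul]
    ring
  · push_cast
    simp only [neg_mul, one_mul, Complex.cos_neg, Complex.sin_neg]
    ring

variable {φ : E → ℝ} {χ : Y → E → ℝ} {α β D K t : ℝ}

theorem Data.cont_uu (d : Data φ χ α β D K) (t : ℝ) (h : Y → Fin 4) : Continuous (uu t χ h) :=
  continuous_finsetSum _ fun μ _ => continuous_const.mul (continuous_const.mul (d.χs μ).continuous)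

theorem Data.compact (d : Data φ χ α β D K) : HasCompactSupport φ :=
  HasCompactSupport.intro (isCompact_closedBall 0 2) fun x hx => by
    by_contra h0
    exact hx (mem_closedBall_zero_iff.mpr (d.φsupp x h0))

theorem CS.sq {f : E → ℝ} (h : CS f) : CS fun x => f x ^ 2 :=
  ⟨h.1.pow 2, h.2.comp_left (g := fun t : ℝ => t ^ 2) (by simp)⟩

theorem CS.mul {f g : E → ℝ} (h : CS f) (hg : Continuous g) : CS fun x => f x * g x :=
  ⟨h.1.mul hg, h.2.mul_right⟩

theorem CS.int {f : E → ℝ} (h : CS f) : Integrable f := h.1.integrable_of_hasCompactSupport h.2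

theorem Data.cs (d : Data φ χ α β D K) : CS fun x => φ x ^ 2 :=
  CS.sq ⟨d.φs.continuous, d.compact⟩

theorem Data.csd (d : Data φ χ α β D K) (k : Fin 3) :
    CS fun x => (fderiv ℝ φ x (Pi.single k 1)) ^ 2 :=
  CS.sq ⟨(d.φs.continuous_fderiv (by simp)).clm_apply continuous_const,
    d.compact.fderiv_apply ℝ _⟩

theorem Data.cs_gg (d : Data φ χ α β D K) {r : E → ℝ} (hr : CS r) (e : ℝ) (h : Y → Fin 4) :
    CS (gg t χ r e h) :=
  ⟨(Complex.continuous_ofReal.comp hr.1).mul (Complex.continuous_exp.comp (continuous_const.mul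
    (Complex.continuous_ofReal.comp (continuous_const.mul (d.cont_uu t h))))),
    (hr.2.comp_left (g := fun s : ℝ => (s : ℂ)) (by simp)).mul_right⟩

theorem Data.F_uu (d : Data φ χ α β D K) {F : ℝ → ℝ} (hF : F 0 = 0) (h : Y → Fin 4) (x : E) :
    F (uu t χ h x) = ∑ μ, F (sg (h μ) * (t * χ μ x)) := by
  unfold uu
  by_cases h0 : ∃ μ, χ μ x ≠ 0
  · obtain ⟨μ, hμ⟩ := h0
    have h1 : ∀ ν, ν ≠ μ → χ ν x = 0 := fun ν hν => by
      by_contra h2
      exact hν (d.χdisj ν μ x h2 hμ)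
    rw [Finset.sum_eq_single μ (fun ν _ hν => by simp [h1 ν hν]) (by simp),
      Finset.sum_eq_single μ (fun ν _ hν => by simp [h1 ν hν, hF]) (by simp)]
  · push Not at h0
    simp [h0, hF]

theorem Data.abs_uu (d : Data φ χ α β D K) (ht : 0 ≤ t) (h : Y → Fin 4) (x : E) :
    |uu t χ h x| ≤ t := by
  unfold uu
  by_cases h0 : ∃ μ, χ μ x ≠ 0
  · obtain ⟨μ, hμ⟩ := h0
    have h1 : ∀ ν, ν ≠ μ → χ ν x = 0 := fun ν hν => by
      by_contra h2
      exact hν (d.χdisj ν μ x h2 hμ)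
    rw [Finset.sum_eq_single μ (fun ν _ hν => by simp [h1 ν hν]) (by simp)]
    have h2 := mul_le_mul_of_nonneg_left (d.χabs μ x) ht
    rcases sg_cases (h μ) with h3 | h3 | h3 <;> simp [h3, ht, abs_mul, abs_of_nonneg ht] <;>
      linarith
  · push Not at h0
    simp [h0, ht]

theorem Data.sin_uu (d : Data φ χ α β D K) (h : Y → Fin 4) (x : E) :
    φ x ^ 2 * Real.sin (uu t χ h x) = ∑ μ, sg (h μ) * (φ x ^ 2 * Real.sin (t * χ μ x)) := by
  rw [d.F_uu Real.sin_zero, Finset.mul_sum]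
  refine Finset.sum_congr rfl fun μ _ => ?_
  rcases sg_cases (h μ) with h3 | h3 | h3 <;> simp [h3]

theorem Data.int_cos (d : Data φ χ α β D K) (h : Y → Fin 4) :
    ∫ x, φ x ^ 2 * Real.cos (uu t χ h x) = AA (aa t φ χ) h := by
  have h1 : ∀ x, φ x ^ 2 * Real.cos (uu t χ h x) =
      φ x ^ 2 - ∑ μ, sg (h μ) ^ 2 * (φ x ^ 2 * (1 - Real.cos (t * χ μ x))) := by
    intro x
    have h2 := d.F_uu (t := t) (F := fun s => 1 - Real.cos s) (by simp) h x
    have h3 : ∀ μ, sg (h μ) ^ 2 * (φ x ^ 2 * (1 - Real.cos (t * χ μ x))) =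
        φ x ^ 2 * (1 - Real.cos (sg (h μ) * (t * χ μ x))) := fun μ => by
      rcases sg_cases (h μ) with h3 | h3 | h3 <;> simp [h3]
    simp only [h3, ← Finset.mul_sum]
    rw [← h2]
    ring
  have hi : ∀ μ, Integrable fun x => sg (h μ) ^ 2 * (φ x ^ 2 * (1 - Real.cos (t * χ μ x))) :=
    fun μ => ((d.cs.mul (g := fun x => 1 - Real.cos (t * χ μ x)) (continuous_const.sub
      (Real.continuous_cos.comp (continuous_const.mul (d.χs μ).continuous)))).int).const_mul _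
  simp only [h1]
  rw [integral_sub d.cs.int (integrable_finsetSum _ fun μ _ => hi μ), d.φnorm,
    integral_finsetSum _ fun μ _ => hi μ]
  simp only [integral_const_mul]
  rfl

theorem Data.int_sin (d : Data φ χ α β D K) (h : Y → Fin 4) :
    ∫ x, φ x ^ 2 * Real.sin (uu t χ h x) = 0 := by
  have h1 := integral_neg_eq_self (fun x => φ x ^ 2 * Real.sin (uu t χ h x)) volume
  have h2 : ∀ x, uu t χ h (-x) = -uu t χ h x := fun x => by
    simp [uu, d.χodd]
  simp only [h2, d.φeven, Real.sin_neg, mul_neg, integral_neg] at h1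
  linarith

theorem Data.int_gg (d : Data φ χ α β D K) {r : E → ℝ} (hr : CS r) {e : ℝ} (he : e = 1 ∨ e = -1)
    (h : Y → Fin 4) : ∫ z, gg t χ r e h z = (∫ z, r z * Real.cos (uu t χ h z) : ℝ) +
      (e * ∫ z, r z * Real.sin (uu t χ h z) : ℝ) * Complex.I := by
  simp only [gg_eq t χ r he]
  rw [integral_add (hr.mul (Real.continuous_cos.comp (d.cont_uu t h))).int.ofReal
    (((hr.mul (Real.continuous_sin.comp (d.cont_uu t h))).int.const_mul e).ofReal.mul_const _),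
    integral_mul_const, integral_complex_ofReal, integral_complex_ofReal, integral_const_mul]

theorem Data.int_gg0 (d : Data φ χ α β D K) {e : ℝ} (he : e = 1 ∨ e = -1) (h : Y → Fin 4) :
    ∫ z, gg t χ (fun x => φ x ^ 2) e h z = (AA (aa t φ χ) h : ℝ) := by
  rw [d.int_gg d.cs he, d.int_cos, d.int_sin]
  simp

theorem Data.half_le (d : Data φ χ α β D K) (ht : 0 ≤ t) (ht1 : t ≤ 1) (h : Y → Fin 4) :
    1 / 2 ≤ AA (aa t φ χ) h := by
  have h0 : (1 / 2 : ℝ) = ∫ x, 1 / 2 * φ x ^ 2 := by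
    rw [integral_const_mul, d.φnorm, mul_one]
  rw [← d.int_cos, h0]
  refine integral_mono (d.cs.int.const_mul _)
    (d.cs.mul (Real.continuous_cos.comp (d.cont_uu t h))).int fun x => ?_
  have h1 := Real.one_sub_sq_div_two_le_cos (x := uu t χ h x)
  have h2 : uu t χ h x ^ 2 ≤ 1 := by
    rw [← sq_abs]
    exact pow_le_one₀ (abs_nonneg _) ((d.abs_uu ht h x).trans ht1)
  have h3 := sq_nonneg (φ x)
  show 1 / 2 * φ x ^ 2 ≤ φ x ^ 2 * Real.cos (uu t χ h x)
  nlinarith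

theorem aa_nonneg (t : ℝ) (φ : E → ℝ) (χ : Y → E → ℝ) (μ : Y) : 0 ≤ aa t φ χ μ :=
  integral_nonneg fun _ => mul_nonneg (sq_nonneg _) (sub_nonneg.mpr (Real.cos_le_one _))

theorem Data.aa_le (d : Data φ χ α β D K) (μ : Y) : aa t φ χ μ ≤ t ^ 2 * α / 2 := by
  have h1 : aa t φ χ μ ≤ ∫ x, t ^ 2 / 2 * (φ x ^ 2 * χ μ x ^ 2) := by
    refine integral_mono (d.cs.mul (g := fun x => 1 - Real.cos (t * χ μ x)) (continuous_const.sub
      (Real.continuous_cos.comp (continuous_const.mul (d.χs μ).continuous)))).int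
      ((d.cs.mul ((d.χs μ).continuous.pow 2)).int.const_mul _) fun x => ?_
    have h1 := Real.one_sub_sq_div_two_le_cos (x := t * χ μ x)
    have h3 := sq_nonneg (φ x)
    show φ x ^ 2 * (1 - Real.cos (t * χ μ x)) ≤ t ^ 2 / 2 * (φ x ^ 2 * χ μ x ^ 2)
    nlinarith
  rw [integral_const_mul] at h1
  have h2 := mul_le_mul_of_nonneg_left (d.hα μ) (by positivity : 0 ≤ t ^ 2 / 2)
  linarith

theorem Data.expand (d : Data φ χ α β D K) {U : X ι → ℝ} (hU : LocallyIntegrable U)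
    {r : ι → E → ℝ} (hr : ∀ k, CS (r k)) (ε : ι → ℝ) :
    4 ^ Fintype.card Y * ∫ x, U x * (GG t χ ε x ^ 2 * ∏ k, r k (x k)) =
      ∑ h : Y → Fin 4, (∫ x : X ι, (U x : ℂ) * ∏ k, gg t χ (r k) (ε k) h (x k)).re := by
  rw [← Complex.re_sum, ← integral_finsetSum _ fun h _ =>
    int_prodC hU fun k => d.cs_gg (hr k) (ε k) h, ← integral_const_mul,
    ← Complex.ofReal_re (∫ _, _), ← integral_complex_ofReal]
  congr 1
  refine integral_congr_ae (ae_of_all _ fun x => ?_)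
  simp only [gg, Finset.prod_mul_distrib, ← Finset.mul_sum, ← G_sq]
  push_cast
  ring

theorem Data.norm_eq (d : Data φ χ α β D K) {ε : ι → ℝ} (hε : ∀ k, ε k = 1 ∨ ε k = -1) :
    4 ^ Fintype.card Y * ∫ x, GG t χ ε x ^ 2 * ∏ k, φ (x k) ^ 2 =
      ∑ h : Y → Fin 4, AA (aa t φ χ) h ^ Fintype.card ι := by
  have := d.expand (t := t) locInt_one (fun _ : ι => d.cs) ε
  simp only [one_mul, Complex.ofReal_one] at this
  rw [this]
  refine Finset.sum_congr rfl fun h _ => ?_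
  rw [integral_fintype_prod_volume_eq_prod fun k => gg t χ (fun x => φ x ^ 2) (ε k) h]
  simp only [d.int_gg0 (hε _), Finset.prod_const, Finset.card_univ, ← Complex.ofReal_pow,
    Complex.ofReal_re]

theorem Data.norm_ge (d : Data φ χ α β D K) (ht : 0 ≤ t) (ht1 : t ≤ 1) {ε : ι → ℝ}
    (hε : ∀ k, ε k = 1 ∨ ε k = -1) :
    1 ≤ 4 ^ Fintype.card Y * ∫ x, GG t χ ε x ^ 2 * ∏ k, φ (x k) ^ 2 := by
  rw [d.norm_eq hε]
  refine le_trans (le_of_eq ?_) (Finset.single_le_sum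
    (f := fun h => AA (aa t φ χ) h ^ Fintype.card ι) (fun h _ => pow_nonneg
      (le_trans (by norm_num) (d.half_le ht ht1 h)) _) (Finset.mem_univ fun _ => 1))
  simp [AA, sg]

theorem Data.kin_le (d : Data φ χ α β D K) (ht : 0 ≤ t) (ht1 : t ≤ 1) {ε : ι → ℝ}
    (hε : ∀ k, ε k = 1 ∨ ε k = -1) (j : ι) (k : Fin 3) :
    ∫ x, GG t χ ε x ^ 2 * ∏ i, (if i = j then fderiv ℝ φ (x i) (Pi.single k 1) else φ (x i)) ^ 2 ≤
      2 * K * ∫ x, GG t χ ε x ^ 2 * ∏ k, φ (x k) ^ 2 := by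
  let r : ι → E → ℝ := fun i z => (if i = j then fderiv ℝ φ z (Pi.single k 1) else φ z) ^ 2
  have hr : ∀ i, CS (r i) := fun i => by
    by_cases hi : i = j
    · simpa only [r, hi, if_true] using d.csd k
    · simpa only [r, hi, if_false] using d.cs
  have h1 := d.expand (t := t) locInt_one hr ε
  simp only [one_mul, Complex.ofReal_one] at h1
  refine le_of_mul_le_mul_left ?_ (by positivity : (0 : ℝ) < 4 ^ Fintype.card Y)
  rw [h1, mul_left_comm, d.norm_eq hε, Finset.mul_sum]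
  refine Finset.sum_le_sum fun h _ => ?_
  rw [one_prod (g := fun i => gg t χ (r i) (ε i) h) (A := (AA (aa t φ χ) h : ℝ)) j fun i hi => by
    simpa only [r, hi, if_false] using d.int_gg0 (hε i) h]
  rw [← Complex.ofReal_pow, Complex.re_mul_ofReal, d.int_gg (hr j) (hε j)]
  simp only [Complex.add_re, Complex.ofReal_re, Complex.mul_I_re, Complex.ofReal_im, neg_zero,
    add_zero]
  have h2 : ∫ z, r j z * Real.cos (uu t χ h z) ≤ K := by
    refine le_trans (integral_mono ((hr j).mul (Real.continuous_cos.comp (d.cont_uu t h))).int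
      (d.csd k).int fun z => ?_) (d.φkin k)
    simp only [r, if_true]
    exact mul_le_of_le_one_right (sq_nonneg _) (Real.cos_le_one _)
  have hK : 0 ≤ K := le_trans (integral_nonneg fun _ => sq_nonneg _) (d.φkin k)
  have h3 := d.half_le ht ht1 h
  have h4 : Fintype.card ι = Fintype.card ι - 1 + 1 := by
    have : 0 < Fintype.card ι := Fintype.card_pos_iff.mpr ⟨j⟩
    omega
  have h5 : 0 ≤ AA (aa t φ χ) h ^ (Fintype.card ι - 1) := pow_nonneg (by linarith) _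
  conv_rhs => rw [h4, pow_succ]
  have h6 := mul_le_mul_of_nonneg_right h2 h5
  have h7 := mul_nonneg hK h5
  nlinarith

theorem Data.pair_eq (d : Data φ χ α β D K) {ε : ι → ℝ} (hε : ∀ k, ε k = 1 ∨ ε k = -1)
    {i j : ι} (hij : i ≠ j) :
    4 ^ Fintype.card Y * ∫ x, vk (x i - x j) * (GG t χ ε x ^ 2 * ∏ k, φ (x k) ^ 2) =
      ∑ h : Y → Fin 4, AA (aa t φ χ) h ^ (Fintype.card ι - 2) *
        DD (fun x => φ x ^ 2 * Real.cos (uu t χ h x)) (fun x => φ x ^ 2 * Real.cos (uu t χ h x)) -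
      ε i * ε j * ∑ h : Y → Fin 4, AA (aa t φ χ) h ^ (Fintype.card ι - 2) *
        DD (fun x => φ x ^ 2 * Real.sin (uu t χ h x))
          (fun x => φ x ^ 2 * Real.sin (uu t χ h x)) := by
  rw [d.expand (locInt_pair i j) (fun _ : ι => d.cs) ε, Finset.mul_sum, ← Finset.sum_sub_distrib]
  refine Finset.sum_congr rfl fun h _ => ?_
  rw [pair_prod (fun k => d.cs_gg d.cs (ε k) h) (fun k => d.int_gg0 (hε k) h) hij,
    ← Complex.ofReal_pow, Complex.re_mul_ofReal]
  have hc : CS fun x => φ x ^ 2 * Real.cos (uu t χ h x) :=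
    d.cs.mul (Real.continuous_cos.comp (d.cont_uu t h))
  have hs : CS fun x => φ x ^ 2 * Real.sin (uu t χ h x) :=
    d.cs.mul (Real.continuous_sin.comp (d.cont_uu t h))
  have h1 := integral_re (int_pairC (d.cs_gg (t := t) d.cs (ε i) h) (d.cs_gg (t := t) d.cs (ε j) h))
  simp only [RCLike.re_to_complex] at h1
  rw [← h1, mul_left_comm, ← mul_sub, mul_comm]
  congr 1
  unfold DD
  rw [← integral_const_mul, ← integral_sub (int_pairR hc hc) ((int_pairR hs hs).const_mul _)]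
  refine integral_congr_ae (ae_of_all _ fun p => ?_)
  simp only [gg_eq t χ _ (hε _), Complex.mul_re, Complex.mul_im, Complex.add_re, Complex.add_im,
    Complex.ofReal_re, Complex.ofReal_im, Complex.I_re, Complex.I_im]
  ring

theorem Data.DD_sin (d : Data φ χ α β D K) (h : Y → Fin 4) :
    DD (fun x => φ x ^ 2 * Real.sin (uu t χ h x)) (fun x => φ x ^ 2 * Real.sin (uu t χ h x)) =
      ∑ μ, ∑ ν, sg (h μ) * sg (h ν) * DD (fun x => φ x ^ 2 * Real.sin (t * χ μ x))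
        (fun x => φ x ^ 2 * Real.sin (t * χ ν x)) := by
  have hs : ∀ μ, CS fun x => φ x ^ 2 * Real.sin (t * χ μ x) := fun μ =>
    d.cs.mul (Real.continuous_sin.comp (continuous_const.mul (d.χs μ).continuous))
  unfold DD
  simp only [← integral_const_mul]
  simp only [← integral_finsetSum _ fun ν _ => (int_pairR (hs _) (hs ν)).const_mul _]
  rw [← integral_finsetSum _ fun μ _ => integrable_finsetSum _ fun ν _ =>
    (int_pairR (hs μ) (hs ν)).const_mul _]
  refine integral_congr_ae (ae_of_all _ fun p => ?_)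
  simp only [d.sin_uu]
  rw [Finset.sum_mul_sum]
  simp only [Finset.mul_sum]
  exact Finset.sum_congr rfl fun μ _ => Finset.sum_congr rfl fun ν _ => by ring

theorem Data.coul_le (d : Data φ χ α β D K) (ht : 0 ≤ t) (ht1 : t ≤ 1) {ε c : ι → ℝ}
    (hε : ∀ k, ε k = 1 ∨ ε k = -1) {cm : ℝ} (hcm : 0 ≤ cm) (hc : ∀ k, cm ≤ ε k * c k)
    (hq : (∑ k, c k) ^ 2 ≤ ∑ k, c k ^ 2) (hN : 2 * t ^ 2 * α * Fintype.card ι ≤ 1)
    (hN2 : 2 ≤ Fintype.card ι) :
    ∫ x, coulomb c x * (GG t χ ε x ^ 2 * ∏ k, φ (x k) ^ 2) ≤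
      -(Fintype.card ι * (Fintype.card ι - 1) * cm ^ 2 * (Fintype.card Y * (β * t ^ 2)) / 6) *
        ∫ x, GG t χ ε x ^ 2 * ∏ k, φ (x k) ^ 2 := by
  set Pp := ∑ h : Y → Fin 4, AA (aa t φ χ) h ^ (Fintype.card ι - 2) *
    DD (fun x => φ x ^ 2 * Real.cos (uu t χ h x)) (fun x => φ x ^ 2 * Real.cos (uu t χ h x))
    with hP
  set Q := ∑ h : Y → Fin 4, AA (aa t φ χ) h ^ (Fintype.card ι - 2) *
    DD (fun x => φ x ^ 2 * Real.sin (uu t χ h x)) (fun x => φ x ^ 2 * Real.sin (uu t χ h x))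
    with hQ
  have hP0 : 0 ≤ Pp := by
    refine Finset.sum_nonneg fun h _ => mul_nonneg (pow_nonneg
      (le_trans (by norm_num) (d.half_le ht ht1 h)) _) (integral_nonneg fun p => ?_)
    have h1 : ∀ x, 0 ≤ φ x ^ 2 * Real.cos (uu t χ h x) := fun x => by
      have h2 := abs_le.mp ((d.abs_uu ht h x).trans ht1)
      refine mul_nonneg (sq_nonneg _) (Real.cos_nonneg_of_mem_Icc ⟨?_, ?_⟩) <;>
        linarith [Real.pi_gt_three, h2.1, h2.2]
    exact mul_nonneg (vk_nonneg _) (mul_nonneg (h1 _) (h1 _))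
  have hQ1 : Fintype.card Y * (β * t ^ 2) / 3 * (4 ^ Fintype.card Y *
      ∫ x, GG t χ ε x ^ 2 * ∏ k, φ (x k) ^ 2) ≤ Q := by
    rw [d.norm_eq hε, hQ]
    simp only [d.DD_sin]
    exact comb (aa_nonneg t φ χ) d.aa_le (by linarith) hN2 (d.half_le ht ht1)
      (mul_nonneg d.β0 (sq_nonneg _)) fun μ => d.hβ μ t ht ht1
  have hn := d.norm_ge ht ht1 hε
  have hQ0 : 0 ≤ Q := le_trans (mul_nonneg (by have := d.β0; positivity) (by linarith)) hQ1
  have hcs : Continuous (fun x : X ι => GG t χ ε x ^ 2 * ∏ k, φ (x k) ^ 2) ∧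
      HasCompactSupport (fun x : X ι => GG t χ ε x ^ 2 * ∏ k, φ (x k) ^ 2) := by
    refine ⟨Continuous.mul (Continuous.pow ?_ 2) (continuous_finsetProd _ fun k _ =>
      d.cs.1.comp (continuous_apply k)), (compact_prod fun _ : ι => d.cs.2).mul_left⟩
    exact continuous_finsetProd _ fun μ _ => Real.continuous_cos.comp ((continuous_finsetSum _
      fun j _ => continuous_const.mul (continuous_const.mul ((d.χs μ).continuous.comp
        (continuous_apply j)))).div_const _)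
  have hi : ∀ i j, Integrable fun x : X ι =>
      c i * c j * (vk (x i - x j) * (GG t χ ε x ^ 2 * ∏ k, φ (x k) ^ 2)) := fun i j =>
    ((locInt_pair i j).integrable_smul_right_of_hasCompactSupport hcs.1 hcs.2).const_mul _
  have h1 : ∫ x, coulomb c x * (GG t χ ε x ^ 2 * ∏ k, φ (x k) ^ 2) = (1 / 2) * ∑ i,
      ∑ j ∈ Finset.univ.erase i, c i * c j *
        ∫ x, vk (x i - x j) * (GG t χ ε x ^ 2 * ∏ k, φ (x k) ^ 2) := by
    simp only [← integral_const_mul]
    simp only [← integral_finsetSum _ fun j _ => hi _ j]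
    rw [← integral_finsetSum _ fun i _ => integrable_finsetSum _ fun j _ => hi i j,
      ← integral_const_mul]
    refine integral_congr_ae (ae_of_all _ fun x => ?_)
    simp only [coulomb, Finset.sum_mul, mul_assoc, div_eq_mul_inv]
    rfl
  refine le_of_mul_le_mul_left ?_ (by positivity : (0 : ℝ) < 4 ^ Fintype.card Y)
  have h2 : 4 ^ Fintype.card Y * ∫ x, coulomb c x * (GG t χ ε x ^ 2 * ∏ k, φ (x k) ^ 2) =
      (1 / 2) * ∑ i, ∑ j ∈ Finset.univ.erase i,
        (c i * c j * Pp - (ε i * c i) * (ε j * c j) * Q) := by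
    rw [h1, mul_left_comm, Finset.mul_sum]
    congr 1
    refine Finset.sum_congr rfl fun i _ => ?_
    rw [Finset.mul_sum]
    refine Finset.sum_congr rfl fun j hj => ?_
    rw [mul_left_comm, d.pair_eq hε (Finset.ne_of_mem_erase hj).symm]
    ring
  have h3 : ∑ i, ∑ j ∈ Finset.univ.erase i, c i * c j = (∑ k, c k) ^ 2 - ∑ k, c k ^ 2 := by
    rw [sq, Finset.sum_mul_sum, ← Finset.sum_sub_distrib]
    refine Finset.sum_congr rfl fun i _ => ?_
    rw [← Finset.add_sum_erase _ _ (Finset.mem_univ i)]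
    ring
  have h4 : (Fintype.card ι : ℝ) * (Fintype.card ι - 1) * cm ^ 2 ≤
      ∑ i, ∑ j ∈ Finset.univ.erase i, (ε i * c i) * (ε j * c j) := by
    calc _ = ∑ i : ι, ∑ _j ∈ Finset.univ.erase i, cm * cm := by
          simp only [Finset.sum_const, Finset.card_erase_of_mem (Finset.mem_univ _),
            Finset.card_univ, nsmul_eq_mul]
          rw [Nat.cast_sub (by omega)]
          push_cast
          ring
      _ ≤ _ := Finset.sum_le_sum fun i _ => Finset.sum_le_sum fun j _ =>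
          mul_le_mul (hc i) (hc j) hcm (hcm.trans (hc i))
  rw [h2]
  simp only [Finset.sum_sub_distrib, ← Finset.sum_mul, h3]
  have h5 := mul_le_mul_of_nonneg_right h4 hQ0
  have h6 : (0 : ℝ) ≤ Fintype.card ι * (Fintype.card ι - 1) * cm ^ 2 := by
    have : (2 : ℝ) ≤ Fintype.card ι := by exact_mod_cast hN2
    exact mul_nonneg (mul_nonneg (by linarith) (by linarith)) (sq_nonneg _)
  have h7 := mul_le_mul_of_nonneg_left hQ1 h6
  have h8 := mul_nonneg (sub_nonneg.mpr hq) hP0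
  nlinarith

end Dyson

end Pool.Agent.Lib.MP_0655ed_mp
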