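import Pool.Agent.Lib.MP_0655ed_mp.ImpDyson2

open Finset MeasureTheory

set_option linter.unusedSectionVars false
set_option maxHeartbeats 400000

namespace Pool.Agent.Lib.MP_0655ed_mp

namespace Dyson

theorem vk_near {z : E} {l : ℝ} (hz : z ≠ 0) (hl : ‖z‖ ≤ 2 * l) : 1 / (4 * l) ≤ vk z := by
  have h0 : 0 < ‖z‖ := norm_pos_iff.mpr hz
  have h1 : ‖z‖ ≤ √(∑ k, z k ^ 2) := by
    refine (pi_norm_le_iff_of_nonneg (Real.sqrt_nonneg _)).mpr fun k => ?_
    rw [Real.norm_eq_abs]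
    exact Real.abs_le_sqrt (Finset.single_le_sum (f := fun k => z k ^ 2)
      (fun _ _ => sq_nonneg _) (Finset.mem_univ k))
  rw [one_div]
  refine inv_anti₀ (h0.trans_le h1) (Real.sqrt_le_iff.mpr ⟨by linarith, ?_⟩)
  have h2 : ∀ k, z k ^ 2 ≤ (2 * l) ^ 2 := fun k => by
    rw [← sq_abs]
    exact pow_le_pow_left₀ (abs_nonneg _) ((norm_le_pi_norm z k).trans hl) 2
  rw [Fin.sum_univ_three]
  nlinarith [h2 0, h2 1, h2 2]

theorem vk_far {z : E} (hz : 1 / 2 ≤ |z 0|) : vk z ≤ 2 := by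
  have h1 : |z 0| ≤ √(∑ k, z k ^ 2) := Real.abs_le_sqrt (Finset.single_le_sum
    (f := fun k => z k ^ 2) (fun _ _ => sq_nonneg _) (Finset.mem_univ 0))
  calc vk z ≤ (1 / 2)⁻¹ := inv_anti₀ (by norm_num) (hz.trans h1)
    _ = 2 := by norm_num

theorem ae_ne : ∀ᵐ p : E × E, p.1 ≠ p.2 := by
  refine (Measure.ae_prod_iff_ae_ae (μ := volume) (ν := volume)
    (p := fun p : E × E => p.1 ≠ p.2) measurableSet_diagonal.compl).mpr (ae_of_all _ fun x => ?_)
  filter_upwards [Measure.ae_ne volume x] with y hy using hy.symm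

theorem DD_odd {f : E → ℝ} (hf : CS f) (h0 : ∀ x, 0 ≤ f x) {y : E} {l : ℝ} (hl : 0 < l)
    (hl1 : l ≤ 1 / 16) (hs : ∀ x, f x ≠ 0 → ‖x - y‖ ≤ l ∧ 1 / 4 ≤ x 0) :
    (∫ x, f x) ^ 2 / (4 * l) ≤ DD (fun x => f x - f (-x)) (fun x => f x - f (-x)) := by
  have hg : CS fun x => f (-x) :=
    ⟨hf.1.comp continuous_neg, hf.2.comp_homeomorph (Homeomorph.neg E)⟩
  have hd : CS fun x => f x - f (-x) := ⟨hf.1.sub hg.1, hf.2.sub hg.2⟩
  have hI : ∫ x, f (-x) = ∫ x, f x := integral_neg_eq_self f volume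
  have i1 := hf.int.mul_prod hf.int
  have i2 := hg.int.mul_prod hg.int
  have i3 := hf.int.mul_prod hg.int
  have i4 := hg.int.mul_prod hf.int
  have h1 : ∫ p : E × E, (1 / (4 * l) * (f p.1 * f p.2 + f (-p.1) * f (-p.2)) -
      2 * (f p.1 * f (-p.2) + f (-p.1) * f p.2)) ≤
      DD (fun x => f x - f (-x)) (fun x => f x - f (-x)) := by
    refine integral_mono_ae (((i1.add i2).const_mul _).sub ((i3.add i4).const_mul _))
      (int_pairR hd hd) ?_
    filter_upwards [ae_ne] with p hp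
    have n1 : ∀ u v, u ≠ v → 1 / (4 * l) * (f u * f v) ≤ vk (u - v) * (f u * f v) := by
      intro u v huv
      by_cases h : f u * f v = 0
      · simp [h]
      · refine mul_le_mul_of_nonneg_right (vk_near (sub_ne_zero.mpr huv) ?_)
          (mul_nonneg (h0 _) (h0 _))
        have h2 := norm_sub_le (u - y) (v - y)
        rw [sub_sub_sub_cancel_right] at h2
        linarith [(hs u (left_ne_zero_of_mul h)).1, (hs v (right_ne_zero_of_mul h)).1]
    have n2 : ∀ u v, vk (u - v) * (f u * f (-v)) ≤ 2 * (f u * f (-v)) := by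
      intro u v
      by_cases h : f u * f (-v) = 0
      · simp [h]
      · refine mul_le_mul_of_nonneg_right (vk_far (le_trans ?_ (le_abs_self _)))
          (mul_nonneg (h0 _) (h0 _))
        have h2 := (hs u (left_ne_zero_of_mul h)).2
        have h3 := (hs _ (right_ne_zero_of_mul h)).2
        rw [Pi.neg_apply] at h3
        rw [Pi.sub_apply]
        linarith
    have a1 := n1 p.1 p.2 hp
    have a2 := n1 (-p.1) (-p.2) (by simpa using hp)
    have a3 := n2 p.1 p.2
    have a4 := n2 p.2 p.1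
    rw [neg_sub_neg, ← vk_neg, neg_sub] at a2
    rw [← vk_neg, neg_sub] at a4
    linarith
  refine le_trans ?_ h1
  have e1 := integral_prod_mul (μ := volume) (ν := volume) f f
  have e2 := integral_prod_mul (μ := volume) (ν := volume) (fun x => f (-x)) (fun x => f (-x))
  have e3 := integral_prod_mul (μ := volume) (ν := volume) f (fun x => f (-x))
  have e4 := integral_prod_mul (μ := volume) (ν := volume) (fun x => f (-x)) f
  have e5 := integral_sub ((i1.add i2).const_mul (1 / (4 * l))) ((i3.add i4).const_mul 2)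
  simp only [Pi.add_apply] at e5
  rw [Measure.volume_eq_prod, e5, integral_const_mul, integral_const_mul, integral_add i1 i2,
    integral_add i3 i4, e1, e2, e3, e4, hI]
  have h4 : 4 ≤ 1 / (4 * l) := by
    rw [le_div_iff₀ (by positivity)]
    linarith
  have h5 := mul_le_mul_of_nonneg_right h4 (sq_nonneg (∫ x, f x))
  rw [div_eq_mul_one_div]
  nlinarith

theorem exists_phi : ∃ (φ : E → ℝ) (κ : ℝ), 0 < κ ∧ ContDiff ℝ (⊤ : ℕ∞) φ ∧
    (∀ x, φ x ≠ 0 → ‖x‖ ≤ 2) ∧ (∀ x, φ (-x) = φ x) ∧ ∫ x, φ x ^ 2 = 1 ∧ (∀ x, φ x ^ 2 ≤ κ) ∧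
    ∀ x, ‖x‖ ≤ 1 → φ x ^ 2 = κ := by
  let b : ContDiffBump (0 : E) := ⟨1, 2, by positivity, by linarith⟩
  have h1 : 0 < ∫ z, b z ^ 2 := by
    refine (b.continuous.pow 2).integral_pos_of_hasCompactSupport_nonneg_nonzero
      (b.hasCompactSupport.comp_left (g := fun t : ℝ => t ^ 2) (by simp))
      (fun _ => sq_nonneg _) (x := 0) ?_
    rw [b.one_of_mem_closedBall (Metric.mem_closedBall_self b.rIn_pos.le)]
    simp
  refine ⟨fun z => (√(∫ z, b z ^ 2))⁻¹ * b z, (∫ z, b z ^ 2)⁻¹, inv_pos.mpr h1,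
    contDiff_const.mul b.contDiff, fun z hz => ?_, fun z => by simp only [b.neg], ?_, fun z => ?_,
    fun z hz => ?_⟩
  · have h2 : z ∈ Function.support b := right_ne_zero_of_mul hz
    rw [b.support_eq, mem_ball_zero_iff] at h2
    exact h2.le
  · simp only [mul_pow, inv_pow, Real.sq_sqrt h1.le, integral_const_mul]
    exact inv_mul_cancel₀ h1.ne'
  · simp only [mul_pow, inv_pow, Real.sq_sqrt h1.le]
    exact mul_le_of_le_one_right (inv_pos.mpr h1).le (pow_le_one₀ b.nonneg b.le_one)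
  · simp only [mul_pow, inv_pow, Real.sq_sqrt h1.le]
    rw [b.one_of_mem_closedBall (mem_closedBall_zero_iff.mpr hz)]
    simp

theorem exists_data : ∃ (φ : E → ℝ) (K : ℝ), ∀ C : ℝ, ∃ (m : ℕ) (χ : (Fin 3 → Fin m) → E → ℝ)
    (α β D : ℝ), 0 < α ∧ Data φ χ α β D K ∧ C * α ≤ Fintype.card (Fin 3 → Fin m) * β := by
  obtain ⟨φ, κ, hκ, hφs, hφ2, hφe, hφn, hφle, hφeq⟩ := exists_phi
  refine ⟨φ, ∑ k, ∫ x, (fderiv ℝ φ x (Pi.single k 1)) ^ 2, fun C => ?_⟩
  have hφc : HasCompactSupport φ :=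
    HasCompactSupport.intro (isCompact_closedBall 0 2) fun x hx => by
      by_contra h0
      exact hx (mem_closedBall_zero_iff.mpr (hφ2 x h0))
  have hcs : CS fun x => φ x ^ 2 := CS.sq ⟨hφs.continuous, hφc⟩
  obtain ⟨l, hl, hl1, hlC⟩ : ∃ l : ℝ, 0 < l ∧ l ≤ 1 / 16 ∧ C * (32 * 28 ^ 3 * l) ≤ κ := by
    refine ⟨min (1 / 16) (κ / (32 * 28 ^ 3 * (|C| + 1))), by positivity, min_le_left _ _, ?_⟩
    have h1 := min_le_right (1 / 16) (κ / (32 * 28 ^ 3 * (|C| + 1)))
    have h2 : 0 < min (1 / 16) (κ / (32 * 28 ^ 3 * (|C| + 1))) := by positivity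
    rw [le_div_iff₀ (by positivity)] at h1
    have h3 := le_abs_self C
    nlinarith
  obtain ⟨m, c, hsep, hin, hm⟩ := exists_grid hl (L := 1 / 2) (by linarith)
  let b : ContDiffBump (0 : E) := ⟨l / 2, l, by positivity, by linarith⟩
  let w : E := fun _ => 1 / 2
  have hw : ‖w‖ = 1 / 2 := by
    rw [pi_norm_const, Real.norm_eq_abs, abs_of_pos (by norm_num)]
  let p : (Fin 3 → Fin m) → E → ℝ := fun μ x => b (x - w - c μ)
  have hps : ∀ μ, ContDiff ℝ (⊤ : ℕ∞) (p μ) := fun μ =>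
    b.contDiff.comp ((contDiff_id.sub contDiff_const).sub contDiff_const)
  have hp0 : ∀ μ x, 0 ≤ p μ x := fun μ x => b.nonneg
  have hp1 : ∀ μ x, p μ x ≤ 1 := fun μ x => b.le_one
  have F1 : ∀ μ x, p μ x ≠ 0 → ‖x - w - c μ‖ ≤ l := fun μ x hx => by
    have h2 : x - w - c μ ∈ Function.support b := hx
    rw [b.support_eq, mem_ball_zero_iff] at h2
    exact h2.le
  have F2 : ∀ μ x, p μ x ≠ 0 → 1 / 4 < x 0 ∧ ‖x‖ ≤ 1 := fun μ x hx => by
    have h1 := norm_add_le (x - w - c μ) (c μ)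
    have h2 := norm_add_le (x - w) w
    rw [sub_add_cancel] at h1 h2
    have h3 := F1 μ x hx
    have h4 := hin μ
    have h5 := norm_le_pi_norm (x - w) 0
    rw [Real.norm_eq_abs] at h5
    have h6 := neg_abs_le ((x - w) 0)
    have h7 : (x - w) 0 = x 0 - 1 / 2 := rfl
    constructor <;> linarith
  have F3 : ∀ μ ν x, p μ x ≠ 0 → p ν (-x) = 0 := fun μ ν x hx => by
    by_contra h0
    have h1 := (F2 μ x hx).1
    have h2 := (F2 ν _ h0).1
    rw [Pi.neg_apply] at h2
    linarith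
  have hpc : ∀ μ, CS (p μ) := fun μ => ⟨(hps μ).continuous,
    HasCompactSupport.intro (isCompact_closedBall 0 1) fun x hx => by
      by_contra h0
      exact hx (mem_closedBall_zero_iff.mpr (F2 μ x h0).2)⟩
  have hpn : ∀ μ, CS fun x => p μ (-x) := fun μ =>
    ⟨(hpc μ).1.comp continuous_neg, (hpc μ).2.comp_homeomorph (Homeomorph.neg E)⟩
  set J := ∫ x, b x with hJ
  have hJp : ∀ μ, ∫ x, p μ x = J := fun μ => by
    simp only [p, sub_sub]
    exact integral_sub_right_eq_self b _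
  have hJl : l ^ 3 ≤ J := by
    refine le_trans (le_of_eq ?_) (b.measure_closedBall_le_integral volume)
    rw [Measure.real, Real.volume_pi_closedBall _ b.rIn_pos.le, ENNReal.toReal_ofReal
      (pow_nonneg (mul_nonneg zero_le_two b.rIn_pos.le) _), Fintype.card_fin]
    show _ = (2 * (l / 2)) ^ 3
    ring
  have hJ0 : 0 < J := lt_of_lt_of_le (by positivity) hJl
  let χ : (Fin 3 → Fin m) → E → ℝ := fun μ x => p μ x - p μ (-x)
  have hχs : ∀ μ, ContDiff ℝ (⊤ : ℕ∞) (χ μ) := fun μ => (hps μ).sub ((hps μ).comp contDiff_neg)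
  have hD : ∀ μ, ∃ D : ℝ, ∀ x, ‖fderiv ℝ (χ μ) x‖ ≤ D := fun μ =>
    ((hχs μ).continuous_fderiv (by simp)).bounded_above_of_compact_support
      (((hpc μ).2.sub (hpn μ).2).fderiv ℝ)
  choose D hD using hD
  refine ⟨m, χ, 2 * κ * J, (κ * J / 2) ^ 2 / (4 * l), ∑ μ, D μ, by positivity,
    ⟨hφs, hφ2, hφe, hφn, fun k => Finset.single_le_sum
      (f := fun k => ∫ x, (fderiv ℝ φ x (Pi.single k 1)) ^ 2)
      (fun _ _ => integral_nonneg fun _ => sq_nonneg _) (Finset.mem_univ k), hχs,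
      fun μ x => by simp [χ], fun μ x => ?_, fun μ ν x h1 h2 => ?_, fun μ x k => ?_, fun μ => ?_,
      by positivity, fun μ t ht ht1 => ?_⟩, ?_⟩
  · rw [abs_le]
    constructor <;> simp only [χ] <;> linarith [hp0 μ x, hp1 μ x, hp0 μ (-x), hp1 μ (-x)]
  · have key : ∀ z, p μ z ≠ 0 → p ν z ≠ 0 → μ = ν := fun z h1 h2 =>
      hsep.eq hl ((F1 μ z h1).trans (by linarith)) ((F1 ν z h2).trans (by linarith))
    by_cases h3 : p μ x = 0
    · have h4 : p μ (-x) ≠ 0 := fun h => h1 (by simp [χ, h3, h])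
      have h5 := F3 μ ν _ h4
      rw [neg_neg] at h5
      exact key _ h4 fun h => h2 (by simp [χ, h5, h])
    · exact key _ h3 fun h => h2 (by simp [χ, F3 μ ν x h3, h])
  · rw [← Real.norm_eq_abs]
    refine (ContinuousLinearMap.le_opNorm _ _).trans ?_
    rw [Pi.norm_single, norm_one, mul_one]
    exact (hD μ x).trans (Finset.single_le_sum (fun ν _ => (norm_nonneg _).trans (hD ν 0))
      (Finset.mem_univ μ))
  · have h1 : ∫ x, κ * (p μ x + p μ (-x)) = 2 * κ * J := by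
      rw [integral_const_mul, integral_add (hpc μ).int (hpn μ).int, integral_neg_eq_self, hJp]
      ring
    rw [← h1]
    refine integral_mono (hcs.mul ((hχs μ).continuous.pow 2)).int
      (((hpc μ).int.add (hpn μ).int).const_mul _) fun x => ?_
    refine mul_le_mul (hφle x) ?_ (sq_nonneg _) hκ.le
    simp only [χ]
    nlinarith [hp0 μ x, hp1 μ x, hp0 μ (-x), hp1 μ (-x)]
  · let f : E → ℝ := fun x => φ x ^ 2 * Real.sin (t * p μ x)
    have hfc : CS f := hcs.mul (Real.continuous_sin.comp (continuous_const.mul (hpc μ).1))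
    have hlow : ∀ x, κ * t / 2 * p μ x ≤ f x := fun x => by
      by_cases h : p μ x = 0
      · simp [f, h]
      · have h1 := mul_nonneg ht (hp0 μ x)
        have h2 : t * p μ x ≤ 1 := mul_le_one₀ ht1 (hp0 μ x) (hp1 μ x)
        have h3 := Real.mul_le_sin h1 (by linarith [Real.pi_gt_three])
        have h4 : 1 / 2 ≤ 2 / Real.pi := by
          rw [le_div_iff₀ Real.pi_pos]
          linarith [Real.pi_le_four]
        have h5 := mul_le_mul_of_nonneg_right h4 h1
        simp only [f, hφeq x (F2 μ x h).2]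
        nlinarith
    have hf0 : ∀ x, 0 ≤ f x := fun x => le_trans (mul_nonneg (by positivity) (hp0 μ x)) (hlow x)
    have hS : (fun x => φ x ^ 2 * Real.sin (t * χ μ x)) = fun x => f x - f (-x) := by
      funext x
      by_cases h : p μ x = 0
      · simp [f, χ, h, hφe]
      · simp [f, χ, F3 μ μ x h]
    rw [hS]
    refine le_trans ?_ (DD_odd hfc hf0 (y := w + c μ) hl hl1 fun x hx => ?_)
    · have h1 : κ * t / 2 * J ≤ ∫ x, f x := by
        rw [← hJp μ, ← integral_const_mul]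
        exact integral_mono ((hpc μ).int.const_mul _) hfc.int hlow
      have h2 := pow_le_pow_left₀ (by positivity) h1 2
      rw [div_mul_eq_mul_div]
      refine div_le_div_of_nonneg_right (le_trans (le_of_eq ?_) h2) (by positivity)
      ring
    · have h : p μ x ≠ 0 := fun h => hx (by simp [f, h])
      exact ⟨by rw [← sub_sub]; exact F1 μ x h, (F2 μ x h).1.le⟩
  · have h1 : (1 : ℝ) ≤ 28 * l * m := by
      rw [div_le_iff₀ (by positivity)] at hm
      linarith
    have h2 : (1 : ℝ) ≤ 28 ^ 3 * J * m ^ 3 := by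
      have h3 := one_le_pow₀ (n := 3) h1
      have h4 := mul_le_mul_of_nonneg_right hJl (by positivity : (0 : ℝ) ≤ 28 ^ 3 * m ^ 3)
      nlinarith
    simp only [Fintype.card_pi, Fintype.card_fin, Finset.prod_const, Finset.card_univ]
    push_cast
    rw [← mul_div_assoc, le_div_iff₀ (by positivity)]
    have h5 := mul_le_mul_of_nonneg_right hlC (by positivity : 0 ≤ κ * J)
    have h6 := mul_le_mul_of_nonneg_right h2 (by positivity : 0 ≤ κ * (κ * J))
    nlinarith

end Dyson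

end Pool.Agent.Lib.MP_0655ed_mp
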