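import Pool.Agent.Lib.MP_0655ed_mp.ImpPauli2

open Finset MeasureTheory Real Filter Topology

set_option maxHeartbeats 400000

namespace Pool.Agent.Lib.MP_0655ed_mp

section
variable {Sp ι : Type} [Fintype ι] [DecidableEq ι] [Fintype Sp]

theorem pl_sum_neg (c d : ι → ℝ) {cb : ℝ} (hd : ∀ j, d j ≤ if c j < 0 then cb else 0)
    {U : ι → X ι → ℝ} (hU : ∀ j, LocallyIntegrable (U j)) (hU0 : ∀ j x, 0 ≤ U j x) {ψ : Wv ι Sp}
    (h : Cc ψ) {φ : ι → Wv ι Sp} (hφ : ∀ j, Cc (φ j)) (hcb : 0 ≤ cb) :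
    pot (fun x => ∑ j, d j * U j x) ψ ≤
      cb * (2 * ∑ j ∈ Finset.univ.filter fun j => c j < 0, pot (U j) (φ j) +
        2 * ∑ j, pot (U j) (ψ + (-1 : ℂ) • φ j)) := by
  rw [pot_sum (U := fun j x => d j * U j x) _ (fun j _ => (hU j).smul (d j)) h]
  simp only [pot_const_mul]
  rw [Finset.sum_filter, Finset.mul_sum, Finset.mul_sum, ← Finset.sum_add_distrib, Finset.mul_sum]
  refine Finset.sum_le_sum fun j _ => ?_
  refine (mul_le_mul_of_nonneg_right (hd j) (pot_nonneg (hU0 j) ψ)).trans ?_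
  split_ifs
  · exact mul_le_mul_of_nonneg_left (pl_pot_split (hU j) (hU0 j) h (hφ j)) hcb
  · have := pot_nonneg (hU0 j) (ψ + (-1 : ℂ) • φ j)
    rw [zero_mul]
    positivity

theorem pl_int_th {b : ℝ} (hb : 0 < b) (z0 : E) {F : E → ℝ} (hF : Continuous F) {M : ℝ}
    (hM : ∀ z, |F z| ≤ M) : Integrable fun z => th b (z - z0) * F z :=
  ((integrable_th hb).comp_sub_right z0).mul_bdd (c := M) hF.aestronglyMeasurable
    (ae_of_all _ hM)

theorem pl_pot_th {b : ℝ} (hb : 0 < b) (z0 : E) {F : E → X ι → ℝ}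
    (hF : Continuous fun p : E × X ι => F p.1 p.2) {M : ℝ} (hM : ∀ z x, |F z x| ≤ M) {ψ : Wv ι Sp}
    (h : Cc ψ) : Integrable (fun z => th b (z - z0) * pot (F z) ψ) ∧
      LocallyIntegrable (fun x => ∫ z, th b (z - z0) * F z x) ∧
      ∫ z, th b (z - z0) * pot (F z) ψ = pot (fun x => ∫ z, th b (z - z0) * F z x) ψ := by
  have := pot_integral (μ := volume) (F := fun z x => th b (z - z0) * F z x)
    (((continuous_th hb).comp (continuous_fst.sub continuous_const)).mul hF).measurable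
    ((integrable_th hb).comp_sub_right z0) (H := fun _ => M) continuous_const
    (ae_of_all _ fun z x => by
      rw [abs_mul, abs_of_pos (th_pos hb _)]
      exact mul_le_mul_of_nonneg_left (hM z x) (th_pos hb _).le) h
  simpa only [pot_const_mul] using this

theorem pl_conv_nb {b u : ℝ} (hb : 0 < b) (hu : 0 < u) (z0 : E) {ψ : Wv ι Sp} (h : Cc ψ) :
    Integrable (fun z => th b (z - z0) * nb ψ (hk u) z) ∧
      ∫ z, th b (z - z0) * nb ψ (hk u) z = nb ψ (th (b + u)) z0 := by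
  have h0 : ∀ y, |hk u y| ≤ hk u 0 := fun y => by
    rw [abs_of_pos (hk_pos hu _)]
    exact hk_le_zero hu _
  obtain ⟨h1, -, h2⟩ := pl_pot_th hb z0 (F := ph (fun _ : ι => (1 : ℝ)) (hk u))
    (continuous_ph _ (continuous_hk u)) (M := ∑ _j : ι, hk u 0)
    (fun z x => (Finset.abs_sum_le_sum_abs _ _).trans (Finset.sum_le_sum fun j _ => by
      rw [one_mul]
      exact h0 _)) h
  refine ⟨h1, h2.trans ?_⟩
  unfold nb
  congr 1
  funext x
  simp only [ph, one_mul, Finset.mul_sum]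
  rw [integral_finsetSum _ fun j _ => pl_int_th hb z0 (F := fun z => hk u (x j - z))
    ((continuous_hk u).comp (continuous_const.sub continuous_id)) fun z => h0 (x j - z)]
  exact Finset.sum_congr rfl fun j _ => th_conv hb hu z0 (x j)

end

variable {σ Sp : Type} [Fintype σ] [DecidableEq σ] [Fintype Sp]

/-- density of the negative particles (fermions) -/
theorem dens {P : Species σ Sp} (hf : ∀ s, P.charge s < 0 → P.fermion s = true) :
    ∃ C : ℝ, 0 < C ∧ ∀ (ι : Type) [Fintype ι] [DecidableEq ι] (sp : ι → σ) (L : ℝ) (ψ : Wv ι Sp),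
    Tst P sp L ψ → ∀ g : E → ℝ, Continuous g → (∀ x, 0 ≤ g x) → (∃ M, ∀ x, g x ≤ M) →
    Integrable g → ∫ x, g x ≤ 1 → ∀ T : ℝ, (∀ z, tb ψ g z ≤ T) → ∀ r : ℝ, 0 < r → ∀ z,
    pot (ph (ngv (ch P sp)) g z) ψ ≤ C * (nr ψ / r ^ 3 + r ^ 2 * T) := by
  refine ⟨2 * (Fintype.card σ * Fintype.card Sp) + 6, by positivity, ?_⟩
  intro ι _ _ sp L ψ hψ g hg hg0 _ hgi hg1 T hT r hr z
  obtain ⟨ρ, hρ⟩ := pl_bump hr
  have hT0 : 0 ≤ T := (tb_nonneg ψ hg0 z).trans (hT z)
  have h1 := pl_sum_neg (ch P sp) (ngv (ch P sp)) (cb := 1) (fun j => le_rfl)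
    (U := fun j x => g (x j - z))
    (fun j => (hg.comp ((continuous_apply j).sub continuous_const)).locallyIntegrable)
    (fun _ _ => hg0 _) hψ.nice.cc (fun j => pl_sm_cc hρ j hψ.nice.cc) zero_le_one
  have h2 := pl_low hf hψ hρ (W := fun _ => 1) continuous_const (fun _ => zero_le_one)
    (fun _ _ _ => rfl) hg hg0 hgi z
  simp only [one_mul] at h1 h2
  have h3 := pl_high hρ hψ.nice hg hg0 hT z
  have h4 : 0 ≤ nr ψ / r ^ 3 := div_nonneg (nr_nonneg _) (by positivity)
  have h5 : (∫ x, g x) * (1 / r ^ 3 * pot (fun _ => 1) ψ) ≤ nr ψ / r ^ 3 := by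
    rw [show 1 / r ^ 3 * pot (fun _ => 1) ψ = nr ψ / r ^ 3 by rw [nr]; ring]
    exact mul_le_of_le_one_left h4 hg1
  have h6 := h2.trans (mul_le_mul_of_nonneg_left
    (mul_le_mul_of_nonneg_left h5 (Nat.cast_nonneg _)) (Nat.cast_nonneg _))
  have h7 : 0 ≤ (Fintype.card σ * Fintype.card Sp : ℝ) * (r ^ 2 * T) := by positivity
  refine le_trans h1 ?_
  nlinarith

/-- short range attraction at one scale -/
theorem sr_scale {P : Species σ Sp} (hf : ∀ s, P.charge s < 0 → P.fermion s = true) {cb : ℝ}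
    (hcb : ∀ s, |P.charge s| ≤ cb) :
    ∃ C : ℝ, 0 < C ∧ ∀ (ι : Type) [Fintype ι] [DecidableEq ι] (sp : ι → σ) (L : ℝ) (ψ : Wv ι Sp),
    Tst P sp L ψ → ∀ a v u : ℝ, 0 < a → 0 < u → u ≤ v → ∀ T : ℝ,
    (∀ z, tb ψ (th (a + v)) z ≤ T) → ∀ r : ℝ, 0 < r → ∀ z0,
    pot (SR (ch P sp) cb a v z0 u) ψ ≤
      C * (nb ψ (th (a + v)) z0 / r ^ 3 + r ^ 2 * T / √u ^ 3) := by
  refine ⟨(2 * (Fintype.card σ * Fintype.card Sp) + 6) * cb ^ 2 + 1, by positivity, ?_⟩
  intro ι _ _ sp L ψ hψ a v u ha hu huv T hT r hr z0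
  have hB : 0 < a + v := by linarith
  have hb : 0 < a + v - u := by linarith
  have hT0 : 0 ≤ T := (tb_nonneg ψ (fun x => (th_pos hB x).le) z0).trans (hT z0)
  have hN0 : 0 ≤ nb ψ (th (a + v)) z0 / r ^ 3 :=
    div_nonneg (nb_nonneg ψ (fun x => (th_pos hB x).le) z0) (by positivity)
  have hR0 : 0 ≤ r ^ 2 * T / √u ^ 3 := by positivity
  rcases isEmpty_or_nonempty ι with hι | ⟨⟨j0⟩⟩
  · have : SR (ch P sp) cb a v z0 u = fun _ => 0 := by
      funext x
      simp [SR, ph]
    rw [this, pot_const, zero_mul]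
    positivity
  have hcb0 : 0 ≤ cb := (abs_nonneg _).trans (hcb (sp j0))
  obtain ⟨ρ, hρ⟩ := pl_bump hr
  have hc := hψ.nice.cc
  obtain ⟨W, hW⟩ : ∃ W : E → X ι → ℝ, ∀ z x, W z x =
    min (cb * hk u 0) (ph (fun j => max (ch P sp j) 0) (hk u) z x) := ⟨_, fun _ _ => rfl⟩
  have hM0 : 0 ≤ cb * hk u 0 := mul_nonneg hcb0 (hk_nonneg _ _)
  have hWc : Continuous fun p : E × X ι => W p.1 p.2 := by
    simp only [hW]
    exact continuous_const.min (continuous_ph _ (continuous_hk u))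
  have hW0 : ∀ z x, 0 ≤ W z x := fun z x => by
    rw [hW]
    exact le_min hM0
      (Finset.sum_nonneg fun j _ => mul_nonneg (le_max_right _ _) (hk_nonneg _ _))
  have hW1 : ∀ z x, W z x ≤ cb * hk u 0 := fun z x => by
    rw [hW]
    exact min_le_left _ _
  have hW2 : ∀ z x, W z x ≤ cb * ph (fun _ => 1) (hk u) z x := fun z x => by
    rw [hW]
    refine (min_le_right _ _).trans ?_
    unfold ph
    rw [Finset.mul_sum]
    refine Finset.sum_le_sum fun j _ => ?_
    rw [one_mul]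
    exact mul_le_mul_of_nonneg_right (max_le ((le_abs_self _).trans (hcb _)) hcb0) (hk_nonneg _ _)
  have hWi : ∀ z x y, (∀ i, ¬ ch P sp i < 0 → x i = y i) → W z x = W z y := fun z x y h => by
    simp only [hW, ph]
    congr 1
    refine Finset.sum_congr rfl fun j _ => ?_
    by_cases hj : ch P sp j < 0
    · rw [max_eq_right hj.le, zero_mul, zero_mul]
    · rw [h j hj]
  have hFc : ∀ j, Continuous fun p : E × X ι => W p.1 p.2 * hk u (p.2 j - p.1) := fun j =>
    hWc.mul ((continuous_hk u).comp (((continuous_apply j).comp continuous_snd).sub continuous_fst))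
  have hF0 : ∀ j z x, 0 ≤ W z x * hk u (x j - z) := fun j z x =>
    mul_nonneg (hW0 _ _) (hk_nonneg _ _)
  have hFb : ∀ j z x, |W z x * hk u (x j - z)| ≤ cb * hk u 0 * hk u 0 := fun j z x => by
    rw [abs_of_nonneg (hF0 j z x)]
    exact mul_le_mul (hW1 _ _) (hk_le_zero hu _) (hk_nonneg _ _) hM0
  have hFi : ∀ j x, Integrable fun z => th (a + v - u) (z - z0) * (W z x * hk u (x j - z)) :=
    fun j x => pl_int_th hb z0 (F := fun z => W z x * hk u (x j - z))
      ((hFc j).comp (f := fun z : E => (z, x)) (continuous_id.prodMk continuous_const))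
      fun z => hFb j z x
  have key := fun j (φ : Wv ι Sp) (hφ : Cc φ) =>
    pl_pot_th hb z0 (F := fun z x => W z x * hk u (x j - z)) (hFc j) (hFb j) hφ
  obtain ⟨U, hU⟩ : ∃ U : ι → X ι → ℝ, ∀ j, U j =
    fun x => ∫ z, th (a + v - u) (z - z0) * (W z x * hk u (x j - z)) := ⟨_, fun _ => rfl⟩
  simp only [← hU] at key
  have hUl : ∀ j, LocallyIntegrable (U j) := fun j => (key j ψ hc).2.1
  have hU0 : ∀ j x, 0 ≤ U j x := fun j x => by
    rw [hU]
    exact integral_nonneg fun z => mul_nonneg (th_pos hb _).le (hF0 j z x)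
  have hSR : SR (ch P sp) cb a v z0 u = fun x => ∑ j, max (-ch P sp j) 0 * U j x := by
    funext x
    simp only [hU, ← integral_const_mul]
    rw [← integral_finsetSum _ fun j _ => (hFi j x).const_mul _, SR]
    refine integral_congr_ae (ae_of_all _ fun z => ?_)
    simp only [← hW]
    simp only [ph, Finset.sum_mul, Finset.mul_sum]
    refine Finset.sum_congr rfl fun j _ => ?_
    ring
  have h1 := pl_sum_neg (ch P sp) (fun j => max (-ch P sp j) 0) (cb := cb) (fun j => by
    split_ifs with hj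
    · exact max_le ((neg_le_abs _).trans (hcb _)) hcb0
    · exact max_le (by linarith [not_lt.mp hj]) le_rfl) hUl hU0 hc
    (fun j => pl_sm_cc hρ j hc) hcb0
  have hq : (0 : ℝ) ≤ Fintype.card σ * Fintype.card Sp := by positivity
  obtain ⟨h2, h3⟩ := pl_conv_nb hb hu z0 hc
  rw [sub_add_cancel] at h3
  have h4 : ∑ j ∈ Finset.univ.filter fun j => ch P sp j < 0, pot (U j) (pl_sm ρ j ψ) ≤
      Fintype.card σ * Fintype.card Sp * cb * (nb ψ (th (a + v)) z0 / r ^ 3) := by
    rw [← Finset.sum_congr rfl fun j _ => (key j _ (pl_sm_cc hρ j hc)).2.2,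
      ← integral_finsetSum _ fun j _ => (key j _ (pl_sm_cc hρ j hc)).1, ← h3, ← integral_div,
      ← integral_const_mul]
    refine integral_mono (integrable_finsetSum _ fun j _ => (key j _ (pl_sm_cc hρ j hc)).1)
      ((h2.div_const _).const_mul _) fun z => ?_
    have hWz : Continuous (W z) :=
      hWc.comp (f := fun x : X ι => (z, x)) (continuous_const.prodMk continuous_id)
    have h5 := pl_low hf hψ hρ hWz (hW0 z) (hWi z) (continuous_hk u) (hk_nonneg u)
      (integrable_hk hu) z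
    have h6 : pot (W z) ψ ≤ cb * nb ψ (hk u) z := by
      rw [nb, ← pot_const_mul]
      exact pot_mono hWz.locallyIntegrable
        ((locInt_ph _ (continuous_hk u).locallyIntegrable z).smul cb) hc (hW2 z)
    rw [integral_hk hu, one_mul] at h5
    have h7 := h5.trans (mul_le_mul_of_nonneg_left (mul_le_mul_of_nonneg_left
      (mul_le_mul_of_nonneg_left h6 (by positivity)) (Nat.cast_nonneg _)) (Nat.cast_nonneg _))
    simp only [← Finset.mul_sum]
    refine (mul_le_mul_of_nonneg_left h7 (th_pos hb _).le).trans (le_of_eq ?_)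
    ring
  have h8 : ∑ j, pot (U j) (ψ + (-1 : ℂ) • pl_sm ρ j ψ) ≤ 3 * cb * (r ^ 2 * T / √u ^ 3) := by
    have h9 := pl_high hρ hψ.nice (continuous_th hB) (fun x => (th_pos hB x).le) hT z0
    have h10 : ∀ j x, U j x ≤ cb * hk u 0 * th (a + v) (x j - z0) := by
      intro j x
      have h11 := th_conv hb hu z0 (x j)
      rw [sub_add_cancel] at h11
      rw [← h11, ← integral_const_mul, hU]
      refine integral_mono (hFi j x) ((pl_int_th hb z0 (F := fun z => hk u (x j - z))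
        ((continuous_hk u).comp (continuous_const.sub continuous_id)) (M := hk u 0) fun z => by
          rw [abs_of_nonneg (hk_nonneg _ _)]
          exact hk_le_zero hu _).const_mul _) fun z => ?_
      have := mul_le_mul_of_nonneg_left
        (mul_le_mul_of_nonneg_right (hW1 z x) (hk_nonneg u (x j - z))) (th_pos hb (z - z0)).le
      simp only
      linarith
    have h12 : ∑ j, pot (U j) (ψ + (-1 : ℂ) • pl_sm ρ j ψ) ≤ cb * hk u 0 *
        ∑ j, pot (fun x => th (a + v) (x j - z0)) (ψ + (-1 : ℂ) • pl_sm ρ j ψ) := by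
      rw [Finset.mul_sum]
      refine Finset.sum_le_sum fun j _ => ?_
      rw [← pot_const_mul]
      exact pot_mono (hUl j) (continuous_const.mul ((continuous_th hB).comp
        ((continuous_apply j).sub continuous_const))).locallyIntegrable
        (hc.add ((pl_sm_cc hρ j hc).smul _)) (h10 j)
    refine h12.trans ((mul_le_mul (mul_le_mul_of_nonneg_left (hk_zero_le hu) hcb0) h9
      (Finset.sum_nonneg fun j _ => pot_nonneg (fun x => (th_pos hB _).le) _)
      (by positivity)).trans (le_of_eq ?_))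
    rw [inv_pow]
    ring
  rw [hSR]
  refine h1.trans ((mul_le_mul_of_nonneg_left (add_le_add
    (mul_le_mul_of_nonneg_left h4 zero_le_two) (mul_le_mul_of_nonneg_left h8 zero_le_two))
    hcb0).trans ?_)
  have h13 := mul_nonneg (mul_nonneg hq (sq_nonneg cb)) hR0
  have h14 := mul_nonneg (sq_nonneg cb) hN0
  nlinarith

end Pool.Agent.Lib.MP_0655ed_mp
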