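import Pool.Agent.Lib.MP_0655ed_mp.ImpFlowB
import Pool.Agent.Lib.MP_0655ed_mp.ImpPauli

open Finset MeasureTheory Real Filter Topology

namespace Pool.Agent.Lib.MP_0655ed_mp

variable {σ Sp : Type} [Fintype σ] [DecidableEq σ] [Fintype Sp]

theorem es_abs_ph_le {ι : Type} [Fintype ι] (c : ι → ℝ) {g : E → ℝ} {M : ℝ}
    (hg : ∀ y, |g y| ≤ M) (z : E) (x : X ι) : |ph c g z x| ≤ (∑ j, |c j|) * M := by
  unfold ph
  rw [Finset.sum_mul]
  refine (Finset.abs_sum_le_sum_abs _ _).trans (Finset.sum_le_sum fun j _ => ?_)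
  rw [abs_mul]
  exact mul_le_mul_of_nonneg_left (hg _) (abs_nonneg _)

theorem es_cont_ph_x {ι : Type} [Fintype ι] (c : ι → ℝ) {g : E → ℝ} (hg : Continuous g) (z : E) :
    Continuous fun x : X ι => ph c g z x := by
  unfold ph
  exact continuous_finsetSum _ fun j _ =>
    continuous_const.mul (hg.comp ((continuous_apply j).sub continuous_const))

theorem es_cont_ph_z {ι : Type} [Fintype ι] (c : ι → ℝ) {g : E → ℝ} (hg : Continuous g)
    (x : X ι) : Continuous fun z : E => ph c g z x := by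
  unfold ph
  exact continuous_finsetSum _ fun j _ =>
    continuous_const.mul (hg.comp (continuous_const.sub continuous_id))

theorem es_abs_VV {u : ℝ} (hu : 0 < u) (y : E) : |VV u y| ≤ (√u)⁻¹ := by
  rw [abs_of_nonneg (VV_nonneg u y)]; exact VV_le hu y

theorem es_abs_hk {u : ℝ} (hu : 0 < u) (y : E) : |hk u y| ≤ hk u 0 := by
  rw [abs_of_nonneg (hk_nonneg u y)]; exact hk_le_zero hu y

theorem continuous_av2 {ι : Type} [Fintype ι] {g : E → ℝ} (hg : Integrable g) (c : ι → ℝ) {v : ℝ}
    (hv : 0 < v) {b : X ι → ℝ} (hb : Continuous b) (z0 : E) :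
    Continuous fun x => av2 g c v (b x) z0 x := by
  have hg' : Integrable fun z => g (z - z0) := hg.comp_sub_right z0
  refine continuous_iff_continuousAt.mpr fun x0 => ?_
  unfold av2
  set M : ℝ := (∑ j, |c j|) * (√v)⁻¹ + (|b x0| + 1) with hM
  refine continuousAt_of_dominated (bound := fun z => ‖g (z - z0)‖ * M ^ 2) ?_ ?_ ?_ ?_
  · refine Eventually.of_forall fun x => hg'.aestronglyMeasurable.mul ?_
    exact (((es_cont_ph_z c (continuous_VV v) x).sub continuous_const).pow 2).aestronglyMeasurable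
  · have h1 : ∀ᶠ x in 𝓝 x0, |b x| < |b x0| + 1 :=
      (hb.abs.continuousAt (x := x0)).eventually (gt_mem_nhds (by linarith))
    filter_upwards [h1] with x hx
    refine ae_of_all _ fun z => ?_
    rw [norm_mul]
    refine mul_le_mul_of_nonneg_left ?_ (norm_nonneg _)
    rw [norm_pow, Real.norm_eq_abs]
    refine pow_le_pow_left₀ (abs_nonneg _) ?_ 2
    have h2 := es_abs_ph_le c (es_abs_VV hv) z x
    have h3 := abs_sub (ph c (VV v) z x) (b x)
    linarith
  · exact hg'.norm.mul_const _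
  · refine ae_of_all _ fun z => Continuous.continuousAt ?_
    exact continuous_const.mul (((es_cont_ph_x c (continuous_VV v) z).sub hb).pow 2)

/-- the pair integrals -/
noncomputable def es_J (b' u : ℝ) (z0 p q : E) : ℝ :=
  ∫ z, th b' (z - z0) * (VV u (q - z) * hk u (p - z))

theorem es_int_th {b' : ℝ} (hb : 0 < b') (z0 : E) {f : E → ℝ} (hf : Continuous f) {M : ℝ}
    (hM : ∀ z, |f z| ≤ M) : Integrable fun z => th b' (z - z0) * f z :=
  ((integrable_th hb).comp_sub_right z0).mul_bdd hf.aestronglyMeasurable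
    (ae_of_all _ fun z => by rw [Real.norm_eq_abs]; exact hM z)

theorem es_abs_VVhk {u : ℝ} (hu : 0 < u) (y y' : E) :
    |VV u y * hk u y'| ≤ (√u)⁻¹ * hk u 0 := by
  rw [abs_mul]
  exact mul_le_mul (es_abs_VV hu _) (es_abs_hk hu _) (abs_nonneg _) (by positivity)

theorem es_int_J {b' u : ℝ} (hb : 0 < b') (hu : 0 < u) (z0 p q : E) :
    Integrable fun z => th b' (z - z0) * (VV u (q - z) * hk u (p - z)) :=
  es_int_th hb z0 (((continuous_VV u).comp (continuous_const.sub continuous_id)).mul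
    ((continuous_hk u).comp (continuous_const.sub continuous_id))) fun _ => es_abs_VVhk hu _ _

theorem es_cont_J {b' u : ℝ} (hb : 0 < b') (hu : 0 < u) (z0 : E) :
    Continuous fun p : E × E => es_J b' u z0 p.1 p.2 := by
  unfold es_J
  refine continuous_of_dominated (bound := fun z => th b' (z - z0) * ((√u)⁻¹ * hk u 0))
    (fun p => (es_int_J hb hu z0 p.1 p.2).aestronglyMeasurable) (fun p => ae_of_all _ fun z => ?_)
    (((integrable_th hb).comp_sub_right z0).mul_const _) (ae_of_all _ fun z => ?_)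
  · rw [norm_mul, Real.norm_eq_abs, Real.norm_eq_abs, abs_of_pos (th_pos hb _)]
    exact mul_le_mul_of_nonneg_left (es_abs_VVhk hu _ _) (th_pos hb _).le
  · exact continuous_const.mul (((continuous_VV u).comp (continuous_snd.sub continuous_const)).mul
      ((continuous_hk u).comp (continuous_fst.sub continuous_const)))

theorem es_I0_eq {ι : Type} [Fintype ι] [DecidableEq ι] (c : ι → ℝ) {a v u : ℝ} (ha : 0 < a)
    (hu : 0 < u) (huv : u ≤ v) (b : ℝ) (z0 : E) (x : X ι) :
    I0 c a v b z0 u x =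
      (∑ i, ∑ j, if j = i then 0 else c i * c j * es_J (a + v - u) u z0 (x i) (x j)) -
        b * ∑ i, c i * th (a + v) (x i - z0) := by
  have hb : 0 < a + v - u := by linarith
  have h1 : ∀ i, Integrable fun z => th (a + v - u) (z - z0) * hk u (x i - z) := fun i =>
    es_int_th hb z0 ((continuous_hk u).comp (continuous_const.sub continuous_id))
      fun z => es_abs_hk hu _
  have h2 : ∀ z, th (a + v - u) (z - z0) * ((ph c (VV u) z x - b) * ph c (hk u) z x) =
      (∑ i, ∑ j, c i * c j * (th (a + v - u) (z - z0) * (VV u (x j - z) * hk u (x i - z)))) -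
        ∑ i, b * c i * (th (a + v - u) (z - z0) * hk u (x i - z)) := by
    intro z
    unfold ph
    rw [sub_mul, mul_sub, mul_comm (∑ j, c j * VV u (x j - z)), Finset.sum_mul_sum,
      Finset.mul_sum, Finset.mul_sum, Finset.mul_sum]
    congr 1
    · refine Finset.sum_congr rfl fun i _ => ?_
      rw [Finset.mul_sum]
      exact Finset.sum_congr rfl fun j _ => by ring
    · exact Finset.sum_congr rfl fun i _ => by ring
  have h3 : ∀ i, ∫ z, th (a + v - u) (z - z0) * hk u (x i - z) = th (a + v) (x i - z0) := by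
    intro i
    rw [th_conv hb hu, sub_add_cancel]
  unfold I0
  simp only [h2]
  rw [integral_sub (integrable_finsetSum _ fun i _ => integrable_finsetSum _ fun j _ =>
      (es_int_J hb hu z0 (x i) (x j)).const_mul _)
      (integrable_finsetSum _ fun i _ => (h1 i).const_mul _),
    integral_finsetSum _ fun i _ => integrable_finsetSum _ fun j _ =>
      (es_int_J hb hu z0 (x i) (x j)).const_mul _,
    integral_finsetSum _ fun i _ => (h1 i).const_mul _]
  have h4 : ∀ i, ∫ z, ∑ j, c i * c j *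
      (th (a + v - u) (z - z0) * (VV u (x j - z) * hk u (x i - z))) =
      (∑ j, if j = i then 0 else c i * c j * es_J (a + v - u) u z0 (x i) (x j)) +
        c i ^ 2 * es_J (a + v - u) u z0 (x i) (x i) := by
    intro i
    rw [integral_finsetSum _ fun j _ => (es_int_J hb hu z0 (x i) (x j)).const_mul _]
    simp only [integral_const_mul]
    have e : ∀ j, c i * c j * es_J (a + v - u) u z0 (x i) (x j) =
        (if j = i then 0 else c i * c j * es_J (a + v - u) u z0 (x i) (x j)) +
          if j = i then c i ^ 2 * es_J (a + v - u) u z0 (x i) (x i) else 0 := by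
      intro j
      split_ifs with h
      · subst h; ring
      · ring
    change ∑ j, c i * c j * es_J (a + v - u) u z0 (x i) (x j) = _
    rw [Finset.sum_congr rfl fun j _ => e j, Finset.sum_add_distrib]
    simp
  simp only [h4, integral_const_mul, h3, Finset.sum_add_distrib, Finset.mul_sum]
  have h5 : ∑ i, b * c i * th (a + v) (x i - z0) = ∑ i, b * (c i * th (a + v) (x i - z0)) :=
    Finset.sum_congr rfl fun i _ => by ring
  rw [h5]
  unfold es_J
  ring

theorem es_int_hkVV {w u : ℝ} (hw : 0 < w) (hu : 0 < u) (p q : E) :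
    Integrable fun z => hk w (z - p) * VV u (q - z) :=
  ((integrable_hk hw).comp_sub_right p).mul_bdd
    ((continuous_VV u).comp (continuous_const.sub continuous_id)).aestronglyMeasurable
    (ae_of_all _ fun z => by rw [Real.norm_eq_abs]; exact es_abs_VV hu _)

theorem es_J_nonneg {b' : ℝ} (hb : 0 < b') (u : ℝ) (z0 p q : E) : 0 ≤ es_J b' u z0 p q :=
  integral_nonneg fun _ => mul_nonneg (th_pos hb _).le (mul_nonneg (VV_nonneg _ _) (hk_nonneg _ _))

theorem es_J_le {a b' u : ℝ} (ha : 0 < a) (hb : a ≤ b') (hu : 0 < u) (z0 : E) {p q : E}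
    (hpq : p ≠ q) : es_J b' u z0 p q ≤ hk a 0 * vk (p - q) := by
  have hb0 : 0 < b' := ha.trans_le hb
  calc es_J b' u z0 p q ≤ ∫ z, hk a 0 * (hk u (z - p) * VV u (q - z)) := by
        refine integral_mono (es_int_J hb0 hu z0 p q) ((es_int_hkVV hu hu p q).const_mul _)
          fun z => ?_
        simp only
        rw [hk_sub_comm u p z, mul_comm (VV u (q - z))]
        exact mul_le_mul_of_nonneg_right ((th_le hb0 _).trans (hk_zero_anti ha hb))
          (mul_nonneg (hk_nonneg _ _) (VV_nonneg _ _))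
    _ = hk a 0 * VV (u + u) (q - p) := by rw [integral_const_mul, VV_conv hu hu]
    _ ≤ _ := by
        refine mul_le_mul_of_nonneg_left ?_ (hk_nonneg _ _)
        rw [← vk_neg, neg_sub]
        exact VV_le_vk (by linarith) (sub_ne_zero.mpr hpq.symm)

theorem es_norm_hk {u : ℝ} (hu : 0 < u) (y : E) :
    ‖y‖ * hk u y ≤ √u * (12 * hk (2 * u) y + hk u y) := by
  have hs : 0 < √u := Real.sqrt_pos.mpr hu
  have hs2 : √u * √u = u := Real.mul_self_sqrt hu.le
  have h1 := r2_mul_hk hu y
  have h2 := norm_sq_le_r2 y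
  have h3 := hk_nonneg u y
  have h4 : 2 * √u * ‖y‖ ≤ r2 y + u := by nlinarith [sq_nonneg (‖y‖ - √u)]
  have h5 : 2 * √u * (‖y‖ * hk u y) ≤ 2 * √u * (√u * (12 * hk (2 * u) y + hk u y)) := by
    have h6 : 2 * √u * (√u * (12 * hk (2 * u) y + hk u y)) =
        24 * u * hk (2 * u) y + 2 * u * hk u y := by
      calc _ = 2 * (√u * √u) * (12 * hk (2 * u) y + hk u y) := by ring
        _ = _ := by rw [hs2]; ring
    have h7 := mul_le_mul_of_nonneg_right h4 h3
    have h8 : 0 ≤ u * hk u y := mul_nonneg hu.le h3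
    nlinarith
  exact le_of_mul_le_mul_left h5 (by positivity)

theorem es_J_tendsto {a v : ℝ} (ha : 0 < a) (hv : 0 < v) (z0 : E) {p q : E} (hpq : p ≠ q) :
    Tendsto (fun u => es_J (a + v - u) u z0 p q) (𝓝[>] 0)
      (𝓝 (th (a + v) (p - z0) * vk (p - q))) := by
  obtain ⟨C, hC, hlip⟩ := th_lip ha
  have hqp : q - p ≠ 0 := sub_ne_zero.mpr hpq.symm
  have h2 : Tendsto (fun u : ℝ => u + u) (𝓝[>] 0) (𝓝[>] 0) := by
    refine tendsto_nhdsWithin_iff.mpr ⟨?_, ?_⟩
    · have : Tendsto (fun u : ℝ => u + u) (𝓝 0) (𝓝 (0 + 0)) :=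
        (continuous_id.add continuous_id).tendsto 0
      rw [add_zero] at this
      exact this.mono_left nhdsWithin_le_nhds
    · filter_upwards [self_mem_nhdsWithin] with u hu
      have : (0 : ℝ) < u := hu
      show (0 : ℝ) < u + u
      linarith
  have h3 : Tendsto (fun u => th (a + v) (p - z0) * VV (u + u) (q - p)) (𝓝[>] 0)
      (𝓝 (th (a + v) (p - z0) * vk (p - q))) := by
    have := (tendsto_VV hqp).comp h2
    rw [← vk_neg, neg_sub] at this
    exact this.const_mul _
  have h4 : Tendsto (fun u : ℝ => C * (13 * √u + u) * vk (q - p)) (𝓝[>] 0) (𝓝 0) := by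
    have h5 : Continuous fun u : ℝ => C * (13 * √u + u) * vk (q - p) := by fun_prop
    have h6 := h5.tendsto 0
    simp only [Real.sqrt_zero, mul_zero, add_zero, zero_mul] at h6
    exact h6.mono_left nhdsWithin_le_nhds
  have h7 : Tendsto (fun u => es_J (a + v - u) u z0 p q - th (a + v) (p - z0) * VV (u + u) (q - p))
      (𝓝[>] 0) (𝓝 0) := by
    refine squeeze_zero_norm' ?_ h4
    filter_upwards [Ioo_mem_nhdsGT hv] with u hu
    obtain ⟨hu0, huv⟩ := hu
    have hb : 0 < a + v - u := by linarith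
    have i1 := es_int_J hb hu0 z0 p q
    have i2 := es_int_hkVV hu0 hu0 p q
    have i3 := es_int_hkVV (by linarith : 0 < 2 * u) hu0 p q
    rw [← VV_conv hu0 hu0, ← integral_const_mul]
    unfold es_J
    rw [← integral_sub i1 (i2.const_mul _)]
    calc _ ≤ ∫ z, C * (12 * √u * (hk (2 * u) (z - p) * VV u (q - z)) +
          (√u + u) * (hk u (z - p) * VV u (q - z))) := by
          refine norm_integral_le_of_norm_le (((i3.const_mul _).add (i2.const_mul _)).const_mul _)
            (ae_of_all _ fun z => ?_)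
          have e : th (a + v - u) (z - z0) * (VV u (q - z) * hk u (p - z)) -
              th (a + v) (p - z0) * (hk u (z - p) * VV u (q - z)) =
              (th (a + v - u) (z - z0) - th (a + v) (p - z0)) * (hk u (z - p) * VV u (q - z)) := by
            rw [hk_sub_comm u p z]; ring
          have l1 := hlip (a + v - u) (a + v) (by linarith) (by linarith) (z - z0) (p - z0)
          rw [sub_sub_sub_cancel_right, show a + v - u - (a + v) = -u by ring, abs_neg,
            abs_of_pos hu0] at l1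
          have l2 := es_norm_hk hu0 (z - p)
          have n1 := hk_nonneg u (z - p)
          have n2 := VV_nonneg u (q - z)
          rw [e, norm_mul, Real.norm_eq_abs, Real.norm_eq_abs, abs_of_nonneg (mul_nonneg n1 n2)]
          calc _ ≤ C * (‖z - p‖ + u) * (hk u (z - p) * VV u (q - z)) :=
                mul_le_mul_of_nonneg_right l1 (mul_nonneg n1 n2)
            _ = C * ((‖z - p‖ * hk u (z - p)) * VV u (q - z) +
                  u * (hk u (z - p) * VV u (q - z))) := by ring
            _ ≤ C * ((√u * (12 * hk (2 * u) (z - p) + hk u (z - p))) * VV u (q - z) +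
                  u * (hk u (z - p) * VV u (q - z))) := by gcongr
            _ = _ := by ring
      _ = C * (12 * √u * VV (2 * u + u) (q - p) + (√u + u) * VV (u + u) (q - p)) := by
          rw [integral_const_mul, integral_add (i3.const_mul _) (i2.const_mul _),
            integral_const_mul, integral_const_mul, VV_conv hu0 hu0,
            VV_conv (by linarith : 0 < 2 * u) hu0]
      _ ≤ C * (12 * √u * vk (q - p) + (√u + u) * vk (q - p)) := by
          have := VV_le_vk (by linarith : 0 < 2 * u + u) hqp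
          have := VV_le_vk (by linarith : 0 < u + u) hqp
          have : 0 ≤ √u := Real.sqrt_nonneg u
          gcongr
      _ = _ := by ring
  have := h7.add h3
  simpa using this

theorem es_pot_tendsto {ι : Type} [Fintype ι] [DecidableEq ι] {l : Filter ℝ}
    [l.IsCountablyGenerated] {F : ℝ → X ι → ℝ} {F0 H : X ι → ℝ} {ψ : Wv ι Sp} (h : Cc ψ)
    (hF : ∀ᶠ u in l, Continuous (F u)) (hH : LocallyIntegrable H)
    (hb : ∀ᶠ u in l, ∀ᵐ x, |F u x| ≤ H x) (hl : ∀ᵐ x, Tendsto (fun u => F u x) l (𝓝 (F0 x))) :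
    Tendsto (fun u => pot (F u) ψ) l (𝓝 (pot F0 ψ)) := by
  unfold pot
  refine tendsto_finsetSum _ fun τ _ => ?_
  refine tendsto_integral_filter_of_dominated_convergence (fun x => H x * ‖ψ τ x‖ ^ 2) ?_ ?_
    (integrable_pot hH h τ) ?_
  · filter_upwards [hF] with u hu
    exact (hu.mul ((h τ).1.norm.pow 2)).aestronglyMeasurable
  · filter_upwards [hb] with u hu
    filter_upwards [hu] with x hx
    rw [norm_mul, Real.norm_eq_abs, Real.norm_eq_abs, abs_of_nonneg (by positivity : 0 ≤ ‖ψ τ x‖ ^ 2)]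
    exact mul_le_mul_of_nonneg_right hx (by positivity)
  · filter_upwards [hl] with x hx
    exact hx.mul_const _

theorem es_cont_I0 {ι : Type} [Fintype ι] [DecidableEq ι] (c : ι → ℝ) {a v u : ℝ} (ha : 0 < a)
    (hu : 0 < u) (huv : u ≤ v) {b : X ι → ℝ} (hb : Continuous b) (z0 : E) :
    Continuous fun x => I0 c a v (b x) z0 u x := by
  simp only [es_I0_eq c ha hu huv]
  refine Continuous.sub (continuous_finsetSum _ fun i _ => continuous_finsetSum _ fun j _ => ?_)
    (hb.mul (continuous_finsetSum _ fun i _ => continuous_const.mul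
      ((continuous_th (by linarith)).comp ((continuous_apply i).sub continuous_const))))
  split_ifs
  · exact continuous_const
  · have hb' : 0 < a + v - u := by linarith
    have h1 : Continuous fun x : X ι => (x i, x j) :=
      (continuous_apply i).prodMk (continuous_apply j)
    have h2 := (es_cont_J hb' hu z0).comp h1
    have h3 : Continuous fun x : X ι => es_J (a + v - u) u z0 (x i) (x j) := h2
    exact continuous_const.mul h3

theorem es_I0_tendsto {ι : Type} [Fintype ι] [DecidableEq ι] (c : ι → ℝ) {a v : ℝ} (ha : 0 < a)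
    (hv : 0 < v) {ω b : X ι → ℝ} (hω : Continuous ω) (hb : Continuous b) (h0 : ∀ x, 0 ≤ ω x)
    (h1 : ∀ x, ω x ≤ 1) (z0 : E) {ψ : Wv ι Sp} (h : Cc ψ) :
    Tendsto (fun u => pot (fun x => ω x * I0 c a v (b x) z0 u x) ψ) (𝓝[>] 0)
      (𝓝 (pot (fun x => ω x * ∑ i, th (a + v) (x i - z0) * (potl c i x - c i * b x)) ψ)) := by
  have hne : ∀ᵐ x : X ι, ∀ i j, j ≠ i → x i ≠ x j := by
    refine ae_all_iff.mpr fun i => ae_all_iff.mpr fun j => ?_
    by_cases hij : j = i
    · exact ae_of_all _ fun x hx => absurd hij hx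
    · filter_upwards [ae_ne_pair (Ne.symm hij)] with x hx _ using hx
  have hc : Continuous fun x : X ι => |b x * ∑ i, c i * th (a + v) (x i - z0)| :=
    (hb.mul (continuous_finsetSum _ fun i _ => continuous_const.mul
      ((continuous_th (by linarith)).comp ((continuous_apply i).sub continuous_const)))).abs
  refine es_pot_tendsto (H := fun x => (∑ i, ∑ j, (|c i * c j| * hk a 0) * vk (x i - x j)) +
    |b x * ∑ i, c i * th (a + v) (x i - z0)|) h ?_ ?_ ?_ ?_
  · filter_upwards [Ioo_mem_nhdsGT hv] with u hu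
    exact hω.mul (es_cont_I0 c ha hu.1 hu.2.le hb z0)
  · refine LocallyIntegrable.add ?_ hc.locallyIntegrable
    exact locallyIntegrable_finsetSum _ fun i _ => locallyIntegrable_finsetSum _ fun j _ =>
      (locInt_pair i j).smul (|c i * c j| * hk a 0)
  · filter_upwards [Ioo_mem_nhdsGT hv] with u hu
    filter_upwards [hne] with x hx
    rw [abs_mul, abs_of_nonneg (h0 x), es_I0_eq c ha hu.1 hu.2.le]
    refine (mul_le_of_le_one_left (abs_nonneg _) (h1 x)).trans ((abs_sub _ _).trans ?_)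
    refine add_le_add ?_ le_rfl
    refine (Finset.abs_sum_le_sum_abs _ _).trans (Finset.sum_le_sum fun i _ => ?_)
    refine (Finset.abs_sum_le_sum_abs _ _).trans (Finset.sum_le_sum fun j _ => ?_)
    split_ifs with hij
    · rw [abs_zero]
      exact mul_nonneg (mul_nonneg (abs_nonneg _) (hk_nonneg _ _)) (vk_nonneg _)
    · rw [abs_mul, abs_of_nonneg (es_J_nonneg (by linarith [hu.2]) _ _ _ _), mul_assoc]
      exact mul_le_mul_of_nonneg_left
        (es_J_le ha (by linarith [hu.2]) hu.1 z0 (hx i j hij)) (abs_nonneg _)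
  · filter_upwards [hne] with x hx
    refine Tendsto.const_mul _ ?_
    have e : ∑ i, th (a + v) (x i - z0) * (potl c i x - c i * b x) =
        (∑ i, ∑ j, if j = i then 0 else c i * c j * (th (a + v) (x i - z0) * vk (x i - x j))) -
          b x * ∑ i, c i * th (a + v) (x i - z0) := by
      rw [Finset.mul_sum, ← Finset.sum_sub_distrib]
      refine Finset.sum_congr rfl fun i _ => ?_
      unfold potl
      rw [mul_sub, Finset.mul_sum]
      congr 1
      · refine Finset.sum_congr rfl fun j _ => ?_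
        split_ifs with hij
        · subst hij; simp [vk]
        · ring
      · ring
    rw [e]
    refine Tendsto.congr' (f₁ := fun u =>
      (∑ i, ∑ j, if j = i then 0 else c i * c j * es_J (a + v - u) u z0 (x i) (x j)) -
        b x * ∑ i, c i * th (a + v) (x i - z0)) ?_ ?_
    · filter_upwards [Ioo_mem_nhdsGT hv] with u hu
      rw [es_I0_eq c ha hu.1 hu.2.le]
    · refine Tendsto.sub_const (tendsto_finsetSum _ fun i _ => tendsto_finsetSum _ fun j _ => ?_) _
      split_ifs with hij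
      · exact tendsto_const_nhds
      · exact (es_J_tendsto ha hv z0 (hx i j hij)).const_mul _

theorem es_ph_nonneg {ι : Type} [Fintype ι] {c : ι → ℝ} (hc : ∀ j, 0 ≤ c j) {g : E → ℝ}
    (hg : ∀ y, 0 ≤ g y) (z : E) (x : X ι) : 0 ≤ ph c g z x :=
  Finset.sum_nonneg fun j _ => mul_nonneg (hc j) (hg _)

theorem es_SR_nonneg {ι : Type} [Fintype ι] (c : ι → ℝ) {cb a v u : ℝ} (hcb : 0 ≤ cb) (ha : 0 < a)
    (huv : u ≤ v) (z0 : E) (x : X ι) : 0 ≤ SR c cb a v z0 u x :=
  integral_nonneg fun z => mul_nonneg (th_pos (by linarith) _).le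
    (mul_nonneg (es_ph_nonneg (fun _ => le_max_right _ _) (hk_nonneg u) _ _)
      (le_min (mul_nonneg hcb (hk_nonneg _ _))
        (es_ph_nonneg (fun _ => le_max_right _ _) (hk_nonneg u) _ _)))

theorem es_SR_le {ι : Type} [Fintype ι] (c : ι → ℝ) {cb a v u0 u : ℝ} (hcb : 0 ≤ cb) (ha : 0 < a)
    (hu0 : 0 < u0) (hu : u0 ≤ u) (huv : u ≤ v) (z0 : E) (x : X ι) :
    SR c cb a v z0 u x ≤ ((∑ j, |max (-c j) 0|) * hk u0 0) * (cb * hk u0 0) := by
  have hb : 0 < a + v - u := by linarith
  have hup : 0 < u := hu0.trans_le hu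
  have hM : ∀ y, |hk u y| ≤ hk u0 0 := fun y => (es_abs_hk hup y).trans (hk_zero_anti hu0 hu)
  unfold SR
  calc _ ≤ ∫ z, th (a + v - u) (z - z0) *
        (((∑ j, |max (-c j) 0|) * hk u0 0) * (cb * hk u0 0)) := by
        refine integral_mono_of_nonneg (ae_of_all _ fun z => ?_)
          (((integrable_th hb).comp_sub_right z0).mul_const _) (ae_of_all _ fun z => ?_)
        · exact mul_nonneg (th_pos hb _).le
            (mul_nonneg (es_ph_nonneg (fun _ => le_max_right _ _) (hk_nonneg u) _ _)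
              (le_min (mul_nonneg hcb (hk_nonneg _ _))
                (es_ph_nonneg (fun _ => le_max_right _ _) (hk_nonneg u) _ _)))
        · refine mul_le_mul_of_nonneg_left ?_ (th_pos hb _).le
          refine mul_le_mul ((le_abs_self _).trans (es_abs_ph_le _ hM z x)) ?_ ?_ ?_
          · exact (min_le_left _ _).trans
              (mul_le_mul_of_nonneg_left (hk_zero_anti hu0 hu) hcb)
          · exact le_min (mul_nonneg hcb (hk_nonneg _ _))
              (es_ph_nonneg (fun _ => le_max_right _ _) (hk_nonneg u) _ _)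
          · exact mul_nonneg (Finset.sum_nonneg fun _ _ => abs_nonneg _) (hk_nonneg _ _)
    _ = _ := by
        rw [integral_mul_const, integral_sub_right_eq_self (th (a + v - u)) z0, integral_th hb,
          one_mul]

theorem es_scale {v u n T : ℝ} (hv : 0 < v) (hu : 0 < u) :
    n / (v ^ (1 / 5 : ℝ) * u ^ (3 / 10 : ℝ)) ^ 3 +
      (v ^ (1 / 5 : ℝ) * u ^ (3 / 10 : ℝ)) ^ 2 * T / √u ^ 3 =
      (n / √v + √v * T) * v ^ (-(1 / 10) : ℝ) * u ^ (-(9 / 10) : ℝ) := by
  obtain ⟨s, hs, rfl⟩ : ∃ s : ℝ, 0 < s ∧ v = s ^ (10 : ℝ) :=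
    ⟨v ^ (1 / 10 : ℝ), by positivity, by rw [← Real.rpow_mul hv.le]; norm_num⟩
  obtain ⟨t, ht, rfl⟩ : ∃ t : ℝ, 0 < t ∧ u = t ^ (10 : ℝ) :=
    ⟨u ^ (1 / 10 : ℝ), by positivity, by rw [← Real.rpow_mul hu.le]; norm_num⟩
  simp only [Real.sqrt_eq_rpow, ← Real.rpow_mul hs.le, ← Real.rpow_mul ht.le]
  norm_num
  rw [Real.rpow_neg_one]
  field_simp

theorem es_SR_pot {P : Species σ Sp} (hf : ∀ s, P.charge s < 0 → P.fermion s = true) {cb : ℝ}
    (hcb0 : 0 ≤ cb) (hcb : ∀ s, |P.charge s| ≤ cb) :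
    ∃ C : ℝ, 0 < C ∧ ∀ (ι : Type) [Fintype ι] [DecidableEq ι] (sp : ι → σ) (L : ℝ) (ψ : Wv ι Sp),
    Tst P sp L ψ → ∀ a v u0 : ℝ, 0 < a → 0 < u0 → u0 < v → ∀ T : ℝ,
    (∀ z, tb ψ (th (a + v)) z ≤ T) → ∀ z0,
    LocallyIntegrable (fun x => ∫ u in u0..v, SR (ch P sp) cb a v z0 u x) ∧
    pot (fun x => ∫ u in u0..v, SR (ch P sp) cb a v z0 u x) ψ ≤
      C * (nb ψ (th (a + v)) z0 / √v + √v * T) := by
  obtain ⟨C, hC, hsr⟩ := sr_scale hf hcb
  refine ⟨10 * C, by positivity, fun ι _ _ sp L ψ hψ a v u0 ha hu0 hu0v T hT z0 => ?_⟩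
  have hv : 0 < v := hu0.trans hu0v
  have hcc : Cc ψ := hψ.nice.cc
  set cl : ℝ → ℝ := fun u => max u0 (min u v) with hcl
  have hcl1 : ∀ u, u0 ≤ cl u := fun u => le_max_left _ _
  have hcl2 : ∀ u, cl u ≤ v := fun u => max_le hu0v.le (min_le_right _ _)
  have hcl3 : ∀ u ∈ Set.Ioc u0 v, cl u = u := fun u hu => by
    simp only [hcl]
    rw [min_eq_left hu.2, max_eq_right hu.1.le]
  have hclc : Continuous cl := by fun_prop
  have hFc : Continuous fun p : ℝ × X ι => SR (ch P sp) cb a v z0 (cl p.1) p.2 :=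
    (continuousOn_SR (ch P sp) cb (v := v) ha z0).comp_continuous
      (f := fun p : ℝ × X ι => (cl p.1, p.2)) ((hclc.comp continuous_fst).prodMk continuous_snd)
      fun p => ⟨⟨hu0.trans_le (hcl1 _), hcl2 _⟩, Set.mem_univ _⟩
  obtain ⟨i1, i2, i3⟩ := pot_integral (μ := volume.restrict (Set.Ioc u0 v))
    (F := fun u x => SR (ch P sp) cb a v z0 (cl u) x) hFc.measurable
    (g := fun _ => ((∑ j, |max (-ch P sp j) 0|) * hk u0 0) * (cb * hk u0 0)) (integrable_const _)
    (H := fun _ => 1) continuous_const (ae_of_all _ fun u x => by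
      rw [mul_one, abs_of_nonneg (es_SR_nonneg _ hcb0 ha (hcl2 u) z0 x)]
      exact es_SR_le _ hcb0 ha hu0 (hcl1 u) (hcl2 u) z0 x) hcc
  have e : (fun x => ∫ u in u0..v, SR (ch P sp) cb a v z0 u x) =
      fun x => ∫ u in Set.Ioc u0 v, SR (ch P sp) cb a v z0 (cl u) x := by
    funext x
    rw [intervalIntegral.integral_of_le hu0v.le]
    exact setIntegral_congr_fun measurableSet_Ioc fun u hu => by simp only [hcl3 u hu]
  rw [e]
  refine ⟨i2, ?_⟩
  rw [← i3]
  have hn : 0 ≤ nb ψ (th (a + v)) z0 := nb_nonneg ψ (fun x => (th_pos (by linarith) x).le) z0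
  have hT0 : 0 ≤ T := (tb_nonneg ψ (fun x => (th_pos (by linarith) x).le) z0).trans (hT z0)
  set Q : ℝ := nb ψ (th (a + v)) z0 / √v + √v * T with hQ
  have hQ0 : 0 ≤ Q := by positivity
  have hI : IntervalIntegrable (fun u : ℝ => u ^ (-(9 / 10) : ℝ)) volume u0 v :=
    intervalIntegral.intervalIntegrable_rpow' (by norm_num)
  calc _ ≤ ∫ u in Set.Ioc u0 v, C * Q * v ^ (-(1 / 10) : ℝ) * u ^ (-(9 / 10) : ℝ) := by
        refine setIntegral_mono_on i1 (hI.1.const_mul _) measurableSet_Ioc fun u hu => ?_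
        have hup : 0 < u := hu0.trans hu.1
        have h2 := hsr ι sp L ψ hψ a v u ha hup hu.2 T hT
          (v ^ (1 / 5 : ℝ) * u ^ (3 / 10 : ℝ)) (by positivity) z0
        rw [es_scale hv hup] at h2
        simp only [hcl3 u hu]
        calc _ ≤ _ := h2
          _ = _ := by rw [hQ]; ring
    _ = C * Q * v ^ (-(1 / 10) : ℝ) *
          ((v ^ (-(9 / 10) + 1 : ℝ) - u0 ^ (-(9 / 10) + 1 : ℝ)) / (-(9 / 10) + 1)) := by
        rw [integral_const_mul, ← intervalIntegral.integral_of_le hu0v.le,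
          integral_rpow (Or.inl (by norm_num))]
    _ ≤ C * Q * v ^ (-(1 / 10) : ℝ) * (v ^ (-(9 / 10) + 1 : ℝ) / (-(9 / 10) + 1)) := by
        have : 0 ≤ u0 ^ (-(9 / 10) + 1 : ℝ) := by positivity
        gcongr
        linarith
    _ = 10 * C * Q * (v ^ (-(1 / 10) : ℝ) * v ^ (-(9 / 10) + 1 : ℝ)) := by ring
    _ = _ := by
        rw [← Real.rpow_add hv]
        norm_num

/-- the electrostatic inequality in expectation -/
theorem es_exp {P : Species σ Sp} (hf : ∀ s, P.charge s < 0 → P.fermion s = true) :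
    ∃ C : ℝ, 0 < C ∧ ∀ (ι : Type) [Fintype ι] [DecidableEq ι] (sp : ι → σ) (L : ℝ) (ψ : Wv ι Sp),
    Tst P sp L ψ → ∀ a v : ℝ, 0 < v → 10 * v ≤ a → a ≤ 1 → ∀ T : ℝ,
    (∀ z, tb ψ (th (a + v)) z ≤ T) → ∀ ω b : X ι → ℝ, Continuous ω → Continuous b →
    (∀ x, 0 ≤ ω x) → (∀ x, ω x ≤ 1) → ∀ z0 : E,
    (1 - 8 * v / a) / 2 * pot (fun x => ω x * av2 (hk a) (ch P sp) v (b x) z0 x) ψ ≤
      4 * π * pot (fun x => ω x * ∑ i, th (a + v) (x i - z0) *
        (potl (ch P sp) i x - ch P sp i * b x)) ψ +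
      pot (fun x => ω x * av2 (th a) (ch P sp) v (b x) z0 x) ψ / 2 +
      C * (nb ψ (th (a + v)) z0 / √v + √v * T) := by
  set cb : ℝ := ∑ s, |P.charge s| with hcbdef
  have hcb0 : 0 ≤ cb := Finset.sum_nonneg fun _ _ => abs_nonneg _
  have hcb : ∀ s, |P.charge s| ≤ cb := fun s =>
    Finset.single_le_sum (f := fun s => |P.charge s|) (fun _ _ => abs_nonneg _) (Finset.mem_univ s)
  obtain ⟨C1, hC1, hdet⟩ := es_det
  obtain ⟨C2, hC2, hsr⟩ := es_SR_pot hf hcb0 hcb
  refine ⟨192 * π ^ 2 * C2 + C1 * cb ^ 2, by positivity,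
    fun ι _ _ sp L ψ hψ a v hv hva ha1 T hT ω b hω hb h0 h1 z0 => ?_⟩
  have ha : 0 < a := by linarith
  have hcc : Cc ψ := hψ.nice.cc
  have hB : 0 < a + v := by linarith
  have hn : 0 ≤ nb ψ (th (a + v)) z0 := nb_nonneg ψ (fun x => (th_pos hB x).le) z0
  have hT0 : 0 ≤ T := (tb_nonneg ψ (fun x => (th_pos hB x).le) z0).trans (hT z0)
  have hlim := ((((es_I0_tendsto (ch P sp) ha hv hω hb h0 h1 z0 hcc).const_mul (4 * π)).add_const
    (pot (fun x => ω x * av2 (th a) (ch P sp) v (b x) z0 x) ψ / 2)).add_const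
    ((192 * π ^ 2 * C2 + C1 * cb ^ 2) * (nb ψ (th (a + v)) z0 / √v + √v * T)))
  refine ge_of_tendsto hlim ?_
  filter_upwards [Ioo_mem_nhdsGT hv] with u0 hu0
  obtain ⟨j1, j2⟩ := hsr ι sp L ψ hψ a v u0 ha hu0.1 hu0.2 T hT z0
  have c1 : Continuous fun x => ω x * av2 (hk a) (ch P sp) v (b x) z0 x :=
    hω.mul (continuous_av2 (integrable_hk ha) _ hv hb z0)
  have c2 : Continuous fun x => ω x * av2 (th a) (ch P sp) v (b x) z0 x :=
    hω.mul (continuous_av2 (integrable_th ha) _ hv hb z0)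
  have c3 : Continuous fun x => ω x * I0 (ch P sp) a v (b x) z0 u0 x :=
    hω.mul (es_cont_I0 _ ha hu0.1 hu0.2.le hb z0)
  have c4 : Continuous fun x : X ι => ph (fun _ => 1) (th (a + v)) z0 x :=
    es_cont_ph_x _ (continuous_th hB) z0
  have l1 : LocallyIntegrable fun x => 4 * π * (ω x * I0 (ch P sp) a v (b x) z0 u0 x) :=
    (continuous_const.mul c3).locallyIntegrable
  have l2 : LocallyIntegrable fun x =>
      192 * π ^ 2 * ∫ u in u0..v, SR (ch P sp) cb a v z0 u x := j1.smul (192 * π ^ 2)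
  have l3 : LocallyIntegrable fun x => 1 / 2 * (ω x * av2 (th a) (ch P sp) v (b x) z0 x) :=
    (continuous_const.mul c2).locallyIntegrable
  have l4 : LocallyIntegrable fun x : X ι =>
      C1 * cb ^ 2 / √v * ph (fun _ => 1) (th (a + v)) z0 x :=
    (continuous_const.mul c4).locallyIntegrable
  have key := pot_mono (U := fun x => (1 - 8 * v / a) / 2 *
      (ω x * av2 (hk a) (ch P sp) v (b x) z0 x))
    (continuous_const.mul c1).locallyIntegrable (((l1.add l2).add l3).add l4) hcc fun x => by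
      have d := mul_le_mul_of_nonneg_left
        (hdet ι (ch P sp) cb (fun j => hcb _) a v u0 hu0.1 hu0.2 hva ha1 (b x) z0 x) (h0 x)
      have s1 : 0 ≤ 192 * π ^ 2 * ∫ u in u0..v, SR (ch P sp) cb a v z0 u x :=
        mul_nonneg (by positivity) (intervalIntegral.integral_nonneg hu0.2.le fun u hu =>
          es_SR_nonneg _ hcb0 ha hu.2 z0 x)
      have s2 : 0 ≤ C1 * cb ^ 2 / √v * ph (fun _ => 1) (th (a + v)) z0 x :=
        mul_nonneg (by positivity)
          (es_ph_nonneg (fun _ => zero_le_one) (fun y => (th_pos hB y).le) z0 x)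
      have s3 := mul_le_of_le_one_left s1 (h1 x)
      have s4 := mul_le_of_le_one_left s2 (h1 x)
      simp only [Pi.add_apply]
      nlinarith
  have e1 := pot_add ((l1.add l2).add l3) l4 hcc
  have e2 := pot_add (l1.add l2) l3 hcc
  have e3 := pot_add l1 l2 hcc
  simp only [pot_const_mul] at e1 e2 e3 key
  have key2 : (1 - 8 * v / a) / 2 * pot (fun x => ω x * av2 (hk a) (ch P sp) v (b x) z0 x) ψ ≤
      4 * π * pot (fun x => ω x * I0 (ch P sp) a v (b x) z0 u0 x) ψ +
      192 * π ^ 2 * pot (fun x => ∫ u in u0..v, SR (ch P sp) cb a v z0 u x) ψ +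
      1 / 2 * pot (fun x => ω x * av2 (th a) (ch P sp) v (b x) z0 x) ψ +
      C1 * cb ^ 2 / √v * nb ψ (th (a + v)) z0 := by
    refine key.trans (le_of_eq ?_)
    exact e1.trans (congrArg₂ (· + ·) (e2.trans (congrArg₂ (· + ·) e3 rfl)) rfl)
  have s5 := mul_le_mul_of_nonneg_left j2 (by positivity : 0 ≤ 192 * π ^ 2)
  have s6 : 0 ≤ C1 * cb ^ 2 * (√v * T) := by positivity
  have s7 : C1 * cb ^ 2 / √v * nb ψ (th (a + v)) z0 =
      C1 * cb ^ 2 * (nb ψ (th (a + v)) z0 / √v) := by ring
  nlinarith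

end Pool.Agent.Lib.MP_0655ed_mp
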