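import Pool.Agent.Lib.MP_0655ed_mp.ImpNb

open Finset MeasureTheory Real Filter Topology

namespace Pool.Agent.Lib.MP_0655ed_mp

variable {Sp ι Y : Type} [Fintype ι] [DecidableEq ι] [Fintype Sp] [Fintype Y]

/-! Gaussian averages -/

theorem ex_int {w : ℝ} (hw : 0 < w) {m : E → ℝ} (hm : Continuous m) {M : ℝ}
    (hM : ∀ z, |m z| ≤ M) (z0 : E) : Integrable fun z => hk w (z - z0) * m z := by
  have h1 : Integrable fun z => hk w (z - z0) := (integrable_hk hw).comp_sub_right z0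
  exact h1.mul_bdd (c := M) hm.aestronglyMeasurable (ae_of_all _ fun z => by
    rw [Real.norm_eq_abs]; exact hM z)

theorem ex_gav_const {w : ℝ} (hw : 0 < w) (t : ℝ) (z0 : E) : gav w (fun _ => t) z0 = t := by
  unfold gav
  rw [integral_mul_const, integral_sub_right_eq_self (hk w) z0, integral_hk hw, one_mul]

theorem ex_gav_mul (w t : ℝ) (m : E → ℝ) (z0 : E) :
    gav w (fun z => t * m z) z0 = t * gav w m z0 := by
  unfold gav
  rw [← integral_const_mul]
  refine integral_congr_ae (ae_of_all _ fun z => ?_)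
  simp only
  ring

theorem ex_gav_add {w : ℝ} (hw : 0 < w) {m m' : E → ℝ} (hm : Continuous m) (hm' : Continuous m')
    {M M' : ℝ} (hM : ∀ z, |m z| ≤ M) (hM' : ∀ z, |m' z| ≤ M') (z0 : E) :
    gav w (fun z => m z + m' z) z0 = gav w m z0 + gav w m' z0 := by
  unfold gav
  rw [← integral_add (ex_int hw hm hM z0) (ex_int hw hm' hM' z0)]
  refine integral_congr_ae (ae_of_all _ fun z => ?_)
  simp only
  ring

theorem ex_gav_mono {w : ℝ} (hw : 0 < w) {m m' : E → ℝ} (hm : Continuous m) (hm' : Continuous m')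
    {M M' : ℝ} (hM : ∀ z, |m z| ≤ M) (hM' : ∀ z, |m' z| ≤ M') (hle : ∀ z, m z ≤ m' z) (z0 : E) :
    gav w m z0 ≤ gav w m' z0 :=
  integral_mono (ex_int hw hm hM z0) (ex_int hw hm' hM' z0) fun z =>
    mul_le_mul_of_nonneg_left (hle z) (hk_nonneg _ _)

theorem ex_gav_abs {w : ℝ} (hw : 0 < w) {m : E → ℝ} (hm : Continuous m) {M : ℝ}
    (hM : ∀ z, |m z| ≤ M) (z0 : E) : |gav w m z0| ≤ M := by
  rw [abs_le]
  constructor
  · have := ex_gav_mono hw (m := fun _ => -M) continuous_const hm (M := |-M|) (fun _ => le_rfl) hM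
      (fun z => (abs_le.mp (hM z)).1) z0
    rwa [ex_gav_const hw] at this
  · exact gav_le hw hm hM (fun z => (abs_le.mp (hM z)).2) z0

theorem ex_jensen {w : ℝ} (hw : 0 < w) {f : E → ℝ} (hf : Continuous f) {M : ℝ}
    (hM : ∀ z, |f z| ≤ M) (z0 : E) : gav w f z0 ^ 2 ≤ gav w (fun z => f z ^ 2) z0 := by
  set m := gav w f z0 with hm
  have hb1 : ∀ z, |2 * m * f z| ≤ |2 * m| * M := fun z => by
    rw [abs_mul]; exact mul_le_mul_of_nonneg_left (hM z) (abs_nonneg _)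
  have h1 : gav w (fun z => 2 * m * f z + -m ^ 2) z0 = m ^ 2 := by
    rw [ex_gav_add hw (by fun_prop) continuous_const hb1 (M' := |-m ^ 2|) (fun _ => le_rfl),
      ex_gav_mul, ex_gav_const hw, ← hm]
    ring
  rw [← h1]
  refine ex_gav_mono hw (by fun_prop) (by fun_prop) (M := |2 * m| * M + |-m ^ 2|) (M' := M ^ 2)
    (fun z => (abs_add_le _ _).trans (by linarith [hb1 z])) (fun z => ?_)
    (fun z => by nlinarith [sq_nonneg (f z - m)]) z0
  rw [abs_pow]
  exact pow_le_pow_left₀ (abs_nonneg _) (hM z) 2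

/-! the smoothed potential -/

omit [DecidableEq ι] in
theorem ex_ph_abs (c : ι → ℝ) {g : E → ℝ} {z : E} {x : X ι} {t : ℝ}
    (hg : ∀ j, |g (x j - z)| ≤ t) : |ph c g z x| ≤ (∑ j, |c j|) * t := by
  unfold ph
  rw [Finset.sum_mul]
  refine (Finset.abs_sum_le_sum_abs _ _).trans (Finset.sum_le_sum fun j _ => ?_)
  rw [abs_mul]
  exact mul_le_mul_of_nonneg_left (hg j) (abs_nonneg _)

theorem ex_VV_abs {v : ℝ} (hv : 0 < v) (y : E) : |VV v y| ≤ (√v)⁻¹ := by
  rw [abs_of_nonneg (VV_nonneg _ _)]; exact VV_le hv y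

omit [DecidableEq ι] in
theorem ex_phi_abs (c : ι → ℝ) {v : ℝ} (hv : 0 < v) (z : E) (x : X ι) :
    |ph c (VV v) z x| ≤ (∑ j, |c j|) * (√v)⁻¹ := ex_ph_abs c fun _ => ex_VV_abs hv _

theorem ex_cx (c : ι → ℝ) {g : E → ℝ} (hg : Continuous g) (z : E) : Continuous (ph c g z) :=
  (continuous_ph c hg).comp (Continuous.prodMk_right z)

theorem ex_cz (c : ι → ℝ) {g : E → ℝ} (hg : Continuous g) (x : X ι) :
    Continuous fun z => ph c g z x :=
  (continuous_ph c hg).comp (Continuous.prodMk_left x)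

omit [DecidableEq ι] in
theorem ex_gav_ph (c : ι → ℝ) {a v : ℝ} (ha : 0 < a) (hv : 0 < v) (z : E) (x : X ι) :
    gav a (fun z' => ph c (VV v) z' x) z = ph c (VV (a + v)) z x := by
  unfold gav ph
  simp only [Finset.mul_sum]
  have hc := continuous_VV v
  rw [integral_finsetSum]
  · refine Finset.sum_congr rfl fun j _ => ?_
    rw [← VV_conv ha hv, ← integral_const_mul]
    refine integral_congr_ae (ae_of_all _ fun z' => ?_)
    simp only
    ring
  · intro j _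
    refine ex_int ha (by fun_prop) (M := |c j| * (√v)⁻¹) (fun z' => ?_) z
    rw [abs_mul]
    exact mul_le_mul_of_nonneg_left (ex_VV_abs hv _) (abs_nonneg _)

/-! the weighted average -/

noncomputable def exAv (ω : Y → X ι → ℝ) (ψ : Wv ι Sp) (F : Y → X ι → ℝ) : ℝ :=
  (Fintype.card Y : ℝ)⁻¹ * ∑ y, pot (fun x => ω y x * F y x) ψ

theorem ex_mm_eq (c : ι → ℝ) (v : ℝ) (ω b : Y → X ι → ℝ) (ψ : Wv ι Sp) (z : E) :
    mm c v ω b ψ z = exAv ω ψ fun y x => (ph c (VV v) z x - b y x) ^ 2 := rfl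

theorem exAv_mono {ω F G : Y → X ι → ℝ} (hω : ∀ y, Continuous (ω y)) (hω0 : ∀ y x, 0 ≤ ω y x)
    (hF : ∀ y, Continuous (F y)) (hG : ∀ y, Continuous (G y)) {ψ : Wv ι Sp} (h : Cc ψ)
    (hle : ∀ y x, (∃ τ, ψ τ x ≠ 0) → F y x ≤ G y x) : exAv ω ψ F ≤ exAv ω ψ G := by
  unfold exAv
  refine mul_le_mul_of_nonneg_left (Finset.sum_le_sum fun y _ => ?_) (by positivity)
  exact pot_mono_ae ((hω y).mul (hF y)).locallyIntegrable ((hω y).mul (hG y)).locallyIntegrable h
    (ae_of_all _ fun x hx => mul_le_mul_of_nonneg_left (hle y x hx) (hω0 y x))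

theorem exAv_add {ω F G : Y → X ι → ℝ} (hω : ∀ y, Continuous (ω y))
    (hF : ∀ y, Continuous (F y)) (hG : ∀ y, Continuous (G y)) {ψ : Wv ι Sp} (h : Cc ψ) :
    exAv ω ψ (fun y x => F y x + G y x) = exAv ω ψ F + exAv ω ψ G := by
  unfold exAv
  rw [← mul_add, ← Finset.sum_add_distrib]
  congr 1
  refine Finset.sum_congr rfl fun y _ => ?_
  rw [← pot_add (U := fun x => ω y x * F y x) (U' := fun x => ω y x * G y x)
    ((hω y).mul (hF y)).locallyIntegrable ((hω y).mul (hG y)).locallyIntegrable h]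
  simp only [mul_add]

theorem exAv_mul (ω F : Y → X ι → ℝ) (ψ : Wv ι Sp) (t : ℝ) :
    exAv ω ψ (fun y x => t * F y x) = t * exAv ω ψ F := by
  unfold exAv
  rw [mul_left_comm, Finset.mul_sum (a := t)]
  congr 1
  refine Finset.sum_congr rfl fun y _ => ?_
  rw [← pot_const_mul]
  congr 1
  funext x
  ring

theorem ex_card_le (t : ℝ) (ht : 0 ≤ t) : (Fintype.card Y : ℝ)⁻¹ * ∑ _y : Y, t ≤ t := by
  rw [Finset.sum_const, Finset.card_univ, nsmul_eq_mul, ← mul_assoc]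
  rcases eq_or_ne (Fintype.card Y : ℝ) 0 with h0 | h0
  · simp [h0, ht]
  · rw [inv_mul_cancel₀ h0, one_mul]

theorem exAv_le_pot {ω : Y → X ι → ℝ} {G : X ι → ℝ} (hω : ∀ y, Continuous (ω y))
    (hω1 : ∀ y x, ω y x ≤ 1) (hG : Continuous G) (hG0 : ∀ x, 0 ≤ G x) {ψ : Wv ι Sp} (h : Cc ψ) :
    exAv ω ψ (fun _ => G) ≤ pot G ψ := by
  refine le_trans ?_ (ex_card_le (Y := Y) _ (pot_nonneg hG0 ψ))
  unfold exAv
  refine mul_le_mul_of_nonneg_left (Finset.sum_le_sum fun y _ => ?_) (by positivity)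
  exact pot_mono ((hω y).mul hG).locallyIntegrable hG.locallyIntegrable h
    fun x => mul_le_of_le_one_left (hG0 x) (hω1 y x)

theorem exAv_half {ω : Y → X ι → ℝ} {G : X ι → ℝ} (hω : ∀ y, Continuous (ω y))
    (hhalf : ∀ x, 1 / 2 ≤ (Fintype.card Y : ℝ)⁻¹ * ∑ y, ω y x) (hG : Continuous G)
    (hG0 : ∀ x, 0 ≤ G x) {ψ : Wv ι Sp} (h : Cc ψ) :
    1 / 2 * pot G ψ ≤ exAv ω ψ (fun _ => G) := by
  unfold exAv
  rw [← pot_sum (U := fun y x => ω y x * G x) _
    (fun y _ => ((hω y).mul hG).locallyIntegrable) h, ← pot_const_mul, ← pot_const_mul]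
  refine pot_mono (by fun_prop : Continuous _).locallyIntegrable
    (Continuous.locallyIntegrable ?_) h fun x => ?_
  · exact continuous_const.mul (continuous_finsetSum _ fun y _ => (hω y).mul hG)
  · rw [← Finset.sum_mul, ← mul_assoc]
    exact mul_le_mul_of_nonneg_right (hhalf x) (hG0 x)

theorem continuous_mm (c : ι → ℝ) (v : ℝ) {ω b : Y → X ι → ℝ} (hω : ∀ y, Continuous (ω y))
    (hb : ∀ y, Continuous (b y)) {ψ : Wv ι Sp} (h : Cc ψ) : Continuous (mm c v ω b ψ) := by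
  unfold mm
  refine continuous_const.mul (continuous_finsetSum _ fun y _ => ?_)
  refine continuous_pot (F := fun z x => ω y x * (ph c (VV v) z x - b y x) ^ 2) ?_ h
  exact ((hω y).comp continuous_snd).mul
    (((continuous_ph c (continuous_VV v)).sub ((hb y).comp continuous_snd)).pow 2)

theorem mm_nonneg (c : ι → ℝ) (v : ℝ) {ω : Y → X ι → ℝ} (b : Y → X ι → ℝ)
    (hω : ∀ y x, 0 ≤ ω y x) (ψ : Wv ι Sp) (z : E) : 0 ≤ mm c v ω b ψ z :=
  mul_nonneg (by positivity) (Finset.sum_nonneg fun y _ =>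
    pot_nonneg (fun x => mul_nonneg (hω y x) (sq_nonneg _)) ψ)

omit [DecidableEq ι] in
theorem ex_dom (c : ι → ℝ) {v : ℝ} (hv : 0 < v) (w b : ℝ) (z : E) (x : X ι) :
    |w * (ph c (VV v) z x - b) ^ 2| ≤ |w| * (2 * ((∑ j, |c j|) * (√v)⁻¹) ^ 2 + 2 * b ^ 2) := by
  rw [abs_mul]
  refine mul_le_mul_of_nonneg_left ?_ (abs_nonneg _)
  rw [abs_of_nonneg (sq_nonneg _)]
  have h1 := pow_le_pow_left₀ (abs_nonneg _) (ex_phi_abs c hv z x) 2
  rw [sq_abs] at h1
  nlinarith [sq_nonneg (ph c (VV v) z x + b)]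

theorem mm_bdd (c : ι → ℝ) {v : ℝ} (hv : 0 < v) {ω b : Y → X ι → ℝ} (hω : ∀ y, Continuous (ω y))
    (hb : ∀ y, Continuous (b y)) {ψ : Wv ι Sp} (h : Cc ψ) :
    ∃ M, ∀ z, |mm c v ω b ψ z| ≤ M := by
  refine ⟨(Fintype.card Y : ℝ)⁻¹ * ∑ y, pot (fun x => |ω y x| *
    (2 * ((∑ j, |c j|) * (√v)⁻¹) ^ 2 + 2 * b y x ^ 2)) ψ, fun z => ?_⟩
  unfold mm
  rw [abs_mul, abs_of_nonneg (by positivity)]
  refine mul_le_mul_of_nonneg_left ((Finset.abs_sum_le_sum_abs _ _).trans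
    (Finset.sum_le_sum fun y _ => ?_)) (by positivity)
  have hc : Continuous fun x => ω y x * (ph c (VV v) z x - b y x) ^ 2 :=
    (hω y).mul (((ex_cx c (continuous_VV v) z).sub (hb y)).pow 2)
  have h1 := hω y
  have h2 := hb y
  refine (abs_pot_le hc.locallyIntegrable h).trans (pot_mono hc.abs.locallyIntegrable
    (by fun_prop : Continuous _).locallyIntegrable h fun x => ex_dom c hv _ _ z x)

theorem ex_fub (c : ι → ℝ) {v : ℝ} (hv : 0 < v) {ω b : X ι → ℝ} (hω : Continuous ω)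
    (hb : Continuous b) {ψ : Wv ι Sp} (h : Cc ψ) {g : E → ℝ} (hg : Continuous g)
    (hi : Integrable g) (z0 : E) :
    Integrable (fun z => g (z - z0) * pot (fun x => ω x * (ph c (VV v) z x - b x) ^ 2) ψ) ∧
    LocallyIntegrable (fun x => ω x * av2 g c v (b x) z0 x) ∧
    ∫ z, g (z - z0) * pot (fun x => ω x * (ph c (VV v) z x - b x) ^ 2) ψ =
      pot (fun x => ω x * av2 g c v (b x) z0 x) ψ := by
  have hF : Continuous fun p : E × X ι =>
      g (p.1 - z0) * (ω p.2 * (ph c (VV v) p.1 p.2 - b p.2) ^ 2) :=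
    (hg.comp (continuous_fst.sub continuous_const)).mul ((hω.comp continuous_snd).mul
      (((continuous_ph c (continuous_VV v)).sub (hb.comp continuous_snd)).pow 2))
  have := pot_integral (μ := volume)
    (F := fun z x => g (z - z0) * (ω x * (ph c (VV v) z x - b x) ^ 2)) hF.measurable
    (g := fun z => |g (z - z0)|) (hi.comp_sub_right z0).abs
    (H := fun x => |ω x| * (2 * ((∑ j, |c j|) * (√v)⁻¹) ^ 2 + 2 * b x ^ 2)) (by fun_prop)
    (ae_of_all _ fun z x => by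
      rw [abs_mul]
      exact mul_le_mul_of_nonneg_left (ex_dom c hv _ _ z x) (abs_nonneg _)) h
  have e1 : (fun x => ∫ z, g (z - z0) * (ω x * (ph c (VV v) z x - b x) ^ 2)) =
      fun x => ω x * av2 g c v (b x) z0 x := by
    funext x
    unfold av2
    rw [← integral_const_mul]
    refine integral_congr_ae (ae_of_all _ fun z => ?_)
    simp only
    ring
  simp only [pot_const_mul, e1] at this
  exact this

theorem mm_av2 (c : ι → ℝ) {v : ℝ} (hv : 0 < v) {ω b : Y → X ι → ℝ} (hω : ∀ y, Continuous (ω y))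
    (hb : ∀ y, Continuous (b y)) {ψ : Wv ι Sp} (h : Cc ψ) {g : E → ℝ} (hg : Continuous g)
    (hi : Integrable g) (z0 : E) :
    (Fintype.card Y : ℝ)⁻¹ * ∑ y, pot (fun x => ω y x * av2 g c v (b y x) z0 x) ψ =
      ∫ z, g (z - z0) * mm c v ω b ψ z := by
  simp only [← fun y => (ex_fub c hv (hω y) (hb y) h hg hi z0).2.2]
  rw [← integral_finsetSum _ fun y _ => (ex_fub c hv (hω y) (hb y) h hg hi z0).1,
    ← integral_const_mul]
  refine integral_congr_ae (ae_of_all _ fun z => ?_)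
  simp only [mm]
  rw [← Finset.mul_sum]
  ring

/-- Jensen for the mean square potential -/
theorem ex_mm_le (c : ι → ℝ) {a v : ℝ} (ha : 0 < a) (hv : 0 < v) {ω b : Y → X ι → ℝ}
    (hω : ∀ y, Continuous (ω y)) (hb : ∀ y, Continuous (b y)) (hω0 : ∀ y x, 0 ≤ ω y x)
    {ψ : Wv ι Sp} (h : Cc ψ) (z : E) :
    mm c (a + v) ω b ψ z ≤ gav a (mm c v ω b ψ) z := by
  have e := mm_av2 c hv hω hb h (continuous_hk a) (integrable_hk ha) z
  unfold gav
  rw [← e]
  unfold mm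
  refine mul_le_mul_of_nonneg_left (Finset.sum_le_sum fun y _ => ?_) (by positivity)
  refine pot_mono ((hω y).mul (((ex_cx c (continuous_VV _) z).sub (hb y)).pow 2)).locallyIntegrable
    (ex_fub c hv (hω y) (hb y) h (continuous_hk a) (integrable_hk ha) z).2.1 h fun x => ?_
  refine mul_le_mul_of_nonneg_left ?_ (hω0 y x)
  have hc := ex_cz c (continuous_VV v) x
  have h1 := ex_jensen ha (f := fun z' => ph c (VV v) z' x + -b y x) (by fun_prop)
    (M := (∑ j, |c j|) * (√v)⁻¹ + |-b y x|)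
    (fun z' => (abs_add_le _ _).trans (by linarith [ex_phi_abs c hv z' x])) z
  rw [ex_gav_add ha hc continuous_const (fun z' => ex_phi_abs c hv z' x) (M' := |-b y x|)
    (fun _ => le_rfl), ex_gav_ph c ha hv, ex_gav_const ha] at h1
  simp only [← sub_eq_add_neg] at h1
  exact h1

/-! decay at infinity -/

theorem ex_vk_le {y : E} (hy : y ≠ 0) : vk y ≤ ‖y‖⁻¹ := by
  rw [vk_eq]
  refine inv_anti₀ (norm_pos_iff.mpr hy) ?_
  exact Real.le_sqrt_of_sq_le (norm_sq_le_r2 y)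

theorem ex_VV_far {w : ℝ} (hw : 0 < w) {y : E} {R : ℝ} (hR : 0 < R) (hy : R ≤ ‖y‖) :
    |VV w y| ≤ R⁻¹ := by
  have h0 : y ≠ 0 := norm_pos_iff.mp (hR.trans_le hy)
  rw [abs_of_nonneg (VV_nonneg _ _)]
  exact (VV_le_vk hw h0).trans ((ex_vk_le h0).trans (inv_anti₀ hR hy))

omit [DecidableEq ι] in
theorem ex_supp {ψ : Wv ι Sp} (h : Cc ψ) : ∃ r, Supp r ψ := by
  classical
  have : ∀ τ, ∃ r, ∀ x, ψ τ x ≠ 0 → ‖x‖ ≤ r := fun τ => by
    obtain ⟨r, hr⟩ := (h τ).2.isCompact.isBounded.exists_norm_le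
    exact ⟨r, fun x hx => hr x (subset_tsupport _ hx)⟩
  choose r hr using this
  refine ⟨∑ τ, |r τ|, fun τ x hx i => (norm_le_pi_norm x i).trans ((hr τ x hx).trans
    ((le_abs_self _).trans ?_))⟩
  exact Finset.single_le_sum (f := fun τ => |r τ|) (fun _ _ => abs_nonneg _) (Finset.mem_univ τ)

theorem ex_norm_const {R : ℝ} (hR : 0 ≤ R) : ‖(fun _ => R : E)‖ = R := by
  rw [pi_norm_const, Real.norm_eq_abs, abs_of_nonneg hR]

theorem ex_dist {x z : E} {r : ℝ} (hx : ‖x‖ ≤ r) : ‖z‖ - r ≤ ‖x - z‖ := by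
  have := norm_sub_norm_le z x
  rw [norm_sub_rev] at this
  linarith

/-- lower bound for the mean square potential by the mean square of the reference values -/
theorem ex_mm_ge (c : ι → ℝ) (w : ℝ) {ω b : Y → X ι → ℝ}
    (hω : ∀ y, Continuous (ω y)) (hb : ∀ y, Continuous (b y)) (hω0 : ∀ y x, 0 ≤ ω y x)
    {ψ : Wv ι Sp} (h : Cc ψ) (z : E) {η : ℝ}
    (hη : ∀ x, (∃ τ, ψ τ x ≠ 0) → |ph c (VV w) z x| ≤ η) :
    exAv ω ψ (fun y x => b y x ^ 2) - 2 * η * exAv ω ψ (fun y x => |b y x|) ≤ mm c w ω b ψ z := by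
  have hc := ex_cx c (continuous_VV w) z
  have h1 := exAv_add (F := fun y x => b y x ^ 2) (G := fun y x => -(2 * η) * |b y x|) hω
    (fun y => (hb y).pow 2) (fun y => continuous_const.mul (hb y).abs) h
  rw [exAv_mul] at h1
  have h2 : exAv ω ψ (fun y x => b y x ^ 2 + -(2 * η) * |b y x|) ≤ mm c w ω b ψ z := by
    rw [ex_mm_eq]
    refine exAv_mono (F := fun y x => b y x ^ 2 + -(2 * η) * |b y x|)
      (G := fun y x => (ph c (VV w) z x - b y x) ^ 2) hω hω0
      (fun y => ((hb y).pow 2).add (continuous_const.mul (hb y).abs))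
      (fun y => (hc.sub (hb y)).pow 2) h fun y x hx => ?_
    have h3 : ph c (VV w) z x * b y x ≤ η * |b y x| :=
      (le_abs_self _).trans (by
        rw [abs_mul]; exact mul_le_mul_of_nonneg_right (hη x hx) (abs_nonneg _))
    nlinarith [sq_nonneg (ph c (VV w) z x)]
  linarith

theorem ex_minf (c : ι → ℝ) {w : ℝ} (hw : 0 < w) {ω b : Y → X ι → ℝ}
    (hω : ∀ y, Continuous (ω y)) (hb : ∀ y, Continuous (b y)) (hω0 : ∀ y x, 0 ≤ ω y x)
    {ψ : Wv ι Sp} (h : Cc ψ) {T : ℝ} (hT : ∀ z, mm c w ω b ψ z ≤ T) :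
    exAv ω ψ (fun y x => b y x ^ 2) ≤ T := by
  obtain ⟨r, hr⟩ := ex_supp h
  refine le_of_forall_pos_le_add fun δ hδ => ?_
  set A := 2 * (∑ j, |c j|) * exAv ω ψ (fun y x => |b y x|) with hA
  set R := (|A| + 1) / δ with hR
  have hR0 : 0 < R := by positivity
  have h1 := ex_mm_ge c w hω hb hω0 h (fun _ => R + |r|) (η := (∑ j, |c j|) * R⁻¹)
    fun x ⟨τ, hx⟩ => ex_ph_abs c fun j => ex_VV_far hw hR0 (by
      have := ex_dist (z := fun _ => R + |r|) ((hr τ x hx j).trans (le_abs_self r))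
      rw [ex_norm_const (by positivity)] at this
      linarith)
  have h2 : 2 * ((∑ j, |c j|) * R⁻¹) * exAv ω ψ (fun y x => |b y x|) = A * R⁻¹ := by
    rw [hA]; ring
  have h3 : A * R⁻¹ ≤ δ := by
    rw [hR, inv_div, ← mul_div_assoc, div_le_iff₀ (by positivity)]
    nlinarith [le_abs_self A]
  linarith [hT (fun _ => R + |r|)]

/-- the smoothed mean potential is bounded by the mean square potential -/
theorem phi_mean (c : ι → ℝ) {a v : ℝ} (ha : 0 < a) (hv : 0 < v) {ω b : Y → X ι → ℝ}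
    (hω : ∀ y, Continuous (ω y)) (hb : ∀ y, Continuous (b y)) (hω0 : ∀ y x, 0 ≤ ω y x)
    (hhalf : ∀ x, 1 / 2 ≤ (Fintype.card Y : ℝ)⁻¹ * ∑ y, ω y x) {ψ : Wv ι Sp} (h : Cc ψ)
    (h1 : nr ψ = 1) {S : ℝ} (hS0 : 0 ≤ S) (hS : ∀ z, gav a (mm c v ω b ψ) z ≤ S ^ 2) {w : ℝ}
    (hw : a + v ≤ w) (z : E) : |pot (ph c (VV w) z) ψ| ≤ 3 * S := by
  have hB : 0 < a + v := by positivity
  have hT : ∀ z, mm c (a + v) ω b ψ z ≤ S ^ 2 := fun z =>
    (ex_mm_le c ha hv hω hb hω0 h z).trans (hS z)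
  have hinf := ex_minf c hB hω hb hω0 h hT
  have key : ∀ z, |pot (ph c (VV (a + v)) z) ψ| ≤ 3 * S := by
    intro z
    have hc := ex_cx c (continuous_VV (a + v)) z
    have h2 := exAv_half hω hhalf (hc.pow 2) (fun x => sq_nonneg _) h
    have h3 := exAv_add (F := fun y x => 2 * (ph c (VV (a + v)) z x - b y x) ^ 2)
      (G := fun y x => 2 * b y x ^ 2) hω
      (fun y => continuous_const.mul ((hc.sub (hb y)).pow 2))
      (fun y => continuous_const.mul ((hb y).pow 2)) h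
    rw [exAv_mul, exAv_mul, ← ex_mm_eq] at h3
    have h4 := exAv_mono (F := fun _ x => ph c (VV (a + v)) z x ^ 2)
      (G := fun y x => 2 * (ph c (VV (a + v)) z x - b y x) ^ 2 + 2 * b y x ^ 2) hω hω0
      (fun _ => hc.pow 2) (fun y => (continuous_const.mul ((hc.sub (hb y)).pow 2)).add
        (continuous_const.mul ((hb y).pow 2))) h
      fun y x _ => by nlinarith [sq_nonneg (ph c (VV (a + v)) z x - 2 * b y x)]
    have h5 := pot_abs_sq_le hc h
    rw [h1, mul_one] at h5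
    have h6 : pot (fun x => ph c (VV (a + v)) z x ^ 2) ψ ≤ 8 * S ^ 2 := by
      have := hT z
      have e : (ph c (VV (a + v)) z ^ 2) = fun x => ph c (VV (a + v)) z x ^ 2 := rfl
      rw [e] at h2
      linarith
    refine (abs_pot_le hc.locallyIntegrable h).trans ?_
    refine abs_le_of_sq_le_sq' ?_ (by positivity) |>.2
    nlinarith [sq_nonneg S]
  rcases hw.eq_or_lt with rfl | hlt
  · exact key z
  · have e := congrFun (gav_pot_VV h c (F := fun _ => 1) continuous_const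
      (sub_pos.mpr hlt) hB) z
    simp only [one_mul, sub_add_cancel] at e
    rw [← show (fun x => ph c (VV w) z x) = ph c (VV w) z from rfl, ← e]
    exact ex_gav_abs (sub_pos.mpr hlt)
      (continuous_pot (F := fun z x => ph c (VV (a + v)) z x)
        (continuous_ph c (continuous_VV _)) h) key z

end Pool.Agent.Lib.MP_0655ed_mp
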