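import Pool.Agent.Lib.MP_0655ed_mp.ImpTilt
import Pool.Agent.Lib.MP_0655ed_mp.ImpDyson

namespace Pool.Agent.Lib.MP_0655ed_mp

theorem free_dich {σ Sp : Type} [Fintype σ] [DecidableEq σ] [Fintype Sp] (P : Species σ Sp)
    (hm : ∀ s, 0 < P.mass s) (hs : ∀ s, (P.spins s).Nonempty) (a b : σ) (ha : 0 < P.charge a)
    (hb : P.charge b = -P.charge a) (A : ℝ) (hA : Stable P A) (ρ : ℝ) (hρ : 0 < ρ)
    (T : ℝ) (hT : 0 < T) :
    (∃ C : ℝ, ∀ n : σ → ℕ, n ≠ 0 → ∑ s, n s * P.charge s = 0 →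
      ∀ L : ℝ, 0 < L → L ^ 3 = (∑ s, n s : ℕ) / ρ →
        Summable (fun k => Real.exp (-eig P L n k / T)) ∧
        Summable (fun k => Real.exp (-eig P L (n + Pi.single a 1 + Pi.single b 1) k / T)) ∧
        -C * ((∑ s, n s : ℕ) / (min (n a) (n b) + 1 : ℕ)) ≤
          freeEnergy P L (n + Pi.single a 1 + Pi.single b 1) T - freeEnergy P L n T ∧
        freeEnergy P L (n + Pi.single a 1 + Pi.single b 1) T - freeEnergy P L n T ≤
          C + T * Real.log ((n a + 1) * (n b + 1) / ((∑ s, n s : ℕ) : ℝ) ^ 2)) ∧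
    ((∃ C : ℝ, ∀ n : σ → ℕ, n ≠ 0 → ∑ s, n s * P.charge s = 0 →
      ∀ L : ℝ, 0 < L → L ^ 3 = (∑ s, n s : ℕ) / ρ →
        |freeEnergy P L (n + Pi.single a 1 + Pi.single b 1) T - freeEnergy P L n T| ≤ C) ↔
      ∀ n : σ → ℕ, ∑ s, n s * P.charge s = 0 → ∃ k, n = Pi.single a k + Pi.single b k) := by
  have hab : a ≠ b := fun h => by rw [h] at ha hb; linarith
  have key : ∃ C : ℝ, ∀ n : σ → ℕ, n ≠ 0 → ∑ s, n s * P.charge s = 0 →
      ∀ L : ℝ, 0 < L → L ^ 3 = (∑ s, n s : ℕ) / ρ →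
        Summable (fun k => Real.exp (-eig P L n k / T)) ∧
        Summable (fun k => Real.exp (-eig P L (n + Pi.single a 1 + Pi.single b 1) k / T)) ∧
        -C * ((∑ s, n s : ℕ) / (min (n a) (n b) + 1 : ℕ)) ≤
          freeEnergy P L (n + Pi.single a 1 + Pi.single b 1) T - freeEnergy P L n T ∧
        freeEnergy P L (n + Pi.single a 1 + Pi.single b 1) T - freeEnergy P L n T ≤
          C + T * Real.log ((n a + 1) * (n b + 1) / ((∑ s, n s : ℕ) : ℝ) ^ 2) := by
    obtain ⟨C, hC⟩ := final hm hs ha hb hA hρ (inv_pos.mpr hT)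
    refine ⟨T * C, fun n hn hneu L hL hL3 => ?_⟩
    obtain ⟨⟨h1, h2⟩, -, h3, h4⟩ := hC n hn hneu L hL hL3
    have h0 : ∀ x : ℝ, -x / T = -T⁻¹ * x := fun x => by ring
    simp only [freeEnergy, h0]
    have h5 := mul_le_mul_of_nonneg_left h3 hT.le
    have h6 := mul_le_mul_of_nonneg_left h4 hT.le
    exact ⟨h1, h2, by linarith, by linarith⟩
  refine ⟨key, ?_⟩
  obtain ⟨C, hC⟩ := key
  constructor
  · rintro ⟨C', hC'⟩ n hneu
    by_contra h0
    push Not at h0
    obtain ⟨m, hm0, hmn, hmab⟩ : ∃ m : σ → ℕ, m ≠ 0 ∧ ∑ s, m s * P.charge s = 0 ∧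
        (m a = 0 ∨ m b = 0) := by
      set k := min (n a) (n b) with hk
      have hle : ∀ s, (Pi.single a k + Pi.single b k : σ → ℕ) s ≤ n s := by
        intro s
        simp only [Pi.add_apply, Pi.single_apply]
        split_ifs with h1 h2 h2
        · exact (hab (h1.symm.trans h2)).elim
        · rw [h1]; simp [hk]
        · rw [h2]; simp [hk]
        · simp
      refine ⟨fun s => n s - (Pi.single a k + Pi.single b k : σ → ℕ) s, fun h => h0 k ?_, ?_, ?_⟩
      · funext s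
        have := congrFun h s
        have := hle s
        simp only [Pi.zero_apply] at *
        omega
      · simp only [Nat.cast_sub (hle _), sub_mul, Finset.sum_sub_distrib, hneu]
        simp [add_mul, Finset.sum_add_distrib, Pi.single_apply, hb]
      · simp only [Pi.add_apply, Pi.single_apply, if_neg hab, if_neg hab.symm, if_true]
        omega
    obtain ⟨t, ht⟩ := exists_nat_gt (2 * Real.exp ((C + C') / T))
    have hE := Real.exp_pos ((C + C') / T)
    have ht0 : (0 : ℝ) < t := by linarith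
    have ht1 : 1 ≤ t := by exact_mod_cast ht0
    have hM : 1 ≤ ∑ s, m s := by
      obtain ⟨s, hs⟩ := Function.ne_iff.mp hm0
      exact (Nat.pos_of_ne_zero hs).trans_le
        (Finset.single_le_sum (fun _ _ => Nat.zero_le _) (Finset.mem_univ s))
    let n1 : σ → ℕ := fun s => t * m s
    have hN : t ≤ ∑ s, n1 s := by
      rw [← Finset.mul_sum]
      exact Nat.le_mul_of_pos_right _ hM
    have hn1 : n1 ≠ 0 := fun h => by
      rw [h] at hN
      simp at hN
      omega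
    have hneu1 : ∑ s, n1 s * P.charge s = 0 := by
      simp only [n1, Nat.cast_mul, mul_assoc, ← Finset.mul_sum, hmn, mul_zero]
    have hN' : (t : ℝ) ≤ (∑ s, n1 s : ℕ) := by exact_mod_cast hN
    have hpos : 0 < ((∑ s, n1 s : ℕ) : ℝ) / ρ := by
      have : (0 : ℝ) < (∑ s, n1 s : ℕ) := by linarith
      positivity
    have hL3 : ((((∑ s, n1 s : ℕ) : ℝ) / ρ) ^ ((3 : ℕ)⁻¹ : ℝ)) ^ 3 = (∑ s, n1 s : ℕ) / ρ :=
      Real.rpow_inv_natCast_pow hpos.le (by norm_num)
    have h1 := (hC n1 hn1 hneu1 _ (Real.rpow_pos_of_pos hpos _) hL3).2.2.2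
    have h2 := (abs_le.mp (hC' n1 hn1 hneu1 _ (Real.rpow_pos_of_pos hpos _) hL3)).1
    have h3 : ∀ s, (n1 s : ℝ) ≤ (∑ s, n1 s : ℕ) := fun s => by
      exact_mod_cast Finset.single_le_sum (f := n1) (fun _ _ => Nat.zero_le _) (Finset.mem_univ s)
    have ht1' : (1 : ℝ) ≤ t := by exact_mod_cast ht1
    have h4 : ((n1 a : ℝ) + 1) * (n1 b + 1) ≤ 2 * (∑ s, n1 s : ℕ) := by
      rcases hmab with h | h
      · have : n1 a = 0 := by simp [n1, h]
        rw [this]
        have := h3 b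
        push_cast at *
        linarith
      · have : n1 b = 0 := by simp [n1, h]
        rw [this]
        have := h3 a
        push_cast at *
        linarith
    generalize ((∑ s, n1 s : ℕ) : ℝ) = N at *
    have hN0 : 0 < N := by linarith
    have h5 : ((n1 a : ℝ) + 1) * (n1 b + 1) / N ^ 2 < Real.exp (-((C + C') / T)) := by
      rw [Real.exp_neg, div_lt_iff₀ (by positivity), ← div_eq_inv_mul, lt_div_iff₀ hE]
      nlinarith [mul_le_mul_of_nonneg_right h4 hE.le]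
    have h6 := Real.log_lt_log (by positivity) h5
    rw [Real.log_exp] at h6
    have h7 := mul_lt_mul_of_pos_left h6 hT
    have h8 : T * -((C + C') / T) = -(C + C') := by field_simp
    linarith
  · intro h
    refine ⟨2 * |C|, fun n hn hneu L hL hL3 => ?_⟩
    obtain ⟨-, -, h1, h2⟩ := hC n hn hneu L hL hL3
    obtain ⟨k, hk⟩ := h n hneu
    have hka : n a = k := by simp [hk, hab]
    have hkb : n b = k := by simp [hk, hab.symm]
    have hN : ∑ s, n s = 2 * k := by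
      simp only [hk, Pi.add_apply, Finset.sum_add_distrib, Finset.sum_pi_single', Finset.mem_univ,
        if_true]
      ring
    have hk1 : (1 : ℝ) ≤ k := by
      have : k ≠ 0 := by
        rintro rfl
        exact hn (by simp [hk])
      exact_mod_cast Nat.pos_of_ne_zero this
    rw [hN, hka, hkb] at h1 h2
    rw [min_self] at h1
    push_cast at h1 h2
    have h3 : Real.log (((k : ℝ) + 1) * (k + 1) / (2 * k) ^ 2) ≤ 0 := by
      refine Real.log_nonpos (by positivity) ?_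
      rw [div_le_one (by positivity)]
      nlinarith
    have h4 : 2 * (k : ℝ) / (k + 1) ≤ 2 := by
      rw [div_le_iff₀ (by positivity)]
      linarith
    have h5 : 0 ≤ 2 * (k : ℝ) / (k + 1) := by positivity
    have h6 := mul_nonpos_of_nonneg_of_nonpos hT.le h3
    have h7 := le_abs_self C
    have h8 := abs_nonneg C
    rw [abs_le]
    constructor
    · nlinarith
    · linarith

theorem one_sign {σ Sp : Type} [Fintype σ] [DecidableEq σ] [Fintype Sp] {P : Species σ Sp}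
    (hm : ∀ s, 0 < P.mass s) (hs : ∀ s, (P.spins s).Nonempty) {A : ℝ} (hA : Stable P A) :
    (∀ s, P.charge s < 0 → P.fermion s = true) ∨ ∀ s, 0 < P.charge s → P.fermion s = true := by
  classical
  by_contra h
  push Not at h
  obtain ⟨⟨b, hb, hfb⟩, a, ha, hfa⟩ := h
  exact dyson hm hs ha hb (by simpa using hfa) (by simpa using hfb) A hA.stb

theorem energy_bounded {σ Sp : Type} [Fintype σ] [DecidableEq σ] [Fintype Sp] (P : Species σ Sp)
    (hc : ∀ s, P.charge s ≠ 0) (hm : ∀ s, 0 < P.mass s) (hs : ∀ s, (P.spins s).Nonempty)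
    (a b : σ) (ha : 0 < P.charge a) (hb : P.charge b = -P.charge a) (A : ℝ) (hA : Stable P A)
    (ρ : ℝ) (hρ : 0 < ρ) :
    ∃ C : ℝ, ∀ n : σ → ℕ, n ≠ 0 → ∑ s, n s * P.charge s = 0 →
      ∀ L : ℝ, 0 < L → L ^ 3 = (∑ s, n s : ℕ) / ρ →
        |eig P L (n + Pi.single a 1 + Pi.single b 1) 0 - eig P L n 0| ≤ C := by
  obtain ⟨C, hC⟩ := final hm hs ha hb hA hρ one_pos
  obtain ⟨C', hC'⟩ := lower_one_sign hm hs hc (one_sign hm hs hA) ha hb hA hρ
  refine ⟨|C| + |C'|, fun n hn hneu L hL hL3 => ?_⟩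
  obtain ⟨-, ⟨h1, -⟩, -⟩ := hC n hn hneu L hL hL3
  have h2 := hC' n hn hneu L hL hL3
  have h3 := le_abs_self C
  have h4 := le_abs_self C'
  have h5 := abs_nonneg C
  have h6 := abs_nonneg C'
  rw [abs_le]
  constructor <;> linarith

theorem trace_finite {σ Sp : Type} [Fintype σ] [DecidableEq σ] [Fintype Sp] {P : Species σ Sp}
    (hm : ∀ s, 0 < P.mass s) (hs : ∀ s, (P.spins s).Nonempty) {A : ℝ} (hA : Stable P A)
    {T : ℝ} (hT : 0 < T) (n : σ → ℕ) (hn : n ≠ 0) (L : ℝ) (hL : 0 < L) :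
    Summable fun k => Real.exp (-eig P L n k / T) := by
  classical
  obtain ⟨s0, hs0⟩ := Function.ne_iff.mp hn
  have hne : Nonempty ((s : σ) × Fin (n s)) := ⟨⟨s0, ⟨0, Nat.pos_of_ne_zero hs0⟩⟩⟩
  have h1 := spec_lam hm hs hA.stb (ι := (s : σ) × Fin (n s)) Sigma.fst hL (inv_pos.mpr hT)
  have h0 : ∀ x : ℝ, -x / T = -T⁻¹ * x := fun x => by ring
  simp only [h0, eig_eq P hL]
  exact h1.1

theorem free_dense {σ Sp : Type} [Fintype σ] [DecidableEq σ] [Fintype Sp] (P : Species σ Sp)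
    (hm : ∀ s, 0 < P.mass s) (hs : ∀ s, (P.spins s).Nonempty) (a b : σ) (ha : 0 < P.charge a)
    (hb : P.charge b = -P.charge a) (A : ℝ) (hA : Stable P A) (ρ : ℝ) (hρ : 0 < ρ)
    (T : ℝ) (hT : 0 < T) (δ : ℝ) (hδ : 0 < δ) :
    ∃ C : ℝ, ∀ n : σ → ℕ, n ≠ 0 → ∑ s, n s * P.charge s = 0 →
      δ * (∑ s, n s : ℕ) ≤ n a → δ * (∑ s, n s : ℕ) ≤ n b →
      ∀ L : ℝ, 0 < L → L ^ 3 = (∑ s, n s : ℕ) / ρ →
        |freeEnergy P L (n + Pi.single a 1 + Pi.single b 1) T - freeEnergy P L n T| ≤ C := by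
  obtain ⟨C, hC⟩ := (free_dich P hm hs a b ha hb A hA ρ hρ T hT).1
  have hδ' := inv_pos.mpr hδ
  refine ⟨|C| * δ⁻¹ + |C| + T * 4, fun n hn hneu h1 h2 L hL hL3 => ?_⟩
  obtain ⟨-, -, h5, h6⟩ := hC n hn hneu L hL hL3
  have h7 : C * ((∑ s, n s : ℕ) / (min (n a) (n b) + 1 : ℕ)) ≤ |C| * δ⁻¹ := by
    refine (mul_le_mul_of_nonneg_right (le_abs_self C) (by positivity)).trans
      (mul_le_mul_of_nonneg_left ?_ (abs_nonneg C))
    rw [div_le_iff₀ (by positivity), ← div_eq_inv_mul, le_div_iff₀ hδ]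
    push_cast at h1 h2 ⊢
    have := le_min h1 h2
    linarith
  have hN : (1 : ℝ) ≤ (∑ s, n s : ℕ) := by
    obtain ⟨s, hs⟩ := Function.ne_iff.mp hn
    exact_mod_cast (Nat.pos_of_ne_zero hs).trans_le
      (Finset.single_le_sum (f := n) (fun _ _ => Nat.zero_le _) (Finset.mem_univ s))
  have h8 : ∀ s, (n s : ℝ) ≤ (∑ s, n s : ℕ) := fun s => by
    exact_mod_cast Finset.single_le_sum (f := n) (fun _ _ => Nat.zero_le _) (Finset.mem_univ s)
  have h9 : ((n a : ℝ) + 1) * (n b + 1) / ((∑ s, n s : ℕ) : ℝ) ^ 2 ≤ 4 := by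
    rw [div_le_iff₀ (by positivity)]
    have := mul_le_mul (add_le_add (h8 a) hN) (add_le_add (h8 b) hN) (by positivity)
      (by positivity)
    linarith
  have h10 := Real.log_le_sub_one_of_pos
    (x := ((n a : ℝ) + 1) * (n b + 1) / ((∑ s, n s : ℕ) : ℝ) ^ 2) (by positivity)
  have h11 := le_abs_self C
  have h12 := abs_nonneg C
  have h13 := mul_nonneg h12 hδ'.le
  have h14 := mul_le_mul_of_nonneg_left (show Real.log (((n a : ℝ) + 1) * (n b + 1) /
    ((∑ s, n s : ℕ) : ℝ) ^ 2) ≤ 4 by linarith) hT.le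
  rw [abs_le]
  constructor <;> linarith

end Pool.Agent.Lib.MP_0655ed_mp
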