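import Pool.Agent.Lib.MP_0655ed_mp.ImpTheta

open Finset MeasureTheory Real Filter Topology

namespace Pool.Agent.Lib.MP_0655ed_mp

variable {ι : Type} [Fintype ι]

/-- `f'` is the derivative of `f` in the direction `k` -/
def fa_L (k : Fin 3) (f f' : E → ℝ) : Prop :=
  ∀ z, HasDerivAt (fun t : ℝ => f (z + t • ee k)) (f' z) 0

/-- bounded continuous -/
def fa_B (f : E → ℝ) : Prop := Continuous f ∧ ∃ C, ∀ z, |f z| ≤ C

/-- integrable with integral zero -/
def fa_Z (f : E → ℝ) : Prop := Integrable f ∧ ∫ z, f z = 0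

section basic
variable {k : Fin 3} {f f' g g' : E → ℝ}

theorem fa_L.congr (h : fa_L k f f') (e : ∀ z, g' z = f' z) : fa_L k f g' := fun z => by
  rw [e z]; exact h z

theorem fa_L.mul (hf : fa_L k f f') (hg : fa_L k g g') :
    fa_L k (fun z => f z * g z) (fun z => f' z * g z + f z * g' z) := fun z => by
  have := (hf z).mul (hg z)
  simp only [zero_smul, add_zero] at this
  exact this

theorem fa_L.sub_const (hf : fa_L k f f') (b : ℝ) : fa_L k (fun z => f z - b) f' :=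
  fun z => (hf z).sub_const b

theorem fa_L.const_mul (hf : fa_L k f f') (b : ℝ) :
    fa_L k (fun z => b * f z) (fun z => b * f' z) := fun z => (hf z).const_mul b

theorem fa_L.neg (hf : fa_L k f f') : fa_L k (fun z => -f z) (fun z => -f' z) :=
  fun z => (hf z).neg

theorem fa_L.shift (hf : fa_L k f f') (z0 : E) :
    fa_L k (fun z => f (z - z0)) (fun z => f' (z - z0)) := fun z => by
  have := hf (z - z0)
  have e : (fun t : ℝ => f (z + t • ee k - z0)) = fun t : ℝ => f (z - z0 + t • ee k) := by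
    funext t; congr 1; abel
  show HasDerivAt (fun t : ℝ => f (z + t • ee k - z0)) _ 0
  rw [e]; exact this

theorem fa_L.refl (hf : fa_L k f f') (y : E) :
    fa_L k (fun z => f (y - z)) (fun z => -f' (y - z)) := fun z => by
  have h1 := hf (y - z)
  have h2 : HasDerivAt (fun t : ℝ => -t) (-1) 0 := (hasDerivAt_id (0 : ℝ)).neg
  have h1' : HasDerivAt (fun t : ℝ => f (y - z + t • ee k)) (f' (y - z)) (-(0 : ℝ)) := by
    rw [neg_zero]; exact h1
  have h3 := HasDerivAt.comp (0 : ℝ) h1' h2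
  have e : (fun t : ℝ => f (y - (z + t • ee k))) =
      (fun t : ℝ => f (y - z + t • ee k)) ∘ fun t : ℝ => -t := by
    funext t
    simp only [Function.comp]
    congr 1
    rw [neg_smul]; abel
  show HasDerivAt (fun t : ℝ => f (y - (z + t • ee k))) (-f' (y - z)) 0
  rw [e]
  have e2 : -f' (y - z) = f' (y - z) * -1 := by ring
  rw [e2]; exact h3

theorem fa_L.ph (hf : fa_L k f f') (c : ι → ℝ) (x : X ι) :
    fa_L k (fun z => ph c f z x) (fun z => -ph c f' z x) := fun z => by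
  have h : HasDerivAt (fun t : ℝ => ∑ j, c j * f (x j - (z + t • ee k)))
      (∑ j, c j * -f' (x j - z)) 0 :=
    HasDerivAt.fun_sum fun j _ => (hf.refl (x j) z).const_mul (c j)
  have e : -Pool.Agent.Lib.MP_0655ed_mp.ph c f' z x = ∑ j, c j * -f' (x j - z) := by
    unfold Pool.Agent.Lib.MP_0655ed_mp.ph
    rw [← Finset.sum_neg_distrib]
    exact Finset.sum_congr rfl fun j _ => by ring
  show HasDerivAt _ (-Pool.Agent.Lib.MP_0655ed_mp.ph c f' z x) 0
  rw [e]; exact h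

theorem fa_L_coord (k l : Fin 3) : fa_L k (fun y => y l) (fun _ => ee k l) := fun z => by
  have h := ((hasDerivAt_id (0 : ℝ)).mul_const (ee k l)).const_add (z l)
  simp only [id, one_mul] at h
  exact h

theorem fa_L.comp_r2 {G G' : ℝ → ℝ} (hG : ∀ t, HasDerivAt G (G' t) t) (a : ℝ) (k : Fin 3) :
    fa_L k (fun y => G (r2 y / a)) (fun y => G' (r2 y / a) * (2 * y k / a)) := fun z => by
  have h1 := (hasDerivAt_r2_line z k).div_const a
  have h2 : HasDerivAt G (G' (r2 z / a)) ((fun s : ℝ => r2 (z + s • ee k) / a) 0) := by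
    simp only [zero_smul, add_zero]; exact hG _
  exact HasDerivAt.comp (0 : ℝ) h2 h1

theorem fa_B_const (b : ℝ) : fa_B fun _ => b := ⟨continuous_const, |b|, fun _ => le_rfl⟩

theorem fa_B.mul (hf : fa_B f) (hg : fa_B g) : fa_B fun z => f z * g z := by
  obtain ⟨c1, C1, h1⟩ := hf
  obtain ⟨c2, C2, h2⟩ := hg
  refine ⟨c1.mul c2, C1 * C2, fun z => ?_⟩
  rw [abs_mul]
  exact mul_le_mul (h1 z) (h2 z) (abs_nonneg _) ((abs_nonneg _).trans (h1 z))

theorem fa_B.add (hf : fa_B f) (hg : fa_B g) : fa_B fun z => f z + g z := by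
  obtain ⟨c1, C1, h1⟩ := hf
  obtain ⟨c2, C2, h2⟩ := hg
  exact ⟨c1.add c2, C1 + C2, fun z => (abs_add_le _ _).trans (add_le_add (h1 z) (h2 z))⟩

theorem fa_B.neg (hf : fa_B f) : fa_B fun z => -f z := by
  obtain ⟨c1, C1, h1⟩ := hf
  exact ⟨c1.neg, C1, fun z => by rw [abs_neg]; exact h1 z⟩

theorem fa_B.congr (hf : fa_B f) (e : ∀ z, g z = f z) : fa_B g := by
  have : g = f := funext e
  rw [this]; exact hf

theorem fa_B.sub (hf : fa_B f) (hg : fa_B g) : fa_B fun z => f z - g z :=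
  (hf.add hg.neg).congr fun z => by ring

theorem fa_B.const_mul (hf : fa_B f) (b : ℝ) : fa_B fun z => b * f z := (fa_B_const b).mul hf

theorem fa_B_sum {κ : Type} (s : Finset κ) {F : κ → E → ℝ} (h : ∀ j, fa_B (F j)) :
    fa_B fun z => ∑ j ∈ s, F j z := by
  classical
  induction s using Finset.induction_on with
  | empty => simpa using fa_B_const 0
  | insert a s ha ih => exact ((h a).add ih).congr fun z => by rw [Finset.sum_insert ha]

theorem fa_B.ph (hf : fa_B f) (c : ι → ℝ) (x : X ι) : fa_B fun z => ph c f z x := by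
  obtain ⟨c1, C1, h1⟩ := hf
  refine fa_B_sum Finset.univ (F := fun j z => c j * f (x j - z)) fun j => ?_
  refine fa_B.const_mul ⟨c1.comp (continuous_const.sub continuous_id), C1, fun z => h1 _⟩ _

theorem fa_B.int {T : E → ℝ} (hf : fa_B f) (hT : Integrable T) :
    Integrable fun z => T z * f z := by
  obtain ⟨c1, C1, h1⟩ := hf
  exact hT.mul_bdd c1.aestronglyMeasurable (c := C1) (Eventually.of_forall fun z => h1 z)

theorem fa_of_le (hf : Continuous f) (hg : fa_B g) (h : ∀ z, |f z| ≤ g z) : fa_B f := by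
  obtain ⟨_, C, hC⟩ := hg
  exact ⟨hf, C, fun z => (h z).trans ((le_abs_self _).trans (hC z))⟩

theorem fa_ibp {T T' : E → ℝ} (hT : fa_L k T T') (iT : Integrable T) (iT' : Integrable T')
    (hf : fa_L k f f') (bf : fa_B f) (bf' : fa_B f') :
    fa_Z fun z => T' z * f z + T z * f' z := by
  have i1 := bf.int iT'
  have i2 := bf'.int iT
  have i3 := bf.int iT
  refine ⟨i1.add i2, ?_⟩
  have h := integral_bilinear_hasLineDerivAt_right_eq_neg_left_of_integrable
    (μ := (volume : Measure E)) (f := T) (f' := T') (g := f) (g' := f') (v := ee k)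
    (B := ContinuousLinearMap.mul ℝ ℝ) i1 i2 i3 (fun z _ => hT z) (fun z _ => hf z)
  simp only [ContinuousLinearMap.mul_apply'] at h
  rw [integral_add i1 i2, h]; ring

theorem fa_Z.add (hf : fa_Z f) (hg : fa_Z g) : fa_Z fun z => f z + g z :=
  ⟨hf.1.add hg.1, by rw [integral_add hf.1 hg.1, hf.2, hg.2, add_zero]⟩

theorem fa_Z.const_mul (hf : fa_Z f) (b : ℝ) : fa_Z fun z => b * f z :=
  ⟨hf.1.const_mul b, by rw [integral_const_mul, hf.2, mul_zero]⟩

theorem fa_Z.sub (hf : fa_Z f) (hg : fa_Z g) : fa_Z fun z => f z - g z :=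
  ⟨hf.1.sub hg.1, by rw [integral_sub hf.1 hg.1, hf.2, hg.2, sub_zero]⟩

theorem fa_Z_sum {F : Fin 3 → E → ℝ} (h : ∀ j, fa_Z (F j)) : fa_Z fun z => ∑ j, F j z :=
  ⟨integrable_finsetSum _ fun j _ => (h j).1, by
    rw [integral_finsetSum _ fun j _ => (h j).1]
    exact Finset.sum_eq_zero fun j _ => (h j).2⟩

theorem fa_Z.fin_eq {D F G1 G2 G3 : E → ℝ} {a : ℝ} (hD : fa_Z D) (J1 : Integrable G1)
    (J2 : Integrable G2) (J3 : Integrable G3)
    (h : ∀ z, a * F z = G1 z - (G2 z - G3 z) / 2 + D z) :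
    a * ∫ z, F z = (∫ z, G1 z) - ((∫ z, G2 z) - ∫ z, G3 z) / 2 := by
  have J4 : Integrable fun z => (G2 z - G3 z) / 2 := (J2.sub J3).div_const 2
  have J5 : Integrable fun z => G1 z - (G2 z - G3 z) / 2 := J1.sub J4
  rw [← integral_const_mul, integral_congr_ae (Eventually.of_forall h), integral_add J5 hD.1,
    hD.2, add_zero, integral_sub J1 J4, integral_div, integral_sub J2 J3]

theorem fa_Z.fin_le {D F G1 G2 : E → ℝ} {a b : ℝ} (hD : fa_Z D) (J0 : Integrable F)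
    (J1 : Integrable G1) (J2 : Integrable G2) (h : ∀ z, F z ≤ a * G1 z + b * G2 z + D z) :
    ∫ z, F z ≤ a * (∫ z, G1 z) + b * ∫ z, G2 z := by
  have J4 : Integrable fun z => a * G1 z + b * G2 z := (J1.const_mul a).add (J2.const_mul b)
  have J5 : Integrable fun z => a * G1 z + b * G2 z + D z := J4.add hD.1
  have := integral_mono J0 J5 h
  rwa [integral_add J4 hD.1, hD.2, add_zero, integral_add (J1.const_mul a) (J2.const_mul b),
    integral_const_mul, integral_const_mul] at this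

theorem fa_sq_le (y : E) (k : Fin 3) : y k ^ 2 ≤ r2 y :=
  Finset.single_le_sum (f := fun k => y k ^ 2) (fun _ _ => sq_nonneg _) (Finset.mem_univ k)

theorem fa_abs_le (y : E) (k : Fin 3) : |y k| ≤ 1 + r2 y := by
  have := fa_sq_le y k
  have h2 : |y k| ^ 2 = y k ^ 2 := sq_abs _
  nlinarith [sq_nonneg (|y k| - 1), abs_nonneg (y k)]

theorem fa_abs_mul_le (y : E) (k l : Fin 3) : |y k * y l| ≤ r2 y := by
  have h1 := fa_sq_le y k
  have h2 := fa_sq_le y l
  rw [abs_le]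
  constructor <;> nlinarith [sq_nonneg (y k - y l), sq_nonneg (y k + y l)]

theorem fa_B.coord (hg : fa_B g) (h0 : ∀ y, 0 ≤ g y) (hr : fa_B fun y => r2 y * g y) (k : Fin 3) :
    fa_B fun y => y k * g y := by
  refine fa_of_le ((continuous_apply k).mul hg.1) (hg.add hr) fun y => ?_
  rw [abs_mul, abs_of_nonneg (h0 y)]
  have := mul_le_mul_of_nonneg_right (fa_abs_le y k) (h0 y)
  linarith

theorem fa_B.coord2 (hg : fa_B g) (h0 : ∀ y, 0 ≤ g y) (hr : fa_B fun y => r2 y * g y)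
    (k l : Fin 3) : fa_B fun y => y k * y l * g y := by
  refine fa_of_le (((continuous_apply k).mul (continuous_apply l)).mul hg.1) hr fun y => ?_
  rw [abs_mul, abs_of_nonneg (h0 y)]
  exact mul_le_mul_of_nonneg_right (fa_abs_mul_le y k l) (h0 y)

end basic

/-- second derivatives of `VV` -/
noncomputable def fa_V2 (u : ℝ) (k l : Fin 3) (y : E) : ℝ :=
  -((√(π * u))⁻¹ * (ee l k / (2 * u) * Fk 1 (r2 y / (4 * u)) -
    (4 * u ^ 2)⁻¹ * (y k * y l * Fk 2 (r2 y / (4 * u)))))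

noncomputable def fa_H1 (u : ℝ) (k : Fin 3) (y : E) : ℝ := -(y k / (2 * u)) * hk u y

noncomputable def fa_H2 (u : ℝ) (k : Fin 3) (y : E) : ℝ :=
  -(2 * u)⁻¹ * hk u y + (4 * u ^ 2)⁻¹ * (y k * y k * hk u y)

noncomputable def fa_T1 (b : ℝ) (k : Fin 3) (y : E) : ℝ := -2 * (y k * Th 1 b (r2 y))

noncomputable def fa_T2 (b : ℝ) (k l : Fin 3) (y : E) : ℝ :=
  -2 * ee l k * Th 1 b (r2 y) + 4 * (y k * y l * Th 2 b (r2 y))

theorem fa_ee_self (k : Fin 3) : ee k k = 1 := by simp [ee]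

theorem fa_ee_comm (k l : Fin 3) : ee k l = ee l k := by
  simp only [ee, Pi.single_apply]
  by_cases h : k = l
  · subst h; rfl
  · rw [if_neg h, if_neg (Ne.symm h)]

theorem fa_L_VV (u : ℝ) (k : Fin 3) : fa_L k (VV u) (V1 u k) := fun z => hasDerivAt_VV_line u z k

theorem fa_L_V1 {u : ℝ} (hu : 0 < u) (k l : Fin 3) : fa_L l (V1 u k) (fa_V2 u k l) := by
  have h1 := fa_L.comp_r2 (G := Fk 1) (G' := fun t => -Fk 2 t) (hasDerivAt_Fk 1) (4 * u) l
  have h2 := ((fa_L_coord l k).const_mul ((√(π * u))⁻¹ * (2 * u)⁻¹)).mul h1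
  have h3 := h2.neg
  have e : V1 u k = fun z => -((√(π * u))⁻¹ * (2 * u)⁻¹ * z k * Fk 1 (r2 z / (4 * u))) := by
    funext z; unfold V1; ring
  rw [e]
  refine h3.congr fun z => ?_
  unfold fa_V2
  field_simp
  ring

theorem fa_L_hk (u : ℝ) (k : Fin 3) : fa_L k (hk u) (fa_H1 u k) :=
  fun z => hasDerivAt_hk_line u z k

theorem fa_L_H1 {u : ℝ} (hu : 0 < u) (k : Fin 3) : fa_L k (fa_H1 u k) (fa_H2 u k) := by
  have h2 := ((fa_L_coord k k).const_mul (-(2 * u)⁻¹)).mul (fa_L_hk u k)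
  have e : fa_H1 u k = fun z => -(2 * u)⁻¹ * z k * hk u z := by
    funext z; unfold fa_H1; ring
  rw [e]
  refine h2.congr fun z => ?_
  unfold fa_H2 fa_H1
  rw [fa_ee_self]
  field_simp
  ring

theorem fa_L_Th (j : ℕ) {b : ℝ} (hb : 0 < b) (k : Fin 3) :
    fa_L k (fun y => Th j b (r2 y)) (fun y => -2 * (y k * Th (j + 1) b (r2 y))) := by
  have h1 := fa_L.comp_r2 (G := Th j b) (G' := fun t => -Th (j + 1) b t) (hasDerivAt_Th j hb) 1 k
  simp only [div_one] at h1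
  exact h1.congr fun z => by ring

theorem fa_L_th {b : ℝ} (hb : 0 < b) (k : Fin 3) : fa_L k (th b) (fa_T1 b k) := fa_L_Th 0 hb k

theorem fa_L_T1 {b : ℝ} (hb : 0 < b) (k l : Fin 3) : fa_L l (fa_T1 b k) (fa_T2 b k l) := by
  have h := ((fa_L_coord l k).mul (fa_L_Th 1 hb l)).const_mul (-2)
  refine fa_L.congr (f := fa_T1 b k) h fun z => ?_
  unfold fa_T2
  ring

theorem fa_B_Fk (j : ℕ) {u : ℝ} (hu : 0 < u) : fa_B fun y : E => Fk j (r2 y / (4 * u)) := by
  refine ⟨(contDiff_Fk j).continuous.comp (contDiff_r2.continuous.div_const _), 1, fun y => ?_⟩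
  rw [abs_of_pos (Fk_pos _ _)]
  exact Fk_le_one j (div_nonneg (r2_nonneg y) (by positivity))

theorem fa_B_rFk (j : ℕ) {u : ℝ} (hu : 0 < u) :
    fa_B fun y : E => r2 y * Fk (j + 1) (r2 y / (4 * u)) := by
  refine ⟨contDiff_r2.continuous.mul (fa_B_Fk (j + 1) hu).1, 4 * u, fun y => ?_⟩
  rw [abs_of_nonneg (mul_nonneg (r2_nonneg y) (Fk_pos _ _).le)]
  have h := mul_Fk_le_one j (div_nonneg (r2_nonneg y) (by positivity : (0 : ℝ) ≤ 4 * u))
  have e : r2 y * Fk (j + 1) (r2 y / (4 * u)) =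
      4 * u * (r2 y / (4 * u) * Fk (j + 1) (r2 y / (4 * u))) := by field_simp
  rw [e]
  nlinarith

theorem fa_B_VV {u : ℝ} (hu : 0 < u) : fa_B (VV u) :=
  ⟨continuous_VV u, (√u)⁻¹, fun y => by rw [abs_of_nonneg (VV_nonneg u y)]; exact VV_le hu y⟩

theorem fa_B_V1 {u : ℝ} (hu : 0 < u) (k : Fin 3) : fa_B (V1 u k) := by
  have h := (fa_B_Fk 1 hu).coord (fun y => (Fk_pos _ _).le) (fa_B_rFk 0 hu) k
  refine (h.const_mul (-((√(π * u))⁻¹ * (2 * u)⁻¹))).congr fun z => ?_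
  unfold V1; ring

theorem fa_B_V2 {u : ℝ} (hu : 0 < u) (k l : Fin 3) : fa_B (fa_V2 u k l) := by
  have h := (fa_B_Fk 2 hu).coord2 (fun y => (Fk_pos _ _).le) (fa_B_rFk 1 hu) k l
  exact ((((fa_B_Fk 1 hu).const_mul _).sub (h.const_mul _)).const_mul _).neg

theorem fa_B_hk {u : ℝ} (hu : 0 < u) : fa_B (hk u) :=
  ⟨continuous_hk u, hk u 0, fun y => by rw [abs_of_nonneg (hk_nonneg u y)]; exact hk_le_zero hu y⟩

theorem fa_B_rhk {u : ℝ} (hu : 0 < u) : fa_B fun y => r2 y * hk u y := by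
  refine fa_of_le (contDiff_r2.continuous.mul (continuous_hk u))
    ((fa_B_hk (by positivity : 0 < 2 * u)).const_mul (24 * u)) fun y => ?_
  rw [abs_of_nonneg (mul_nonneg (r2_nonneg y) (hk_nonneg u y))]
  exact r2_mul_hk hu y

theorem fa_B_H1 {u : ℝ} (hu : 0 < u) (k : Fin 3) : fa_B (fa_H1 u k) := by
  have h := (fa_B_hk hu).coord (hk_nonneg u) (fa_B_rhk hu) k
  refine (h.const_mul (-(2 * u)⁻¹)).congr fun z => ?_
  unfold fa_H1; ring

theorem fa_B_H2 {u : ℝ} (hu : 0 < u) (k : Fin 3) : fa_B (fa_H2 u k) := by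
  have h := (fa_B_hk hu).coord2 (hk_nonneg u) (fa_B_rhk hu) k k
  exact ((fa_B_hk hu).const_mul _).add (h.const_mul _)

theorem fa_cont_Th (j : ℕ) {b : ℝ} (hb : 0 < b) : Continuous fun y : E => Th j b (r2 y) :=
  (contDiff_Th j hb).continuous.comp contDiff_r2.continuous

theorem fa_int_Th1 {b : ℝ} (hb : 0 < b) : Integrable fun y : E => Th 1 b (r2 y) := by
  refine ((integrable_th hb).div_const (4 * b)).mono' (fa_cont_Th 1 hb).aestronglyMeasurable
    (Eventually.of_forall fun y => ?_)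
  rw [Real.norm_eq_abs, abs_of_pos (Th_pos _ hb _)]
  exact Th_succ_le 0 hb _

theorem fa_int_rTh2 {b : ℝ} (hb : 0 < b) : Integrable fun y : E => r2 y * Th 2 b (r2 y) := by
  have h := (((integrable_th hb).sub (integrable_hk hb)).add
    ((fa_int_Th1 hb).const_mul 6)).div_const 4
  refine h.congr (Eventually.of_forall fun y => ?_)
  have := Th_lap hb y
  simp only [Pi.add_apply, Pi.sub_apply]
  linarith

theorem fa_int_T1 {b : ℝ} (hb : 0 < b) (k : Fin 3) : Integrable (fa_T1 b k) := by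
  refine Integrable.const_mul ?_ _
  refine ((integrable_th hb).add (fa_int_rTh2 hb)).mono'
    ((continuous_apply k).mul (fa_cont_Th 1 hb)).aestronglyMeasurable
    (Eventually.of_forall fun y => ?_)
  rw [Real.norm_eq_abs]
  simp only [Pi.add_apply]
  have h1 := Th_cs hb (r2 y)
  have h2 := fa_sq_le y k
  have p0 : 0 < Th 0 b (r2 y) := Th_pos _ hb _
  have p2 : 0 < Th 2 b (r2 y) := Th_pos _ hb _
  have hr := r2_nonneg y
  have p3 : 0 ≤ r2 y * Th 2 b (r2 y) := mul_nonneg hr p2.le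
  refine abs_le_of_sq_le_sq' ?_ ?_ |> abs_le.2
  · have h3 : (y k * Th 1 b (r2 y)) ^ 2 ≤ r2 y * (Th 0 b (r2 y) * Th 2 b (r2 y)) := by
      rw [mul_pow]
      exact mul_le_mul h2 h1 (sq_nonneg _) hr
    unfold th
    nlinarith [mul_nonneg p0.le p3, sq_nonneg (Th 0 b (r2 y)), sq_nonneg (r2 y * Th 2 b (r2 y))]
  · unfold th; linarith

theorem fa_int_T2 {b : ℝ} (hb : 0 < b) (k l : Fin 3) : Integrable (fa_T2 b k l) := by
  refine ((fa_int_Th1 hb).const_mul _).add (Integrable.const_mul ?_ _)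
  refine (fa_int_rTh2 hb).mono'
    (((continuous_apply k).mul (continuous_apply l)).mul (fa_cont_Th 2 hb)).aestronglyMeasurable
    (Eventually.of_forall fun y => ?_)
  rw [Real.norm_eq_abs, abs_mul, abs_of_pos (Th_pos _ hb _)]
  exact mul_le_mul_of_nonneg_right (fa_abs_mul_le y k l) (Th_pos _ hb _).le

theorem fa_V2_comm (u : ℝ) (k l : Fin 3) : fa_V2 u k l = fa_V2 u l k := by
  funext y; unfold fa_V2; rw [fa_ee_comm l k]; ring

theorem fa_V2_lap {u : ℝ} (hu : 0 < u) (y : E) : ∑ k, fa_V2 u k k y = -(4 * π) * hk u y := by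
  have h := Fk_rec 1 (r2 y / (4 * u))
  have hs : √(4 * π * u) = 2 * √(π * u) := by
    rw [show 4 * π * u = 2 ^ 2 * (π * u) by ring, Real.sqrt_mul (by positivity), Real.sqrt_sq
      (by norm_num)]
  have hp : 0 < √(π * u) := Real.sqrt_pos.2 (by positivity)
  have hq : √(π * u) ^ 2 = π * u := Real.sq_sqrt (by positivity)
  have hr : r2 y = y 0 * y 0 + y 1 * y 1 + y 2 * y 2 := by
    unfold r2; rw [Fin.sum_univ_three]; ring
  unfold fa_V2 hk
  rw [Fin.sum_univ_three, hs, neg_div, fa_ee_self, fa_ee_self, fa_ee_self]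
  generalize √(π * u) = S at hp hq
  generalize exp (-(r2 y / (4 * u))) = e at h
  generalize Fk 1 (r2 y / (4 * u)) = F1 at h
  have h' : 2 * (r2 y / (4 * u)) * Fk 2 (r2 y / (4 * u)) = 3 * F1 - e := by
    rw [h]; norm_num
  generalize Fk 2 (r2 y / (4 * u)) = F2 at h'
  have hpi : π = S ^ 2 / u := by rw [hq]; field_simp
  have he : e = 3 * F1 - 2 * (r2 y / (4 * u)) * F2 := by linarith
  rw [hpi, he, hr]
  field_simp
  ring

theorem fa_H2_lap {u : ℝ} (hu : 0 < u) (y : E) : ∑ k, fa_H2 u k y = hkt u y := by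
  have hr : r2 y = y 0 * y 0 + y 1 * y 1 + y 2 * y 2 := by
    unfold r2; rw [Fin.sum_univ_three]; ring
  unfold fa_H2 hkt
  rw [Fin.sum_univ_three, hr]
  field_simp
  ring

theorem fa_T2_lap {b : ℝ} (hb : 0 < b) (y : E) : ∑ k, fa_T2 b k k y = th b y - hk b y := by
  have hr : r2 y = y 0 * y 0 + y 1 * y 1 + y 2 * y 2 := by
    unfold r2; rw [Fin.sum_univ_three]; ring
  rw [← Th_lap hb y]
  unfold fa_T2
  rw [Fin.sum_univ_three, fa_ee_self, fa_ee_self, fa_ee_self]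
  generalize Th 1 b (r2 y) = A
  generalize Th 2 b (r2 y) = B
  rw [hr]; ring

theorem fa_T2_le {b : ℝ} (hb : 0 < b) (y : E) (q : Fin 3 → ℝ) :
    ∑ k, ∑ l, fa_T2 b l k y * (q k * q l) - (th b y - hk b y) / 2 * ∑ k, q k ^ 2 ≤
      (1 / 2 + 1 / b) * (th b y * ∑ k, q k ^ 2) := by
  have h1 := Th_lap hb y
  have h2 : Th 1 b (r2 y) ≤ th b y / (4 * b) := Th_succ_le 0 hb _
  have p2 : 0 < Th 2 b (r2 y) := Th_pos _ hb _
  have h3 := hk_nonneg b y
  have cs : (∑ k, y k * q k) ^ 2 ≤ r2 y * ∑ k, q k ^ 2 := Finset.sum_mul_sq_le_sq_mul_sq _ _ _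
  have e : ∑ k, ∑ l, fa_T2 b l k y * (q k * q l) =
      -2 * Th 1 b (r2 y) * ∑ k, q k ^ 2 + 4 * Th 2 b (r2 y) * (∑ k, y k * q k) ^ 2 := by
    simp only [Fin.sum_univ_three, fa_T2, ee, Pi.single_apply]
    simp
    ring
  have hq : 0 ≤ ∑ k, q k ^ 2 := Finset.sum_nonneg fun _ _ => sq_nonneg _
  rw [e]
  generalize ∑ k, q k ^ 2 = Q at cs hq
  generalize (∑ k, y k * q k) ^ 2 = D at cs
  have h4 : 4 * Th 2 b (r2 y) * D ≤ 4 * Th 2 b (r2 y) * (r2 y * Q) :=
    mul_le_mul_of_nonneg_left cs (by positivity)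
  have h5 : 4 * Th 1 b (r2 y) ≤ 1 / b * th b y := by
    have : th b y / (4 * b) = 1 / b * th b y / 4 := by field_simp
    linarith
  have h6 := mul_le_mul_of_nonneg_right h5 hq
  have h7 := mul_nonneg h3 hq
  have h8 : 4 * Th 2 b (r2 y) * (r2 y * Q) = (th b y - hk b y + 6 * Th 1 b (r2 y)) * Q := by
    rw [← h1]; ring
  nlinarith

theorem fa_ph_sum (c : ι → ℝ) (g : Fin 3 → E → ℝ) (G : E → ℝ) (a : ℝ)
    (h : ∀ y, ∑ k, g k y = a * G y) (z : E) (x : X ι) :
    ∑ k, ph c (g k) z x = a * ph c G z x := by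
  unfold ph
  rw [Finset.sum_comm, Finset.mul_sum]
  refine Finset.sum_congr rfl fun j _ => ?_
  rw [← Finset.mul_sum, h]; ring

theorem eg_nonneg (c : ι → ℝ) {b' : ℝ} (hb : 0 < b') (u : ℝ) (z0 : E) (x : X ι) :
    0 ≤ eg c b' u z0 x :=
  integral_nonneg fun _ =>
    mul_nonneg (th_pos hb _).le (Finset.sum_nonneg fun _ _ => sq_nonneg _)

/-- first Green identity -/
theorem flow_A1 (c : ι → ℝ) (b : ℝ) {b' u : ℝ} (hb : 0 < b') (hu : 0 < u) (z0 : E) (x : X ι) :
    4 * π * ∫ z, th b' (z - z0) * ((ph c (VV u) z x - b) * ph c (hk u) z x) =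
      eg c b' u z0 x - (av2 (th b') c u b z0 x - av2 (hk b') c u b z0 x) / 2 := by
  have Ls : ∀ k, fa_L k (fun z => ph c (VV u) z x - b) (fun z => -ph c (V1 u k) z x) :=
    fun k => ((fa_L_VV u k).ph c x).sub_const b
  have Lq : ∀ k l, fa_L l (fun z => -ph c (V1 u k) z x) (fun z => - -ph c (fa_V2 u k l) z x) :=
    fun k l => ((fa_L_V1 hu k l).ph c x).neg
  have Bs : fa_B fun z => ph c (VV u) z x - b := ((fa_B_VV hu).ph c x).sub (fa_B_const b)
  have Bq : ∀ k, fa_B fun z => -ph c (V1 u k) z x := fun k => ((fa_B_V1 hu k).ph c x).neg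
  have Bqq : ∀ k l, fa_B fun z => - -ph c (fa_V2 u k l) z x :=
    fun k l => ((fa_B_V2 hu k l).ph c x).neg.neg
  have Br : fa_B fun z => ph c (hk u) z x := (fa_B_hk hu).ph c x
  have I0 : Integrable fun z => th b' (z - z0) := (integrable_th hb).comp_sub_right z0
  have Ih : Integrable fun z => hk b' (z - z0) := (integrable_hk hb).comp_sub_right z0
  have I1 : ∀ k, Integrable fun z => fa_T1 b' k (z - z0) :=
    fun k => (fa_int_T1 hb k).comp_sub_right z0
  have I2 : ∀ k l, Integrable fun z => fa_T2 b' k l (z - z0) :=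
    fun k l => (fa_int_T2 hb k l).comp_sub_right z0
  have Za := fa_Z_sum fun k => fa_ibp ((fa_L_T1 hb k k).shift z0) (I1 k) (I2 k k)
    ((Ls k).mul (Ls k)) (Bs.mul Bs) (((Bq k).mul Bs).add (Bs.mul (Bq k)))
  have Zb := fa_Z_sum fun k => fa_ibp ((fa_L_th hb k).shift z0) I0 (I1 k)
    ((Ls k).mul (Lq k k)) (Bs.mul (Bq k)) (((Bq k).mul (Bq k)).add (Bs.mul (Bqq k k)))
  have Z := (Za.const_mul (1 / 2)).sub Zb
  have Bq2 : fa_B fun z => ∑ k, ph c (V1 u k) z x ^ 2 :=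
    fa_B_sum _ fun k => ((Bq k).mul (Bq k)).congr fun z => by ring
  have Bs2 : fa_B fun z => (ph c (VV u) z x - b) ^ 2 := (Bs.mul Bs).congr fun z => by ring
  have J1 := Bq2.int I0
  have J2 := Bs2.int I0
  have J3 := Bs2.int Ih
  unfold eg av2
  refine Z.fin_eq J1 J2 J3 fun z => ?_
  have e1 := fa_ph_sum c (fun k => fa_V2 u k k) (hk u) _ (fa_V2_lap hu) z x
  have e2 := fa_T2_lap hb (z - z0)
  simp only [Fin.sum_univ_three] at e1 e2 ⊢
  linear_combination (th b' (z - z0) * (ph c (VV u) z x - b)) * e1 -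
    ((ph c (VV u) z x - b) ^ 2 / 2) * e2

/-- stress tensor inequality -/
theorem flow_A2 (c : ι → ℝ) (b : ℝ) {b' u : ℝ} (hb : 0 < b') (hu : 0 < u) (z0 : E) (x : X ι) :
    ∫ z, (-(th b' (z - z0) - hk b' (z - z0)) * ((ph c (VV u) z x - b) * ph c (hk u) z x) +
      th b' (z - z0) * (-(4 * π) * ph c (hk u) z x ^ 2 +
        (ph c (VV u) z x - b) * ph c (hkt u) z x)) ≤
      -(8 * π) * (∫ z, th b' (z - z0) * ph c (hk u) z x ^ 2) +
        (1 / 2 + 1 / b') / (2 * π) * eg c b' u z0 x := by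
  have Ls : ∀ k, fa_L k (fun z => ph c (VV u) z x - b) (fun z => -ph c (V1 u k) z x) :=
    fun k => ((fa_L_VV u k).ph c x).sub_const b
  have Lq : ∀ k l, fa_L l (fun z => -ph c (V1 u k) z x) (fun z => - -ph c (fa_V2 u k l) z x) :=
    fun k l => ((fa_L_V1 hu k l).ph c x).neg
  have Lr : ∀ k, fa_L k (fun z => ph c (hk u) z x) (fun z => -ph c (fa_H1 u k) z x) :=
    fun k => (fa_L_hk u k).ph c x
  have Lr1 : ∀ k, fa_L k (fun z => -ph c (fa_H1 u k) z x) (fun z => - -ph c (fa_H2 u k) z x) :=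
    fun k => ((fa_L_H1 hu k).ph c x).neg
  have Bs : fa_B fun z => ph c (VV u) z x - b := ((fa_B_VV hu).ph c x).sub (fa_B_const b)
  have Bq : ∀ k, fa_B fun z => -ph c (V1 u k) z x := fun k => ((fa_B_V1 hu k).ph c x).neg
  have Bqq : ∀ k l, fa_B fun z => - -ph c (fa_V2 u k l) z x :=
    fun k l => ((fa_B_V2 hu k l).ph c x).neg.neg
  have Br : fa_B fun z => ph c (hk u) z x := (fa_B_hk hu).ph c x
  have Br1 : ∀ k, fa_B fun z => -ph c (fa_H1 u k) z x := fun k => ((fa_B_H1 hu k).ph c x).neg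
  have Br2 : ∀ k, fa_B fun z => - -ph c (fa_H2 u k) z x :=
    fun k => ((fa_B_H2 hu k).ph c x).neg.neg
  have I0 : Integrable fun z => th b' (z - z0) := (integrable_th hb).comp_sub_right z0
  have Ih : Integrable fun z => hk b' (z - z0) := (integrable_hk hb).comp_sub_right z0
  have I1 : ∀ k, Integrable fun z => fa_T1 b' k (z - z0) :=
    fun k => (fa_int_T1 hb k).comp_sub_right z0
  have I2 : ∀ k l, Integrable fun z => fa_T2 b' k l (z - z0) :=
    fun k l => (fa_int_T2 hb k l).comp_sub_right z0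
  have Za := fa_Z_sum fun k => fa_ibp ((fa_L_T1 hb k k).shift z0) (I1 k) (I2 k k)
    ((Ls k).mul (Lr k)) (Bs.mul Br) (((Bq k).mul Br).add (Bs.mul (Br1 k)))
  have Zb := fa_Z_sum fun k => fa_ibp ((fa_L_th hb k).shift z0) I0 (I1 k)
    ((Ls k).mul (Lr1 k)) (Bs.mul (Br1 k)) (((Bq k).mul (Br1 k)).add (Bs.mul (Br2 k)))
  have Zc := fa_Z_sum fun k => fa_ibp ((fa_L_th hb k).shift z0) I0 (I1 k)
    ((Lq k k).mul (Lr k)) ((Bq k).mul Br) (((Bqq k k).mul Br).add ((Bq k).mul (Br1 k)))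
  have Zd := fa_Z_sum fun k => fa_Z_sum fun l => fa_ibp ((fa_L_T1 hb l k).shift z0) (I1 l) (I2 l k)
    ((Lq k k).mul (Lq l k)) ((Bq k).mul (Bq l))
    (((Bqq k k).mul (Bq l)).add ((Bq k).mul (Bqq l k)))
  have Ze := fa_Z_sum fun k => fa_Z_sum fun l => fa_ibp ((fa_L_T1 hb l l).shift z0) (I1 l) (I2 l l)
    ((Lq k l).mul (Lq k l)) ((Bq k).mul (Bq k))
    (((Bqq k l).mul (Bq k)).add ((Bq k).mul (Bqq k l)))
  have Z := ((Zb.sub Za).sub Zc).sub ((Zd.sub (Ze.const_mul (1 / 2))).const_mul (2 * π)⁻¹)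
  have Bq2 : fa_B fun z => ∑ k, ph c (V1 u k) z x ^ 2 :=
    fa_B_sum _ fun k => ((Bq k).mul (Bq k)).congr fun z => by ring
  have Br0 : fa_B fun z => ph c (hk u) z x ^ 2 := (Br.mul Br).congr fun z => by ring
  have eH : ∀ z, ∑ k, ph c (fa_H2 u k) z x = ph c (hkt u) z x := fun z => by
    have := fa_ph_sum c (fun k => fa_H2 u k) (hkt u) 1
      (fun y => by rw [one_mul]; exact fa_H2_lap hu y) z x
    rw [this, one_mul]
  have Bt : fa_B fun z => ph c (hkt u) z x :=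
    (fa_B_sum Finset.univ fun k => (fa_B_H2 hu k).ph c x).congr fun z => (eH z).symm
  have J1 := Bq2.int I0
  have J2 := Br0.int I0
  have J3 := ((Bs.mul Br).int (I0.sub Ih).neg).add
    (((Br0.const_mul (-(4 * π))).add (Bs.mul Bt)).int I0)
  unfold eg
  refine Z.fin_le J3 J2 J1 fun z => ?_
  have e1 := fa_ph_sum c (fun k => fa_V2 u k k) (hk u) _ (fa_V2_lap hu) z x
  have e2 := fa_T2_lap hb (z - z0)
  have e3 := eH z
  have e4 := fa_T2_le hb (z - z0) fun k => ph c (V1 u k) z x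
  have hπ : 0 < (2 * π)⁻¹ := by positivity
  have e5 := mul_le_mul_of_nonneg_left e4 hπ.le
  have hπ' : (2 * π)⁻¹ * (2 * π) = 1 := by field_simp
  simp only [Fin.sum_univ_three] at e1 e2 e3 e5 ⊢
  rw [fa_V2_comm u 1 0, fa_V2_comm u 2 0, fa_V2_comm u 2 1, div_eq_mul_inv (1 / 2 + 1 / b')]
  generalize (2 * π)⁻¹ = w at e5 hπ' ⊢
  linear_combination e5 + ((ph c (VV u) z x - b) * ph c (hk u) z x - w / 2 *
      (ph c (V1 u 0) z x ^ 2 + ph c (V1 u 1) z x ^ 2 + ph c (V1 u 2) z x ^ 2)) * e2 -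
    th b' (z - z0) * (ph c (VV u) z x - b) * e3 +
    (th b' (z - z0) * ph c (hk u) z x - w * (fa_T1 b' 0 (z - z0) * ph c (V1 u 0) z x +
      fa_T1 b' 1 (z - z0) * ph c (V1 u 1) z x + fa_T1 b' 2 (z - z0) * ph c (V1 u 2) z x)) * e1 +
    2 * ph c (hk u) z x * (fa_T1 b' 0 (z - z0) * ph c (V1 u 0) z x +
      fa_T1 b' 1 (z - z0) * ph c (V1 u 1) z x + fa_T1 b' 2 (z - z0) * ph c (V1 u 2) z x) * hπ'

end Pool.Agent.Lib.MP_0655ed_mp
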