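import Pool.Agent.Lib.MP_0655ed_mp.ImpFlowB2

open Finset MeasureTheory Real Filter Topology

namespace Pool.Agent.Lib.MP_0655ed_mp

/-- pointwise Fefferman / de la Llave inequality -/
theorem fdll {ι : Type} [Fintype ι] (c g : ι → ℝ) {cb g0 : ℝ} (hc : ∀ j, |c j| ≤ cb)
    (hg : ∀ j, 0 ≤ g j) (hg0 : ∀ j, g j ≤ g0) :
    -(6 * ((∑ j, max (-c j) 0 * g j) * min (cb * g0) (∑ j, max (c j) 0 * g j))) ≤
      (∑ j, c j * g j) ^ 2 - ∑ j, (c j * g j) ^ 2 := fb_fdll c g hc hg hg0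

theorem continuousOn_SR {ι : Type} [Fintype ι] (c : ι → ℝ) (cb : ℝ) {a v : ℝ} (ha : 0 < a) (z0 : E) :
    ContinuousOn (fun p : ℝ × X ι => SR c cb a v z0 p.1 p.2) (Set.Ioc 0 v ×ˢ Set.univ) :=
  fun _ hp => (fb_contAt_SR c cb a v z0 hp.1.1 (by linarith [hp.1.2])).continuousWithinAt

theorem fb_anti {f : ℝ → ℝ} {p q : ℝ}
    (h : ∀ u, p ≤ u → u ≤ q → ∃ f', HasDerivAt f f' u ∧ f' ≤ 0) : AntitoneOn f (Set.Icc p q) := by
  refine antitoneOn_of_deriv_nonpos (convex_Icc p q) (fun u hu => ?_) (fun u hu => ?_)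
    (fun u hu => ?_)
  · obtain ⟨f', h1, _⟩ := h u hu.1 hu.2
    exact h1.continuousAt.continuousWithinAt
  · have hu' := interior_subset hu
    obtain ⟨f', h1, _⟩ := h u hu'.1 hu'.2
    exact h1.differentiableAt.differentiableWithinAt
  · have hu' := interior_subset hu
    obtain ⟨f', h1, h2⟩ := h u hu'.1 hu'.2
    rw [h1.deriv]
    exact h2

theorem fb_ode {a v u0 A Z0 : ℝ} (h0 : 0 < u0) (h1 : u0 < v) (h2 : 10 * v ≤ a) (h3 : a ≤ 1)
    {I h k e : ℝ → ℝ} (hA : 0 ≤ A)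
    (hh : ∀ u, u0 ≤ u → u ≤ v → HasDerivAt h (-2 * e u) u) (he : ∀ u, u0 ≤ u → u ≤ v → 0 ≤ e u)
    (hk : ∀ u, u0 ≤ u → u ≤ v → 0 ≤ k u)
    (A1 : ∀ u, u0 ≤ u → u ≤ v → I u = e u - (h u - k u) / 2)
    (hI : ∀ u, u0 ≤ u → u ≤ v → I u ≤ Z0 + A * (√u)⁻¹ + 3 / (2 * a) * (h u0 - h u)) :
    (1 - 8 * v / a) / 2 * k v ≤ Z0 + h v / 2 + 3 * A * (√v)⁻¹ := by
  have hv : 0 < v := h0.trans h1
  have ha : 0 < a := by linarith
  have hanti : AntitoneOn h (Set.Icc u0 v) :=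
    fb_anti fun u p q => ⟨_, hh u p q, by linarith [he u p q]⟩
  have m0 : u0 ∈ Set.Icc u0 v := ⟨le_rfl, h1.le⟩
  have mv : v ∈ Set.Icc u0 v := ⟨h1.le, le_rfl⟩
  obtain ⟨T, hT⟩ : ∃ T, h u0 - h v = 2 * T := ⟨(h u0 - h v) / 2, by ring⟩
  have hT0 : 0 ≤ T := by linarith [hanti m0 mv h1.le]
  obtain ⟨κ, hκ⟩ : ∃ κ, κ = 3 / (2 * a) := ⟨_, rfl⟩
  rw [← hκ] at hI
  have hκ0 : 0 ≤ κ := by rw [hκ]; positivity
  have hκv : κ * v = 3 / 2 * (v / a) := by rw [hκ]; field_simp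
  have hva : v / a ≤ 1 / 10 := by rw [div_le_iff₀ ha]; linarith
  have hva0 : 0 ≤ v / a := by positivity
  obtain ⟨Z, hZ⟩ : ∃ Z, Z = Z0 + h v / 2 := ⟨_, rfl⟩
  have hee : ∀ u, u0 ≤ u → u ≤ v → e u ≤ Z + (2 * κ + 1) * T + A * (√u)⁻¹ := by
    intro u p q
    have a1 := A1 u p q
    have a2 := hI u p q
    have a3 := hk u p q
    have a4 : h u ≤ h u0 := hanti m0 ⟨p, q⟩ p
    have a5 : h v ≤ h u := hanti ⟨p, q⟩ mv q
    have a6 : κ * (h u0 - h u) ≤ κ * (2 * T) := mul_le_mul_of_nonneg_left (by linarith) hκ0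
    linarith
  have hH : AntitoneOn (fun u => -h u - 2 * (Z + (2 * κ + 1) * T) * u - 4 * A * √u)
      (Set.Icc u0 v) := by
    refine fb_anti fun u p q => ?_
    have hu : 0 < u := h0.trans_le p
    refine ⟨_, ((hh u p q).neg.sub ((hasDerivAt_id u).const_mul _)).sub
      ((Real.hasDerivAt_sqrt hu.ne').const_mul _), ?_⟩
    have : 4 * A * (1 / (2 * √u)) = 2 * (A * (√u)⁻¹) := by
      have := (Real.sqrt_pos.2 hu).ne'
      field_simp
      ring
    rw [this]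
    linarith [hee u p q]
  have b1 := hH m0 mv h1.le
  simp only at b1
  have b2 : 0 ≤ A * √u0 := by positivity
  obtain ⟨l, hl⟩ : ∃ l, v = u0 + l := ⟨v - u0, by ring⟩
  have hl0 : 0 ≤ l := by linarith
  have hlv : l ≤ v := by linarith
  have hκl : κ * l ≤ κ * v := mul_le_mul_of_nonneg_left hlv hκ0
  have b3 : T ≤ Z * l + (2 * κ + 1) * l * T + 2 * (A * √v) := by
    have : (Z + (2 * κ + 1) * T) * v = (Z + (2 * κ + 1) * T) * u0 + (Z * l + (2 * κ + 1) * l * T) := by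
      rw [hl]; ring
    linarith
  have b4 : (2 * κ + 1) * l * T ≤ 1 / 2 * T := mul_le_mul_of_nonneg_right (by linarith) hT0
  have b5 : T ≤ 2 * (Z * l) + 4 * (A * √v) := by linarith
  have b6 : κ * T ≤ κ * (2 * (Z * l) + 4 * (A * √v)) := mul_le_mul_of_nonneg_left b5 hκ0
  have hs : 0 < √v := Real.sqrt_pos.2 hv
  have b7 : κ * √v ≤ 1 / 4 * (√v)⁻¹ := by
    have : κ * √v = κ * v * (√v)⁻¹ := by
      have e1 : v = √v * √v := (Real.mul_self_sqrt hv.le).symm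
      field_simp
      rw [pow_two, ← e1]
    rw [this]
    exact mul_le_mul_of_nonneg_right (by linarith) (by positivity)
  have b8 : A * (κ * √v) ≤ A * (1 / 4 * (√v)⁻¹) := mul_le_mul_of_nonneg_left b7 hA
  have c1 := A1 v h1.le le_rfl
  have c2 := hI v h1.le le_rfl
  have c3 := he v h1.le le_rfl
  have c4 := hk v h1.le le_rfl
  rw [hT] at c2
  have hW : 0 ≤ A * (√v)⁻¹ := by positivity
  have hlam : 0 ≤ κ * l := mul_nonneg hκ0 hl0
  have c5 : k v / 2 ≤ (1 + 4 * (κ * l)) * (Z + 3 * (A * (√v)⁻¹)) := by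
    have := mul_nonneg hlam hW
    nlinarith
  have c6 : (1 - 4 * (κ * l)) / 2 * k v ≤ Z + 3 * (A * (√v)⁻¹) := by
    refine le_of_mul_le_mul_left ?_ (by linarith : 0 < 1 + 4 * (κ * l))
    refine le_trans ?_ c5
    have := mul_nonneg (sq_nonneg (κ * l)) c4
    nlinarith
  have c7 : (1 - 8 * v / a) / 2 * k v ≤ (1 - 4 * (κ * l)) / 2 * k v := by
    refine mul_le_mul_of_nonneg_right ?_ c4
    rw [mul_div_assoc]
    linarith
  linarith

theorem fb_small {a v u0 : ℝ} (h0 : 0 < u0) (h1 : u0 < v) (h2 : 10 * v ≤ a) :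
    √((a + v) / (a + v - u0)) ^ 3 * VV (2 * u0) 0 ≤ VV (2 * u0) 0 + (√v)⁻¹ := by
  have hv : 0 < v := h0.trans h1
  have ha : 0 < a := by linarith
  obtain ⟨t, ht⟩ : ∃ t, t = u0 / a := ⟨_, rfl⟩
  have t0 : 0 ≤ t := by rw [ht]; positivity
  have t1 : t ≤ 1 / 10 := by rw [ht, div_le_iff₀ ha]; linarith
  have ta : t * a = u0 := by rw [ht]; field_simp
  have q1 : (a + v) / (a + v - u0) ≤ (1 + t) ^ 2 := by
    rw [div_le_iff₀ (by linarith)]
    have : 0 ≤ t * (v - u0) := mul_nonneg t0 (by linarith)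
    have : (1 + t) * (a + v - u0) ≤ (1 + t) ^ 2 * (a + v - u0) :=
      mul_le_mul_of_nonneg_right (by nlinarith) (by linarith)
    nlinarith
  have q2 : √((a + v) / (a + v - u0)) ≤ 1 + t := Real.sqrt_le_iff.2 ⟨by linarith, q1⟩
  have q3 : √((a + v) / (a + v - u0)) ^ 3 ≤ 1 + 4 * t := by
    refine (pow_le_pow_left₀ (Real.sqrt_nonneg _) q2 3).trans ?_
    have : t * t ≤ t * (1 / 10) := mul_le_mul_of_nonneg_left t1 t0
    have : t * (t * t) ≤ 1 / 10 * (t * t) := mul_le_mul_of_nonneg_right t1 (mul_nonneg t0 t0)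
    nlinarith
  have q4 : VV (2 * u0) 0 ≤ (√u0)⁻¹ :=
    (VV_le (by linarith) 0).trans (inv_anti₀ (Real.sqrt_pos.2 h0) (Real.sqrt_le_sqrt (by linarith)))
  have q5 : 0 ≤ VV (2 * u0) 0 := VV_nonneg _ _
  have q6 : 4 * t * (√u0)⁻¹ ≤ (√v)⁻¹ := by
    have s0 : 0 < √u0 := Real.sqrt_pos.2 h0
    have s1 : 0 < √v := Real.sqrt_pos.2 hv
    have s2 : √u0 ≤ √v := Real.sqrt_le_sqrt h1.le
    have e0 : √u0 * √u0 = u0 := Real.mul_self_sqrt h0.le
    have e1 : √v * √v = v := Real.mul_self_sqrt hv.le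
    rw [← div_eq_mul_inv, inv_eq_one_div, div_le_div_iff₀ s0 s1]
    refine le_of_mul_le_mul_left ?_ ha
    have s3 : √u0 * √v ≤ v := by nlinarith
    have s4 : √u0 * (√u0 * √v) ≤ √u0 * v := mul_le_mul_of_nonneg_left s3 s0.le
    have s5 : √u0 * (10 * v) ≤ √u0 * a := mul_le_mul_of_nonneg_left h2 s0.le
    have s6 : a * (4 * t * √v) = 4 * (√u0 * (√u0 * √v)) := by
      rw [← mul_assoc (√u0), e0, ← ta]; ring
    have s7 : 0 ≤ √u0 * v := by positivity
    rw [s6]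
    linarith
  have q7 := mul_le_mul_of_nonneg_right q3 q5
  have q8 : 4 * t * VV (2 * u0) 0 ≤ 4 * t * (√u0)⁻¹ := mul_le_mul_of_nonneg_left q4 (by linarith)
  linarith

theorem fb_I_le {ι : Type} [Fintype ι] (c : ι → ℝ) {cb : ℝ} (hc : ∀ j, |c j| ≤ cb) {a v u0 : ℝ}
    (h0 : 0 < u0) (h1 : u0 < v) (h2 : 10 * v ≤ a) (h3 : a ≤ 1) (b : ℝ) (z0 : E) (x : X ι)
    {u : ℝ} (p : u0 ≤ u) (q : u ≤ v) :
    fb_I c b (a + v) z0 x u ≤ I0 c a v b z0 u0 x + 48 * π * (∫ u in u0..v, SR c cb a v z0 u x) +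
      (2 + 8 * π) * (∑ j, c j ^ 2 * th (a + v) (x j - z0)) * (√u)⁻¹ +
      3 / (2 * a) / (4 * π) *
        (av2 (th (a + v - u0)) c u0 b z0 x - av2 (th (a + v - u)) c u b z0 x) := by
  have hv : 0 < v := h0.trans h1
  have ha : 0 < a := by linarith
  have hu : 0 < u := h0.trans_le p
  obtain ⟨A, hA⟩ : ∃ A, A = ∑ j, c j ^ 2 * th (a + v) (x j - z0) := ⟨_, rfl⟩
  have hA0 : 0 ≤ A := by
    rw [hA]
    exact Finset.sum_nonneg fun j _ => mul_nonneg (sq_nonneg _) (th_pos (by linarith) _).le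
  have hSc : ContinuousOn (fun u => SR c cb a v z0 u x) (Set.Ioo 0 (a + v)) := fun r hr =>
    (ContinuousAt.comp (f := fun r : ℝ => (r, x)) (fb_contAt_SR c cb a v z0 (p := (r, x)) hr.1 hr.2)
      (by fun_prop)).continuousWithinAt
  have hSi : ∀ r s, u0 ≤ r → r ≤ s → s ≤ v →
      IntervalIntegrable (fun u => SR c cb a v z0 u x) volume r s := by
    intro r s r1 r2 r3
    refine (hSc.mono ?_).intervalIntegrable
    rw [Set.uIcc_of_le r2]
    exact fun w hw => ⟨by linarith [hw.1], by linarith [hw.2]⟩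
  have hG : AntitoneOn (fun u => fb_I c b (a + v) z0 x u +
      3 / (2 * a) / (4 * π) * av2 (th (a + v - u)) c u b z0 x - A * VV (2 * u) 0 -
      8 * π * A * √u - 48 * π * ∫ r in u0..u, SR c cb a v z0 r x) (Set.Icc u0 v) := by
    refine fb_anti fun r r1 r2 => ?_
    have hr : 0 < r := h0.trans_le r1
    have hr' : r < a + v := by linarith
    obtain ⟨I', d1, hI'⟩ := fb_dI c b hr hr' z0 x
    have d2 := fb_dh c b hr hr' z0 x
    have d3 : HasDerivAt (fun u => VV (2 * u) 0) (-(4 * π * hk (2 * r) 0) * 2) r := by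
      have := (hasDerivAt_VV_time (u := 2 * r) (by linarith) 0).comp r
        ((hasDerivAt_id r).const_mul 2)
      simpa [Function.comp_def] using this
    have d4 := Real.hasDerivAt_sqrt hr.ne'
    have hm : r ∈ Set.Ioo 0 (a + v) := ⟨hr, hr'⟩
    have d5 := intervalIntegral.integral_hasDerivAt_right (hSi u0 r le_rfl r1 r2)
      (hSc.stronglyMeasurableAtFilter isOpen_Ioo r hm) (hSc.continuousAt (isOpen_Ioo.mem_nhds hm))
    refine ⟨_, (((d1.add (d2.const_mul _)).sub (d3.const_mul A)).sub (d4.const_mul _)).sub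
      (d5.const_mul _), ?_⟩
    have e0 := eg_nonneg c (b' := a + v - r) (by linarith) r z0 x
    have hR := fb_R_ge c hc hr hr' z0 x
    rw [← hA] at hR
    have k1 : (1 / 2 + 1 / (a + v - r)) / (2 * π) ≤ 3 / (2 * a) / (2 * π) := by
      refine div_le_div_of_nonneg_right ?_ (by positivity)
      have : 1 / (a + v - r) ≤ 1 / a := one_div_le_one_div_of_le ha (by linarith)
      have e1 : 3 / (2 * a) = 1 / a + 1 / (2 * a) := by field_simp; ring
      have : 1 / 2 ≤ 1 / (2 * a) := one_div_le_one_div_of_le (by linarith) (by linarith)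
      linarith
    have k2 := mul_le_mul_of_nonneg_right k1 e0
    have k3 : 3 / (2 * a) / (4 * π) * (-2 * eg c (a + v - r) r z0 x) =
        -(3 / (2 * a) / (2 * π) * eg c (a + v - r) r z0 x) := by
      field_simp
      ring
    have k4 : r * hk (2 * r) 0 ≤ (√r)⁻¹ := by
      have := (hk_zero_anti hr (by linarith : r ≤ 2 * r)).trans (hk_zero_le hr)
      refine (mul_le_mul_of_nonneg_left this hr.le).trans (le_of_eq ?_)
      have s0 := (Real.sqrt_pos.2 hr).ne'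
      have e1 : √r ^ 2 = r := Real.sq_sqrt hr.le
      field_simp
      exact e1.symm
    have k5 : 8 * π * A * (1 / (2 * √r)) = 4 * π * A * (√r)⁻¹ := by
      have s0 := (Real.sqrt_pos.2 hr).ne'
      field_simp
      ring
    have k6 := mul_le_mul_of_nonneg_left k4 (by positivity : 0 ≤ 4 * π * A)
    have k7 := mul_le_mul_of_nonneg_left hR (by positivity : 0 ≤ 8 * π)
    rw [k3, k5]
    nlinarith
  have g1 := hG ⟨le_rfl, h1.le⟩ ⟨p, q⟩ p
  simp only [intervalIntegral.integral_same] at g1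
  have g2 : ∫ r in u0..u, SR c cb a v z0 r x ≤ ∫ r in u0..v, SR c cb a v z0 r x := by
    rw [← intervalIntegral.integral_add_adjacent_intervals (hSi u0 u le_rfl p q)
      (hSi u v p q le_rfl)]
    have : 0 ≤ ∫ r in u..v, SR c cb a v z0 r x := intervalIntegral.integral_nonneg q fun r hr =>
      fb_SR_nonneg c hc (by linarith [hr.2]) z0 x
    linarith
  have g3 : fb_I c b (a + v) z0 x u0 ≤ I0 c a v b z0 u0 x + A * (VV (2 * u0) 0 + (√v)⁻¹) := by
    unfold I0 fb_I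
    have : ∑ i, c i ^ 2 * ∫ z, th (a + v - u0) (z - z0) * (VV u0 (x i - z) * hk u0 (x i - z)) ≤
        A * (VV (2 * u0) 0 + (√v)⁻¹) := by
      rw [hA, Finset.sum_mul]
      refine Finset.sum_le_sum fun j _ => ?_
      rw [mul_assoc]
      refine mul_le_mul_of_nonneg_left ((fb_diag h0 (by linarith) z0 (x j)).trans ?_) (sq_nonneg _)
      have := mul_le_mul_of_nonneg_left (fb_small h0 h1 h2)
        (th_pos (b := a + v) (by linarith) (x j - z0)).le
      linarith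
    linarith
  have s0 : 0 < √u := Real.sqrt_pos.2 hu
  have g4 : VV (2 * u) 0 ≤ (√u)⁻¹ :=
    (VV_le (by linarith) 0).trans (inv_anti₀ s0 (Real.sqrt_le_sqrt (by linarith)))
  have g5 : (√v)⁻¹ ≤ (√u)⁻¹ := inv_anti₀ s0 (Real.sqrt_le_sqrt q)
  have g6 : √u ≤ (√u)⁻¹ := by
    have : √u ≤ 1 := Real.sqrt_le_one.2 (by linarith)
    exact this.trans (one_le_inv_iff₀.2 ⟨s0, this⟩)
  have g7 := mul_le_mul_of_nonneg_left g4 hA0
  have g8 := mul_le_mul_of_nonneg_left g5 hA0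
  have g9 := mul_le_mul_of_nonneg_left g6 (by positivity : 0 ≤ 8 * π * A)
  have g10 := mul_le_mul_of_nonneg_left g2 (by positivity : 0 ≤ 48 * π)
  have g11 : 0 ≤ 8 * π * A * √u0 := by positivity
  rw [← hA]
  linarith

/-- the deterministic electrostatic inequality -/
theorem es_det : ∃ C : ℝ, 0 < C ∧ ∀ (ι : Type) [Fintype ι] (c : ι → ℝ) (cb : ℝ),
    (∀ j, |c j| ≤ cb) → ∀ a v u0 : ℝ, 0 < u0 → u0 < v → 10 * v ≤ a → a ≤ 1 →
    ∀ (b : ℝ) (z0 : E) (x : X ι),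
    (1 - 8 * v / a) / 2 * av2 (hk a) c v b z0 x ≤
      4 * π * I0 c a v b z0 u0 x + 192 * π ^ 2 * (∫ u in u0..v, SR c cb a v z0 u x) +
      av2 (th a) c v b z0 x / 2 + C * cb ^ 2 / √v * ph (fun _ => 1) (th (a + v)) z0 x := by
  refine ⟨3 * (4 * π * (2 + 8 * π)), by positivity, ?_⟩
  intro ι _ c cb hc a v u0 h0 h1 h2 h3 b z0 x
  have hv : 0 < v := h0.trans h1
  have ha : 0 < a := by linarith
  have hA0 : 0 ≤ ∑ j, c j ^ 2 * th (a + v) (x j - z0) :=
    Finset.sum_nonneg fun j _ => mul_nonneg (sq_nonneg _) (th_pos (by linarith) _).le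
  have key := fb_ode (A := 4 * π * (2 + 8 * π) * ∑ j, c j ^ 2 * th (a + v) (x j - z0))
    (Z0 := 4 * π * I0 c a v b z0 u0 x + 192 * π ^ 2 * (∫ u in u0..v, SR c cb a v z0 u x))
    h0 h1 h2 h3 (I := fun u => 4 * π * fb_I c b (a + v) z0 x u)
    (h := fun u => av2 (th (a + v - u)) c u b z0 x) (k := fun u => av2 (hk (a + v - u)) c u b z0 x)
    (e := fun u => eg c (a + v - u) u z0 x) (by positivity)
    (fun u p q => fb_dh c b (by linarith) (by linarith) z0 x)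
    (fun u p q => eg_nonneg c (by linarith) u z0 x)
    (fun u p q => fb_av2_nonneg (hk_nonneg _) c u b z0 x)
    (fun u p q => flow_A1 c b (by linarith) (by linarith) z0 x)
    (fun u p q => by
      have := mul_le_mul_of_nonneg_left (fb_I_le c hc h0 h1 h2 h3 b z0 x p q)
        (by positivity : 0 ≤ 4 * π)
      refine this.trans (le_of_eq ?_)
      field_simp
      ring)
  simp only [add_sub_cancel_right] at key
  have hA1 : ∑ j, c j ^ 2 * th (a + v) (x j - z0) ≤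
      cb ^ 2 * ph (fun _ => 1) (th (a + v)) z0 x := by
    unfold ph
    rw [Finset.mul_sum]
    refine Finset.sum_le_sum fun j _ => ?_
    rw [one_mul]
    refine mul_le_mul_of_nonneg_right ?_ (th_pos (by linarith) _).le
    rw [← sq_abs]
    exact pow_le_pow_left₀ (abs_nonneg _) (hc j) 2
  have := mul_le_mul_of_nonneg_left hA1
    (by positivity : 0 ≤ 3 * (4 * π * (2 + 8 * π)) * (√v)⁻¹)
  rw [div_eq_mul_inv (3 * (4 * π * (2 + 8 * π)) * cb ^ 2)]
  linarith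

end Pool.Agent.Lib.MP_0655ed_mp
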