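import Pool.Agent.Lib.MP_0655ed_mp.ImpFlowA

open Finset MeasureTheory Real Filter Topology

namespace Pool.Agent.Lib.MP_0655ed_mp

/-- continuous in space, bounded uniformly for times away from zero -/
def fb_Bd (m : ℝ → E → ℝ) : Prop :=
  (∀ u, 0 < u → Continuous (m u)) ∧ ∀ δ, 0 < δ → ∃ M, ∀ u, δ ≤ u → ∀ z, |m u z| ≤ M

theorem fb_Bd.const (b : ℝ) : fb_Bd fun _ _ => b :=
  ⟨fun _ _ => continuous_const, fun _ _ => ⟨|b|, fun _ _ _ => le_rfl⟩⟩

theorem fb_Bd.add {m n : ℝ → E → ℝ} (hm : fb_Bd m) (hn : fb_Bd n) :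
    fb_Bd fun u z => m u z + n u z := by
  refine ⟨fun u hu => (hm.1 u hu).add (hn.1 u hu), fun δ hδ => ?_⟩
  obtain ⟨M, hM⟩ := hm.2 δ hδ
  obtain ⟨N, hN⟩ := hn.2 δ hδ
  exact ⟨M + N, fun u hu z => (abs_add_le _ _).trans (add_le_add (hM u hu z) (hN u hu z))⟩

theorem fb_Bd.mul {m n : ℝ → E → ℝ} (hm : fb_Bd m) (hn : fb_Bd n) :
    fb_Bd fun u z => m u z * n u z := by
  refine ⟨fun u hu => (hm.1 u hu).mul (hn.1 u hu), fun δ hδ => ?_⟩
  obtain ⟨M, hM⟩ := hm.2 δ hδ
  obtain ⟨N, hN⟩ := hn.2 δ hδ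
  refine ⟨M * N, fun u hu z => ?_⟩
  rw [abs_mul]
  exact mul_le_mul (hM u hu z) (hN u hu z) (abs_nonneg _) ((abs_nonneg _).trans (hM u hu z))

theorem fb_Bd.sub {m n : ℝ → E → ℝ} (hm : fb_Bd m) (hn : fb_Bd n) :
    fb_Bd fun u z => m u z - n u z := by
  have := hm.add ((fb_Bd.const (-1)).mul hn)
  simpa [sub_eq_add_neg] using this

theorem fb_Bd.sq {m : ℝ → E → ℝ} (hm : fb_Bd m) : fb_Bd fun u z => m u z ^ 2 := by
  simpa [pow_two] using hm.mul hm

theorem fb_Bd.min {m n : ℝ → E → ℝ} (hm : fb_Bd m) (hn : fb_Bd n) :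
    fb_Bd fun u z => min (m u z) (n u z) := by
  refine ⟨fun u hu => (hm.1 u hu).min (hn.1 u hu), fun δ hδ => ?_⟩
  obtain ⟨M, hM⟩ := hm.2 δ hδ
  obtain ⟨N, hN⟩ := hn.2 δ hδ
  refine ⟨max M N, fun u hu z => ?_⟩
  rcases min_choice (m u z) (n u z) with h | h <;> simp only [h]
  · exact (hM u hu z).trans (le_max_left _ _)
  · exact (hN u hu z).trans (le_max_right _ _)

theorem fb_Bd.sum {ι : Type} (s : Finset ι) {m : ι → ℝ → E → ℝ} (hm : ∀ j, fb_Bd (m j)) :
    fb_Bd fun u z => ∑ j ∈ s, m j u z := by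
  classical
  induction s using Finset.induction_on with
  | empty => simpa using fb_Bd.const 0
  | insert a s ha ih => simpa [Finset.sum_insert ha] using (hm a).add ih

theorem fb_Bd.shift {m : ℝ → E → ℝ} (hm : fb_Bd m) (y : E) : fb_Bd fun u z => m u (y - z) := by
  refine ⟨fun u hu => (hm.1 u hu).comp (continuous_const.sub continuous_id), fun δ hδ => ?_⟩
  obtain ⟨M, hM⟩ := hm.2 δ hδ
  exact ⟨M, fun u hu z => hM u hu _⟩

theorem fb_Bd.at {m : ℝ → E → ℝ} (hm : fb_Bd m) (y : E) : fb_Bd fun u _ => m u y := by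
  refine ⟨fun u hu => continuous_const, fun δ hδ => ?_⟩
  obtain ⟨M, hM⟩ := hm.2 δ hδ
  exact ⟨M, fun u hu z => hM u hu _⟩

theorem fb_Bd.ph {ι : Type} [Fintype ι] {m : ℝ → E → ℝ} (hm : fb_Bd m) (c : ι → ℝ) (x : X ι) :
    fb_Bd fun u z => ph c (m u) z x :=
  fb_Bd.sum univ fun j => (fb_Bd.const (c j)).mul (hm.shift (x j))

theorem fb_Bd_hk : fb_Bd hk := by
  refine ⟨fun u _ => continuous_hk u, fun δ hδ => ⟨hk δ 0, fun u hu z => ?_⟩⟩
  rw [abs_of_nonneg (hk_nonneg _ _)]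
  exact (hk_le_zero (hδ.trans_le hu) z).trans (hk_zero_anti hδ hu)

theorem fb_Bd_VV : fb_Bd VV := by
  refine ⟨fun u _ => continuous_VV u, fun δ hδ => ⟨(√δ)⁻¹, fun u hu z => ?_⟩⟩
  rw [abs_of_nonneg (VV_nonneg _ _)]
  exact (VV_le (hδ.trans_le hu) z).trans
    (inv_anti₀ (Real.sqrt_pos.2 hδ) (Real.sqrt_le_sqrt hu))

theorem fb_Bd_hkt : fb_Bd hkt := by
  refine ⟨fun u _ => ?_, fun δ hδ => ⟨8 / δ * hk δ 0, fun u hu z => ?_⟩⟩
  · unfold hkt
    exact (continuous_hk u).mul ((contDiff_r2.continuous.div_const _).sub continuous_const)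
  · have hu0 : 0 < u := hδ.trans_le hu
    have h1 : hk u z ≤ hk δ 0 := (hk_le_zero hu0 z).trans (hk_zero_anti hδ hu)
    have h2 : hk (2 * u) z ≤ hk δ 0 :=
      (hk_le_zero (by linarith) z).trans (hk_zero_anti hδ (by linarith))
    have h3 := r2_mul_hk hu0 z
    have h4 : 0 ≤ hk u z := hk_nonneg _ _
    have h5 : 0 ≤ r2 z := r2_nonneg z
    have h6 : 0 ≤ hk δ 0 := hk_nonneg _ _
    have h7 : 8 / u * hk δ 0 ≤ 8 / δ * hk δ 0 := by gcongr
    have e1 : hkt u z = r2 z * hk u z / (4 * u ^ 2) - 3 / (2 * u) * hk u z := by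
      unfold hkt; ring
    have h8 : r2 z * hk u z / (4 * u ^ 2) ≤ 6 / u * hk δ 0 := by
      rw [div_le_iff₀ (by positivity)]
      have : 6 / u * hk δ 0 * (4 * u ^ 2) = 24 * u * hk δ 0 := by field_simp; ring
      rw [this]
      exact h3.trans (by gcongr)
    have h9 : 3 / (2 * u) * hk u z ≤ 2 / u * hk δ 0 := by
      have : 3 / (2 * u) ≤ 2 / u := by
        rw [div_le_div_iff₀ (by positivity) hu0]; linarith
      gcongr
    have h10 : 0 ≤ r2 z * hk u z / (4 * u ^ 2) := by positivity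
    have h11 : 0 ≤ 3 / (2 * u) * hk u z := by positivity
    have h12 : 8 / u * hk δ 0 = 6 / u * hk δ 0 + 2 / u * hk δ 0 := by ring
    rw [e1, abs_le]
    constructor <;> linarith

theorem fb_int {g : E → ℝ} (hg : Integrable g) {m : ℝ → E → ℝ} (hm : fb_Bd m) {u : ℝ}
    (hu : 0 < u) (z0 : E) : Integrable fun z => g (z - z0) * m u z := by
  obtain ⟨M, hM⟩ := hm.2 u hu
  exact (hg.comp_sub_right z0).mul_bdd (hm.1 u hu).aestronglyMeasurable
    (Eventually.of_forall fun z => hM u le_rfl z)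

theorem fb_dom {B β : ℝ} (hβ : 0 < β) : ∃ K, 0 ≤ K ∧ ∀ b, β ≤ b → b ≤ B → ∀ y,
    th b y ≤ K * th B y ∧ hk b y ≤ K * hk B y := by
  refine ⟨√(B / β) ^ 3, by positivity, fun b h1 h2 y => ?_⟩
  have hb : 0 < b := hβ.trans_le h1
  have hB : 0 < B := hb.trans_le h2
  have hK : √(B / b) ^ 3 ≤ √(B / β) ^ 3 := by gcongr
  exact ⟨(th_le_th hb h2 y).trans (mul_le_mul_of_nonneg_right hK (th_pos hB y).le),
    (hk_le_hk hb h2 y).trans (mul_le_mul_of_nonneg_right hK (hk_nonneg B y))⟩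

/-- differentiation of a backward `th`-average -/
theorem fb_deriv {B u1 : ℝ} (h0 : 0 < u1) (h1 : u1 < B) (z0 : E) {m m' : ℝ → E → ℝ}
    (hm : fb_Bd m) (hm' : fb_Bd m') (hd : ∀ u, 0 < u → ∀ z, HasDerivAt (fun u => m u z) (m' u z) u) :
    HasDerivAt (fun u => ∫ z, th (B - u) (z - z0) * m u z)
      (∫ z, (-(th (B - u1) (z - z0) - hk (B - u1) (z - z0)) * m u1 z +
        th (B - u1) (z - z0) * m' u1 z)) u1 := by
  have hB : 0 < B := h0.trans h1
  obtain ⟨K, hK0, hK⟩ := fb_dom (B := B) (β := (B - u1) / 2) (by linarith)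
  obtain ⟨M, hM⟩ := hm.2 (u1 / 2) (by linarith)
  obtain ⟨N, hN⟩ := hm'.2 (u1 / 2) (by linarith)
  have hs : Set.Ioo (u1 / 2) ((u1 + B) / 2) ∈ 𝓝 u1 := Ioo_mem_nhds (by linarith) (by linarith)
  have hc : ∀ b, 0 < b → Continuous fun z : E => th b (z - z0) := fun b hb =>
    (continuous_th hb).comp (continuous_id.sub continuous_const)
  have hc' : ∀ b, Continuous fun z : E => hk b (z - z0) := fun b =>
    (continuous_hk b).comp (continuous_id.sub continuous_const)
  refine (hasDerivAt_integral_of_dominated_loc_of_deriv_le (μ := volume)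
    (F := fun u z => th (B - u) (z - z0) * m u z)
    (F' := fun u z => -(th (B - u) (z - z0) - hk (B - u) (z - z0)) * m u z +
        th (B - u) (z - z0) * m' u z)
    (bound := fun z => (K * th B (z - z0) + K * hk B (z - z0)) * M + K * th B (z - z0) * N)
    hs ?_ ?_ ?_ ?_ ?_ ?_).2
  · filter_upwards [hs] with u hu
    exact ((hc _ (by linarith [hu.2])).mul (hm.1 u (by linarith [hu.1]))).aestronglyMeasurable
  · exact fb_int (integrable_th (by linarith)) hm h0 z0
  · exact ((((hc _ (by linarith)).sub (hc' _)).neg.mul (hm.1 u1 h0)).add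
      ((hc _ (by linarith)).mul (hm'.1 u1 h0))).aestronglyMeasurable
  · refine Eventually.of_forall fun z u hu => ?_
    obtain ⟨k1, k2⟩ := hK (B - u) (by linarith [hu.2]) (by linarith [hu.1]) (z - z0)
    have p1 : 0 < th (B - u) (z - z0) := th_pos (by linarith [hu.2]) _
    have p2 : 0 ≤ hk (B - u) (z - z0) := hk_nonneg _ _
    have m1 := hM u hu.1.le z
    have m2 := hN u hu.1.le z
    rw [Real.norm_eq_abs]
    refine (abs_add_le _ _).trans (add_le_add ?_ ?_)
    · rw [abs_mul]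
      refine mul_le_mul ?_ m1 (abs_nonneg _) (by linarith)
      rw [abs_neg, abs_le]
      constructor <;> linarith
    · rw [abs_mul, abs_of_pos p1]
      exact mul_le_mul k1 m2 (abs_nonneg _) (by linarith)
  · have i1 := (integrable_th hB).comp_sub_right z0
    have i2 := (integrable_hk hB).comp_sub_right z0
    exact (((i1.const_mul K).add (i2.const_mul K)).mul_const M).add ((i1.const_mul K).mul_const N)
  · refine Eventually.of_forall fun z u hu => ?_
    have d1 : HasDerivAt (fun u => th (B - u) (z - z0))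
        (-(th (B - u) (z - z0) - hk (B - u) (z - z0))) u := by
      have := (hasDerivAt_th_time (b := B - u) (by linarith [hu.2]) (z - z0)).comp u
        ((hasDerivAt_id u).const_sub B)
      simpa [Function.comp_def] using this
    exact d1.mul (hd u (by linarith [hu.1]) z)

theorem fb_cont_hk {Y : Type} [TopologicalSpace Y] {f : Y → ℝ} {g : Y → E} {p : Y}
    (hf : ContinuousAt f p) (hg : ContinuousAt g p) (h : 0 < f p) :
    ContinuousAt (fun q => hk (f q) (g q)) p := by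
  have h1 : ContinuousAt (fun p : ℝ × E => hk p.1 p.2) (f p, g p) :=
    continuousOn_hk.continuousAt ((isOpen_Ioi.prod isOpen_univ).mem_nhds ⟨h, trivial⟩)
  exact ContinuousAt.comp (f := fun q => (f q, g q)) h1 (hf.prodMk hg)

theorem fb_cont_th {Y : Type} [TopologicalSpace Y] {f : Y → ℝ} {g : Y → E} {p : Y}
    (hf : ContinuousAt f p) (hg : ContinuousAt g p) (h : 0 < f p) :
    ContinuousAt (fun q => th (f q) (g q)) p := by
  have h1 : ContinuousAt (fun p : ℝ × E => th p.1 p.2) (f p, g p) :=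
    continuousOn_th.continuousAt ((isOpen_Ioi.prod isOpen_univ).mem_nhds ⟨h, trivial⟩)
  exact ContinuousAt.comp (f := fun q => (f q, g q)) h1 (hf.prodMk hg)

theorem fb_ph_hk_le {ι : Type} [Fintype ι] (c : ι → ℝ) {δ u : ℝ} (hδ : 0 < δ) (hu : δ ≤ u) (z : E)
    (x : X ι) : |ph c (hk u) z x| ≤ (∑ j, |c j|) * hk δ 0 := by
  unfold ph
  rw [Finset.sum_mul]
  refine (Finset.abs_sum_le_sum_abs _ _).trans (Finset.sum_le_sum fun j _ => ?_)
  rw [abs_mul, abs_of_nonneg (hk_nonneg _ _)]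
  exact mul_le_mul_of_nonneg_left
    ((hk_le_zero (hδ.trans_le hu) _).trans (hk_zero_anti hδ hu)) (abs_nonneg _)

theorem fb_Bd_SR {ι : Type} [Fintype ι] (c : ι → ℝ) (cb : ℝ) (x : X ι) :
    fb_Bd fun u z => ph (fun j => max (-c j) 0) (hk u) z x *
      min (cb * hk u 0) (ph (fun j => max (c j) 0) (hk u) z x) :=
  (fb_Bd_hk.ph _ x).mul (((fb_Bd.const cb).mul (fb_Bd_hk.at 0)).min (fb_Bd_hk.ph _ x))

theorem fb_contAt_SR {ι : Type} [Fintype ι] (c : ι → ℝ) (cb a v : ℝ) (z0 : E) {p : ℝ × X ι}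
    (h0 : 0 < p.1) (h1 : p.1 < a + v) :
    ContinuousAt (fun p : ℝ × X ι => SR c cb a v z0 p.1 p.2) p := by
  obtain ⟨K, hK0, hK⟩ := fb_dom (B := a + v) (β := (a + v - p.1) / 2) (by linarith)
  have hs : ∀ᶠ q : ℝ × X ι in 𝓝 p, q.1 ∈ Set.Ioo (p.1 / 2) ((p.1 + (a + v)) / 2) :=
    continuous_fst.continuousAt.eventually (Ioo_mem_nhds (by linarith) (by linarith))
  set δ := p.1 / 2 with hδ
  have hδ0 : 0 < δ := by linarith
  unfold SR
  refine continuousAt_of_dominated (bound := fun z => K * th (a + v) (z - z0) *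
    ((∑ j, |max (-c j) 0|) * hk δ 0 * (|cb| * hk δ 0 + (∑ j, |max (c j) 0|) * hk δ 0))) ?_ ?_ ?_ ?_
  · filter_upwards [hs] with q hq
    exact (fb_int (integrable_th (by linarith [hq.2])) (fb_Bd_SR c cb q.2)
      (by linarith [hq.1]) z0).aestronglyMeasurable
  · filter_upwards [hs] with q hq
    refine Eventually.of_forall fun z => ?_
    have k1 := (hK (a + v - q.1) (by linarith [hq.2]) (by linarith [hq.1]) (z - z0)).1
    have p1 : 0 < th (a + v - q.1) (z - z0) := th_pos (by linarith [hq.2]) _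
    have b1 := fb_ph_hk_le (fun j => max (-c j) 0) hδ0 hq.1.le z q.2
    have b2 := fb_ph_hk_le (fun j => max (c j) 0) hδ0 hq.1.le z q.2
    have b3 : |cb * hk q.1 0| ≤ |cb| * hk δ 0 := by
      rw [abs_mul, abs_of_nonneg (hk_nonneg _ _)]
      exact mul_le_mul_of_nonneg_left (hk_zero_anti hδ0 hq.1.le) (abs_nonneg _)
    rw [Real.norm_eq_abs, abs_mul, abs_mul, abs_of_pos p1]
    refine mul_le_mul k1 (mul_le_mul b1 ?_ (abs_nonneg _) ((abs_nonneg _).trans b1))
      (by positivity) (by linarith)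
    have n1 := abs_nonneg (cb * hk q.1 0)
    have n2 := abs_nonneg (ph (fun j => max (c j) 0) (hk q.1) z q.2)
    rcases min_choice (cb * hk q.1 0) (ph (fun j => max (c j) 0) (hk q.1) z q.2) with h | h <;>
      rw [h] <;> linarith
  · exact (((integrable_th (by linarith)).comp_sub_right z0).const_mul K).mul_const _
  · refine Eventually.of_forall fun z => ?_
    have hph : ∀ d : ι → ℝ, ContinuousAt (fun q : ℝ × X ι => ph d (hk q.1) z q.2) p := by
      intro d
      unfold ph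
      refine tendsto_finsetSum _ fun j _ => ?_
      exact continuousAt_const.mul (fb_cont_hk (f := fun q : ℝ × X ι => q.1)
        (g := fun q => q.2 j - z) continuousAt_fst (by fun_prop) h0)
    refine (fb_cont_th (f := fun q : ℝ × X ι => a + v - q.1) (g := fun _ => z - z0)
      (by fun_prop) continuousAt_const (by linarith)).mul ((hph _).mul ?_)
    exact (continuousAt_const.mul (fb_cont_hk (f := fun q : ℝ × X ι => q.1) (g := fun _ => 0)
      continuousAt_fst continuousAt_const h0)).min (hph _)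

end Pool.Agent.Lib.MP_0655ed_mp
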