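import Pool.Agent.Lib.MP_0655ed_mp.ImpFlowB1

open Finset MeasureTheory Real Filter Topology

namespace Pool.Agent.Lib.MP_0655ed_mp

variable {ι : Type} [Fintype ι]

theorem fb_fdll (c g : ι → ℝ) {cb g0 : ℝ} (hc : ∀ j, |c j| ≤ cb)
    (hg : ∀ j, 0 ≤ g j) (hg0 : ∀ j, g j ≤ g0) :
    -(6 * ((∑ j, max (-c j) 0 * g j) * min (cb * g0) (∑ j, max (c j) 0 * g j))) ≤
      (∑ j, c j * g j) ^ 2 - ∑ j, (c j * g j) ^ 2 := by
  rcases isEmpty_or_nonempty ι with hι | ⟨⟨j0⟩⟩
  · simp
  have hcb : 0 ≤ cb := (abs_nonneg _).trans (hc j0)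
  have hm : 0 ≤ cb * g0 := mul_nonneg hcb ((hg j0).trans (hg0 j0))
  have hp : ∀ j, 0 ≤ max (c j) 0 * g j := fun j => mul_nonneg (le_max_right _ _) (hg j)
  have hn : ∀ j, 0 ≤ max (-c j) 0 * g j := fun j => mul_nonneg (le_max_right _ _) (hg j)
  have hQ : ∑ j, c j * g j = ∑ j, max (c j) 0 * g j - ∑ j, max (-c j) 0 * g j := by
    rw [← Finset.sum_sub_distrib]
    refine Finset.sum_congr rfl fun j _ => ?_
    rcases le_total (c j) 0 with h | h
    · rw [max_eq_right h, max_eq_left (by linarith)]; ring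
    · rw [max_eq_left h, max_eq_right (by linarith)]; ring
  have hS : ∑ j, (c j * g j) ^ 2 =
      ∑ j, (max (c j) 0 * g j) ^ 2 + ∑ j, (max (-c j) 0 * g j) ^ 2 := by
    rw [← Finset.sum_add_distrib]
    refine Finset.sum_congr rfl fun j _ => ?_
    rcases le_total (c j) 0 with h | h
    · rw [max_eq_right h, max_eq_left (by linarith)]; ring
    · rw [max_eq_left h, max_eq_right (by linarith)]; ring
  have h1 := Finset.sum_sq_le_sq_sum_of_nonneg (s := univ) fun j _ => hp j
  have h2 := Finset.sum_sq_le_sq_sum_of_nonneg (s := univ) fun j _ => hn j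
  have h3 : ∑ j, (max (c j) 0 * g j) ^ 2 ≤ cb * g0 * ∑ j, max (c j) 0 * g j := by
    rw [Finset.mul_sum]
    refine Finset.sum_le_sum fun j _ => ?_
    rw [pow_two]
    refine mul_le_mul_of_nonneg_right (mul_le_mul ?_ (hg0 j) (hg j) hcb) (hp j)
    exact max_le ((le_abs_self _).trans (hc j)) hcb
  have h4 : ∑ j, (max (-c j) 0 * g j) ^ 2 ≤ cb * g0 * ∑ j, max (-c j) 0 * g j := by
    rw [Finset.mul_sum]
    refine Finset.sum_le_sum fun j _ => ?_
    rw [pow_two]
    refine mul_le_mul_of_nonneg_right (mul_le_mul ?_ (hg0 j) (hg j) hcb) (hn j)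
    exact max_le ((neg_le_abs _).trans (hc j)) hcb
  have hP : 0 ≤ ∑ j, max (c j) 0 * g j := Finset.sum_nonneg fun j _ => hp j
  have hM : 0 ≤ ∑ j, max (-c j) 0 * g j := Finset.sum_nonneg fun j _ => hn j
  rw [hQ, hS]
  generalize ∑ j, (max (c j) 0 * g j) ^ 2 = s1 at *
  generalize ∑ j, (max (-c j) 0 * g j) ^ 2 = s2 at *
  generalize ∑ j, max (c j) 0 * g j = P at *
  generalize ∑ j, max (-c j) 0 * g j = M at *
  generalize cb * g0 = m at *
  have hPM : 0 ≤ P * M := mul_nonneg hP hM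
  have hmM : 0 ≤ m * M := mul_nonneg hm hM
  rcases le_total P m with h | h
  · rw [min_eq_right h]; nlinarith
  · rw [min_eq_left h]
    rcases le_total P (3 * m) with h' | h'
    · have : P * M ≤ 3 * m * M := mul_le_mul_of_nonneg_right h' hM
      nlinarith
    · rcases le_total M (m / 16) with h'' | h''
      · have : 0 ≤ (P - M) * (P - M - m) := mul_nonneg (by linarith) (by linarith)
        nlinarith
      · have : m * (m / 16) ≤ m * M := mul_le_mul_of_nonneg_left h'' hm
        nlinarith [sq_nonneg (P - M - m / 2)]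

theorem fb_d_VV (c : ι → ℝ) {u : ℝ} (hu : 0 < u) (z : E) (x : X ι) :
    HasDerivAt (fun u => ph c (VV u) z x) (-(4 * π) * ph c (hk u) z x) u := by
  unfold ph
  rw [Finset.mul_sum]
  refine HasDerivAt.fun_sum fun j _ => ?_
  have := (hasDerivAt_VV_time hu (x j - z)).const_mul (c j)
  exact this.congr_deriv (by ring)

theorem fb_d_hk (c : ι → ℝ) {u : ℝ} (hu : 0 < u) (z : E) (x : X ι) :
    HasDerivAt (fun u => ph c (hk u) z x) (ph c (hkt u) z x) u := by
  unfold ph
  exact HasDerivAt.fun_sum fun j _ => (hasDerivAt_hk_time hu (x j - z)).const_mul (c j)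

noncomputable def fb_I (c : ι → ℝ) (b B : ℝ) (z0 : E) (x : X ι) (u : ℝ) : ℝ :=
  ∫ z, th (B - u) (z - z0) * ((ph c (VV u) z x - b) * ph c (hk u) z x)

noncomputable def fb_R (c : ι → ℝ) (B : ℝ) (z0 : E) (x : X ι) (u : ℝ) : ℝ :=
  ∫ z, th (B - u) (z - z0) * ph c (hk u) z x ^ 2

theorem fb_Bd_s (c : ι → ℝ) (b : ℝ) (x : X ι) : fb_Bd fun u z => ph c (VV u) z x - b :=
  (fb_Bd_VV.ph c x).sub (fb_Bd.const b)

theorem fb_dI (c : ι → ℝ) (b : ℝ) {B u : ℝ} (h0 : 0 < u) (h1 : u < B) (z0 : E) (x : X ι) :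
    ∃ I', HasDerivAt (fb_I c b B z0 x) I' u ∧
      I' ≤ -(8 * π) * fb_R c B z0 x u + (1 / 2 + 1 / (B - u)) / (2 * π) * eg c (B - u) u z0 x := by
  refine ⟨_, fb_deriv (m := fun u z => (ph c (VV u) z x - b) * ph c (hk u) z x)
    (m' := fun u z => -(4 * π) * ph c (hk u) z x ^ 2 + (ph c (VV u) z x - b) * ph c (hkt u) z x)
    h0 h1 z0 ((fb_Bd_s c b x).mul (fb_Bd_hk.ph c x))
    (((fb_Bd.const _).mul (fb_Bd_hk.ph c x).sq).add ((fb_Bd_s c b x).mul (fb_Bd_hkt.ph c x))) ?_,
    flow_A2 c b (by linarith) h0 z0 x⟩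
  intro u hu z
  exact (((fb_d_VV c hu z x).sub_const b).mul (fb_d_hk c hu z x)).congr_deriv (by ring)

theorem fb_dh (c : ι → ℝ) (b : ℝ) {B u : ℝ} (h0 : 0 < u) (h1 : u < B) (z0 : E) (x : X ι) :
    HasDerivAt (fun u => av2 (th (B - u)) c u b z0 x) (-2 * eg c (B - u) u z0 x) u := by
  have hb : 0 < B - u := by linarith
  have hd := fb_deriv (m := fun u z => (ph c (VV u) z x - b) ^ 2)
    (m' := fun u z => -(8 * π) * ((ph c (VV u) z x - b) * ph c (hk u) z x))
    h0 h1 z0 (fb_Bd_s c b x).sq ((fb_Bd.const _).mul ((fb_Bd_s c b x).mul (fb_Bd_hk.ph c x)))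
    (fun u hu z => (((fb_d_VV c hu z x).sub_const b).fun_pow 2).congr_deriv (by
      norm_num; ring))
  refine hd.congr_deriv ?_
  have i1 := fb_int (integrable_th hb) (fb_Bd_s c b x).sq h0 z0
  have i2 := fb_int (integrable_hk hb) (fb_Bd_s c b x).sq h0 z0
  have i3 := fb_int (integrable_th hb) ((fb_Bd_s c b x).mul (fb_Bd_hk.ph c x)) h0 z0
  have A1 := flow_A1 c b hb h0 z0 x
  have e : ∫ z, (-(th (B - u) (z - z0) - hk (B - u) (z - z0)) * (ph c (VV u) z x - b) ^ 2 +
      th (B - u) (z - z0) * (-(8 * π) * ((ph c (VV u) z x - b) * ph c (hk u) z x))) =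
      (av2 (hk (B - u)) c u b z0 x - av2 (th (B - u)) c u b z0 x) -
        8 * π * ∫ z, th (B - u) (z - z0) * ((ph c (VV u) z x - b) * ph c (hk u) z x) := by
    unfold av2
    have i4 : Integrable fun z => hk (B - u) (z - z0) * (ph c (VV u) z x - b) ^ 2 -
        th (B - u) (z - z0) * (ph c (VV u) z x - b) ^ 2 := i2.sub i1
    rw [← integral_sub i2 i1, ← integral_const_mul, ← integral_sub i4 (i3.const_mul _)]
    refine integral_congr_ae (Eventually.of_forall fun z => ?_)
    simp only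
    ring
  rw [e]
  linarith

theorem fb_av2_nonneg {g : E → ℝ} (hg : ∀ y, 0 ≤ g y) (c : ι → ℝ) (u b : ℝ) (z0 : E) (x : X ι) :
    0 ≤ av2 g c u b z0 x :=
  integral_nonneg fun _ => mul_nonneg (hg _) (sq_nonneg _)

theorem fb_SR_nonneg (c : ι → ℝ) {cb a v u : ℝ} (hc : ∀ j, |c j| ≤ cb) (hu : u < a + v) (z0 : E)
    (x : X ι) : 0 ≤ SR c cb a v z0 u x := by
  rcases isEmpty_or_nonempty ι with hι | ⟨⟨j0⟩⟩
  · simp [SR, ph]
  have hcb : 0 ≤ cb := (abs_nonneg _).trans (hc j0)
  refine integral_nonneg fun z =>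
    mul_nonneg (th_pos (by linarith) _).le (mul_nonneg ?_ (le_min ?_ ?_))
  · exact Finset.sum_nonneg fun j _ => mul_nonneg (le_max_right _ _) (hk_nonneg _ _)
  · exact mul_nonneg hcb (hk_nonneg _ _)
  · exact Finset.sum_nonneg fun j _ => mul_nonneg (le_max_right _ _) (hk_nonneg _ _)

theorem fb_self {B u : ℝ} (h0 : 0 < u) (h1 : u < B) (z0 y : E) :
    hk (2 * u) 0 * (1 - u / 2) * th B (y - z0) ≤ ∫ z, th (B - u) (z - z0) * hk u (y - z) ^ 2 := by
  have e1 : u * u / (u + u) = u / 2 := by field_simp; ring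
  have e : ∀ z, th (B - u) (z - z0) * hk u (y - z) ^ 2 =
      hk (2 * u) 0 * (th (B - u) (z - z0) * hk (u / 2) (y - z)) := by
    intro z
    rw [pow_two, hk_mul_hk h0 h0, e1, two_mul]
    ring
  simp_rw [e]
  rw [integral_const_mul, th_conv (by linarith) (by linarith), mul_assoc]
  refine mul_le_mul_of_nonneg_left ?_ (hk_nonneg _ _)
  have h2 := th_add_le (b := B - u + u / 2) (δ := u / 2) (by linarith) (by linarith) (y - z0)
  rw [show B - u + u / 2 + u / 2 = B by ring] at h2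
  have h3 : 1 - u / 2 ≤ exp (-(u / 2)) := by linarith [Real.add_one_le_exp (-(u / 2))]
  have h4 : 0 < th B (y - z0) := th_pos (by linarith) _
  calc (1 - u / 2) * th B (y - z0) ≤ exp (-(u / 2)) * th B (y - z0) := by gcongr
    _ ≤ exp (-(u / 2)) * (exp (u / 2) * th (B - u + u / 2) (y - z0)) := by gcongr
    _ = _ := by rw [← mul_assoc, ← Real.exp_add]; simp

theorem fb_R_ge (c : ι → ℝ) {cb : ℝ} (hc : ∀ j, |c j| ≤ cb) {a v u : ℝ} (h0 : 0 < u)
    (h1 : u < a + v) (z0 : E) (x : X ι) :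
    hk (2 * u) 0 * (1 - u / 2) * (∑ j, c j ^ 2 * th (a + v) (x j - z0)) -
      6 * SR c cb a v z0 u x ≤ fb_R c (a + v) z0 x u := by
  have hb : 0 < a + v - u := by linarith
  have i1 := fb_int (integrable_th hb) (fb_Bd_hk.ph c x).sq h0 z0
  have i2 := fb_int (integrable_th hb) (fb_Bd_SR c cb x) h0 z0
  have i3 : ∀ j, Integrable fun z => c j ^ 2 * (th (a + v - u) (z - z0) * hk u (x j - z) ^ 2) :=
    fun j => (fb_int (integrable_th hb) (fb_Bd_hk.shift (x j)).sq h0 z0).const_mul _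
  have i4 : Integrable fun z => ∑ j, c j ^ 2 * (th (a + v - u) (z - z0) * hk u (x j - z) ^ 2) :=
    integrable_finsetSum _ fun j _ => i3 j
  have h2 : hk (2 * u) 0 * (1 - u / 2) * (∑ j, c j ^ 2 * th (a + v) (x j - z0)) ≤
      ∫ z, ∑ j, c j ^ 2 * (th (a + v - u) (z - z0) * hk u (x j - z) ^ 2) := by
    rw [integral_finsetSum _ fun j _ => i3 j, Finset.mul_sum]
    refine Finset.sum_le_sum fun j _ => ?_
    rw [integral_const_mul]
    have := mul_le_mul_of_nonneg_left (fb_self h0 h1 z0 (x j)) (sq_nonneg (c j))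
    linarith
  refine (sub_le_sub_right h2 _).trans ?_
  unfold SR fb_R
  rw [← integral_const_mul, ← integral_sub i4 (i2.const_mul 6)]
  refine integral_mono (i4.sub (i2.const_mul 6)) i1 fun z => ?_
  have h3 := fb_fdll c (fun j => hk u (x j - z)) (g0 := hk u 0) hc (fun j => hk_nonneg _ _)
    (fun j => hk_le_zero h0 _)
  have h4 := mul_le_mul_of_nonneg_left h3 (th_pos hb (z - z0)).le
  have e : ∑ j, c j ^ 2 * (th (a + v - u) (z - z0) * hk u (x j - z) ^ 2) =
      th (a + v - u) (z - z0) * ∑ j, (c j * hk u (x j - z)) ^ 2 := by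
    rw [Finset.mul_sum]
    exact Finset.sum_congr rfl fun j _ => by ring
  simp only [e]
  unfold ph
  linarith

theorem fb_shift {u : ℝ} (h0 : 0 < u) :
    IntegrableOn (fun r => hk (r + u) 0) (Set.Ioi u) ∧
      4 * π * ∫ r in Set.Ioi u, hk (r + u) 0 = VV (2 * u) 0 := by
  have hp := measurePreserving_add_right (volume : Measure ℝ) u
  have he := measurableEmbedding_addRight u
  have hs : (fun r : ℝ => r + u) ⁻¹' Set.Ioi (2 * u) = Set.Ioi u := by
    ext r
    simp only [Set.mem_preimage, Set.mem_Ioi]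
    constructor <;> intro h <;> linarith
  constructor
  · have := (hp.integrableOn_comp_preimage he (f := fun r => hk r 0) (s := Set.Ioi (2 * u))).2
      (integrableOn_hk_Ioi (by linarith) 0)
    rw [hs] at this
    exact this
  · have := hp.setIntegral_preimage_emb he (fun r => hk r 0) (Set.Ioi (2 * u))
    rw [hs] at this
    rw [VV_eq (by linarith), this]

theorem fb_diag {B u : ℝ} (h0 : 0 < u) (h1 : u < B) (z0 y : E) :
    ∫ z, th (B - u) (z - z0) * (VV u (y - z) * hk u (y - z)) ≤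
      √(B / (B - u)) ^ 3 * th B (y - z0) * VV (2 * u) 0 := by
  have hb : 0 < B - u := by linarith
  have hB : 0 < B := by linarith
  set F : E → ℝ → ℝ := fun z r => th (B - u) (z - z0) * (hk r (y - z) * hk u (y - z)) with hF
  have hF0 : ∀ z r, 0 ≤ F z r := fun z r =>
    mul_nonneg (th_pos hb _).le (mul_nonneg (hk_nonneg _ _) (hk_nonneg _ _))
  have hmeas : Measurable (Function.uncurry F) := by
    refine Measurable.mul ?_ (Measurable.mul ?_ ?_)
    · exact ((continuous_th hb).comp (continuous_fst.sub continuous_const)).measurable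
    · exact measurable_hk.comp (measurable_snd.prodMk (measurable_const.sub measurable_fst))
    · exact ((continuous_hk u).comp (continuous_const.sub continuous_fst)).measurable
  have hin : ∀ r, u < r → Integrable (fun z => F z r) ∧
      ∫ z, F z r ≤ √(B / (B - u)) ^ 3 * th B (y - z0) * hk (r + u) 0 := by
    intro r hr
    have hr0 : 0 < r := h0.trans hr
    have hw : 0 < r * u / (r + u) := by positivity
    have hw1 : r * u / (r + u) ≤ u := by
      rw [div_le_iff₀ (by positivity)]; nlinarith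
    have e : ∀ z, F z r = hk (r + u) 0 * (th (B - u) (z - z0) * hk (r * u / (r + u)) (y - z)) := by
      intro z
      simp only [hF]
      rw [hk_mul_hk hr0 h0]
      ring
    simp_rw [e]
    refine ⟨(fb_int (integrable_th hb) (fb_Bd_hk.shift y) hw z0).const_mul _, ?_⟩
    rw [integral_const_mul, th_conv hb hw, mul_comm]
    refine mul_le_mul_of_nonneg_right ?_ (hk_nonneg _ _)
    refine (th_le_th (B := B) (by linarith) (by linarith) _).trans ?_
    have := (th_pos hB (y - z0)).le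
    gcongr
    linarith
  obtain ⟨s1, s2⟩ := fb_shift h0
  have hg : Integrable (fun r => √(B / (B - u)) ^ 3 * th B (y - z0) * hk (r + u) 0)
      (volume.restrict (Set.Ioi u)) := s1.const_mul _
  have hae : ∀ᵐ r ∂(volume.restrict (Set.Ioi u)), u < r := ae_restrict_mem measurableSet_Ioi
  have hint : Integrable (Function.uncurry F) (volume.prod (volume.restrict (Set.Ioi u))) := by
    rw [integrable_prod_iff' hmeas.aestronglyMeasurable]
    refine ⟨hae.mono fun r hr => (hin r hr).1, hg.mono' ?_ (hae.mono fun r hr => ?_)⟩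
    · exact hmeas.stronglyMeasurable.norm.integral_prod_left'.aestronglyMeasurable
    · have e : ∀ z, ‖Function.uncurry F (z, r)‖ = F z r := fun z => abs_of_nonneg (hF0 z r)
      simp_rw [e]
      rw [Real.norm_eq_abs, abs_of_nonneg (integral_nonneg fun z => hF0 z r)]
      exact (hin r hr).2
  have e2 : ∀ z, th (B - u) (z - z0) * (VV u (y - z) * hk u (y - z)) =
      4 * π * ∫ r in Set.Ioi u, F z r := by
    intro z
    simp only [hF]
    rw [integral_const_mul, integral_mul_const, VV_eq h0]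
    ring
  simp_rw [e2]
  rw [integral_const_mul, integral_integral_swap hint, ← s2]
  have h5 : ∫ r in Set.Ioi u, ∫ z, F z r ≤
      ∫ r in Set.Ioi u, √(B / (B - u)) ^ 3 * th B (y - z0) * hk (r + u) 0 :=
    integral_mono_ae hint.integral_prod_right hg (hae.mono fun r hr => (hin r hr).2)
  rw [integral_const_mul] at h5
  have := mul_le_mul_of_nonneg_left h5 (by positivity : 0 ≤ 4 * π)
  linarith

end Pool.Agent.Lib.MP_0655ed_mp
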