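import Pool.Agent.Lib.MP_0655ed_mp.ImpDefs

open Finset MeasureTheory Real Filter Topology

namespace Pool.Agent.Lib.MP_0655ed_mp

theorem r2_nonneg (x : E) : 0 ≤ r2 x := Finset.sum_nonneg fun _ _ => sq_nonneg _
theorem r2_neg (x : E) : r2 (-x) = r2 x := by simp [r2]
theorem contDiff_r2 : ContDiff ℝ (⊤ : ℕ∞) r2 := by
  unfold r2
  exact ContDiff.sum fun k _ => (contDiff_apply ℝ ℝ k).pow 2
theorem norm_sq_le_r2 (x : E) : ‖x‖ ^ 2 ≤ r2 x := by
  have h : ‖x‖ ≤ √(r2 x) := by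
    rw [pi_norm_le_iff_of_nonneg (sqrt_nonneg _)]
    intro k
    rw [Real.norm_eq_abs]
    apply Real.abs_le_sqrt
    exact Finset.single_le_sum (f := fun k => x k ^ 2) (fun _ _ => sq_nonneg _) (mem_univ k)
  calc ‖x‖ ^ 2 ≤ √(r2 x) ^ 2 := by gcongr
    _ = r2 x := Real.sq_sqrt (r2_nonneg x)
theorem r2_le (x : E) : r2 x ≤ 3 * ‖x‖ ^ 2 := by
  have h : ∀ k, x k ^ 2 ≤ ‖x‖ ^ 2 := by
    intro k
    have h1 : |x k| ≤ ‖x‖ := by simpa using norm_le_pi_norm x k
    calc x k ^ 2 = |x k| ^ 2 := (sq_abs _).symm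
      _ ≤ ‖x‖ ^ 2 := by gcongr
  unfold r2
  rw [Fin.sum_univ_three]
  linarith [h 0, h 1, h 2]
theorem vk_eq (x : E) : vk x = (√(r2 x))⁻¹ := rfl
theorem hasDerivAt_r2_line (x : E) (k : Fin 3) :
    HasDerivAt (fun s : ℝ => r2 (x + s • ee k)) (2 * x k) 0 := by
  have h : (fun s : ℝ => r2 (x + s • ee k)) = fun s => r2 x + 2 * x k * s + s ^ 2 := by
    funext s
    unfold r2 ee
    fin_cases k <;> simp [Fin.sum_univ_three] <;> ring
  rw [h]
  have h1 := (((hasDerivAt_id (0 : ℝ)).const_mul (2 * x k)).const_add (r2 x)).add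
    (hasDerivAt_pow 2 (0 : ℝ))
  refine HasDerivAt.congr_deriv h1 ?_
  simp

theorem gs_r2_zero : r2 0 = 0 := by simp [r2]

theorem gs_sq_pos {u : ℝ} (hu : 0 < u) : 0 < √(4 * π * u) :=
  Real.sqrt_pos.2 (by positivity)

theorem hk_pos {u : ℝ} (hu : 0 < u) (x : E) : 0 < hk u x := by
  unfold hk
  have := gs_sq_pos hu
  positivity
theorem hk_nonneg (u : ℝ) (x : E) : 0 ≤ hk u x := by
  unfold hk
  positivity
theorem hk_neg (u : ℝ) (x : E) : hk u (-x) = hk u x := by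
  unfold hk
  rw [r2_neg]
theorem hk_sub_comm (u : ℝ) (x y : E) : hk u (x - y) = hk u (y - x) := by
  rw [← hk_neg, neg_sub]
theorem hk_zero (u : ℝ) : hk u 0 = (√(4 * π * u))⁻¹ ^ 3 := by
  unfold hk
  simp [gs_r2_zero]
theorem gs_hk_eq (u : ℝ) (x : E) : hk u x = hk u 0 * exp (-r2 x / (4 * u)) := by
  rw [hk_zero]; rfl
theorem hk_le_zero {u : ℝ} (hu : 0 < u) (x : E) : hk u x ≤ hk u 0 := by
  rw [gs_hk_eq u x]
  apply mul_le_of_le_one_right (hk_nonneg _ _)
  rw [Real.exp_le_one_iff]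
  apply div_nonpos_of_nonpos_of_nonneg
  · linarith [r2_nonneg x]
  · positivity
theorem hk_zero_le {u : ℝ} (hu : 0 < u) : hk u 0 ≤ (√u)⁻¹ ^ 3 := by
  rw [hk_zero]
  have h1 : 0 < √u := Real.sqrt_pos.2 hu
  have h2 : √u ≤ √(4 * π * u) := by
    apply Real.sqrt_le_sqrt
    nlinarith [Real.pi_gt_three]
  gcongr
theorem hk_zero_anti {u w : ℝ} (hu : 0 < u) (h : u ≤ w) : hk w 0 ≤ hk u 0 := by
  rw [hk_zero, hk_zero]
  have h1 := gs_sq_pos hu
  have h2 : √(4 * π * u) ≤ √(4 * π * w) := by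
    apply Real.sqrt_le_sqrt
    have := Real.pi_pos
    gcongr
  gcongr
theorem contDiff_hk (u : ℝ) : ContDiff ℝ (⊤ : ℕ∞) (hk u) := by
  unfold hk
  exact contDiff_const.mul ((contDiff_r2.neg.div_const _).exp)
theorem continuous_hk (u : ℝ) : Continuous (hk u) := (contDiff_hk u).continuous
theorem measurable_hk : Measurable fun p : ℝ × E => hk p.1 p.2 := by
  unfold hk
  have h : Measurable fun p : ℝ × E => r2 p.2 :=
    contDiff_r2.continuous.measurable.comp measurable_snd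
  fun_prop
theorem continuousOn_hk : ContinuousOn (fun p : ℝ × E => hk p.1 p.2) (Set.Ioi 0 ×ˢ Set.univ) := by
  unfold hk
  have h : Continuous fun p : ℝ × E => r2 p.2 := contDiff_r2.continuous.comp continuous_snd
  refine ContinuousOn.mul (ContinuousOn.pow (ContinuousOn.inv₀ (by fun_prop) ?_) 3) ?_
  · intro p hp
    exact (gs_sq_pos hp.1).ne'
  · refine ContinuousOn.rexp (ContinuousOn.div h.neg.continuousOn (by fun_prop) ?_)
    intro p hp
    have : (0 : ℝ) < p.1 := hp.1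
    positivity

theorem gs_prod (u : ℝ) (x : E) :
    hk u x = ∏ k, ((√(4 * π * u))⁻¹ * exp (-(1 / (4 * u)) * x k ^ 2)) := by
  unfold hk r2
  rw [Fin.prod_univ_three, Fin.sum_univ_three]
  have : -(x 0 ^ 2 + x 1 ^ 2 + x 2 ^ 2) / (4 * u) = -(1 / (4 * u)) * x 0 ^ 2 +
      -(1 / (4 * u)) * x 1 ^ 2 + -(1 / (4 * u)) * x 2 ^ 2 := by ring
  rw [this, Real.exp_add, Real.exp_add]
  ring

theorem integrable_hk {u : ℝ} (hu : 0 < u) : Integrable (hk u) := by
  have h : hk u = fun x : E => ∏ k, ((√(4 * π * u))⁻¹ * exp (-(1 / (4 * u)) * x k ^ 2)) :=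
    funext (gs_prod u)
  rw [h]
  exact Integrable.fintype_prod
    (f := fun (_ : Fin 3) (t : ℝ) => (√(4 * π * u))⁻¹ * exp (-(1 / (4 * u)) * t ^ 2))
    (fun _ => (integrable_exp_neg_mul_sq (by positivity)).const_mul _)
theorem integral_hk {u : ℝ} (hu : 0 < u) : ∫ x, hk u x = 1 := by
  simp_rw [gs_prod u]
  rw [integral_fintype_prod_volume_eq_prod
    (fun (_ : Fin 3) (t : ℝ) => (√(4 * π * u))⁻¹ * exp (-(1 / (4 * u)) * t ^ 2))]
  apply Finset.prod_eq_one
  intro k _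
  rw [integral_const_mul, integral_gaussian]
  have : π / (1 / (4 * u)) = 4 * π * u := by field_simp
  rw [this]
  exact inv_mul_cancel₀ (gs_sq_pos hu).ne'

theorem gs_square {a b : ℝ} (ha : 0 < a) (hb : 0 < b) (x y z : E) :
    hk a (z - x) * hk b (y - z) = hk (a + b) (y - x) *
      hk (a * b / (a + b)) (z - (a + b)⁻¹ • (b • x + a • y)) := by
  have hab : 0 < a + b := by positivity
  have h1 : √(4 * π * a) * √(4 * π * b) =
      √(4 * π * (a + b)) * √(4 * π * (a * b / (a + b))) := by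
    rw [← Real.sqrt_mul (by positivity), ← Real.sqrt_mul (by positivity)]
    congr 1
    field_simp
  have h2 : -r2 (z - x) / (4 * a) + -r2 (y - z) / (4 * b) = -r2 (y - x) / (4 * (a + b)) +
      -r2 (z - (a + b)⁻¹ • (b • x + a • y)) / (4 * (a * b / (a + b))) := by
    unfold r2
    simp only [Fin.sum_univ_three, Pi.sub_apply, Pi.add_apply, Pi.smul_apply, smul_eq_mul]
    field_simp
    ring
  unfold hk
  calc _ = (√(4 * π * a) * √(4 * π * b))⁻¹ ^ 3 *
        exp (-r2 (z - x) / (4 * a) + -r2 (y - z) / (4 * b)) := by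
        rw [Real.exp_add, mul_inv, mul_pow]; ring
    _ = _ := by
        rw [h1, h2, Real.exp_add, mul_inv, mul_pow]; ring

theorem hk_conv {a b : ℝ} (ha : 0 < a) (hb : 0 < b) (x y : E) :
    ∫ z, hk a (z - x) * hk b (y - z) = hk (a + b) (y - x) := by
  simp_rw [gs_square ha hb x y]
  rw [integral_const_mul, integral_sub_right_eq_self (fun z => hk (a * b / (a + b)) z),
    integral_hk (by positivity), mul_one]

theorem gs_ratio {u w : ℝ} (hu : 0 < u) (hw : 0 < w) (x : E) :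
    hk u x = √(w / u) ^ 3 * hk w x * exp (r2 x / (4 * w) - r2 x / (4 * u)) := by
  have h1 : (√(4 * π * u))⁻¹ = √(w / u) * (√(4 * π * w))⁻¹ := by
    have h2 : √(4 * π * w) = √(w / u) * √(4 * π * u) := by
      rw [← Real.sqrt_mul (by positivity)]
      congr 1
      field_simp
    have h3 : 0 < √(w / u) := Real.sqrt_pos.2 (by positivity)
    have h4 := gs_sq_pos hu
    rw [h2]
    field_simp
  have h5 : exp (-r2 x / (4 * u)) =
      exp (-r2 x / (4 * w)) * exp (r2 x / (4 * w) - r2 x / (4 * u)) := by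
    rw [← Real.exp_add]
    congr 1
    ring
  unfold hk
  rw [h1, h5]
  ring

theorem hk_le_hk {u w : ℝ} (hu : 0 < u) (h : u ≤ w) (x : E) :
    hk u x ≤ √(w / u) ^ 3 * hk w x := by
  have hw : 0 < w := hu.trans_le h
  rw [gs_ratio hu hw x]
  apply mul_le_of_le_one_right (mul_nonneg (by positivity) (hk_nonneg _ _))
  rw [Real.exp_le_one_iff, sub_nonpos]
  have := r2_nonneg x
  gcongr
theorem hk_mul_hk {r u : ℝ} (hr : 0 < r) (hu : 0 < u) (x : E) :
    hk r x * hk u x = hk (r + u) 0 * hk (r * u / (r + u)) x := by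
  have := gs_square hr hu 0 0 x
  simpa [hk_neg] using this

theorem gs_sqrt_two : √2 ^ 3 ≤ (2.84 : ℝ) := by
  have h : √2 ≤ (1.415 : ℝ) := by
    rw [Real.sqrt_le_iff]; norm_num
  calc √2 ^ 3 ≤ (1.415 : ℝ) ^ 3 := by gcongr
    _ ≤ 2.84 := by norm_num

theorem gs_double {u : ℝ} (hu : 0 < u) (x : E) :
    hk u x = √2 ^ 3 * hk (2 * u) x * exp (-(r2 x / (8 * u))) := by
  rw [gs_ratio hu (by positivity : 0 < 2 * u) x]
  have h1 : 2 * u / u = 2 := by field_simp
  have h2 : r2 x / (4 * (2 * u)) - r2 x / (4 * u) = -(r2 x / (8 * u)) := by ring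
  rw [h1, h2]

theorem r2_mul_hk {u : ℝ} (hu : 0 < u) (x : E) : r2 x * hk u x ≤ 24 * u * hk (2 * u) x := by
  rw [gs_double hu x]
  have h1 : r2 x / (8 * u) * exp (-(r2 x / (8 * u))) ≤ 1 := by
    rw [Real.exp_neg, ← div_eq_mul_inv, div_le_one (Real.exp_pos _)]
    linarith [Real.add_one_le_exp (r2 x / (8 * u))]
  have h2 := hk_nonneg (2 * u) x
  have h3 := gs_sqrt_two
  calc r2 x * (√2 ^ 3 * hk (2 * u) x * exp (-(r2 x / (8 * u))))
      = √2 ^ 3 * (8 * u * hk (2 * u) x) * (r2 x / (8 * u) * exp (-(r2 x / (8 * u)))) := by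
        field_simp
    _ ≤ √2 ^ 3 * (8 * u * hk (2 * u) x) := mul_le_of_le_one_right (by positivity) h1
    _ ≤ 3 * (8 * u * hk (2 * u) x) := by gcongr; linarith
    _ = 24 * u * hk (2 * u) x := by ring
theorem hasDerivAt_hk_time {u : ℝ} (hu : 0 < u) (x : E) :
    HasDerivAt (fun u => hk u x) (hkt u x) u := by
  have hs := gs_sq_pos hu
  have hss : √(4 * π * u) ^ 2 = 4 * π * u := Real.sq_sqrt (by positivity)
  have h1 : HasDerivAt (fun u : ℝ => 4 * π * u) (4 * π) u := by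
    simpa using (hasDerivAt_id u).const_mul (4 * π)
  have h2 := ((h1.sqrt (by positivity)).inv hs.ne').pow 3
  have h3 : HasDerivAt (fun u : ℝ => 4 * u) 4 u := by
    simpa using (hasDerivAt_id u).const_mul 4
  have h4 := ((hasDerivAt_const u (-r2 x)).div h3 (by positivity)).exp
  have h5 := h2.mul h4
  refine HasDerivAt.congr_deriv h5 ?_
  unfold hkt hk
  simp only [Pi.inv_apply, Pi.pow_apply, Pi.div_apply, Nat.add_one_sub_one, Nat.cast_ofNat]
  generalize √(4 * π * u) = s at hs hss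
  have hπ : π = s ^ 2 / (4 * u) := by rw [hss]; field_simp
  rw [hπ]
  field_simp
  ring
theorem hasDerivAt_hk_line (u : ℝ) (x : E) (k : Fin 3) :
    HasDerivAt (fun s : ℝ => hk u (x + s • ee k)) (-(x k / (2 * u)) * hk u x) 0 := by
  have h1 := (((hasDerivAt_r2_line x k).neg.div_const (4 * u)).exp).const_mul
    ((√(4 * π * u))⁻¹ ^ 3)
  refine HasDerivAt.congr_deriv h1 ?_
  unfold hk
  simp only [Pi.neg_apply, zero_smul, add_zero]
  ring
theorem contDiff_sqrt_hk {u : ℝ} (hu : 0 < u) : ContDiff ℝ (⊤ : ℕ∞) fun x => √(hk u x) :=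
  (contDiff_hk u).sqrt fun x => (hk_pos hu x).ne'

theorem gs_fderiv_line {f : E → ℝ} {x v : E} (hf : DifferentiableAt ℝ f x) {c : ℝ}
    (h : HasDerivAt (fun s : ℝ => f (x + s • v)) c 0) : fderiv ℝ f x v = c := by
  have h1 : HasLineDerivAt ℝ f (fderiv ℝ f x v) x v := hf.hasFDerivAt.hasLineDerivAt v
  exact HasDerivAt.unique h1 h

theorem grad_sqrt_hk {u : ℝ} (hu : 0 < u) (x : E) :
    ∑ k, fderiv ℝ (fun x => √(hk u x)) x (ee k) ^ 2 ≤ 2 * hk (2 * u) x / u := by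
  have hp := hk_pos hu x
  have hd : DifferentiableAt ℝ (fun x => √(hk u x)) x :=
    (contDiff_sqrt_hk hu).differentiable (by simp) x
  have h1 : ∀ k, fderiv ℝ (fun x => √(hk u x)) x (ee k) ^ 2 =
      x k ^ 2 * (hk u x / (16 * u ^ 2)) := by
    intro k
    have h2 := (hasDerivAt_hk_line u x k).sqrt (by simpa using hp.ne')
    rw [gs_fderiv_line hd h2]
    simp only [zero_smul, add_zero]
    have h3 : 0 < √(hk u x) := Real.sqrt_pos.2 hp
    have h4 : √(hk u x) ^ 2 = hk u x := Real.sq_sqrt hp.le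
    generalize √(hk u x) = s at h3 h4
    rw [← h4]
    field_simp
    ring
  simp_rw [h1]
  rw [← Finset.sum_mul]
  have h5 := r2_mul_hk hu x
  have h6 := hk_nonneg (2 * u) x
  calc (∑ k, x k ^ 2) * (hk u x / (16 * u ^ 2)) = r2 x * hk u x / (16 * u ^ 2) := by
        unfold r2; ring
    _ ≤ 24 * u * hk (2 * u) x / (16 * u ^ 2) := by gcongr
    _ = 3 / 2 * hk (2 * u) x / u := by field_simp; ring
    _ ≤ 2 * hk (2 * u) x / u := by gcongr; norm_num
theorem hk_far : ∃ C : ℝ, 0 < C ∧ ∀ u, 0 < u → u ≤ 1 / 24 → ∀ x, 1 ≤ r2 x →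
    hk u x ≤ C * √u ^ 5 * hk (1 / 12) x := by
  refine ⟨24 * 8 ^ 4, by norm_num, ?_⟩
  intro u hu hu' x hx
  rw [gs_ratio hu (by norm_num : (0 : ℝ) < 1 / 12) x]
  have hs : 0 < √u := Real.sqrt_pos.2 hu
  have hss : √u ^ 2 = u := Real.sq_sqrt hu.le
  have h1 : √(1 / 12 / u) ≤ (√u)⁻¹ := by
    rw [← Real.sqrt_inv]
    apply Real.sqrt_le_sqrt
    rw [div_eq_mul_inv]
    apply mul_le_of_le_one_left (by positivity)
    norm_num
  have h2 : 3 ≤ 1 / (8 * u) := by
    rw [le_div_iff₀ (by positivity)]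
    linarith
  have h3 : r2 x / (4 * (1 / 12)) - r2 x / (4 * u) ≤ -(1 / (8 * u)) := by
    have e1 : r2 x / (4 * (1 / 12)) - r2 x / (4 * u) =
        r2 x * (3 - 1 / (8 * u)) - r2 x * (1 / (8 * u)) := by ring
    rw [e1]
    have h4 : 0 < 1 / (8 * u) := by positivity
    nlinarith
  have h4 : exp (-(1 / (8 * u))) ≤ 24 * (8 * u) ^ 4 := by
    have h5 := Real.pow_div_factorial_le_exp (1 / (8 * u)) (by positivity) 4
    rw [Real.exp_neg, inv_le_comm₀ (Real.exp_pos _) (by positivity)]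
    refine le_trans (le_of_eq ?_) h5
    simp only [Nat.factorial]
    field_simp
    norm_num
  have h6 := hk_nonneg (1 / 12) x
  calc √(1 / 12 / u) ^ 3 * hk (1 / 12) x * exp (r2 x / (4 * (1 / 12)) - r2 x / (4 * u))
      ≤ (√u)⁻¹ ^ 3 * hk (1 / 12) x * (24 * (8 * u) ^ 4) := by
        gcongr
        exact (Real.exp_le_exp.2 h3).trans h4
    _ = 24 * 8 ^ 4 * √u ^ 5 * hk (1 / 12) x := by
        generalize √u = s at hs hss
        rw [← hss]
        field_simp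
theorem hk_grow {b : ℝ} (hb : 0 < b) (hb' : b ≤ 1 / 24) {x : E} (hx : 1 ≤ r2 x) :
    (1 + 6 * b) * hk (1 / 12) x ≤ hk (1 / 12 + b) x := by
  rw [gs_ratio (by positivity : 0 < 1 / 12 + b) (by norm_num : (0 : ℝ) < 1 / 12) x]
  have h1 : exp (-(6 * b)) ≤ √(1 / 12 / (1 / 12 + b)) := by
    apply Real.le_sqrt_of_sq_le
    rw [← Real.exp_nat_mul, le_div_iff₀ (by positivity)]
    have h2 := Real.add_one_le_exp (12 * b)
    have h3 : exp ((2 : ℕ) * -(6 * b)) * exp (12 * b) = 1 := by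
      rw [← Real.exp_add]; push_cast; ring_nf; simp
    have h4 := Real.exp_pos ((2 : ℕ) * -(6 * b))
    have h8 := mul_le_mul_of_nonneg_left h2 h4.le
    rw [h3] at h8
    generalize exp ((2 : ℕ) * -(6 * b)) = q at h8 ⊢
    linarith
  have h5 : 24 * b ≤ r2 x / (4 * (1 / 12)) - r2 x / (4 * (1 / 12 + b)) := by
    have e1 : r2 x / (4 * (1 / 12)) - r2 x / (4 * (1 / 12 + b)) =
        r2 x * (36 * b / (1 + 12 * b)) := by field_simp; ring
    have h6 : 24 * b ≤ 36 * b / (1 + 12 * b) := by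
      rw [le_div_iff₀ (by positivity)]
      nlinarith
    rw [e1]
    nlinarith
  have h7 := hk_nonneg (1 / 12) x
  calc (1 + 6 * b) * hk (1 / 12) x ≤ exp (6 * b) * hk (1 / 12) x := by
        gcongr
        linarith [Real.add_one_le_exp (6 * b)]
    _ = exp (-(6 * b)) ^ 3 * hk (1 / 12) x * exp (24 * b) := by
        rw [← Real.exp_nat_mul, mul_right_comm, ← Real.exp_add]
        congr 2
        push_cast
        ring
    _ ≤ _ := by gcongr
theorem hk_cmp : ∃ C : ℝ, 0 < C ∧ ∀ r, 1 ≤ r → r ≤ 2 → ∀ x d : E, ‖d‖ ≤ 3 →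
    hk (1 / 32) x ≤ C * hk r (x + d) := by
  have hp1 := hk_pos (by norm_num : (0 : ℝ) < 1 / 32) 0
  have hp2 := hk_pos (by norm_num : (0 : ℝ) < 2) 0
  refine ⟨hk (1 / 32) 0 / hk 2 0 * exp (27 / 2), by positivity, ?_⟩
  intro r hr hr' x d hd
  have h1 : r2 (x + d) ≤ 2 * r2 x + 2 * r2 d := by
    unfold r2
    simp only [Fin.sum_univ_three, Pi.add_apply]
    nlinarith [sq_nonneg (x 0 - d 0), sq_nonneg (x 1 - d 1), sq_nonneg (x 2 - d 2)]
  have h2 : r2 d ≤ 27 := by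
    have h3 := r2_le d
    have h4 : ‖d‖ ^ 2 ≤ 3 ^ 2 := by gcongr
    linarith
  have h5 := r2_nonneg x
  have h6 := r2_nonneg (x + d)
  have h7 : -r2 x / (4 * (1 / 32)) ≤ 27 / 2 + -r2 (x + d) / (4 * r) := by
    have h8 : r2 (x + d) / (4 * r) ≤ r2 (x + d) / 4 := by
      gcongr
      linarith
    have h10 : r2 x / (4 * (1 / 32)) = 8 * r2 x := by ring
    rw [neg_div, neg_div, h10]
    linarith
  have h9 : hk 2 0 ≤ hk r 0 := hk_zero_anti (by linarith) hr'
  rw [gs_hk_eq (1 / 32) x, gs_hk_eq r (x + d)]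
  calc hk (1 / 32) 0 * exp (-r2 x / (4 * (1 / 32)))
      ≤ hk (1 / 32) 0 * exp (27 / 2 + -r2 (x + d) / (4 * r)) := by gcongr
    _ = hk (1 / 32) 0 / hk 2 0 * exp (27 / 2) * (hk 2 0 * exp (-r2 (x + d) / (4 * r))) := by
        rw [Real.exp_add]
        field_simp
    _ ≤ _ := by gcongr
theorem hk_tail {w : ℝ} (hw : 0 < w) (hw' : w ≤ 1 / 16) {x : E} (hx : 1 ≤ r2 x) :
    hk w x ≤ 2 / 5 * hk (2 * w) x := by
  rw [gs_double hw x]
  have h1 : 2 ≤ r2 x / (8 * w) := by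
    rw [le_div_iff₀ (by positivity)]
    linarith
  have h2 : exp (-(r2 x / (8 * w))) ≤ 1 / 7.1 := by
    rw [Real.exp_neg, one_div]
    apply inv_anti₀ (by norm_num)
    have h3 : exp 2 = exp 1 * exp 1 := by rw [← Real.exp_add]; norm_num
    have h4 := Real.exp_one_gt_d9
    calc (7.1 : ℝ) ≤ exp 1 * exp 1 := by nlinarith
      _ = exp 2 := h3.symm
      _ ≤ _ := Real.exp_le_exp.2 h1
  have h5 := hk_nonneg (2 * w) x
  have h6 := gs_sqrt_two
  calc √2 ^ 3 * hk (2 * w) x * exp (-(r2 x / (8 * w))) ≤ 2.84 * hk (2 * w) x * (1 / 7.1) := by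
        gcongr
    _ = 2 / 5 * hk (2 * w) x := by ring

end Pool.Agent.Lib.MP_0655ed_mp
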