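import Pool.Agent.Lib.MP_0655ed_mp.ImpTheta

open Finset MeasureTheory Real Filter Topology

namespace Pool.Agent.Lib.MP_0655ed_mp

theorem ga_int_shift {w : ℝ} (hw : 0 < w) (z0 : E) : Integrable fun z => hk w (z - z0) :=
  (integrable_hk hw).comp_sub_right z0

theorem ga_integral_shift {w : ℝ} (hw : 0 < w) (z0 : E) : ∫ z, hk w (z - z0) = 1 := by
  rw [integral_sub_right_eq_self (hk w) z0, integral_hk hw]

theorem ga_int {w : ℝ} (hw : 0 < w) {m : E → ℝ} (hm : Continuous m) {M : ℝ}
    (hM : ∀ z, |m z| ≤ M) (z0 : E) : Integrable fun z => hk w (z - z0) * m z :=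
  (ga_int_shift hw z0).mul_bdd hm.aestronglyMeasurable (ae_of_all _ hM)

theorem ga_int_const {w : ℝ} (hw : 0 < w) (S : ℝ) (z0 : E) : ∫ z, hk w (z - z0) * S = S := by
  rw [integral_mul_const, ga_integral_shift hw, one_mul]

/-- averaging a bounded continuous function against `th` -/
theorem integral_th_mul {a : ℝ} (ha : 0 < a) {m : E → ℝ} (hm : Continuous m) {M : ℝ}
    (hM : ∀ z, |m z| ≤ M) (z0 : E) :
    IntegrableOn (fun r => exp (-r) * gav (a + r) m z0) (Set.Ioi 0) ∧
    ∫ z, th a (z - z0) * m z = ∫ r in Set.Ioi (0 : ℝ), exp (-r) * gav (a + r) m z0 := by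
  have hmeas : Measurable fun p : ℝ × E => exp (-p.1) * hk (a + p.1) (p.2 - z0) :=
    (by fun_prop : Measurable fun p : ℝ × E => exp (-p.1)).mul
      (measurable_hk.comp (f := fun p : ℝ × E => (a + p.1, p.2 - z0)) (by fun_prop))
  have h1 : Integrable (fun p : ℝ × E => exp (-p.1) * hk (a + p.1) (p.2 - z0))
      ((volume.restrict (Set.Ioi (0 : ℝ))).prod volume) := by
    rw [integrable_prod_iff hmeas.aestronglyMeasurable]
    constructor
    · filter_upwards [ae_restrict_mem measurableSet_Ioi] with r hr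
      exact (ga_int_shift (add_pos ha hr) z0).const_mul _
    · refine (integrableOn_exp_neg_Ioi 0).congr ?_
      filter_upwards [ae_restrict_mem measurableSet_Ioi] with r hr
      have : ∀ z : E, ‖exp (-r) * hk (a + r) (z - z0)‖ = exp (-r) * hk (a + r) (z - z0) :=
        fun z => Real.norm_of_nonneg (mul_nonneg (exp_pos _).le (hk_nonneg _ _))
      simp only [this]
      rw [integral_const_mul, ga_integral_shift (add_pos ha hr), mul_one]
  have h2 : Integrable (fun p : ℝ × E => exp (-p.1) * hk (a + p.1) (p.2 - z0) * m p.2)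
      ((volume.restrict (Set.Ioi (0 : ℝ))).prod volume) :=
    h1.mul_bdd (hm.comp continuous_snd).aestronglyMeasurable (ae_of_all _ fun p => hM p.2)
  have h3 : ∀ r : ℝ, ∫ z, exp (-r) * hk (a + r) (z - z0) * m z = exp (-r) * gav (a + r) m z0 := by
    intro r
    unfold gav
    rw [← integral_const_mul]
    simp only [mul_assoc]
  constructor
  · have := h2.integral_prod_left
    simp only [h3] at this
    exact this
  · have := integral_integral_swap
      (f := fun (r : ℝ) (z : E) => exp (-r) * hk (a + r) (z - z0) * m z) h2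
    simp only [h3] at this
    rw [this]
    refine integral_congr_ae (ae_of_all _ fun z => ?_)
    simp only
    rw [integral_mul_const, th_eq]

theorem continuous_gav {w : ℝ} (hw : 0 < w) {m : E → ℝ} (hm : Continuous m) {M : ℝ}
    (hM : ∀ z, |m z| ≤ M) : Continuous (gav w m) := by
  have h1 : gav w m = fun z0 => ∫ z, hk w z * m (z + z0) := by
    funext z0
    unfold gav
    rw [← integral_add_right_eq_self (fun z => hk w (z - z0) * m z) z0]
    simp only [add_sub_cancel_right]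
  rw [h1]
  refine continuous_of_dominated (bound := fun z => hk w z * M) (fun z0 => ?_)
    (fun z0 => ae_of_all _ fun z => ?_) ((integrable_hk hw).mul_const M) (ae_of_all _ fun z => ?_)
  · exact ((continuous_hk w).mul (hm.comp (continuous_add_const z0))).aestronglyMeasurable
  · rw [Real.norm_eq_abs, abs_mul, abs_of_nonneg (hk_nonneg _ _)]
    exact mul_le_mul_of_nonneg_left (hM _) (hk_nonneg _ _)
  · exact continuous_const.mul (hm.comp (continuous_const_add z))

theorem gav_gav {a w : ℝ} (ha : 0 < a) (hw : 0 < w) {m : E → ℝ} (hm : Continuous m) {M : ℝ}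
    (hM : ∀ z, |m z| ≤ M) : gav w (gav a m) = gav (a + w) m := by
  funext z0
  have hc : Continuous fun p : E × E => hk w (p.1 - z0) * hk a (p.2 - p.1) :=
    ((continuous_hk w).comp (by fun_prop)).mul ((continuous_hk a).comp (by fun_prop))
  have h1 : Integrable (fun p : E × E => hk w (p.1 - z0) * hk a (p.2 - p.1))
      (volume.prod volume) := by
    rw [integrable_prod_iff hc.aestronglyMeasurable]
    constructor
    · exact ae_of_all _ fun z => (ga_int_shift ha z).const_mul (hk w (z - z0))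
    · refine (ga_int_shift hw z0).congr (ae_of_all _ fun z => ?_)
      have : ∀ y : E, ‖hk w (z - z0) * hk a (y - z)‖ = hk w (z - z0) * hk a (y - z) :=
        fun y => Real.norm_of_nonneg (mul_nonneg (hk_nonneg _ _) (hk_nonneg _ _))
      simp only [this]
      rw [integral_const_mul, ga_integral_shift ha, mul_one]
  have h2 : Integrable (fun p : E × E => hk w (p.1 - z0) * hk a (p.2 - p.1) * m p.2)
      (volume.prod volume) :=
    h1.mul_bdd (hm.comp continuous_snd).aestronglyMeasurable (ae_of_all _ fun p => hM p.2)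
  have h3 := integral_integral_swap
    (f := fun (z y : E) => hk w (z - z0) * hk a (y - z) * m y) h2
  unfold gav
  have h4 : ∀ z : E, hk w (z - z0) * ∫ y, hk a (y - z) * m y =
      ∫ y, hk w (z - z0) * hk a (y - z) * m y := by
    intro z
    rw [← integral_const_mul]
    simp only [mul_assoc]
  simp only [h4]
  rw [h3]
  refine integral_congr_ae (ae_of_all _ fun y => ?_)
  simp only
  rw [integral_mul_const, hk_conv hw ha, add_comm w a]

theorem gav_le {w : ℝ} (hw : 0 < w) {m : E → ℝ} (hm : Continuous m) {M S : ℝ}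
    (hM : ∀ z, |m z| ≤ M) (hS : ∀ z, m z ≤ S) (z0 : E) : gav w m z0 ≤ S := by
  rw [← ga_int_const hw S z0]
  exact integral_mono (ga_int hw hm hM z0) ((ga_int_shift hw z0).mul_const S) fun z =>
    mul_le_mul_of_nonneg_left (hS z) (hk_nonneg _ _)

theorem ga_abs_le {w : ℝ} (hw : 0 < w) {m : E → ℝ} (hm : Continuous m) {M : ℝ}
    (hM : ∀ z, |m z| ≤ M) (z0 : E) : |gav w m z0| ≤ M := by
  rw [abs_le]
  refine ⟨?_, gav_le hw hm hM (fun z => (le_abs_self _).trans (hM z)) z0⟩
  rw [← ga_int_const hw (-M) z0]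
  exact integral_mono ((ga_int_shift hw z0).mul_const _) (ga_int hw hm hM z0) fun z =>
    mul_le_mul_of_nonneg_left (abs_le.mp (hM z)).1 (hk_nonneg _ _)

theorem ga_add_le {a r : ℝ} (ha : 0 < a) (hr : 0 < r) {m : E → ℝ} (hm : Continuous m) {M S : ℝ}
    (hM : ∀ z, |m z| ≤ M) (hS : ∀ z, gav a m z ≤ S) (z0 : E) : gav (a + r) m z0 ≤ S := by
  rw [← gav_gav ha hr hm hM]
  exact gav_le hr (continuous_gav ha hm hM) (ga_abs_le ha hm hM) hS z0

theorem ga_exp_const (S : ℝ) : ∫ r in Set.Ioi (0 : ℝ), exp (-r) * S = S := by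
  rw [integral_mul_const, integral_exp_neg_Ioi_zero, one_mul]

theorem th_av_le {a : ℝ} (ha : 0 < a) {m : E → ℝ} (hm : Continuous m) {M S : ℝ}
    (hM : ∀ z, |m z| ≤ M) (hS : ∀ z, gav a m z ≤ S) (z0 : E) :
    ∫ z, th a (z - z0) * m z ≤ S := by
  obtain ⟨h1, h2⟩ := integral_th_mul ha hm hM z0
  rw [h2, ← ga_exp_const S]
  exact setIntegral_mono_on h1 ((integrableOn_exp_neg_Ioi 0).mul_const S) measurableSet_Ioi
    fun r hr => mul_le_mul_of_nonneg_left (ga_add_le ha hr hm hM hS z0) (exp_pos _).le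

theorem ga_defect {a r : ℝ} (ha : 0 < a) (hr : 0 < r) {m : E → ℝ} (hm : Continuous m) {M : ℝ}
    (hM : ∀ z, |m z| ≤ M) (S : ℝ) (z0 : E) :
    Integrable (fun z => hk r (z - z0) * (S - gav a m z)) ∧
      S - gav (a + r) m z0 = ∫ z, hk r (z - z0) * (S - gav a m z) := by
  have h1 := (ga_int_shift hr z0).mul_const S
  have h2 := ga_int hr (continuous_gav ha hm hM) (ga_abs_le ha hm hM) z0
  simp only [mul_sub]
  refine ⟨h1.sub h2, ?_⟩
  rw [integral_sub h1 h2, ga_int_const hr, ← gav_gav ha hr hm hM]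
  rfl

/-- a near-maximal `th`-average forces a near-maximal Gaussian average at every nearby point -/
theorem spread : ∃ C : ℝ, 0 < C ∧ ∀ a, 0 < a → ∀ m : E → ℝ, Continuous m → ∀ M S Er : ℝ,
    (∀ z, |m z| ≤ M) → (∀ z, gav a m z ≤ S) → ∀ z0 z1 : E, ‖z1 - z0‖ ≤ 3 →
    S - Er ≤ ∫ z, th a (z - z0) * m z → S - C * Er ≤ gav (a + 1 / 32) m z1 := by
  obtain ⟨C, hC, hcmp⟩ := hk_cmp
  refine ⟨C * exp 2, by positivity, fun a ha m hm M S Er hM hS z0 z1 hz hEr => ?_⟩
  obtain ⟨h1, h2⟩ := integral_th_mul ha hm hM z0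
  have hG0 : 0 ≤ S - gav (a + 1 / 32) m z1 :=
    sub_nonneg.mpr (ga_add_le ha (by norm_num) hm hM hS z1)
  have hG : ∀ r, 1 ≤ r → r ≤ 2 → S - gav (a + 1 / 32) m z1 ≤ C * (S - gav (a + r) m z0) := by
    intro r hr hr'
    obtain ⟨i1, e1⟩ := ga_defect ha (by norm_num : (0 : ℝ) < 1 / 32) hm hM S z1
    obtain ⟨i2, e2⟩ := ga_defect ha (by linarith : 0 < r) hm hM S z0
    rw [e1, e2, ← integral_const_mul]
    refine integral_mono i1 (i2.const_mul C) fun z => ?_
    have := hcmp r hr hr' (z - z1) (z1 - z0) hz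
    rw [sub_add_sub_cancel] at this
    simp only
    rw [← mul_assoc]
    exact mul_le_mul_of_nonneg_right this (sub_nonneg.mpr (hS z))
  have hS' : IntegrableOn (fun r : ℝ => exp (-r) * S) (Set.Ioi 0) :=
    (integrableOn_exp_neg_Ioi 0).mul_const S
  have hf : IntegrableOn (fun r : ℝ => exp (-r) * S - exp (-r) * gav (a + r) m z0) (Set.Ioi 0) :=
    hS'.sub h1
  have h3 : ∫ r in Set.Ioi (0 : ℝ), (exp (-r) * S - exp (-r) * gav (a + r) m z0) ≤ Er := by
    rw [integral_sub hS' h1, ga_exp_const, ← h2]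
    linarith
  have hsub : Set.Ioc (1 : ℝ) 2 ⊆ Set.Ioi 0 := fun r hr => lt_trans zero_lt_one hr.1
  have h4 : ∫ r in Set.Ioc (1 : ℝ) 2, (exp (-r) * S - exp (-r) * gav (a + r) m z0) ≤
      ∫ r in Set.Ioi (0 : ℝ), (exp (-r) * S - exp (-r) * gav (a + r) m z0) := by
    refine setIntegral_mono_set hf ?_ hsub.eventuallyLE
    filter_upwards [ae_restrict_mem measurableSet_Ioi] with r hr
    exact sub_nonneg.mpr
      (mul_le_mul_of_nonneg_left (ga_add_le ha hr hm hM hS z0) (exp_pos _).le)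
  have h5 : ∫ _r in Set.Ioc (1 : ℝ) 2, (S - gav (a + 1 / 32) m z1) / (C * exp 2) ≤
      ∫ r in Set.Ioc (1 : ℝ) 2, (exp (-r) * S - exp (-r) * gav (a + r) m z0) := by
    refine setIntegral_mono_on (integrableOn_const (by simp)) (hf.mono_set hsub) measurableSet_Ioc
      fun r hr => ?_
    have h6 := hG r hr.1.le hr.2
    have h7 : 0 ≤ S - gav (a + r) m z0 :=
      sub_nonneg.mpr (ga_add_le ha (hsub hr) hm hM hS z0)
    have h8 : 1 ≤ exp (-r) * exp 2 := by
      rw [← exp_add]
      exact one_le_exp (by linarith [hr.2])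
    rw [div_le_iff₀ (by positivity), ← mul_sub]
    calc S - gav (a + 1 / 32) m z1 ≤ C * (S - gav (a + r) m z0) * 1 := by linarith
      _ ≤ C * (S - gav (a + r) m z0) * (exp (-r) * exp 2) :=
        mul_le_mul_of_nonneg_left h8 (by positivity)
      _ = exp (-r) * (S - gav (a + r) m z0) * (C * exp 2) := by ring
  have h9 : ∫ _r in Set.Ioc (1 : ℝ) 2, (S - gav (a + 1 / 32) m z1) / (C * exp 2) =
      (S - gav (a + 1 / 32) m z1) / (C * exp 2) := by
    rw [setIntegral_const, Real.volume_real_Ioc]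
    norm_num
  have h10 : (S - gav (a + 1 / 32) m z1) / (C * exp 2) ≤ Er := by linarith
  rw [div_le_iff₀ (by positivity)] at h10
  linarith

theorem inbox {a : ℝ} (ha : 0 < a) (ha' : a ≤ 1 / 32) {m g : E → ℝ} (hm : Continuous m)
    (hg : Continuous g) {M S : ℝ} (hm0 : ∀ z, 0 ≤ m z) (hM : ∀ z, m z ≤ M) (hg0 : ∀ z, 0 ≤ g z)
    (hgM : ∀ z, g z ≤ M) (hS : ∀ z, gav a m z ≤ S) (z1 : E) (h : ∀ z, ‖z - z1‖ < 1 → m z ≤ g z) :
    gav (a + 1 / 32) m z1 ≤ gav (a + 1 / 32) g z1 + 2 / 5 * S := by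
  have hM' : ∀ z, |m z| ≤ M := fun z => by rw [abs_of_nonneg (hm0 z)]; exact hM z
  have hG' : ∀ z, |g z| ≤ M := fun z => by rw [abs_of_nonneg (hg0 z)]; exact hgM z
  have hw : 0 < a + 1 / 32 := by linarith
  have hw2 : 0 < 2 * (a + 1 / 32) := by linarith
  have h1 : gav (2 * (a + 1 / 32)) m z1 ≤ S := by
    rw [show 2 * (a + 1 / 32) = a + (a + 1 / 16) by ring]
    exact ga_add_le ha (by linarith) hm hM' hS z1
  have i1 := ga_int hw hm hM' z1
  have i2 := ga_int hw hg hG' z1
  have i3 := (ga_int hw2 hm hM' z1).const_mul (2 / 5)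
  have h2 : gav (a + 1 / 32) m z1 ≤ gav (a + 1 / 32) g z1 + 2 / 5 * gav (2 * (a + 1 / 32)) m z1 := by
    unfold gav
    rw [← integral_const_mul, ← integral_add i2 i3]
    refine integral_mono i1 (i2.add i3) fun z => ?_
    have p1 := hk_nonneg (a + 1 / 32) (z - z1)
    have p2 := hk_nonneg (2 * (a + 1 / 32)) (z - z1)
    simp only
    by_cases hz : ‖z - z1‖ < 1
    · have := mul_le_mul_of_nonneg_left (h z hz) p1
      have := mul_nonneg p2 (hm0 z)
      linarith
    · have h3 : 1 ≤ r2 (z - z1) := by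
        refine le_trans ?_ (norm_sq_le_r2 _)
        exact one_le_pow₀ (not_lt.mp hz)
      have h4 := mul_le_mul_of_nonneg_right (hk_tail hw (by linarith) h3) (hm0 z)
      have := mul_nonneg p1 (hg0 z)
      linarith
  linarith

end Pool.Agent.Lib.MP_0655ed_mp
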