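import Pool.Agent.Lib.MP_0655ed_mp.ImpCv

open Finset MeasureTheory Real Filter Topology

set_option linter.unusedSectionVars false

namespace Pool.Agent.Lib.MP_0655ed_mp

variable {σ Sp : Type} [DecidableEq σ] [Fintype Sp] {P : Species σ Sp} {I mb cm cb : ℝ}

section core
variable {κ : Type} [Fintype κ] [DecidableEq κ]

/-- freeze spin and position of the distinguished particle -/
def mvS (u : Wv (Option κ) Sp) (t : Sp) (z : E) : Wv κ Sp :=
  fun τ x => u (cons t τ) (cons z x)

theorem mv_fubini {U : X κ → ℝ} (hU : LocallyIntegrable U) {u : Wv (Option κ) Sp} (h : Cc u) :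
    (∀ t, Integrable fun z => pot U (mvS u t z)) ∧
      ∑ t, ∫ z, pot U (mvS u t z) = pot (fun x => U (x ∘ some)) u := by
  have h1 := fun τ => integrable_cons (integrable_pot (locInt_rest hU) h τ)
  have h2 : ∀ t τ, Integrable fun z : E => ∫ x, U x * ‖mvS u t z τ x‖ ^ 2 := fun t τ =>
    (h1 (cons t τ)).integral_prod_right
  refine ⟨fun t => integrable_finsetSum _ fun τ _ => h2 t τ, ?_⟩
  unfold pot
  rw [sum_cons, Finset.sum_comm]
  refine Finset.sum_congr rfl fun t _ => ?_
  rw [integral_finsetSum _ fun τ _ => h2 t τ]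
  refine Finset.sum_congr rfl fun τ _ => ?_
  rw [integral_cons (integrable_pot (locInt_rest hU) h _)]
  exact (integral_integral_swap (h1 (cons t τ))).symm

theorem mv_contDiff (z : E) : ContDiff ℝ (⊤ : ℕ∞) fun x : X κ => cons z x := by
  simp only [cons_eq]
  exact (inR κ).contDiff.add contDiff_const

theorem mv_Dv {u : Wv (Option κ) Sp} (h : Nice u) (t : Sp) (z : E) (j : κ) (k : Fin 3) :
    Dv (dir j k) (mvS u t z) = mvS (Dv (dir (some j) k) u) t z := by
  funext τ x
  have := (h.diff (cons t τ) (cons z x)).hasFDerivAt.comp x (hasFDerivAt_consR z x)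
  show fderiv ℝ (u (cons t τ) ∘ fun x => cons z x) x _ = _
  rw [this.fderiv, ContinuousLinearMap.comp_apply, inR_dir]
  rfl

theorem mv_tst {sp : Option κ → σ} {L : ℝ} {ψ : Wv (Option κ) Sp} (hψ : Tst P sp L ψ)
    {F : X (Option κ) → ℝ} (hF : ContDiff ℝ (⊤ : ℕ∞) F)
    (hs : ∀ j k, sp (some j) = sp (some k) → ∀ x, F (x ∘ Equiv.swap (some j) (some k)) = F x)
    (t : Sp) (z : E) : Tst P (fun j => sp (some j)) L (mvS (mulF F ψ) t z) := by
  have hne : ∀ τ x, mvS (mulF F ψ) t z τ x ≠ 0 → ψ (cons t τ) (cons z x) ≠ 0 :=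
    fun τ x hx => right_ne_zero_of_mul hx
  refine ⟨fun τ => (hψ.nice.mulF hF _).1.comp (mv_contDiff z), ?_,
    fun τ x hx i => hψ.spin _ _ (hne τ x hx) (some i), fun i j hij hsp => ?_⟩
  · obtain ⟨r, hr, hs⟩ := hψ.supp
    exact ⟨r, hr, fun τ x hx i => hs _ _ (hne τ x hx) (some i)⟩
  · funext τ x
    have := congrFun (congrFun (hψ.sym (some i) (some j) (by simpa using hij) hsp) (cons t τ))
      (cons z x)
    simp only [rel, mvS, mulF, cons_comp_swap, Pi.smul_apply, smul_eq_mul, hs i j hsp] at this ⊢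
    rw [this]
    ring

theorem mv_en (sp : Option κ → σ) {u : Wv (Option κ) Sp} (h : Nice u) :
    (∀ t, Integrable fun z => en P (fun j => sp (some j)) (mvS u t z)) ∧
      ∑ t, ∫ z, en P (fun j => sp (some j)) (mvS u t z) =
        en P sp u - kin none u / (2 * P.mass (sp none)) - pot (potl (ch P sp) none) u := by
  have h1 := fun j k => mv_fubini (U := fun _ => (1 : ℝ)) locInt_one (h.dv (dir (some j) k)).cc
  have h2 := mv_fubini (locInt_coulomb fun j => P.charge (sp (some j))) h.cc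
  have h3 : ∀ t j, Integrable fun z => kin j (mvS u t z) / (2 * P.mass (sp (some j))) := by
    intro t j
    simp only [kin, mv_Dv h]
    exact (integrable_finsetSum _ fun k _ => (h1 j k).1 t).div_const _
  have h4 : ∀ j, ∑ t, ∫ z, kin j (mvS u t z) / (2 * P.mass (sp (some j))) =
      kin (some j) u / (2 * P.mass (sp (some j))) := by
    intro j
    simp only [integral_div, ← Finset.sum_div, kin, mv_Dv h]
    congr 1
    rw [Finset.sum_congr rfl fun t _ => integral_finsetSum
      (f := fun k z => nr (mvS (Dv (dir (some j) k) u) t z)) _ fun k _ => (h1 j k).1 t,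
      Finset.sum_comm]
    exact Finset.sum_congr rfl fun k _ => (h1 j k).2
  refine ⟨fun t => (integrable_finsetSum _ fun j _ => h3 t j).add (h2.1 t), ?_⟩
  have h5 : (coulomb fun i => P.charge (sp i)) = fun x =>
      coulomb (fun j => P.charge (sp (some j))) (x ∘ some) +
        potl (fun i => P.charge (sp i)) none x := funext fun x => coulomb_cons _ x
  unfold en
  rw [Finset.sum_congr rfl fun t _ =>
    integral_add (integrable_finsetSum _ fun j _ => h3 t j) (h2.1 t), Finset.sum_add_distrib, h2.2,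
    Finset.sum_congr rfl fun t _ => integral_finsetSum _ fun j _ => h3 t j, Finset.sum_comm,
    Finset.sum_congr rfl fun j _ => h4 j, h5,
    pot_add (locInt_rest (locInt_coulomb _)) (locInt_potl _ _) h.cc, Fintype.sum_option]
  ring

theorem mv_ph_cons (c : Option κ → ℝ) (g : E → ℝ) (z : E) (x : X (Option κ)) :
    ph c g z x = c none * g (x none - z) + ph (fun j => c (some j)) g z (x ∘ some) := by
  simp [ph, Fintype.sum_option]

theorem mv_Vf [DecidableEq Sp] (f : E → ℂ) (t0 : Sp) (y x : E) :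
    Vf (fy f t0 y) x = cv (fun w => ‖f w‖ ^ 2) (x - y) := by
  rw [Vf, pot_fy, cv, ← integral_add_right_eq_self _ y]
  refine integral_congr_ae (ae_of_all _ fun w => ?_)
  simp only [add_sub_cancel_right]
  rw [mul_comm, ← vk_neg]
  congr 2
  abel

theorem mv_insert {sp : Option κ → σ} {L t e1 : ℝ} {x0 : E} (hD : Dat P I mb cm cb)
    (hlow : ∀ u, Tst P sp L u → e1 * nr u ≤ qx P sp t x0 u) {φ : Wv κ Sp}
    (hφ : Tst P (fun j => sp (some j)) L φ) {y : E} {l : ℝ} (hl : 0 < l) {f : E → ℂ}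
    (hf : Orb l f) (hy : ‖y‖ + l < L / 2) (hh : Hole (fun j => sp (some j)) (sp none) y l φ)
    {W : ℝ} (hW : ∀ x, cv (fun w => ‖f w‖ ^ 2) x ≤ W) :
    e1 * nr φ ≤ en P (fun j => sp (some j)) φ + (I * k0 f + |t| * cb * W) * nr φ +
      ch P sp none * pot (ph (fun j => ch P sp (some j)) (cv fun w => ‖f w‖ ^ 2) y) φ +
      t * pot (ph (fun j => ch P sp (some j)) vk x0) φ := by
  classical
  obtain ⟨t0, ht0⟩ := hD.spin (sp none)
  have hadm := hf.adm ht0 hy
  have hfs : ∀ s z, fy f t0 y s z ≠ 0 → ‖z - y‖ ≤ l := fun s z hz => hf.supp _ (fy_ne hz).2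
  have h1 := hlow (insT P sp (fy f t0 y) φ) ((Tst.cre hadm hφ).smul _)
  have hn : nr (insT P sp (fy f t0 y) φ) = nr φ := by
    rw [nr, pot_insT hl hadm.nice.cc hfs hφ.nice.cc hh locInt_one fun _ _ _ => rfl, ← nr,
      nr_tens hadm.nice.cc hφ.nice.cc, hf.nr_fy, one_mul]
  have hP : Phi (fy f t0 y) (fun j => P.charge (sp (some j))) =
      ph (fun j => ch P sp (some j)) (cv fun w => ‖f w‖ ^ 2) y := by
    funext x
    simp only [Phi, ph, mv_Vf]
  have h2 : pot (ph (ch P sp) vk x0) (insT P sp (fy f t0 y) φ) =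
      ch P sp none * cv (fun w => ‖f w‖ ^ 2) (x0 - y) * nr φ +
        pot (ph (fun j => ch P sp (some j)) vk x0) φ := by
    rw [pot_insT hl hadm.nice.cc hfs hφ.nice.cc hh (locInt_ph _ locInt_vk _)
      fun o ho x => sym_ph P sp (fun s => s) vk x0 none o (mem_Jset.mp ho).symm x]
    rw [show ph (ch P sp) vk x0 = _ from funext (mv_ph_cons _ _ _),
      pot_add (U := fun x => ch P sp none * vk (x none - x0))
        ((locInt_one_body none locInt_vk x0).smul (ch P sp none))
        (locInt_rest (locInt_ph _ locInt_vk _)) (hadm.nice.cc.tens hφ.nice.cc),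
      pot_tens_rest (locInt_ph _ locInt_vk _) hadm.nice.cc hφ.nice.cc, hf.nr_fy, one_mul,
      pot_const_mul, pot_tens (locInt_one_body none locInt_vk x0) hadm.nice.cc hφ.nice.cc]
    simp only [cons_none]
    rw [pot_const, ← mv_Vf f t0, mul_assoc]
    rfl
  rw [hn, qx, en_insT hl hadm.nice hfs hφ.nice hh, en_tens P sp hadm.nice hφ.nice, hf.nr_fy,
    kin1_fy, hP, h2] at h1
  have h3 : k0 f / (2 * P.mass (sp none)) ≤ I * k0 f := by
    rw [div_eq_mul_one_div, mul_comm]
    exact mul_le_mul_of_nonneg_right (hD.hI _) (k0_nonneg f)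
  have h4 : t * (ch P sp none * cv (fun w => ‖f w‖ ^ 2) (x0 - y)) ≤ |t| * cb * W := by
    have h5 := cv_nonneg (μ := fun w => ‖f w‖ ^ 2) (fun _ => by positivity) (x0 - y)
    refine (le_abs_self _).trans ?_
    rw [abs_mul, abs_mul, abs_of_nonneg h5, mul_assoc]
    exact mul_le_mul_of_nonneg_left (mul_le_mul (hD.hcb _) (hW _) h5
      ((abs_nonneg _).trans (hD.hcb (sp none)))) (abs_nonneg t)
  have h6 := mul_le_mul_of_nonneg_right (add_le_add h3 h4) (nr_nonneg φ)
  simp only [ch] at *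
  linarith

theorem mv_core {sp : Option κ → σ} {L t e1 : ℝ} {x0 : E}
    {ψ : Wv (Option κ) Sp} (hD : Dat P I mb cm cb)
    (hlow : ∀ u, Tst P sp L u → e1 * nr u ≤ qx P sp t x0 u) (hψ : Tst P sp L ψ)
    {F : X (Option κ) → ℝ} (hF : ContDiff ℝ (⊤ : ℕ∞) F)
    (hs : ∀ j k, sp (some j) = sp (some k) → ∀ x, F (x ∘ Equiv.swap (some j) (some k)) = F x)
    {y : E} {l : ℝ} (hl : 0 < l) {f : E → ℂ} (hf : Orb l f) (hy : ‖y‖ + l < L / 2)
    (hh : ∀ x, F x ≠ 0 → ∀ j, 2 * l ≤ ‖x (some j) - y‖) {W : ℝ}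
    (hW : ∀ x, cv (fun w => ‖f w‖ ^ 2) x ≤ W) :
    kin none (mulF F ψ) / (2 * P.mass (sp none)) + pot (potl (ch P sp) none) (mulF F ψ) +
      t * ch P sp none * pot (fun x => vk (x none - x0)) (mulF F ψ) ≤
      dq P sp t x0 e1 (mulF F ψ) + (I * k0 f + |t| * cb * W) * nr (mulF F ψ) +
      ch P sp none * pot (ph (ch P sp) (cv fun w => ‖f w‖ ^ 2) y) (mulF F ψ) := by
  have hu : Nice (mulF F ψ) := hψ.nice.mulF hF
  have h0 := fun s z => mv_insert hD hlow (mv_tst hψ hF hs s z) hl hf hy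
    (fun τ x hx j _ => hh (cons z x) (fun h => hx (by simp [mvS, mulF, h])) j) hW
  set u := mulF F ψ
  have hc := hf.cont_cv.locallyIntegrable (μ := volume)
  have f1 := mv_fubini (U := fun _ => (1 : ℝ)) locInt_one hu.cc
  have f2 := mv_en (P := P) sp hu
  have f3 := mv_fubini (locInt_ph (fun j => ch P sp (some j)) hc y) hu.cc
  have f4 := mv_fubini (locInt_ph (fun j => ch P sp (some j)) locInt_vk x0) hu.cc
  have f1' : ∑ s, ∫ z, nr (mvS u s z) = nr u := f1.2
  have h1 := Finset.sum_le_sum fun s (_ : s ∈ Finset.univ) => integral_mono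
    ((f1.1 s).const_mul e1) ((((f2.1 s).add ((f1.1 s).const_mul _)).add
      ((f3.1 s).const_mul _)).add ((f4.1 s).const_mul t)) (h0 s)
  have h6 : ∀ {A B C D : E → ℝ} (a b c : ℝ), Integrable A → Integrable B → Integrable C →
      Integrable D → ∫ z, A z + a * B z + b * C z + c * D z =
        (∫ z, A z) + a * (∫ z, B z) + b * (∫ z, C z) + c * ∫ z, D z := by
    intro A B C D a b c hA hB hC hD
    have k1 : Integrable fun z => A z + a * B z := hA.add (hB.const_mul a)
    have k2 : Integrable fun z => A z + a * B z + b * C z := k1.add (hC.const_mul b)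
    rw [integral_add k2 (hD.const_mul c), integral_add k1 (hC.const_mul b),
      integral_add hA (hB.const_mul a), integral_const_mul, integral_const_mul, integral_const_mul]
  simp only [Pi.add_apply] at h1
  rw [Finset.sum_congr rfl fun s _ => h6 _ _ _ (f2.1 s) (f1.1 s) (f3.1 s) (f4.1 s)] at h1
  simp only [Finset.sum_add_distrib, integral_const_mul, ← Finset.mul_sum] at h1
  rw [f2.2, f1.2, f3.2, f4.2] at h1
  have h2 : ∀ g : E → ℝ, LocallyIntegrable g → ∀ z, pot (ph (ch P sp) g z) u =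
      ch P sp none * pot (fun x => g (x none - z)) u +
        pot (fun x => ph (fun j => ch P sp (some j)) g z (x ∘ some)) u := fun g hg z => by
    rw [show ph (ch P sp) g z = _ from funext (mv_ph_cons _ _ _),
      pot_add (U := fun x => ch P sp none * g (x none - z))
        ((locInt_one_body none hg z).smul (ch P sp none))
        (locInt_rest (locInt_ph _ hg _)) hu.cc, pot_const_mul]
  have h3 : 0 ≤ pot (fun x => cv (fun w => ‖f w‖ ^ 2) (x none - y)) u :=
    pot_nonneg (fun _ => cv_nonneg (fun _ => by positivity) _) _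
  have h4 := mul_nonneg (mul_self_nonneg (ch P sp none)) h3
  rw [dq, qx, h2 _ hc, h2 _ locInt_vk]
  have h5 : pot (fun _ => (1 : ℝ)) u = nr u := rfl
  rw [h5] at h1
  linarith

end core

theorem mv_ph_rel {ι ι' : Type} [Fintype ι] [Fintype ι'] (e : ι ≃ ι') (c : ι' → ℝ) (g : E → ℝ)
    (z : E) (x : X ι') : ph (fun j => c (e j)) g z (x ∘ e) = ph c g z x :=
  e.sum_comp fun j => c j * g (x j - z)

theorem mv_pot_ph_rel {ι ι' : Type} [Fintype ι] [Fintype ι'] [DecidableEq ι] [DecidableEq ι']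
    (e : ι ≃ ι') (c : ι' → ℝ) (g : E → ℝ) (z : E) (u : Wv ι Sp) :
    pot (ph c g z) (rel e u) = pot (ph (fun j => c (e j)) g z) u := by
  rw [← pot_rel e]
  simp only [mv_ph_rel]

theorem mv_qx_rel {ι ι' : Type} [Fintype ι] [Fintype ι'] [DecidableEq ι] [DecidableEq ι']
    (e : ι ≃ ι') (sp : ι' → σ) (t : ℝ) (z : E) (u : Wv ι Sp) :
    qx P sp t z (rel e u) = qx P (fun j => sp (e j)) t z u := by
  rw [qx, qx, en_rel, mv_pot_ph_rel]

/-- moving one particle into a hole -/
theorem move_ineq {ι : Type} [Fintype ι] [DecidableEq ι] {sp : ι → σ} {L t e1 : ℝ} {x0 : E}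
    {ψ : Wv ι Sp} (hD : Dat P I mb cm cb)
    (hlow : ∀ u, Tst P sp L u → e1 * nr u ≤ qx P sp t x0 u) (hψ : Tst P sp L ψ) (i : ι)
    {F : X ι → ℝ} (hF : ContDiff ℝ (⊤ : ℕ∞) F)
    (hs : ∀ j k, j ≠ i → k ≠ i → sp j = sp k → ∀ x, F (x ∘ Equiv.swap j k) = F x)
    {y : E} {l : ℝ} (hl : 0 < l) {f : E → ℂ} (hf : Orb l f) (hy : ‖y‖ + l < L / 2)
    (hh : ∀ x, F x ≠ 0 → ∀ j, j ≠ i → 2 * l ≤ ‖x j - y‖) {W : ℝ}
    (hW : ∀ x, cv (fun w => ‖f w‖ ^ 2) x ≤ W) :
    kin i (mulF F ψ) / (2 * P.mass (sp i)) + pot (potl (ch P sp) i) (mulF F ψ) +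
      t * ch P sp i * pot (fun x => vk (x i - x0)) (mulF F ψ) ≤
      dq P sp t x0 e1 (mulF F ψ) + (I * k0 f + |t| * cb * W) * nr (mulF F ψ) +
      ch P sp i * pot (ph (ch P sp) (cv fun w => ‖f w‖ ^ 2) y) (mulF F ψ) := by
  let e := Equiv.optionSubtypeNe i
  have hψ' : Tst P (fun o => sp (e o)) L (rel e.symm ψ) :=
    Tst.rel e.symm (by simpa only [Equiv.apply_symm_apply] using hψ)
  have hF' : ContDiff ℝ (⊤ : ℕ∞) fun x : X (Option {b // b ≠ i}) => F (x ∘ e.symm) :=
    hF.comp (contDiff_pi.mpr fun j => contDiff_apply ℝ E (e.symm j))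
  have h := mv_core (sp := fun o => sp (e o)) (e1 := e1) (t := t) (x0 := x0) hD
    (fun u hu => by
      have := hlow (rel e u) (Tst.rel e hu)
      rwa [nr_rel, mv_qx_rel] at this) hψ' hF'
    (fun j k hjk x => by
      have h1 : (x ∘ Equiv.swap (some j) (some k)) ∘ e.symm =
          (x ∘ e.symm) ∘ Equiv.swap j.1 k.1 := by
        funext a
        simp only [Function.comp_apply]
        rw [e.symm.injective.map_swap, show e.symm j.1 = some j from e.symm_apply_apply (some j),
          show e.symm k.1 = some k from e.symm_apply_apply (some k)]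
      rw [h1]
      exact hs j.1 k.1 j.2 k.2 hjk _) hl hf hy
    (fun x hx j => by
      have := hh _ hx j.1 j.2
      rwa [Function.comp_apply, show e.symm j.1 = some j from e.symm_apply_apply (some j)]
        at this) hW
  have hu : mulF F ψ = rel e (mulF (fun x => F (x ∘ e.symm)) (rel e.symm ψ)) :=
    (rel_rel_symm e (mulF F ψ)).symm
  rw [hu]
  set u := mulF (fun x => F (x ∘ e.symm)) (rel e.symm ψ)
  have h1 : kin i (rel e u) = kin none u := kin_rel e none u
  have h2 : pot (potl (ch P sp) i) (rel e u) = pot (potl (ch P fun o => sp (e o)) none) u := by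
    rw [← pot_rel e]
    congr 1
    funext x
    exact (potl_rel e (ch P sp) none x).symm
  have h3 : pot (fun x => vk (x i - x0)) (rel e u) = pot (fun x => vk (x none - x0)) u :=
    pot_rel e (fun x => vk (x none - x0)) u
  rw [h1, h2, h3, dq, mv_qx_rel, nr_rel, mv_pot_ph_rel]
  exact h

end Pool.Agent.Lib.MP_0655ed_mp
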