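import Pool.Agent.Lib.MP_0655ed_mp.ImpPot
import Pool.Agent.Lib.MP_0655ed_mp.ImpGav

open Finset MeasureTheory Real Filter Topology

namespace Pool.Agent.Lib.MP_0655ed_mp

variable {σ Sp ι : Type} [Fintype ι] [DecidableEq ι] [Fintype Sp]

omit [Fintype Sp] in
theorem nb_cont_ph (c : ι → ℝ) {g : E → ℝ} (hg : Continuous g) (z : E) :
    Continuous (ph c g z) :=
  (continuous_ph c hg).comp (Continuous.prodMk_right z)

omit [Fintype ι] [DecidableEq ι] [Fintype Sp] in
theorem nb_cont_one (i : ι) {g : E → ℝ} (hg : Continuous g) (z : E) :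
    Continuous fun x : X ι => g (x i - z) :=
  hg.comp ((continuous_apply i).sub continuous_const)

omit [DecidableEq ι] [Fintype Sp] in
theorem nb_ph_smul (c : ι → ℝ) (a : ℝ) (g : E → ℝ) (z : E) (x : X ι) :
    ph c (fun y => a * g y) z x = a * ph c g z x := by
  unfold ph
  rw [Finset.mul_sum]
  exact Finset.sum_congr rfl fun j _ => by ring

theorem nb_pot_smul (c : ι → ℝ) (a : ℝ) (g : E → ℝ) (z : E) (ψ : Wv ι Sp) :
    pot (ph c (fun y => a * g y) z) ψ = a * pot (ph c g z) ψ := by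
  rw [← pot_const_mul]
  congr 1
  funext x
  exact nb_ph_smul c a g z x

theorem nb_fub {Z : Type} [MeasurableSpace Z] {μ : Measure Z} [SFinite μ] {k : Z → E → ℝ}
    (hk' : Measurable fun p : Z × E => k p.1 p.2) {g : Z → ℝ} (hg : Integrable g μ)
    (hb : ∀ᵐ r ∂μ, ∀ y, |k r y| ≤ g r) (c : ι → ℝ) {F : X ι → ℝ} (hF : Continuous F) (z : E)
    {ψ : Wv ι Sp} (h : Cc ψ) :
    Integrable (fun r => pot (fun x => F x * ph c (k r) z x) ψ) μ ∧
      LocallyIntegrable (fun x => F x * ph c (fun y => ∫ r, k r y ∂μ) z x) ∧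
      ∫ r, pot (fun x => F x * ph c (k r) z x) ψ ∂μ =
        pot (fun x => F x * ph c (fun y => ∫ r, k r y ∂μ) z x) ψ := by
  have hm : Measurable fun p : Z × X ι => F p.2 * ph c (k p.1) z p.2 := by
    refine (hF.measurable.comp measurable_snd).mul ?_
    unfold ph
    refine Finset.measurable_sum _ fun j _ => measurable_const.mul ?_
    exact hk'.comp (measurable_fst.prodMk
      (((measurable_pi_apply j).comp measurable_snd).sub measurable_const))
  have hH : Continuous fun x : X ι => |F x| * ∑ j, |c j| := hF.abs.mul continuous_const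
  have hbd : ∀ᵐ r ∂μ, ∀ x : X ι, |F x * ph c (k r) z x| ≤ g r * (|F x| * ∑ j, |c j|) := by
    filter_upwards [hb] with r hr x
    rw [abs_mul]
    have : |ph c (k r) z x| ≤ (∑ j, |c j|) * g r := by
      unfold ph
      rw [Finset.sum_mul]
      refine (Finset.abs_sum_le_sum_abs _ _).trans (Finset.sum_le_sum fun j _ => ?_)
      rw [abs_mul]
      exact mul_le_mul_of_nonneg_left (hr _) (abs_nonneg _)
    calc |F x| * |ph c (k r) z x| ≤ |F x| * ((∑ j, |c j|) * g r) :=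
          mul_le_mul_of_nonneg_left this (abs_nonneg _)
      _ = _ := by ring
  have hi : ∀ y, Integrable (fun r => k r y) μ := fun y => by
    refine hg.mono' (hk'.comp (measurable_id.prodMk measurable_const)).aestronglyMeasurable ?_
    filter_upwards [hb] with r hr
    exact hr y
  have he : (fun x : X ι => ∫ r, F x * ph c (k r) z x ∂μ) =
      fun x => F x * ph c (fun y => ∫ r, k r y ∂μ) z x := by
    funext x
    rw [integral_const_mul]
    congr 1
    unfold ph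
    rw [integral_finsetSum _ fun j _ => (hi _).const_mul _]
    exact Finset.sum_congr rfl fun j _ => integral_const_mul _ _
  obtain ⟨h1, h2, h3⟩ := pot_integral (F := fun r x => F x * ph c (k r) z x) hm hg hH hbd h
  rw [he] at h2 h3
  exact ⟨h1, h2, h3⟩

theorem nb_fub1 {Z : Type} [MeasurableSpace Z] {μ : Measure Z} [SFinite μ] {k : Z → E → ℝ}
    (hk' : Measurable fun p : Z × E => k p.1 p.2) {g : Z → ℝ} (hg : Integrable g μ)
    (hb : ∀ᵐ r ∂μ, ∀ y, |k r y| ≤ g r) (c : ι → ℝ) (z : E) {ψ : Wv ι Sp} (h : Cc ψ) :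
    Integrable (fun r => pot (ph c (k r) z) ψ) μ ∧
      LocallyIntegrable (ph c (fun y => ∫ r, k r y ∂μ) z) ∧
      ∫ r, pot (ph c (k r) z) ψ ∂μ = pot (ph c (fun y => ∫ r, k r y ∂μ) z) ψ := by
  have := nb_fub hk' hg hb c (F := fun _ => 1) continuous_const z h
  simpa only [one_mul] using this

theorem nb_gav {g G : E → ℝ} (hg : Continuous g) {M : ℝ} (hM : ∀ y, |g y| ≤ M) {a : ℝ}
    (ha : 0 < a) (hG : ∀ x y, ∫ z, hk a (z - x) * g (y - z) = G (y - x)) (c : ι → ℝ)
    {F : X ι → ℝ} (hF : Continuous F) {ψ : Wv ι Sp} (h : Cc ψ) (z0 : E) :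
    gav a (fun z => pot (fun x => F x * ph c g z x) ψ) z0 =
      pot (fun x => F x * ph c G z0 x) ψ := by
  have hm : Measurable fun p : E × E => hk a (p.1 - z0) * g (p.2 - p.1) :=
    (((continuous_hk a).comp (continuous_fst.sub continuous_const)).mul
      (hg.comp (continuous_snd.sub continuous_fst))).measurable
  have hi : Integrable fun z : E => hk a (z - z0) * M :=
    ((integrable_hk ha).comp_sub_right z0).mul_const M
  have hb : ∀ᵐ r : E, ∀ y, |hk a (r - z0) * g (y - r)| ≤ hk a (r - z0) * M :=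
    ae_of_all _ fun r y => by
      rw [abs_mul, abs_of_nonneg (hk_nonneg _ _)]
      exact mul_le_mul_of_nonneg_left (hM _) (hk_nonneg _ _)
  obtain ⟨-, -, h3⟩ := nb_fub (k := fun r y => hk a (r - z0) * g (y - r)) hm hi hb c hF 0 h
  unfold gav
  have e1 : ∀ z : E, hk a (z - z0) * pot (fun x => F x * ph c g z x) ψ =
      pot (fun x => F x * ph c (fun y => hk a (z - z0) * g (y - z)) 0 x) ψ := fun z => by
    rw [← pot_const_mul]
    congr 1
    funext x
    rw [nb_ph_smul]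
    simp only [ph, sub_zero]
    ring
  simp only [e1]
  rw [h3]
  congr 1
  funext x
  simp only [ph, sub_zero, hG]

theorem nb_nonneg (ψ : Wv ι Sp) {g : E → ℝ} (hg : ∀ x, 0 ≤ g x) (z : E) : 0 ≤ nb ψ g z :=
  pot_nonneg (fun _ => Finset.sum_nonneg fun _ _ => mul_nonneg zero_le_one (hg _)) ψ

theorem tb_nonneg (ψ : Wv ι Sp) {g : E → ℝ} (hg : ∀ x, 0 ≤ g x) (z : E) : 0 ≤ tb ψ g z :=
  Finset.sum_nonneg fun _ _ => Finset.sum_nonneg fun _ _ => pot_nonneg (fun _ => hg _) _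

theorem nb_le_mul {ψ : Wv ι Sp} (h : Cc ψ) {g g' : E → ℝ} (hg : Continuous g) (hg' : Continuous g')
    {C : ℝ} (hle : ∀ x, g x ≤ C * g' x) (z : E) : nb ψ g z ≤ C * nb ψ g' z := by
  unfold nb
  rw [← pot_const_mul]
  refine pot_mono (nb_cont_ph _ hg z).locallyIntegrable
    (continuous_const.mul (nb_cont_ph _ hg' z)).locallyIntegrable h fun x => ?_
  unfold ph
  rw [Finset.mul_sum]
  exact Finset.sum_le_sum fun j _ => by simpa using hle _

theorem tb_le_mul {ψ : Wv ι Sp} (h : Nice ψ) {g g' : E → ℝ} (hg : Continuous g)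
    (hg' : Continuous g') {C : ℝ} (hle : ∀ x, g x ≤ C * g' x) (z : E) :
    tb ψ g z ≤ C * tb ψ g' z := by
  unfold tb
  rw [Finset.mul_sum]
  refine Finset.sum_le_sum fun i _ => ?_
  rw [Finset.mul_sum]
  refine Finset.sum_le_sum fun k _ => ?_
  rw [← pot_const_mul]
  exact pot_mono (nb_cont_one i hg z).locallyIntegrable
    (continuous_const.mul (nb_cont_one i hg' z)).locallyIntegrable (h.dv _).cc fun x => hle _

theorem nb_le_const {ψ : Wv ι Sp} (h : Cc ψ) {g : E → ℝ} (hg : Continuous g) {M : ℝ}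
    (hle : ∀ x, g x ≤ M) (z : E) : nb ψ g z ≤ Fintype.card ι * M * nr ψ := by
  unfold nb
  rw [← pot_const]
  refine pot_mono (nb_cont_ph _ hg z).locallyIntegrable
    continuous_const.locallyIntegrable h fun x => ?_
  unfold ph
  calc ∑ j, 1 * g (x j - z) ≤ ∑ _j : ι, M := Finset.sum_le_sum fun j _ => by simpa using hle _
    _ = _ := by simp

theorem tb_le_const {ψ : Wv ι Sp} (h : Nice ψ) {g : E → ℝ} (hg : Continuous g) {M : ℝ}
    (hle : ∀ x, g x ≤ M) (z : E) : tb ψ g z ≤ M * ∑ i, kin i ψ := by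
  unfold tb kin
  rw [Finset.mul_sum]
  refine Finset.sum_le_sum fun i _ => ?_
  rw [Finset.mul_sum]
  refine Finset.sum_le_sum fun k _ => ?_
  rw [← pot_const]
  exact pot_mono (nb_cont_one i hg z).locallyIntegrable
    continuous_const.locallyIntegrable (h.dv _).cc fun x => hle _

theorem continuous_nb {ψ : Wv ι Sp} (h : Cc ψ) {g : E → ℝ} (hg : Continuous g) :
    Continuous (nb ψ g) :=
  continuous_pot (F := fun z => ph (fun _ => 1) g z) (continuous_ph _ hg) h

theorem nb_continuous_tb {ψ : Wv ι Sp} (h : Nice ψ) {g : E → ℝ} (hg : Continuous g) :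
    Continuous (tb ψ g) := by
  unfold tb
  refine continuous_finsetSum _ fun i _ => continuous_finsetSum _ fun k _ => ?_
  exact continuous_pot (F := fun z (x : X ι) => g (x i - z))
    (hg.comp (((continuous_apply i).comp continuous_snd).sub continuous_fst)) (h.dv _).cc

theorem nb_abs_hk {w : ℝ} (hw : 0 < w) (y : E) : |hk w y| ≤ hk w 0 := by
  rw [abs_of_nonneg (hk_nonneg _ _)]
  exact hk_le_zero hw y

theorem nb_abs_VV {w : ℝ} (hw : 0 < w) (y : E) : |VV w y| ≤ (√w)⁻¹ := by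
  rw [abs_of_nonneg (VV_nonneg _ _)]
  exact VV_le hw y

theorem gav_nb {ψ : Wv ι Sp} (h : Cc ψ) {a w : ℝ} (ha : 0 < a) (hw : 0 < w) :
    gav a (nb ψ (hk w)) = nb ψ (hk (a + w)) := by
  funext z0
  have := nb_gav (continuous_hk w) (nb_abs_hk hw) ha (hk_conv ha hw) (fun _ : ι => (1 : ℝ))
    (F := fun _ => 1) continuous_const h z0
  simp only [one_mul] at this
  exact this

theorem gav_pot_VV {ψ : Wv ι Sp} (h : Cc ψ) (c : ι → ℝ) {F : X ι → ℝ} (hF : Continuous F)
    {a w : ℝ} (ha : 0 < a) (hw : 0 < w) :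
    gav a (fun z => pot (fun x => F x * ph c (VV w) z x) ψ) =
      fun z => pot (fun x => F x * ph c (VV (a + w)) z x) ψ := by
  funext z0
  exact nb_gav (continuous_VV w) (nb_abs_VV hw) ha (VV_conv ha hw) c hF h z0

omit [Fintype Sp] in
theorem nb_ph_single (i : ι) (g : E → ℝ) (z : E) (x : X ι) :
    ph (Pi.single i (1 : ℝ)) g z x = g (x i - z) := by
  unfold ph
  rw [Finset.sum_eq_single i]
  · simp
  · intro j _ hj
    simp [Pi.single_eq_of_ne hj]
  · simp

theorem nb_gav_tb {ψ : Wv ι Sp} (h : Nice ψ) {a w : ℝ} (ha : 0 < a) (hw : 0 < w) :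
    gav a (tb ψ (hk w)) = tb ψ (hk (a + w)) := by
  funext z0
  have key : ∀ i k, gav a (fun z => pot (fun x : X ι => hk w (x i - z)) (Dv (dir i k) ψ)) z0 =
      pot (fun x : X ι => hk (a + w) (x i - z0)) (Dv (dir i k) ψ) := fun i k => by
    have := nb_gav (continuous_hk w) (nb_abs_hk hw) ha (hk_conv ha hw) (Pi.single i (1 : ℝ))
      (F := fun _ => 1) continuous_const (h.dv (dir i k)).cc z0
    simpa only [one_mul, nb_ph_single] using this
  have hi : ∀ i k, Integrable fun z => hk a (z - z0) *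
      pot (fun x : X ι => hk w (x i - z)) (Dv (dir i k) ψ) := fun i k => by
    refine Integrable.mul_bdd (c := hk w 0 * nr (Dv (dir i k) ψ))
      ((integrable_hk ha).comp_sub_right z0) ?_ (ae_of_all _ fun z => ?_)
    · exact (continuous_pot (F := fun z (x : X ι) => hk w (x i - z))
        ((continuous_hk w).comp (((continuous_apply i).comp continuous_snd).sub continuous_fst))
        (h.dv _).cc).aestronglyMeasurable
    · rw [Real.norm_eq_abs, abs_of_nonneg (pot_nonneg (fun _ => hk_nonneg _ _) _), ← pot_const]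
      exact pot_mono (nb_cont_one i (continuous_hk w) z).locallyIntegrable
        continuous_const.locallyIntegrable (h.dv _).cc fun x => hk_le_zero hw _
  unfold tb
  simp only [← key]
  unfold gav
  simp only [Finset.mul_sum]
  rw [integral_finsetSum _ fun i _ => integrable_finsetSum _ fun k _ => hi i k]
  exact Finset.sum_congr rfl fun i _ => integral_finsetSum _ fun k _ => hi i k

theorem nb_hk_mono {ψ : Wv ι Sp} (h : Cc ψ) {w w' D : ℝ} (hw : 0 < w) (hle : w ≤ w')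
    (hD : ∀ z, nb ψ (hk w) z ≤ D) (z : E) : nb ψ (hk w') z ≤ D := by
  rcases hle.eq_or_lt with rfl | hlt
  · exact hD z
  · have e : w' = (w' - w) + w := by ring
    rw [e, ← gav_nb h (sub_pos.2 hlt) hw]
    exact gav_le (sub_pos.2 hlt) (continuous_nb h (continuous_hk w)) (M := D)
      (fun z => by rw [abs_of_nonneg (nb_nonneg ψ (hk_nonneg w) z)]; exact hD z) hD z

theorem tb_hk_mono {ψ : Wv ι Sp} (h : Nice ψ) {w w' D : ℝ} (hw : 0 < w) (hle : w ≤ w')
    (hD : ∀ z, tb ψ (hk w) z ≤ D) (z : E) : tb ψ (hk w') z ≤ D := by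
  rcases hle.eq_or_lt with rfl | hlt
  · exact hD z
  · have e : w' = (w' - w) + w := by ring
    rw [e, ← nb_gav_tb h (sub_pos.2 hlt) hw]
    exact gav_le (sub_pos.2 hlt) (nb_continuous_tb h (continuous_hk w)) (M := D)
      (fun z => by rw [abs_of_nonneg (tb_nonneg ψ (hk_nonneg w) z)]; exact hD z) hD z

theorem nb_inv_sqrt : IntegrableOn (fun s : ℝ => (√s)⁻¹) (Set.Ioc 0 1) ∧
    ∫ s in Set.Ioc (0 : ℝ) 1, (√s)⁻¹ = 2 := by
  have e : Set.EqOn (fun s : ℝ => s ^ (-(1 / 2) : ℝ)) (fun s : ℝ => (√s)⁻¹) (Set.Ioc 0 1) :=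
    fun s hs => by
      simp only
      rw [Real.rpow_neg hs.1.le, Real.sqrt_eq_rpow]
  have hi : IntervalIntegrable (fun s : ℝ => s ^ (-(1 / 2) : ℝ)) volume 0 1 :=
    intervalIntegral.intervalIntegrable_rpow' (by norm_num)
  refine ⟨hi.1.congr_fun e measurableSet_Ioc, ?_⟩
  rw [← setIntegral_congr_fun measurableSet_Ioc e, ← intervalIntegral.integral_of_le zero_le_one,
    integral_rpow (Or.inl (by norm_num))]
  norm_num

theorem pot_Gam_VV {ψ : Wv ι Sp} (h : Cc ψ) {c : ι → ℝ} {cb : ℝ} (hc : ∀ j, |c j| ≤ cb)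
    {w D : ℝ} (hw : 0 < w) (hD : ∀ z, nb ψ (hk w) z ≤ D) (z : E) :
    pot (Gam (ph c (VV w) z)) ψ ≤ 400 * cb ^ 2 * D / √w := by
  have hle : ∀ s ∈ Set.Ioc (0 : ℝ) 1, w ≤ w / s ^ 2 := fun s hs => by
    rw [le_div_iff₀ (pow_pos hs.1 2)]
    have : s ^ 2 ≤ 1 := pow_le_one₀ hs.1.le hs.2
    nlinarith
  have hm : Measurable fun p : ℝ × E => (√p.1)⁻¹ * hk (w / p.1 ^ 2) p.2 := by
    refine (Measurable.inv (by fun_prop)).mul ?_
    exact measurable_hk.comp
      (Measurable.prodMk (f := fun p : ℝ × E => w / p.1 ^ 2) (by fun_prop) measurable_snd)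
  have hb : ∀ᵐ s ∂(volume.restrict (Set.Ioc (0 : ℝ) 1)), ∀ y : E,
      |(√s)⁻¹ * hk (w / s ^ 2) y| ≤ (√s)⁻¹ * hk w 0 := by
    refine (ae_restrict_iff' measurableSet_Ioc).2 (ae_of_all _ fun s hs y => ?_)
    rw [abs_mul, abs_of_nonneg (by positivity : (0 : ℝ) ≤ (√s)⁻¹)]
    exact mul_le_mul_of_nonneg_left ((nb_abs_hk (hw.trans_le (hle s hs)) y).trans
      (hk_zero_anti hw (hle s hs))) (by positivity)
  obtain ⟨h1, h2, h3⟩ := nb_fub1 (k := fun s y => (√s)⁻¹ * hk (w / s ^ 2) y) hm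
    (nb_inv_sqrt.1.mul_const (hk w 0)) hb (fun _ : ι => (1 : ℝ)) z h
  have h4 : ∫ s in Set.Ioc (0 : ℝ) 1,
      pot (ph (fun _ : ι => (1 : ℝ)) (fun y => (√s)⁻¹ * hk (w / s ^ 2) y) z) ψ ≤ 2 * D := by
    rw [← nb_inv_sqrt.2, ← integral_mul_const]
    refine setIntegral_mono_on h1 (nb_inv_sqrt.1.mul_const D) measurableSet_Ioc fun s hs => ?_
    rw [nb_pot_smul]
    exact mul_le_mul_of_nonneg_left (nb_hk_mono h hw (hle s hs) hD z) (by positivity)
  rw [h3] at h4
  have h5 : pot (Gam (ph c (VV w) z)) ψ ≤ pot (fun x => cb ^ 2 * (200 * (√w)⁻¹) *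
      ph (fun _ : ι => (1 : ℝ))
        (fun y => ∫ s in Set.Ioc (0 : ℝ) 1, (√s)⁻¹ * hk (w / s ^ 2) y) z x) ψ := by
    refine pot_mono (continuous_Gam (contDiff_ph c (contDiff_VV w) z)).locallyIntegrable
      (locInt_mul continuous_const h2) h fun x => ?_
    rw [Gam_ph c (contDiff_VV w)]
    unfold ph
    rw [Finset.mul_sum]
    refine Finset.sum_le_sum fun j _ => ?_
    simp only [fderiv_VV]
    have a1 := grad_VV hw (x j - z)
    rw [intervalIntegral.integral_of_le zero_le_one] at a1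
    have a2 : c j ^ 2 ≤ cb ^ 2 := by
      rw [← sq_abs]
      exact pow_le_pow_left₀ (abs_nonneg _) (hc j) 2
    have a3 : 0 ≤ ∑ k, V1 w k (x j - z) ^ 2 := Finset.sum_nonneg fun k _ => sq_nonneg _
    calc c j ^ 2 * ∑ k, V1 w k (x j - z) ^ 2 ≤ cb ^ 2 * ∑ k, V1 w k (x j - z) ^ 2 :=
          mul_le_mul_of_nonneg_right a2 a3
      _ ≤ _ := by
          rw [one_mul, mul_assoc (cb ^ 2)]
          exact mul_le_mul_of_nonneg_left a1 (sq_nonneg _)
  rw [pot_const_mul] at h5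
  calc _ ≤ _ := h5
    _ ≤ cb ^ 2 * (200 * (√w)⁻¹) * (2 * D) := mul_le_mul_of_nonneg_left h4 (by positivity)
    _ = _ := by ring

theorem nb_tail {B A0 A1 : ℝ} (hB : 0 < B) (h0 : 0 ≤ A0) (h1 : 0 ≤ A1) :
    IntegrableOn (fun r => 3 / 2 * A0 * (√(B + r))⁻¹ ^ 3 + 3 / 2 * A1 * (B + r)⁻¹ ^ 2)
      (Set.Ioi 0) ∧
    ∫ r in Set.Ioi (0 : ℝ), (3 / 2 * A0 * (√(B + r))⁻¹ ^ 3 + 3 / 2 * A1 * (B + r)⁻¹ ^ 2) =
      3 * A0 / √B + 3 / 2 * A1 / B := by
  have hd : ∀ r ∈ Set.Ici (0 : ℝ), HasDerivAt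
      (fun r => -(3 * A0 * (√(B + r))⁻¹ + 3 / 2 * A1 * (B + r)⁻¹))
      (3 / 2 * A0 * (√(B + r))⁻¹ ^ 3 + 3 / 2 * A1 * (B + r)⁻¹ ^ 2) r := fun r hr => by
    have hp : 0 < B + r := add_pos_of_pos_of_nonneg hB hr
    have hs : 0 < √(B + r) := Real.sqrt_pos.2 hp
    have d0 : HasDerivAt (fun r => B + r) 1 r := (hasDerivAt_id r).const_add B
    have d1 := ((d0.sqrt hp.ne').inv hs.ne').const_mul (3 * A0)
    have d2 := (d0.inv hp.ne').const_mul (3 / 2 * A1)
    refine (d1.add d2).neg.congr_deriv ?_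
    field_simp
    ring
  have hpos : ∀ r ∈ Set.Ioi (0 : ℝ),
      0 ≤ 3 / 2 * A0 * (√(B + r))⁻¹ ^ 3 + 3 / 2 * A1 * (B + r)⁻¹ ^ 2 := fun r _ => by positivity
  have t0 : Tendsto (fun r : ℝ => B + r) atTop atTop := tendsto_atTop_add_const_left _ _ tendsto_id
  have ht : Tendsto (fun r => -(3 * A0 * (√(B + r))⁻¹ + 3 / 2 * A1 * (B + r)⁻¹)) atTop
      (𝓝 (-(3 * A0 * 0 + 3 / 2 * A1 * 0))) :=
    (((Real.tendsto_sqrt_atTop.comp t0).inv_tendsto_atTop.const_mul _).add
      (t0.inv_tendsto_atTop.const_mul _)).neg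
  refine ⟨integrableOn_Ioi_deriv_of_nonneg' hd hpos ht, ?_⟩
  rw [integral_Ioi_of_hasDerivAt_of_nonneg' hd hpos ht]
  simp only [add_zero]
  ring

theorem nb_exp_int : IntegrableOn (fun r : ℝ => exp (-r)) (Set.Ioi 0) ∧
    ∫ r in Set.Ioi (0 : ℝ), exp (-r) = 1 :=
  ⟨integrableOn_exp_neg_Ioi 0, integral_exp_neg_Ioi_zero⟩

theorem nb_xi {ψ : Wv ι Sp} (h : Cc ψ) {B A0 A1 : ℝ} (hB : 0 < B) (hB1 : B ≤ 1) (h0 : 0 ≤ A0)
    (h1 : 0 ≤ A1) (z : E) (hD : ∀ w, B ≤ w → nb ψ (hk w) z ≤ A0 + A1 / w) :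
    nb ψ (xi B) z ≤ 10 * (A0 / √B + A1 / B) := by
  have hm : Measurable fun p : ℝ × E => exp (-p.1) * (3 / (2 * (B + p.1)) * hk (B + p.1) p.2) := by
    refine Measurable.mul (by fun_prop) (Measurable.mul (by fun_prop) ?_)
    exact measurable_hk.comp
      (Measurable.prodMk (f := fun p : ℝ × E => B + p.1) (by fun_prop) measurable_snd)
  have hb : ∀ᵐ r ∂(volume.restrict (Set.Ioi (0 : ℝ))), ∀ y : E,
      |exp (-r) * (3 / (2 * (B + r)) * hk (B + r) y)| ≤ exp (-r) * (3 / (2 * B) * hk B 0) := by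
    refine (ae_restrict_iff' measurableSet_Ioi).2 (ae_of_all _ fun r hr y => ?_)
    have hr : 0 < r := hr
    have hp : 0 < B + r := by positivity
    rw [abs_mul, abs_of_pos (exp_pos _), abs_mul, abs_of_pos (by positivity : 0 < 3 / (2 * (B + r)))]
    refine mul_le_mul_of_nonneg_left (mul_le_mul ?_ ((nb_abs_hk hp y).trans
      (hk_zero_anti hB (by linarith))) (abs_nonneg _) (by positivity)) (exp_pos _).le
    gcongr
    linarith
  obtain ⟨a1, -, a3⟩ := nb_fub1
    (k := fun r y => exp (-r) * (3 / (2 * (B + r)) * hk (B + r) y)) hm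
    (nb_exp_int.1.mul_const _) hb (fun _ : ι => (1 : ℝ)) z h
  have e : xi B = fun y => ∫ r in Set.Ioi (0 : ℝ),
      exp (-r) * (3 / (2 * (B + r)) * hk (B + r) y) := funext fun y => xi_eq hB y
  obtain ⟨b1, b2⟩ := nb_tail hB h0 h1
  unfold nb
  rw [e, ← a3]
  refine (setIntegral_mono_on a1 b1 measurableSet_Ioi fun r hr => ?_).trans ?_
  · have hr : 0 < r := hr
    have hp : 0 < B + r := by positivity
    have hs : 0 < √(B + r) := Real.sqrt_pos.2 hp
    rw [nb_pot_smul, nb_pot_smul]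
    have c1 := hD (B + r) (by linarith)
    have c2 : exp (-r) ≤ (√(B + r))⁻¹ := by
      rw [Real.exp_neg]
      refine inv_anti₀ hs ?_
      rw [Real.sqrt_le_left (exp_pos r).le]
      have := Real.add_one_le_exp r
      nlinarith
    have c3 : exp (-r) ≤ 1 := Real.exp_le_one_iff.2 (by linarith)
    have c4 : (√(B + r))⁻¹ ^ 3 = (√(B + r))⁻¹ * (B + r)⁻¹ := by
      rw [pow_succ', inv_pow, Real.sq_sqrt hp.le]
    calc exp (-r) * (3 / (2 * (B + r)) * pot (ph (fun _ => 1) (hk (B + r)) z) ψ)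
        ≤ exp (-r) * (3 / (2 * (B + r)) * (A0 + A1 / (B + r))) :=
          mul_le_mul_of_nonneg_left (mul_le_mul_of_nonneg_left c1 (by positivity)) (exp_pos _).le
      _ = 3 / 2 * A0 * (exp (-r) * (B + r)⁻¹) + 3 / 2 * A1 * (exp (-r) * (B + r)⁻¹ ^ 2) := by
          field_simp
      _ ≤ _ := by
          rw [c4]
          refine add_le_add (mul_le_mul_of_nonneg_left
            (mul_le_mul_of_nonneg_right c2 (by positivity)) (by positivity))
            (mul_le_mul_of_nonneg_left ?_ (by positivity))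
          exact mul_le_of_le_one_left (by positivity) c3
  · rw [b2]
    have d1 : 0 ≤ A0 / √B := by positivity
    have d2 : 0 ≤ A1 / B := by positivity
    rw [mul_div_assoc, mul_div_assoc]
    linarith

theorem nb_pot_sub (c : ι → ℝ) {g g' : E → ℝ} (z : E) (hg : LocallyIntegrable (ph c g z))
    (hg' : LocallyIntegrable (ph c g' z)) {ψ : Wv ι Sp} (h : Cc ψ) :
    pot (ph c (fun y => g y - g' y) z) ψ = pot (ph c g z) ψ - pot (ph c g' z) ψ := by
  rw [← pot_sub hg hg' h]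
  congr 1
  funext x
  unfold ph
  rw [← Finset.sum_sub_distrib]
  exact Finset.sum_congr rfl fun j _ => by ring

theorem poisson_th {ψ : Wv ι Sp} (h : Cc ψ) (c : ι → ℝ) {B S : ℝ} (hB : 0 < B) (z : E)
    (hS : ∀ w, B ≤ w → |pot (ph c (VV w) z) ψ| ≤ S) : |pot (ph c (th B) z) ψ| ≤ S := by
  have hm : Measurable fun p : ℝ × E => exp (-p.1) * VV (B + p.1) p.2 := by
    refine Measurable.mul (by fun_prop) ?_
    exact measurable_VV.comp
      (Measurable.prodMk (f := fun p : ℝ × E => B + p.1) (by fun_prop) measurable_snd)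
  have hb : ∀ᵐ r ∂(volume.restrict (Set.Ioi (0 : ℝ))), ∀ y : E,
      |exp (-r) * VV (B + r) y| ≤ exp (-r) * (√B)⁻¹ := by
    refine (ae_restrict_iff' measurableSet_Ioi).2 (ae_of_all _ fun r hr y => ?_)
    have hr : 0 < r := hr
    rw [abs_mul, abs_of_pos (exp_pos _), abs_of_nonneg (VV_nonneg _ _)]
    exact mul_le_mul_of_nonneg_left ((VV_anti hB (by linarith) y).trans (VV_le hB y))
      (exp_pos _).le
  obtain ⟨-, a2, a3⟩ := nb_fub1 (k := fun r y => exp (-r) * VV (B + r) y) hm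
    (nb_exp_int.1.mul_const _) hb c z h
  have e : (fun y => 4 * π * th B y) = fun y => VV B y - ∫ r in Set.Ioi (0 : ℝ),
      exp (-r) * VV (B + r) y := funext fun y => th_poisson hB y
  have b1 := nb_pot_smul c (4 * π) (th B) z ψ
  rw [e, nb_pot_sub c z (nb_cont_ph c (continuous_VV B) z).locallyIntegrable a2 h, ← a3] at b1
  have b2 : |∫ r in Set.Ioi (0 : ℝ), pot (ph c (fun y => exp (-r) * VV (B + r) y) z) ψ| ≤ S := by
    have : ∫ r in Set.Ioi (0 : ℝ), exp (-r) * S = S := by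
      rw [integral_mul_const, nb_exp_int.2, one_mul]
    rw [← this, ← Real.norm_eq_abs]
    refine norm_integral_le_of_norm_le (nb_exp_int.1.mul_const _) ?_
    refine (ae_restrict_iff' measurableSet_Ioi).2 (ae_of_all _ fun r hr => ?_)
    have hr : 0 < r := hr
    rw [nb_pot_smul, Real.norm_eq_abs, abs_mul, abs_of_pos (exp_pos _)]
    exact mul_le_mul_of_nonneg_left (hS _ (by linarith)) (exp_pos _).le
  have b3 := hS B le_rfl
  have b4 : 4 * π * |pot (ph c (th B) z) ψ| ≤ 2 * S := by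
    rw [← abs_of_pos (by positivity : 0 < 4 * π), ← abs_mul, ← b1]
    exact (abs_sub _ _).trans (by linarith)
  have b5 := abs_nonneg (pot (ph c (th B) z) ψ)
  nlinarith [Real.pi_gt_three]

theorem count_split {ψ : Wv ι Sp} (h : Cc ψ) {c : ι → ℝ} {cm cb : ℝ} (hcm : ∀ j, cm ≤ |c j|)
    (hcb : ∀ j, |c j| ≤ cb) {g : E → ℝ} (hg : Continuous g) (hg0 : ∀ x, 0 ≤ g x) (z : E) :
    cm * nb ψ g z ≤ pot (ph c g z) ψ + 2 * cb * pot (ph (ngv c) g z) ψ := by
  unfold nb
  have hl : LocallyIntegrable fun x => 2 * cb * ph (ngv c) g z x :=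
    (continuous_const.mul (nb_cont_ph (ngv c) hg z)).locallyIntegrable
  rw [← pot_const_mul, ← pot_const_mul, ← pot_add (nb_cont_ph c hg z).locallyIntegrable hl h]
  refine pot_mono (continuous_const.mul (nb_cont_ph _ hg z)).locallyIntegrable
    ((nb_cont_ph c hg z).add (continuous_const.mul (nb_cont_ph (ngv c) hg z))).locallyIntegrable
    h fun x => ?_
  show cm * ph (fun _ => 1) g z x ≤ ph c g z x + 2 * cb * ph (ngv c) g z x
  unfold ph
  rw [Finset.mul_sum, Finset.mul_sum, ← Finset.sum_add_distrib]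
  refine Finset.sum_le_sum fun j _ => ?_
  have a1 := hcm j
  have a2 := hcb j
  have a3 := hg0 (x j - z)
  unfold ngv
  split_ifs with hj
  · rw [abs_of_neg hj] at a1 a2
    nlinarith
  · rw [abs_of_nonneg (not_lt.1 hj)] at a1
    nlinarith

theorem poisson_hk {ψ : Wv ι Sp} (h : Cc ψ) {c : ι → ℝ} {cm cb : ℝ} (hcm0 : 0 < cm) (hcb0 : 0 ≤ cb)
    (hcm : ∀ j, cm ≤ |c j|) (hcb : ∀ j, |c j| ≤ cb) {w S D : ℝ} (hw : 0 < w) (z : E)
    (h1 : |pot (ph c (VV w) z) ψ| ≤ S) (h2 : |pot (ph c (VV (2 * w)) z) ψ| ≤ S)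
    (hD : ∀ r, w ≤ r → r ≤ 2 * w → pot (ph (ngv c) (hk r) z) ψ ≤ D) :
    cm * nb ψ (hk w) z ≤ 6 * cb * D + S / w := by
  have hw2 : w ≤ 2 * w := by linarith
  have hb : ∀ᵐ r ∂(volume.restrict (Set.Ioc w (2 * w))), ∀ y : E, |hk r y| ≤ hk w 0 :=
    (ae_restrict_iff' measurableSet_Ioc).2 (ae_of_all _ fun r hr y =>
      (nb_abs_hk (hw.trans hr.1) y).trans (hk_zero_anti hw hr.1.le))
  have hc : ∀ a : ℝ, IntegrableOn (fun _ : ℝ => a) (Set.Ioc w (2 * w)) := fun a =>
    integrableOn_const (by simp)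
  obtain ⟨a1, -, a3⟩ := nb_fub1 (k := hk) measurable_hk (hc (hk w 0)) hb c z h
  have e : (fun y => 4 * π * ∫ r in Set.Ioc w (2 * w), hk r y) =
      fun y => VV w y - VV (2 * w) y := funext fun y => by
    rw [VV_sub hw (by positivity), intervalIntegral.integral_of_le hw2]
  have b1 := nb_pot_smul c (4 * π) (fun y => ∫ r in Set.Ioc w (2 * w), hk r y) z ψ
  rw [e, nb_pot_sub c z (nb_cont_ph c (continuous_VV _) z).locallyIntegrable
    (nb_cont_ph c (continuous_VV _) z).locallyIntegrable h, ← a3] at b1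
  have b2 : ∫ _r in Set.Ioc w (2 * w), (cm * nb ψ (hk w) z - 6 * cb * D) / 3 ≤
      ∫ r in Set.Ioc w (2 * w), pot (ph c (hk r) z) ψ := by
    refine setIntegral_mono_on (hc _) a1 measurableSet_Ioc fun r hr => ?_
    have c1 := count_split h hcm hcb (continuous_hk r) (hk_nonneg r) z
    have c2 := mul_le_mul_of_nonneg_left (hD r hr.1.le hr.2) (by positivity : 0 ≤ 2 * cb)
    have c3 : nb ψ (hk w) z ≤ 3 * nb ψ (hk r) z := by
      refine nb_le_mul h (continuous_hk w) (continuous_hk r) (fun y => ?_) z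
      refine (hk_le_hk hw hr.1.le y).trans (mul_le_mul_of_nonneg_right ?_ (hk_nonneg _ _))
      have d1 : √(r / w) ≤ 1.42 := by
        rw [Real.sqrt_le_left (by norm_num), div_le_iff₀ hw]
        have := hr.2
        nlinarith
      calc √(r / w) ^ 3 ≤ 1.42 ^ 3 := pow_le_pow_left₀ (Real.sqrt_nonneg _) d1 3
        _ ≤ 3 := by norm_num
    have c4 := mul_le_mul_of_nonneg_left c3 hcm0.le
    linarith
  rw [setIntegral_const, Real.volume_real_Ioc_of_le hw2, smul_eq_mul] at b2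
  have b3 : 0 ≤ S := (abs_nonneg _).trans h1
  have b4 : 4 * π * ∫ r in Set.Ioc w (2 * w), pot (ph c (hk r) z) ψ ≤ 2 * S := by
    rw [← b1]
    linarith [(abs_le.1 h1).2, (abs_le.1 h2).1]
  have b5 : 3 * ∫ r in Set.Ioc w (2 * w), pot (ph c (hk r) z) ψ ≤ S := by
    by_contra hn
    have hn := not_le.1 hn
    nlinarith [Real.pi_gt_three]
  have b6 : cm * nb ψ (hk w) z - 6 * cb * D ≤ S / w := by
    rw [le_div_iff₀ hw]
    nlinarith
  linarith

end Pool.Agent.Lib.MP_0655ed_mp
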