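import Mathlib

namespace Pool.Agent.Lib.MP_0655ed_mp

theorem nm_p {e : ℝ} (he : 0 < e) (he1 : e ≤ 1) {i j : ℕ} (h : i ≤ j) : e ^ j ≤ e ^ i :=
  pow_le_pow_of_le_one he.le he1 h

theorem nm_e {e : ℝ} (he : 0 < e) (he1 : e ≤ 1) {j : ℕ} (h : 1 ≤ j) : e ^ j ≤ e := by
  simpa using nm_p he he1 h

theorem nm_1 {e : ℝ} (he : 0 < e) (he1 : e ≤ 1) (j : ℕ) : e ^ j ≤ 1 := pow_le_one₀ he.le he1

theorem nm_m {e x : ℝ} (he : 0 < e) (he1 : e ≤ 1) (hx : 0 ≤ x) {i j : ℕ} (h : i ≤ j) :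
    e ^ j * x ≤ e ^ i * x := mul_le_mul_of_nonneg_right (nm_p he he1 h) hx

theorem nm_s1 {C e s τ ν χ : ℝ} (hC : 1 ≤ C) (he : 0 < e) (he1 : e ≤ 1) (hs : 0 ≤ s) (hτ : 0 ≤ τ)
    (q1 : e * (8 * C ^ 2) ≤ 1) (n1 : ν ≤ C * (1 + τ + s))
    (n3 : χ ≤ C * (e ^ 26 + e ^ 4 * τ + e ^ 16 * s))
    (n4 : τ ≤ C * (s ^ 2 + e ^ 60 * ν + χ + e ^ 4 * τ + e ^ 26)) :
    τ ≤ 14 * C ^ 2 * (s ^ 2 + e ^ 26) := by
  have hC0 : 0 ≤ C := by linarith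
  have hCC : C ≤ C ^ 2 := by nlinarith
  have a1 : e ^ 60 * ν ≤ C * (e ^ 26 + e ^ 4 * τ + e ^ 16 * s) := by
    calc e ^ 60 * ν ≤ e ^ 60 * (C * (1 + τ + s)) := mul_le_mul_of_nonneg_left n1 (by positivity)
      _ = C * (e ^ 60 + e ^ 60 * τ + e ^ 60 * s) := by ring
      _ ≤ _ := mul_le_mul_of_nonneg_left (add_le_add (add_le_add (nm_p he he1 (by norm_num))
          (nm_m he he1 hτ (by norm_num))) (nm_m he he1 hs (by norm_num))) hC0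
  have a2 : e ^ 16 * s ≤ s ^ 2 + e ^ 26 := by
    have h1 : e ^ 32 ≤ e ^ 26 := nm_p he he1 (by norm_num)
    have h0 : (e ^ 16 - s) ^ 2 = e ^ 32 - 2 * (e ^ 16 * s) + s ^ 2 := by ring
    have h2 := sq_nonneg (e ^ 16 - s)
    have h3 : 0 ≤ e ^ 16 * s := by positivity
    linarith
  have a3 : e ^ 4 * τ ≤ e * τ := mul_le_mul_of_nonneg_right (nm_e he he1 (by norm_num)) hτ
  have a4 : C * (2 * C + 1) * e ≤ 1 / 2 := by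
    have : C * e ≤ C ^ 2 * e := mul_le_mul_of_nonneg_right hCC he.le
    have h2 : 0 ≤ C ^ 2 * e := by positivity
    linarith
  have a5 : C * (2 * C + 1) * (e ^ 4 * τ) ≤ 1 / 2 * τ := by
    calc C * (2 * C + 1) * (e ^ 4 * τ) ≤ C * (2 * C + 1) * (e * τ) :=
          mul_le_mul_of_nonneg_left a3 (by positivity)
      _ = C * (2 * C + 1) * e * τ := by ring
      _ ≤ _ := mul_le_mul_of_nonneg_right a4 hτ
  have a6 : C * (e ^ 60 * ν + χ) ≤ C * (2 * (C * (e ^ 26 + e ^ 4 * τ + e ^ 16 * s))) :=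
    mul_le_mul_of_nonneg_left (by linarith) hC0
  have a7 : C * (s ^ 2 + e ^ 26) ≤ C ^ 2 * (s ^ 2 + e ^ 26) :=
    mul_le_mul_of_nonneg_right hCC (by positivity)
  have a8 : C ^ 2 * (e ^ 26 + e ^ 16 * s) ≤ C ^ 2 * (2 * (s ^ 2 + e ^ 26)) :=
    mul_le_mul_of_nonneg_left (by linarith [sq_nonneg s]) (by positivity)
  have a9 : 0 ≤ C ^ 2 * (s ^ 2 + e ^ 26) := by positivity
  linarith

theorem nm_s2 {C c1 e s τ β : ℝ} (hC : 1 ≤ C) (hc1 : 0 ≤ c1) (he : 0 < e) (he1 : e ≤ 1)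
    (hτ : 0 ≤ τ) (s1 : τ ≤ c1 * (s ^ 2 + 1)) (n2 : β ≤ C * (e ^ 28 * (1 + τ) + s)) :
    β ≤ 2 * C * (1 + c1) * (s ^ 2 + 1) := by
  have a1 : e ^ 28 * (1 + τ) ≤ 1 * (1 + τ) :=
    mul_le_mul_of_nonneg_right (nm_1 he he1 _) (by linarith)
  have a2 : s ≤ s ^ 2 + 1 := by nlinarith
  have a3 : C * (e ^ 28 * (1 + τ) + s) ≤ C * (2 * (1 + c1) * (s ^ 2 + 1)) := by
    refine mul_le_mul_of_nonneg_left ?_ (by linarith)
    have : 0 ≤ c1 * (s ^ 2 + 1) := by positivity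
    linarith [sq_nonneg s]
  linarith

theorem nm_s5 {C c2 e s α β : ℝ} (hC : 1 ≤ C) (hc2 : 1 ≤ c2) (he : 0 < e) (he1 : e ≤ 1)
    (hs : 0 ≤ s) (hβ : 0 ≤ β) (q2 : e * (4 * C ^ 3 * c2) ≤ 1) (s2 : β ≤ c2 * (s ^ 2 + 1))
    (n5 : s ≤ C * α) (n6 : α ^ 2 ≤ C * (1 + e ^ 120 * β)) :
    s ≤ 3 * C ^ 3 * (1 + c2) ∧ α ≤ 3 * C ^ 3 * (1 + c2) := by
  have hC0 : 0 ≤ C := by linarith
  have hC3 : 1 ≤ C ^ 3 := one_le_pow₀ hC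
  have hC13 : C ≤ C ^ 3 := le_self_pow₀ hC (by norm_num)
  have s3 : α ^ 2 ≤ C * (1 + e * (c2 * (s ^ 2 + 1))) :=
    n6.trans (mul_le_mul_of_nonneg_left (by
      have := mul_le_mul (nm_e he he1 (j := 120) (by norm_num)) s2 hβ he.le
      linarith) hC0)
  have s4 : s ^ 2 ≤ C ^ 2 * α ^ 2 := by
    rw [← mul_pow]; exact pow_le_pow_left₀ hs n5 2
  have a1 : C ^ 2 * α ^ 2 ≤ C ^ 2 * (C * (1 + e * (c2 * (s ^ 2 + 1)))) :=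
    mul_le_mul_of_nonneg_left s3 (by positivity)
  have a2 : C ^ 3 * (e * c2) * (s ^ 2 + 1) ≤ 1 / 4 * (s ^ 2 + 1) :=
    mul_le_mul_of_nonneg_right (by linarith) (by positivity)
  have s5 : s ^ 2 ≤ 2 * C ^ 3 := by linarith
  have a3 : C * (e * c2) * (s ^ 2 + 1) ≤ C ^ 3 * (e * c2) * (s ^ 2 + 1) :=
    mul_le_mul_of_nonneg_right (mul_le_mul_of_nonneg_right hC13 (by positivity)) (by positivity)
  have s7 : α ^ 2 ≤ 2 * C ^ 3 := by linarith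
  have b1 : C ^ 3 ≤ C ^ 3 * c2 := le_mul_of_one_le_right (by positivity) hc2
  have b2 : ∀ y : ℝ, y ≤ y ^ 2 + 1 := fun y => by nlinarith
  constructor
  · linarith [b2 s]
  · linarith [b2 α]

theorem nm_s12 {C c1 c3 c5 e s τ χ w : ℝ} (hC : 1 ≤ C) (hc1 : 0 ≤ c1) (hc3 : 0 ≤ c3)
    (hc5 : 0 ≤ c5) (he : 0 < e) (he1 : e ≤ 1) (hs : 0 ≤ s)
    (q3 : e * (2 * C * (1 + (C + 1) * c1)) ≤ 1) (s1 : τ ≤ c1 * (s ^ 2 + e ^ 26)) (s6 : s ≤ c3)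
    (s11 : w ≤ c5) (n3 : χ ≤ C * (e ^ 26 + e ^ 4 * τ + e ^ 16 * s))
    (n7 : s ^ 2 ≤ C * (e ^ 2 * s ^ 2 + χ + e ^ 4 * τ + e ^ 14 * w)) :
    s ≤ (2 * C * (C * (1 + c3) + (C + 1) * c1 + c5) + 1) * e ^ 7 := by
  have hC0 : 0 ≤ C := by linarith
  have a1 : e ^ 4 * τ ≤ e * (c1 * s ^ 2) + c1 * e ^ 14 := by
    calc e ^ 4 * τ ≤ e ^ 4 * (c1 * (s ^ 2 + e ^ 26)) :=
          mul_le_mul_of_nonneg_left s1 (by positivity)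
      _ = e ^ 4 * (c1 * s ^ 2) + c1 * e ^ 30 := by ring
      _ ≤ _ := add_le_add (mul_le_mul_of_nonneg_right (nm_e he he1 (by norm_num)) (by positivity))
          (mul_le_mul_of_nonneg_left (nm_p he he1 (by norm_num)) hc1)
  have a2 : e ^ 26 + e ^ 16 * s ≤ (1 + c3) * e ^ 14 := by
    have h1 : e ^ 26 ≤ e ^ 14 := nm_p he he1 (by norm_num)
    have h0 : e ^ 16 * s ≤ e ^ 14 * c3 :=
      mul_le_mul (nm_p he he1 (by norm_num)) s6 hs (by positivity)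
    linarith
  have a3 : e ^ 2 * s ^ 2 ≤ e * s ^ 2 :=
    mul_le_mul_of_nonneg_right (nm_e he he1 (by norm_num)) (by positivity)
  have a4 : e ^ 14 * w ≤ e ^ 14 * c5 := mul_le_mul_of_nonneg_left s11 (by positivity)
  have b1 : C * (e ^ 26 + e ^ 16 * s) ≤ C * ((1 + c3) * e ^ 14) := mul_le_mul_of_nonneg_left a2 hC0
  have b2 : (C + 1) * (e ^ 4 * τ) ≤ (C + 1) * (e * (c1 * s ^ 2) + c1 * e ^ 14) :=
    mul_le_mul_of_nonneg_left a1 (by positivity)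
  have a6 : s ^ 2 ≤ C * (e * s ^ 2 + (C * ((1 + c3) * e ^ 14) +
      (C + 1) * (e * (c1 * s ^ 2) + c1 * e ^ 14)) + e ^ 14 * c5) :=
    n7.trans (mul_le_mul_of_nonneg_left (by linarith) hC0)
  have a7 : e * (C * (1 + (C + 1) * c1)) * s ^ 2 ≤ 1 / 2 * s ^ 2 :=
    mul_le_mul_of_nonneg_right (by linarith) (by positivity)
  set d := 2 * C * (C * (1 + c3) + (C + 1) * c1 + c5) with hd
  have hd0 : 0 ≤ d := by positivity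
  have a8 : s ^ 2 ≤ d * e ^ 14 := by rw [hd]; linarith
  have a9 : d * e ^ 14 ≤ (d + 1) ^ 2 * e ^ 14 :=
    mul_le_mul_of_nonneg_right (by nlinarith) (by positivity)
  have a10 : s ^ 2 ≤ ((d + 1) * e ^ 7) ^ 2 := by
    calc s ^ 2 ≤ (d + 1) ^ 2 * e ^ 14 := a8.trans a9
      _ = _ := by ring
  exact (pow_le_pow_iff_left₀ hs (by positivity) (by norm_num)).mp a10

theorem nm_s14 {C c1 c4 c6 e s τ β : ℝ} (hC : 1 ≤ C) (hc1 : 0 ≤ c1) (hc4 : 0 ≤ c4)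
    (hc6 : 0 ≤ c6) (he : 0 < e) (he1 : e ≤ 1) (hs : 0 ≤ s)
    (q4 : e * (2 * (C * (c6 + c1 * (c6 ^ 2 + 1) + C * (1 + c4 + c6)))) ≤ 1)
    (s1 : τ ≤ c1 * (s ^ 2 + e ^ 26)) (s8 : τ ≤ c4) (s13 : s ≤ c6 * e ^ 7)
    (n2 : β ≤ C * (e ^ 28 * (1 + τ) + s)) (n8 : e ^ 11 ≤ C * (e ^ 11 * s + τ + e ^ 6 * β)) :
    False := by
  have hC0 : 0 ≤ C := by linarith
  have a1 : e ^ 11 * s ≤ c6 * e ^ 13 := by
    calc e ^ 11 * s ≤ e ^ 11 * (c6 * e ^ 7) := mul_le_mul_of_nonneg_left s13 (by positivity)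
      _ = c6 * e ^ 18 := by ring
      _ ≤ _ := mul_le_mul_of_nonneg_left (nm_p he he1 (by norm_num)) hc6
  have a2 : τ ≤ c1 * (c6 ^ 2 + 1) * e ^ 13 := by
    have h1 : s ^ 2 ≤ (c6 * e ^ 7) ^ 2 := pow_le_pow_left₀ hs s13 2
    have h2 : c6 ^ 2 * e ^ 14 ≤ c6 ^ 2 * e ^ 13 :=
      mul_le_mul_of_nonneg_left (nm_p he he1 (by norm_num)) (by positivity)
    have h3 : e ^ 26 ≤ e ^ 13 := nm_p he he1 (by norm_num)
    have h4 : c1 * (s ^ 2 + e ^ 26) ≤ c1 * (c6 ^ 2 * e ^ 13 + e ^ 13) :=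
      mul_le_mul_of_nonneg_left (by linarith) hc1
    linarith
  have a3 : e ^ 6 * β ≤ C * (1 + c4 + c6) * e ^ 13 := by
    have h1 : e ^ 28 * (1 + τ) ≤ e ^ 28 * (1 + c4) :=
      mul_le_mul_of_nonneg_left (by linarith) (by positivity)
    have h2 : e ^ 28 * (1 + c4) ≤ e ^ 7 * (1 + c4) := nm_m he he1 (by positivity) (by norm_num)
    have h3 : β ≤ C * (e ^ 7 * (1 + c4) + c6 * e ^ 7) :=
      n2.trans (mul_le_mul_of_nonneg_left (by linarith) hC0)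
    calc e ^ 6 * β ≤ e ^ 6 * (C * (e ^ 7 * (1 + c4) + c6 * e ^ 7)) :=
          mul_le_mul_of_nonneg_left h3 (by positivity)
      _ = _ := by ring
  set c7 := C * (c6 + c1 * (c6 ^ 2 + 1) + C * (1 + c4 + c6)) with hc7
  have h7 : 0 ≤ c7 := by positivity
  have s14 : e ^ 11 ≤ c7 * e ^ 13 := by
    calc e ^ 11 ≤ C * (c6 * e ^ 13 + c1 * (c6 ^ 2 + 1) * e ^ 13 + C * (1 + c4 + c6) * e ^ 13) :=
          n8.trans (mul_le_mul_of_nonneg_left (by linarith) hC0)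
      _ = _ := by rw [hc7]; ring
  have s15 : c7 * e ^ 13 ≤ c7 * e ^ 12 := mul_le_mul_of_nonneg_left (nm_p he he1 (by norm_num)) h7
  have s16 : c7 * e * e ^ 11 ≤ 1 / 2 * e ^ 11 :=
    mul_le_mul_of_nonneg_right (by linarith) (by positivity)
  have := pow_pos he 11
  linarith

/-- the final numerical contradiction, in normalised variables -/
theorem num_core {C : ℝ} (hC : 1 ≤ C) : ∃ e0 : ℝ, 0 < e0 ∧ e0 ≤ 1 ∧ ∀ e s τ ν β χ α : ℝ, 0 < e →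
    e ≤ e0 → 0 ≤ s → 0 ≤ τ → 0 ≤ β →
    ν ≤ C * (1 + τ + s) → β ≤ C * (e ^ 28 * (1 + τ) + s) →
    χ ≤ C * (e ^ 26 + e ^ 4 * τ + e ^ 16 * s) →
    τ ≤ C * (s ^ 2 + e ^ 60 * ν + χ + e ^ 4 * τ + e ^ 26) →
    s ≤ C * α → α ^ 2 ≤ C * (1 + e ^ 120 * β) →
    s ^ 2 ≤ C * (e ^ 2 * s ^ 2 + χ + e ^ 4 * τ + e ^ 14 * (1 + α + β + ν)) →
    e ^ 11 ≤ C * (e ^ 11 * s + τ + e ^ 6 * β) → False := by
  have hC0 : 0 < C := by linarith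
  obtain ⟨c1, hc1⟩ : ∃ c1 : ℝ, c1 = 14 * C ^ 2 := ⟨_, rfl⟩
  have h1 : 0 < c1 := by rw [hc1]; positivity
  obtain ⟨c2, hc2⟩ : ∃ c2 : ℝ, c2 = 2 * C * (1 + c1) := ⟨_, rfl⟩
  have h2 : 1 ≤ c2 := by rw [hc2]; nlinarith
  obtain ⟨c3, hc3⟩ : ∃ c3 : ℝ, c3 = 3 * C ^ 3 * (1 + c2) := ⟨_, rfl⟩
  have h3 : 0 < c3 := by rw [hc3]; positivity
  obtain ⟨c4, hc4⟩ : ∃ c4 : ℝ, c4 = c1 * (c3 ^ 2 + 1) := ⟨_, rfl⟩
  have h4 : 0 < c4 := by rw [hc4]; positivity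
  obtain ⟨c5, hc5⟩ : ∃ c5 : ℝ, c5 = 1 + c3 + C * (1 + c4 + c3) + C * (1 + c4 + c3) := ⟨_, rfl⟩
  have h5 : 0 < c5 := by rw [hc5]; positivity
  obtain ⟨c6, hc6⟩ : ∃ c6 : ℝ, c6 = 2 * C * (C * (1 + c3) + (C + 1) * c1 + c5) + 1 := ⟨_, rfl⟩
  have h6 : 0 < c6 := by rw [hc6]; positivity
  obtain ⟨q1, hq1⟩ : ∃ q : ℝ, q = 8 * C ^ 2 := ⟨_, rfl⟩
  obtain ⟨q2, hq2⟩ : ∃ q : ℝ, q = 4 * C ^ 3 * c2 := ⟨_, rfl⟩
  obtain ⟨q3, hq3⟩ : ∃ q : ℝ, q = 2 * C * (1 + (C + 1) * c1) := ⟨_, rfl⟩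
  obtain ⟨q4, hq4⟩ : ∃ q : ℝ, q = 2 * (C * (c6 + c1 * (c6 ^ 2 + 1) + C * (1 + c4 + c6))) :=
    ⟨_, rfl⟩
  have p1 : 0 ≤ q1 := by rw [hq1]; positivity
  have p2 : 0 ≤ q2 := by rw [hq2]; positivity
  have p3 : 0 ≤ q3 := by rw [hq3]; positivity
  have p4 : 0 ≤ q4 := by rw [hq4]; positivity
  have hQ0 : 0 < q1 + q2 + q3 + q4 + 1 := by positivity
  refine ⟨1 / (q1 + q2 + q3 + q4 + 1), by positivity, ?_, ?_⟩
  · rw [div_le_one hQ0]; linarith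
  intro e s τ ν β χ α he he0 hs hτ hβ n1 n2 n3 n4 n5 n6 n7 n8
  have heQ : e * (q1 + q2 + q3 + q4 + 1) ≤ 1 := by rwa [le_div_iff₀ hQ0] at he0
  have r1 := mul_nonneg he.le p1
  have r2 := mul_nonneg he.le p2
  have r3 := mul_nonneg he.le p3
  have r4 := mul_nonneg he.le p4
  have he1 : e ≤ 1 := by linarith
  have s1 : τ ≤ c1 * (s ^ 2 + e ^ 26) := by
    rw [hc1]; exact nm_s1 hC he he1 hs hτ (by rw [← hq1]; linarith) n1 n3 n4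
  have s1' : τ ≤ c1 * (s ^ 2 + 1) :=
    s1.trans (mul_le_mul_of_nonneg_left (by linarith [nm_1 he he1 26]) h1.le)
  have s2 : β ≤ c2 * (s ^ 2 + 1) := by rw [hc2]; exact nm_s2 hC h1.le he he1 hτ s1' n2
  obtain ⟨s6, s7⟩ := nm_s5 hC h2 he he1 hs hβ (by rw [← hq2]; linarith) s2 n5 n6
  rw [← hc3] at s6 s7
  have s8 : τ ≤ c4 := by
    rw [hc4]
    exact s1'.trans (mul_le_mul_of_nonneg_left (by linarith [pow_le_pow_left₀ hs s6 2]) h1.le)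
  have s9 : β ≤ C * (1 + c4 + c3) := by
    have a1 : e ^ 28 * (1 + τ) ≤ 1 * (1 + τ) :=
      mul_le_mul_of_nonneg_right (nm_1 he he1 _) (by linarith)
    exact n2.trans (mul_le_mul_of_nonneg_left (by linarith) hC0.le)
  have s10 : ν ≤ C * (1 + c4 + c3) := n1.trans (mul_le_mul_of_nonneg_left (by linarith) hC0.le)
  have s11 : 1 + α + β + ν ≤ c5 := by rw [hc5]; linarith
  have s13 := nm_s12 hC h1.le h3.le h5.le he he1 hs (by rw [← hq3]; linarith) s1 s6 s11 n3 n7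
  rw [← hc6] at s13
  exact nm_s14 hC h1.le h4.le h6.le he he1 hs (by rw [← hq4]; linarith) s1 s8 s13 n2 n8

end Pool.Agent.Lib.MP_0655ed_mp
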