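import Pool.Agent.Lib.MP_0655ed_mp.ImpNb

open scoped ComplexConjugate
open Finset MeasureTheory Real Filter Topology

set_option linter.unusedSectionVars false

namespace Pool.Agent.Lib.MP_0655ed_mp

/-- weighted Cauchy-Schwarz -/
theorem pl_cs {Z : Type} [MeasurableSpace Z] {μ : Measure Z} {ρ : Z → ℝ} (hρ : Integrable ρ μ)
    (hρ0 : ∀ z, 0 ≤ ρ z) (hρ1 : ∫ z, ρ z ∂μ = 1) {F : Z → ℂ} (hF : AEStronglyMeasurable F μ)
    {C : ℝ} (hC : ∀ᵐ z ∂μ, ρ z ≠ 0 → ‖F z‖ ≤ C) :
    ‖∫ z, (ρ z : ℂ) * F z ∂μ‖ ^ 2 ≤ ∫ z, ρ z * ‖F z‖ ^ 2 ∂μ := by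
  have h1 : Integrable (fun z => ρ z * ‖F z‖) μ := by
    refine (hρ.mul_const C).mono' (hρ.aestronglyMeasurable.mul hF.norm) ?_
    filter_upwards [hC] with z hz
    rw [Real.norm_eq_abs, abs_of_nonneg (mul_nonneg (hρ0 z) (norm_nonneg _))]
    rcases eq_or_ne (ρ z) 0 with h0 | h0
    · simp [h0]
    · exact mul_le_mul_of_nonneg_left (hz h0) (hρ0 z)
  have h2 : Integrable (fun z => ρ z * ‖F z‖ ^ 2) μ := by
    refine (hρ.mul_const (C ^ 2)).mono' (hρ.aestronglyMeasurable.mul (hF.norm.pow 2)) ?_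
    filter_upwards [hC] with z hz
    rw [Real.norm_eq_abs, abs_of_nonneg (mul_nonneg (hρ0 z) (sq_nonneg _))]
    rcases eq_or_ne (ρ z) 0 with h0 | h0
    · simp [h0]
    · exact mul_le_mul_of_nonneg_left (pow_le_pow_left₀ (norm_nonneg _) (hz h0) 2) (hρ0 z)
  set m := ∫ z, ρ z * ‖F z‖ ∂μ with hm
  have h3 : ‖∫ z, (ρ z : ℂ) * F z ∂μ‖ ≤ m := by
    refine (norm_integral_le_integral_norm _).trans (le_of_eq ?_)
    refine integral_congr_ae (ae_of_all _ fun z => ?_)
    simp only [norm_mul, Complex.norm_real, Real.norm_eq_abs, abs_of_nonneg (hρ0 z)]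
  have h4 : ∫ z, 2 * m * (ρ z * ‖F z‖) ∂μ ≤ ∫ z, (ρ z * ‖F z‖ ^ 2 + m ^ 2 * ρ z) ∂μ := by
    refine integral_mono (h1.const_mul _) (h2.add (hρ.const_mul _)) fun z => ?_
    have := mul_nonneg (hρ0 z) (sq_nonneg (‖F z‖ - m))
    simp only
    nlinarith
  rw [integral_const_mul, integral_add h2 (hρ.const_mul _), integral_const_mul, hρ1, ← hm] at h4
  have h5 := pow_le_pow_left₀ (norm_nonneg _) h3 2
  nlinarith

/-- Jensen and Fubini -/
theorem pl_jf {Z J ι : Type} [Fintype ι] [Fintype J] [TopologicalSpace Z] [MeasurableSpace Z]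
    [OpensMeasurableSpace Z] [SecondCountableTopology Z] {μ : Measure Z} [SFinite μ] {ρ : Z → ℝ}
    (hρ : Integrable ρ μ) (hρ0 : ∀ z, 0 ≤ ρ z) (hρ1 : ∫ z, ρ z ∂μ = 1) {U : J → X ι → ℝ}
    (hU : ∀ j, Continuous (U j)) (hU0 : ∀ j x, 0 ≤ U j x) {F : J → Z → X ι → ℂ}
    (hF : ∀ j, Continuous fun p : Z × X ι => F j p.1 p.2) {C R T : ℝ}
    (hb : ∀ᵐ z ∂μ, ρ z ≠ 0 → ∀ j x, ‖F j z x‖ ≤ C ∧ (F j z x ≠ 0 → ‖x‖ ≤ R))
    (hT : ∀ᵐ z ∂μ, ρ z ≠ 0 → ∑ j, ∫ x, U j x * ‖F j z x‖ ^ 2 ≤ T) :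
    ∑ j, ∫ x, U j x * ‖∫ z, (ρ z : ℂ) * F j z x ∂μ‖ ^ 2 ≤ T := by
  have hI : ∀ j, Integrable (fun p : Z × X ι => ρ p.1 * (U j p.2 * ‖F j p.1 p.2‖ ^ 2))
      (μ.prod volume) := by
    intro j
    have h1 : Integrable ((Metric.closedBall (0 : X ι) R).indicator fun x => U j x * C ^ 2) :=
      (integrable_indicator_iff measurableSet_closedBall).mpr
        (((hU j).mul continuous_const).continuousOn.integrableOn_compact (isCompact_closedBall _ _))
    refine (hρ.mul_prod h1).mono' ?_ ?_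
    · exact (hρ.aestronglyMeasurable.comp_fst).mul
        ((((hU j).comp continuous_snd).mul ((hF j).norm.pow 2)).aestronglyMeasurable)
    · filter_upwards [Measure.quasiMeasurePreserving_fst.ae hb] with p hp
      rw [Real.norm_eq_abs, abs_of_nonneg (mul_nonneg (hρ0 _)
        (mul_nonneg (hU0 _ _) (sq_nonneg _)))]
      rcases eq_or_ne (ρ p.1) 0 with h0 | h0
      · simp [h0]
      · refine mul_le_mul_of_nonneg_left ?_ (hρ0 _)
        rcases eq_or_ne (F j p.1 p.2) 0 with h2 | h2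
        · rw [h2]
          simp only [norm_zero, ne_eq, OfNat.ofNat_ne_zero, not_false_eq_true, zero_pow, mul_zero]
          exact Set.indicator_nonneg (fun x _ => mul_nonneg (hU0 _ _) (sq_nonneg _)) _
        · rw [Set.indicator_of_mem (mem_closedBall_zero_iff.mpr ((hp h0 j p.2).2 h2))]
          exact mul_le_mul_of_nonneg_left
            (pow_le_pow_left₀ (norm_nonneg _) (hp h0 j p.2).1 2) (hU0 _ _)
  have h2 : ∀ j, ∫ x, U j x * ‖∫ z, (ρ z : ℂ) * F j z x ∂μ‖ ^ 2 ≤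
      ∫ z, ρ z * (∫ x, U j x * ‖F j z x‖ ^ 2) ∂μ := by
    intro j
    have h3 := integral_integral_swap (f := fun z x => ρ z * (U j x * ‖F j z x‖ ^ 2)) (hI j)
    simp only [integral_const_mul] at h3
    rw [h3]
    refine integral_mono_of_nonneg (ae_of_all _ fun x => mul_nonneg (hU0 _ _) (sq_nonneg _))
      (hI j).integral_prod_right (ae_of_all _ fun x => ?_)
    have h4 := pl_cs hρ hρ0 hρ1 (F := fun z => F j z x)
      ((hF j).comp (continuous_id.prodMk continuous_const)).aestronglyMeasurable (C := C)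
      (by filter_upwards [hb] with z hz h0 using (hz h0 j x).1)
    refine (mul_le_mul_of_nonneg_left h4 (hU0 j x)).trans (le_of_eq ?_)
    rw [← integral_const_mul]
    refine integral_congr_ae (ae_of_all _ fun z => ?_)
    simp only
    ring
  have h5 : ∀ j, Integrable (fun z => ρ z * ∫ x, U j x * ‖F j z x‖ ^ 2) μ := by
    intro j
    have := (hI j).integral_prod_left
    simpa only [integral_const_mul] using this
  refine (Finset.sum_le_sum fun j _ => h2 j).trans ?_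
  rw [← integral_finsetSum _ fun j _ => h5 j]
  have h6 : ∫ z, ρ z * T ∂μ = T := by rw [integral_mul_const, hρ1, one_mul]
  rw [← h6]
  refine integral_mono_ae (integrable_finsetSum _ fun j _ => h5 j) (hρ.mul_const T) ?_
  filter_upwards [hT] with z hz
  rw [← Finset.mul_sum]
  rcases eq_or_ne (ρ z) 0 with h0 | h0
  · simp [h0]
  · exact mul_le_mul_of_nonneg_left (hz h0) (hρ0 z)

theorem pl_bound {T Y : Type} [Fintype T] [NormedAddCommGroup Y] {ψ : T → Y → ℂ} (h : Cc ψ) :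
    ∃ C R : ℝ, ∀ τ x, ‖ψ τ x‖ ≤ C ∧ (ψ τ x ≠ 0 → ‖x‖ ≤ R) := by
  choose C hC using fun τ => (h τ).1.bounded_above_of_compact_support (h τ).2
  choose R hR0 hR using fun τ => (h τ).2.exists_pos_le_norm
  refine ⟨∑ τ, |C τ|, ∑ τ, R τ, fun τ x => ⟨?_, fun h0 => ?_⟩⟩
  · exact (hC τ x).trans ((le_abs_self _).trans
      (Finset.single_le_sum (f := fun τ => |C τ|) (fun _ _ => abs_nonneg _) (Finset.mem_univ τ)))
  · have : ‖x‖ < R τ := lt_of_not_ge fun h1 => h0 (hR τ x h1)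
    exact this.le.trans (Finset.single_le_sum (fun τ _ => (hR0 τ).le) (Finset.mem_univ τ))

/-- a mollifier of radius `r` -/
structure pl_Bump (r : ℝ) (ρ : E → ℝ) : Prop where
  cont : Continuous ρ
  nonneg : ∀ h, 0 ≤ ρ h
  supp : ∀ h, ρ h ≠ 0 → ‖h‖ ≤ r
  one : ∫ h, ρ h = 1
  le : ∀ h, ρ h ≤ 1 / r ^ 3

theorem pl_bump {r : ℝ} (hr : 0 < r) : ∃ ρ, pl_Bump r ρ := by
  let f : ContDiffBump (0 : E) := ⟨r / 2, r, by positivity, by linarith⟩
  refine ⟨f.normed volume, f.continuous_normed, f.nonneg_normed, fun h h0 => ?_,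
    f.integral_normed, fun h => ?_⟩
  · have : h ∈ Function.support (f.normed volume) := h0
    rw [f.support_normed_eq] at this
    exact (mem_ball_zero_iff.mp this).le
  · refine (f.normed_le_div_measure_closedBall_rIn volume h).trans (le_of_eq ?_)
    rw [Measure.real, Real.volume_pi_closedBall _ f.rIn_pos.le, ENNReal.toReal_ofReal
      (pow_nonneg (mul_nonneg zero_le_two f.rIn_pos.le) _)]
    show 1 / (2 * (r / 2)) ^ Fintype.card (Fin 3) = _
    rw [Fintype.card_fin]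
    ring

theorem pl_Bump.compact {r : ℝ} {ρ : E → ℝ} (h : pl_Bump r ρ) : HasCompactSupport ρ :=
  HasCompactSupport.intro (isCompact_closedBall 0 r) fun x hx => by
    by_contra h0
    exact hx (mem_closedBall_zero_iff.mpr (h.supp x h0))

theorem pl_Bump.integrable {r : ℝ} {ρ : E → ℝ} (h : pl_Bump r ρ) : Integrable ρ :=
  h.cont.integrable_of_hasCompactSupport h.compact

variable {σ Sp ι : Type} [Fintype ι] [DecidableEq ι] [Fintype Sp]

/-- displacement of one particle -/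
def pl_s (j : ι) (h : E) : X ι := Pi.single j h

/-- smoothing in one coordinate -/
noncomputable def pl_sm (ρ : E → ℝ) (j : ι) (ψ : Wv ι Sp) : Wv ι Sp :=
  fun τ x => ∫ h, (ρ h : ℂ) * ψ τ (x + pl_s j h)

theorem pl_s_same (j : ι) (h : E) : pl_s j h j = h := Pi.single_eq_same _ _

theorem pl_s_ne {i j : ι} (hij : i ≠ j) (h : E) : pl_s j h i = 0 := Pi.single_eq_of_ne hij _

theorem pl_norm_single (j : ι) (h : E) : ‖pl_s j h‖ = ‖h‖ :=
  Pi.norm_single (G := fun _ => E) h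

theorem pl_cont_single (j : ι) : Continuous fun h : E => pl_s j h :=
  continuous_single (A := fun _ => E) j

theorem pl_sm_cc {r : ℝ} {ρ : E → ℝ} (hρ : pl_Bump r ρ) (j : ι) {ψ : Wv ι Sp} (h : Cc ψ) :
    Cc (pl_sm ρ j ψ) := by
  obtain ⟨C, R, hb⟩ := pl_bound h
  intro τ
  constructor
  · rw [← continuousOn_univ]
    refine continuousOn_integral_of_compact_support (k := Metric.closedBall 0 r)
      (isCompact_closedBall _ _) (Continuous.continuousOn ?_) fun x y _ hy => ?_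
    · exact (Complex.continuous_ofReal.comp (hρ.cont.comp continuous_snd)).mul
        ((h τ).1.comp (continuous_fst.add ((pl_cont_single j).comp continuous_snd)))
    · have : ρ y = 0 := by
        by_contra h0
        exact hy (mem_closedBall_zero_iff.mpr (hρ.supp y h0))
      simp [this]
  · refine HasCompactSupport.intro (isCompact_closedBall 0 (R + r)) fun x hx => ?_
    have : ∀ y, (ρ y : ℂ) * ψ τ (x + pl_s j y) = 0 := by
      intro y
      by_contra h0
      have h1 : ρ y ≠ 0 := fun h1 => h0 (by simp [h1])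
      have h2 := (hb τ _).2 (right_ne_zero_of_mul h0)
      have h3 := norm_sub_le (x + pl_s j y) (pl_s j y)
      rw [add_sub_cancel_right, pl_norm_single] at h3
      exact hx (mem_closedBall_zero_iff.mpr (by linarith [hρ.supp y h1]))
    simp [pl_sm, this]

theorem pl_single_eq (j : ι) (h : E) : pl_s j h = ∑ k, h k • dir j k := by
  funext i k
  rcases eq_or_ne i j with rfl | hij
  · simp [pl_s, dir, Finset.sum_apply, Pi.single_apply]
  · simp [pl_s, dir, Finset.sum_apply, Pi.single_eq_of_ne hij]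

theorem pl_dv_le (j : ι) (h : E) (ψ : Wv ι Sp) (τ : ι → Sp) (x : X ι) :
    ‖Dv (pl_s j h) ψ τ x‖ ^ 2 ≤ 3 * ‖h‖ ^ 2 * ∑ k, ‖Dv (dir j k) ψ τ x‖ ^ 2 := by
  have h1 : ‖Dv (pl_s j h) ψ τ x‖ ≤ ‖h‖ * ∑ k, ‖Dv (dir j k) ψ τ x‖ := by
    unfold Dv
    rw [pl_single_eq, map_sum, Finset.mul_sum]
    refine (norm_sum_le _ _).trans (Finset.sum_le_sum fun k _ => ?_)
    rw [map_smul, norm_smul]
    exact mul_le_mul_of_nonneg_right (norm_le_pi_norm h k) (norm_nonneg _)
  refine (pow_le_pow_left₀ (norm_nonneg _) h1 2).trans ?_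
  rw [mul_pow]
  have h2 := sq_sum_le_card_mul_sum_sq (s := (Finset.univ : Finset (Fin 3)))
    (f := fun k => ‖Dv (dir j k) ψ τ x‖)
  rw [Finset.card_univ, Fintype.card_fin] at h2
  have h3 := mul_le_mul_of_nonneg_left h2 (sq_nonneg ‖h‖)
  push_cast at h3
  linarith

theorem pl_shift {ψ : Wv ι Sp} (hψ : Nice ψ) {g : E → ℝ} (hg : Continuous g) (hg0 : ∀ x, 0 ≤ g x)
    {T : ℝ} (hT : ∀ z, tb ψ g z ≤ T) (h z : E) :
    ∑ p : ι × (ι → Sp), ∫ x : X ι, g (x p.1 - z) *
      ‖ψ p.2 x - ψ p.2 (x + pl_s p.1 h)‖ ^ 2 ≤ 3 * ‖h‖ ^ 2 * T := by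
  have hc : Cc fun p : ι × (ι → Sp) => Dv (pl_s p.1 h) ψ p.2 := fun p =>
    (hψ.dv _).cc p.2
  obtain ⟨C, R, hb⟩ := pl_bound hc
  have key := pl_jf (μ := volume.restrict (Set.Ioc (0 : ℝ) 1)) (ρ := fun _ => 1)
    (integrable_const _) (fun _ => zero_le_one) (by simp)
    (U := fun (p : ι × (ι → Sp)) (x : X ι) => g (x p.1 - z))
    (fun p => hg.comp ((continuous_apply p.1).sub continuous_const)) (fun _ _ => hg0 _)
    (F := fun p s x => Dv (pl_s p.1 h) ψ p.2 (x + s • pl_s p.1 h))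
    (fun p => (hc p).1.comp (continuous_snd.add (continuous_fst.smul continuous_const)))
    (C := C) (R := R + ‖h‖) (T := 3 * ‖h‖ ^ 2 * T) ?_ ?_
  · refine le_of_eq_of_le (Finset.sum_congr rfl fun p _ => ?_) key
    refine integral_congr_ae (ae_of_all _ fun x => ?_)
    have h1 : ∀ s ∈ Set.uIcc (0 : ℝ) 1, HasDerivAt (fun s : ℝ => ψ p.2 (x + s • pl_s p.1 h))
        (Dv (pl_s p.1 h) ψ p.2 (x + s • pl_s p.1 h)) s := by
      intro s _
      have h2 : HasDerivAt (fun s : ℝ => x + s • pl_s p.1 h) (pl_s p.1 h) s := by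
        simpa using ((hasDerivAt_id s).smul_const (pl_s p.1 h)).const_add x
      exact (hψ.diff p.2 _).hasFDerivAt.comp_hasDerivAt s h2
    have h3 := intervalIntegral.integral_eq_sub_of_hasDerivAt h1
      (((hc p).1.comp (continuous_const.add
        (continuous_id.smul continuous_const))).intervalIntegrable _ _)
    rw [intervalIntegral.integral_of_le zero_le_one] at h3
    simp only [Complex.ofReal_one, one_mul, h3, one_smul, zero_smul, add_zero]
    rw [norm_sub_rev]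
  · rw [ae_restrict_iff' measurableSet_Ioc]
    refine ae_of_all _ fun s hs _ p x => ⟨(hb p _).1, fun h0 => ?_⟩
    have h2 := (hb p _).2 h0
    have h3 := norm_sub_le (x + s • pl_s p.1 h) (s • pl_s p.1 h)
    rw [add_sub_cancel_right, norm_smul, pl_norm_single, Real.norm_eq_abs, abs_of_pos hs.1] at h3
    nlinarith [hs.2, norm_nonneg h]
  · refine ae_of_all _ fun s _ => ?_
    refine le_trans ?_ (mul_le_mul_of_nonneg_left (hT (z + s • h)) (by positivity))
    unfold tb pot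
    rw [Fintype.sum_prod_type, Finset.mul_sum]
    refine Finset.sum_le_sum fun j _ => ?_
    rw [Finset.sum_comm, Finset.mul_sum]
    refine Finset.sum_le_sum fun τ _ => ?_
    have hl : LocallyIntegrable fun x : X ι => g (x j - (z + s • h)) :=
      (hg.comp ((continuous_apply j).sub continuous_const)).locallyIntegrable
    have hi : ∀ k, Integrable fun x : X ι => g (x j - (z + s • h)) * ‖Dv (dir j k) ψ τ x‖ ^ 2 :=
      fun k => integrable_pot hl (hψ.dv _).cc τ
    rw [← integral_finsetSum _ fun k _ => hi k, ← integral_const_mul,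
      ← integral_sub_right_eq_self _ (s • pl_s j h)]
    refine integral_mono_of_nonneg (ae_of_all _ fun x => mul_nonneg (hg0 _) (sq_nonneg _))
      ((integrable_finsetSum _ fun k _ => hi k).const_mul _) (ae_of_all _ fun x => ?_)
    simp only [sub_add_cancel, Pi.sub_apply, Pi.smul_apply, pl_s_same, ← Finset.mul_sum]
    rw [show x j - s • h - z = x j - (z + s • h) by abel]
    refine (mul_le_mul_of_nonneg_left (pl_dv_le j h ψ τ x) (hg0 _)).trans (le_of_eq ?_)
    ring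

/-- the high momentum part -/
theorem pl_high {r : ℝ} {ρ : E → ℝ} (hρ : pl_Bump r ρ) {ψ : Wv ι Sp} (hψ : Nice ψ) {g : E → ℝ}
    (hg : Continuous g) (hg0 : ∀ x, 0 ≤ g x) {T : ℝ} (hT : ∀ z, tb ψ g z ≤ T) (z : E) :
    ∑ j, pot (fun x => g (x j - z)) (ψ + (-1 : ℂ) • pl_sm ρ j ψ) ≤ 3 * r ^ 2 * T := by
  obtain ⟨C, R, hb⟩ := pl_bound hψ.cc
  have hT0 : 0 ≤ T := (tb_nonneg ψ hg0 z).trans (hT z)
  have key := pl_jf (μ := volume) hρ.integrable hρ.nonneg hρ.one
    (U := fun (p : ι × (ι → Sp)) (x : X ι) => g (x p.1 - z))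
    (fun p => hg.comp ((continuous_apply p.1).sub continuous_const)) (fun _ _ => hg0 _)
    (F := fun p h x => ψ p.2 x - ψ p.2 (x + pl_s p.1 h))
    (fun p => ((hψ.cc p.2).1.comp continuous_snd).sub ((hψ.cc p.2).1.comp
      (continuous_snd.add ((pl_cont_single p.1).comp continuous_fst))))
    (C := C + C) (R := R + r) (T := 3 * r ^ 2 * T) ?_ ?_
  · refine le_of_eq_of_le ?_ key
    rw [Fintype.sum_prod_type]
    refine Finset.sum_congr rfl fun j _ => Finset.sum_congr rfl fun τ _ => ?_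
    refine integral_congr_ae (ae_of_all _ fun x => ?_)
    have h1 : Integrable fun h : E => (ρ h : ℂ) := hρ.integrable.ofReal
    have h2 : Integrable fun h : E => (ρ h : ℂ) * ψ τ (x + pl_s j h) :=
      h1.mul_bdd (c := C) ((hψ.cc τ).1.comp
        (continuous_const.add (pl_cont_single j))).aestronglyMeasurable
        (ae_of_all _ fun h => (hb τ _).1)
    simp only [mul_sub]
    rw [integral_sub (h1.mul_const _) h2, integral_mul_const, integral_complex_ofReal, hρ.one]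
    simp [pl_sm, sub_eq_add_neg]
  · refine ae_of_all _ fun h h0 p x => ⟨(norm_sub_le _ _).trans (add_le_add (hb _ _).1 (hb _ _).1),
      fun h1 => ?_⟩
    have h4 := hρ.supp h h0
    by_cases h2 : ψ p.2 x = 0
    · have h5 := (hb p.2 (x + pl_s p.1 h)).2 fun h3 => h1 (by simp [h2, h3])
      have h3 := norm_sub_le (x + pl_s p.1 h) (pl_s p.1 h)
      rw [add_sub_cancel_right, pl_norm_single] at h3
      linarith
    · linarith [(hb _ _).2 h2, norm_nonneg h]
  · refine ae_of_all _ fun h h0 => (pl_shift hψ hg hg0 hT h z).trans ?_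
    have := pow_le_pow_left₀ (norm_nonneg _) (hρ.supp h h0) 2
    exact mul_le_mul_of_nonneg_right (by linarith) hT0

theorem pl_pot_split {U : X ι → ℝ} (hU : LocallyIntegrable U) (hU0 : ∀ x, 0 ≤ U x)
    {ψ φ : Wv ι Sp} (hψ : Cc ψ) (hφ : Cc φ) :
    pot U ψ ≤ 2 * pot U φ + 2 * pot U (ψ + (-1 : ℂ) • φ) := by
  unfold pot
  rw [Finset.mul_sum, Finset.mul_sum, ← Finset.sum_add_distrib]
  refine Finset.sum_le_sum fun τ _ => ?_
  have h1 := (integrable_pot hU hφ τ).const_mul 2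
  have h2 := (integrable_pot hU (hψ.add (hφ.smul (-1))) τ).const_mul 2
  rw [← integral_const_mul, ← integral_const_mul, ← integral_add h1 h2]
  refine integral_mono (integrable_pot hU hψ τ) (h1.add h2) fun x => ?_
  have h3 : ‖ψ τ x‖ ≤ ‖φ τ x‖ + ‖(ψ + (-1 : ℂ) • φ) τ x‖ := by
    refine le_trans (le_of_eq ?_) (norm_add_le _ _)
    congr 1
    simp
  have h4 := pow_le_pow_left₀ (norm_nonneg _) h3 2
  have h5 : ‖ψ τ x‖ ^ 2 ≤ 2 * ‖φ τ x‖ ^ 2 + 2 * ‖(ψ + (-1 : ℂ) • φ) τ x‖ ^ 2 := by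
    nlinarith [sq_nonneg (‖φ τ x‖ - ‖(ψ + (-1 : ℂ) • φ) τ x‖)]
  have h6 := mul_le_mul_of_nonneg_left h5 (hU0 x)
  simp only
  linarith

end Pool.Agent.Lib.MP_0655ed_mp
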