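import Pool.Agent.Lib.MP_0655ed_mp.ImpPauli1

open scoped ComplexConjugate
open Finset MeasureTheory Real Filter Topology

set_option linter.unusedSectionVars false

namespace Pool.Agent.Lib.MP_0655ed_mp

section
variable {σ Sp κ : Type} [Fintype κ] [DecidableEq κ] [Fintype Sp]

theorem pl_cont_cons : Continuous fun p : X κ × E => (cons p.2 p.1 : X (Option κ)) :=
  (consL κ).continuous

theorem pl_cc_ann {f : Sp → E → ℂ} (hf : Cc f) {u : Wv (Option κ) Sp} (hu : Cc u) :
    Cc (ann f u) := by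
  intro τ
  constructor
  · rw [ann_eq]
    refine continuous_finsetSum _ fun t _ => ?_
    rw [← continuousOn_univ]
    refine continuousOn_integral_of_compact_support (k := tsupport (f t)) (hf t).2
      (Continuous.continuousOn ?_) fun x y _ hy => ?_
    · exact (Complex.continuous_conj.comp ((hf t).1.comp continuous_snd)).mul
        ((hu _).1.comp pl_cont_cons)
    · simp [image_eq_zero_of_notMem_tsupport hy]
  · have hc : Continuous fun x : X (Option κ) => x ∘ some := by fun_prop
    refine HasCompactSupport.intro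
      (isCompact_iUnion fun t => (hu (cons t τ)).2.image hc) fun x hx => ?_
    by_contra h0
    obtain ⟨t, z, h⟩ := ann_ne h0
    exact hx (Set.mem_iUnion.mpr ⟨t, cons z x, subset_tsupport _ h, rfl⟩)

theorem pl_exch {f : Sp → E → ℂ} (hf : Cc f) {v : Wv κ Sp} (hv : Cc v) (j : κ) :
    ip (tens f v) (rel (Equiv.swap none (some j)) (tens f v)) =
      nr (ann f (rel (Equiv.optionSubtypeNe j).symm v)) := by
  set e := Equiv.optionSubtypeNe j with he
  set v' := rel e.symm v with hv'
  have hv'n : Cc v' := hv.rel _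
  have hfc : ∀ t, Continuous (f t) := fun t => (hf t).1
  have h1 : ann f (rel (Equiv.swap none (some j)) (tens f v)) = rel e (tens f (ann f v')) := by
    funext τ x
    have h2 : ∀ {β : Type} (z : β) (x : κ → β), (cons z x ∘ Equiv.swap none (some j)) ∘ some =
        cons z ((x ∘ e) ∘ some) ∘ e.symm := by
      intro β z x
      funext a
      rcases eq_or_ne a j with rfl | ha
      · simp [he]
      · simp [he, Equiv.optionSubtypeNe_symm_of_ne ha, Equiv.swap_apply_of_ne_of_ne, ha]
    have h3 : slice (rel (Equiv.swap none (some j)) (tens f v)) τ x =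
        f (τ j) (x j) • slice v' ((τ ∘ e) ∘ some) ((x ∘ e) ∘ some) := by
      funext t z
      simp only [slice, rel, tens, h2, hv', Pi.smul_apply, smul_eq_mul]
      simp
    show ip f _ = _
    rw [h3, ip, ipU_smul]
    rfl
  rw [ip_tens hfc (fun t => (hv t).1) ((hf.tens hv).rel _), h1, ← rel_rel_symm e v, ip_rel,
    ← hv', ip, ← ipU_symm, ← ip, ip_tens hfc (fun t => (pl_cc_ann hf hv'n t).1) hv'n, ip,
    ipU_self, Complex.conj_ofReal, nr]

theorem pl_cc_sum {T Y J : Type} [NormedAddCommGroup Y] (s : Finset J) {ψ : J → T → Y → ℂ}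
    (h : ∀ j ∈ s, Cc (ψ j)) : Cc (∑ j ∈ s, ψ j) :=
  Finset.sum_induction _ _ (fun _ _ => Cc.add)
    (fun _ => ⟨continuous_const, HasCompactSupport.zero⟩) h

theorem pl_ip_symz [DecidableEq σ] {P : Species σ Sp} {sp : Option κ → σ} {t u : Wv (Option κ) Sp}
    (ht : Cc t) (hu : Cc u)
    (hs : ∀ j, none ≠ j → sp none = sp j → rel (Equiv.swap none j) u = eta P (sp none) • u) :
    ip (symz P sp t) u = (Jset sp).card * ip t u := by
  have h1 : ∀ o ∈ Jset sp, ip u (sg P sp o • rel (Equiv.swap none o) t) = ip u t := by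
    intro o ho
    rcases eq_or_ne o none with rfl | h0
    · simp [sg]
    · have h2 := hs o h0.symm (mem_Jset.mp ho).symm
      have h3 : ip (rel (Equiv.swap none o) u) (rel (Equiv.swap none o) t) = ip u t := ip_rel _ _ _
      rw [← h3, h2, ip_smul_left, ip_smul_right, conj_eta]
      simp only [sg, if_neg h0]
  rw [← ip_symm, symz, ip, ipU_sum locInt_one (fun τ => (hu τ).1) _
    fun o _ => (ht.rel _).smul _]
  have h4 := Finset.sum_congr rfl h1
  simp only [ip] at h4
  rw [h4, Finset.sum_const, nsmul_eq_mul, map_mul, ipU_symm]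
  simp [ip]

theorem pl_tens_sym (f : Sp → E → ℂ) {φ : Wv κ Sp} {i j : κ} {c : ℂ}
    (h : rel (Equiv.swap i j) φ = c • φ) :
    rel (Equiv.swap (some i) (some j)) (tens f φ) = c • tens f φ := by
  funext τ x
  have h1 := congrFun (congrFun h (τ ∘ some)) (x ∘ some)
  have h2 : ∀ {β : Type} (x : Option κ → β),
      (x ∘ Equiv.swap (some i) (some j)) ∘ some = (x ∘ some) ∘ Equiv.swap i j := by
    intro β x
    funext a
    simp only [Function.comp_apply]
    rw [(Option.some_injective κ).map_swap]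
  have h3 : Equiv.swap (some i) (some j) none = none :=
    Equiv.swap_apply_of_ne_of_ne (by simp) (by simp)
  simp only [rel, tens, h2, Pi.smul_apply, smul_eq_mul, Function.comp_apply, h3] at h1 ⊢
  rw [h1]
  ring

/-- the Pauli principle -/
theorem pl_pauli {f : Sp → E → ℂ} (hf : Cc f) {v : Wv κ Sp} (hv : Cc v) (J : Finset κ)
    (hJ : ∀ i ∈ J, ∀ j ∈ J, i ≠ j → rel (Equiv.swap i j) v = (-1 : ℂ) • v) :
    ∑ j ∈ J, nr (ann f (rel (Equiv.optionSubtypeNe j).symm v)) ≤ nr f * nr v := by
  let P : Species (Option κ) Sp := ⟨fun _ => 0, fun _ => 0, fun _ => true, fun _ => ∅⟩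
  let sp : Option κ → Option κ := fun o => o.elim none fun j => if j ∈ J then none else some j
  have hη : ∀ s, eta P s = -1 := fun s => if_pos rfl
  have ht := hf.tens hv
  have hsym : ∀ i j, i ≠ j → sp (some i) = sp (some j) →
      rel (Equiv.swap (some i) (some j)) (tens f v) = eta P (sp (some i)) • tens f v := by
    intro i j hij hs
    rw [hη]
    refine pl_tens_sym f ?_
    have hs' : (if i ∈ J then none else some i) = if j ∈ J then none else some j := hs
    by_cases hi : i ∈ J <;> by_cases hj : j ∈ J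
    · exact hJ i hi j hj hij
    · simp [hi, hj] at hs'
    · simp [hi, hj] at hs'
    · simp [hi, hj, hij] at hs'
  have hc : Cc (symz P sp (tens f v)) := pl_cc_sum _ fun o _ => (ht.rel _).smul _
  have h1 := pl_ip_symz (P := P) (sp := sp) ht hc fun j hj hs => symz_sym hsym none j hj hs
  have hJs : Jset sp = insert none (J.map Function.Embedding.some) := by
    ext o
    rw [mem_Jset]
    rcases o with _ | j
    · simp
    · show (if j ∈ J then none else some j) = none ↔ _
      by_cases hj : j ∈ J <;> simp [hj]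
  have h2 : (nr (symz P sp (tens f v)) : ℂ) = (Jset sp).card * ((nr f * nr v -
      ∑ j ∈ J, nr (ann f (rel (Equiv.optionSubtypeNe j).symm v)) : ℝ) : ℂ) := by
    rw [nr, ← ipU_self]
    refine h1.trans ?_
    congr 1
    rw [ip, symz, ipU_sum locInt_one (fun τ => (ht τ).1) _ fun o _ => (ht.rel _).smul _]
    simp only [ipU_smul]
    rw [hJs, Finset.sum_insert (by simp), Finset.sum_map]
    have h3 : ∀ j, sg P sp (Function.Embedding.some j) * ipU (fun _ => 1) (tens f v)
        (rel (Equiv.swap none (Function.Embedding.some j)) (tens f v)) =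
        -(nr (ann f (rel (Equiv.optionSubtypeNe j).symm v)) : ℂ) := by
      intro j
      rw [← pl_exch hf hv j]
      simp [sg, hη, ip]
    simp only [h3]
    rw [Equiv.swap_self, rel_refl, ipU_self, ← nr, nr_tens hf hv]
    simp [sg, sub_eq_add_neg]
  have h4 : nr (symz P sp (tens f v)) = (Jset sp).card * (nr f * nr v -
      ∑ j ∈ J, nr (ann f (rel (Equiv.optionSubtypeNe j).symm v))) := by exact_mod_cast h2
  have h5 := nr_nonneg (symz P sp (tens f v))
  rw [h4] at h5
  have h6 := nonneg_of_mul_nonneg_right h5 (card_Jset_pos sp)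
  linarith

theorem pl_fubini {G : (Option κ → Sp) → X (Option κ) → ℝ} (hG : ∀ τ, Integrable (G τ)) :
    (∀ t, Integrable fun w : E => ∑ τ : κ → Sp, ∫ x : X κ, G (cons t τ) (cons w x)) ∧
    ∑ τ, ∫ x, G τ x = ∑ t, ∫ w : E, ∑ τ : κ → Sp, ∫ x : X κ, G (cons t τ) (cons w x) := by
  have h1 : ∀ τ, Integrable fun w : E => ∫ x : X κ, G τ (cons w x) := fun τ =>
    (integrable_cons (hG τ)).integral_prod_right
  refine ⟨fun t => integrable_finsetSum _ fun τ _ => h1 _, ?_⟩
  rw [sum_cons, Finset.sum_comm]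
  refine Finset.sum_congr rfl fun t _ => ?_
  rw [integral_finsetSum _ fun τ _ => h1 _]
  refine Finset.sum_congr rfl fun τ _ => ?_
  rw [← mp_cons.integral_comp (consM κ).measurableEmbedding]
  exact integral_prod_symm _ (integrable_cons (hG _))

end

variable {σ Sp ι : Type} [Fintype ι] [DecidableEq ι] [Fintype Sp]

open Classical in
/-- the mollifier as an orbital -/
noncomputable def pl_orb (ρ : E → ℝ) (t : Sp) (w : E) : Sp → E → ℂ :=
  fun t' y => if t' = t then ρ (y - w) else 0

theorem pl_orb_cc {r : ℝ} {ρ : E → ℝ} (hρ : pl_Bump r ρ) (t : Sp) (w : E) : Cc (pl_orb ρ t w) := by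
  intro t'
  unfold pl_orb
  split_ifs
  · exact ⟨Complex.continuous_ofReal.comp (hρ.cont.comp (continuous_sub_right w)),
      (hρ.compact.comp_homeomorph (Homeomorph.subRight w)).comp_left
        (g := fun a : ℝ => (a : ℂ)) (by simp)⟩
  · exact ⟨continuous_const, HasCompactSupport.zero⟩

theorem pl_orb_nr {r : ℝ} {ρ : E → ℝ} (hρ : pl_Bump r ρ) (t : Sp) (w : E) :
    nr (pl_orb ρ t w) ≤ 1 / r ^ 3 := by
  unfold nr pot
  rw [Finset.sum_eq_single t (fun t' _ h => by simp [pl_orb, h]) (by simp)]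
  simp only [pl_orb, if_true, one_mul, Complex.norm_real, Real.norm_eq_abs, sq_abs]
  rw [integral_sub_right_eq_self (fun y => ρ y ^ 2) w]
  have h1 : ∫ y, 1 / r ^ 3 * ρ y = 1 / r ^ 3 := by rw [integral_const_mul, hρ.one, mul_one]
  rw [← h1]
  refine integral_mono_of_nonneg (ae_of_all _ fun y => sq_nonneg _) (hρ.integrable.const_mul _)
    (ae_of_all _ fun y => ?_)
  simp only [sq]
  exact mul_le_mul_of_nonneg_right (hρ.le y) (hρ.nonneg y)

theorem pl_sm_ann (ρ : E → ℝ) (j : ι) (u : Wv ι Sp) (t : Sp) (w : E) (τ : {b // b ≠ j} → Sp)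
    (x : X {b // b ≠ j}) :
    rel (Equiv.optionSubtypeNe j).symm (pl_sm ρ j u) (cons t τ) (cons w x) =
      ann (pl_orb ρ t w) (rel (Equiv.optionSubtypeNe j).symm u) τ x := by
  rw [ann_eq]
  simp only
  rw [Finset.sum_eq_single t (fun t' _ h => by simp [pl_orb, h]) (by simp)]
  simp only [pl_orb, if_true, Complex.conj_ofReal, rel, pl_sm]
  symm
  rw [← integral_add_left_eq_self _ w]
  refine integral_congr_ae (ae_of_all _ fun h => ?_)
  simp only [add_sub_cancel_left]
  congr 2
  funext a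
  rcases eq_or_ne a j with rfl | ha
  · simp [pl_s_same]
  · simp [pl_s_ne ha, Equiv.optionSubtypeNe_symm_of_ne ha]

theorem pl_low1 {r : ℝ} {ρ : E → ℝ} (hρ : pl_Bump r ρ) (j : ι) {u : Wv ι Sp} (hu : Cc u)
    {g : E → ℝ} (hg : Continuous g) (z : E) :
    (∀ t, Integrable fun w => g (w - z) *
      nr (ann (pl_orb ρ t w) (rel (Equiv.optionSubtypeNe j).symm u))) ∧
    pot (fun x => g (x j - z)) (pl_sm ρ j u) = ∑ t, ∫ w, g (w - z) *
      nr (ann (pl_orb ρ t w) (rel (Equiv.optionSubtypeNe j).symm u)) := by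
  have hl : LocallyIntegrable fun x : X (Option {b // b ≠ j}) => g (x none - z) :=
    (hg.comp ((continuous_apply none).sub continuous_const)).locallyIntegrable
  have key := pl_fubini fun τ =>
    integrable_pot hl ((pl_sm_cc hρ j hu).rel (Equiv.optionSubtypeNe j).symm) τ
  simp only [cons_none, pl_sm_ann, integral_const_mul, ← Finset.mul_sum] at key
  have h1 := pot_rel (Equiv.optionSubtypeNe j).symm (fun x => g (x j - z)) (pl_sm ρ j u)
  simp only [Function.comp_apply, Equiv.optionSubtypeNe_symm_self] at h1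
  rw [← h1]
  simpa only [nr, pot, one_mul] using key

theorem pl_low2 {r : ℝ} {ρ : E → ℝ} (hρ : pl_Bump r ρ) {u : Wv ι Sp} (hu : Cc u) (J : Finset ι)
    (hJ : ∀ i ∈ J, ∀ j ∈ J, i ≠ j → rel (Equiv.swap i j) u = (-1 : ℂ) • u)
    {g : E → ℝ} (hg : Continuous g) (hg0 : ∀ x, 0 ≤ g x) (hgi : Integrable g) (z : E) :
    ∑ j ∈ J, pot (fun x => g (x j - z)) (pl_sm ρ j u) ≤
      Fintype.card Sp * ((∫ x, g x) * (1 / r ^ 3 * nr u)) := by
  simp only [fun j => (pl_low1 hρ j hu hg z).2]
  rw [Finset.sum_comm, ← Finset.card_univ, ← nsmul_eq_mul]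
  refine Finset.sum_le_card_nsmul _ _ _ fun t _ => ?_
  rw [← integral_finsetSum _ fun j _ => (pl_low1 hρ j hu hg z).1 t,
    ← integral_sub_right_eq_self g z, ← integral_mul_const]
  refine integral_mono (integrable_finsetSum _ fun j _ => (pl_low1 hρ j hu hg z).1 t)
    ((hgi.comp_sub_right z).mul_const _) fun w => ?_
  simp only [← Finset.mul_sum]
  refine mul_le_mul_of_nonneg_left ((pl_pauli (pl_orb_cc hρ t w) hu J hJ).trans ?_) (hg0 _)
  exact mul_le_mul_of_nonneg_right (pl_orb_nr hρ t w) (nr_nonneg _)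

/-- the low momentum part -/
theorem pl_low [Fintype σ] [DecidableEq σ] {P : Species σ Sp}
    (hf : ∀ s, P.charge s < 0 → P.fermion s = true) {sp : ι → σ} {L : ℝ} {ψ : Wv ι Sp}
    (hψ : Tst P sp L ψ) {r : ℝ} {ρ : E → ℝ} (hρ : pl_Bump r ρ) {W : X ι → ℝ} (hW : Continuous W)
    (hW0 : ∀ x, 0 ≤ W x) (hWi : ∀ x y, (∀ i, ¬ ch P sp i < 0 → x i = y i) → W x = W y)
    {g : E → ℝ} (hg : Continuous g) (hg0 : ∀ x, 0 ≤ g x) (hgi : Integrable g) (z : E) :
    ∑ j ∈ Finset.univ.filter fun j => ch P sp j < 0,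
      pot (fun x => W x * g (x j - z)) (pl_sm ρ j ψ) ≤
      Fintype.card σ * (Fintype.card Sp * ((∫ x, g x) * (1 / r ^ 3 * pot W ψ))) := by
  have hu : Cc (mulF (fun x => √(W x)) ψ) := hψ.nice.cc.mulF hW.sqrt
  have h1 : nr (mulF (fun x => √(W x)) ψ) = pot W ψ := by
    rw [nr, pot_mulF]
    simp only [Real.sq_sqrt (hW0 _), mul_one]
  have h2 : ∀ j ∈ Finset.univ.filter fun j => ch P sp j < 0,
      pot (fun x => W x * g (x j - z)) (pl_sm ρ j ψ) =
      pot (fun x => g (x j - z)) (pl_sm ρ j (mulF (fun x => √(W x)) ψ)) := by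
    intro j hj
    have h3 : pl_sm ρ j (mulF (fun x => √(W x)) ψ) = mulF (fun x => √(W x)) (pl_sm ρ j ψ) := by
      funext τ x
      simp only [pl_sm, mulF]
      rw [← integral_const_mul]
      refine integral_congr_ae (ae_of_all _ fun h => ?_)
      have : W (x + pl_s j h) = W x := hWi _ _ fun i hi => by
        have hij : i ≠ j := fun h0 => hi (h0 ▸ (Finset.mem_filter.mp hj).2)
        simp [pl_s_ne hij]
      simp only [this]
      ring
    rw [h3, pot_mulF]
    simp only [Real.sq_sqrt (hW0 _)]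
  rw [Finset.sum_congr rfl h2, ← Finset.sum_fiberwise (g := sp), ← Finset.card_univ (α := σ),
    ← nsmul_eq_mul, ← h1]
  refine Finset.sum_le_card_nsmul _ _ _ fun s _ => pl_low2 hρ hu _ ?_ hg hg0 hgi z
  intro i hi j hj hij
  simp only [Finset.mem_filter, Finset.mem_univ, true_and] at hi hj
  have h4 := hψ.sym i j hij (hi.2.trans hj.2.symm)
  have h5 : eta P (sp i) = -1 := if_pos (hf _ hi.1)
  funext τ x
  have h6 := congrFun (congrFun h4 τ) x
  have h7 : W (x ∘ Equiv.swap i j) = W x := hWi _ _ fun l hl => by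
    have h8 : l ≠ i := fun h0 => hl (h0 ▸ hi.1)
    have h9 : l ≠ j := fun h0 => hl (h0 ▸ hj.1)
    simp [Equiv.swap_apply_of_ne_of_ne h8 h9]
  simp only [rel, mulF, Pi.smul_apply, smul_eq_mul, h5, h7] at h6 ⊢
  rw [h6]
  ring

end Pool.Agent.Lib.MP_0655ed_mp
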