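import Pool.Agent.Lib.MP_0655ed_mp.ImpDefs

open Finset MeasureTheory Real Filter Topology

set_option linter.unusedSectionVars false

namespace Pool.Agent.Lib.MP_0655ed_mp

variable {σ Sp ι : Type} [Fintype ι] [DecidableEq ι] [Fintype Sp]

theorem tst_mulS {P : Species σ Sp} {sp : ι → σ} {L : ℝ} {ψ : Wv ι Sp} (h : Tst P sp L ψ)
    {G : X ι → ℝ} (hG : ContDiff ℝ (⊤ : ℕ∞) G) (hs : Sym sp G) : Tst P sp L (mulF G ψ) := by
  have hne : ∀ τ x, mulF G ψ τ x ≠ 0 → ψ τ x ≠ 0 :=
    fun τ x hx => right_ne_zero_of_mul hx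
  refine ⟨fun τ => (h.nice.mulF hG τ).1, ?_, fun τ x hx => h.spin τ x (hne τ x hx), ?_⟩
  · obtain ⟨r, hr, hs⟩ := h.supp
    exact ⟨r, hr, fun τ x hx => hs τ x (hne τ x hx)⟩
  · intro i j hij hsp
    funext τ x
    have := congrFun (congrFun (h.sym i j hij hsp) τ) x
    simp only [rel, mulF, Pi.smul_apply, smul_eq_mul, hs i j hsp] at this ⊢
    rw [this]
    ring

theorem sym_ph (P : Species σ Sp) (sp : ι → σ) (φ : ℝ → ℝ) (g : E → ℝ) (z : E) :
    Sym sp (ph (fun j => φ (ch P sp j)) g z) := by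
  intro i j hij x
  unfold ph
  rw [← Equiv.sum_comp (Equiv.swap i j) fun l => φ (ch P sp l) * g (x l - z)]
  refine Finset.sum_congr rfl fun l _ => ?_
  have : sp (Equiv.swap i j l) = sp l := by
    rw [Equiv.swap_apply_def]
    split_ifs with h1 h2
    · rw [h1, hij]
    · rw [h2, hij]
    · rfl
  simp only [ch, this, Function.comp_apply]

theorem continuous_ph (c : ι → ℝ) {g : E → ℝ} (hg : Continuous g) :
    Continuous fun p : E × X ι => ph c g p.1 p.2 := by
  unfold ph
  refine continuous_finsetSum _ fun j _ => continuous_const.mul (hg.comp ?_)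
  exact ((continuous_apply j).comp continuous_snd).sub continuous_fst

theorem pl_contDiff_sub (j : ι) (z : E) : ContDiff ℝ (⊤ : ℕ∞) fun x : X ι => x j - z :=
  (contDiff_apply ℝ E j).sub contDiff_const

theorem contDiff_ph (c : ι → ℝ) {g : E → ℝ} (hg : ContDiff ℝ (⊤ : ℕ∞) g) (z : E) :
    ContDiff ℝ (⊤ : ℕ∞) (ph c g z) := by
  unfold ph
  exact ContDiff.sum fun j _ => contDiff_const.mul (hg.comp (pl_contDiff_sub j z))

theorem pl_locInt_none {κ : Type} [Fintype κ] {g : E → ℝ} (hg : LocallyIntegrable g) (z : E) :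
    LocallyIntegrable fun x : X (Option κ) => g (x none - z) := by
  rw [locallyIntegrable_iff]
  intro K hK
  have hc : Continuous fun x : X (Option κ) => x ∘ some := by fun_prop
  have hc' : Continuous fun x : X (Option κ) => x none - z := by fun_prop
  have h1 : Integrable (((fun x : X (Option κ) => x ∘ some) '' K).indicator fun _ => (1 : ℝ)) :=
    (integrable_indicator_iff (hK.image hc).measurableSet).mpr
      (locInt_one.integrableOn_isCompact (hK.image hc))
  have h2 := (integrable_indicator_iff (hK.image hc').measurableSet).mpr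
      (hg.integrableOn_isCompact (hK.image hc'))
  have h3 := h1.mul_prod (h2.comp_sub_right z)
  have h4 := ((mp_cons.symm (consM κ)).integrable_comp_emb
    (consM κ).symm.measurableEmbedding).mpr h3
  refine (h4.integrableOn (s := K)).congr_fun (fun x hx => ?_) hK.measurableSet
  show Set.indicator _ _ (x ∘ some) * Set.indicator _ g (x none - z) = _
  rw [Set.indicator_of_mem (Set.mem_image_of_mem (fun x : X (Option κ) => x ∘ some) hx),
    Set.indicator_of_mem (Set.mem_image_of_mem (fun x : X (Option κ) => x none - z) hx),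
    one_mul]

theorem locInt_one_body (i : ι) {g : E → ℝ} (hg : LocallyIntegrable g) (z : E) :
    LocallyIntegrable fun x : X ι => g (x i - z) :=
  locInt_rel (Equiv.optionSubtypeNe i) (pl_locInt_none (κ := {b // b ≠ i}) hg z)

theorem locInt_ph (c : ι → ℝ) {g : E → ℝ} (hg : LocallyIntegrable g) (z : E) :
    LocallyIntegrable (ph c g z) :=
  locallyIntegrable_finsetSum _ fun j _ => (locInt_one_body j hg z).smul (c j)

theorem locInt_mul {F U : X ι → ℝ} (hF : Continuous F) (hU : LocallyIntegrable U) :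
    LocallyIntegrable fun x => F x * U x := LocallyIntegrable.continuous_mul hF hU

theorem ae_ne (i : ι) (z : E) : ∀ᵐ x : X ι, x i ≠ z :=
  Measure.ae_eval_ne (fun _ : ι => (volume : Measure E)) i z

theorem ae_ne_pair {i j : ι} (h : i ≠ j) : ∀ᵐ x : X ι, x i ≠ x j := by
  let S : Submodule ℝ (X ι) :=
    { carrier := {x | x i = x j}
      add_mem' := fun {a b} ha hb => by
        show a i + b i = a j + b j
        rw [show a i = a j from ha, show b i = b j from hb]
      zero_mem' := rfl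
      smul_mem' := fun c a ha => by
        show c • a i = c • a j
        rw [show a i = a j from ha] }
  have hS : S ≠ ⊤ := by
    intro h0
    have h1 : dir i 0 ∈ S := h0 ▸ Submodule.mem_top
    have h2 : dir i 0 i = dir i 0 j := h1
    have h3 := congrFun h2 0
    simp [dir, h.symm] at h3
  have := Measure.addHaar_submodule (volume : Measure (X ι)) S hS
  rw [ae_iff]
  simp only [not_not]
  exact this

theorem continuous_Gam {F : X ι → ℝ} (hF : ContDiff ℝ (⊤ : ℕ∞) F) : Continuous (Gam F) :=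
  continuous_finsetSum _ fun _ _ => continuous_finsetSum _ fun _ _ =>
    ((hF.continuous_fderiv (by simp)).clm_apply continuous_const).pow 2

theorem Gam_nonneg (F : X ι → ℝ) (x : X ι) : 0 ≤ Gam F x :=
  Finset.sum_nonneg fun _ _ => Finset.sum_nonneg fun _ _ => sq_nonneg _

theorem Gam_mul_le {F G : X ι → ℝ} (hF : ContDiff ℝ (⊤ : ℕ∞) F) (hG : ContDiff ℝ (⊤ : ℕ∞) G)
    (x : X ι) : Gam (fun x => F x * G x) x ≤ 2 * G x ^ 2 * Gam F x + 2 * F x ^ 2 * Gam G x := by
  have h1 := ((hF.differentiable (by simp)) x).hasFDerivAt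
  have h2 := ((hG.differentiable (by simp)) x).hasFDerivAt
  have h3 : HasFDerivAt (fun x => F x * G x) _ x := h1.mul h2
  unfold Gam
  rw [h3.fderiv]
  simp only [Finset.mul_sum, ← Finset.sum_add_distrib]
  refine Finset.sum_le_sum fun j _ => Finset.sum_le_sum fun k _ => ?_
  simp only [_root_.add_apply, _root_.smul_apply, smul_eq_mul]
  nlinarith [sq_nonneg (F x * fderiv ℝ G x (dir j k) - G x * fderiv ℝ F x (dir j k))]

theorem Gam_sub_le {F G : X ι → ℝ} (hF : ContDiff ℝ (⊤ : ℕ∞) F) (hG : ContDiff ℝ (⊤ : ℕ∞) G)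
    (x : X ι) : Gam (fun x => F x - G x) x ≤ 2 * Gam F x + 2 * Gam G x := by
  have h1 := ((hF.differentiable (by simp)) x).hasFDerivAt
  have h2 := ((hG.differentiable (by simp)) x).hasFDerivAt
  have h3 : HasFDerivAt (fun x => F x - G x) _ x := h1.sub h2
  unfold Gam
  rw [h3.fderiv]
  simp only [Finset.mul_sum, ← Finset.sum_add_distrib]
  refine Finset.sum_le_sum fun j _ => Finset.sum_le_sum fun k _ => ?_
  simp only [_root_.sub_apply]
  nlinarith [sq_nonneg (fderiv ℝ G x (dir j k) + fderiv ℝ F x (dir j k))]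

theorem Gam_comp {F : X ι → ℝ} (hF : ContDiff ℝ (⊤ : ℕ∞) F) {φ : ℝ → ℝ} {φ' : ℝ} {x : X ι}
    (hφ : HasDerivAt φ φ' (F x)) : Gam (fun x => φ (F x)) x = φ' ^ 2 * Gam F x := by
  have h1 := ((hF.differentiable (by simp)) x).hasFDerivAt
  have h3 : HasFDerivAt (fun x => φ (F x)) _ x := hφ.comp_hasFDerivAt x h1
  unfold Gam
  rw [h3.fderiv]
  simp only [Finset.mul_sum]
  refine Finset.sum_congr rfl fun j _ => Finset.sum_congr rfl fun k _ => ?_
  simp only [_root_.smul_apply, smul_eq_mul, mul_pow]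

theorem pl_hasFDerivAt (i : ι) {g : E → ℝ} (hg : ContDiff ℝ (⊤ : ℕ∞) g) (z : E) (x : X ι) :
    HasFDerivAt (fun x : X ι => g (x i - z))
      ((fderiv ℝ g (x i - z)).comp (ContinuousLinearMap.proj i)) x := by
  have h1 : HasFDerivAt (fun x : X ι => x i - z)
      (ContinuousLinearMap.proj (R := ℝ) (φ := fun _ : ι => E) i) x :=
    (ContinuousLinearMap.proj (R := ℝ) (φ := fun _ : ι => E) i).hasFDerivAt.sub_const z
  exact ((hg.differentiable (by simp)) (x i - z)).hasFDerivAt.comp x h1

theorem pl_dir (i j : ι) (k : Fin 3) (T : E →L[ℝ] ℝ) :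
    T (dir j k i) = if j = i then T (ee k) else 0 := by
  split_ifs with h
  · subst h
    simp [dir, ee]
  · have : dir j k i = 0 := Pi.single_eq_of_ne (Ne.symm h) _
    rw [this, map_zero]

theorem Gam_ph (c : ι → ℝ) {g : E → ℝ} (hg : ContDiff ℝ (⊤ : ℕ∞) g) (z : E) (x : X ι) :
    Gam (ph c g z) x = ∑ j, c j ^ 2 * ∑ k, fderiv ℝ g (x j - z) (ee k) ^ 2 := by
  have h3 : HasFDerivAt (ph c g z)
      (∑ i, c i • (fderiv ℝ g (x i - z)).comp (ContinuousLinearMap.proj i)) x :=
    HasFDerivAt.fun_sum fun i _ => (pl_hasFDerivAt i hg z x).const_mul (c i)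
  unfold Gam
  rw [h3.fderiv]
  refine Finset.sum_congr rfl fun j _ => ?_
  rw [Finset.mul_sum]
  refine Finset.sum_congr rfl fun k _ => ?_
  simp only [_root_.sum_apply, _root_.smul_apply,
    ContinuousLinearMap.comp_apply, ContinuousLinearMap.proj_apply, pl_dir, smul_eq_mul, mul_ite,
    mul_zero, Finset.sum_ite_eq, Finset.mem_univ, if_true, mul_pow]

theorem Gam_one_body (i : ι) {g : E → ℝ} (hg : ContDiff ℝ (⊤ : ℕ∞) g) (z : E) (x : X ι) :
    Gam (fun x : X ι => g (x i - z)) x = ∑ k, fderiv ℝ g (x i - z) (ee k) ^ 2 := by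
  unfold Gam
  rw [(pl_hasFDerivAt i hg z x).fderiv]
  simp only [ContinuousLinearMap.comp_apply, ContinuousLinearMap.proj_apply, pl_dir]
  rw [Finset.sum_eq_single i]
  · simp
  · intro j _ hj
    simp [hj]
  · simp

theorem pot_mono_ae {U U' : X ι → ℝ} (hU : LocallyIntegrable U) (hU' : LocallyIntegrable U')
    {ψ : Wv ι Sp} (h : Cc ψ) (hle : ∀ᵐ x, (∃ τ, ψ τ x ≠ 0) → U x ≤ U' x) :
    pot U ψ ≤ pot U' ψ := by
  refine Finset.sum_le_sum fun τ _ =>
    integral_mono_ae (integrable_pot hU h τ) (integrable_pot hU' h τ) ?_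
  filter_upwards [hle] with x hx
  by_cases h0 : ψ τ x = 0
  · simp [h0]
  · exact mul_le_mul_of_nonneg_right (hx ⟨τ, h0⟩) (by positivity)

theorem pot_sub {U U' : X ι → ℝ} (hU : LocallyIntegrable U) (hU' : LocallyIntegrable U')
    {ψ : Wv ι Sp} (h : Cc ψ) : pot (fun x => U x - U' x) ψ = pot U ψ - pot U' ψ := by
  unfold pot
  rw [← Finset.sum_sub_distrib]
  refine Finset.sum_congr rfl fun τ _ => ?_
  rw [← integral_sub (integrable_pot hU h τ) (integrable_pot hU' h τ)]
  refine integral_congr_ae (ae_of_all _ fun x => ?_)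
  simp only
  ring

theorem pot_const (c : ℝ) (ψ : Wv ι Sp) : pot (fun _ => c) ψ = c * nr ψ := by
  have := pot_const_mul (fun _ => (1 : ℝ)) ψ c
  simp only [mul_one] at this
  exact this

theorem pl_locInt_abs {U : X ι → ℝ} (hU : LocallyIntegrable U) :
    LocallyIntegrable fun x => |U x| :=
  hU.mono hU.aestronglyMeasurable.norm (ae_of_all _ fun x => by simp)

theorem abs_pot_le {U : X ι → ℝ} (hU : LocallyIntegrable U) {ψ : Wv ι Sp} (h : Cc ψ) :
    |pot U ψ| ≤ pot (fun x => |U x|) ψ := by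
  have ha := pl_locInt_abs hU
  rw [abs_le]
  constructor
  · have h1 := pot_const_mul (fun x => |U x|) ψ (-1)
    have h2 : pot (fun x => -1 * |U x|) ψ ≤ pot U ψ :=
      pot_mono (U := fun x => -1 * |U x|) (ha.smul (-1 : ℝ)) hU h fun x => by
        linarith [neg_abs_le (U x)]
    linarith
  · exact pot_mono hU ha h fun x => le_abs_self _

theorem pot_abs_sq_le {U : X ι → ℝ} (hU : Continuous U) {ψ : Wv ι Sp} (h : Cc ψ) :
    pot (fun x => |U x|) ψ ^ 2 ≤ pot (fun x => U x ^ 2) ψ * nr ψ := by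
  have h1 : LocallyIntegrable fun x => |U x| := hU.abs.locallyIntegrable
  have h2 : LocallyIntegrable fun x => U x ^ 2 := (hU.pow 2).locallyIntegrable
  have key : ∀ t : ℝ, 0 ≤ nr ψ * (t * t) + (-2 * pot (fun x => |U x|) ψ) * t +
      pot (fun x => U x ^ 2) ψ := by
    intro t
    have h3 : pot (fun x => (2 * t) * |U x|) ψ ≤ pot (fun x => t * t + U x ^ 2) ψ :=
      pot_mono (U := fun x => (2 * t) * |U x|) (U' := fun x => t * t + U x ^ 2)
        (h1.smul (2 * t)) ((locallyIntegrable_const _).add h2) h fun x => by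
        nlinarith [sq_nonneg (|U x| - t), sq_abs (U x)]
    rw [pot_const_mul, pot_add (locallyIntegrable_const _) h2 h, pot_const] at h3
    linarith
  have := discrim_le_zero key
  unfold discrim at this
  nlinarith

/-- Fubini, dominated form -/
theorem pot_integral {Z : Type} [MeasurableSpace Z] {μ : Measure Z} [SFinite μ] {F : Z → X ι → ℝ}
    (hF : Measurable fun p : Z × X ι => F p.1 p.2) {g : Z → ℝ} (hg : Integrable g μ)
    {H : X ι → ℝ} (hH : Continuous H) (hb : ∀ᵐ z ∂μ, ∀ x, |F z x| ≤ g z * H x) {ψ : Wv ι Sp}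
    (h : Cc ψ) :
    Integrable (fun z => pot (F z) ψ) μ ∧ LocallyIntegrable (fun x => ∫ z, F z x ∂μ) ∧
      ∫ z, pot (F z) ψ ∂μ = pot (fun x => ∫ z, F z x ∂μ) ψ := by
  have hint : ∀ τ, Integrable (fun p : Z × X ι => F p.1 p.2 * ‖ψ τ p.2‖ ^ 2) (μ.prod volume) := by
    intro τ
    have h1 := hg.mul_prod (integrable_pot hH.locallyIntegrable h τ)
    have hm : Measurable fun p : Z × X ι => ‖ψ τ p.2‖ ^ 2 :=
      (((h τ).1.norm.pow 2).measurable).comp measurable_snd
    refine h1.mono' (hF.mul hm).aestronglyMeasurable ?_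
    filter_upwards [Measure.quasiMeasurePreserving_fst.ae hb] with p hp
    rw [Real.norm_eq_abs, abs_mul, abs_of_nonneg (by positivity : 0 ≤ ‖ψ τ p.2‖ ^ 2), ← mul_assoc]
    exact mul_le_mul_of_nonneg_right (hp p.2) (by positivity)
  refine ⟨integrable_finsetSum _ fun τ _ => (hint τ).integral_prod_left, ?_, ?_⟩
  · have hm : StronglyMeasurable fun x : X ι => ∫ z, F z x ∂μ :=
      StronglyMeasurable.integral_prod_left' (f := fun p : Z × X ι => F p.1 p.2)
        hF.stronglyMeasurable
    have hl : LocallyIntegrable fun x => (∫ z, g z ∂μ) * H x :=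
      (continuous_const.mul hH).locallyIntegrable
    refine hl.mono hm.aestronglyMeasurable (ae_of_all _ fun x => ?_)
    refine le_trans ?_ (le_abs_self _)
    rw [← integral_mul_const]
    refine norm_integral_le_of_norm_le (hg.mul_const _) ?_
    filter_upwards [hb] with z hz
    exact hz x
  · unfold pot
    rw [integral_finsetSum _ fun τ _ => (hint τ).integral_prod_left]
    refine Finset.sum_congr rfl fun τ _ => ?_
    rw [integral_integral_swap (f := fun z x => F z x * ‖ψ τ x‖ ^ 2) (hint τ)]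
    refine integral_congr_ae (ae_of_all _ fun x => ?_)
    simp only
    rw [integral_mul_const]

theorem continuous_pot {Z : Type} [TopologicalSpace Z] [FirstCountableTopology Z]
    [LocallyCompactSpace Z] {F : Z → X ι → ℝ} (hF : Continuous fun p : Z × X ι => F p.1 p.2)
    {ψ : Wv ι Sp} (h : Cc ψ) : Continuous fun z => pot (F z) ψ := by
  refine continuous_finsetSum _ fun τ _ => ?_
  have hc : Continuous (Function.uncurry fun z (x : X ι) => F z x * ‖ψ τ x‖ ^ 2) :=
    hF.mul (((h τ).1.norm.pow 2).comp continuous_snd)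
  have := continuous_parametric_integral_of_continuous (μ := volume) hc (h τ).2
  refine this.congr fun z => ?_
  refine setIntegral_eq_integral_of_forall_compl_eq_zero fun x hx => ?_
  rw [image_eq_zero_of_notMem_tsupport hx]
  simp

end Pool.Agent.Lib.MP_0655ed_mp
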