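import Pool.Agent.Lib.MP_0655ed_mp.ImpVV

open Finset MeasureTheory Real Filter Topology

namespace Pool.Agent.Lib.MP_0655ed_mp

/-- the weight inside `Th` -/
noncomputable def th_aux_g (k : ℕ) (u t : ℝ) : ℝ :=
  (√(4 * π * u))⁻¹ ^ 3 * (4 * u)⁻¹ ^ k * exp (-t / (4 * u))

theorem th_aux_Th (k : ℕ) (b t : ℝ) :
    Th k b t = ∫ r in Set.Ioi (0 : ℝ), exp (-r) * th_aux_g k (b + r) t := rfl

theorem th_aux_g_pos (k : ℕ) {u : ℝ} (hu : 0 < u) (t : ℝ) : 0 < th_aux_g k u t := by
  unfold th_aux_g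
  have : 0 < √(4 * π * u) := Real.sqrt_pos.2 (by positivity)
  positivity

theorem th_aux_g_succ (k : ℕ) (u t : ℝ) :
    th_aux_g (k + 1) u t = (4 * u)⁻¹ * th_aux_g k u t := by
  unfold th_aux_g; ring

theorem th_aux_g_zero (u : ℝ) (x : E) : th_aux_g 0 u (r2 x) = hk u x := by
  unfold th_aux_g hk; simp

theorem th_aux_g_le (k : ℕ) {b u t T : ℝ} (hb : 0 < b) (hu : b ≤ u) (ht : |t| ≤ T) :
    th_aux_g k u t ≤ th_aux_g k b (-T) := by
  unfold th_aux_g
  have hu0 : 0 < u := hb.trans_le hu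
  have h1 : 0 < √(4 * π * b) := Real.sqrt_pos.2 (by positivity)
  have h2 : √(4 * π * b) ≤ √(4 * π * u) := Real.sqrt_le_sqrt (by gcongr)
  have h3 : (√(4 * π * u))⁻¹ ≤ (√(4 * π * b))⁻¹ := inv_anti₀ h1 h2
  have h4 : (4 * u)⁻¹ ≤ (4 * b)⁻¹ := inv_anti₀ (by positivity) (by linarith)
  have hT : 0 ≤ T := (abs_nonneg t).trans ht
  have h5 : -t / (4 * u) ≤ - -T / (4 * b) := by
    rw [neg_neg]
    calc -t / (4 * u) ≤ T / (4 * u) := by
          gcongr
          exact (neg_le_abs t).trans ht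
      _ ≤ T / (4 * b) := by gcongr
  gcongr

theorem th_aux_meas (k : ℕ) (b t : ℝ) :
    Measurable fun r : ℝ => exp (-r) * th_aux_g k (b + r) t := by
  unfold th_aux_g
  fun_prop

/-- integrability from a bound `C * exp (-r)` -/
theorem th_aux_int {f : ℝ → ℝ} (hf : Measurable f) {C : ℝ} (h : ∀ r, 0 < r → |f r| ≤ C) :
    IntegrableOn (fun r => exp (-r) * f r) (Set.Ioi 0) := by
  refine Integrable.mono' ((integrableOn_exp_neg_Ioi 0).mul_const C) ?_ ?_
  · exact (Measurable.aestronglyMeasurable (by fun_prop))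
  · refine (ae_restrict_iff' measurableSet_Ioi).2 (ae_of_all _ fun r hr => ?_)
    rw [Real.norm_eq_abs, abs_mul, abs_of_pos (exp_pos _)]
    exact mul_le_mul_of_nonneg_left (h r hr) (exp_pos _).le

theorem th_aux_int_g (k : ℕ) {b : ℝ} (hb : 0 < b) (t : ℝ) :
    IntegrableOn (fun r => exp (-r) * th_aux_g k (b + r) t) (Set.Ioi 0) := by
  refine th_aux_int (f := fun r => th_aux_g k (b + r) t) (C := th_aux_g k b (-|t|)) ?_ ?_
  · unfold th_aux_g; fun_prop
  · intro r hr
    rw [abs_of_pos (th_aux_g_pos k (by linarith) t)]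
    exact th_aux_g_le k hb (by linarith) le_rfl

theorem th_aux_deriv (k : ℕ) (u t : ℝ) :
    HasDerivAt (fun t => th_aux_g k u t) (-th_aux_g (k + 1) u t) t := by
  unfold th_aux_g
  have h1 : HasDerivAt (fun t : ℝ => -t / (4 * u)) (-1 / (4 * u)) t :=
    (hasDerivAt_neg t).div_const _
  have h2 := (h1.exp).const_mul ((√(4 * π * u))⁻¹ ^ 3 * (4 * u)⁻¹ ^ k)
  refine h2.congr_deriv ?_
  rw [div_eq_mul_inv (-1 : ℝ)]
  ring

theorem hasDerivAt_Th (k : ℕ) {b : ℝ} (hb : 0 < b) (t : ℝ) :
    HasDerivAt (Th k b) (-Th (k + 1) b t) t := by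
  have h := hasDerivAt_integral_of_dominated_loc_of_deriv_le
    (μ := volume.restrict (Set.Ioi (0 : ℝ)))
    (F := fun t r => exp (-r) * th_aux_g k (b + r) t)
    (F' := fun t r => -(exp (-r) * th_aux_g (k + 1) (b + r) t))
    (bound := fun r => exp (-r) * th_aux_g (k + 1) b (-(|t| + 1)))
    (x₀ := t) (s := Metric.ball t 1) (Metric.ball_mem_nhds t one_pos)
    (Eventually.of_forall fun s => (th_aux_meas k b s).aestronglyMeasurable)
    (th_aux_int_g k hb t) (th_aux_meas (k + 1) b t).neg.aestronglyMeasurable ?_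
    ((integrableOn_exp_neg_Ioi 0).mul_const _) ?_
  · have h2 := h.2
    rw [integral_neg] at h2
    exact h2
  · refine (ae_restrict_iff' measurableSet_Ioi).2 (ae_of_all _ fun r hr s hs => ?_)
    have hr' : (0 : ℝ) < r := hr
    rw [norm_neg, Real.norm_eq_abs, abs_mul, abs_of_pos (exp_pos _),
      abs_of_pos (th_aux_g_pos _ (by linarith) s)]
    refine mul_le_mul_of_nonneg_left (th_aux_g_le _ hb (by linarith) ?_) (exp_pos _).le
    have : |s - t| < 1 := by simpa [Real.dist_eq] using hs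
    calc |s| = |(s - t) + t| := by ring_nf
      _ ≤ |s - t| + |t| := abs_add_le _ _
      _ ≤ |t| + 1 := by linarith
  · refine ae_of_all _ fun r s _ => ?_
    have := (th_aux_deriv k (b + r) s).const_mul (exp (-r))
    refine this.congr_deriv ?_
    ring

theorem contDiff_Th (k : ℕ) {b : ℝ} (hb : 0 < b) : ContDiff ℝ (⊤ : ℕ∞) (Th k b) := by
  have H : ∀ n : ℕ, ∀ k, ContDiff ℝ n (Th k b) := by
    intro n
    induction n with
    | zero =>
      intro k
      simp only [Nat.cast_zero, contDiff_zero]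
      exact continuous_iff_continuousAt.2 fun t => (hasDerivAt_Th k hb t).continuousAt
    | succ n ih =>
      intro k
      rw [Nat.cast_succ, contDiff_succ_iff_deriv]
      refine ⟨fun t => (hasDerivAt_Th k hb t).differentiableAt, by simp, ?_⟩
      have : deriv (Th k b) = fun t => -Th (k + 1) b t :=
        funext fun t => (hasDerivAt_Th k hb t).deriv
      rw [this]
      exact (ih (k + 1)).neg
  exact contDiff_infty.2 fun n => H n k

theorem Th_pos (k : ℕ) {b : ℝ} (hb : 0 < b) (t : ℝ) : 0 < Th k b t := by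
  rw [th_aux_Th, setIntegral_pos_iff_support_of_nonneg_ae ?_ (th_aux_int_g k hb t)]
  · have : Set.Ioi (0 : ℝ) ⊆
        Function.support (fun r => exp (-r) * th_aux_g k (b + r) t) ∩ Set.Ioi 0 := by
      intro r hr
      have hr' : (0 : ℝ) < r := hr
      exact ⟨(mul_pos (exp_pos _) (th_aux_g_pos k (by linarith) t)).ne', hr⟩
    refine lt_of_lt_of_le ?_ (measure_mono this)
    simp
  · refine (ae_restrict_iff' measurableSet_Ioi).2 (ae_of_all _ fun r hr => ?_)
    have hr' : (0 : ℝ) < r := hr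
    exact (mul_pos (exp_pos _) (th_aux_g_pos k (by linarith) t)).le

theorem Th_succ_le (k : ℕ) {b : ℝ} (hb : 0 < b) (t : ℝ) :
    Th (k + 1) b t ≤ Th k b t / (4 * b) := by
  rw [th_aux_Th, th_aux_Th, ← integral_div]
  refine setIntegral_mono_on (th_aux_int_g _ hb t) ((th_aux_int_g _ hb t).div_const _)
    measurableSet_Ioi fun r hr => ?_
  have hr' : (0 : ℝ) < r := hr
  rw [th_aux_g_succ, div_eq_mul_inv]
  have h1 : (4 * (b + r))⁻¹ ≤ (4 * b)⁻¹ := inv_anti₀ (by positivity) (by linarith)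
  have h2 := mul_pos (exp_pos (-r)) (th_aux_g_pos k (show 0 < b + r by linarith) t)
  nlinarith

theorem Th_cs {b : ℝ} (hb : 0 < b) (t : ℝ) : Th 1 b t ^ 2 ≤ Th 0 b t * Th 2 b t := by
  have h0 := Th_pos 0 hb t
  have key : ∀ l : ℝ, 0 ≤ l ^ 2 * Th 0 b t - 2 * l * Th 1 b t + Th 2 b t := by
    intro l
    have i0 := th_aux_int_g 0 hb t
    have i1 := th_aux_int_g 1 hb t
    have i2 := th_aux_int_g 2 hb t
    have i3 : IntegrableOn (fun r => l ^ 2 * (exp (-r) * th_aux_g 0 (b + r) t) -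
        2 * l * (exp (-r) * th_aux_g 1 (b + r) t)) (Set.Ioi 0) :=
      (i0.const_mul _).sub (i1.const_mul _)
    rw [th_aux_Th, th_aux_Th, th_aux_Th, ← integral_const_mul, ← integral_const_mul,
      ← integral_sub (i0.const_mul _) (i1.const_mul _), ← integral_add i3 i2]
    refine setIntegral_nonneg measurableSet_Ioi fun r hr => ?_
    have hr' : (0 : ℝ) < r := hr
    have h2 := mul_pos (exp_pos (-r)) (th_aux_g_pos 0 (show 0 < b + r by linarith) t)
    have e1 : th_aux_g 1 (b + r) t = (4 * (b + r))⁻¹ * th_aux_g 0 (b + r) t :=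
      th_aux_g_succ 0 _ _
    have e2 : th_aux_g 2 (b + r) t = (4 * (b + r))⁻¹ * th_aux_g 1 (b + r) t :=
      th_aux_g_succ 1 _ _
    have : l ^ 2 * (exp (-r) * th_aux_g 0 (b + r) t) - 2 * l * (exp (-r) * th_aux_g 1 (b + r) t) +
        exp (-r) * th_aux_g 2 (b + r) t =
        (l - (4 * (b + r))⁻¹) ^ 2 * (exp (-r) * th_aux_g 0 (b + r) t) := by
      rw [e2, e1]; ring
    rw [this]
    positivity
  have h := key (Th 1 b t / Th 0 b t)
  have e : (Th 1 b t / Th 0 b t) ^ 2 * Th 0 b t - 2 * (Th 1 b t / Th 0 b t) * Th 1 b t + Th 2 b t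
      = (Th 0 b t * Th 2 b t - Th 1 b t ^ 2) / Th 0 b t := by
    field_simp; ring
  rw [e] at h
  have := (div_nonneg_iff.1 h)
  rcases this with h1 | h1
  · linarith [h1.1]
  · linarith [h1.2]

theorem integrableOn_exp_hk {b : ℝ} (hb : 0 < b) (x : E) :
    IntegrableOn (fun r => exp (-r) * hk (b + r) x) (Set.Ioi 0) := by
  have := th_aux_int_g 0 hb (r2 x)
  simpa only [th_aux_g_zero] using this

theorem th_eq (b : ℝ) (x : E) : th b x = ∫ r in Set.Ioi (0 : ℝ), exp (-r) * hk (b + r) x := by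
  unfold th
  rw [th_aux_Th]
  simp only [th_aux_g_zero]

theorem th_aux_hkt {u : ℝ} (hu : 0 < u) (x : E) :
    hkt u x = 4 * r2 x * th_aux_g 2 u (r2 x) - 6 * th_aux_g 1 u (r2 x) := by
  have e1 : th_aux_g 1 u (r2 x) = (4 * u)⁻¹ * th_aux_g 0 u (r2 x) := th_aux_g_succ 0 _ _
  have e2 : th_aux_g 2 u (r2 x) = (4 * u)⁻¹ * th_aux_g 1 u (r2 x) := th_aux_g_succ 1 _ _
  rw [e2, e1, th_aux_g_zero]
  unfold hkt
  field_simp
  ring

theorem th_aux_int_hkt {b : ℝ} (hb : 0 < b) (x : E) :
    IntegrableOn (fun r => exp (-r) * hkt (b + r) x) (Set.Ioi 0) := by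
  have i1 := th_aux_int_g 1 hb (r2 x)
  have i2 := th_aux_int_g 2 hb (r2 x)
  refine ((i2.const_mul (4 * r2 x)).sub (i1.const_mul 6)).congr ?_
  refine (ae_restrict_iff' measurableSet_Ioi).2 (ae_of_all _ fun r hr => ?_)
  have hr' : (0 : ℝ) < r := hr
  simp only [Pi.sub_apply]
  rw [th_aux_hkt (by linarith)]
  ring

/-- integration by parts against `exp (-r)` -/
theorem th_aux_ftc {f f' : ℝ → ℝ} {b C : ℝ} (hb : 0 < b)
    (hd : ∀ u, 0 < u → HasDerivAt f (f' u) u) (hC : ∀ u, b ≤ u → |f u| ≤ C)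
    (i0 : IntegrableOn (fun r => exp (-r) * f (b + r)) (Set.Ioi 0))
    (i1 : IntegrableOn (fun r => exp (-r) * f' (b + r)) (Set.Ioi 0)) :
    ∫ r in Set.Ioi (0 : ℝ), exp (-r) * f' (b + r) =
      (∫ r in Set.Ioi (0 : ℝ), exp (-r) * f (b + r)) - f b := by
  have hder : ∀ r, 0 ≤ r → HasDerivAt (fun r => exp (-r) * f (b + r))
      (exp (-r) * f' (b + r) - exp (-r) * f (b + r)) r := by
    intro r hr
    have h1 : HasDerivAt (fun r : ℝ => f (b + r)) (f' (b + r)) r :=
      (hd (b + r) (by linarith)).comp_const_add b r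
    have h2 : HasDerivAt (fun r : ℝ => exp (-r)) (exp (-r) * -1) r := (hasDerivAt_neg r).exp
    refine (h2.mul h1).congr_deriv ?_
    ring
  have ht : Tendsto (fun r => exp (-r) * f (b + r)) atTop (𝓝 0) := by
    have h1 : Tendsto (fun r : ℝ => exp (-r) * C) atTop (𝓝 0) := by
      simpa using Real.tendsto_exp_neg_atTop_nhds_zero.mul_const C
    refine squeeze_zero_norm' ?_ h1
    filter_upwards [eventually_ge_atTop (0 : ℝ)] with r hr
    rw [Real.norm_eq_abs, abs_mul, abs_of_pos (exp_pos _)]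
    exact mul_le_mul_of_nonneg_left (hC _ (by linarith)) (exp_pos _).le
  have h := integral_Ioi_of_hasDerivAt_of_tendsto (hder 0 le_rfl).continuousAt.continuousWithinAt
    (fun r hr => hder r (le_of_lt hr)) (i1.sub i0) ht
  rw [integral_sub i1 i0] at h
  simp only [neg_zero, exp_zero, add_zero, one_mul, zero_sub] at h
  linarith

theorem th_aux_hk_abs {b u : ℝ} (hb : 0 < b) (hu : b ≤ u) (x : E) : |hk u x| ≤ hk b 0 := by
  rw [abs_of_nonneg (hk_nonneg _ _)]
  exact (hk_le_zero (hb.trans_le hu) x).trans (hk_zero_anti hb hu)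

theorem th_aux_hkt_int {b : ℝ} (hb : 0 < b) (x : E) :
    ∫ r in Set.Ioi (0 : ℝ), exp (-r) * hkt (b + r) x = th b x - hk b x := by
  rw [th_eq]
  exact th_aux_ftc (f := fun u => hk u x) (f' := fun u => hkt u x) (C := hk b 0) hb
    (fun u hu => hasDerivAt_hk_time hu x) (fun u hu => th_aux_hk_abs hb hu x)
    (integrableOn_exp_hk hb x) (th_aux_int_hkt hb x)

theorem Th_lap {b : ℝ} (hb : 0 < b) (x : E) :
    4 * r2 x * Th 2 b (r2 x) - 6 * Th 1 b (r2 x) = th b x - hk b x := by
  have i1 := th_aux_int_g 1 hb (r2 x)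
  have i2 := th_aux_int_g 2 hb (r2 x)
  rw [← th_aux_hkt_int hb, th_aux_Th, th_aux_Th, ← integral_const_mul, ← integral_const_mul,
    ← integral_sub (i2.const_mul _) (i1.const_mul _)]
  refine setIntegral_congr_fun measurableSet_Ioi fun r hr => ?_
  have hr' : (0 : ℝ) < r := hr
  rw [th_aux_hkt (by linarith)]
  ring

theorem xi_eq {b : ℝ} (hb : 0 < b) (x : E) :
    xi b x = ∫ r in Set.Ioi (0 : ℝ), exp (-r) * (3 / (2 * (b + r)) * hk (b + r) x) := by
  unfold xi
  rw [th_aux_Th, ← integral_const_mul]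
  refine setIntegral_congr_fun measurableSet_Ioi fun r hr => ?_
  have hr' : (0 : ℝ) < r := hr
  have e1 : th_aux_g 1 (b + r) (r2 x) = (4 * (b + r))⁻¹ * th_aux_g 0 (b + r) (r2 x) :=
    th_aux_g_succ 0 _ _
  rw [e1, th_aux_g_zero]
  field_simp
  ring

theorem th_pos {b : ℝ} (hb : 0 < b) (x : E) : 0 < th b x := Th_pos 0 hb _

theorem xi_nonneg {b : ℝ} (hb : 0 < b) (x : E) : 0 ≤ xi b x :=
  mul_nonneg (by norm_num) (Th_pos 1 hb _).le

theorem th_neg (b : ℝ) (x : E) : th b (-x) = th b x := by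
  unfold th; rw [r2_neg]

theorem th_le {b : ℝ} (hb : 0 < b) (x : E) : th b x ≤ hk b 0 := by
  rw [th_eq]
  calc ∫ r in Set.Ioi (0 : ℝ), exp (-r) * hk (b + r) x
      ≤ ∫ r in Set.Ioi (0 : ℝ), exp (-r) * hk b 0 := by
        refine setIntegral_mono_on (integrableOn_exp_hk hb x)
          ((integrableOn_exp_neg_Ioi 0).mul_const _) measurableSet_Ioi fun r hr => ?_
        have hr' : (0 : ℝ) < r := hr
        exact mul_le_mul_of_nonneg_left
          ((le_abs_self _).trans (th_aux_hk_abs hb (by linarith) x)) (exp_pos _).le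
    _ = hk b 0 := by rw [integral_mul_const, integral_exp_neg_Ioi_zero, one_mul]

theorem contDiff_th {b : ℝ} (hb : 0 < b) : ContDiff ℝ (⊤ : ℕ∞) (th b) :=
  (contDiff_Th 0 hb).comp contDiff_r2

theorem continuous_th {b : ℝ} (hb : 0 < b) : Continuous (th b) := (contDiff_th hb).continuous

theorem continuous_xi {b : ℝ} (hb : 0 < b) : Continuous (xi b) :=
  continuous_const.mul ((contDiff_Th 1 hb).continuous.comp contDiff_r2.continuous)

theorem measurable_th : Measurable fun p : ℝ × E => th p.1 p.2 := by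
  simp only [th_eq]
  have h : Measurable fun q : (ℝ × E) × ℝ => exp (-q.2) * hk (q.1.1 + q.2) q.1.2 := by
    have h1 : Measurable fun q : (ℝ × E) × ℝ => hk (q.1.1 + q.2) q.1.2 :=
      measurable_hk.comp (f := fun q : (ℝ × E) × ℝ => (q.1.1 + q.2, q.1.2)) (by fun_prop)
    exact (by fun_prop : Measurable fun q : (ℝ × E) × ℝ => exp (-q.2)).mul h1
  exact (h.stronglyMeasurable.integral_prod_right'
    (ν := volume.restrict (Set.Ioi (0 : ℝ)))).measurable

theorem continuousOn_th :
    ContinuousOn (fun p : ℝ × E => th p.1 p.2) (Set.Ioi 0 ×ˢ Set.univ) := by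
  intro p hp
  have hp' : 0 < p.1 := hp.1
  refine ContinuousAt.continuousWithinAt ?_
  simp only [th_eq]
  have hn : ∀ᶠ q : ℝ × E in 𝓝 p, p.1 / 2 < q.1 :=
    continuous_fst.continuousAt.eventually (lt_mem_nhds (by linarith))
  refine continuousAt_of_dominated (bound := fun r => exp (-r) * hk (p.1 / 2) 0) ?_ ?_
    ((integrableOn_exp_neg_Ioi 0).mul_const _) ?_
  · filter_upwards [hn] with q hq
    exact (integrableOn_exp_hk (by linarith) q.2).aestronglyMeasurable
  · filter_upwards [hn] with q hq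
    refine (ae_restrict_iff' measurableSet_Ioi).2 (ae_of_all _ fun r hr => ?_)
    have hr' : (0 : ℝ) < r := hr
    rw [Real.norm_eq_abs, abs_mul, abs_of_pos (exp_pos _)]
    exact mul_le_mul_of_nonneg_left (th_aux_hk_abs (by linarith) (by linarith) _) (exp_pos _).le
  · refine (ae_restrict_iff' measurableSet_Ioi).2 (ae_of_all _ fun r hr => ?_)
    have hr' : (0 : ℝ) < r := hr
    refine continuousAt_const.mul ?_
    have h1 : ContinuousAt (fun p : ℝ × E => hk p.1 p.2) (p.1 + r, p.2) :=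
      continuousOn_hk.continuousAt ((isOpen_Ioi.prod isOpen_univ).mem_nhds
        ⟨show 0 < p.1 + r by linarith, trivial⟩)
    exact h1.comp (f := fun q : ℝ × E => (q.1 + r, q.2)) (by fun_prop)

theorem th_aux_prod {b : ℝ} (hb : 0 < b) :
    Integrable (fun q : E × ℝ => exp (-q.2) * hk (b + q.2) q.1)
      ((volume : Measure E).prod (volume.restrict (Set.Ioi (0 : ℝ)))) := by
  have hm : Measurable fun q : E × ℝ => exp (-q.2) * hk (b + q.2) q.1 := by
    have h1 : Measurable fun q : E × ℝ => hk (b + q.2) q.1 :=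
      measurable_hk.comp (f := fun q : E × ℝ => (b + q.2, q.1)) (by fun_prop)
    exact (by fun_prop : Measurable fun q : E × ℝ => exp (-q.2)).mul h1
  rw [integrable_prod_iff' hm.aestronglyMeasurable]
  constructor
  · refine (ae_restrict_iff' measurableSet_Ioi).2 (ae_of_all _ fun r hr => ?_)
    have hr' : (0 : ℝ) < r := hr
    have hu : 0 < b + r := by linarith
    exact (integrable_hk hu).const_mul (exp (-r))
  · refine (integrableOn_exp_neg_Ioi 0).congr ?_
    refine (ae_restrict_iff' measurableSet_Ioi).2 (ae_of_all _ fun r hr => ?_)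
    have hr' : (0 : ℝ) < r := hr
    have : ∀ x : E, ‖exp (-r) * hk (b + r) x‖ = exp (-r) * hk (b + r) x := fun x =>
      Real.norm_of_nonneg (mul_nonneg (exp_pos _).le (hk_nonneg _ _))
    simp only [this]
    rw [integral_const_mul, integral_hk (by linarith), mul_one]

theorem integrable_th {b : ℝ} (hb : 0 < b) : Integrable (th b) := by
  have := (th_aux_prod hb).integral_prod_left
  refine this.congr (ae_of_all _ fun x => ?_)
  simp only [th_eq]

theorem integral_th {b : ℝ} (hb : 0 < b) : ∫ x, th b x = 1 := by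
  simp only [th_eq]
  rw [integral_integral_swap (f := fun (x : E) (r : ℝ) => exp (-r) * hk (b + r) x)
    (th_aux_prod hb), ← integral_exp_neg_Ioi_zero]
  refine setIntegral_congr_fun measurableSet_Ioi fun r hr => ?_
  have hr' : (0 : ℝ) < r := hr
  rw [integral_const_mul, integral_hk (by linarith), mul_one]

theorem th_conv {b w : ℝ} (hb : 0 < b) (hw : 0 < w) (x y : E) :
    ∫ z, th b (z - x) * hk w (y - z) = th (b + w) (y - x) := by
  simp only [th_eq]
  simp only [← integral_mul_const]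
  have hi : Integrable (fun q : E × ℝ => exp (-q.2) * hk (b + q.2) (q.1 - x) * hk w (y - q.1))
      ((volume : Measure E).prod (volume.restrict (Set.Ioi (0 : ℝ)))) := by
    have hm : Measurable fun q : E × ℝ =>
        exp (-q.2) * hk (b + q.2) (q.1 - x) * hk w (y - q.1) := by
      have h1 : Measurable fun q : E × ℝ => hk (b + q.2) (q.1 - x) :=
        measurable_hk.comp (f := fun q : E × ℝ => (b + q.2, q.1 - x)) (by fun_prop)
      have h2 : Measurable fun q : E × ℝ => hk w (y - q.1) :=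
        (continuous_hk w).measurable.comp (f := fun q : E × ℝ => y - q.1) (by fun_prop)
      exact ((by fun_prop : Measurable fun q : E × ℝ => exp (-q.2)).mul h1).mul h2
    have hb' : Integrable (fun q : E × ℝ => hk w (y - q.1) * (exp (-q.2) * hk b 0))
        ((volume : Measure E).prod (volume.restrict (Set.Ioi (0 : ℝ)))) :=
      Integrable.mul_prod (f := fun z : E => hk w (y - z)) (g := fun r : ℝ => exp (-r) * hk b 0)
        ((integrable_hk hw).comp_sub_left y) ((integrableOn_exp_neg_Ioi 0).mul_const _)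
    refine hb'.mono' hm.aestronglyMeasurable ?_
    have hae : ∀ᵐ q : E × ℝ ∂((volume : Measure E).prod (volume.restrict (Set.Ioi (0 : ℝ)))),
        0 < q.2 := by
      refine (Measure.quasiMeasurePreserving_snd (μ := (volume : Measure E))
        (ν := volume.restrict (Set.Ioi (0 : ℝ)))).ae (p := fun r : ℝ => 0 < r) ?_
      exact (ae_restrict_iff' measurableSet_Ioi).2 (ae_of_all _ fun r hr => hr)
    filter_upwards [hae] with q hq
    rw [Real.norm_eq_abs, abs_mul, abs_mul, abs_of_pos (exp_pos _),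
      abs_of_nonneg (hk_nonneg w _), mul_comm]
    exact mul_le_mul_of_nonneg_left (mul_le_mul_of_nonneg_left
      (th_aux_hk_abs hb (by linarith) _) (exp_pos _).le) (hk_nonneg _ _)
  rw [integral_integral_swap
    (f := fun (z : E) (r : ℝ) => exp (-r) * hk (b + r) (z - x) * hk w (y - z)) hi]
  refine setIntegral_congr_fun measurableSet_Ioi fun r hr => ?_
  have hr' : (0 : ℝ) < r := hr
  simp only [mul_assoc]
  rw [integral_const_mul, hk_conv (by linarith) hw, add_right_comm]

theorem hasDerivAt_th_time {b : ℝ} (hb : 0 < b) (x : E) :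
    HasDerivAt (fun b => th b x) (th b x - hk b x) b := by
  have hb2 : 0 < b / 2 := by linarith
  have h := hasDerivAt_integral_of_dominated_loc_of_deriv_le
    (μ := volume.restrict (Set.Ioi (0 : ℝ)))
    (F := fun b r => exp (-r) * hk (b + r) x)
    (F' := fun b r => exp (-r) * hkt (b + r) x)
    (bound := fun r => exp (-r) * (4 * r2 x * th_aux_g 2 (b / 2) (-|r2 x|) +
      6 * th_aux_g 1 (b / 2) (-|r2 x|)))
    (x₀ := b) (s := Set.Ioi (b / 2)) (Ioi_mem_nhds (by linarith)) ?_
    (integrableOn_exp_hk hb x) (th_aux_int_hkt hb x).aestronglyMeasurable ?_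
    ((integrableOn_exp_neg_Ioi 0).mul_const _) ?_
  · have h2 := h.2
    rw [th_aux_hkt_int hb] at h2
    simpa only [← th_eq] using h2
  · filter_upwards [Ioi_mem_nhds hb] with c hc
    exact (integrableOn_exp_hk hc x).aestronglyMeasurable
  · refine (ae_restrict_iff' measurableSet_Ioi).2 (ae_of_all _ fun r hr s hs => ?_)
    have hr' : (0 : ℝ) < r := hr
    have hs' : b / 2 < s := hs
    have hu : 0 < s + r := by linarith
    rw [Real.norm_eq_abs, abs_mul, abs_of_pos (exp_pos _)]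
    refine mul_le_mul_of_nonneg_left ?_ (exp_pos _).le
    rw [th_aux_hkt hu]
    have h1 := th_aux_g_le 1 hb2 (show b / 2 ≤ s + r by linarith) (le_refl |r2 x|)
    have h2 := th_aux_g_le 2 hb2 (show b / 2 ≤ s + r by linarith) (le_refl |r2 x|)
    have p1 := th_aux_g_pos 1 hu (r2 x)
    have p2 := th_aux_g_pos 2 hu (r2 x)
    have h3 := r2_nonneg x
    have h4 := mul_le_mul_of_nonneg_left h2 h3
    have h5 := mul_nonneg h3 p2.le
    rw [abs_le]
    constructor <;> nlinarith
  · refine (ae_restrict_iff' measurableSet_Ioi).2 (ae_of_all _ fun r hr s hs => ?_)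
    have hr' : (0 : ℝ) < r := hr
    have hs' : b / 2 < s := hs
    have hu : 0 < s + r := by linarith
    exact ((hasDerivAt_hk_time hu x).comp_add_const s r).const_mul _

theorem th_add_le {b δ : ℝ} (hb : 0 < b) (hδ : 0 ≤ δ) (x : E) :
    th (b + δ) x ≤ exp δ * th b x := by
  have hd : ∀ u, 0 < u → HasDerivAt (fun u => exp (-u) * th u x) (-(exp (-u) * hk u x)) u := by
    intro u hu
    have h2 : HasDerivAt (fun r : ℝ => exp (-r)) (exp (-u) * -1) u := (hasDerivAt_neg u).exp
    refine (h2.mul (hasDerivAt_th_time hu x)).congr_deriv ?_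
    ring
  have ha : AntitoneOn (fun u => exp (-u) * th u x) (Set.Ioi 0) := by
    refine antitoneOn_of_deriv_nonpos (convex_Ioi 0)
      (fun u hu => (hd u hu).continuousAt.continuousWithinAt) ?_ ?_
    · rw [interior_Ioi]
      exact fun u hu => (hd u hu).differentiableAt.differentiableWithinAt
    · rw [interior_Ioi]
      intro u hu
      rw [(hd u hu).deriv]
      exact neg_nonpos.2 (mul_nonneg (exp_pos _).le (hk_nonneg _ _))
  have h := ha (show b ∈ Set.Ioi 0 from hb) (show b + δ ∈ Set.Ioi 0 by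
    show 0 < b + δ; linarith) (by linarith)
  simp only at h
  have e : exp (-b) = exp (-(b + δ)) * exp δ := by rw [← exp_add]; ring_nf
  rw [e, mul_assoc] at h
  exact le_of_mul_le_mul_left h (exp_pos _)

theorem th_le_th {b B : ℝ} (hb : 0 < b) (h : b ≤ B) (x : E) :
    th b x ≤ √(B / b) ^ 3 * th B x := by
  have hB : 0 < B := hb.trans_le h
  rw [th_eq, th_eq, ← integral_const_mul]
  refine setIntegral_mono_on (integrableOn_exp_hk hb x)
    ((integrableOn_exp_hk hB x).const_mul _) measurableSet_Ioi fun r hr => ?_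
  have hr' : (0 : ℝ) < r := hr
  have h1 := hk_le_hk (show 0 < b + r by linarith) (show b + r ≤ B + r by linarith) x
  have h2 : (B + r) / (b + r) ≤ B / b := by
    rw [div_le_div_iff₀ (by linarith) hb]
    nlinarith
  have h3 : √((B + r) / (b + r)) ^ 3 ≤ √(B / b) ^ 3 := by gcongr
  have h4 := mul_le_mul_of_nonneg_right h3 (hk_nonneg (B + r) x)
  rw [mul_left_comm]
  exact mul_le_mul_of_nonneg_left (h1.trans h4) (exp_pos _).le

theorem hk_le_th {B w : ℝ} (hB : 0 < B) (h : B ≤ w) (hw : w ≤ 1) (x : E) :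
    hk w x ≤ 25 / w * th B x := by
  have hw0 : 0 < w := hB.trans_le h
  have hsub : Set.Ioc (w - B) (2 * w - B) ⊆ Set.Ioi (0 : ℝ) := fun r hr => by
    show 0 < r
    linarith [hr.1]
  have h1 : ∫ r in Set.Ioc (w - B) (2 * w - B), exp (-r) * hk (B + r) x ≤ th B x := by
    rw [th_eq]
    refine setIntegral_mono_set (integrableOn_exp_hk hB x) ?_ hsub.eventuallyLE
    exact ae_of_all _ fun r => mul_nonneg (exp_pos _).le (hk_nonneg _ _)
  have he : exp (2 : ℝ) ≤ 8 := by
    have := Real.exp_one_lt_d9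
    have e : exp (2 : ℝ) = exp 1 * exp 1 := by rw [← exp_add]; norm_num
    have := exp_pos (1 : ℝ)
    nlinarith
  have h2 : hk w x / 25 * (volume : Measure ℝ).real (Set.Ioc (w - B) (2 * w - B)) ≤
      ∫ r in Set.Ioc (w - B) (2 * w - B), exp (-r) * hk (B + r) x := by
    refine setIntegral_ge_of_const_le_real measurableSet_Ioc (by simp) (fun r hr => ?_)
      ((integrableOn_exp_hk hB x).mono_set hsub)
    have hr1 := hr.1
    have hr2 := hr.2
    have a1 := hk_le_hk hw0 (show w ≤ B + r by linarith) x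
    have a2 : (B + r) / w ≤ 2 := by rw [div_le_iff₀ hw0]; linarith
    have a3 : √((B + r) / w) ≤ 1.44 := by
      rw [Real.sqrt_le_left (by norm_num)]
      linarith [show (2 : ℝ) ≤ 1.44 ^ 2 by norm_num]
    have a4 : √((B + r) / w) ^ 3 ≤ 3 := by
      calc √((B + r) / w) ^ 3 ≤ 1.44 ^ 3 := by gcongr
        _ ≤ 3 := by norm_num
    have a5 := hk_nonneg (B + r) x
    have a6 : 1 / 8 ≤ exp (-r) := by
      have : exp r ≤ 8 := (exp_le_exp.2 (by linarith)).trans he
      rw [exp_neg, one_div]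
      exact inv_anti₀ (exp_pos _) this
    nlinarith
  rw [Real.volume_real_Ioc_of_le (by linarith)] at h2
  have e : 2 * w - B - (w - B) = w := by ring
  rw [e] at h2
  rw [div_mul_eq_mul_div, le_div_iff₀ hw0]
  linarith

theorem th_aux_VV_abs {b u : ℝ} (hb : 0 < b) (hu : b ≤ u) (x : E) : |VV u x| ≤ (√b)⁻¹ := by
  rw [abs_of_nonneg (VV_nonneg _ _)]
  exact (VV_anti hb hu x).trans (VV_le hb x)

theorem integrableOn_exp_VV {b : ℝ} (hb : 0 < b) (x : E) :
    IntegrableOn (fun r => exp (-r) * VV (b + r) x) (Set.Ioi 0) :=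
  th_aux_int (f := fun r => VV (b + r) x)
    (measurable_VV.comp (f := fun r : ℝ => (b + r, x)) (by fun_prop))
    (fun r hr => th_aux_VV_abs hb (by linarith) x)

theorem th_poisson {b : ℝ} (hb : 0 < b) (x : E) :
    4 * π * th b x = VV b x - ∫ r in Set.Ioi (0 : ℝ), exp (-r) * VV (b + r) x := by
  have e : (fun r => exp (-r) * -(4 * π * hk (b + r) x)) =
      fun r => -(4 * π) * (exp (-r) * hk (b + r) x) := by
    funext r; ring
  have h := th_aux_ftc (f := fun u => VV u x) (f' := fun u => -(4 * π * hk u x)) hb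
    (fun u hu => hasDerivAt_VV_time hu x) (fun u hu => th_aux_VV_abs hb hu x)
    (integrableOn_exp_VV hb x) (by rw [e]; exact (integrableOn_exp_hk hb x).const_mul _)
  rw [e, integral_const_mul, ← th_eq] at h
  linarith

theorem contDiff_sqrt_th {b : ℝ} (hb : 0 < b) : ContDiff ℝ (⊤ : ℕ∞) fun x => √(th b x) :=
  (contDiff_th hb).sqrt fun x => (th_pos hb x).ne'

theorem th_aux_line {f : E → ℝ} (hf : Differentiable ℝ f) {x v : E} {d : ℝ}
    (h : HasDerivAt (fun s : ℝ => f (x + s • v)) d 0) : fderiv ℝ f x v = d := by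
  have h1 : HasLineDerivAt ℝ f d x v := h
  rw [← (hf x).lineDeriv_eq_fderiv, h1.lineDeriv]

theorem th_aux_th_line {b : ℝ} (hb : 0 < b) (x : E) (k : Fin 3) :
    HasDerivAt (fun s : ℝ => th b (x + s • ee k)) (-Th 1 b (r2 x) * (2 * x k)) 0 := by
  have h1 := hasDerivAt_r2_line x k
  have h2 : HasDerivAt (Th 0 b) (-Th 1 b (r2 x)) (r2 (x + (0 : ℝ) • ee k)) := by
    simpa using hasDerivAt_Th 0 hb (r2 x)
  exact h2.comp (0 : ℝ) h1

theorem th_aux_fderiv_th {b : ℝ} (hb : 0 < b) (x : E) (k : Fin 3) :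
    fderiv ℝ (th b) x (ee k) = -Th 1 b (r2 x) * (2 * x k) :=
  th_aux_line ((contDiff_th hb).differentiable (by simp)) (th_aux_th_line hb x k)

theorem th_aux_grad {b : ℝ} (hb : 0 < b) (x : E) :
    4 * r2 x * Th 1 b (r2 x) ^ 2 ≤ th b x * (th b x + xi b x) := by
  have h1 := Th_cs hb (r2 x)
  have h2 := Th_lap hb x
  have h3 := r2_nonneg x
  have h4 := hk_nonneg b x
  have h5 := th_pos hb x
  have h6 : 4 * r2 x * Th 2 b (r2 x) ≤ th b x + xi b x := by unfold xi; linarith
  have h7 : Th 0 b (r2 x) = th b x := rfl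
  rw [h7] at h1
  calc 4 * r2 x * Th 1 b (r2 x) ^ 2 ≤ 4 * r2 x * (th b x * Th 2 b (r2 x)) := by gcongr
    _ = th b x * (4 * r2 x * Th 2 b (r2 x)) := by ring
    _ ≤ th b x * (th b x + xi b x) := by gcongr

theorem grad_sqrt_th {b : ℝ} (hb : 0 < b) (x : E) :
    ∑ k, fderiv ℝ (fun x => √(th b x)) x (ee k) ^ 2 ≤ (th b x + xi b x) / 4 := by
  have h5 := th_pos hb x
  have hd : ∀ k, fderiv ℝ (fun x => √(th b x)) x (ee k) =
      -Th 1 b (r2 x) * (2 * x k) / (2 * √(th b x)) := by
    intro k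
    refine th_aux_line ((contDiff_sqrt_th hb).differentiable (by simp)) ?_
    have := (th_aux_th_line hb x k).sqrt (by simpa using h5.ne')
    simpa using this
  have e : ∑ k, fderiv ℝ (fun x => √(th b x)) x (ee k) ^ 2 =
      4 * r2 x * Th 1 b (r2 x) ^ 2 / (4 * th b x) := by
    simp only [hd, div_pow, mul_pow, Real.sq_sqrt h5.le]
    rw [← Finset.sum_div, ← Finset.mul_sum, ← Finset.mul_sum]
    unfold r2
    ring
  rw [e, div_le_div_iff₀ (by positivity) (by norm_num)]
  nlinarith [th_aux_grad hb x]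

theorem th_lip {a : ℝ} (ha : 0 < a) : ∃ C : ℝ, 0 < C ∧ ∀ b B, a ≤ b → a ≤ B → ∀ x y : E,
    |th b x - th B y| ≤ C * (‖x - y‖ + |b - B|) := by
  set M := hk a 0 with hM
  have hM0 : 0 < M := hk_pos ha 0
  set K := √(M * (M + 6 * (M / (4 * a)))) with hK
  have hK0 : 0 ≤ K := Real.sqrt_nonneg _
  have hth : ∀ b, a ≤ b → ∀ x, th b x ≤ M := fun b hb x =>
    (th_le (ha.trans_le hb) x).trans (hk_zero_anti ha hb)
  have hg : ∀ b, a ≤ b → ∀ x k, |fderiv ℝ (th b) x (ee k)| ≤ K := by
    intro b hb x k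
    have hb0 := ha.trans_le hb
    rw [th_aux_fderiv_th hb0]
    refine Real.abs_le_sqrt ?_
    have h1 := th_aux_grad hb0 x
    have h2 : x k ^ 2 ≤ r2 x :=
      Finset.single_le_sum (f := fun k => x k ^ 2) (fun k _ => sq_nonneg _) (Finset.mem_univ k)
    have h3 : xi b x ≤ 6 * (M / (4 * a)) := by
      unfold xi
      have := Th_succ_le 0 hb0 (r2 x)
      have h4 : Th 0 b (r2 x) / (4 * b) ≤ M / (4 * a) := by
        have : Th 0 b (r2 x) ≤ M := hth b hb x
        gcongr
      linarith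
    have h4 := hth b hb x
    have h5 := th_pos hb0 x
    have h6 := xi_nonneg hb0 x
    calc (-Th 1 b (r2 x) * (2 * x k)) ^ 2 = 4 * x k ^ 2 * Th 1 b (r2 x) ^ 2 := by ring
      _ ≤ 4 * r2 x * Th 1 b (r2 x) ^ 2 := by gcongr
      _ ≤ th b x * (th b x + xi b x) := h1
      _ ≤ M * (M + 6 * (M / (4 * a))) := by gcongr
  have hsp : ∀ b, a ≤ b → ∀ x y : E, |th b x - th b y| ≤ 3 * K * ‖x - y‖ := by
    intro b hb x y
    have hb0 := ha.trans_le hb
    have hdiff : Differentiable ℝ (th b) := (contDiff_th hb0).differentiable (by simp)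
    have := convex_univ.norm_image_sub_le_of_norm_fderiv_le (𝕜 := ℝ) (f := th b) (C := 3 * K)
      (fun z _ => hdiff z) (fun z _ => ?_) (Set.mem_univ y) (Set.mem_univ x)
    · simpa using this
    · refine ContinuousLinearMap.opNorm_le_bound _ (by positivity) fun d => ?_
      have e : d = ∑ k, d k • ee k := by
        funext j
        simp [ee, Finset.sum_apply, Pi.single_apply]
      have e2 : fderiv ℝ (th b) z d = ∑ k, d k * fderiv ℝ (th b) z (ee k) := by
        conv_lhs => rw [e]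
        simp [map_sum]
      rw [e2, Real.norm_eq_abs]
      calc |∑ k, d k * fderiv ℝ (th b) z (ee k)| ≤ ∑ k, |d k * fderiv ℝ (th b) z (ee k)| :=
            Finset.abs_sum_le_sum_abs _ _
        _ ≤ ∑ _k : Fin 3, ‖d‖ * K := by
            refine Finset.sum_le_sum fun k _ => ?_
            rw [abs_mul]
            exact mul_le_mul (norm_le_pi_norm d k) (hg b hb z k) (abs_nonneg _) (norm_nonneg _)
        _ = 3 * K * ‖d‖ := by simp; ring
  have hti : ∀ b B, a ≤ b → a ≤ B → ∀ y : E, |th b y - th B y| ≤ M * |b - B| := by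
    intro b B hb hB y
    have := (convex_Ici a).norm_image_sub_le_of_norm_hasDerivWithin_le (𝕜 := ℝ)
      (f := fun u => th u y) (f' := fun u => th u y - hk u y) (C := M)
      (fun u hu => (hasDerivAt_th_time (ha.trans_le hu) y).hasDerivWithinAt)
      (fun u hu => ?_) (show B ∈ Set.Ici a from hB) (show b ∈ Set.Ici a from hb)
    · simpa using this
    · have h1 := hth u hu y
      have h2 := th_pos (ha.trans_le hu) y
      have h3 := hk_nonneg u y
      have h4 : hk u y ≤ M := (le_abs_self _).trans (th_aux_hk_abs ha hu y)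
      rw [Real.norm_eq_abs, abs_le]
      constructor <;> linarith
  refine ⟨3 * K + M, by positivity, fun b B hb hB x y => ?_⟩
  have h1 := hsp b hb x y
  have h2 := hti b B hb hB y
  have h3 := abs_sub_le (th b x) (th b y) (th B y)
  have h4 := norm_nonneg (x - y)
  have h5 := abs_nonneg (b - B)
  nlinarith [mul_nonneg hK0 h5, mul_nonneg hM0.le h4]

end Pool.Agent.Lib.MP_0655ed_mp
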