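import Pool.Agent.Lib.MP_0655ed_mp.ImpCore

open Finset MeasureTheory Real Filter Topology

set_option linter.unusedSectionVars false

namespace Pool.Agent.Lib.MP_0655ed_mp

variable {σ Sp : Type} [Fintype σ] [DecidableEq σ] [Fintype Sp] {P : Species σ Sp}
  {I mb cm cb : ℝ}

theorem exists_dat (hm : ∀ s, 0 < P.mass s) (hs : ∀ s, (P.spins s).Nonempty)
    (hc : ∀ s, P.charge s ≠ 0) : ∃ I mb cm cb, Dat P I mb cm cb := by
  have h1 : 0 ≤ ∑ s, |P.charge s|⁻¹ := Finset.sum_nonneg fun _ _ => by positivity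
  refine ⟨∑ s, 1 / (2 * P.mass s), ∑ s, P.mass s, (1 + ∑ s, |P.charge s|⁻¹)⁻¹, ∑ s, |P.charge s|,
    hm, fun s => ?_, fun s => ?_, by positivity, fun s => ?_, fun s => ?_, hs⟩
  · exact Finset.single_le_sum (f := fun s => 1 / (2 * P.mass s))
      (fun s _ => by have := hm s; positivity) (Finset.mem_univ s)
  · exact Finset.single_le_sum (f := P.mass) (fun s _ => (hm s).le) (Finset.mem_univ s)
  · have h2 : |P.charge s|⁻¹ ≤ ∑ s, |P.charge s|⁻¹ :=
      Finset.single_le_sum (f := fun s => |P.charge s|⁻¹) (fun _ _ => by positivity)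
        (Finset.mem_univ s)
    rw [inv_le_comm₀ (by positivity) (abs_pos.mpr (hc s))]
    linarith
  · exact Finset.single_le_sum (f := fun s => |P.charge s|) (fun _ _ => abs_nonneg _)
      (Finset.mem_univ s)

section aux
variable {ι κ : Type} [Fintype ι] [DecidableEq ι] [Fintype κ] [DecidableEq κ]

theorem tl_opt {p k n a m mb : ℝ} (hk : 0 ≤ k) (ha : 0 ≤ a) (hm : 0 < m)
    (hmb : m ≤ mb) (h : ∀ δ : ℝ, 0 < δ → p ≤ δ * k + n / δ) :
    a * p ≤ k / (4 * m) + 4 * mb * a ^ 2 * n := by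
  have hmb0 : 0 < mb := hm.trans_le hmb
  rcases ha.eq_or_lt with rfl | ha
  · have : 0 ≤ k / (4 * m) := by positivity
    simpa using this
  · have h1 := mul_le_mul_of_nonneg_left (h (1 / (4 * mb * a)) (by positivity)) ha.le
    have h2 : a * (1 / (4 * mb * a) * k + n / (1 / (4 * mb * a))) =
        k / (4 * mb) + 4 * mb * a ^ 2 * n := by field_simp
    have h3 : k / (4 * mb) ≤ k / (4 * m) :=
      div_le_div_of_nonneg_left hk (by positivity) (by linarith)
    linarith

omit [Fintype σ] [DecidableEq σ] in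
theorem tl_qx_smul (sp : ι → σ) (s : ℝ) (z : E) {u : Wv ι Sp} (h : Nice u) (c : ℂ) :
    qx P sp s z (c • u) = ‖c‖ ^ 2 * qx P sp s z u := by
  unfold qx
  rw [en_smul _ _ h, pot_smul]
  ring

omit [Fintype σ] in
theorem tl_apriori (hD : Dat P I mb cm cb) {A : ℝ} (hA : Stb P A) {sp : ι → σ} {L : ℝ}
    (hL : 0 < L) (s : ℝ) (z : E) {u : Wv ι Sp} (hu : Tst P sp L u) :
    -(Fintype.card ι * (4 * |A| + 4 * mb * cb ^ 2 * s ^ 2)) * nr u ≤ qx P sp s z u := by
  classical
  have h1 := hA.gain hD.mpos hL hu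
  have hn := nr_nonneg u
  have h5 : ∑ i, gain P sp i u = ∑ i, kin i u / (4 * P.mass (sp i)) +
      2 * pot (coulomb fun i => P.charge (sp i)) u := by
    unfold gain
    rw [Finset.sum_add_distrib, coulomb_eq, pot_const_mul,
      pot_sum _ (fun i _ => locInt_potl _ i) hu.nice.cc]
    ring
  have h6 : ∑ i, kin i u / (2 * P.mass (sp i)) = 2 * ∑ i, kin i u / (4 * P.mass (sp i)) := by
    rw [Finset.mul_sum]
    refine Finset.sum_congr rfl fun i _ => ?_
    have := hD.mpos (sp i)
    field_simp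
    ring
  have h7 : 0 ≤ ∑ i, kin i u / (4 * P.mass (sp i)) := Finset.sum_nonneg fun i _ => by
    have := hD.mpos (sp i)
    have := kin_nonneg i u
    positivity
  have h8 : pot (ph (ch P sp) vk z) u = ∑ j, ch P sp j * pot (fun x => vk (x j - z)) u := by
    unfold ph
    rw [pot_sum (U := fun j (x : X ι) => ch P sp j * vk (x j - z)) _
      (fun j _ => (locInt_one_body j locInt_vk z).smul (ch P sp j)) hu.nice.cc]
    exact Finset.sum_congr rfl fun j _ => pot_const_mul _ _ _
  have h9 : ∀ j, -(kin j u / (4 * P.mass (sp j)) + 4 * mb * cb ^ 2 * s ^ 2 * nr u) ≤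
      s * (ch P sp j * pot (fun x => vk (x j - z)) u) := by
    intro j
    have hcb : 0 ≤ cb := (abs_nonneg _).trans (hD.hcb (sp j))
    have e1 := tl_opt (a := |s| * cb) (kin_nonneg j u) (by positivity) (hD.mpos (sp j))
      (hD.hmb (sp j)) fun δ hδ => hyd hu.nice j z hδ
    have e2 : 0 ≤ pot (fun x : X ι => vk (x j - z)) u := pot_nonneg (fun _ => vk_nonneg _) u
    have e3 : |s * ch P sp j| ≤ |s| * cb := by
      rw [abs_mul]
      exact mul_le_mul_of_nonneg_left (hD.hcb (sp j)) (abs_nonneg _)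
    have e4 := mul_le_mul_of_nonneg_right ((neg_le_neg e3).trans (neg_abs_le _)) e2
    rw [mul_pow, sq_abs] at e1
    linarith
  have h10 := Finset.sum_le_sum fun j (_ : j ∈ Finset.univ) => h9 j
  rw [← Finset.mul_sum, ← h8, Finset.sum_neg_distrib, Finset.sum_add_distrib, Finset.sum_const,
    Finset.card_univ, nsmul_eq_mul] at h10
  unfold qx en
  rw [h5] at h1
  rw [h6]
  linarith

/-- slice at a fixed position and spin of the distinguished particle -/
def tl_sl (u : Wv (Option κ) Sp) (t : Sp) (z : E) : Wv κ Sp :=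
  fun τ x => u (cons t τ) (cons z x)

theorem tl_fubini {G : (Option κ → Sp) → X (Option κ) → ℝ} (hG : ∀ τ, Integrable (G τ)) :
    (∀ t : Sp, Integrable fun z : E => ∑ τ : κ → Sp, ∫ x : X κ, G (cons t τ) (cons z x)) ∧
    ∑ τ, ∫ x, G τ x = ∑ t : Sp, ∫ z : E, ∑ τ : κ → Sp, ∫ x : X κ, G (cons t τ) (cons z x) := by
  have h1 : ∀ τ, Integrable fun z : E => ∫ x : X κ, G τ (cons z x) := fun τ =>
    (integrable_cons (hG τ)).integral_prod_right
  refine ⟨fun t => integrable_finsetSum _ fun τ _ => h1 _, ?_⟩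
  rw [sum_cons, Finset.sum_comm]
  refine Finset.sum_congr rfl fun t _ => ?_
  rw [integral_finsetSum _ fun τ _ => h1 _]
  refine Finset.sum_congr rfl fun τ _ => ?_
  rw [integral_cons (hG _)]
  exact integral_integral_swap (integrable_cons (hG _))

theorem tl_pot {U : X (Option κ) → ℝ} (hU : LocallyIntegrable U) {u : Wv (Option κ) Sp}
    (h : Cc u) :
    (∀ t : Sp, Integrable fun z : E => pot (fun x => U (cons z x)) (tl_sl u t z)) ∧
    pot U u = ∑ t : Sp, ∫ z : E, pot (fun x => U (cons z x)) (tl_sl u t z) :=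
  tl_fubini fun τ => integrable_pot hU h τ

omit [Fintype Sp] in
theorem tl_Dv {u : Wv (Option κ) Sp} (h : Nice u) (t : Sp) (z : E) (j : κ) (k : Fin 3) :
    Dv (dir j k) (tl_sl u t z) = tl_sl (Dv (dir (some j) k) u) t z := by
  funext τ x
  have := (h.diff (cons t τ) (cons z x)).hasFDerivAt.comp x (hasFDerivAt_consR z x)
  show fderiv ℝ (u (cons t τ) ∘ fun x => cons z x) x _ = _
  rw [this.fderiv, ContinuousLinearMap.comp_apply, inR_dir]
  rfl

theorem tl_kin {u : Wv (Option κ) Sp} (h : Nice u) (j : κ) :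
    (∀ t : Sp, Integrable fun z : E => kin j (tl_sl u t z)) ∧
    kin (some j) u = ∑ t : Sp, ∫ z : E, kin j (tl_sl u t z) := by
  have h1 := fun k => tl_pot (U := fun _ => 1) locInt_one (h.dv (dir (some j) k)).cc
  unfold kin nr
  simp only [tl_Dv h]
  refine ⟨fun t => integrable_finsetSum _ fun k _ => (h1 k).1 t, ?_⟩
  rw [Finset.sum_congr rfl fun t _ => integral_finsetSum _ fun k _ => (h1 k).1 t,
    Finset.sum_comm]
  exact Finset.sum_congr rfl fun k _ => (h1 k).2

omit [Fintype σ] [DecidableEq σ] [Fintype Sp] in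
theorem tl_tst {sp : Option κ → σ} {L : ℝ} {u : Wv (Option κ) Sp} (hu : Tst P sp L u) (t : Sp)
    (z : E) : Tst P (fun j => sp (some j)) L (tl_sl u t z) := by
  refine ⟨fun τ => (hu.smooth _).comp ?_, ?_, fun τ x hx i => hu.spin _ _ hx (some i),
    fun i j hij hs => ?_⟩
  · have : (fun x : X κ => cons z x) = fun x => inR κ x + inZ κ z := funext fun x => cons_eq z x
    show ContDiff ℝ _ fun x : X κ => cons z x
    rw [this]
    exact (inR κ).contDiff.add contDiff_const
  · obtain ⟨r, hr, hs⟩ := hu.supp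
    exact ⟨r, hr, fun τ x hx i => hs _ _ hx (some i)⟩
  · have h1 := hu.sym (some i) (some j) (by simpa using hij) hs
    funext τ x
    have := congrFun (congrFun h1 (cons t τ)) (cons z x)
    show u (cons t (τ ∘ Equiv.swap i j)) (cons z (x ∘ Equiv.swap i j)) = _
    rw [cons_comp_swap, cons_comp_swap]
    exact this

omit [Fintype σ] [DecidableEq σ] in
theorem tl_slice_bound {sp : Option κ → σ} {L E1 : ℝ} (w : κ → ℝ) {U : X (Option κ) → ℝ}
    (hU : LocallyIntegrable U)
    (H : ∀ (z : E) (v : Wv κ Sp), Tst P (fun j => sp (some j)) L v →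
      E1 * nr v ≤ ∑ j, w j * kin j v + pot (fun x => U (cons z x)) v)
    {u : Wv (Option κ) Sp} (hu : Tst P sp L u) :
    E1 * nr u ≤ ∑ j, w j * kin (some j) u + pot U u := by
  have h1 := tl_pot (U := fun _ => 1) locInt_one hu.nice.cc
  have h2 := tl_pot hU hu.nice.cc
  have h3 := fun j => tl_kin hu.nice j
  have h4 : ∑ j, w j * kin (some j) u =
      ∑ t : Sp, ∫ z : E, ∑ j, w j * kin j (tl_sl u t z) := by
    rw [Finset.sum_congr rfl fun t _ => integral_finsetSum _ fun j _ =>
      ((h3 j).1 t).const_mul (w j), Finset.sum_comm]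
    refine Finset.sum_congr rfl fun j _ => ?_
    rw [(h3 j).2, Finset.mul_sum]
    exact Finset.sum_congr rfl fun t _ => (integral_const_mul _ _).symm
  rw [h4, h2.2, nr, h1.2, Finset.mul_sum, ← Finset.sum_add_distrib]
  refine Finset.sum_le_sum fun t _ => ?_
  have i1 : Integrable fun z : E => ∑ j, w j * kin j (tl_sl u t z) :=
    integrable_finsetSum _ fun j _ => ((h3 j).1 t).const_mul (w j)
  rw [← integral_const_mul, ← integral_add i1 (h2.1 t)]
  exact integral_mono ((h1.1 t).const_mul E1) (i1.add (h2.1 t)) fun z => H z _ (tl_tst hu t z)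

theorem tl_doubling {b : ℕ → ℝ} {D : ℝ} (h0 : 0 < b 0) (hb : ∀ k, b k ≤ D * 4 ^ k) :
    ∃ k, b (k + 1) ≤ 32 * b k ∧ 32 ^ k * b 0 ≤ b k := by
  have hex : ∃ k, b (k + 1) ≤ 32 * b k := by
    by_contra hc
    push Not at hc
    have h1 : ∀ k, 32 ^ k * b 0 ≤ b k := by
      intro k
      induction k with
      | zero => simp
      | succ k ih => rw [pow_succ]; linarith [hc k]
    obtain ⟨k, hk⟩ := pow_unbounded_of_one_lt (D / b 0) (show (1 : ℝ) < 8 by norm_num)
    rw [div_lt_iff₀ h0] at hk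
    have h2 := (h1 k).trans (hb k)
    have h3 : (32 : ℝ) ^ k = 8 ^ k * 4 ^ k := by rw [← mul_pow]; norm_num
    have h4 : (0 : ℝ) < 4 ^ k := by positivity
    rw [h3] at h2
    nlinarith
  classical
  refine ⟨Nat.find hex, Nat.find_spec hex, ?_⟩
  have h1 : ∀ k, k ≤ Nat.find hex → 32 ^ k * b 0 ≤ b k := by
    intro k
    induction k with
    | zero => simp
    | succ k ih =>
      intro hk
      have h2 := ih (by omega)
      have h3 := Nat.find_min hex (show k < Nat.find hex by omega)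
      rw [pow_succ]
      linarith [not_le.mp h3]
  exact h1 _ le_rfl

end aux

/-- a static point charge lowers the energy by a bounded amount -/
theorem tilt (hD : Dat P I mb cm cb) {A : ℝ} (hA : Stb P A) {ρ t0 K0 L0 : ℝ} (ht0 : 0 < t0)
    (hL0 : 0 < L0) (hc : Core P ρ t0 K0 L0) :
    ∃ C : ℝ, ∀ (ι : Type) [Fintype ι] [DecidableEq ι] (sp : ι → σ) (L : ℝ), L0 ≤ L →
    L ^ 3 = Fintype.card ι / ρ → ∑ j, ch P sp j = 0 → ∀ E0 : ℝ,
    (∀ u : Wv ι Sp, Tst P sp L u → E0 * nr u ≤ en P sp u) → ∀ s, |s| = t0 → ∀ (z : E) (u : Wv ι Sp),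
    Tst P sp L u → (E0 - C) * nr u ≤ qx P sp s z u := by
  classical
  refine ⟨max (t0 ^ 5) (t0 * K0), fun ι _ _ sp L hL hL3 hneu E0 hE0 => ?_⟩
  have hL' : 0 < L := hL0.trans_le hL
  set S : ℝ → Set ℝ := fun t => {c | ∃ (s : ℝ) (z : E) (u : Wv ι Sp), |s| = t ∧ Tst P sp L u ∧
    nr u = 1 ∧ qx P sp s z u = c} with hS
  set N : ℝ := (Fintype.card ι : ℝ) with hN
  have hlow : ∀ t, ∀ c ∈ S t, -(N * (4 * |A| + 4 * mb * cb ^ 2 * t ^ 2)) ≤ c := by
    rintro t c ⟨s, z, u, rfl, hu, h1, rfl⟩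
    have := tl_apriori hD hA hL' s z hu
    rwa [h1, mul_one, ← sq_abs s] at this
  have hne : ∀ t, 0 ≤ t → (S t).Nonempty := by
    intro t ht
    obtain ⟨u, hu, h1, -⟩ := exists_loc (P := P) hD.spin (L := L) _ ι sp rfl 0 (L / 4)
      (by positivity) (by rw [norm_zero]; linarith)
    exact ⟨_, t, 0, u, abs_of_nonneg ht, hu, h1, rfl⟩
  set e : ℝ → ℝ := fun t => sInf (S t) with he
  have hle : ∀ (s : ℝ) (z : E) (u : Wv ι Sp), Tst P sp L u → e |s| * nr u ≤ qx P sp s z u := by
    intro s z u hu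
    rcases (nr_nonneg u).eq_or_lt with h0 | h0
    · have h1 : u = (0 : ℂ) • u := by
        rw [zero_smul]; exact eq_zero_of_nr hu.nice.cc h0.symm
      rw [← h0, h1, tl_qx_smul _ _ _ hu.nice]
      simp
    · have hc : ‖(((√(nr u))⁻¹ : ℝ) : ℂ)‖ ^ 2 = (nr u)⁻¹ := by
        rw [Complex.norm_real, Real.norm_eq_abs, sq_abs, inv_pow, Real.sq_sqrt h0.le]
      have h1 : e |s| ≤ qx P sp s z ((((√(nr u))⁻¹ : ℝ) : ℂ) • u) := by
        refine csInf_le ⟨_, hlow _⟩ ⟨s, z, _, rfl, hu.smul _, ?_, rfl⟩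
        rw [nr, pot_smul, hc, ← nr, inv_mul_cancel₀ h0.ne']
      rw [tl_qx_smul _ _ _ hu.nice, hc, ← div_eq_inv_mul, le_div_iff₀ h0] at h1
      exact h1
  have key : E0 - e t0 ≤ max (t0 ^ 5) (t0 * K0) := by
    by_contra hcon
    rw [not_le, max_lt_iff] at hcon
    set b : ℕ → ℝ := fun k => E0 - e (2 ^ k * t0) with hb
    have hb0 : b 0 = E0 - e t0 := by simp [hb]
    have hpos : 0 < b 0 := by rw [hb0]; exact (pow_pos ht0 5).trans hcon.1
    obtain ⟨k, hk1, hk2⟩ := tl_doubling (b := b)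
      (D := |E0| + |N * (4 * |A|)| + |N * (4 * mb * cb ^ 2 * t0 ^ 2)|) hpos (fun k => by
        have h1 : -(N * (4 * |A| + 4 * mb * cb ^ 2 * (2 ^ k * t0) ^ 2)) ≤ e (2 ^ k * t0) :=
          le_csInf (hne _ (by positivity)) (hlow _)
        have h2 : ((2 : ℝ) ^ k * t0) ^ 2 = 4 ^ k * t0 ^ 2 := by
          rw [mul_pow, ← pow_mul, mul_comm k 2, pow_mul]; norm_num
        have h3 : (1 : ℝ) ≤ 4 ^ k := one_le_pow₀ (by norm_num)
        have h4 := mul_le_mul_of_nonneg_left h3 (abs_nonneg E0)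
        have h5 := mul_le_mul_of_nonneg_left h3 (abs_nonneg (N * (4 * |A|)))
        have h6 := mul_le_mul_of_nonneg_right (le_abs_self (N * (4 * mb * cb ^ 2 * t0 ^ 2)))
          (zero_le_one.trans h3)
        rw [h2] at h1
        simp only [hb]
        linarith [le_abs_self E0, le_abs_self (N * (4 * |A|))])
    set t : ℝ := 2 ^ k * t0 with ht
    have h2k : (1 : ℝ) ≤ 2 ^ k := one_le_pow₀ (by norm_num)
    have htt : t0 ≤ t := le_mul_of_one_le_left ht0.le h2k
    have htp : 0 < t := ht0.trans_le htt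
    set K : ℝ := b k / t with hK
    have htK : t * K = b k := by rw [hK]; field_simp
    have h32 : (32 : ℝ) ^ k = (2 ^ k) ^ 5 := by
      rw [← pow_mul, mul_comm k 5, pow_mul]; norm_num
    have hbk : 0 < b k := lt_of_lt_of_le (by positivity) hk2
    have hK4 : t ^ 4 ≤ K := by
      rw [hK, le_div_iff₀ htp, ← pow_succ, ht, mul_pow, ← h32]
      refine le_trans ?_ hk2
      rw [hb0]
      exact mul_le_mul_of_nonneg_left hcon.1.le (by positivity)
    have hK0 : K0 ≤ K := by
      rw [hK, le_div_iff₀ htp]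
      refine le_trans ?_ hk2
      have h1 : (2 : ℝ) ^ k ≤ 32 ^ k := pow_le_pow_left₀ (by norm_num) (by norm_num) k
      have h2 := mul_le_mul_of_nonneg_right h1 hpos.le
      have h3 := mul_le_mul_of_nonneg_left hcon.2.le (zero_le_one.trans h2k)
      rw [← hb0] at h3
      rw [ht]
      linarith
    obtain ⟨ε1, hε1, H1⟩ := hc ι sp L hL hL3 hneu t K (by rwa [abs_of_pos htp]) hK4 hK0
    obtain ⟨ε2, hε2, H2⟩ := hc ι sp L hL hL3 hneu (-t) K (by rwa [abs_neg, abs_of_pos htp])
      (by rwa [Even.neg_pow (by norm_num)]) hK0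
    set ε : ℝ := min (min ε1 ε2) (b k / 4) with hε
    have hε0 : 0 < ε := lt_min (lt_min hε1 hε2) (by positivity)
    obtain ⟨c, ⟨s, z, ψ, hs, hψ, hψ1, rfl⟩, hlt⟩ := exists_lt_of_csInf_lt (hne t htp.le)
      (show sInf (S t) < e t + ε from lt_add_of_pos_right _ hε0)
    have hSt : ∀ ε', ε ≤ ε' → St P sp L s z (e t) K ε' ψ := by
      intro ε' hε'
      refine ⟨hψ, hψ1, fun u hu => hs ▸ hle s z u hu, fun s' hs' z' u hu => ?_, by linarith⟩
      refine le_trans (mul_le_mul_of_nonneg_right ?_ (nr_nonneg u)) (hle s' z' u hu)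
      have h1 : |s'| = 2 ^ (k + 1) * t0 := by rw [hs', hs, ht]; ring
      have h2 : b (k + 1) = E0 - e |s'| := by rw [h1]
      have h3 : b k = E0 - e t := rfl
      rw [hs, mul_assoc, htK]
      linarith
    have hpot : |pot (ph (ch P sp) vk z) ψ| ≤ K / 2 := by
      rcases (abs_eq htp.le).mp hs with rfl | rfl
      · exact H1 z _ ψ (hSt _ ((min_le_left _ _).trans (min_le_left _ _)))
      · exact H2 z _ ψ (hSt _ ((min_le_left _ _).trans (min_le_right _ _)))
    have h1 := hE0 ψ hψ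
    rw [hψ1, mul_one] at h1
    have h2 : |s * pot (ph (ch P sp) vk z) ψ| ≤ t * (K / 2) := by
      rw [abs_mul, hs]
      exact mul_le_mul_of_nonneg_left hpot htp.le
    have h3 : b k = E0 - e t := rfl
    have h4 : ε ≤ b k / 4 := min_le_right _ _
    unfold qx at hlt
    linarith [neg_abs_le (s * pot (ph (ch P sp) vk z) ψ)]
  intro s hs z u hu
  refine le_trans (mul_le_mul_of_nonneg_right ?_ (nr_nonneg u)) (hle s z u hu)
  rw [hs]
  linarith

/-- reduction to static impurities -/
theorem static (hD : Dat P I mb cm cb) : ∃ C : ℝ, ∀ (ι : Type) [Fintype ι] [DecidableEq ι]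
    (sp : Option (Option ι) → σ) (L E1 : ℝ), P.charge (sp (some none)) = -P.charge (sp none) →
    (∀ s, |s| = 2 * |P.charge (sp none)| → ∀ (z : E) (u : Wv ι Sp),
      Tst P (fun j => sp (some (some j))) L u →
        E1 * nr u ≤ qx P (fun j => sp (some (some j))) s z u) →
    ∀ u : Wv (Option (Option ι)) Sp, Tst P sp L u → (E1 - C) * nr u ≤ en P sp u := by
  refine ⟨4 * mb * (cb ^ 2) ^ 2, fun ι _ _ sp L E1 hch H u hu => ?_⟩
  set e : ℝ := P.charge (sp none) with he
  set c : ι → ℝ := ch P fun j => sp (some (some j)) with hc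
  set w : ι → ℝ := fun j => (2 * P.mass (sp (some (some j))))⁻¹ with hw
  set U : X (Option (Option ι)) → ℝ := fun x =>
    coulomb (fun j => P.charge (sp (some j))) (x ∘ some) +
      ∑ j, e * c j * vk (x none - x (some (some j))) with hU
  have hU2 : LocallyIntegrable fun x : X (Option (Option ι)) =>
      ∑ j, e * c j * vk (x none - x (some (some j))) :=
    locallyIntegrable_finsetSum _ fun j _ => (locInt_pair none (some (some j))).smul (e * c j)
  have hU1 : LocallyIntegrable U := (locInt_rest (locInt_coulomb _)).add hU2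
  have hph : ∀ z, LocallyIntegrable (ph c vk z) := fun z => locInt_ph c locInt_vk z
  have hvk : ∀ (a : ℝ) (z : E) (x : X ι), ∑ j, a * c j * vk (z - x j) = a * ph c vk z x := by
    intro a z x
    unfold ph
    rw [Finset.mul_sum]
    refine Finset.sum_congr rfl fun j _ => ?_
    rw [← vk_neg (z - x j), neg_sub, mul_assoc]
  have step : E1 * nr u ≤ ∑ j : Option ι, (j.elim 0 w) * kin (some j) u + pot U u := by
    refine tl_slice_bound (fun j : Option ι => j.elim 0 w) hU1 (fun z v hv => ?_) hu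
    have hUz : (fun x : X (Option ι) => U (cons z x)) = fun x =>
        coulomb (fun j => P.charge (sp (some j))) x + e * ph c vk z (x ∘ some) := by
      funext x
      rw [← hvk]
      rfl
    rw [Fintype.sum_option, hUz]
    simp only [Option.elim_none, Option.elim_some, zero_mul, zero_add]
    refine tl_slice_bound w ((locInt_coulomb _).add ((locInt_rest (hph z)).smul e))
      (fun y v' hv' => ?_) hv
    have hUy : (fun x : X ι => coulomb (fun j => P.charge (sp (some j))) (cons y x) +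
        e * ph c vk z (cons y x ∘ some)) = fun x =>
        coulomb c x + -e * ph c vk y x + e * ph c vk z x := by
      funext x
      rw [coulomb_cons, potl_none, ← hvk (-e), hch]
      rfl
    have h1 := H (2 * e) (by rw [abs_mul, abs_two]) z v' hv'
    have h2 := H (-(2 * e)) (by rw [abs_neg, abs_mul, abs_two]) y v' hv'
    have h3 : ∑ j, w j * kin j v' = ∑ j, kin j v' / (2 * P.mass (sp (some (some j)))) :=
      Finset.sum_congr rfl fun j _ => by rw [div_eq_inv_mul]
    show _ ≤ _ + pot (fun x : X ι => coulomb (fun j => P.charge (sp (some j))) (cons y x) +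
        e * ph c vk z (cons y x ∘ some)) v'
    rw [hUy, pot_add (U := fun x => coulomb c x + -e * ph c vk y x)
      (U' := fun x => e * ph c vk z x)
      ((locInt_coulomb c).add ((hph y).smul (-e))) ((hph z).smul e) hv'.nice.cc,
      pot_add (U' := fun x => -e * ph c vk y x) (locInt_coulomb c) ((hph y).smul (-e)) hv'.nice.cc,
      pot_const_mul, pot_const_mul, h3]
    unfold qx en at h1 h2
    linarith
  have hcou : (coulomb fun i => P.charge (sp i)) = fun x =>
      U x + -(e ^ 2) * vk (x none - x (some none)) := by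
    funext x
    rw [coulomb_cons, potl_none, Fintype.sum_option, hch]
    simp only [hU]
    ring
  have hcb : |e| ≤ cb := hD.hcb _
  have h4 := tl_opt (a := cb ^ 2) (kin_nonneg none u) (sq_nonneg _)
    (hD.mpos (sp none)) (hD.hmb (sp none))
    fun δ hδ => hyd2 hu.nice (i := none) (j := some none) (by simp) hδ
  have h5 : 0 ≤ pot (fun x : X (Option (Option ι)) => vk (x none - x (some none))) u :=
    pot_nonneg (fun _ => vk_nonneg _) u
  have h6 : e ^ 2 ≤ cb ^ 2 := by
    rw [← sq_abs e]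
    exact pow_le_pow_left₀ (abs_nonneg _) hcb 2
  have h7 := mul_le_mul_of_nonneg_right h6 h5
  have h8 : kin none u / (4 * P.mass (sp none)) ≤ kin none u / (2 * P.mass (sp none)) := by
    have := hD.mpos (sp none)
    exact div_le_div_of_nonneg_left (kin_nonneg _ _) (by positivity) (by linarith)
  have h9 : 0 ≤ kin (some none) u / (2 * P.mass (sp (some none))) := by
    have := hD.mpos (sp (some none))
    have := kin_nonneg (some none) u
    positivity
  have h10 : ∑ j, w j * kin (some (some j)) u =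
      ∑ j, kin (some (some j)) u / (2 * P.mass (sp (some (some j)))) :=
    Finset.sum_congr rfl fun j _ => by rw [div_eq_inv_mul]
  rw [Fintype.sum_option] at step
  simp only [Option.elim_none, Option.elim_some, zero_mul, zero_add] at step
  unfold en
  rw [hcou, pot_add (U' := fun x => -(e ^ 2) * vk (x none - x (some none))) hU1
    ((locInt_pair none (some none)).smul (-(e ^ 2))) hu.nice.cc,
    pot_const_mul, Fintype.sum_option, Fintype.sum_option]
  linarith

/-- the lower bound when the negative species are fermions -/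
theorem lower_neg (hm : ∀ s, 0 < P.mass s) (hs : ∀ s, (P.spins s).Nonempty)
    (hc : ∀ s, P.charge s ≠ 0) (hf : ∀ s, P.charge s < 0 → P.fermion s = true) {a b : σ}
    (ha : 0 < P.charge a) (hb : P.charge b = -P.charge a) {A : ℝ} (hA : Stable P A) {ρ : ℝ}
    (hρ : 0 < ρ) : ∃ C : ℝ, ∀ n : σ → ℕ, n ≠ 0 → ∑ s, n s * P.charge s = 0 →
      ∀ L : ℝ, 0 < L → L ^ 3 = (∑ s, n s : ℕ) / ρ →
        eig P L n 0 - C ≤ eig P L (n + Pi.single a 1 + Pi.single b 1) 0 := by
  classical
  obtain ⟨I, mb, cm, cb, hD⟩ := exists_dat hm hs hc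
  have ht0 : 0 < 2 * |P.charge a| := by have := abs_pos.mpr ha.ne'; positivity
  obtain ⟨K0, L0, hL0, hcore⟩ := core hD hA.stb hf hρ ht0
  obtain ⟨C1, hC1⟩ := tilt hD hA.stb ht0 hL0 hcore
  obtain ⟨C2, hC2⟩ := static hD
  obtain ⟨C3, hC3⟩ := final hm hs ha hb hA hρ one_pos
  refine ⟨max (C1 + C2) (|C3| * (ρ * L0 ^ 3)), fun n hn hneu L hL hL3 => ?_⟩
  rcases le_total L0 L with hLL | hLL
  · have hab : a ≠ b := fun h => by rw [h] at ha hb; linarith
    set n' : σ → ℕ := n + Pi.single a 1 + Pi.single b 1 with hn'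
    have hne' : Nonempty ((s : σ) × Fin (n' s)) := ⟨⟨a, ⟨0, by simp [hn', hab]⟩⟩⟩
    let sp : Option (Option ((s : σ) × Fin (n s))) → σ := cons a (cons b Sigma.fst)
    obtain ⟨e, he⟩ := exists_equiv sp n' fun s => by
      rw [Fintype.card_subtype, Finset.card_filter, Fintype.sum_option, Fintype.sum_option]
      simp only [sp, cons_none, cons_some, hn', Pi.add_apply, Pi.single_apply]
      erw [card_fiber]
      simp only [eq_comm (a := s)]
      ring
    have hcard : Fintype.card ((s : σ) × Fin (n s)) = ∑ s, n s := by simp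
    have h1 := hC1 ((s : σ) × Fin (n s)) Sigma.fst L hLL (by rw [hcard]; exact hL3) (by
      rw [← hneu, Fintype.sum_sigma]
      simp [ch]) _ ((tSys P Sigma.fst L).lam_zero_le (hA.stb _ Sigma.fst L hL))
    have h2 := hC2 ((s : σ) × Fin (n s)) sp L _ hb h1
    have h3 : (fun i => (e i).1) = sp := funext he
    have h4 := gb_rel (P := P) (sp := Sigma.fst) (L := L) e (by rw [h3]; exact h2)
    have h5 := (tSys P Sigma.fst L).le_lam_zero h4 (exists_dim hs Sigma.fst hL 0)
    rw [eig_eq P hL, eig_eq P hL]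
    linarith [le_max_left (C1 + C2) (|C3| * (ρ * L0 ^ 3))]
  · have h1 := (hC3 n hn hneu L hL hL3).2.1.2
    have h2 : ((∑ s, n s : ℕ) : ℝ) ≤ ρ * L0 ^ 3 := by
      rw [eq_div_iff hρ.ne'] at hL3
      rw [← hL3, mul_comm]
      exact mul_le_mul_of_nonneg_left (pow_le_pow_left₀ hL.le hLL 3) hρ.le
    have h3 : ((∑ s, n s : ℕ) : ℝ) / (min (n a) (n b) + 1 : ℕ) ≤ (∑ s, n s : ℕ) :=
      div_le_self (Nat.cast_nonneg _) (by exact_mod_cast Nat.succ_pos _)
    have h4 : (0 : ℝ) ≤ ((∑ s, n s : ℕ) : ℝ) / (min (n a) (n b) + 1 : ℕ) := by positivity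
    have h5 := mul_le_mul (le_abs_self C3) (h3.trans h2) h4 (abs_nonneg _)
    linarith [le_max_right (C1 + C2) (|C3| * (ρ * L0 ^ 3))]

/-- the lower bound when the species of one sign are fermions -/
theorem lower_one_sign (hm : ∀ s, 0 < P.mass s) (hs : ∀ s, (P.spins s).Nonempty)
    (hc : ∀ s, P.charge s ≠ 0) (hf : (∀ s, P.charge s < 0 → P.fermion s = true) ∨
      ∀ s, 0 < P.charge s → P.fermion s = true) {a b : σ}
    (ha : 0 < P.charge a) (hb : P.charge b = -P.charge a) {A : ℝ} (hA : Stable P A) {ρ : ℝ}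
    (hρ : 0 < ρ) : ∃ C : ℝ, ∀ n : σ → ℕ, n ≠ 0 → ∑ s, n s * P.charge s = 0 →
      ∀ L : ℝ, 0 < L → L ^ 3 = (∑ s, n s : ℕ) / ρ →
        eig P L n 0 - C ≤ eig P L (n + Pi.single a 1 + Pi.single b 1) 0 := by
  rcases hf with hf | hf
  · exact lower_neg hm hs hc hf ha hb hA hρ
  · let Q : Species σ Sp := ⟨fun s => -P.charge s, P.mass, P.fermion, P.spins⟩
    have hen : ∀ n : σ → ℕ, energy (ι := (s : σ) × Fin (n s)) Q Sigma.fst =
        energy P Sigma.fst := by
      intro n
      funext ψ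
      simp only [energy, coulomb, Q, neg_mul_neg]
    have hT : ∀ (n : σ → ℕ) (L : ℝ), IsTest (ι := (s : σ) × Fin (n s)) Q Sigma.fst L =
        IsTest P Sigma.fst L := fun _ _ => rfl
    have heig : ∀ L n k, eig Q L n k = eig P L n k := by
      intro L n k
      unfold eig
      rw [hen, hT]
    have hQ : Stable Q A := fun L hL n ψ hψ => by
      rw [hen]
      exact hA L hL n ψ hψ
    obtain ⟨C, hC⟩ := lower_neg (P := Q) (a := b) (b := a) hm hs (fun s => neg_ne_zero.mpr (hc s))
      (fun s h => hf s (neg_lt_zero.mp h)) (by show 0 < -P.charge b; linarith)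
      (by show -P.charge a = - -P.charge b; linarith) hQ hρ
    refine ⟨C, fun n hn hneu L hL hL3 => ?_⟩
    have := hC n hn (by
      show ∑ s, n s * -P.charge s = 0
      simp only [mul_neg, Finset.sum_neg_distrib, hneu, neg_zero]) L hL hL3
    rwa [heig, heig, add_right_comm] at this

end Pool.Agent.Lib.MP_0655ed_mp
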