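import Pool.Agent.Lib.MP_0655ed_mp.ImpGauss

open Finset MeasureTheory Real Filter Topology

namespace Pool.Agent.Lib.MP_0655ed_mp

theorem vv_cont (k : ℕ) (t : ℝ) : Continuous fun s : ℝ => s ^ (2 * k) * exp (-t * s ^ 2) := by
  fun_prop

theorem hasDerivAt_Fk (k : ℕ) (t : ℝ) : HasDerivAt (Fk k) (-Fk (k + 1) t) t := by
  have h := (intervalIntegral.hasDerivAt_integral_of_dominated_loc_of_deriv_le
    (μ := volume) (a := 0) (b := 1)
    (F := fun (x : ℝ) (s : ℝ) => s ^ (2 * k) * exp (-x * s ^ 2))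
    (F' := fun (x : ℝ) (s : ℝ) => -(s ^ (2 * (k + 1)) * exp (-x * s ^ 2)))
    (x₀ := t) (s := Set.Ioi (t - 1)) (bound := fun _ => exp (|t| + 1))
    (Ioi_mem_nhds (by linarith))
    (Eventually.of_forall fun x => (vv_cont k x).aestronglyMeasurable)
    ((vv_cont k t).intervalIntegrable _ _)
    ((vv_cont (k + 1) t).neg.aestronglyMeasurable)
    (ae_of_all _ fun s hs x hx => by
      rw [Set.uIoc_of_le zero_le_one] at hs
      have h0 := hs.1
      have h1 := hs.2
      have hx' : t - 1 < x := hx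
      rw [norm_neg, Real.norm_eq_abs, abs_of_nonneg (by positivity)]
      have h2 : s ^ (2 * (k + 1)) ≤ 1 := pow_le_one₀ h0.le h1
      have h3 : s ^ 2 ≤ 1 := pow_le_one₀ h0.le h1
      have h4 : -x * s ^ 2 ≤ |t| + 1 := by
        have := neg_abs_le t
        have h5 : -x ≤ |t| + 1 := by linarith
        have h6 : 0 ≤ |t| + 1 := by positivity
        nlinarith [sq_nonneg s]
      calc s ^ (2 * (k + 1)) * exp (-x * s ^ 2) ≤ 1 * exp (|t| + 1) := by gcongr
        _ = _ := one_mul _)
    intervalIntegrable_const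
    (ae_of_all _ fun s _ x _ => by
      have h1 : HasDerivAt (fun x : ℝ => -x * s ^ 2) (-1 * s ^ 2) x :=
        (hasDerivAt_id' x).neg.mul_const _
      refine (h1.exp.const_mul (s ^ (2 * k))).congr_deriv ?_
      ring)).2
  rw [intervalIntegral.integral_neg] at h
  exact h

theorem contDiff_Fk (k : ℕ) : ContDiff ℝ (⊤ : ℕ∞) (Fk k) := by
  have h : ∀ n : ℕ, ∀ k, ContDiff ℝ n (Fk k) := by
    intro n
    induction n with
    | zero =>
      intro k
      exact contDiff_zero.mpr (continuous_iff_continuousAt.mpr fun t =>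
        (hasDerivAt_Fk k t).continuousAt)
    | succ n ih =>
      intro k
      rw [Nat.cast_succ, contDiff_succ_iff_deriv]
      refine ⟨fun t => (hasDerivAt_Fk k t).differentiableAt, by simp, ?_⟩
      have : deriv (Fk k) = fun t => -Fk (k + 1) t := funext fun t => (hasDerivAt_Fk k t).deriv
      rw [this]
      exact (ih (k + 1)).neg
  exact contDiff_infty.mpr fun n => h n k

theorem Fk_pos (k : ℕ) (t : ℝ) : 0 < Fk k t :=
  intervalIntegral.intervalIntegral_pos_of_pos_on ((vv_cont k t).intervalIntegrable _ _)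
    (fun s hs => by have := hs.1; positivity) zero_lt_one

theorem Fk_le_one (k : ℕ) {t : ℝ} (ht : 0 ≤ t) : Fk k t ≤ 1 := by
  have h := intervalIntegral.integral_mono_on (μ := volume) zero_le_one
    ((vv_cont k t).intervalIntegrable _ _) (intervalIntegrable_const (c := (1 : ℝ)))
    (fun s hs => by
      have h2 : s ^ (2 * k) ≤ 1 := pow_le_one₀ hs.1 hs.2
      have h3 : exp (-t * s ^ 2) ≤ 1 := exp_le_one_iff.mpr (by nlinarith [sq_nonneg s])
      exact mul_le_one₀ h2 (exp_pos _).le h3)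
  simpa [Fk] using h

theorem vv_mul_exp (y : ℝ) : y * exp (-y) ≤ 1 := by
  have h := add_one_le_exp y
  have h2 := exp_pos (-y)
  have h3 : exp y * exp (-y) = 1 := by rw [← exp_add]; simp
  nlinarith

theorem mul_Fk_le_one (k : ℕ) {t : ℝ} (ht : 0 ≤ t) : t * Fk (k + 1) t ≤ 1 := by
  unfold Fk
  rw [← intervalIntegral.integral_const_mul]
  have h := intervalIntegral.integral_mono_on (μ := volume) zero_le_one
    (((vv_cont (k + 1) t).const_mul t).intervalIntegrable _ _)
    (intervalIntegrable_const (c := (1 : ℝ)))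
    (fun s hs => by
      have h2 : s ^ (2 * k) ≤ 1 := pow_le_one₀ hs.1 hs.2
      have h3 := vv_mul_exp (t * s ^ 2)
      have h4 : t * (s ^ (2 * (k + 1)) * exp (-t * s ^ 2)) =
          s ^ (2 * k) * (t * s ^ 2 * exp (-(t * s ^ 2))) := by
        rw [neg_mul]; ring
      rw [h4]
      exact mul_le_one₀ h2 (by positivity) h3)
  simpa using h

theorem Fk_rec (k : ℕ) (t : ℝ) : 2 * t * Fk (k + 1) t = (2 * k + 1) * Fk k t - exp (-t) := by
  have h := intervalIntegral.integral_eq_sub_of_hasDerivAt (a := (0 : ℝ)) (b := 1)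
    (f := fun s : ℝ => s ^ (2 * k + 1) * exp (-t * s ^ 2))
    (f' := fun s : ℝ => (2 * k + 1) * (s ^ (2 * k) * exp (-t * s ^ 2)) -
      2 * t * (s ^ (2 * (k + 1)) * exp (-t * s ^ 2)))
    (fun s _ => by
      have h1 : HasDerivAt (fun s : ℝ => -t * s ^ 2) (-t * (2 * s)) s := by
        simpa using (hasDerivAt_pow 2 s).const_mul (-t)
      refine ((hasDerivAt_pow (2 * k + 1) s).mul h1.exp).congr_deriv ?_
      simp only [Nat.add_sub_cancel]
      push_cast
      ring)
    ((((vv_cont k t).const_mul _).sub ((vv_cont (k + 1) t).const_mul _)).intervalIntegrable _ _)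
  rw [intervalIntegral.integral_sub (((vv_cont k t).const_mul _).intervalIntegrable _ _)
    (((vv_cont (k + 1) t).const_mul _).intervalIntegrable _ _),
    intervalIntegral.integral_const_mul, intervalIntegral.integral_const_mul] at h
  simp only [one_pow, one_mul, mul_one, ne_eq, Nat.add_eq_zero_iff, one_ne_zero, and_false,
    not_false_eq_true, zero_pow, zero_mul, sub_zero] at h
  unfold Fk
  linarith

theorem contDiff_VV (u : ℝ) : ContDiff ℝ (⊤ : ℕ∞) (VV u) :=
  contDiff_const.mul ((contDiff_Fk 0).comp (contDiff_r2.div_const _))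

theorem continuous_VV (u : ℝ) : Continuous (VV u) := (contDiff_VV u).continuous

theorem measurable_VV : Measurable fun p : ℝ × E => VV p.1 p.2 := by
  have h1 := (contDiff_Fk 0).continuous.measurable
  have h2 := contDiff_r2.continuous.measurable
  unfold VV
  exact Measurable.mul (by fun_prop)
    (h1.comp ((h2.comp measurable_snd).div (measurable_fst.const_mul _)))

theorem continuousOn_VV :
    ContinuousOn (fun p : ℝ × E => VV p.1 p.2) (Set.Ioi 0 ×ˢ Set.univ) := by
  have h1 := (contDiff_Fk 0).continuous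
  have h2 := contDiff_r2.continuous
  unfold VV
  refine ContinuousOn.mul (ContinuousOn.inv₀ (by fun_prop) fun p hp => ?_)
    (h1.comp_continuousOn (ContinuousOn.div (h2.comp continuous_snd).continuousOn
      (by fun_prop) fun p hp => ?_))
  · have : 0 < p.1 := hp.1
    positivity
  · have : 0 < p.1 := hp.1
    positivity

theorem VV_neg (u : ℝ) (x : E) : VV u (-x) = VV u x := by
  unfold VV; rw [r2_neg]

theorem VV_nonneg (u : ℝ) (x : E) : 0 ≤ VV u x :=
  mul_nonneg (by positivity) (Fk_pos _ _).le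

theorem VV_zero (u : ℝ) : VV u 0 = (√(π * u))⁻¹ := by
  simp [VV, Fk, r2]

theorem VV_le {u : ℝ} (hu : 0 < u) (x : E) : VV u x ≤ (√u)⁻¹ := by
  have h1 : Fk 0 (r2 x / (4 * u)) ≤ 1 :=
    Fk_le_one 0 (div_nonneg (r2_nonneg x) (by positivity))
  have h2 : (√(π * u))⁻¹ ≤ (√u)⁻¹ :=
    inv_anti₀ (sqrt_pos.mpr hu) (sqrt_le_sqrt (by nlinarith [pi_gt_three]))
  calc VV u x ≤ (√(π * u))⁻¹ * 1 := mul_le_mul_of_nonneg_left h1 (by positivity)
    _ ≤ _ := by rwa [mul_one]

theorem vv_sqrt4 (u : ℝ) : √(4 * π * u) = 2 * √(π * u) := by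
  rw [mul_assoc, sqrt_mul (by norm_num), show (4 : ℝ) = 2 ^ 2 by norm_num,
    sqrt_sq (by norm_num)]

theorem hasDerivAt_VV_time {u : ℝ} (hu : 0 < u) (x : E) :
    HasDerivAt (fun u => VV u x) (-(4 * π * hk u x)) u := by
  have hp : 0 < π * u := by positivity
  have ha : 0 < √(π * u) := sqrt_pos.mpr hp
  have h1 : HasDerivAt (fun u => √(π * u)) (π / (2 * √(π * u))) u := by
    simpa using ((hasDerivAt_id' u).const_mul π).sqrt hp.ne'
  have h2 := h1.inv ha.ne'
  have h3 : HasDerivAt (fun u : ℝ => r2 x / (4 * u)) (-(r2 x / (4 * u)) / u) u := by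
    have := (hasDerivAt_const u (r2 x)).div ((hasDerivAt_id' u).const_mul 4) (by positivity)
    refine this.congr_deriv ?_
    field_simp
    ring
  have h4 := (hasDerivAt_Fk 0 (r2 x / (4 * u))).comp u h3
  refine (h2.mul h4).congr_deriv ?_
  have h5 := Fk_rec 0 (r2 x / (4 * u))
  have h6 : √(π * u) ^ 2 = π * u := sq_sqrt hp.le
  simp only [Function.comp_apply, Pi.inv_apply]
  unfold hk
  rw [vv_sqrt4, neg_div (4 * u) (r2 x)]
  generalize r2 x / (4 * u) = t at h5 ⊢
  generalize √(π * u) = a at ha h6 ⊢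
  have h7 : exp (-t) = Fk 0 t - 2 * t * Fk (0 + 1) t := by
    push_cast at h5
    linarith
  have h8 : π = a ^ 2 / u := by field_simp; linarith
  rw [h7, h8]
  field_simp
  ring

theorem hasDerivAt_VV_line (u : ℝ) (x : E) (k : Fin 3) :
    HasDerivAt (fun s : ℝ => VV u (x + s • ee k)) (V1 u k x) 0 := by
  have h1 := (hasDerivAt_r2_line x k).div_const (4 * u)
  have h2 : HasDerivAt (Fk 0) (-Fk 1 (r2 x / (4 * u))) (r2 (x + (0 : ℝ) • ee k) / (4 * u)) := by
    simpa using hasDerivAt_Fk 0 (r2 x / (4 * u))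
  refine ((h2.comp 0 h1).const_mul (√(π * u))⁻¹).congr_deriv ?_
  unfold V1
  ring

theorem fderiv_VV (u : ℝ) (x : E) (k : Fin 3) : fderiv ℝ (VV u) x (ee k) = V1 u k x := by
  have h : DifferentiableAt ℝ (VV u) x :=
    ((contDiff_VV u).differentiable (by simp)).differentiableAt
  rw [← h.lineDeriv_eq_fderiv]
  exact HasLineDerivAt.lineDeriv (hasDerivAt_VV_line u x k)

theorem vv_contOn_hk (x : E) : ContinuousOn (fun r => hk r x) (Set.Ioi 0) :=
  fun _ hr => (hasDerivAt_hk_time hr x).continuousAt.continuousWithinAt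

theorem VV_sub {u w : ℝ} (hu : 0 < u) (hw : 0 < w) (x : E) :
    VV u x - VV w x = 4 * π * ∫ r in u..w, hk r x := by
  have hs : Set.uIcc u w ⊆ Set.Ioi 0 := fun r hr => lt_of_lt_of_le (lt_min hu hw) hr.1
  have h := intervalIntegral.integral_eq_sub_of_hasDerivAt (a := u) (b := w)
    (f := fun r => VV r x) (f' := fun r => -(4 * π * hk r x))
    (fun r hr => hasDerivAt_VV_time (hs hr) x)
    (((continuousOn_const.mul ((vv_contOn_hk x).mono hs)).neg).intervalIntegrable)
  rw [intervalIntegral.integral_neg, intervalIntegral.integral_const_mul] at h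
  linarith

theorem VV_anti {u w : ℝ} (hu : 0 < u) (h : u ≤ w) (x : E) : VV w x ≤ VV u x := by
  have h1 := VV_sub hu (hu.trans_le h) x
  have h2 : 0 ≤ ∫ r in u..w, hk r x :=
    intervalIntegral.integral_nonneg h fun r _ => hk_nonneg r x
  have : 0 ≤ 4 * π * ∫ r in u..w, hk r x := by positivity
  linarith

theorem vv_tendsto_top (x : E) : Tendsto (fun u => VV u x) atTop (𝓝 0) := by
  refine squeeze_zero' (Eventually.of_forall fun u => VV_nonneg u x)
    ((eventually_gt_atTop 0).mono fun u hu => VV_le hu x) ?_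
  exact tendsto_inv_atTop_zero.comp tendsto_sqrt_atTop

theorem integrableOn_hk_Ioi {u : ℝ} (hu : 0 < u) (x : E) :
    IntegrableOn (fun r => hk r x) (Set.Ioi u) := by
  have h := integrableOn_Ioi_deriv_of_nonpos' (a := u) (g := fun r => VV r x)
    (g' := fun r => -(4 * π * hk r x))
    (fun r hr => hasDerivAt_VV_time (hu.trans_le hr) x)
    (fun r _ => neg_nonpos.mpr (mul_nonneg (by positivity) (hk_nonneg r x))) (vv_tendsto_top x)
  have h2 := Integrable.const_mul h (-(4 * π)⁻¹)
  refine Integrable.congr h2 (ae_of_all _ fun r => ?_)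
  have := pi_pos
  simp only
  field_simp

theorem VV_eq {u : ℝ} (hu : 0 < u) (x : E) :
    VV u x = 4 * π * ∫ r in Set.Ioi u, hk r x := by
  have h := integral_Ioi_of_hasDerivAt_of_nonpos' (a := u) (g := fun r => VV r x)
    (g' := fun r => -(4 * π * hk r x))
    (fun r hr => hasDerivAt_VV_time (hu.trans_le hr) x)
    (fun r _ => neg_nonpos.mpr (mul_nonneg (by positivity) (hk_nonneg r x))) (vv_tendsto_top x)
  rw [integral_neg, integral_const_mul] at h
  linarith

theorem vv_r2_pos {x : E} (hx : x ≠ 0) : 0 < r2 x :=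
  lt_of_lt_of_le (pow_pos (norm_pos_iff.mpr hx) 2) (norm_sq_le_r2 x)

theorem vv_split {t : ℝ} (ht : 0 < t) :
    Fk 0 t + ∫ s in Set.Ioi (1 : ℝ), exp (-t * s ^ 2) = √(π / t) / 2 := by
  rw [← integral_gaussian_Ioi, ← intervalIntegral.integral_interval_add_Ioi (a := 0) (b := 1)
    (integrable_exp_neg_mul_sq ht).integrableOn (integrable_exp_neg_mul_sq ht).integrableOn]
  simp [Fk]

theorem vv_tail {t : ℝ} (ht : 0 < t) :
    ∫ s in Set.Ioi (1 : ℝ), exp (-t * s ^ 2) ≤ exp (-t) * (√(π / t) / 2) := by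
  have h1 := (measurePreserving_add_right (volume : Measure ℝ) 1).setIntegral_preimage_emb
    (measurableEmbedding_addRight 1) (fun s => exp (-t * s ^ 2)) (Set.Ioi 1)
  have h2 : (fun x : ℝ => x + 1) ⁻¹' Set.Ioi 1 = Set.Ioi 0 := by
    ext s; simp
  rw [h2] at h1
  rw [← h1, ← integral_gaussian_Ioi, ← integral_const_mul]
  refine setIntegral_mono_on ((integrable_exp_neg_mul_sq ht).comp_add_right 1).integrableOn
    ((integrable_exp_neg_mul_sq ht).const_mul _).integrableOn measurableSet_Ioi fun s hs => ?_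
  have hs' : 0 < s := hs
  rw [← exp_add]
  exact exp_le_exp.mpr (by nlinarith [mul_pos ht hs'])

theorem vv_vk {u : ℝ} (hu : 0 < u) {x : E} (hx : x ≠ 0) :
    vk x = (√(π * u))⁻¹ * (√(π / (r2 x / (4 * u))) / 2) := by
  have hr := vv_r2_pos hx
  have h1 : π / (r2 x / (4 * u)) = 4 * π * u / r2 x := by field_simp
  have h2 : 0 < √(π * u) := sqrt_pos.mpr (by positivity)
  have h3 : 0 < √(r2 x) := sqrt_pos.mpr hr
  rw [vk_eq, h1, sqrt_div (by positivity), vv_sqrt4]
  field_simp

theorem VV_le_vk {u : ℝ} (hu : 0 < u) {x : E} (hx : x ≠ 0) : VV u x ≤ vk x := by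
  have ht : 0 < r2 x / (4 * u) := div_pos (vv_r2_pos hx) (by positivity)
  rw [vv_vk hu hx, ← vv_split ht]
  refine mul_le_mul_of_nonneg_left (le_add_of_nonneg_right ?_) (by positivity)
  exact integral_nonneg fun s => (exp_pos _).le

theorem vk_sub_VV {u : ℝ} (hu : 0 < u) {x : E} (hx : x ≠ 0) :
    vk x - VV u x ≤ vk x * exp (-r2 x / (4 * u)) := by
  have ht : 0 < r2 x / (4 * u) := div_pos (vv_r2_pos hx) (by positivity)
  have h1 := vv_split ht
  have h2 := vv_tail ht
  rw [vv_vk hu hx, neg_div]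
  unfold VV
  have h3 : 0 ≤ (√(π * u))⁻¹ := by positivity
  have h4 := mul_le_mul_of_nonneg_left h2 h3
  have h5 : Fk 0 (r2 x / (4 * u)) = √(π / (r2 x / (4 * u))) / 2 -
      ∫ s in Set.Ioi (1 : ℝ), exp (-(r2 x / (4 * u)) * s ^ 2) := by linarith
  rw [h5]
  linarith

theorem tendsto_VV {x : E} (hx : x ≠ 0) :
    Tendsto (fun u => VV u x) (𝓝[>] 0) (𝓝 (vk x)) := by
  have hr := vv_r2_pos hx
  have h1 : Tendsto (fun u : ℝ => exp (-r2 x / (4 * u))) (𝓝[>] 0) (𝓝 0) := by
    refine tendsto_exp_atBot.comp ?_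
    have h2 := (tendsto_inv_nhdsGT_zero (𝕜 := ℝ)).const_mul_atTop_of_neg
      (r := -r2 x / 4) (by linarith)
    refine h2.congr fun u => ?_
    ring
  have h3 : Tendsto (fun u : ℝ => vk x - vk x * exp (-r2 x / (4 * u))) (𝓝[>] 0) (𝓝 (vk x)) := by
    simpa using (h1.const_mul (vk x)).const_sub (vk x)
  refine tendsto_of_tendsto_of_tendsto_of_le_of_le' h3 tendsto_const_nhds ?_ ?_
  · filter_upwards [self_mem_nhdsWithin] with u hu
    have := vk_sub_VV hu hx
    linarith
  · filter_upwards [self_mem_nhdsWithin] with u hu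
    exact VV_le_vk hu hx

theorem VV_conv {a b : ℝ} (ha : 0 < a) (hb : 0 < b) (x y : E) :
    ∫ z, hk a (z - x) * VV b (y - z) = VV (a + b) (y - x) := by
  have hm : Measurable fun p : E × ℝ => hk a (p.1 - x) * hk p.2 (y - p.1) :=
    ((continuous_hk a).measurable.comp (measurable_fst.sub_const x)).mul
      (measurable_hk.comp (measurable_snd.prodMk (measurable_fst.const_sub y)))
  have e1 : ∀ z, ∫ r in Set.Ioi b, hk a (z - x) * hk r (y - z) =
      (4 * π)⁻¹ * (hk a (z - x) * VV b (y - z)) := by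
    intro z
    rw [integral_const_mul, VV_eq hb]
    have := pi_pos
    field_simp
  have hi : Integrable (Function.uncurry fun (z : E) (r : ℝ) => hk a (z - x) * hk r (y - z))
      (volume.prod (volume.restrict (Set.Ioi b))) := by
    refine (integrable_prod_iff hm.aestronglyMeasurable).mpr
      ⟨ae_of_all _ fun z => Integrable.const_mul (integrableOn_hk_Ioi hb (y - z)) (hk a (z - x)), ?_⟩
    have h1 : Integrable fun z => (4 * π)⁻¹ * (hk a (z - x) * VV b (y - z)) := by
      refine Integrable.const_mul (((integrable_hk ha).comp_sub_right x).mul_bdd (c := (√b)⁻¹)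
        (g := fun z => VV b (y - z)) ((continuous_VV b).comp (continuous_const.sub continuous_id)).aestronglyMeasurable
        (ae_of_all _ fun z => ?_)) _
      rw [Real.norm_eq_abs, abs_of_nonneg (VV_nonneg _ _)]
      exact VV_le hb _
    refine h1.congr (ae_of_all _ fun z => ?_)
    simp only
    rw [← e1]
    refine integral_congr_ae (ae_of_all _ fun r => ?_)
    simp only
    rw [Real.norm_eq_abs, abs_of_nonneg (mul_nonneg (hk_nonneg _ _) (hk_nonneg _ _))]
  have h2 := integral_integral_swap hi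
  simp only [e1] at h2
  rw [integral_const_mul, setIntegral_congr_fun measurableSet_Ioi
    (g := fun r => hk (r + a) (y - x))
    (fun r hr => by
      simp only
      rw [hk_conv ha (hb.trans hr), add_comm])] at h2
  have h3 := (measurePreserving_add_right (volume : Measure ℝ) a).setIntegral_preimage_emb
    (measurableEmbedding_addRight a) (fun r => hk r (y - x)) (Set.Ioi (a + b))
  have h4 : (fun r : ℝ => r + a) ⁻¹' Set.Ioi (a + b) = Set.Ioi b := by
    ext s; simp
  rw [h4] at h3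
  rw [VV_eq (add_pos ha hb), ← h3, ← h2]
  have := pi_pos
  field_simp

theorem vv_loc : Integrable ((Metric.closedBall (0 : E) 1).indicator vk) :=
  (integrable_indicator_iff measurableSet_closedBall).mpr
    (locInt_vk.integrableOn_isCompact (isCompact_closedBall _ _))

theorem vv_vk_le (z : E) : vk z ≤ (Metric.closedBall (0 : E) 1).indicator vk z + 1 := by
  by_cases h : z ∈ Metric.closedBall (0 : E) 1
  · rw [Set.indicator_of_mem h]; linarith
  · rw [Set.indicator_of_notMem h, zero_add, vk_eq]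
    have h1 : 1 < ‖z‖ := by simpa using h
    refine inv_le_one_of_one_le₀ (one_le_sqrt.mpr ?_)
    have := norm_sq_le_r2 z
    nlinarith

theorem vv_ind_nonneg (z : E) : 0 ≤ (Metric.closedBall (0 : E) 1).indicator vk z :=
  Set.indicator_nonneg (fun z _ => vk_nonneg z) z

theorem integrable_mul_vk {μ : E → ℝ} (hc : Continuous μ) (hi : Integrable μ) {M : ℝ}
    (hM : ∀ w, |μ w| ≤ M) (x : E) : Integrable fun w => μ w * vk (x - w) := by
  refine Integrable.mono' (((vv_loc.comp_sub_left x).const_mul M).add hi.abs)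
    (hc.measurable.mul (measurable_vk.comp (measurable_id.const_sub x))).aestronglyMeasurable
    (ae_of_all _ fun w => ?_)
  rw [Real.norm_eq_abs, abs_mul, abs_of_nonneg (vk_nonneg _)]
  have h1 := mul_le_mul_of_nonneg_left (vv_vk_le (x - w)) (abs_nonneg (μ w))
  have h2 := mul_le_mul_of_nonneg_right (hM w) (vv_ind_nonneg (x - w))
  simp only [Pi.add_apply]
  linarith

theorem cv_le : ∃ C : ℝ, 0 < C ∧ ∀ μ : E → ℝ, Continuous μ → Integrable μ → ∀ M, (∀ w, 0 ≤ μ w) →
    (∀ w, μ w ≤ M) → ∀ x, cv μ x ≤ C * M + ∫ w, μ w := by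
  have h0 : 0 ≤ ∫ z, (Metric.closedBall (0 : E) 1).indicator vk z := integral_nonneg vv_ind_nonneg
  refine ⟨(∫ z, (Metric.closedBall (0 : E) 1).indicator vk z) + 1, by linarith, ?_⟩
  intro μ hc hi M h1 h2 x
  have hM : 0 ≤ M := (h1 0).trans (h2 0)
  have h3 := integral_mono (integrable_mul_vk hc hi (M := M)
      (fun w => by rw [abs_of_nonneg (h1 w)]; exact h2 w) x)
    (((vv_loc.comp_sub_left x).const_mul M).add hi) (fun w => by
      have h4 := mul_le_mul_of_nonneg_left (vv_vk_le (x - w)) (h1 w)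
      have h5 := mul_le_mul_of_nonneg_right (h2 w) (vv_ind_nonneg (x - w))
      simp only [Pi.add_apply]
      linarith)
  simp only [Pi.add_apply] at h3
  rw [integral_add ((vv_loc.comp_sub_left x).const_mul M) hi, integral_const_mul,
    integral_sub_left_eq_self ((Metric.closedBall (0 : E) 1).indicator vk) volume x] at h3
  unfold cv
  linarith

theorem cv_hk {u : ℝ} (hu : 0 < u) : cv (hk u) = VV u := by
  funext x
  have hb := integrable_mul_vk (continuous_hk u) (integrable_hk hu) (M := hk u 0)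
    (fun w => by rw [abs_of_nonneg (hk_nonneg _ _)]; exact hk_le_zero hu w) x
  have hne : ∀ᵐ w : E, x - w ≠ 0 := (Measure.ae_ne volume x).mono fun w hw =>
    sub_ne_zero.mpr (Ne.symm hw)
  have h1 := tendsto_integral_filter_of_dominated_convergence (μ := (volume : Measure E))
    (l := 𝓝[>] (0 : ℝ)) (F := fun ε w => hk u w * VV ε (x - w))
    (f := fun w => hk u w * vk (x - w)) (fun w => hk u w * vk (x - w))
    (Eventually.of_forall fun ε => ((continuous_hk u).mul
      ((continuous_VV ε).comp (continuous_const.sub continuous_id))).aestronglyMeasurable)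
    (by
      filter_upwards [self_mem_nhdsWithin] with ε hε
      filter_upwards [hne] with w hw
      rw [Real.norm_eq_abs, abs_of_nonneg (mul_nonneg (hk_nonneg _ _) (VV_nonneg _ _))]
      exact mul_le_mul_of_nonneg_left (VV_le_vk hε hw) (hk_nonneg _ _))
    hb (hne.mono fun w hw => (tendsto_VV hw).const_mul _)
  have h2 : Tendsto (fun ε => VV (u + ε) x) (𝓝[>] (0 : ℝ)) (𝓝 (VV u x)) := by
    have h3 : Tendsto (fun ε : ℝ => u + ε) (𝓝[>] (0 : ℝ)) (𝓝 u) := by
      have : Tendsto (fun ε : ℝ => u + ε) (𝓝 (0 : ℝ)) (𝓝 (u + 0)) :=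
        tendsto_id.const_add u
      rw [add_zero] at this
      exact this.mono_left nhdsWithin_le_nhds
    exact (hasDerivAt_VV_time hu x).continuousAt.tendsto.comp h3
  refine tendsto_nhds_unique h1 (h2.congr' ?_)
  filter_upwards [self_mem_nhdsWithin] with ε hε
  simpa using (VV_conv hu hε 0 x).symm

theorem vv_isq : IntervalIntegrable (fun s : ℝ => (√s)⁻¹) volume 0 1 ∧
    ∫ s in (0 : ℝ)..1, (√s)⁻¹ = 2 := by
  have e : ∀ s ∈ Set.Ioc (0 : ℝ) 1, s ^ (-(1 / 2) : ℝ) = (√s)⁻¹ := fun s hs => by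
    rw [rpow_neg hs.1.le, sqrt_eq_rpow]
  constructor
  · have h := intervalIntegral.intervalIntegrable_rpow' (a := 0) (b := 1) (r := -(1 / 2))
      (by norm_num)
    rw [intervalIntegrable_iff_integrableOn_Ioc_of_le zero_le_one] at h ⊢
    exact h.congr_fun e measurableSet_Ioc
  · have h := integral_rpow (a := 0) (b := 1) (r := -(1 / 2)) (Or.inl (by norm_num))
    rw [intervalIntegral.integral_of_le zero_le_one] at h ⊢
    rw [← setIntegral_congr_fun measurableSet_Ioc e, h]
    norm_num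

theorem vv_cs {t : ℝ} (ht : 0 ≤ t) :
    t * Fk 1 t ^ 2 ≤ 2 * ∫ s in (0 : ℝ)..1, s ^ 2 * √s * exp (-t * s ^ 2) := by
  have hc : Continuous fun s : ℝ => s ^ 2 * √s * exp (-t * s ^ 2) := by fun_prop
  have h := intervalIntegral.integral_mono_on_of_le_Ioo (μ := volume) zero_le_one
    (((vv_cont 1 t).const_mul (t * Fk 1 t)).intervalIntegrable _ _)
    ((vv_isq.1.const_mul (t * Fk 1 t ^ 2 / 4)).add (hc.intervalIntegrable _ _))
    (fun s hs => by
      have h0 : 0 < √s := sqrt_pos.mpr hs.1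
      have h1 := vv_mul_exp (t * s ^ 2)
      rw [neg_mul, mul_one]
      have h2 := exp_pos (-(t * s ^ 2))
      generalize exp (-(t * s ^ 2)) = e at h1 h2 ⊢
      generalize Fk 1 t = B
      generalize √s = q at h0 ⊢
      have h3 : t * B * (s ^ 2 * e) =
          t * B ^ 2 / 4 * q⁻¹ + t * (s ^ 2 * e) ^ 2 * q - t * q * (B / (2 * q) - s ^ 2 * e) ^ 2 := by
        field_simp
        ring
      have h4 : 0 ≤ t * q * (B / (2 * q) - s ^ 2 * e) ^ 2 := by positivity
      have h5 : t * (s ^ 2 * e) ^ 2 * q = s ^ 2 * q * e * (t * s ^ 2 * e) := by ring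
      have h6 : s ^ 2 * q * e * (t * s ^ 2 * e) ≤ s ^ 2 * q * e * 1 :=
        mul_le_mul_of_nonneg_left h1 (by positivity)
      linarith)
  rw [intervalIntegral.integral_add (vv_isq.1.const_mul _) (hc.intervalIntegrable _ _),
    intervalIntegral.integral_const_mul, intervalIntegral.integral_const_mul, vv_isq.2] at h
  have e : ∫ s in (0 : ℝ)..1, s ^ (2 * 1) * exp (-t * s ^ 2) = Fk 1 t := rfl
  rw [e] at h
  linarith

theorem grad_VV {w : ℝ} (hw : 0 < w) (x : E) :
    ∑ k, V1 w k x ^ 2 ≤ 200 * (√w)⁻¹ * ∫ s in (0 : ℝ)..1, (√s)⁻¹ * hk (w / s ^ 2) x := by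
  have ht : 0 ≤ r2 x / (4 * w) := div_nonneg (r2_nonneg x) (by positivity)
  have h1 := vv_cs ht
  have hp : 0 < √π := sqrt_pos.mpr pi_pos
  have ha : 0 < √w := sqrt_pos.mpr hw
  have e1 : ∫ s in (0 : ℝ)..1, (√s)⁻¹ * hk (w / s ^ 2) x = (2 * (√π * √w))⁻¹ ^ 3 *
      ∫ s in (0 : ℝ)..1, s ^ 2 * √s * exp (-(r2 x / (4 * w)) * s ^ 2) := by
    rw [← intervalIntegral.integral_const_mul, intervalIntegral.integral_of_le zero_le_one,
      intervalIntegral.integral_of_le zero_le_one]
    refine setIntegral_congr_fun measurableSet_Ioc fun s hs => ?_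
    have h0 : 0 < √s := sqrt_pos.mpr hs.1
    have hs0 := hs.1
    simp only [hk]
    rw [vv_sqrt4, sqrt_mul pi_pos.le, sqrt_div hw.le, sqrt_sq hs0.le,
      show -r2 x / (4 * (w / s ^ 2)) = -(r2 x / (4 * w)) * s ^ 2 by field_simp]
    have h2 : s = √s ^ 2 := (sq_sqrt hs0.le).symm
    generalize exp (-(r2 x / (4 * w)) * s ^ 2) = e
    generalize √s = q at h0 h2 ⊢
    subst h2
    field_simp
  have e2 : ∑ k, V1 w k x ^ 2 =
      (√π * √w)⁻¹ ^ 2 / w * (r2 x / (4 * w) * Fk 1 (r2 x / (4 * w)) ^ 2) := by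
    simp only [V1, sqrt_mul pi_pos.le]
    generalize Fk 1 (r2 x / (4 * w)) = B
    rw [r2, Finset.sum_div, Finset.sum_mul, Finset.mul_sum]
    refine Finset.sum_congr rfl fun k _ => ?_
    field_simp
    ring
  have hJ : 0 ≤ ∫ s in (0 : ℝ)..1, s ^ 2 * √s * exp (-(r2 x / (4 * w)) * s ^ 2) :=
    intervalIntegral.integral_nonneg zero_le_one fun s _ => by positivity
  rw [e1, e2]
  have hp2 : √π ≤ 2 := sqrt_le_iff.mpr ⟨by norm_num, by linarith [pi_le_four]⟩
  have h2 : w = √w ^ 2 := (sq_sqrt hw.le).symm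
  generalize (∫ s in (0 : ℝ)..1, s ^ 2 * √s * exp (-(r2 x / (4 * w)) * s ^ 2)) = J at h1 hJ ⊢
  generalize r2 x / (4 * w) * Fk 1 (r2 x / (4 * w)) ^ 2 = A at h1 ⊢
  generalize √π = p at hp hp2 ⊢
  generalize √w = a at ha h2 ⊢
  subst h2
  calc (p * a)⁻¹ ^ 2 / a ^ 2 * A ≤ (p * a)⁻¹ ^ 2 / a ^ 2 * (2 * J) :=
        mul_le_mul_of_nonneg_left h1 (by positivity)
    _ = 2 * p * (J / (p ^ 3 * a ^ 4)) := by field_simp
    _ ≤ 25 * (J / (p ^ 3 * a ^ 4)) :=
        mul_le_mul_of_nonneg_right (by linarith) (by positivity)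
    _ = _ := by field_simp; ring

end Pool.Agent.Lib.MP_0655ed_mp
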