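import Pool.Agent.Lib.MP_0655ed_mp.ImpFinal

open Finset MeasureTheory Real Filter Topology

set_option linter.unusedSectionVars false

namespace Pool.Agent.Lib.MP_0655ed_mp

variable {σ Sp : Type} [Fintype σ] [DecidableEq σ] [Fintype Sp] {P : Species σ Sp}
  {I mb cm cb : ℝ}

/-- the core statement, uniformly over all densities up to `ρ` -/
def IonCore (P : Species σ Sp) (ρ t0 K0 : ℝ) : Prop :=
  ∀ (ι : Type) [Fintype ι] [DecidableEq ι] (sp : ι → σ) (L : ℝ), 14 ≤ L → Nonempty ι →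
    (Fintype.card ι : ℝ) ≤ ρ * L ^ 3 → ∑ j, ch P sp j = 0 →
    ∀ t K : ℝ, t0 ≤ |t| → t ^ 4 ≤ K → K0 ≤ K →
    ∃ ε : ℝ, 0 < ε ∧ ∀ (x0 : E) (e1 : ℝ) (ψ : Wv ι Sp), St P sp L t x0 e1 K ε ψ →
      |pot (ph (ch P sp) vk x0) ψ| ≤ K / 2

theorem ion_grid {ρ : ℝ} (hρ : 0 < ρ) : ∃ l : ℝ, 0 < l ∧ l ≤ 1 ∧ ∀ (L : ℝ) (N : ℕ), 14 ≤ L →
    (N : ℝ) ≤ ρ * L ^ 3 →
    ∃ (m : ℕ) (c : (Fin 3 → Fin m) → E), Grid l c N ∧ ∀ y, ‖c y‖ + l < L / 2 := by
  have h0 : 0 < 14 * (2 * ρ + 1) := by positivity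
  have h1 : 1 / (14 * (2 * ρ + 1)) ≤ 1 := by rw [div_le_one h0]; linarith
  refine ⟨1 / (14 * (2 * ρ + 1)), by positivity, h1, fun L N hL hN => ?_⟩
  obtain ⟨m, c, hs, hin, hm⟩ := exists_grid (l := 1 / (14 * (2 * ρ + 1))) (L := L) (by positivity)
    (by linarith)
  have h2 : L / (14 * (1 / (14 * (2 * ρ + 1)))) = L * (2 * ρ + 1) := by field_simp
  rw [h2] at hm
  have h3 : (L * (2 * ρ + 1)) ^ 3 ≤ (m : ℝ) ^ 3 := pow_le_pow_left₀ (by positivity) hm 3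
  have h4 : 2 * ρ + 1 ≤ (2 * ρ + 1) ^ 3 := le_self_pow₀ (by linarith) (by norm_num)
  have h6 : 0 < L ^ 3 := by positivity
  have h7 := mul_le_mul_of_nonneg_left h4 h6.le
  have h8 : (2 * N : ℝ) < (m : ℝ) ^ 3 := by rw [mul_pow] at h3; nlinarith
  have h9 : 2 * N < m ^ 3 := by exact_mod_cast h8
  exact ⟨m, c, ⟨hs, by simp; omega, by simp; omega⟩, hin⟩

theorem ion_core (hD : Dat P I mb cm cb) {A : ℝ} (hA : Stb P A)
    (hf : ∀ s, P.charge s < 0 → P.fermion s = true) {ρ t0 : ℝ} (hρ : 0 < ρ) (ht0 : 0 < t0) :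
    ∃ K0 : ℝ, IonCore P ρ t0 K0 := by
  obtain ⟨Cd, hCd0, hdens⟩ := dens hf
  obtain ⟨Ce, hCe0, hes⟩ := es_exp hf
  obtain ⟨D1, hD1, hhf⟩ := exists_holeFn
  obtain ⟨D2, hD2, hgo⟩ := exists_gorb
  have hD0 : 0 < D1 + D2 := by positivity
  obtain ⟨Ch, hCh0, hhole⟩ := hole_ineq hD hA hD0 ht0
  obtain ⟨Ct, hCt0, htau⟩ := tau_ineq hD hD0 ht0
  obtain ⟨Cc, hCc0, hcnt⟩ := cnt_ineq hD hD0 ht0
  obtain ⟨Cx, hCx0, hext⟩ := ext_max
  obtain ⟨Cs, hCs0, hspr⟩ := spread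
  obtain ⟨Cl, hCl0, hloc⟩ := hyd_loc
  obtain ⟨l, hl0, hl1, hgrid⟩ := ion_grid hρ
  have hcm0 := hD.cpos
  obtain ⟨b, hb, hCd, hCe, hCh, hCt, hCc, hCx, hCs, hCl, hDb, hlb, hIb, htb, hmb, hcm, hcb⟩ :
      ∃ b : ℝ, 1 ≤ b ∧ Cd ≤ b ∧ Ce ≤ b ∧ Ch ≤ b ∧ Ct ≤ b ∧ Cc ≤ b ∧ Cx ≤ b ∧ Cs ≤ b ∧ Cl ≤ b ∧
      D1 + D2 ≤ b ∧ 1 / l ^ 2 ≤ b ∧ 2 * I / t0 ≤ b ∧ 1 / t0 ≤ b ∧ mb ≤ b ∧ 1 / cm ≤ b ∧ cb ≤ b := by
    have a1 : 0 < 1 / l ^ 2 := by positivity
    have a2 : 0 < 1 / t0 := by positivity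
    have a3 : 0 < 1 / cm := by positivity
    have a4 := le_abs_self (2 * I / t0)
    have a5 := le_abs_self mb
    have a6 := le_abs_self cb
    have a7 := abs_nonneg (2 * I / t0)
    have a8 := abs_nonneg mb
    have a9 := abs_nonneg cb
    refine ⟨1 + Cd + Ce + Ch + Ct + Cc + Cx + Cs + Cl + (D1 + D2) + 1 / l ^ 2 + |2 * I / t0| +
      1 / t0 + |mb| + 1 / cm + |cb|, ?_, ?_, ?_, ?_, ?_, ?_, ?_, ?_, ?_, ?_, ?_, ?_, ?_, ?_, ?_, ?_⟩
    all_goals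
      linarith only [a1, a2, a3, a4, a5, a6, a7, a8, a9, hCd0, hCe0, hCh0, hCt0, hCc0, hCx0, hCs0,
        hCl0, hD0]
  have hb0 : 0 < b := by linarith only [hb]
  have b3 : 1 ≤ b ^ 3 := one_le_pow₀ hb
  have b4 : 1 ≤ b ^ 4 := one_le_pow₀ hb
  obtain ⟨e0, he0, -, hnum⟩ := num_core (C := 10 ^ 8 * b ^ 4) (by linarith only [b4])
  refine ⟨1 / (min e0 (1 / (4 * b ^ 3))) ^ 200, ?_⟩
  intro ι _ _ sp L hL hne hL3 hneu t K ht ht4 hK0
  obtain ⟨e, h0, hee, hK⟩ := co_root (lt_min he0 (by positivity)) hK0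
  have he3 : e ≤ 1 / (4 * b ^ 3) := hee.trans (min_le_right _ _)
  have he2 : e ≤ 1 / (4 * b ^ 2) := he3.trans (one_div_le_one_div_of_le (by positivity)
    (by linarith only [nz_pow hb (i := 2) (j := 3) (by norm_num)]))
  have he : Sc e := ⟨h0, he3.trans (one_div_le_one_div_of_le (by norm_num) (by linarith only [b3]))⟩
  have hKp : 0 < K := by rw [hK]; positivity
  have hL0 : 0 < L := by linarith only [hL]
  obtain ⟨i0⟩ := id hne
  have hI : 0 ≤ I := le_trans (by have := hD.mpos (sp i0); positivity) (hD.hI (sp i0))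
  have hmb0 : 0 < mb := (hD.mpos (sp i0)).trans_le (hD.hmb _)
  have hcb0 : 0 ≤ cb := (abs_nonneg _).trans (hD.hcb (sp i0))
  have ht2 : t ^ 2 ≤ 1 / e ^ 100 := by
    refine (pow_le_pow_iff_left₀ (sq_nonneg t) (by positivity) two_ne_zero).mp ?_
    calc (t ^ 2) ^ 2 = t ^ 4 := by ring
      _ ≤ K := ht4
      _ = _ := by rw [hK]; field_simp
  obtain ⟨m, cy, hg, hin⟩ := hgrid L _ hL hL3
  have hY : Nonempty (Fin 3 → Fin m) := Fintype.card_pos_iff.mp hg.pos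
  choose hh hhh using fun y => hhf ι l hl0 (cy y)
  replace hhh := fun y => (hhh y).mono (by linarith only [hD2] : D1 ≤ D1 + D2) hl0
  have hD2b : D2 ≤ b := by linarith only [hD1, hDb]
  have hq : 1 / (4 * b) ≤ 1 := by rw [div_le_one (by positivity)]; linarith only [hb]
  obtain ⟨f, Z, hf1⟩ := hgo (e ^ 186) (e ^ 85) (he.p _) (he.p _) (by
    have a1 := mul_le_mul_of_nonneg_right ((co_small he hD2b hb he2 (k := 16) (by norm_num)).trans hq)
      (he.p 170).le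
    calc D2 * e ^ 186 = D2 * e ^ 16 * e ^ 170 := by ring
      _ ≤ 1 * e ^ 170 := a1
      _ = _ := by ring)
  obtain ⟨f', Z', hf2⟩ := hgo (e ^ 100) l (he.p _) hl0 (by
    have a1 := co_small he hD2b hb he2 (k := 100) (by norm_num)
    have a2 : 1 / b ≤ l ^ 2 := (one_div_le (by positivity) hb0).mp hlb
    have a3 : 1 / (4 * b) ≤ 1 / b := one_div_le_one_div_of_le hb0 (by linarith only [hb0])
    linarith only [a1, a2, a3])
  replace hf1 := hf1.mono (by linarith only [hD1] : D2 ≤ D1 + D2) (he.p _)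
  replace hf2 := hf2.mono (by linarith only [hD1] : D2 ≤ D1 + D2) (he.p _)
  obtain ⟨M1, hM10, hM1, hM2⟩ : ∃ M1 : ℝ, 0 ≤ M1 ∧
      (∀ z x, |ph (ch P sp) (VV (e ^ 186)) z x| ≤ M1 / 2) ∧
      ∀ z x, |ph (ch P sp) (VV (e ^ 100)) z x| ≤ M1 / 2 := by
    have a0 : 0 ≤ ∑ j, |ch P sp j| := Finset.sum_nonneg fun _ _ => abs_nonneg _
    have a1 : 0 ≤ (∑ j, |ch P sp j|) * (√(e ^ 186))⁻¹ :=
      mul_nonneg a0 (inv_nonneg.mpr (Real.sqrt_nonneg _))
    have a2 : 0 ≤ (∑ j, |ch P sp j|) * (√(e ^ 100))⁻¹ :=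
      mul_nonneg a0 (inv_nonneg.mpr (Real.sqrt_nonneg _))
    refine ⟨2 * ((∑ j, |ch P sp j|) * (√(e ^ 186))⁻¹ + (∑ j, |ch P sp j|) * (√(e ^ 100))⁻¹),
      by linarith only [a1, a2], fun z x => ?_, fun z x => ?_⟩
    · linarith only [ex_phi_abs (ch P sp) (he.p 186) z x, a2]
    · linarith only [ex_phi_abs (ch P sp) (he.p 100) z x, a1]
  obtain ⟨ε0, hε0, hext'⟩ := hext (Fintype.card ι) L cb (M1 / 2) (e ^ 184) (e ^ 186)
    (by linarith only [hL]) (he.p _) (by linarith only [he.va, he.p 186])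
    (by linarith only [he.a64])
  have p1 : 0 < Fintype.card ι * hk (e ^ 186) 0 + 1 :=
    add_pos_of_nonneg_of_pos (mul_nonneg (Nat.cast_nonneg _) (hk_nonneg _ _)) one_pos
  have p2 : 0 < M1 + K + 1 := by positivity
  have p3 : 0 < Fintype.card ι * hk (e ^ 184 + e ^ 186) 0 + 1 :=
    add_pos_of_nonneg_of_pos (mul_nonneg (Nat.cast_nonneg _) (hk_nonneg _ _)) one_pos
  refine ⟨min (ε0 / (Cc * (Fintype.card ι * hk (e ^ 186) 0 + 1)))
    (min (1 / (M1 + K + 1)) (1 / (Fintype.card ι * hk (e ^ 184 + e ^ 186) 0 + 1))),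
    lt_min (div_pos hε0 (mul_pos hCc0 p1)) (lt_min (one_div_pos.mpr p2) (one_div_pos.mpr p3)),
    fun x0 e1 ψ h => ?_⟩
  generalize hε : min (ε0 / (Cc * (Fintype.card ι * hk (e ^ 186) 0 + 1)))
    (min (1 / (M1 + K + 1)) (1 / (Fintype.card ι * hk (e ^ 184 + e ^ 186) 0 + 1))) = ε at h
  have hε1 : Cc * (Fintype.card ι * hk (e ^ 186) 0 + 1) * ε ≤ ε0 :=
    (le_div_iff₀' (mul_pos hCc0 p1)).mp (hε.ge.trans (min_le_left _ _))
  have hε2 : (M1 + K + 1) * ε ≤ 1 :=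
    (le_div_iff₀' p2).mp (hε.ge.trans ((min_le_right _ _).trans (min_le_left _ _)))
  have hε3 : (Fintype.card ι * hk (e ^ 184 + e ^ 186) 0 + 1) * ε ≤ 1 :=
    (le_div_iff₀' p3).mp (hε.ge.trans ((min_le_right _ _).trans (min_le_right _ _)))
  have hεp := h.eps_nonneg
  obtain ⟨r, hr, hsupp⟩ := h.tst.supp
  refine core_a hD h ht0 ht hb he hK ht2 (by linarith only [hL]) hI hmb0 hcb0 hCd0.le hCe0.le
    hCh0.le hCt0.le hCs0.le hCl0.le hD0.le hCd hCe hCh hCt hCs hCl hDb hlb hIb htb hmb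
    ((div_le_iff₀ hcm0).mp hcm) hcb hhh (hole_half hl0 hg hhh)
    (fun z => (hhf ι _ (he.p 85) z).imp fun g hg' =>
      hg'.mono (by linarith only [hD2]) (he.p 85)) hM1 hM2 hε2 hε3
    (hdens ι sp L ψ h.tst)
    (hes ι sp L ψ h.tst _ _ (he.p _) (by linarith only [he.va, he.p 186])
      (by linarith only [he.a64]))
    (fun y z0 => htau ι sp L t e1 K ε x0 ψ h ht hKp.le _ l Z' f' (cy y) (hh y) (he.p _)
      (nm_1 h0 he.le1 _) hl0 hf2 (hin y) (hhh y) _ he.Bpos z0)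
    (fun z y hz F hF hFs hFM hF0 => hhole ι sp L t e1 K ε x0 ψ hL0 h hneu ht hKp.le _ _ Z _ l Z'
      f f' z (cy y) (he.p _) (nm_1 h0 he.le1 _) (he.p _) (nm_1 h0 he.le1 _) (he.p _) hl0 hf1 hf2
      hz (hin y) F (M1 + K) hF hFs (by positivity) hFM hF0)
    (hext' Sp ι _ rfl (ch P sp) (fun j => hD.hcb _) hneu ψ h.tst.nice.cc h.one
      (fun τ x hx i => (hsupp τ x hx i).trans hr.le) _ _
      (fun y => (hhh y).smooth.continuous.pow 2) (fun y => nb_cont_ph _ (continuous_VV _) _)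
      (fun y x => sq_nonneg _) (fun y x => pow_le_one₀ ((hhh y).nonneg x) ((hhh y).le_one x))
      (fun y x => hM2 _ x) (Cc * (K + 1 / l ^ 2 + 1 / e ^ 186)) (by positivity)
      (co_kap he hb he3 hK hCx hCc hCc0.le hlb) fun y z r hr1 hr2 => ?_)
    (hspr _ (he.p _)) (hloc Sp ι ψ h.tst.nice _ cb hcb0 fun j => hD.hcb _)
    fun s τ ν β χ α => hnum e s τ ν β χ α h0 (hee.trans (min_le_left _ _))
  have hr0 : 0 < r := (he.p _).trans_le hr1
  refine (hcnt ι sp L t e1 K ε x0 ψ h ht hKp.le _ _ l r (cy y) z (hh y) (he.p _) (he.p _) hl0 hr0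
    (hhh y)).trans (add_le_add ?_ (le_trans ?_ hε1))
  · have a1 := nb_nonneg ψ (hk_nonneg r) z
    have a2 := nb_nonneg ψ (hk_nonneg (2 * r)) z
    have a3 := he.p 186
    gcongr
  · have a1 := hk_zero_anti (he.p 186) hr1
    gcongr

/-- a static point charge lowers the energy by a bounded amount, all densities up to `ρ` -/
theorem ion_tilt (hD : Dat P I mb cm cb) {A : ℝ} (hA : Stb P A) {ρ t0 K0 : ℝ} (ht0 : 0 < t0)
    (hc : IonCore P ρ t0 K0) :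
    ∃ C : ℝ, ∀ (ι : Type) [Fintype ι] [DecidableEq ι] (sp : ι → σ) (L : ℝ), 14 ≤ L → Nonempty ι →
    (Fintype.card ι : ℝ) ≤ ρ * L ^ 3 → ∑ j, ch P sp j = 0 → ∀ E0 : ℝ,
    (∀ u : Wv ι Sp, Tst P sp L u → E0 * nr u ≤ en P sp u) → ∀ s, |s| = t0 → ∀ (z : E) (u : Wv ι Sp),
    Tst P sp L u → (E0 - C) * nr u ≤ qx P sp s z u := by
  classical
  refine ⟨max (t0 ^ 5) (t0 * K0), fun ι _ _ sp L hL hne0 hL3 hneu E0 hE0 => ?_⟩
  have hL' : 0 < L := by linarith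
  set S : ℝ → Set ℝ := fun t => {c | ∃ (s : ℝ) (z : E) (u : Wv ι Sp), |s| = t ∧ Tst P sp L u ∧
    nr u = 1 ∧ qx P sp s z u = c} with hS
  set N : ℝ := (Fintype.card ι : ℝ) with hN
  have hlow : ∀ t, ∀ c ∈ S t, -(N * (4 * |A| + 4 * mb * cb ^ 2 * t ^ 2)) ≤ c := by
    rintro t c ⟨s, z, u, rfl, hu, h1, rfl⟩
    have := tl_apriori hD hA hL' s z hu
    rwa [h1, mul_one, ← sq_abs s] at this
  have hne : ∀ t, 0 ≤ t → (S t).Nonempty := by
    intro t ht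
    obtain ⟨u, hu, h1, -⟩ := exists_loc (P := P) hD.spin (L := L) _ ι sp rfl 0 (L / 4)
      (by positivity) (by rw [norm_zero]; linarith)
    exact ⟨_, t, 0, u, abs_of_nonneg ht, hu, h1, rfl⟩
  set e : ℝ → ℝ := fun t => sInf (S t) with he
  have hle : ∀ (s : ℝ) (z : E) (u : Wv ι Sp), Tst P sp L u → e |s| * nr u ≤ qx P sp s z u := by
    intro s z u hu
    rcases (nr_nonneg u).eq_or_lt with h0 | h0
    · have h1 : u = (0 : ℂ) • u := by
        rw [zero_smul]; exact eq_zero_of_nr hu.nice.cc h0.symm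
      rw [← h0, h1, tl_qx_smul _ _ _ hu.nice]
      simp
    · have hc : ‖(((√(nr u))⁻¹ : ℝ) : ℂ)‖ ^ 2 = (nr u)⁻¹ := by
        rw [Complex.norm_real, Real.norm_eq_abs, sq_abs, inv_pow, Real.sq_sqrt h0.le]
      have h1 : e |s| ≤ qx P sp s z ((((√(nr u))⁻¹ : ℝ) : ℂ) • u) := by
        refine csInf_le ⟨_, hlow _⟩ ⟨s, z, _, rfl, hu.smul _, ?_, rfl⟩
        rw [nr, pot_smul, hc, ← nr, inv_mul_cancel₀ h0.ne']
      rw [tl_qx_smul _ _ _ hu.nice, hc, ← div_eq_inv_mul, le_div_iff₀ h0] at h1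
      exact h1
  have key : E0 - e t0 ≤ max (t0 ^ 5) (t0 * K0) := by
    by_contra hcon
    rw [not_le, max_lt_iff] at hcon
    set b : ℕ → ℝ := fun k => E0 - e (2 ^ k * t0) with hb
    have hb0 : b 0 = E0 - e t0 := by simp [hb]
    have hpos : 0 < b 0 := by rw [hb0]; exact (pow_pos ht0 5).trans hcon.1
    obtain ⟨k, hk1, hk2⟩ := tl_doubling (b := b)
      (D := |E0| + |N * (4 * |A|)| + |N * (4 * mb * cb ^ 2 * t0 ^ 2)|) hpos (fun k => by
        have h1 : -(N * (4 * |A| + 4 * mb * cb ^ 2 * (2 ^ k * t0) ^ 2)) ≤ e (2 ^ k * t0) :=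
          le_csInf (hne _ (by positivity)) (hlow _)
        have h2 : ((2 : ℝ) ^ k * t0) ^ 2 = 4 ^ k * t0 ^ 2 := by
          rw [mul_pow, ← pow_mul, mul_comm k 2, pow_mul]; norm_num
        have h3 : (1 : ℝ) ≤ 4 ^ k := one_le_pow₀ (by norm_num)
        have h4 := mul_le_mul_of_nonneg_left h3 (abs_nonneg E0)
        have h5 := mul_le_mul_of_nonneg_left h3 (abs_nonneg (N * (4 * |A|)))
        have h6 := mul_le_mul_of_nonneg_right (le_abs_self (N * (4 * mb * cb ^ 2 * t0 ^ 2)))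
          (zero_le_one.trans h3)
        rw [h2] at h1
        simp only [hb]
        linarith [le_abs_self E0, le_abs_self (N * (4 * |A|))])
    set t : ℝ := 2 ^ k * t0 with ht
    have h2k : (1 : ℝ) ≤ 2 ^ k := one_le_pow₀ (by norm_num)
    have htt : t0 ≤ t := le_mul_of_one_le_left ht0.le h2k
    have htp : 0 < t := ht0.trans_le htt
    set K : ℝ := b k / t with hK
    have htK : t * K = b k := by rw [hK]; field_simp
    have h32 : (32 : ℝ) ^ k = (2 ^ k) ^ 5 := by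
      rw [← pow_mul, mul_comm k 5, pow_mul]; norm_num
    have hbk : 0 < b k := lt_of_lt_of_le (by positivity) hk2
    have hK4 : t ^ 4 ≤ K := by
      rw [hK, le_div_iff₀ htp, ← pow_succ, ht, mul_pow, ← h32]
      refine le_trans ?_ hk2
      rw [hb0]
      exact mul_le_mul_of_nonneg_left hcon.1.le (by positivity)
    have hK0 : K0 ≤ K := by
      rw [hK, le_div_iff₀ htp]
      refine le_trans ?_ hk2
      have h1 : (2 : ℝ) ^ k ≤ 32 ^ k := pow_le_pow_left₀ (by norm_num) (by norm_num) k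
      have h2 := mul_le_mul_of_nonneg_right h1 hpos.le
      have h3 := mul_le_mul_of_nonneg_left hcon.2.le (zero_le_one.trans h2k)
      rw [← hb0] at h3
      rw [ht]
      linarith
    obtain ⟨ε1, hε1, H1⟩ := hc ι sp L hL hne0 hL3 hneu t K (by rwa [abs_of_pos htp]) hK4 hK0
    obtain ⟨ε2, hε2, H2⟩ := hc ι sp L hL hne0 hL3 hneu (-t) K (by rwa [abs_neg, abs_of_pos htp])
      (by rwa [Even.neg_pow (by norm_num)]) hK0
    set ε : ℝ := min (min ε1 ε2) (b k / 4) with hε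
    have hε0 : 0 < ε := lt_min (lt_min hε1 hε2) (by positivity)
    obtain ⟨c, ⟨s, z, ψ, hs, hψ, hψ1, rfl⟩, hlt⟩ := exists_lt_of_csInf_lt (hne t htp.le)
      (show sInf (S t) < e t + ε from lt_add_of_pos_right _ hε0)
    have hSt : ∀ ε', ε ≤ ε' → St P sp L s z (e t) K ε' ψ := by
      intro ε' hε'
      refine ⟨hψ, hψ1, fun u hu => hs ▸ hle s z u hu, fun s' hs' z' u hu => ?_, by linarith⟩
      refine le_trans (mul_le_mul_of_nonneg_right ?_ (nr_nonneg u)) (hle s' z' u hu)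
      have h1 : |s'| = 2 ^ (k + 1) * t0 := by rw [hs', hs, ht]; ring
      have h2 : b (k + 1) = E0 - e |s'| := by rw [h1]
      have h3 : b k = E0 - e t := rfl
      rw [hs, mul_assoc, htK]
      linarith
    have hpot : |pot (ph (ch P sp) vk z) ψ| ≤ K / 2 := by
      rcases (abs_eq htp.le).mp hs with rfl | rfl
      · exact H1 z _ ψ (hSt _ ((min_le_left _ _).trans (min_le_left _ _)))
      · exact H2 z _ ψ (hSt _ ((min_le_left _ _).trans (min_le_right _ _)))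
    have h1 := hE0 ψ hψ
    rw [hψ1, mul_one] at h1
    have h2 : |s * pot (ph (ch P sp) vk z) ψ| ≤ t * (K / 2) := by
      rw [abs_mul, hs]
      exact mul_le_mul_of_nonneg_left hpot htp.le
    have h3 : b k = E0 - e t := rfl
    have h4 : ε ≤ b k / 4 := min_le_right _ _
    unfold qx at hlt
    linarith [neg_abs_le (s * pot (ph (ch P sp) vk z) ψ)]
  intro s hs z u hu
  refine le_trans (mul_le_mul_of_nonneg_right ?_ (nr_nonneg u)) (hle s z u hu)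
  rw [hs]
  linarith

end Pool.Agent.Lib.MP_0655ed_mp
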