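import Pool.Agent.Lib.MP_0655ed_mp.Ion1

open Finset MeasureTheory Real Filter Topology

set_option linter.unusedSectionVars false

namespace Pool.Agent.Lib.MP_0655ed_mp

variable {σ Sp : Type} [Fintype σ] [DecidableEq σ] [Fintype Sp] {P : Species σ Sp}
  {I mb cm cb : ℝ}

section
variable {ι ι' κ : Type} [Fintype ι] [DecidableEq ι] [Fintype ι'] [DecidableEq ι'] [Fintype κ]
  [DecidableEq κ]

/-- the ground state energy is near `E0`, also with a static charge of size at most `T` -/
structure IonGood (P : Species σ Sp) (sp : ι → σ) (L E0 T C : ℝ) : Prop where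
  low : ∀ s, |s| ≤ T → ∀ (z : E) (u : Wv ι Sp), Tst P sp L u → (E0 - C) * nr u ≤ qx P sp s z u
  up : ∀ E1, (∀ u, Tst P sp L u → E1 * nr u ≤ en P sp u) → E1 ≤ E0 + C

theorem IonGood.mono {sp : ι → σ} {L E0 T C C' : ℝ} (h : IonGood P sp L E0 T C) (hC : C ≤ C') :
    IonGood P sp L E0 T C' :=
  ⟨fun s hs z u hu => le_trans (mul_le_mul_of_nonneg_right (by linarith) (nr_nonneg u))
    (h.low s hs z u hu), fun E1 h1 => (h.up E1 h1).trans (by linarith)⟩

theorem ion_qx_rel (e : ι ≃ ι') (sp : ι' → σ) (s : ℝ) (z : E) (ψ : Wv ι Sp) :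
    qx P sp s z (rel e ψ) = qx P (fun i => sp (e i)) s z ψ := by
  unfold qx
  rw [en_rel, ← pot_rel e (ph (ch P fun i => sp (e i)) vk z) ψ]
  congr 3
  funext x
  exact (e.sum_comp fun j => ch P sp j * vk (x j - z)).symm

theorem IonGood.rel {sp : ι' → σ} {L E0 T C : ℝ} (e : ι ≃ ι')
    (h : IonGood P (fun i => sp (e i)) L E0 T C) : IonGood P sp L E0 T C := by
  classical
  refine ⟨fun s hs z u hu => ?_, fun E1 h1 => h.up E1 fun u hu => ?_⟩
  · have := h.low s hs z _ (hu.rel_symm e)
    rwa [nr_rel, ← ion_qx_rel, rel_rel_symm] at this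
  · have := h1 _ (Tst.rel e hu)
    rwa [nr_rel, en_rel] at this

theorem ion_slice {sp : κ → σ} {L E1 : ℝ} (w : κ → ℝ) {U : X (Option κ) → ℝ}
    (hU : LocallyIntegrable U)
    (H : ∀ (z : E) (v : Wv κ Sp), Tst P sp L v →
      E1 * nr v ≤ ∑ j, w j * kin j v + pot (fun x => U (cons z x)) v)
    {u : Wv (Option κ) Sp} (hu : Nice u) (hs : ∀ t z, Tst P sp L (tl_sl u t z)) :
    E1 * nr u ≤ ∑ j, w j * kin (some j) u + pot U u := by
  have h1 := tl_pot (U := fun _ => 1) locInt_one hu.cc
  have h2 := tl_pot hU hu.cc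
  have h3 := fun j => tl_kin hu j
  have h4 : ∑ j, w j * kin (some j) u =
      ∑ t : Sp, ∫ z : E, ∑ j, w j * kin j (tl_sl u t z) := by
    rw [Finset.sum_congr rfl fun t _ => integral_finsetSum _ fun j _ =>
      ((h3 j).1 t).const_mul (w j), Finset.sum_comm]
    refine Finset.sum_congr rfl fun j _ => ?_
    rw [(h3 j).2, Finset.mul_sum]
    exact Finset.sum_congr rfl fun t _ => (integral_const_mul _ _).symm
  rw [h4, h2.2, nr, h1.2, Finset.mul_sum, ← Finset.sum_add_distrib]
  refine Finset.sum_le_sum fun t _ => ?_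
  have i1 : Integrable fun z : E => ∑ j, w j * kin j (tl_sl u t z) :=
    integrable_finsetSum _ fun j _ => ((h3 j).1 t).const_mul (w j)
  rw [← integral_const_mul, ← integral_add i1 (h2.1 t)]
  exact integral_mono ((h1.1 t).const_mul E1) (i1.add (h2.1 t)) fun z => H z _ (hs t z)

theorem ion_potl (c : Option κ → ℝ) (y : E) (x : X κ) :
    potl c none (cons y x) = c none * ph (fun j => c (some j)) vk y x := by
  rw [potl_none]
  unfold ph
  rw [Finset.mul_sum]
  refine Finset.sum_congr rfl fun j _ => ?_
  rw [cons_none, cons_some, ← vk_neg (y - x j), neg_sub, mul_assoc]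

theorem ion_kin (sp : κ → σ) (a : κ → ℝ) :
    ∑ j, (2 * P.mass (sp j))⁻¹ * a j = ∑ j, a j / (2 * P.mass (sp j)) :=
  Finset.sum_congr rfl fun j _ => by rw [div_eq_inv_mul]

/-- lower bound after adding one particle -/
theorem ion_low (hD : Dat P I mb cm cb) {sp : Option κ → σ} {L E1 T : ℝ} (hT : cb ≤ T)
    (H : ∀ s, |s| ≤ 2 * T → ∀ (z : E) (v : Wv κ Sp), Tst P (fun j => sp (some j)) L v →
      E1 * nr v ≤ qx P (fun j => sp (some j)) s z v)
    (s : ℝ) (hs : |s| ≤ T) (z : E) (u : Wv (Option κ) Sp) (hu : Tst P sp L u) :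
    (E1 - 4 * mb * (T * cb) ^ 2) * nr u ≤ qx P sp s z u := by
  have hcb : |P.charge (sp none)| ≤ cb := hD.hcb _
  have hcb0 : 0 ≤ cb := (abs_nonneg _).trans hcb
  have hph : ∀ z, LocallyIntegrable (ph (ch P fun j => sp (some j)) vk z) :=
    fun z => locInt_ph _ locInt_vk z
  have hU0 : LocallyIntegrable fun x : X (Option κ) =>
      s * ph (ch P fun j => sp (some j)) vk z (x ∘ some) := (locInt_rest (hph z)).smul s
  have step := ion_slice (E1 := E1) (fun j => (2 * P.mass (sp (some j)))⁻¹)
    (U := fun x => coulomb (fun i => P.charge (sp i)) x +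
      s * ph (ch P fun j => sp (some j)) vk z (x ∘ some))
    ((locInt_coulomb _).add hU0) (fun y v hv => by
      have hUy : (fun x : X κ => coulomb (fun i => P.charge (sp i)) (cons y x) +
          s * ph (ch P fun j => sp (some j)) vk z (cons y x ∘ some)) = fun x =>
          coulomb (fun j => P.charge (sp (some j))) x +
            P.charge (sp none) * ph (ch P fun j => sp (some j)) vk y x +
            s * ph (ch P fun j => sp (some j)) vk z x := by
        funext x
        rw [coulomb_cons, ion_potl]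
        rfl
      have h1 := H (2 * P.charge (sp none)) (by rw [abs_mul, abs_two]; linarith) y v hv
      have h2 := H (2 * s) (by rw [abs_mul, abs_two]; linarith) z v hv
      rw [hUy, pot_add (U := fun x => coulomb (fun j => P.charge (sp (some j))) x +
          P.charge (sp none) * ph (ch P fun j => sp (some j)) vk y x)
        (U' := fun x => s * ph (ch P fun j => sp (some j)) vk z x)
        ((locInt_coulomb _).add ((hph y).smul (P.charge (sp none)))) ((hph z).smul s) hv.nice.cc,
        pot_add (U' := fun x => P.charge (sp none) * ph (ch P fun j => sp (some j)) vk y x)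
          (locInt_coulomb _) ((hph y).smul (P.charge (sp none))) hv.nice.cc,
        pot_const_mul, pot_const_mul, ion_kin (fun j => sp (some j))]
      unfold qx en at h1 h2
      linarith) hu.nice (tl_tst hu)
  have hsplit : ph (ch P sp) vk z = fun x => P.charge (sp none) * vk (x none - z) +
      ph (ch P fun j => sp (some j)) vk z (x ∘ some) := by
    funext x
    unfold ph
    rw [Fintype.sum_option]
    rfl
  have h4 := tl_opt (a := T * cb) (kin_nonneg none u) (mul_nonneg (hcb0.trans hT) hcb0)
    (hD.mpos (sp none)) (hD.hmb (sp none)) fun δ hδ => hyd hu.nice none z hδ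
  have h5 : 0 ≤ pot (fun x : X (Option κ) => vk (x none - z)) u :=
    pot_nonneg (fun _ => vk_nonneg _) u
  have h6 : |s * P.charge (sp none)| ≤ T * cb := by
    rw [abs_mul]
    exact mul_le_mul hs hcb (abs_nonneg _) (hcb0.trans hT)
  have h7 := mul_le_mul_of_nonneg_right ((neg_le_neg h6).trans (neg_abs_le _)) h5
  have h8 : kin none u / (4 * P.mass (sp none)) ≤ kin none u / (2 * P.mass (sp none)) := by
    have := hD.mpos (sp none)
    exact div_le_div_of_nonneg_left (kin_nonneg _ _) (by positivity) (by linarith)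
  rw [pot_add (U' := fun x : X (Option κ) => s * ph (ch P fun j => sp (some j)) vk z (x ∘ some))
    (locInt_coulomb _) hU0 hu.nice.cc, pot_const_mul, ion_kin (fun j => sp (some j))] at step
  unfold qx en
  rw [hsplit, pot_add (U := fun x : X (Option κ) => P.charge (sp none) * vk (x none - z))
    ((locInt_one_body none locInt_vk z).smul (P.charge (sp none))) (locInt_rest (hph z))
    hu.nice.cc, pot_const_mul, Fintype.sum_option]
  linarith

/-- energy of a product state -/
theorem ion_tens {sp : Option κ → σ} {L E1 : ℝ}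
    (H : ∀ (z : E) (v : Wv κ Sp), Tst P (fun j => sp (some j)) L v →
      E1 * nr v ≤ qx P (fun j => sp (some j)) (-P.charge (sp none)) z v)
    {f : Sp → E → ℂ} (hf : Nice f) (hf1 : nr f = 1) {φ : Wv κ Sp}
    (hφ : Tst P (fun j => sp (some j)) L φ) :
    en P sp (tens f φ) ≤ kin1 f / (2 * P.mass (sp none)) * nr φ +
      2 * en P (fun j => sp (some j)) φ - E1 * nr φ := by
  have hn := hφ.nice
  have hph : ∀ z, LocallyIntegrable (ph (ch P fun j => sp (some j)) vk z) :=
    fun z => locInt_ph _ locInt_vk z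
  have hU0 : LocallyIntegrable fun x : X (Option κ) =>
      (-1) * potl (fun i => P.charge (sp i)) none x := (locInt_potl _ _).smul (-1 : ℝ)
  have step := ion_slice (E1 := E1) (fun j => (2 * P.mass (sp (some j)))⁻¹)
    (U := fun x => coulomb (fun j => P.charge (sp (some j))) (x ∘ some) +
      (-1) * potl (fun i => P.charge (sp i)) none x)
    ((locInt_rest (locInt_coulomb _)).add hU0) (fun y v hv => by
      have hUy : (fun x : X κ => coulomb (fun j => P.charge (sp (some j))) (cons y x ∘ some) +
          (-1) * potl (fun i => P.charge (sp i)) none (cons y x)) = fun x =>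
          coulomb (fun j => P.charge (sp (some j))) x +
            (-P.charge (sp none)) * ph (ch P fun j => sp (some j)) vk y x := by
        funext x
        rw [ion_potl, cons_comp_some]
        ring
      have h1 := H y v hv
      rw [hUy, pot_add (U' := fun x => (-P.charge (sp none)) *
          ph (ch P fun j => sp (some j)) vk y x)
          (locInt_coulomb _) ((hph y).smul (-P.charge (sp none))) hv.nice.cc,
        pot_const_mul, ion_kin (fun j => sp (some j))]
      unfold qx en at h1
      linarith) (hf.tens hn) (fun t z => hφ.smul (f t z))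
  have h1 : kin none (tens f φ) = kin1 f * nr φ := by
    simp only [kin, kin1, Dv_tens_none hf hn, nr_tens (hf.dv _).cc hn.cc, Finset.sum_mul]
  have h2 : ∀ j, kin (some j) (tens f φ) = kin j φ := by
    intro j
    simp only [kin, Dv_tens_some hf hn, nr_tens hf.cc (hn.dv _).cc, hf1, one_mul]
  have h4 : (coulomb fun i => P.charge (sp i)) = fun x =>
      coulomb (fun j => P.charge (sp (some j))) (x ∘ some) +
        potl (fun i => P.charge (sp i)) none x := funext fun x => coulomb_cons _ x
  rw [pot_add (U' := fun x : X (Option κ) => (-1) * potl (fun i => P.charge (sp i)) none x)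
    (locInt_rest (locInt_coulomb _)) hU0 (hf.tens hn).cc, pot_const_mul,
    pot_tens_rest (locInt_coulomb _) hf.cc hn.cc, nr_tens hf.cc hn.cc, hf1,
    ion_kin (fun j => sp (some j))] at step
  unfold en
  rw [h4, pot_add (locInt_rest (locInt_coulomb _)) (locInt_potl _ _) (hf.tens hn).cc,
    pot_tens_rest (locInt_coulomb _) hf.cc hn.cc, Fintype.sum_option, h1, hf1]
  simp only [h2] at step ⊢
  have h5 : kin1 f * nr φ / (2 * P.mass (sp none)) = kin1 f / (2 * P.mass (sp none)) * nr φ := by
    ring
  linarith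

/-- one more particle -/
theorem IonGood.step (hD : Dat P I mb cm cb) {sp : Option κ → σ} {L E0 T C l D : ℝ} (hT : cb ≤ T)
    (hC : 0 ≤ C) (h : IonGood P (fun j => sp (some j)) L E0 (2 * T) C) (hl : 0 < l) {f : E → ℂ}
    (hf : Orb l f) (hDl : ∀ z, ‖fderiv ℝ (bp hl) z‖ ≤ D) {Y : Type} [Fintype Y] [DecidableEq Y]
    {c : Y → E} (hg : Grid l c (Fintype.card κ)) (hin : ∀ y, ‖c y‖ + l < L / 2) :
    IonGood P sp L E0 T (3 * C + 4 * mb * (T * cb) ^ 2 + k0 f * I + 6 * D ^ 2 * I) := by
  classical
  have hm0 := hD.mpos (sp none)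
  have hI0 : 0 ≤ I := le_trans (by positivity) (hD.hI (sp none))
  have hmb0 : 0 ≤ mb := hm0.le.trans (hD.hmb _)
  have hcb : |P.charge (sp none)| ≤ cb := hD.hcb _
  have hk := mul_nonneg (k0_nonneg f) hI0
  have hk2 : 0 ≤ 6 * D ^ 2 * I := by positivity
  have hk3 : 0 ≤ 4 * mb * (T * cb) ^ 2 := by positivity
  refine ⟨fun s hs z u hu => ?_, fun E1 h1 => ?_⟩
  · exact le_trans (mul_le_mul_of_nonneg_right (by linarith) (nr_nonneg u))
      (ion_low hD hT h.low s hs z u hu)
  · obtain ⟨t0, ht0⟩ := hD.spin (sp none)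
    have h2 := h.up ((E1 + E0 - C - k0 f * I - 6 * D ^ 2 * I) / 2) fun ψ hψ => by
      have hT' : ∀ y, Tst P (fun j => sp (some j)) L (mulF (Gt hl c y) ψ) := fun y =>
        Tst.mulF hψ (hg.contDiff hl y) fun i j x => Gt_rel hl c y _ x
      have hn : ∑ y, nr (mulF (Gt hl c y) ψ) = nr ψ :=
        pot_part (fun y => (hg.contDiff hl y).continuous) (hg.sum_sq hl) locInt_one hψ.nice.cc
      have he := en_split hD.mpos hD.hI hI0 (fun j => sp (some j)) hl hg hDl hψ.nice
      have hy : ∀ y, (E1 + E0 - C - k0 f * I) * nr (mulF (Gt hl c y) ψ) ≤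
          2 * en P (fun j => sp (some j)) (mulF (Gt hl c y) ψ) := by
        intro y
        have hadm := hf.adm (P := P) ht0 (hin y)
        have hsupp : ∀ t z, fy f t0 (c y) t z ≠ 0 → ‖z - c y‖ ≤ l :=
          fun t z hz => hf.supp _ (fy_ne hz).2
        have hh := hole_mulF hl c y (fun j => sp (some j)) (sp none) ψ
        have a1 := h1 (insT P sp (fy f t0 (c y)) (mulF (Gt hl c y) ψ))
          ((Tst.cre hadm (hT' y)).smul _)
        rw [en_insT hl hadm.nice hsupp (hT' y).nice hh, nr,
          pot_insT hl hadm.nice.cc hsupp (hT' y).nice.cc hh locInt_one fun _ _ _ => rfl, ← nr,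
          nr_tens hadm.nice.cc (hT' y).nice.cc, hf.nr_fy, one_mul] at a1
        have a2 := ion_tens (sp := sp) (E1 := E0 - C) (fun z v hv => h.low _ (by
          rw [abs_neg]; linarith [abs_nonneg (P.charge (sp none))]) z v hv) hadm.nice
          (hf.nr_fy t0 _) (hT' y)
        rw [kin1_fy] at a2
        have a3 := mul_le_mul_of_nonneg_right (mul_le_mul_of_nonneg_left (hD.hI (sp none))
          (k0_nonneg f)) (nr_nonneg (mulF (Gt hl c y) ψ))
        rw [mul_one_div] at a3
        linarith
      have h3 := Finset.sum_le_sum fun y (_ : y ∈ Finset.univ) => hy y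
      rw [← Finset.mul_sum, ← Finset.mul_sum, hn] at h3
      linarith
    linarith

end

end Pool.Agent.Lib.MP_0655ed_mp
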