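import Pool.Agent.Lib.MP_0655ed_mp.Ion2

open Finset MeasureTheory Real Filter Topology

set_option linter.unusedSectionVars false

namespace Pool.Agent.Lib.MP_0655ed_mp

variable {σ Sp : Type} [Fintype σ] [DecidableEq σ] [Fintype Sp] {P : Species σ Sp}
  {I mb cm cb : ℝ}

theorem ion_ne {n : σ → ℕ} (hn : n ≠ 0) : Nonempty ((s : σ) × Fin (n s)) := by
  obtain ⟨s0, hs0⟩ := Function.ne_iff.mp hn
  exact ⟨⟨s0, ⟨0, Nat.pos_of_ne_zero hs0⟩⟩⟩

theorem ion_one {n : σ → ℕ} (hn : n ≠ 0) : 1 ≤ ∑ s, n s := by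
  obtain ⟨s, hs⟩ := Function.ne_iff.mp hn
  exact (Nat.pos_of_ne_zero hs).trans_le
    (Finset.single_le_sum (f := n) (fun _ _ => Nat.zero_le _) (Finset.mem_univ s))

theorem ion_base (hD : Dat P I mb cm cb) {A : ℝ} (hA : Stb P A)
    (hf : ∀ s, P.charge s < 0 → P.fermion s = true) {ρ T : ℝ} (hρ : 0 < ρ) (hT : 0 < T) :
    ∃ C : ℝ, 0 ≤ C ∧ ∀ n : σ → ℕ, n ≠ 0 → ∑ s, n s * P.charge s = 0 → ∀ L : ℝ, 14 ≤ L →
      ((∑ s, n s : ℕ) : ℝ) ≤ ρ * L ^ 3 →
      IonGood (ι := (s : σ) × Fin (n s)) P Sigma.fst L (eig P L n 0) T C := by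
  classical
  obtain ⟨K0, hcore⟩ := ion_core hD hA hf hρ hT
  obtain ⟨C, hC⟩ := ion_tilt hD hA hT hcore
  refine ⟨|C|, abs_nonneg C, fun n hn hneu L hL hL3 => ?_⟩
  have hL0 : 0 < L := by linarith
  have hne := ion_ne hn
  have hcard : Fintype.card ((s : σ) × Fin (n s)) = ∑ s, n s := by simp
  have h1 := hC ((s : σ) × Fin (n s)) Sigma.fst L hL hne (by rw [hcard]; exact hL3) (by
    rw [← hneu, Fintype.sum_sigma]
    simp [ch]) _ ((tSys P Sigma.fst L).lam_zero_le (hA _ Sigma.fst L hL0))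
  rw [eig_eq P hL0]
  refine ⟨fun s hs z u hu => ?_, fun E1 hE1 => ?_⟩
  · have a1 := h1 T (abs_of_pos hT) z u hu
    have a2 := h1 (-T) (by rw [abs_neg, abs_of_pos hT]) z u hu
    have a3 := mul_le_mul_of_nonneg_right (le_abs_self C) (nr_nonneg u)
    rw [abs_le] at hs
    unfold qx at a1 a2 ⊢
    generalize pot (ph (ch P Sigma.fst) vk z) u = p at a1 a2 ⊢
    rcases le_total 0 p with hp | hp
    · have := mul_le_mul_of_nonneg_right hs.1 hp
      linarith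
    · have := mul_le_mul_of_nonpos_right hs.2 hp
      linarith
  · have := (tSys P Sigma.fst L).le_lam_zero hE1 (exists_dim hD.spin Sigma.fst hL0 0)
    linarith [abs_nonneg C]

theorem ion_ind (hD : Dat P I mb cm cb) {A : ℝ} (hA : Stb P A)
    (hf : ∀ s, P.charge s < 0 → P.fermion s = true) {ρ : ℝ} (hρ : 0 < ρ) (k : ℕ) :
    ∀ T : ℝ, 0 < T → cb ≤ T → ∃ C : ℝ, 0 ≤ C ∧ ∀ n : σ → ℕ, n ≠ 0 →
      ∑ s, n s * P.charge s = 0 → ∀ L : ℝ, 14 ≤ L → ((∑ s, n s : ℕ) : ℝ) ≤ ρ * L ^ 3 →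
      ∀ n' : σ → ℕ, n ≤ n' → ∑ s, n' s ≤ ∑ s, n s + k →
      IonGood (ι := (s : σ) × Fin (n' s)) P Sigma.fst L (eig P L n 0) T C := by
  classical
  induction k with
  | zero =>
    intro T hT _
    obtain ⟨C, hC0, hC⟩ := ion_base hD hA hf hρ hT
    refine ⟨C, hC0, fun n hn hneu L hL hL3 n' hle hsum => ?_⟩
    have h1 : ∑ s, n s = ∑ s, n' s :=
      le_antisymm (Finset.sum_le_sum fun s _ => hle s) (by simpa using hsum)
    obtain rfl : n = n' := funext fun s =>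
      (Finset.sum_eq_sum_iff_of_le fun s _ => hle s).mp h1 s (Finset.mem_univ s)
    exact hC n hn hneu L hL hL3
  | succ k ih =>
    intro T hT hcb
    obtain ⟨C, hC0, hC⟩ := ih (2 * T) (by linarith) (by linarith)
    obtain ⟨l, hl, -, hgrid⟩ := ion_grid (ρ := ρ * (k + 1)) (by positivity)
    obtain ⟨f, hfo⟩ := exists_orb hl
    obtain ⟨D, hDl⟩ := exists_D hl
    refine ⟨max C (3 * C + 4 * mb * (T * cb) ^ 2 + k0 f * I + 6 * D ^ 2 * I),
      hC0.trans (le_max_left _ _), fun n hn hneu L hL hL3 n' hle hsum => ?_⟩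
    by_cases hk : ∑ s, n' s ≤ ∑ s, n s + k
    · have h1 := hC n hn hneu L hL hL3 n' hle hk
      exact IonGood.mono ⟨fun s hs => h1.low s (by linarith), h1.up⟩ (le_max_left _ _)
    · obtain ⟨a, ha⟩ : ∃ a, n a < n' a := by
        by_contra hcon
        push Not at hcon
        have := Finset.sum_le_sum fun s (_ : s ∈ Finset.univ) => hcon s
        omega
      obtain ⟨n2, hn2, hle2⟩ : ∃ n2 : σ → ℕ, n' = n2 + Pi.single a 1 ∧ n ≤ n2 := by
        refine ⟨n' - Pi.single a 1, funext fun s => ?_, fun s => ?_⟩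
        · simp only [Pi.add_apply, Pi.sub_apply, Pi.single_apply]
          split_ifs with h
          · subst h; omega
          · omega
        · have := hle s
          simp only [Pi.sub_apply, Pi.single_apply]
          split_ifs with h
          · subst h; omega
          · omega
      have hs2 : ∑ s, n' s = ∑ s, n2 s + 1 := by
        rw [hn2]
        simp [Finset.sum_add_distrib]
      have hk2 : ∑ s, n2 s ≤ ∑ s, n s + k := by omega
      have h1 := hC n hn hneu L hL hL3 n2 hle2 hk2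
      have hcard : Fintype.card ((s : σ) × Fin (n2 s)) = ∑ s, n2 s := by simp
      obtain ⟨m, c, hg, hin⟩ := hgrid L (∑ s, n2 s) hL (by
        have b1 : (1 : ℝ) ≤ (∑ s, n s : ℕ) := by exact_mod_cast ion_one hn
        have b2 : ((∑ s, n2 s : ℕ) : ℝ) ≤ (∑ s, n s : ℕ) + k := by exact_mod_cast hk2
        have b3 : (0 : ℝ) ≤ k := Nat.cast_nonneg k
        nlinarith)
      let sp : Option ((s : σ) × Fin (n2 s)) → σ := cons a Sigma.fst
      obtain ⟨e, he⟩ := exists_equiv sp n' fun s => by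
        rw [Fintype.card_subtype, Finset.card_filter, Fintype.sum_option]
        simp only [sp, cons_none, cons_some, hn2, Pi.add_apply, Pi.single_apply]
        erw [card_fiber]
        simp only [eq_comm (a := s)]
        by_cases h : a = s <;> simp [h, add_comm]
      have h3 : (fun i => (e i).1) = sp := funext he
      have h2 := IonGood.step (sp := sp) hD hcb hC0 h1 hl hfo hDl (by rw [hcard]; exact hg) hin
      refine IonGood.mono (IonGood.rel (sp := Sigma.fst) e ?_) (le_max_right _ _)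
      rw [h3]
      exact h2

theorem ion_add_neg (hm : ∀ s, 0 < P.mass s) (hs : ∀ s, (P.spins s).Nonempty)
    (hc : ∀ s, P.charge s ≠ 0) (hf : ∀ s, P.charge s < 0 → P.fermion s = true)
    {A : ℝ} (hA : Stable P A) {ρ : ℝ} (hρ : 0 < ρ) (k : ℕ) :
    ∃ C : ℝ, ∀ n : σ → ℕ, n ≠ 0 → ∑ s, n s * P.charge s = 0 → ∀ L : ℝ, 14 ≤ L →
      ((∑ s, n s : ℕ) : ℝ) ≤ ρ * L ^ 3 → ∀ n' : σ → ℕ, n ≤ n' → ∑ s, n' s ≤ ∑ s, n s + k →
      |eig P L n' 0 - eig P L n 0| ≤ C := by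
  classical
  obtain ⟨I, mb, cm, cb, hD⟩ := exists_dat hm hs hc
  obtain ⟨C, -, hC⟩ := ion_ind hD hA.stb hf hρ k (max cb 1) (lt_max_of_lt_right one_pos)
    (le_max_left _ _)
  refine ⟨C, fun n hn hneu L hL hL3 n' hle hsum => ?_⟩
  have h := hC n hn hneu L hL hL3 n' hle hsum
  have hL0 : 0 < L := by linarith
  have hn' : n' ≠ 0 := fun h0 => hn (le_antisymm (h0 ▸ hle) zero_le)
  have hne := ion_ne hn'
  have h1 := h.up _ ((tSys P Sigma.fst L).lam_zero_le (hA.stb _ Sigma.fst L hL0))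
  have h2 := (tSys (ι := (s : σ) × Fin (n' s)) P Sigma.fst L).le_lam_zero
    (E := eig P L n 0 - C) (fun u hu => by
      have := h.low 0 (by simp) 0 u hu
      unfold qx at this
      rw [zero_mul, add_zero] at this
      exact this) (exists_dim hs Sigma.fst hL0 0)
  rw [eig_eq P hL0 n', abs_le]
  constructor <;> linarith

theorem ion_add (hm : ∀ s, 0 < P.mass s) (hs : ∀ s, (P.spins s).Nonempty)
    (hc : ∀ s, P.charge s ≠ 0) {A : ℝ} (hA : Stable P A) {ρ : ℝ} (hρ : 0 < ρ) (k : ℕ) :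
    ∃ C : ℝ, ∀ n : σ → ℕ, n ≠ 0 → ∑ s, n s * P.charge s = 0 → ∀ L : ℝ, 14 ≤ L →
      ((∑ s, n s : ℕ) : ℝ) ≤ ρ * L ^ 3 → ∀ n' : σ → ℕ, n ≤ n' → ∑ s, n' s ≤ ∑ s, n s + k →
      |eig P L n' 0 - eig P L n 0| ≤ C := by
  rcases one_sign hm hs hA with hf | hf
  · exact ion_add_neg hm hs hc hf hA hρ k
  · let Q : Species σ Sp := ⟨fun s => -P.charge s, P.mass, P.fermion, P.spins⟩
    have hen : ∀ n : σ → ℕ, energy (ι := (s : σ) × Fin (n s)) Q Sigma.fst =
        energy P Sigma.fst := by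
      intro n
      funext ψ
      simp only [energy, coulomb, Q, neg_mul_neg]
    have hT : ∀ (n : σ → ℕ) (L : ℝ), IsTest (ι := (s : σ) × Fin (n s)) Q Sigma.fst L =
        IsTest P Sigma.fst L := fun _ _ => rfl
    have heig : ∀ L n k, eig Q L n k = eig P L n k := by
      intro L n k
      unfold eig
      rw [hen, hT]
    have hQ : Stable Q A := fun L hL n ψ hψ => by
      rw [hen]
      exact hA L hL n ψ hψ
    obtain ⟨C, hC⟩ := ion_add_neg (P := Q) hm hs (fun s => neg_ne_zero.mpr (hc s))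
      (fun s h => hf s (neg_lt_zero.mp h)) hQ hρ k
    refine ⟨C, fun n hn hneu L hL hL3 n' hle hsum => ?_⟩
    have := hC n hn (by
      show ∑ s, n s * -P.charge s = 0
      simp only [mul_neg, Finset.sum_neg_distrib, hneu, neg_zero]) L hL hL3 n' hle hsum
    rwa [heig, heig] at this

/-- boundedly many particles -/
theorem ion_small (hs : ∀ s, (P.spins s).Nonempty) {A : ℝ} (hA : Stable P A) {L1 : ℝ}
    (hL1 : 0 < L1) (M : ℕ) : ∃ C : ℝ, ∀ n : σ → ℕ, n ≠ 0 → ∑ s, n s ≤ M → ∀ L : ℝ, L1 ≤ L →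
      |eig P L n 0| ≤ C := by
  classical
  refine ⟨|A| * M + ∑ n ∈ Fintype.piFinset fun _ : σ => Finset.range (M + 1), |eig P L1 n 0|,
    fun n hn hM L hL => ?_⟩
  have hL0 : 0 < L := hL1.trans_le hL
  have hne := ion_ne hn
  have hcard : Fintype.card ((s : σ) × Fin (n s)) = ∑ s, n s := by simp
  have h1 := (tSys (ι := (s : σ) × Fin (n s)) P Sigma.fst L).le_lam_zero
    (hA.stb _ Sigma.fst L hL0) (exists_dim hs Sigma.fst hL0 0)
  have h2 := (tSys (ι := (s : σ) × Fin (n s)) P Sigma.fst L1).le_lam_zero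
    (E := (tSys (ι := (s : σ) × Fin (n s)) P Sigma.fst L).lam 0) (fun u hu => by
      have hu' : Tst P Sigma.fst L1 u := hu
      obtain ⟨r, hr, hsu⟩ := hu'.supp
      exact (tSys P Sigma.fst L).lam_zero_le (hA.stb _ Sigma.fst L hL0) u
        (show Tst P Sigma.fst L u from ⟨hu'.smooth, ⟨r, by linarith, hsu⟩, hu'.spin, hu'.sym⟩))
    (exists_dim hs Sigma.fst hL1 0)
  rw [← eig_eq P hL0] at h1 h2
  rw [← eig_eq P hL1] at h2
  rw [hcard] at h1
  have h3 : |eig P L1 n 0| ≤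
      ∑ n ∈ Fintype.piFinset fun _ : σ => Finset.range (M + 1), |eig P L1 n 0| := by
    refine Finset.single_le_sum (f := fun n => |eig P L1 n 0|) (fun _ _ => abs_nonneg _) ?_
    rw [Fintype.mem_piFinset]
    intro s
    have := Finset.single_le_sum (f := n) (fun _ _ => Nat.zero_le _) (Finset.mem_univ s)
    rw [Finset.mem_range]
    omega
  have h4 : ((∑ s, n s : ℕ) : ℝ) ≤ M := by exact_mod_cast hM
  have h5 := mul_le_mul (le_abs_self A) h4 (Nat.cast_nonneg _) (abs_nonneg A)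
  have h6 : 0 ≤ |A| * M := by positivity
  have h7 := le_abs_self (eig P L1 n 0)
  have h8 := abs_nonneg (eig P L1 n 0)
  rw [abs_le]
  constructor <;> linarith

/-- every small part of a neutral configuration lies in a neutral part of bounded size -/
theorem ion_dickson (c : σ → ℝ) (k : ℕ) : ∃ B : ℕ, ∀ n r : σ → ℕ, ∑ s, n s * c s = 0 → r ≤ n →
    (∀ s, r s ≤ k) → ∃ g : σ → ℕ, ∑ s, g s * c s = 0 ∧ r ≤ g ∧ g ≤ n ∧ ∑ s, g s ≤ B := by
  classical
  have h1 : ∀ r : σ → ℕ, ∃ B : ℕ, ∀ n : σ → ℕ, ∑ s, n s * c s = 0 → r ≤ n →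
      ∃ g : σ → ℕ, ∑ s, g s * c s = 0 ∧ r ≤ g ∧ g ≤ n ∧ ∑ s, g s ≤ B := by
    intro r
    have hp : ∀ S : Set (σ → ℕ), S.IsPWO := fun S => Set.isPWO_of_wellQuasiOrderedLE S
    have hfin : {g | Minimal (· ∈ {g : σ → ℕ | ∑ s, g s * c s = 0 ∧ r ≤ g}) g}.Finite :=
      (setOfPred_minimal_antichain _).finite_of_partiallyWellOrderedOn (hp _)
    refine ⟨∑ g ∈ hfin.toFinset, ∑ s, g s, fun n hn hr => ?_⟩
    obtain ⟨g, hg, hmin⟩ := (hp {g : σ → ℕ | ∑ s, g s * c s = 0 ∧ r ≤ g}).exists_le_minimal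
      (a := n) ⟨hn, hr⟩
    exact ⟨g, hmin.prop.1, hmin.prop.2, hg, Finset.single_le_sum (f := fun g : σ → ℕ => ∑ s, g s)
      (fun _ _ => Nat.zero_le _) (hfin.mem_toFinset.mpr hmin)⟩
  choose B hB using h1
  refine ⟨∑ r ∈ Fintype.piFinset fun _ : σ => Finset.range (k + 1), B r, fun n r hn hr hk => ?_⟩
  obtain ⟨g, h1, h2, h3, h4⟩ := hB r n hn hr
  refine ⟨g, h1, h2, h3, h4.trans (Finset.single_le_sum (f := B) (fun _ _ => Nat.zero_le _) ?_)⟩
  rw [Fintype.mem_piFinset]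
  intro s
  rw [Finset.mem_range]
  exact Nat.lt_succ_of_le (hk s)

theorem ion_final (hm : ∀ s, 0 < P.mass s) (hs : ∀ s, (P.spins s).Nonempty)
    (hc : ∀ s, P.charge s ≠ 0) {A : ℝ} (hA : Stable P A) {ρ : ℝ} (hρ : 0 < ρ) (k : ℕ) :
    ∃ C : ℝ, ∀ n n' : σ → ℕ, n ≠ 0 → n' ≠ 0 → ∑ s, n s * P.charge s = 0 →
      (∀ s, n' s ≤ n s + k ∧ n s ≤ n' s + k) → ∀ L : ℝ, 0 < L →
      ((∑ s, n s : ℕ) : ℝ) ≤ ρ * L ^ 3 → |eig P L n' 0 - eig P L n 0| ≤ C := by
  classical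
  obtain ⟨B, hB⟩ := ion_dickson P.charge k
  obtain ⟨C1, hC1⟩ := ion_add hm hs hc hA hρ (B + Fintype.card σ * k)
  obtain ⟨C2, hC2⟩ := ion_small hs hA (L1 := min 1 (1 / ρ)) (lt_min one_pos (by positivity))
    (B + ⌈ρ * 14 ^ 3⌉₊ + Fintype.card σ * k)
  refine ⟨max (2 * C1) (2 * C2), fun n n' hn hn' hneu hk L hL hL3 => ?_⟩
  have hsum : ∑ s, n' s ≤ ∑ s, n s + Fintype.card σ * k := by
    have := Finset.sum_le_sum fun s (_ : s ∈ Finset.univ) => (hk s).1
    rwa [Finset.sum_add_distrib, Finset.sum_const, Finset.card_univ, smul_eq_mul] at this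
  obtain ⟨g, hg0, hrg, hgn, hgB⟩ := hB n (n - n') hneu (fun s => Nat.sub_le _ _) fun s => by
    have := (hk s).2
    simp only [Pi.sub_apply]
    omega
  obtain ⟨n0, rfl⟩ : ∃ n0, n = n0 + g := ⟨n - g, funext fun s => (Nat.sub_add_cancel (hgn s)).symm⟩
  have hs0 : ∑ s, (n0 + g) s = ∑ s, n0 s + ∑ s, g s := by simp [Finset.sum_add_distrib]
  by_cases hbig : n0 ≠ 0 ∧ 14 ≤ L
  · have hneu0 : ∑ s, n0 s * P.charge s = 0 := by
      simp only [Pi.add_apply, Nat.cast_add, add_mul, Finset.sum_add_distrib, hg0,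
        add_zero] at hneu
      exact hneu
    have hL0 : ((∑ s, n0 s : ℕ) : ℝ) ≤ ρ * L ^ 3 :=
      le_trans (by exact_mod_cast (by omega : ∑ s, n0 s ≤ ∑ s, (n0 + g) s)) hL3
    have h1 := hC1 n0 hbig.1 hneu0 L hbig.2 hL0 (n0 + g) (fun s => Nat.le_add_right _ _) (by omega)
    have h2 := hC1 n0 hbig.1 hneu0 L hbig.2 hL0 n' (fun s => by
      have : n0 s + g s - n' s ≤ g s := hrg s
      show n0 s ≤ n' s
      omega) (by omega)
    rw [abs_le] at h1 h2 ⊢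
    constructor <;> linarith [le_max_left (2 * C1) (2 * C2), h1.1, h1.2, h2.1, h2.2]
  · have hN : ∑ s, (n0 + g) s ≤ B + ⌈ρ * 14 ^ 3⌉₊ := by
      rcases not_and_or.mp hbig with h | h
      · rw [not_not.mp h] at hs0 ⊢
        simp only [Pi.zero_apply, Finset.sum_const_zero, zero_add] at hs0 ⊢
        omega
      · have h1 : L ^ 3 ≤ 14 ^ 3 := pow_le_pow_left₀ hL.le (not_le.mp h).le 3
        have h2 : ((∑ s, (n0 + g) s : ℕ) : ℝ) ≤ (⌈ρ * 14 ^ 3⌉₊ : ℕ) :=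
          (hL3.trans (mul_le_mul_of_nonneg_left h1 hρ.le)).trans (Nat.le_ceil _)
        have h3 : ∑ s, (n0 + g) s ≤ ⌈ρ * 14 ^ 3⌉₊ := by exact_mod_cast h2
        omega
    have hL1 : min 1 (1 / ρ) ≤ L := by
      by_contra hcon
      rw [not_le, lt_min_iff, lt_div_iff₀ hρ] at hcon
      have b1 : (1 : ℝ) ≤ (∑ s, (n0 + g) s : ℕ) := by exact_mod_cast ion_one hn
      have b2 : L ^ 3 ≤ L ^ 1 := pow_le_pow_of_le_one hL.le hcon.1.le (by norm_num)
      have b3 := mul_le_mul_of_nonneg_left b2 hρ.le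
      rw [pow_one] at b3
      linarith [hcon.2]
    have h1 := hC2 (n0 + g) hn (by omega) L hL1
    have h2 := hC2 n' hn' (by omega) L hL1
    rw [abs_le] at h1 h2 ⊢
    constructor <;> linarith [le_max_right (2 * C1) (2 * C2), h1.1, h1.2, h2.1, h2.2]

end Pool.Agent.Lib.MP_0655ed_mp
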