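import Pool.Agent.Lib.MP_0655ed_mp.Gen

open scoped ComplexConjugate
open Finset MeasureTheory

set_option linter.unusedSectionVars false
set_option maxHeartbeats 1000000

namespace Pool.Agent.Lib.MP_0655ed_mp

variable {σ Sp ι ι' κ Y : Type} [Fintype κ] [DecidableEq κ] [Fintype Sp] [DecidableEq Sp]
  [DecidableEq σ] [Fintype ι] [DecidableEq ι] [Fintype ι'] [DecidableEq ι'] [Fintype Y]
  [DecidableEq Y]

structure Spec (P : Species σ Sp) (sp : ι → σ) (L β Z E0 : ℝ) : Prop where
  bd : (tSys P sp L).Bd β Z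
  min : ∀ Z', (tSys P sp L).Bd β Z' → Z ≤ Z'
  pos : 0 < Z
  gb : ∀ ψ, Tst P sp L ψ → E0 * nr ψ ≤ en P sp ψ
  max : ∀ E', (∀ ψ, Tst P sp L ψ → E' * nr ψ ≤ en P sp ψ) → E' ≤ E0

theorem bd_rel {P : Species σ Sp} {sp : ι' → σ} {L β Z : ℝ} (e : ι ≃ ι')
    (h : (tSys P (fun i => sp (e i)) L).Bd β Z) : (tSys P sp L).Bd β Z := by
  intro m u hu
  have := h m (fun k => rel e.symm (u k))
    ⟨fun k => Tst.rel_symm e (hu.1 k), fun k l => (ip_rel e.symm _ _).trans (hu.2 k l)⟩
  refine le_trans (le_of_eq (Finset.sum_congr rfl fun k _ => ?_)) this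
  show Real.exp (-β * en P sp (u k)) = Real.exp (-β * en P _ (rel e.symm (u k)))
  rw [en_rel_symm]

theorem gb_rel {P : Species σ Sp} {sp : ι' → σ} {L E0 : ℝ} (e : ι ≃ ι')
    (h : ∀ ψ, Tst P (fun i => sp (e i)) L ψ → E0 * nr ψ ≤ en P (fun i => sp (e i)) ψ) :
    ∀ ψ, Tst P sp L ψ → E0 * nr ψ ≤ en P sp ψ := fun ψ hψ => by
  have := h _ (hψ.rel_symm e)
  rwa [nr_rel, en_rel_symm] at this

theorem Spec.rel {P : Species σ Sp} {sp : ι' → σ} {L β Z E0 : ℝ} (e : ι ≃ ι')
    (h : Spec P (fun i => sp (e i)) L β Z E0) : Spec P sp L β Z E0 :=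
  ⟨bd_rel e h.bd, fun Z' hZ => h.min Z' (bd_rel e.symm (by simpa using hZ)), h.pos,
    gb_rel e h.gb, fun E' hE => h.max E' (gb_rel e.symm (by simpa using hE))⟩

theorem spec_lam {P : Species σ Sp} (hm : ∀ s, 0 < P.mass s) (hs : ∀ s, (P.spins s).Nonempty)
    {A : ℝ} (hA : Stb P A) [Nonempty ι] (sp : ι → σ) {L β : ℝ} (hL : 0 < L) (hβ : 0 < β) :
    Summable (fun k => Real.exp (-β * (tSys P sp L).lam k)) ∧
    Spec P sp L β (∑' k, Real.exp (-β * (tSys P sp L).lam k)) ((tSys P sp L).lam 0) := by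
  obtain ⟨Z, hZ⟩ := exists_bd hm hA hL hβ _ ι sp rfl
  have hd := exists_dim hs sp hL
  have h1 := ((tSys P sp L).summable_of_Bd hβ.le hZ hd).1
  exact ⟨h1, (tSys P sp L).Bd_tsum hβ.le (hA ι sp L hL) h1,
    fun Z' hZ' => ((tSys P sp L).summable_of_Bd hβ.le hZ' hd).2,
    h1.tsum_pos (fun _ => (Real.exp_pos _).le) 0 (Real.exp_pos _),
    (tSys P sp L).lam_zero_le (hA ι sp L hL), fun E' hE => (tSys P sp L).le_lam_zero hE (hd 0)⟩

theorem jensen {J : Type} [Fintype J] (w t : J → ℝ) (hw : ∀ k, 0 ≤ w k) (hS : 0 < ∑ k, w k)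
    {B : ℝ} (h : ∑ k, w k * Real.exp (t k) ≤ B) :
    Real.log (∑ k, w k) + (∑ k, w k * t k) / (∑ k, w k) ≤ Real.log B := by
  set S := ∑ k, w k
  set m := (∑ k, w k * t k) / S with hm
  have h1 : S * Real.exp m ≤ ∑ k, w k * Real.exp (t k) := by
    have h2 : ∀ k, w k * (Real.exp m * (1 + t k - m)) ≤ w k * Real.exp (t k) := by
      intro k
      refine mul_le_mul_of_nonneg_left ?_ (hw k)
      have h3 := Real.add_one_le_exp (t k - m)
      calc _ ≤ Real.exp m * Real.exp (t k - m) :=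
            mul_le_mul_of_nonneg_left (by linarith) (Real.exp_pos _).le
        _ = _ := by rw [← Real.exp_add]; congr 1; ring
    refine le_trans (le_of_eq ?_) (Finset.sum_le_sum fun k _ => h2 k)
    have h4 : ∑ k, w k * t k = m * S := by rw [hm]; field_simp
    have h5 : ∀ k, w k * (Real.exp m * (1 + t k - m)) =
        Real.exp m * (1 - m) * w k + Real.exp m * (w k * t k) := fun k => by ring
    simp only [h5, Finset.sum_add_distrib, ← Finset.mul_sum, h4]
    ring
  have h6 := Real.log_le_log (by positivity) (h1.trans h)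
  rwa [Real.log_mul hS.ne' (Real.exp_pos _).ne', Real.log_exp] at h6

theorem species_avg (sp : ι → σ) (i0 : ι) (τ : ι → ℝ) {X S : ℝ} (hX : 0 ≤ X)
    (h1 : ∀ i, τ i ≤ X) (h2 : -S ≤ ∑ i, τ i) (h3 : ∀ i, sp i = sp i0 → τ i = τ i0) :
    -(S + Fintype.card ι * X) ≤ (Finset.univ.filter fun i => sp i = sp i0).card * τ i0 := by
  rw [← Finset.sum_filter_add_sum_filter_not Finset.univ (fun i => sp i = sp i0)] at h2
  rw [Finset.sum_congr rfl fun i hi => h3 i (Finset.mem_filter.mp hi).2, Finset.sum_const,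
    nsmul_eq_mul] at h2
  have h4 : ∑ i ∈ Finset.univ.filter fun i => ¬ sp i = sp i0, τ i ≤ Fintype.card ι * X := by
    refine (Finset.sum_le_card_nsmul _ _ _ fun i _ => h1 i).trans ?_
    rw [nsmul_eq_mul]
    exact mul_le_mul_of_nonneg_right (by exact_mod_cast Finset.card_le_univ _) hX
  linarith

theorem pair_avg {sp : Option (Option κ) → σ} (hne : sp (some none) ≠ sp none)
    (τ : Option (Option κ) → ℝ) {X S : ℝ} (hX : 0 ≤ X) (hS : 0 ≤ S) [Nonempty κ]
    (h1 : ∀ i, τ i ≤ X) (h2 : -S * Fintype.card (Option (Option κ)) ≤ ∑ i, τ i)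
    (h3 : ∀ i j, sp i = sp j → τ i = τ j) :
    -(6 * (Fintype.card κ / min ((Jset sp).card : ℝ) (Jset fun j => sp (some j)).card) * (S + X)) ≤
      τ none + τ (some none) := by
  have ha := card_Jset_pos sp
  have hb := card_Jset_pos fun j => sp (some j)
  have h4 := species_avg sp none τ hX h1 (by rw [← neg_mul]; exact h2) fun i hi => h3 _ _ hi
  have h5 := species_avg sp (some none) τ hX h1 (by rw [← neg_mul]; exact h2) fun i hi => h3 _ _ hi
  have h6 : (Finset.univ.filter fun i => sp i = sp (some none)).card =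
      (Jset fun j => sp (some j)).card := by
    simp only [Jset, Finset.card_filter, Fintype.sum_option (fun i => if sp i = _ then 1 else 0),
      if_neg hne.symm, zero_add]
  rw [h6] at h5
  change _ ≤ ((Jset sp).card : ℝ) * _ at h4
  have hN : (1 : ℝ) ≤ Fintype.card κ := by exact_mod_cast Fintype.card_pos
  have h7 : (Fintype.card (Option (Option κ)) : ℝ) ≤ 3 * Fintype.card κ := by
    simp only [Fintype.card_option]
    push_cast
    linarith
  set M := min ((Jset sp).card : ℝ) (Jset fun j => sp (some j)).card with hM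
  have hM0 : 0 < M := lt_min ha hb
  have key : ∀ J t : ℝ, 0 < J → M ≤ J → -(S * Fintype.card (Option (Option κ)) +
      Fintype.card (Option (Option κ)) * X) ≤ J * t → -(3 * (Fintype.card κ / M) * (S + X)) ≤ t := by
    intro J t hJ hMJ h
    have h8 : Fintype.card κ / J ≤ Fintype.card κ / M :=
      div_le_div_of_nonneg_left (by linarith) hM0 hMJ
    have h9 : -(3 * (Fintype.card κ / J) * (S + X)) ≤ t := by
      refine le_of_mul_le_mul_left ?_ hJ
      have : J * -(3 * (Fintype.card κ / J) * (S + X)) = -(3 * Fintype.card κ * (S + X)) := by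
        field_simp
      rw [this]
      nlinarith [mul_le_mul_of_nonneg_right h7 (add_nonneg hS hX)]
    nlinarith [mul_le_mul_of_nonneg_right h8 (add_nonneg hS hX)]
  have := key _ _ ha (min_le_left _ _) h4
  have := key _ _ hb (min_le_right _ _) h5
  linarith

/-- the move inequality for an arbitrary particle -/
theorem move' {P : Species σ Sp} (hm : ∀ s, 0 < P.mass s) {I : ℝ}
    (hI : ∀ s, 1 / (2 * P.mass s) ≤ I) (hI0 : 0 ≤ I) {sp : ι → σ} (i : ι)
    {L l : ℝ} (hL : 0 < L) {c : Y → E} {f : E → ℂ} {t0 : σ → Sp} (g : Geo P L l c f t0) (t : Sp)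
    (gr : Grid l c (Fintype.card ι)) {D : ℝ} (hD : ∀ z, ‖fderiv ℝ (bp g.hl) z‖ ≤ D)
    {a β Z E0 : ℝ} (ha : 0 < a) (hβ : 0 < β) (hZ : 0 ≤ Z)
    (hw : ∀ s, β⁻¹ / a ^ 2 ≤ (2 * Real.pi / L) ^ 2 / (4 * P.mass s))
    (h : BG P sp L Unit (fun _ _ => True) (fun _ => en P sp) β Z E0) :
    BG P sp L Unit (fun _ _ => True)
      (fun _ u => en P sp u - (gain P sp i u -
        P.charge (sp i) * pot (Pbar g.hl c f t fun j => P.charge (sp j)) u) +
        (k0 f * I + 3 * D ^ 2 * I) * nr u) β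
      (2 / Fintype.card Y * ((Fintype.card Sp * (1 + 4 * a) ^ 3 + Fintype.card ι) * Z)) E0 := by
  let e := Equiv.optionSubtypeNe i
  have h0 : BG P (fun j => sp (e j)) L Unit (fun _ _ => True) (fun _ => en P fun j => sp (e j))
      β Z E0 := by
    have h1 := BG.rel (sp := fun j => sp (e j)) e.symm (q := en P sp) (by simpa using h)
    exact h1.mono hβ.le (fun _ φ _ _ => ⟨trivial, le_of_eq (en_rel P e sp φ)⟩) le_rfl
  have h2 := move hm hI hI0 hL g t (by rw [Fintype.card_congr e]; exact gr) hD ha hβ (hw _) h0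
  refine (h2.rel e).mono hβ.le (fun _ u _ _ => ⟨trivial, le_of_eq ?_⟩) ?_
  · have h3 := pot_rel e (Pbar g.hl c f t fun j => P.charge (sp (e j))) (rel e.symm u)
    simp only [Pbar_rel g.hl c f t e fun j => P.charge (sp j), rel_rel_symm] at h3
    simp only [en_rel_symm, ← gain_rel, rel_rel_symm, nr_rel, ← h3]
    show _ - gain P sp i u + _ + P.charge (sp i) * _ = _
    ring
  · refine mul_le_mul_of_nonneg_left (mul_le_mul_of_nonneg_right (add_le_add le_rfl ?_) hZ)
      (by positivity)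
    exact_mod_cast Fintype.card_subtype_le _

theorem lower_E {P : Species σ Sp} [Nonempty κ] {sp : Option (Option κ) → σ}
    (hne : sp (some none) ≠ sp none) {L β Z' E' E0 S C2 : ℝ} (hS0 : 0 ≤ S) (hC20 : 0 ≤ C2)
    (hZ' : Spec P sp L β Z' E') {τ : Option (Option κ) → Wv (Option (Option κ)) Sp → ℝ}
    (hmv : ∀ i u, Tst P sp L u → E' * nr u ≤ en P sp u - τ i u + C2 * nr u)
    (hrm : ∀ u, Tst P sp L u → E0 * nr u ≤ en P sp u - (τ none u + τ (some none) u))
    (hτsum : ∀ u, Tst P sp L u → -S * Fintype.card (Option (Option κ)) * nr u ≤ ∑ i, τ i u)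
    (hτsym : ∀ u, Tst P sp L u → ∀ i j, sp i = sp j → τ i u = τ j u) :
    E0 - E' ≤ 6 * (S + C2) *
      (Fintype.card κ / min ((Jset sp).card : ℝ) (Jset fun j => sp (some j)).card) := by
  have hR : 0 ≤ Fintype.card κ / min ((Jset sp).card : ℝ) (Jset fun j => sp (some j)).card := by
    positivity
  have hp := fun τ X S hX hS => pair_avg hne τ (X := X) (S := S) hX hS
  generalize Fintype.card κ / min ((Jset sp).card : ℝ) (Jset fun j => sp (some j)).card = R
    at hR hp ⊢
  have h1 := hZ'.max (E' + (E0 - E' - 6 * R * (S + C2)) / (1 + 6 * R)) fun u hu => by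
    have h2 := hrm u hu
    have h3 : ∀ i, τ i u ≤ en P sp u - E' * nr u + C2 * nr u := fun i => by
      have := hmv i u hu
      linarith
    have h4 := hZ'.gb u hu
    have h5 := nr_nonneg u
    have h6 := hp (fun i => τ i u) _ (S * nr u)
      (add_nonneg (sub_nonneg.mpr h4) (mul_nonneg hC20 h5)) (mul_nonneg hS0 h5) h3
      (by have := hτsum u hu; linarith) (hτsym u hu)
    rw [add_mul, div_mul_eq_mul_div, ← le_sub_iff_add_le', div_le_iff₀ (by positivity)]
    linarith
  have h2 : (E0 - E' - 6 * R * (S + C2)) / (1 + 6 * R) ≤ 0 := by linarith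
  rw [div_le_iff₀ (by positivity), zero_mul] at h2
  linarith

theorem lower_F {P : Species σ Sp} [Nonempty κ] {sp : Option (Option κ) → σ}
    (hne : sp (some none) ≠ sp none) {L β Z' E' Z S C2 CW K : ℝ} (hβ : 0 < β) (hS0 : 0 ≤ S)
    (hC20 : 0 ≤ C2) (hCW : 0 < CW) (hK : 0 < K) (hZ : 0 < Z)
    (hZ' : Spec P sp L β Z' E') {τ : Option (Option κ) → Wv (Option (Option κ)) Sp → ℝ}
    (hmv : ∀ i, (tSys P sp L).BL Unit (fun _ _ => True)
      (fun _ u => en P sp u - τ i u + C2 * nr u) β (CW * Z'))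
    (hrm : (tSys P sp L).BL Unit (fun _ _ => True)
      (fun _ u => en P sp u - (τ none u + τ (some none) u)) β (K ^ 2 * Z))
    (hτsum : ∀ u, Tst P sp L u → -S * Fintype.card (Option (Option κ)) * nr u ≤ ∑ i, τ i u)
    (hτsym : ∀ u, Tst P sp L u → ∀ i j, sp i = sp j → τ i u = τ j u) :
    Real.log Z' - Real.log Z ≤ 2 * K + 6 * (β * S + (β * C2 + 2 * CW)) *
      (Fintype.card κ / min ((Jset sp).card : ℝ) (Jset fun j => sp (some j)).card) := by
  obtain ⟨m, u, hu, hlt⟩ : ∃ (m : ℕ) (u : Fin m → Wv (Option (Option κ)) Sp),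
      (tSys P sp L).ON u ∧ Z' / 2 < ∑ k, Real.exp (-β * en P sp (u k)) := by
    by_contra h0
    push Not at h0
    have := hZ'.min _ h0
    linarith [hZ'.pos]
  have hZp := hZ'.pos
  have hβ0 := hβ.le
  have hn1 : ∀ k, nr (u k) = 1 := fun k => hu.nr_eq _ k
  have hmv' := fun i => (tSys P _ L).sum_le_of_BL (hmv i) hu
  have hrm' := (tSys P _ L).sum_le_of_BL hrm hu
  have hs := fun k => hτsum _ (hu.1 k)
  have hy := fun k => hτsym _ (hu.1 k)
  simp only [hn1] at hmv' hs
  generalize hq : (fun k => en P sp (u k)) = q at *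
  have hq' : ∀ k, en P sp (u k) = q k := fun k => congrFun hq k
  simp only [hq'] at hmv' hrm' hlt
  have hZa0 : 0 < ∑ k, Real.exp (-β * q k) := by linarith
  have h1 : ∀ i, (∑ k, Real.exp (-β * q k) * (β * τ i (u k))) / (∑ k, Real.exp (-β * q k)) ≤
      β * C2 + 2 * CW := by
    intro i
    have h3 := jensen (fun k => Real.exp (-β * q k)) (fun k => β * τ i (u k))
      (fun _ => (Real.exp_pos _).le) hZa0 (B := Real.exp (β * C2) * (CW * Z')) (by
        refine le_trans (le_of_eq ?_) (mul_le_mul_of_nonneg_left (hmv' i) (Real.exp_pos _).le)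
        rw [Finset.mul_sum]
        refine Finset.sum_congr rfl fun k _ => ?_
        rw [← Real.exp_add, ← Real.exp_add]
        congr 1
        ring)
    rw [Real.log_mul (Real.exp_pos _).ne' (by positivity), Real.log_exp] at h3
    have h4 : Real.log (CW * Z') ≤ Real.log (2 * CW) + Real.log (∑ k, Real.exp (-β * q k)) := by
      rw [← Real.log_mul (by positivity) hZa0.ne']
      exact Real.log_le_log (by positivity) (by nlinarith)
    have h5 := Real.log_le_sub_one_of_pos (x := 2 * CW) (by positivity)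
    linarith
  have h2 := pair_avg hne (fun i => (∑ k, Real.exp (-β * q k) * (β * τ i (u k))) /
      (∑ k, Real.exp (-β * q k))) (S := β * S) (by positivity) (by positivity) h1 (by
    rw [← Finset.sum_div, le_div_iff₀ hZa0, Finset.sum_comm, Finset.mul_sum]
    refine Finset.sum_le_sum fun k _ => ?_
    rw [← Finset.mul_sum, ← Finset.mul_sum, mul_comm]
    refine mul_le_mul_of_nonneg_left ?_ (Real.exp_pos _).le
    have := mul_le_mul_of_nonneg_left (hs k) hβ0
    linarith) (fun i j hij => by simp only [fun k => hy k i j hij])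
  have h3 := jensen (fun k => Real.exp (-β * q k))
    (fun k => β * τ none (u k) + β * τ (some none) (u k))
    (fun _ => (Real.exp_pos _).le) hZa0 (B := K ^ 2 * Z) (by
      refine le_trans (le_of_eq ?_) hrm'
      refine Finset.sum_congr rfl fun k _ => ?_
      rw [← Real.exp_add]
      congr 1
      ring)
  simp only [mul_add, Finset.sum_add_distrib, add_div] at h3
  rw [Real.log_mul (by positivity) hZ.ne', Real.log_pow] at h3
  have h4 : Real.log Z' ≤ Real.log 2 + Real.log (∑ k, Real.exp (-β * q k)) := by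
    rw [← Real.log_mul (by positivity) hZa0.ne']
    exact Real.log_le_log hZp (by linarith)
  have h5 := Real.log_le_sub_one_of_pos (x := 2) (by positivity)
  have h6 := Real.log_le_sub_one_of_pos hK
  push_cast at h3
  linarith

theorem main [Fintype σ] {P : Species σ Sp} (hm : ∀ s, 0 < P.mass s)
    (hs : ∀ s, (P.spins s).Nonempty) {A : ℝ} (hA : Stb P A) {ρ β : ℝ} (hρ : 0 < ρ) (hβ : 0 < β) :
    ∃ C : ℝ, ∀ (κ : Type) [Fintype κ] [DecidableEq κ] [Nonempty κ] (sp : Option (Option κ) → σ),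
      0 < P.charge (sp none) → P.charge (sp (some none)) = -P.charge (sp none) →
      ∑ j, P.charge (sp (some (some j))) = 0 → ∀ L, 0 < L → L ^ 3 = Fintype.card κ / ρ →
      ∀ Z E0 Z' E', Spec P (fun j => sp (some (some j))) L β Z E0 → Spec P sp L β Z' E' →
      (E' ≤ E0 + C ∧ E0 - E' ≤ C *
        (Fintype.card κ / min ((Jset sp).card : ℝ) (Jset fun j => sp (some j)).card)) ∧
      Real.log Z - Real.log Z' ≤ C + Real.log ((Jset sp).card * (Jset fun j => sp (some j)).card /
        (Fintype.card κ : ℝ) ^ 2) ∧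
      Real.log Z' - Real.log Z ≤ C *
        (Fintype.card κ / min ((Jset sp).card : ℝ) (Jset fun j => sp (some j)).card) := by
  -- constants
  obtain ⟨l, hl, hlρ⟩ : ∃ l : ℝ, 0 < l ∧ (14 * l) ^ 3 * (6 * ρ) ≤ 1 := by
    refine ⟨1 / (14 * (1 + 6 * ρ)), by positivity, ?_⟩
    have h1 : 14 * (1 / (14 * (1 + 6 * ρ))) = (1 + 6 * ρ)⁻¹ := by field_simp
    rw [h1, inv_pow, inv_mul_le_iff₀ (by positivity), mul_one]
    exact le_trans (by linarith) (le_self_pow₀ (by linarith) (by norm_num))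
  obtain ⟨f, hf⟩ := exists_orb hl
  obtain ⟨D, hD⟩ := exists_D hl
  choose t0 ht0 using hs
  obtain ⟨I, hI0, hI⟩ : ∃ I : ℝ, 0 ≤ I ∧ ∀ s, 1 / (2 * P.mass s) ≤ I :=
    ⟨∑ s, 1 / (2 * P.mass s), Finset.sum_nonneg fun s _ => by have := hm s; positivity,
      fun s => Finset.single_le_sum (f := fun s => 1 / (2 * P.mass s))
        (fun s _ => by have := hm s; positivity) (Finset.mem_univ s)⟩
  obtain ⟨a0, ha1, ha0⟩ : ∃ a0 : ℝ, 1 ≤ a0 ∧ ∀ s, β⁻¹ * P.mass s ≤ a0 := by
    have h1 : 0 ≤ ∑ s, P.mass s := Finset.sum_nonneg fun s _ => (hm s).le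
    refine ⟨1 + β⁻¹ * ∑ s, P.mass s, le_add_of_nonneg_right (by positivity), fun s => ?_⟩
    have := mul_le_mul_of_nonneg_left (Finset.single_le_sum (fun s _ => (hm s).le)
      (Finset.mem_univ s)) (inv_pos.mpr hβ).le
    linarith
  have hk := k0_nonneg f
  obtain ⟨C2, hC2, hC20⟩ : ∃ C2, C2 = k0 f * I + 3 * D ^ 2 * I ∧ 0 ≤ C2 := ⟨_, rfl, by positivity⟩
  obtain ⟨CW, hCW, hCW0⟩ : ∃ CW, CW = Fintype.card Sp * (1 / (7 * l) + 4 * a0) ^ 3 / ρ + 3 ∧
    1 ≤ CW := ⟨_, rfl, by
      have : 0 ≤ Fintype.card Sp * (1 / (7 * l) + 4 * a0) ^ 3 / ρ := by positivity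
      linarith⟩
  obtain ⟨S, hS, hS0⟩ : ∃ S, S = 8 * |A| ∧ 0 ≤ S := ⟨_, rfl, by positivity⟩
  refine ⟨(2 + 2 * β) * C2 + 6 * (S + C2) + (2 + 4 * CW + 6 * (β * S + (β * C2 + 2 * CW))),
    fun κ _ _ _ sp ha hb hneu L hL hL3 Z E0 Z' E' hZ hZ' => ?_⟩
  have hN : (1 : ℝ) ≤ Fintype.card κ := by exact_mod_cast Fintype.card_pos
  set N : ℝ := (Fintype.card κ : ℝ) with hNdef
  have hLl : 14 * l ≤ L := by
    refine le_of_pow_le_pow_left₀ (n := 3) (by norm_num) hL.le ?_
    rw [hL3, le_div_iff₀ hρ]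
    have : 0 ≤ (14 * l) ^ 3 * ρ := by positivity
    linarith
  obtain ⟨m, c, hc, hin, hmL⟩ := exists_grid hl (L := L) (by linarith)
  have hM : 6 * N ≤ Fintype.card (Fin 3 → Fin m) := by
    have h1 := pow_le_pow_left₀ (by positivity) hmL 3
    rw [div_pow, hL3, div_div, div_le_iff₀ (by positivity)] at h1
    simp only [Fintype.card_fun, Fintype.card_fin]
    push_cast
    have h2 : (0 : ℝ) ≤ (m : ℝ) ^ 3 := by positivity
    nlinarith [mul_le_mul_of_nonneg_left hlρ h2]
  set M : ℝ := (Fintype.card (Fin 3 → Fin m) : ℝ) with hMdef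
  have hM0 : 0 < M := by linarith
  have g : Geo P L l c f t0 := ⟨hl, hc, hin, hf, ht0⟩
  have hcard : (Fintype.card (Option (Option κ)) : ℝ) = N + 2 := by
    simp only [Fintype.card_option]; push_cast; ring
  have gr : Grid l c (Fintype.card κ) := ⟨hc, by rw [hMdef] at hM0; exact_mod_cast hM0, by
    have : (2 * Fintype.card κ : ℝ) ≤ M := by linarith
    rw [hMdef] at this
    exact_mod_cast this⟩
  have gr2 : Grid l c (Fintype.card (Option (Option κ))) := ⟨hc, by rw [hMdef] at hM0; exact_mod_cast hM0, by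
    have : (2 * Fintype.card (Option (Option κ)) : ℝ) ≤ M := by rw [hcard]; linarith
    rw [hMdef] at this
    exact_mod_cast this⟩
  have hne : sp (some none) ≠ sp none := fun h0 => by rw [h0] at hb; linarith
  have hJa := card_Jset_pos sp
  have hJb := card_Jset_pos fun j => sp (some j)
  set Ja : ℝ := ((Jset sp).card : ℝ) with hJadef
  set Jb : ℝ := ((Jset fun j => sp (some j)).card : ℝ) with hJbdef
  have hmin : 0 < min Ja Jb := lt_min hJa hJb
  have hR : 1 / 2 ≤ N / min Ja Jb := by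
    rw [le_div_iff₀ hmin]
    have h1 : Jb ≤ Fintype.card (Option κ) := by
      rw [hJbdef]; exact_mod_cast Finset.card_le_univ _
    rw [Fintype.card_option] at h1
    push_cast at h1
    linarith [min_le_right Ja Jb]
  set R := N / min Ja Jb with hRdef
  have hw : ∀ s, β⁻¹ / (L * a0) ^ 2 ≤ (2 * Real.pi / L) ^ 2 / (4 * P.mass s) := fun s =>
    hw_of hL (hm s) ha1 (ha0 s)
  have hLa : 0 < L * a0 := by positivity
  have hW : Fintype.card Sp * (1 + 4 * (L * a0)) ^ 3 + (N + 2) ≤ CW * N := by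
    have h1 : 1 + 4 * (L * a0) ≤ L * (1 / (7 * l) + 4 * a0) := by
      have : 1 ≤ L * (1 / (7 * l)) := by
        rw [mul_one_div, le_div_iff₀ (by positivity)]; linarith
      linarith
    have h2 := mul_le_mul_of_nonneg_left (pow_le_pow_left₀ (by positivity) h1 3)
      (Nat.cast_nonneg (α := ℝ) (Fintype.card Sp))
    rw [mul_pow, hL3] at h2
    have h3 : CW * N = Fintype.card Sp * (N / ρ * (1 / (7 * l) + 4 * a0) ^ 3) + 3 * N := by
      rw [hCW]; ring
    linarith
  set W : ℝ := Fintype.card Sp * (1 + 4 * (L * a0)) ^ 3 with hWdef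
  have hW0 : 0 ≤ W := by positivity
  have b0 := BG.base hZ.bd hZ.gb
  have b2 := BG.base hZ'.bd hZ'.gb
  have hup := upper hm hI hI0 ha hb g gr hD hβ.le b2
  let t := t0 (sp none)
  let τ : Option (Option κ) → Wv (Option (Option κ)) Sp → ℝ := fun i u => gain P sp i u -
    P.charge (sp i) * pot (Pbar g.hl c f t fun j => P.charge (sp j)) u
  have hmv : ∀ i, BG P sp L Unit (fun _ _ => True) (fun _ u => en P sp u - τ i u + C2 * nr u) β
      (CW * Z') E' := fun i => by
    refine (move' hm hI hI0 i hL g t gr2 hD hLa hβ hZ'.pos.le hw b2).mono hβ.le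
      (fun _ u _ _ => ⟨trivial, le_of_eq (by rw [hC2])⟩) ?_
    rw [← mul_assoc, hcard]
    refine mul_le_mul_of_nonneg_right ?_ hZ'.pos.le
    rw [div_mul_eq_mul_div, div_le_iff₀ hM0]
    nlinarith
  have hrm : BG P sp L Unit (fun _ _ => True)
      (fun _ u => en P sp u - (τ none u + τ (some none) u)) β ((CW * R) ^ 2 * Z) E0 := by
    refine (remove2 hm (by rw [hb]; nlinarith) hL hLa hβ hw b0).mono hβ.le
      (fun _ u _ _ => ⟨trivial, le_of_eq (by simp only [τ, hb]; ring)⟩) ?_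
    rw [← mul_assoc, sq]
    refine mul_le_mul_of_nonneg_right ?_ hZ.pos.le
    have key : ∀ J x : ℝ, 0 < J → min Ja Jb ≤ J → x ≤ N + 2 → (W + x) / J ≤ CW * R := by
      intro J x hJ h1 h2
      rw [hRdef, ← mul_div_assoc]
      exact div_le_div₀ (by positivity) (by linarith) hmin h1
    refine mul_le_mul (key _ _ hJa (min_le_left _ _) ?_) (key _ _ hJb (min_le_right _ _) ?_)
      (by positivity) (by positivity)
    · rw [Fintype.card_option]; push_cast; linarith
    · linarith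
  have hτsum : ∀ u, Tst P sp L u →
      -S * Fintype.card (Option (Option κ)) * nr u ≤ ∑ i, τ i u := by
    intro u hu
    have h1 : ∑ i, P.charge (sp i) = 0 := by
      rw [Fintype.sum_option, Fintype.sum_option, hneu, hb]; ring
    simp only [τ, Finset.sum_sub_distrib, ← Finset.sum_mul, h1, zero_mul, sub_zero, hS]
    exact hA.gain hm hL hu
  have hτsym : ∀ u, Tst P sp L u → ∀ i j, sp i = sp j → τ i u = τ j u := by
    intro u hu i j hij
    simp only [τ, gain_sym hu hij, hij]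
  have hβ0 := hβ.le
  refine ⟨⟨?_, ?_⟩, ?_, ?_⟩
  · have h1 := hZ.max (E' - 2 * C2) fun ψ hψ => by
      have h2 : E' * nr ψ ≤ en P _ ψ + (2 * (k0 f * I) + 2 * (3 * D ^ 2 * I)) * nr ψ :=
        hup.2 () ψ hψ trivial
      rw [hC2]
      linarith
    have : 0 ≤ 2 * β * C2 + 6 * (S + C2) + (2 + 4 * CW + 6 * (β * S + (β * C2 + 2 * CW))) := by
      positivity
    linarith
  · have h1 := lower_E hne hS0 hC20 hZ' (fun i u hu => (hmv i).2 () u hu trivial)
      (fun u hu => hrm.2 () u hu trivial) hτsum hτsym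
    rw [← hJadef, ← hJbdef, ← hNdef, ← hRdef] at h1
    have : 0 ≤ ((2 + 2 * β) * C2 + (2 + 4 * CW + 6 * (β * S + (β * C2 + 2 * CW)))) * R := by
      positivity
    linarith
  · have h1 := hZ.min (Real.exp (β * (2 * C2)) * (Ja * Jb / N ^ 2 * Z')) fun m u hu => by
      have h2 := (tSys P _ L).sum_le_of_BL hup.1 hu
      have h3 : 2 / M * (2 / M * (Jb * (Ja * Z'))) ≤ Ja * Jb / N ^ 2 * Z' := by
        have h4 : 2 / M ≤ 1 / N := by
          rw [div_le_div_iff₀ hM0 (by linarith)]; linarith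
        have h5 : 0 ≤ Jb * (Ja * Z') := by have := hZ'.pos; positivity
        calc _ ≤ 1 / N * (1 / N * (Jb * (Ja * Z'))) :=
              mul_le_mul h4 (mul_le_mul_of_nonneg_right h4 h5) (by positivity) (by positivity)
          _ = _ := by field_simp
      refine le_trans (le_of_eq ?_) (mul_le_mul_of_nonneg_left (h2.trans h3) (Real.exp_pos _).le)
      rw [Finset.mul_sum]
      refine Finset.sum_congr rfl fun k _ => ?_
      rw [← Real.exp_add, show nr (u k) = 1 from hu.nr_eq _ k, hC2]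
      congr 1
      show -β * en P _ (u k) = _
      ring
    have h2 := Real.log_le_log hZ.pos h1
    have := hZ'.pos
    rw [Real.log_mul (Real.exp_pos _).ne' (by positivity), Real.log_exp,
      Real.log_mul (by positivity) this.ne'] at h2
    have : 0 ≤ 2 * C2 + 6 * (S + C2) + (2 + 4 * CW + 6 * (β * S + (β * C2 + 2 * CW))) := by
      positivity
    linarith
  · have h1 := lower_F hne hβ hS0 hC20 (by positivity) (by positivity) hZ.pos hZ'
      (fun i => (hmv i).1) hrm.1 hτsum hτsym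
    rw [← hJadef, ← hJbdef, ← hNdef, ← hRdef] at h1
    have : 0 ≤ ((2 + 2 * β) * C2 + 6 * (S + C2) + 2 + 2 * CW) * R := by positivity
    linarith

end Pool.Agent.Lib.MP_0655ed_mp
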