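import Pool.Agent.Lib.MP_0655ed_mp.Abstract

open scoped ComplexConjugate
open Finset

set_option maxHeartbeats 400000

namespace Pool.Agent.Lib.MP_0655ed_mp
namespace Sys
variable {V V' : Type} [AddCommGroup V] [Module ℂ V] [AddCommGroup V'] [Module ℂ V']
  {S : Sys V} {S' : Sys V'}

theorem BL.split {Y0 Y : Type} [Fintype Y0] [Fintype Y] {Pr : Y0 × Y → V → Prop}
    {q : Y0 × Y → V → ℝ} {β Z : ℝ} (h : S.BL (Y0 × Y) Pr q β Z) (hβ : 0 ≤ β) (T : Y → V → V)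
    {k : ℝ} (hk : 0 ≤ k) (hT : ∀ y, ∀ ψ ∈ S.D, T y ψ ∈ S.D)
    (hn : ∀ ψ ∈ S.D, ∑ y, S.nr (T y ψ) = S.nr ψ)
    (hadj : ∀ y, ∀ v ∈ S.D, ∃ v' ∈ S.D, S.nr v' ≤ k * S.nr v ∧
      ∀ ψ ∈ S.D, ‖S.ip (T y ψ) v‖ = ‖S.ip ψ v'‖)
    {Pr' : Y0 → V → Prop} {q' : Y0 → V → ℝ}
    (hP : ∀ y0, ∀ ψ ∈ S.D, Pr' y0 ψ →
      (∀ y, Pr (y0, y) (T y ψ)) ∧ ∑ y, q (y0, y) (T y ψ) ≤ q' y0 ψ) :
    S.BL Y0 Pr' q' β (k * Z) := by
  intro Γ _ φ a m K hK hφ ha hB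
  have h1 := h Γ (fun p γ => T p.2 (φ p.1 γ)) (fun p => a p.1) (fun p => m p.1) (K * k)
    (mul_nonneg hK hk)
    (fun p γ => ⟨hT _ _ (hφ _ γ).1, (hP _ _ (hφ _ γ).1 (hφ _ γ).2).1 _⟩) (fun p => ha p.1)
    (fun p v hv => by
      obtain ⟨v', hv', h2, h3⟩ := hadj p.2 v hv
      simp only [h3 _ (hφ _ _).1]
      refine (hB p.1 v' hv').trans ?_
      rw [mul_assoc]
      exact mul_le_mul_of_nonneg_left h2 hK)
  rw [← mul_assoc]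
  refine le_trans ?_ h1
  rw [Fintype.sum_prod_type]
  refine Finset.sum_le_sum fun y0 _ => ?_
  rw [Finset.sum_comm]
  refine Finset.sum_le_sum fun γ _ => ?_
  simp only [← Finset.mul_sum, Finset.sum_sub_distrib, ← Finset.sum_mul, hn _ (hφ _ γ).1]
  refine mul_le_mul_of_nonneg_left (mul_le_mul_of_nonneg_left ?_ (Real.exp_pos _).le) (ha _ γ)
  have := mul_le_mul_of_nonneg_left (hP _ _ (hφ y0 γ).1 (hφ y0 γ).2).2 hβ
  linarith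

theorem GB.split {Y0 Y : Type} [Fintype Y] {Pr : Y0 × Y → V → Prop}
    {q : Y0 × Y → V → ℝ} {E : ℝ} (h : S.GB (Y0 × Y) Pr q E) (T : Y → V → V)
    (hT : ∀ y, ∀ ψ ∈ S.D, T y ψ ∈ S.D)
    (hn : ∀ ψ ∈ S.D, ∑ y, S.nr (T y ψ) = S.nr ψ)
    {Pr' : Y0 → V → Prop} {q' : Y0 → V → ℝ}
    (hP : ∀ y0, ∀ ψ ∈ S.D, Pr' y0 ψ →
      (∀ y, Pr (y0, y) (T y ψ)) ∧ ∑ y, q (y0, y) (T y ψ) ≤ q' y0 ψ) :
    S.GB Y0 Pr' q' E := by
  intro y0 ψ hψ hp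
  rw [← hn ψ hψ, Finset.mul_sum]
  exact (Finset.sum_le_sum fun y _ => h (y0, y) _ (hT y ψ hψ) ((hP y0 ψ hψ hp).1 y)).trans
    (hP y0 ψ hψ hp).2

theorem BL.insert {Y0 Y : Type} [Fintype Y0] [Fintype Y] {Pr0 : Y0 → V' → Prop}
    {q0 : Y0 → V' → ℝ} {β Z : ℝ} (h : S'.BL Y0 Pr0 q0 β Z) (hβ : 0 ≤ β) (T : Y → V → V')
    {k : ℝ} (hk : 0 ≤ k)
    (hadj : ∀ v ∈ S'.D, ∃ v' : Y → V, (∀ y, v' y ∈ S.D) ∧ ∑ y, S.nr (v' y) ≤ k * S'.nr v ∧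
      ∀ y, ∀ ψ ∈ S.D, ‖S'.ip (T y ψ) v‖ = ‖S.ip ψ (v' y)‖)
    {Pr : Y0 × Y → V → Prop} {q : Y0 × Y → V → ℝ}
    (hP : ∀ y0 y, ∀ ψ ∈ S.D, Pr (y0, y) ψ → T y ψ ∈ S'.D ∧ Pr0 y0 (T y ψ) ∧
      S'.nr (T y ψ) = S.nr ψ ∧ q0 y0 (T y ψ) ≤ q (y0, y) ψ) :
    S.BL (Y0 × Y) Pr q β (k * Z) := by
  intro Γ _ φ a m K hK hφ ha hB
  have h1 := h (Y × Γ) (fun y0 p => T p.1 (φ (y0, p.1) p.2)) (fun y0 p => a (y0, p.1) p.2)
    (fun y0 p => m (y0, p.1) p.2) (K * k) (mul_nonneg hK hk)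
    (fun y0 p => ⟨(hP _ _ _ (hφ _ _).1 (hφ _ _).2).1, (hP _ _ _ (hφ _ _).1 (hφ _ _).2).2.1⟩)
    (fun y0 p => ha _ _)
    (fun y0 v hv => by
      obtain ⟨v', hv', h2, h3⟩ := hadj v hv
      rw [Fintype.sum_prod_type]
      simp only [h3 _ _ (hφ _ _).1]
      refine (Finset.sum_le_sum fun y _ => hB (y0, y) (v' y) (hv' y)).trans ?_
      rw [← Finset.mul_sum, mul_assoc]
      exact mul_le_mul_of_nonneg_left h2 hK)
  rw [← mul_assoc]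
  refine le_trans ?_ h1
  rw [Fintype.sum_prod_type]
  refine Finset.sum_le_sum fun y0 _ => ?_
  rw [Fintype.sum_prod_type]
  refine Finset.sum_le_sum fun y _ => Finset.sum_le_sum fun γ _ => ?_
  obtain ⟨-, -, h2, h3⟩ := hP _ _ _ (hφ (y0, y) γ).1 (hφ (y0, y) γ).2
  simp only [h2]
  refine mul_le_mul_of_nonneg_left (mul_le_mul_of_nonneg_left ?_ (Real.exp_pos _).le) (ha _ γ)
  have := mul_le_mul_of_nonneg_left h3 hβ
  linarith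

theorem GB.insert {Y0 Y : Type} {Pr0 : Y0 → V' → Prop}
    {q0 : Y0 → V' → ℝ} {E : ℝ} (h : S'.GB Y0 Pr0 q0 E) (T : Y → V → V')
    {Pr : Y0 × Y → V → Prop} {q : Y0 × Y → V → ℝ}
    (hP : ∀ y0 y, ∀ ψ ∈ S.D, Pr (y0, y) ψ → T y ψ ∈ S'.D ∧ Pr0 y0 (T y ψ) ∧
      S'.nr (T y ψ) = S.nr ψ ∧ q0 y0 (T y ψ) ≤ q (y0, y) ψ) :
    S.GB (Y0 × Y) Pr q E := by
  rintro ⟨y0, y⟩ ψ hψ hp
  obtain ⟨h1, h2, h3, h4⟩ := hP y0 y ψ hψ hp
  rw [← h3]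
  exact (h y0 _ h1 h2).trans h4

theorem BL.remove {Y A : Type} [Fintype Y] {Pr' : Y → V' → Prop}
    {q' : Y → V' → ℝ} {β Z : ℝ} (h : S'.BL Y Pr' q' β Z) (hβ : 0 < β) (T : A → V → V')
    (w : A → ℝ) (hw : ∀ α, 0 < w α) {k : ℝ} (hk : 0 ≤ k)
    (hadj : ∀ (Γ : Type) [Fintype Γ] (φ : Γ → V), (∀ γ, φ γ ∈ S.D) → ∀ v ∈ S'.D, ∃ v' : A → V,
      (∀ α, v' α ∈ S.D) ∧ (∀ F : Finset A, ∑ α ∈ F, w α * S.nr (v' α) ≤ k * S'.nr v) ∧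
      ∀ α γ, ‖S'.ip (T α (φ γ)) v‖ = ‖S.ip (φ γ) (v' α)‖)
    {Pr : Y → V → Prop} {q : Y → V → ℝ}
    (hP : ∀ y, ∀ ψ ∈ S.D, Pr y ψ → (∀ α, T α ψ ∈ S'.D ∧ Pr' y (T α ψ)) ∧
      HasSum (fun α => S'.nr (T α ψ)) (S.nr ψ) ∧ ∃ e, e ≤ q y ψ ∧
      HasSum (fun α => q' y (T α ψ) - β⁻¹ * Real.log (w α) * S'.nr (T α ψ)) e) :
    S.BL Y Pr q β (k * Z) := by
  intro Γ _ φ a m K hK hφ ha hB
  have hP' := fun y γ => hP y _ (hφ y γ).1 (hφ y γ).2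
  choose h1 h2 e he h3 using hP'
  have key : ∀ F : Finset A, ∑ α ∈ F, ∑ y, ∑ γ, a y γ * (Real.exp (-β * m y γ) *
      (S'.nr (T α (φ y γ)) * (1 + β * m y γ) - β * (q' y (T α (φ y γ)) -
        β⁻¹ * Real.log (w α) * S'.nr (T α (φ y γ))))) ≤ K * k * Z := by
    intro F
    have h4 := h (F × Γ) (fun y p => T p.1 (φ y p.2)) (fun y p => a y p.2 * w p.1)
      (fun y p => m y p.2 + β⁻¹ * Real.log (w p.1)) (K * k) (mul_nonneg hK hk)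
      (fun y p => h1 y p.2 p.1) (fun y p => mul_nonneg (ha _ _) (hw _).le)
      (fun y v hv => by
        obtain ⟨v', hv', h5, h6⟩ := hadj Γ (φ y) (fun γ => (hφ y γ).1) v hv
        rw [Fintype.sum_prod_type]
        simp only [h6]
        calc _ = ∑ α : F, w α * ∑ γ, a y γ * ‖S.ip (φ y γ) (v' α)‖ ^ 2 := by
              refine Finset.sum_congr rfl fun α _ => ?_
              rw [Finset.mul_sum]
              exact Finset.sum_congr rfl fun γ _ => by ring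
          _ ≤ ∑ α : F, w α * (K * S.nr (v' α)) := Finset.sum_le_sum fun α _ =>
              mul_le_mul_of_nonneg_left (hB y _ (hv' α)) (hw _).le
          _ = K * ∑ α ∈ F, w α * S.nr (v' α) := by
              rw [Finset.mul_sum, ← Finset.sum_coe_sort F]
              exact Finset.sum_congr rfl fun γ _ => by ring
          _ ≤ _ := by rw [mul_assoc]; exact mul_le_mul_of_nonneg_left (h5 F) hK)
    refine le_trans (le_of_eq ?_) h4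
    rw [← Finset.sum_coe_sort F, Finset.sum_comm]
    refine Finset.sum_congr rfl fun y _ => ?_
    rw [Fintype.sum_prod_type]
    refine Finset.sum_congr rfl fun α _ => Finset.sum_congr rfl fun γ _ => ?_
    have h5 : Real.exp (-β * m y γ) =
        w α * Real.exp (-β * (m y γ + β⁻¹ * Real.log (w α))) := by
      conv_rhs => rw [← Real.exp_log (hw α), ← Real.exp_add, Real.log_exp]
      congr 1
      field_simp
      ring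
    rw [h5]
    field_simp
    ring
  have hs : HasSum (fun α => ∑ y, ∑ γ, a y γ * (Real.exp (-β * m y γ) *
      (S'.nr (T α (φ y γ)) * (1 + β * m y γ) - β * (q' y (T α (φ y γ)) -
        β⁻¹ * Real.log (w α) * S'.nr (T α (φ y γ))))))
      (∑ y, ∑ γ, a y γ * (Real.exp (-β * m y γ) *
        (S.nr (φ y γ) * (1 + β * m y γ) - β * e y γ))) :=
    hasSum_sum fun y _ => hasSum_sum fun γ _ =>
      ((((h2 y γ).mul_right _).sub ((h3 y γ).mul_left β)).mul_left _).mul_left _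
  have h7 := le_of_tendsto' hs key
  rw [← mul_assoc]
  refine le_trans (Finset.sum_le_sum fun y _ => Finset.sum_le_sum fun γ _ => ?_) h7
  refine mul_le_mul_of_nonneg_left (mul_le_mul_of_nonneg_left ?_ (Real.exp_pos _).le) (ha _ γ)
  have := mul_le_mul_of_nonneg_left (he y γ) hβ.le
  linarith

theorem GB.remove {Y A : Type} {Pr' : Y → V' → Prop}
    {q' : Y → V' → ℝ} {E : ℝ} (h : S'.GB Y Pr' q' E) (T : A → V → V')
    {Pr : Y → V → Prop} {q : Y → V → ℝ}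
    (hP : ∀ y, ∀ ψ ∈ S.D, Pr y ψ → (∀ α, T α ψ ∈ S'.D ∧ Pr' y (T α ψ)) ∧
      HasSum (fun α => S'.nr (T α ψ)) (S.nr ψ) ∧ ∃ e, e ≤ q y ψ ∧
      HasSum (fun α => q' y (T α ψ)) e) :
    S.GB Y Pr q E := by
  intro y ψ hψ hp
  obtain ⟨h1, h2, e, he, h3⟩ := hP y ψ hψ hp
  exact (hasSum_le (fun α => h y _ (h1 α).1 (h1 α).2) (h2.mul_left E) h3).trans he

theorem BL.equiv {Y Y' : Type} [Fintype Y] [Fintype Y'] {Pr : Y → V → Prop} {q : Y → V → ℝ}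
    {β Z : ℝ} (h : S.BL Y Pr q β Z) (e : Y ≃ Y') :
    S.BL Y' (fun y => Pr (e.symm y)) (fun y => q (e.symm y)) β Z := by
  intro Γ _ φ a m K hK hφ ha hB
  have := h Γ (fun y => φ (e y)) (fun y => a (e y)) (fun y => m (e y)) K hK
    (fun y γ => by simpa using hφ (e y) γ) (fun y => ha _) (fun y => hB _)
  rw [← e.sum_comp]
  simpa using this

end Sys
end Pool.Agent.Lib.MP_0655ed_mp
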