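import Pool.Agent.Lib.MP_0655ed_mp.Part
import Pool.Agent.Lib.MP_0655ed_mp.Steps

open scoped ComplexConjugate
open Finset MeasureTheory

set_option linter.unusedSectionVars false
set_option maxHeartbeats 400000

namespace Pool.Agent.Lib.MP_0655ed_mp

variable {σ Sp ι ι' κ Y : Type} [Fintype κ] [DecidableEq κ] [Fintype Sp] [DecidableEq Sp]
  [DecidableEq σ] [Fintype ι] [DecidableEq ι] [Fintype ι'] [DecidableEq ι'] [Fintype Y]
  [DecidableEq Y]

def BG (P : Species σ Sp) (sp : ι → σ) (L : ℝ) (Y : Type) [Fintype Y] (Pr : Y → Wv ι Sp → Prop)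
    (q : Y → Wv ι Sp → ℝ) (β Z E : ℝ) : Prop :=
  (tSys P sp L).BL Y Pr q β Z ∧ (tSys P sp L).GB Y Pr q E

theorem BG.mono {P : Species σ Sp} {sp : ι → σ} {L : ℝ} {Pr Pr' : Y → Wv ι Sp → Prop}
    {q q' : Y → Wv ι Sp → ℝ} {β Z Z' E : ℝ} (h : BG P sp L Y Pr q β Z E) (hβ : 0 ≤ β)
    (hP : ∀ y φ, Tst P sp L φ → Pr' y φ → Pr y φ ∧ q y φ ≤ q' y φ) (hZ : Z ≤ Z') :
    BG P sp L Y Pr' q' β Z' E :=
  ⟨h.1.mono _ hβ hP hZ, h.2.mono _ hP⟩

/-! insertion -/

noncomputable def insT (P : Species σ Sp) (sp : Option κ → σ) (f : Sp → E → ℂ) (φ : Wv κ Sp) :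
    Wv (Option κ) Sp := (((√((Jset sp).card : ℝ))⁻¹ : ℝ) : ℂ) • cre P sp f φ

theorem norm_sq_insc (sp : Option κ → σ) :
    ‖(((√((Jset sp).card : ℝ))⁻¹ : ℝ) : ℂ)‖ ^ 2 * (Jset sp).card = 1 := by
  rw [Complex.norm_real, Real.norm_eq_abs, sq_abs, inv_pow, Real.sq_sqrt (card_Jset_pos sp).le,
    inv_mul_cancel₀ (card_Jset_pos sp).ne']

theorem pot_insT {P : Species σ Sp} {sp : Option κ → σ} {y : E} {l : ℝ} (hl : 0 < l)
    {f : Sp → E → ℂ} (hf : Cc f) (hfs : ∀ t z, f t z ≠ 0 → ‖z - y‖ ≤ l) {φ : Wv κ Sp} (hφ : Cc φ)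
    (hh : Hole (fun j => sp (some j)) (sp none) y l φ) {U : X (Option κ) → ℝ}
    (hU : LocallyIntegrable U) (hs : ∀ o ∈ Jset sp, ∀ x, U (x ∘ Equiv.swap none o) = U x) :
    pot U (insT P sp f φ) = pot U (tens f φ) := by
  rw [insT, pot_smul, cre, pot_symz hl (hf.tens hφ) (loc_tens hfs hh) hU hs, ← mul_assoc,
    norm_sq_insc, one_mul]

theorem en_insT {P : Species σ Sp} {sp : Option κ → σ} {y : E} {l : ℝ} (hl : 0 < l)
    {f : Sp → E → ℂ} (hf : Nice f) (hfs : ∀ t z, f t z ≠ 0 → ‖z - y‖ ≤ l) {φ : Wv κ Sp}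
    (hφ : Nice φ) (hh : Hole (fun j => sp (some j)) (sp none) y l φ) :
    en P sp (insT P sp f φ) = en P sp (tens f φ) := by
  rw [insT, cre, en_smul _ _ (hf.tens hφ).symz, en_symz hl (hf.tens hφ) (loc_tens hfs hh),
    ← mul_assoc, norm_sq_insc, one_mul]

/-- the fixed geometric data -/
structure Geo (P : Species σ Sp) (L l : ℝ) (c : Y → E) (f : E → ℂ) (t0 : σ → Sp) : Prop where
  hl : 0 < l
  sep : Sep l c
  inside : ∀ y, ‖c y‖ + l < L / 2
  orb : Orb l f
  spin : ∀ s, t0 s ∈ P.spins s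

theorem BG.insert {P : Species σ Sp} {sp : Option κ → σ} {L l : ℝ} {c : Y → E} {f : E → ℂ}
    {t0 : σ → Sp} (g : Geo P L l c f t0) {Y0 : Type} [Fintype Y0]
    {Pr0 : Y0 → Wv (Option κ) Sp → Prop} {q0 : Y0 → Wv (Option κ) Sp → ℝ} {β Z E : ℝ}
    (h : BG P sp L Y0 Pr0 q0 β Z E) (hβ : 0 ≤ β)
    {Pr : Y0 × Y → Wv κ Sp → Prop} {q : Y0 × Y → Wv κ Sp → ℝ}
    (hP : ∀ y0 y ψ, Tst P (fun j => sp (some j)) L ψ → Pr (y0, y) ψ →
      Hole (fun j => sp (some j)) (sp none) (c y) l ψ ∧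
      Pr0 y0 (insT P sp (fy f (t0 (sp none)) (c y)) ψ) ∧
      q0 y0 (insT P sp (fy f (t0 (sp none)) (c y)) ψ) ≤ q (y0, y) ψ) :
    BG P (fun j => sp (some j)) L (Y0 × Y) Pr q β ((Jset sp).card * Z) E := by
  have hadm := fun y => g.orb.adm (g.spin (sp none)) (g.inside y)
  have hP' : ∀ y0 y, ∀ ψ ∈ (tSys P (fun j => sp (some j)) L).D, Pr (y0, y) ψ →
      insT P sp (fy f (t0 (sp none)) (c y)) ψ ∈ (tSys P sp L).D ∧
      Pr0 y0 (insT P sp (fy f (t0 (sp none)) (c y)) ψ) ∧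
      (tSys P sp L).nr (insT P sp (fy f (t0 (sp none)) (c y)) ψ) =
        (tSys P (fun j => sp (some j)) L).nr ψ ∧
      q0 y0 (insT P sp (fy f (t0 (sp none)) (c y)) ψ) ≤ q (y0, y) ψ := by
    intro y0 y ψ hψ hp
    obtain ⟨h1, h2, h3⟩ := hP y0 y ψ hψ hp
    refine ⟨(Tst.cre (hadm y) hψ).smul _, h2, ?_, h3⟩
    show nr _ = nr _
    rw [nr, pot_insT g.hl (hadm y).nice.cc (fun t z hz => g.orb.supp _ (fy_ne hz).2)
      (Tst.nice hψ).cc h1 locInt_one fun _ _ _ => rfl, ← nr, nr_tens (hadm y).nice.cc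
      (Tst.nice hψ).cc, g.orb.nr_fy, one_mul]
  refine ⟨h.1.insert hβ _ (Nat.cast_nonneg _) (fun v hv => ?_) hP', h.2.insert _ hP'⟩
  have hv : Tst P sp L v := hv
  have hc := card_Jset_pos sp
  refine ⟨fun y => ((√((Jset sp).card : ℝ) : ℝ) : ℂ) • ann (fy f (t0 (sp none)) (c y)) v,
    fun y => (hv.ann fun t => ((hadm y).nice.cc t).1).smul _, ?_, fun y ψ hψ => ?_⟩
  · show ∑ y, nr _ ≤ _ * nr v
    simp only [nr, pot_smul, ← Finset.mul_sum, Complex.norm_real, Real.norm_eq_abs, sq_abs,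
      Real.sq_sqrt hc.le]
    exact mul_le_mul_of_nonneg_left (sum_nr_ann_le (g.orb.on g.hl _ g.sep) hv.nice) hc.le
  · show ‖ip _ _‖ = ‖ip _ _‖
    rw [insT, ip_smul_left, ip_cre (hadm y).nice.cc (Tst.nice hψ).cc hv, ip_smul_right,
      ← mul_assoc, Complex.conj_ofReal]
    congr 2
    have h1 : (√((Jset sp).card : ℝ))⁻¹ * (Jset sp).card = √((Jset sp).card : ℝ) := by
      have := Real.sqrt_pos.mpr hc
      field_simp
      exact (Real.sq_sqrt hc.le).symm
    exact_mod_cast h1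

/-! localisation on holes -/

theorem BG.split {P : Species σ Sp} {sp : ι → σ} {L l : ℝ} (hl : 0 < l) {c : Y → E}
    (g : Grid l c (Fintype.card ι)) {Y0 : Type} [Fintype Y0]
    {Pr : Y0 × Y → Wv ι Sp → Prop} {q : Y0 × Y → Wv ι Sp → ℝ} {β Z E : ℝ}
    (h : BG P sp L (Y0 × Y) Pr q β Z E) (hβ : 0 ≤ β)
    {Pr' : Y0 → Wv ι Sp → Prop} {q' : Y0 → Wv ι Sp → ℝ}
    (hP : ∀ y0 ψ, Tst P sp L ψ → Pr' y0 ψ → (∀ y, Pr (y0, y) (mulF (Gt hl c y) ψ)) ∧
      ∑ y, q (y0, y) (mulF (Gt hl c y) ψ) ≤ q' y0 ψ) :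
    BG P sp L Y0 Pr' q' β (2 / Fintype.card Y * Z) E := by
  have hT : ∀ y, ∀ ψ ∈ (tSys P sp L).D, mulF (Gt hl c y) ψ ∈ (tSys P sp L).D := fun y ψ hψ =>
    Tst.mulF hψ (g.contDiff hl y) fun i j x => Gt_rel hl c y _ x
  have hn : ∀ ψ ∈ (tSys P sp L).D, ∑ y, (tSys P sp L).nr (mulF (Gt hl c y) ψ) =
      (tSys P sp L).nr ψ := fun ψ hψ =>
    pot_part (fun y => (g.contDiff hl y).continuous) (g.sum_sq hl) locInt_one (Tst.nice hψ).cc
  refine ⟨h.1.split hβ _ (by positivity) hT hn (fun y v hv => ⟨_, hT y v hv, ?_, fun ψ _ => ?_⟩)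
    hP, h.2.split _ hT hn hP⟩
  · show nr _ ≤ _ * nr v
    rw [nr, nr, pot_mulF, ← pot_const_mul]
    exact pot_mono (((g.contDiff hl y).continuous.pow 2).mul continuous_const).locallyIntegrable
      (locallyIntegrable_const _) (Tst.nice hv).cc fun x =>
        mul_le_mul_of_nonneg_right (g.sq_le hl y x) zero_le_one
  · show ‖ip _ _‖ = ‖ip _ _‖
    rw [ip_mulF]

theorem kin_split {l : ℝ} (hl : 0 < l) {c : Y → E} (g : Grid l c (Fintype.card ι)) {D : ℝ}
    (hD : ∀ z, ‖fderiv ℝ (bp hl) z‖ ≤ D) {ψ : Wv ι Sp} (hψ : Nice ψ) (i : ι) :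
    kin i ψ ≤ ∑ y, kin i (mulF (Gt hl c y) ψ) ∧
    ∑ y, kin i (mulF (Gt hl c y) ψ) ≤ kin i ψ + 3 * (D ^ 2 * (2 / Fintype.card Y)) * nr ψ := by
  unfold kin
  rw [Finset.sum_comm]
  simp only [ims (g.contDiff hl) (g.sum_sq hl) hψ, Finset.sum_add_distrib]
  constructor
  · exact le_add_of_nonneg_right (Finset.sum_nonneg fun k _ =>
      pot_nonneg (fun x => Finset.sum_nonneg fun _ _ => sq_nonneg _) _)
  · have h1 : ∀ k, pot (fun x => ∑ y, (fderiv ℝ (Gt hl c y) x (dir i k)) ^ 2) ψ ≤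
        D ^ 2 * (2 / Fintype.card Y) * nr ψ := by
      intro k
      rw [nr, ← pot_const_mul]
      refine pot_mono (continuous_finsetSum _ fun y _ =>
        ((((g.contDiff hl y).continuous_fderiv (by simp)).clm_apply continuous_const).pow
          2)).locallyIntegrable (locallyIntegrable_const _) hψ.cc fun x => ?_
      rw [mul_one]
      exact g.deriv_le hl hD x i k
    have h2 := Finset.sum_le_sum fun k (_ : k ∈ Finset.univ) => h1 k
    rw [Finset.sum_const, Finset.card_univ, Fintype.card_fin, nsmul_eq_mul] at h2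
    push_cast at h2
    linarith

theorem en_split {P : Species σ Sp} (hm : ∀ s, 0 < P.mass s) {I : ℝ}
    (hI : ∀ s, 1 / (2 * P.mass s) ≤ I) (hI0 : 0 ≤ I) (sp : ι → σ) {l : ℝ} (hl : 0 < l) {c : Y → E}
    (g : Grid l c (Fintype.card ι)) {D : ℝ} (hD : ∀ z, ‖fderiv ℝ (bp hl) z‖ ≤ D) {ψ : Wv ι Sp}
    (hψ : Nice ψ) :
    ∑ y, en P sp (mulF (Gt hl c y) ψ) ≤ en P sp ψ + 3 * D ^ 2 * I * nr ψ := by
  unfold en
  rw [Finset.sum_add_distrib, pot_part (fun y => (g.contDiff hl y).continuous) (g.sum_sq hl)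
    (locInt_coulomb _) hψ.cc, Finset.sum_comm]
  have h0 : (0 : ℝ) < Fintype.card Y := by exact_mod_cast g.pos
  have h1 : ∀ i, ∑ y, kin i (mulF (Gt hl c y) ψ) / (2 * P.mass (sp i)) ≤
      kin i ψ / (2 * P.mass (sp i)) + 3 * (D ^ 2 * (2 / Fintype.card Y)) * nr ψ * I := by
    intro i
    have h2 := hm (sp i)
    rw [← Finset.sum_div]
    refine (div_le_div_of_nonneg_right (kin_split hl g hD hψ i).2 (by positivity)).trans ?_
    rw [add_div, div_eq_mul_one_div (3 * _ * _)]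
    have := nr_nonneg ψ
    exact add_le_add le_rfl (mul_le_mul_of_nonneg_left (hI _) (by positivity))
  have h3 := Finset.sum_le_sum fun i (_ : i ∈ Finset.univ) => h1 i
  rw [Finset.sum_add_distrib, Finset.sum_const, Finset.card_univ, nsmul_eq_mul] at h3
  have h4 : (Fintype.card ι : ℝ) * (2 / Fintype.card Y) ≤ 1 := by
    have : (2 * Fintype.card ι : ℝ) ≤ Fintype.card Y := by exact_mod_cast g.big
    rw [← mul_div_assoc, div_le_one h0]
    linarith
  have h5 : 0 ≤ 3 * D ^ 2 * I * nr ψ := by have := nr_nonneg ψ; positivity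
  have h6 := mul_le_mul_of_nonneg_right h4 h5
  nlinarith

/-! removal -/

theorem ann_mulF (χ : E → ℝ) (f : Sp → E → ℂ) (u : Wv (Option κ) Sp) :
    ann (mulF χ f) u = ann f (mulF (fun x => χ (x none)) u) := by
  funext τ x
  exact ip_mulF χ f _

theorem nr_cut {L : ℝ} (hL : 0 < L) (χ : ContDiffBump (0 : E)) (hr : χ.rOut ≤ L / 2)
    (α : (Fin 3 → ℤ) × Sp) : nr (mulF χ (fm L α)) ≤ 1 := by
  have hp : 0 < L ^ 3 := by positivity
  have h1 : nr (mulF χ (fm L α)) = (L ^ 3)⁻¹ * ∫ z, χ z ^ 2 := by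
    unfold nr pot
    rw [Finset.sum_eq_single α.2, ← integral_const_mul]
    · refine integral_congr_ae (ae_of_all _ fun z => ?_)
      have h2 : ‖ek L α.1 z‖ = 1 := by
        have : ek L α.1 z = Complex.exp ((∑ d, 2 * Real.pi * α.1 d / L * z d : ℝ) * Complex.I) := by
          unfold ek
          congr 1
          push_cast
          rw [Finset.sum_mul]
          exact Finset.sum_congr rfl fun d _ => by ring
        rw [this, Complex.norm_exp_ofReal_mul_I]
      simp only [mulF, fm, if_true, norm_mul, h2, Complex.norm_real, Real.norm_eq_abs, mul_pow,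
        sq_abs, inv_pow, Real.sq_sqrt hp.le]
      ring
    · intro t _ ht
      simp [mulF, fm, ht]
    · simp
  have h3 : ∫ z, χ z ^ 2 ≤ ∫ z, χ z :=
    integral_mono_of_nonneg (ae_of_all _ fun z => sq_nonneg _) χ.integrable
      (ae_of_all _ fun z => by
        have := χ.nonneg (x := z)
        have := χ.le_one (x := z)
        show χ z ^ 2 ≤ χ z
        nlinarith)
  have h4 := χ.integral_le_measure_closedBall (μ := volume)
  rw [Measure.real, Real.volume_pi_closedBall _ χ.rOut_pos.le, ENNReal.toReal_ofReal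
    (by have := χ.rOut_pos; positivity), Fintype.card_fin] at h4
  have h5 : (2 * χ.rOut) ^ 3 ≤ L ^ 3 :=
    pow_le_pow_left₀ (by have := χ.rOut_pos; positivity) (by linarith) 3
  rw [h1, inv_mul_le_iff₀ hp]
  linarith

theorem rem_adj {P : Species σ Sp} {sp : Option κ → σ} {L a : ℝ} (hL : 0 < L) (ha : 0 < a)
    (Γ : Type) [Fintype Γ] (φ : Γ → Wv (Option κ) Sp) (hφ : ∀ γ, Tst P sp L (φ γ)) (v : Wv κ Sp)
    (hv : Tst P (fun j => sp (some j)) L v) : ∃ v' : (Fin 3 → ℤ) × Sp → Wv (Option κ) Sp,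
      (∀ α, Tst P sp L (v' α)) ∧ (∀ F : Finset ((Fin 3 → ℤ) × Sp), ∑ α ∈ F, wt a α * nr (v' α) ≤
        (Fintype.card Sp * (1 + 4 * a) ^ 3 + Fintype.card κ) / (Jset sp).card * nr v) ∧
      ∀ α γ, ‖ip (ann (fm L α) (φ γ)) v‖ = ‖ip (φ γ) (v' α)‖ := by
  obtain ⟨r, hr0, hr, hs⟩ : ∃ r, 0 < r ∧ r < L / 2 ∧ ∀ γ, Supp r (φ γ) := by
    choose r hr hs using fun γ => (hφ γ).supp
    obtain ⟨r', hr', h1⟩ : ∃ r', r' < L / 2 ∧ ∀ γ, r γ ≤ r' := by
      rcases isEmpty_or_nonempty Γ with h | h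
      · exact ⟨0, half_pos hL, fun γ => isEmptyElim γ⟩
      · obtain ⟨γ, hγ⟩ := Finite.exists_max r
        exact ⟨r γ, hr γ, hγ⟩
    exact ⟨max r' (L / 4), lt_max_of_lt_right (by positivity), max_lt hr' (by linarith),
      fun γ τ x hx i => (hs γ τ x hx i).trans ((h1 γ).trans (le_max_left _ _))⟩
  let χ : ContDiffBump (0 : E) := ⟨r, (r + L / 2) / 2, hr0, by linarith⟩
  have hχ : χ.rOut < L / 2 := by show (r + L / 2) / 2 < L / 2; linarith
  classical
  let g : (Fin 3 → ℤ) × Sp → Sp → E → ℂ := fun α =>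
    if α.2 ∈ P.spins (sp none) then mulF χ (fm L α) else 0
  have hn : ∀ α : (Fin 3 → ℤ) × Sp, Nice (mulF χ (fm L α)) := fun α t =>
    ⟨(Complex.ofRealCLM.contDiff.comp χ.contDiff).mul (contDiff_fm L α t),
      (χ.hasCompactSupport.comp_left (g := fun t : ℝ => (t : ℂ)) (by simp)).mul_right⟩
  have hadm : ∀ α, Adm P (sp none) L (g α) := by
    intro α
    simp only [g]
    split_ifs with h
    · refine ⟨hn α, ⟨_, hχ, fun t z hz => ?_⟩, fun t z hz => ?_⟩
      · have h1 : z ∈ Function.support χ := fun h0 => hz (by simp [mulF, h0])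
        rw [χ.support_eq, mem_ball_zero_iff] at h1
        exact h1.le
      · have : t = α.2 := by
          by_contra h0
          exact hz (by simp [mulF, fm, h0])
        exact this ▸ h
    · exact ⟨Nice.zero, ⟨0, half_pos hL, fun t z hz => (hz rfl).elim⟩, fun t z hz => (hz rfl).elim⟩
  have hc := card_Jset_pos sp
  have hann0 : ∀ {κ : Type} [Fintype κ] [DecidableEq κ] (u : Wv (Option κ) Sp),
      ann (0 : Sp → E → ℂ) u = 0 := by
    intro κ _ _ u
    funext τ x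
    simp [ann_eq]
  refine ⟨fun α => (((Jset sp).card : ℂ))⁻¹ • cre P sp (g α) v,
    fun α => (hv.cre (hadm α)).smul _, fun F => ?_, fun α γ => ?_⟩
  · have h1 : ∀ α, nr (g α) ≤ 1 := by
      intro α
      simp only [g]
      split_ifs
      · exact nr_cut hL χ hχ.le α
      · simp [nr, pot]
    have h2 : ∀ j, ∑ α ∈ F, wt a α * nr (ann (g α) (rel (Equiv.optionSubtypeNe j).symm v)) ≤
        nr v := by
      intro j
      obtain ⟨r', hr', hs'⟩ := hv.supp
      set v' := rel (Equiv.optionSubtypeNe j).symm v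
      have hv'n : Nice v' := hv.nice.rel _
      have hcd : ContDiff ℝ (⊤ : ℕ∞) fun x : X (Option {b // b ≠ j}) => χ (x none) :=
        χ.contDiff.comp (contDiff_apply ℝ E none)
      have hs'' : Supp r' (mulF (fun x => χ (x none)) v') := fun τ x hx i => by
        have := hs' _ _ (right_ne_zero_of_mul hx) (Equiv.optionSubtypeNe j i)
        rwa [Function.comp_apply, Equiv.symm_apply_apply] at this
      have h3 := sum_le_hasSum F (fun _ _ => nr_nonneg _)
        (hasSum_nr_ann hL (hv'n.mulF hcd) hr' hs'')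
      have h4 : nr (mulF (fun x => χ (x none)) v') ≤ nr v := by
        rw [← nr_rel (Equiv.optionSubtypeNe j).symm v, nr, nr, pot_mulF]
        refine pot_mono ((hcd.continuous.pow 2).mul continuous_const).locallyIntegrable
          locInt_one hv'n.cc fun x => ?_
        exact (mul_one _).trans_le (pow_le_one₀ χ.nonneg χ.le_one)
      refine le_trans (Finset.sum_le_sum fun α _ => ?_) (h3.trans h4)
      refine (mul_le_of_le_one_left (nr_nonneg _) (wt_le_one a α)).trans ?_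
      simp only [g]
      split_ifs
      · rw [ann_mulF]
      · rw [hann0]
        simpa [nr, pot] using nr_nonneg (ann (fm L α) (mulF (fun x => χ (x none)) v'))
    have h5 : ∀ α, wt a α * nr ((((Jset sp).card : ℂ))⁻¹ • cre P sp (g α) v) ≤
        ((Jset sp).card : ℝ)⁻¹ * (wt a α * nr v +
          ∑ j, wt a α * nr (ann (g α) (rel (Equiv.optionSubtypeNe j).symm v))) := by
      intro α
      have h6 := nr_cre_le (hadm α) hv
      have h7 : nr (g α) * nr v ≤ nr v := mul_le_of_le_one_left (nr_nonneg _) (h1 α)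
      rw [nr, pot_smul, ← nr, norm_inv, Complex.norm_natCast, ← Finset.mul_sum, ← mul_add,
        mul_left_comm (((Jset sp).card : ℝ)⁻¹)]
      refine mul_le_mul_of_nonneg_left ?_ (wt_pos a α).le
      rw [sq, mul_assoc]
      refine mul_le_mul_of_nonneg_left ?_ (inv_nonneg.mpr hc.le)
      rw [inv_mul_le_iff₀ hc]
      exact h6.trans (mul_le_mul_of_nonneg_left (add_le_add h7 le_rfl) hc.le)
    refine (Finset.sum_le_sum fun α _ => h5 α).trans ?_
    rw [← Finset.mul_sum, Finset.sum_add_distrib, Finset.sum_comm, ← Finset.sum_mul,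
      div_eq_inv_mul, mul_assoc, add_mul]
    refine mul_le_mul_of_nonneg_left (add_le_add
      (mul_le_mul_of_nonneg_right (sum_wt ha F) (nr_nonneg v)) ?_) (inv_nonneg.mpr hc.le)
    refine (Finset.sum_le_sum fun j _ => h2 j).trans (le_of_eq ?_)
    simp
  · have h1 : ann (g α) (φ γ) = ann (fm L α) (φ γ) := by
      simp only [g]
      split_ifs with h
      · rw [ann_mulF]
        congr 1
        funext τ x
        by_cases hx : φ γ τ x = 0
        · simp [mulF, hx]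
        · simp [mulF, χ.one_of_mem_closedBall (mem_closedBall_zero_iff.mpr (hs γ τ x hx none))]
      · rw [hann0]
        funext τ x
        rw [ann_eq]
        refine (Finset.sum_eq_zero fun t _ => ?_).symm
        refine integral_eq_zero_of_ae (ae_of_all _ fun z => ?_)
        by_contra h0
        have h2 := (hφ γ).spin _ _ (right_ne_zero_of_mul h0) none
        have h3 : t = α.2 := by
          by_contra h4
          exact h0 (by simp [fm, h4])
        exact h (h3 ▸ h2)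
    have hc' : ((Jset sp).card : ℂ) ≠ 0 := by exact_mod_cast hc.ne'
    rw [ip_smul_right, ← ip_symm (φ γ), ip_cre (hadm α).nice.cc hv.nice.cc (hφ γ), h1, map_mul,
      ip_symm, map_natCast, ← mul_assoc, inv_mul_cancel₀ hc', one_mul]

noncomputable def gain (P : Species σ Sp) (sp : ι → σ) (i : ι) (ψ : Wv ι Sp) : ℝ :=
  kin i ψ / (4 * P.mass (sp i)) + pot (potl (fun j => P.charge (sp j)) i) ψ

theorem BG.remove {P : Species σ Sp} (hm : ∀ s, 0 < P.mass s) {sp : Option κ → σ} {L a β : ℝ}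
    (hL : 0 < L) (ha : 0 < a) (hβ : 0 < β)
    (hw : β⁻¹ / a ^ 2 ≤ (2 * Real.pi / L) ^ 2 / (4 * P.mass (sp none)))
    {Pr' : Y → Wv κ Sp → Prop} (θ : κ → ℝ) {U : Y → X κ → ℝ} (hU : ∀ y, LocallyIntegrable (U y))
    {Z E : ℝ} (h : BG P (fun j => sp (some j)) L Y Pr' (fun y φ =>
      en P (fun j => sp (some j)) φ + ∑ j, θ j * kin j φ + pot (U y) φ) β Z E)
    {Pr : Y → Wv (Option κ) Sp → Prop}
    (hP : ∀ y u, Pr y u → ∀ f, Pr' y (ann f u)) :
    BG P sp L Y Pr (fun y u => en P sp u - gain P sp none u + ∑ j, θ j * kin (some j) u +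
      pot (fun x => U y (x ∘ some)) u) β
      ((Fintype.card Sp * (1 + 4 * a) ^ 3 + Fintype.card κ) / (Jset sp).card * Z) E := by
  have key : ∀ y u, Tst P sp L u → HasSum (fun α => nr (ann (fm L α) u)) (nr u) ∧
      HasSum (fun α : (Fin 3 → ℤ) × Sp => en P (fun j => sp (some j)) (ann (fm L α) u) +
        ∑ j, θ j * kin j (ann (fm L α) u) + pot (U y) (ann (fm L α) u))
      (en P sp u - kin none u / (2 * P.mass (sp none)) -
        pot (potl (fun i => P.charge (sp i)) none) u + ∑ j, θ j * kin (some j) u +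
        pot (fun x => U y (x ∘ some)) u) ∧
      ∃ e, e ≤ kin none u / (4 * P.mass (sp none)) ∧ HasSum (fun α : (Fin 3 → ℤ) × Sp =>
        -(β⁻¹ * Real.log (wt a α) * nr (ann (fm L α) u))) e := by
    intro y u hu
    obtain ⟨r, hr, hs⟩ := hu.supp
    refine ⟨hasSum_nr_ann hL hu.nice hr hs, ((hasSum_en_ann P sp hL hu.nice hr hs).add
      (hasSum_sum fun j _ => HasSum.mul_left _ ?_)).add
      (hasSum_pot_ann hL hu.nice hr hs (hU y)), ?_⟩
    · refine hasSum_sum fun d _ => ?_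
      simp only [Dv_ann (continuous_fm L _) hu.nice]
      exact hasSum_nr_ann hL (hu.nice.dv _) hr (hs.dv _)
    · have h1 := (hasSum_kin_none hL hu.nice hr hs).div_const (4 * P.mass (sp none))
      have h2 : ∀ α : (Fin 3 → ℤ) × Sp, -(β⁻¹ * Real.log (wt a α) * nr (ann (fm L α) u)) ≤
          (∑ d, (2 * Real.pi * α.1 d / L) ^ 2) * nr (ann (fm L α) u) / (4 * P.mass (sp none)) := by
        intro α
        rw [mul_div_right_comm, ← neg_mul, ← mul_neg]
        refine mul_le_mul_of_nonneg_right ?_ (nr_nonneg _)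
        refine (mul_le_mul_of_nonneg_left (neg_log_wt a α) (inv_pos.mpr hβ).le).trans ?_
        rw [Finset.mul_sum, Finset.sum_div]
        refine Finset.sum_le_sum fun d _ => ?_
        have := mul_le_mul_of_nonneg_right hw (sq_nonneg (α.1 d : ℝ))
        calc _ = β⁻¹ / a ^ 2 * (α.1 d : ℝ) ^ 2 := by ring
          _ ≤ _ := this
          _ = _ := by ring
      have h3 : ∀ α : (Fin 3 → ℤ) × Sp, 0 ≤ -(β⁻¹ * Real.log (wt a α) * nr (ann (fm L α) u)) := by
        intro α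
        rw [← neg_mul, ← mul_neg]
        exact mul_nonneg (mul_nonneg (inv_pos.mpr hβ).le (neg_nonneg.mpr
          (Real.log_nonpos (wt_pos a α).le (wt_le_one a α)))) (nr_nonneg _)
      have h4 := Summable.of_nonneg_of_le h3 h2 h1.summable
      exact ⟨_, hasSum_le h2 h4.hasSum h1, h4.hasSum⟩
  have hk : ∀ u : Wv (Option κ) Sp, kin none u / (2 * P.mass (sp none)) =
      2 * (kin none u / (4 * P.mass (sp none))) := fun u => by
    have := hm (sp none)
    field_simp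
    ring
  constructor
  · refine h.1.remove (S := tSys P sp L) hβ (fun α => ann (fm L α)) (wt a) (wt_pos a)
      (by have := card_Jset_pos sp; positivity)
      (fun Γ _ φ hφ v hv => rem_adj hL ha Γ φ hφ v hv) fun y u hu hp => ?_
    obtain ⟨h1, h2, e, he, h3⟩ := key y u hu
    refine ⟨fun α => ⟨Tst.ann (continuous_fm L α) hu, hP y u hp _⟩, h1, _, ?_,
      (h2.add h3).congr_fun fun α => (sub_eq_add_neg _ _)⟩
    simp only [gain, hk]
    linarith
  · refine h.2.remove (S := tSys P sp L) (fun α => ann (fm L α)) fun y u hu hp => ?_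
    obtain ⟨h1, h2, -⟩ := key y u hu
    refine ⟨fun α => ⟨Tst.ann (continuous_fm L α) hu, hP y u hp _⟩, h1, _, ?_, h2⟩
    simp only [gain, hk]
    have : 0 ≤ kin none u / (4 * P.mass (sp none)) := by
      have := hm (sp none)
      have := kin_nonneg none u
      positivity
    linarith

end Pool.Agent.Lib.MP_0655ed_mp
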