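import Pool.Agent.Lib.MP_0655ed_mp.Four

open scoped ComplexConjugate
open Finset MeasureTheory

set_option linter.unusedSectionVars false
set_option maxHeartbeats 400000

namespace Pool.Agent.Lib.MP_0655ed_mp

theorem normalise_deriv {Y Z : Type} [Fintype Y] [NormedAddCommGroup Z] [NormedSpace ℝ Z]
    {G : Y → Z → ℝ} (hG : ∀ y, Differentiable ℝ (G y)) (x v : Z) (hS : 0 < ∑ y, G y x ^ 2) :
    ∑ y, (fderiv ℝ (fun x => G y x * (√(∑ y, G y x ^ 2))⁻¹) x v) ^ 2 ≤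
      (∑ y, (fderiv ℝ (G y) x v) ^ 2) / ∑ y, G y x ^ 2 := by
  set s := ∑ y, G y x ^ 2 with hs
  set A := ∑ y, G y x * fderiv ℝ (G y) x v with hA
  have h1 : HasFDerivAt (fun x => ∑ y, G y x ^ 2)
      (∑ y, (2 • G y x ^ (2 - 1)) • fderiv ℝ (G y) x) x :=
    HasFDerivAt.fun_sum fun y _ => (hG y x).hasFDerivAt.pow 2
  have h2 := h1.sqrt hS.ne'
  have hr : 0 < √s := Real.sqrt_pos.mpr hS
  have h3 := (hasDerivAt_inv hr.ne').comp_hasFDerivAt x h2
  have hrr : √s * √s = s := Real.mul_self_sqrt hS.le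
  have h4 : ∀ y, fderiv ℝ (fun x => G y x * (√(∑ y, G y x ^ 2))⁻¹) x v =
      (fderiv ℝ (G y) x v - G y x * A / s) / √s := by
    intro y
    have h5 := ((hG y x).hasFDerivAt.mul h3).fderiv
    have h6 : (fun x => G y x * (√(∑ y, G y x ^ 2))⁻¹) =
        G y * ((fun t : ℝ => t⁻¹) ∘ fun x => √(∑ y, G y x ^ 2)) := rfl
    rw [h6, h5]
    simp only [_root_.add_apply, _root_.smul_apply, _root_.sum_apply, smul_eq_mul,
      Function.comp_apply, nsmul_eq_mul, Nat.cast_ofNat, Nat.add_one_sub_one, pow_one, mul_assoc,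
      ← Finset.mul_sum, ← hs, ← hA, Real.sq_sqrt hS.le]
    field_simp
    ring
  simp only [h4, div_pow, Real.sq_sqrt hS.le, ← Finset.sum_div]
  refine div_le_div_of_nonneg_right ?_ hS.le
  have h7 : ∀ y, (fderiv ℝ (G y) x v - G y x * A / s) ^ 2 = (fderiv ℝ (G y) x v) ^ 2 -
      2 * A / s * (G y x * fderiv ℝ (G y) x v) + (A / s) ^ 2 * G y x ^ 2 := fun y => by ring
  simp only [h7, Finset.sum_add_distrib, Finset.sum_sub_distrib, ← Finset.mul_sum, ← hs, ← hA]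
  have h8 : (A / s) ^ 2 * s = A ^ 2 / s := by field_simp
  have h9 : 2 * A / s * A = 2 * (A ^ 2 / s) := by ring
  have h10 : 0 ≤ A ^ 2 / s := by positivity
  linarith

variable {ι ι' Y : Type} [Fintype ι] [DecidableEq ι] [Fintype ι'] [DecidableEq ι'] [Fintype Y]

noncomputable def bp {l : ℝ} (hl : 0 < l) : ContDiffBump (0 : E) :=
  ⟨2 * l, 3 * l, by positivity, by linarith⟩

theorem exists_D {l : ℝ} (hl : 0 < l) : ∃ D : ℝ, ∀ z, ‖fderiv ℝ (bp hl) z‖ ≤ D :=
  (((bp hl).contDiff (n := 1)).continuous_fderiv (by simp)).bounded_above_of_compact_support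
    ((bp hl).hasCompactSupport.fderiv ℝ)

noncomputable def G0 {l : ℝ} (hl : 0 < l) (c : Y → E) (y : Y) (x : X ι) : ℝ :=
  ∏ j, (1 - bp hl (x j - c y))

noncomputable def Gt {l : ℝ} (hl : 0 < l) (c : Y → E) (y : Y) (x : X ι) : ℝ :=
  G0 hl c y x * (√(∑ y, G0 hl c y x ^ 2))⁻¹

theorem G0_rel {l : ℝ} (hl : 0 < l) (c : Y → E) (y : Y) (e : ι ≃ ι') (x : X ι') :
    G0 hl c y (x ∘ e) = G0 hl c y x :=
  e.prod_comp fun j => 1 - bp hl (x j - c y)

theorem Gt_rel {l : ℝ} (hl : 0 < l) (c : Y → E) (y : Y) (e : ι ≃ ι') (x : X ι') :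
    Gt hl c y (x ∘ e) = Gt hl c y x := by
  simp only [Gt, G0_rel]

theorem contDiff_G0 {l : ℝ} (hl : 0 < l) (c : Y → E) (y : Y) :
    ContDiff ℝ (⊤ : ℕ∞) (G0 (ι := ι) hl c y) :=
  contDiff_prod fun j _ => contDiff_const.sub
    ((bp hl).contDiff.comp ((contDiff_apply ℝ E j).sub contDiff_const))

theorem G0_sq_le {l : ℝ} (hl : 0 < l) (c : Y → E) (y : Y) (x : X ι) : G0 hl c y x ^ 2 ≤ 1 :=
  pow_le_one₀ (Finset.prod_nonneg fun _ _ => sub_nonneg.mpr (bp hl).le_one)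
    (Finset.prod_le_one (fun _ _ => sub_nonneg.mpr (bp hl).le_one)
      fun _ _ => sub_le_self _ (bp hl).nonneg)

def Sep (l : ℝ) (c : Y → E) : Prop := ∀ y y', y ≠ y' → 7 * l ≤ ‖c y - c y'‖

theorem Sep.eq {l : ℝ} (hl : 0 < l) {c : Y → E} (h : Sep l c) {z : E} {y y' : Y}
    (h1 : ‖z - c y‖ ≤ 3 * l) (h2 : ‖z - c y'‖ ≤ 3 * l) : y = y' := by
  by_contra hne
  have h3 := h y y' hne
  have h4 : c y - c y' = (z - c y') - (z - c y) := by abel
  have h5 := norm_sub_le (z - c y') (z - c y)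
  rw [← h4] at h5
  linarith

theorem S_ge {l : ℝ} (hl : 0 < l) {c : Y → E} (h : Sep l c) (x : X ι) :
    (Fintype.card Y : ℝ) - Fintype.card ι ≤ ∑ y, G0 hl c y x ^ 2 := by
  classical
  let B : Finset Y := Finset.univ.filter fun y => ∃ j, ‖x j - c y‖ ≤ 3 * l
  have h1 : B.card ≤ Fintype.card ι := by
    have h2 : B ⊆ Finset.univ.biUnion fun j : ι =>
        Finset.univ.filter fun y => ‖x j - c y‖ ≤ 3 * l := by
      intro y hy
      obtain ⟨j, hj⟩ := (Finset.mem_filter.mp hy).2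
      exact Finset.mem_biUnion.mpr ⟨j, Finset.mem_univ _, Finset.mem_filter.mpr ⟨by simp, hj⟩⟩
    refine (Finset.card_le_card h2).trans (Finset.card_biUnion_le.trans ?_)
    rw [← Finset.card_univ, Finset.card_eq_sum_ones Finset.univ]
    refine Finset.sum_le_sum fun j _ => Finset.card_le_one.mpr fun y hy y' hy' => ?_
    exact h.eq hl (Finset.mem_filter.mp hy).2 (Finset.mem_filter.mp hy').2
  have h3 : ∑ y ∈ Bᶜ, G0 hl c y x ^ 2 = Bᶜ.card := by
    rw [Finset.card_eq_sum_ones]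
    push_cast
    refine Finset.sum_congr rfl fun y hy => ?_
    have : G0 hl c y x = 1 := by
      refine Finset.prod_eq_one fun j _ => ?_
      rw [(bp hl).zero_of_le_dist, sub_zero]
      rw [dist_zero_right]
      by_contra h0
      exact (Finset.mem_compl.mp hy) (Finset.mem_filter.mpr ⟨by simp, j, (not_le.mp h0).le⟩)
    rw [this, one_pow]
  have h4 : ∑ y ∈ Bᶜ, G0 hl c y x ^ 2 ≤ ∑ y, G0 hl c y x ^ 2 :=
    Finset.sum_le_sum_of_subset_of_nonneg (Finset.subset_univ _) fun _ _ _ => sq_nonneg _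
  have h5 : (Bᶜ.card : ℝ) + B.card = Fintype.card Y := by
    exact_mod_cast Finset.card_compl_add_card B
  have h6 : (B.card : ℝ) ≤ Fintype.card ι := by exact_mod_cast h1
  linarith

structure Grid (l : ℝ) (c : Y → E) (n : ℕ) : Prop where
  sep : Sep l c
  pos : 0 < Fintype.card Y
  big : 2 * n ≤ Fintype.card Y

theorem Grid.S_ge {l : ℝ} (hl : 0 < l) {c : Y → E} (h : Grid l c (Fintype.card ι)) (x : X ι) :
    (Fintype.card Y : ℝ) / 2 ≤ ∑ y, G0 hl c y x ^ 2 := by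
  have h1 := Pool.Agent.Lib.MP_0655ed_mp.S_ge hl h.sep x
  have h2 : (2 * Fintype.card ι : ℝ) ≤ Fintype.card Y := by exact_mod_cast h.big
  linarith

theorem Grid.S_pos {l : ℝ} (hl : 0 < l) {c : Y → E} (h : Grid l c (Fintype.card ι)) (x : X ι) :
    0 < ∑ y, G0 hl c y x ^ 2 :=
  lt_of_lt_of_le (half_pos (by exact_mod_cast h.pos)) (h.S_ge hl x)

theorem Grid.contDiff {l : ℝ} (hl : 0 < l) {c : Y → E} (h : Grid l c (Fintype.card ι)) (y : Y) :
    ContDiff ℝ (⊤ : ℕ∞) (Gt (ι := ι) hl c y) :=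
  (contDiff_G0 hl c y).mul (((ContDiff.sum fun y _ => (contDiff_G0 hl c y).pow 2).sqrt
    fun x => (h.S_pos hl x).ne').inv fun x => (Real.sqrt_pos.mpr (h.S_pos hl x)).ne')

theorem Grid.sum_sq {l : ℝ} (hl : 0 < l) {c : Y → E} (h : Grid l c (Fintype.card ι)) (x : X ι) :
    ∑ y, Gt hl c y x ^ 2 = 1 := by
  simp only [Gt, mul_pow, inv_pow, Real.sq_sqrt (h.S_pos hl x).le, ← Finset.sum_mul]
  exact mul_inv_cancel₀ (h.S_pos hl x).ne'

theorem Grid.sq_le {l : ℝ} (hl : 0 < l) {c : Y → E} (h : Grid l c (Fintype.card ι)) (y : Y)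
    (x : X ι) : Gt hl c y x ^ 2 ≤ 2 / Fintype.card Y := by
  simp only [Gt, mul_pow, inv_pow, Real.sq_sqrt (h.S_pos hl x).le]
  have h1 : (0 : ℝ) < Fintype.card Y := by exact_mod_cast h.pos
  calc _ ≤ 1 * (∑ y, G0 hl c y x ^ 2)⁻¹ :=
        mul_le_mul_of_nonneg_right (G0_sq_le hl c y x) (inv_nonneg.mpr (h.S_pos hl x).le)
    _ ≤ ((Fintype.card Y : ℝ) / 2)⁻¹ := by
        rw [one_mul]; exact inv_anti₀ (half_pos h1) (h.S_ge hl x)
    _ = _ := by rw [inv_div]

theorem Gt_hole {l : ℝ} (hl : 0 < l) (c : Y → E) (y : Y) {x : X ι} (hx : Gt hl c y x ≠ 0)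
    (j : ι) : 2 * l ≤ ‖x j - c y‖ := by
  by_contra h0
  apply left_ne_zero_of_mul hx
  refine Finset.prod_eq_zero (Finset.mem_univ j) ?_
  rw [(bp hl).one_of_mem_closedBall, sub_self]
  exact mem_closedBall_zero_iff.mpr (not_le.mp h0).le

theorem fderiv_G0 {l : ℝ} (hl : 0 < l) (c : Y → E) (y : Y) (x : X ι) (j : ι) (k : Fin 3) :
    fderiv ℝ (G0 hl c y) x (dir j k) = -((∏ i ∈ Finset.univ.erase j, (1 - bp hl (x i - c y))) *
      fderiv ℝ (bp hl) (x j - c y) (Pi.single k 1)) := by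
  have hb : Differentiable ℝ (bp hl) := ((bp hl).contDiff (n := 1)).differentiable (by simp)
  have h1 : ∀ i, HasFDerivAt (fun x : X ι => 1 - bp hl (x i - c y))
      (-(fderiv ℝ (bp hl) (x i - c y)).comp (ContinuousLinearMap.proj i)) x := fun i =>
    ((hb _).hasFDerivAt.comp x
      ((ContinuousLinearMap.proj (R := ℝ) (φ := fun _ : ι => E) i).hasFDerivAt.sub_const
        (c y))).const_sub 1
  have h2 := (HasFDerivAt.finsetProd (u := Finset.univ) fun i _ => h1 i).fderiv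
  have h3 : G0 hl c y = fun x : X ι => ∏ i, (1 - bp hl (x i - c y)) := rfl
  rw [h3, h2, _root_.sum_apply, Finset.sum_eq_single j]
  · simp [dir]
  · intro i _ hi
    simp [dir, hi]
  · simp

theorem Grid.deriv_le {l : ℝ} (hl : 0 < l) {c : Y → E} (h : Grid l c (Fintype.card ι)) {D : ℝ}
    (hD : ∀ z, ‖fderiv ℝ (bp hl) z‖ ≤ D) (x : X ι) (j : ι) (k : Fin 3) :
    ∑ y, (fderiv ℝ (Gt hl c y) x (dir j k)) ^ 2 ≤ D ^ 2 * (2 / Fintype.card Y) := by
  classical
  have h0 : (0 : ℝ) < Fintype.card Y := by exact_mod_cast h.pos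
  have h1 := normalise_deriv (G := G0 hl c)
    (fun y => (contDiff_G0 hl c y).differentiable (by simp)) x (dir j k) (h.S_pos hl x)
  refine h1.trans ?_
  have h2 : ∑ y, (fderiv ℝ (G0 hl c y) x (dir j k)) ^ 2 ≤ D ^ 2 := by
    have h3 : ∀ y, (fderiv ℝ (G0 hl c y) x (dir j k)) ^ 2 ≤ D ^ 2 := by
      intro y
      rw [fderiv_G0, neg_sq, mul_pow]
      have h4 : (∏ i ∈ Finset.univ.erase j, (1 - bp hl (x i - c y))) ^ 2 ≤ 1 :=
        pow_le_one₀ (Finset.prod_nonneg fun _ _ => sub_nonneg.mpr (bp hl).le_one)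
          (Finset.prod_le_one (fun _ _ => sub_nonneg.mpr (bp hl).le_one)
            fun _ _ => sub_le_self _ (bp hl).nonneg)
      have h5 : ‖fderiv ℝ (bp hl) (x j - c y) (Pi.single k 1)‖ ≤ D := by
        refine (ContinuousLinearMap.le_opNorm _ _).trans ?_
        rw [Pi.norm_single, norm_one, mul_one]
        exact hD _
      have h6 := pow_le_pow_left₀ (norm_nonneg _) h5 2
      rw [Real.norm_eq_abs, sq_abs] at h6
      exact (mul_le_mul h4 h6 (sq_nonneg _) zero_le_one).trans (le_of_eq (one_mul _))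
    have h7 : ∀ y, ¬ ‖x j - c y‖ ≤ 3 * l → (fderiv ℝ (G0 hl c y) x (dir j k)) ^ 2 = 0 := by
      intro y hy
      have : fderiv ℝ (bp hl) (x j - c y) = 0 := by
        by_contra h8
        have := support_fderiv_subset ℝ h8
        rw [(bp hl).tsupport_eq, mem_closedBall_zero_iff] at this
        exact hy this
      simp [fderiv_G0, this]
    by_cases h9 : ∃ y, ‖x j - c y‖ ≤ 3 * l
    · obtain ⟨y, hy⟩ := h9
      rw [Finset.sum_eq_single y (fun y' _ hne => h7 y' fun hy' => hne (h.sep.eq hl hy' hy))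
        (by simp)]
      exact h3 y
    · push Not at h9
      rw [Finset.sum_eq_zero fun y _ => h7 y (not_le.mpr (h9 y))]
      positivity
  calc _ ≤ D ^ 2 / ((Fintype.card Y : ℝ) / 2) :=
        div_le_div₀ (sq_nonneg _) h2 (half_pos h0) (h.S_ge hl x)
    _ = _ := by field_simp

/-! the inserted orbitals -/

structure Orb (l : ℝ) (f : E → ℂ) : Prop where
  smooth : ContDiff ℝ (⊤ : ℕ∞) f
  supp : ∀ z, f z ≠ 0 → ‖z‖ ≤ l
  norm : ∫ z, ‖f z‖ ^ 2 = 1

theorem exists_orb {l : ℝ} (hl : 0 < l) : ∃ f, Orb l f := by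
  let b : ContDiffBump (0 : E) := ⟨l / 2, l, by positivity, by linarith⟩
  have h1 : 0 < ∫ z, b z ^ 2 := by
    refine (b.continuous.pow 2).integral_pos_of_hasCompactSupport_nonneg_nonzero
      (b.hasCompactSupport.comp_left (g := fun t : ℝ => t ^ 2) (by simp))
      (fun _ => sq_nonneg _) (x := 0) ?_
    rw [b.one_of_mem_closedBall (Metric.mem_closedBall_self b.rIn_pos.le)]
    simp
  refine ⟨fun z => (((√(∫ z, b z ^ 2))⁻¹ * b z : ℝ) : ℂ),
    Complex.ofRealCLM.contDiff.comp (contDiff_const.mul b.contDiff), fun z hz => ?_, ?_⟩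
  · have : b z ≠ 0 := fun h => hz (by simp [h])
    have h2 : z ∈ Function.support b := this
    rw [b.support_eq, mem_ball_zero_iff] at h2
    exact h2.le
  · simp only [Complex.norm_real, Real.norm_eq_abs, sq_abs, mul_pow, inv_pow, Real.sq_sqrt h1.le,
      integral_const_mul]
    exact inv_mul_cancel₀ h1.ne'

variable {σ Sp : Type} [Fintype Sp] [DecidableEq Sp]

def fy (f : E → ℂ) (t0 : Sp) (y : E) : Sp → E → ℂ := fun t z => if t = t0 then f (z - y) else 0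

theorem fy_ne {f : E → ℂ} {t0 t : Sp} {y z : E} (h : fy f t0 y t z ≠ 0) :
    t = t0 ∧ f (z - y) ≠ 0 := by
  unfold fy at h
  split_ifs at h with h1
  · exact ⟨h1, h⟩
  · exact (h rfl).elim

theorem Orb.nice {l : ℝ} {f : E → ℂ} (h : Orb l f) (t0 : Sp) (y : E) : Nice (fy f t0 y) := by
  intro t
  constructor
  · unfold fy
    split_ifs
    · exact h.smooth.comp (contDiff_id.sub contDiff_const)
    · exact contDiff_const
  · refine HasCompactSupport.intro (isCompact_closedBall y l) fun z hz => ?_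
    by_contra h0
    exact hz (mem_closedBall_iff_norm.mpr (h.supp _ (fy_ne h0).2))

theorem pot_fy (U : E → ℝ) (f : E → ℂ) (t0 : Sp) (y : E) :
    pot U (fy f t0 y) = ∫ z, U z * ‖f (z - y)‖ ^ 2 := by
  unfold pot
  rw [Finset.sum_eq_single t0]
  · simp [fy]
  · intro t _ ht
    simp [fy, ht]
  · simp

theorem Orb.nr_fy {l : ℝ} {f : E → ℂ} (h : Orb l f) (t0 : Sp) (y : E) : nr (fy f t0 y) = 1 := by
  rw [nr, pot_fy]
  simp only [one_mul]
  exact (integral_sub_right_eq_self (fun z => ‖f z‖ ^ 2) y).trans h.norm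

noncomputable def k0 (f : E → ℂ) : ℝ := ∑ k : Fin 3, ∫ z, ‖fderiv ℝ f z (Pi.single k 1)‖ ^ 2

theorem k0_nonneg (f : E → ℂ) : 0 ≤ k0 f :=
  Finset.sum_nonneg fun _ _ => integral_nonneg fun _ => by positivity

theorem kin1_fy (f : E → ℂ) (t0 : Sp) (y : E) : kin1 (fy f t0 y) = k0 f := by
  refine Finset.sum_congr rfl fun k _ => ?_
  have : Dv (Pi.single k 1) (fy f t0 y) = fy (fun z => fderiv ℝ f z (Pi.single k 1)) t0 y := by
    funext t z
    unfold Dv fy
    split_ifs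
    · rw [fderiv_comp_sub]
    · simp
  rw [this, nr, pot_fy]
  simp only [one_mul]
  exact integral_sub_right_eq_self (fun z => ‖fderiv ℝ f z (Pi.single k 1)‖ ^ 2) y

theorem Vf_fy (f : E → ℂ) (t0 t1 : Sp) (y : E) : Vf (fy f t0 y) = Vf (fy f t1 y) := by
  funext w
  simp only [Vf, pot_fy]

theorem Orb.adm {l : ℝ} {f : E → ℂ} (h : Orb l f) {P : Species σ Sp} {s : σ} {t0 : Sp}
    (ht : t0 ∈ P.spins s) {y : E} {L : ℝ} (hy : ‖y‖ + l < L / 2) : Adm P s L (fy f t0 y) := by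
  refine ⟨h.nice t0 y, ⟨_, hy, fun t z hz => ?_⟩, fun t z hz => (fy_ne hz).1 ▸ ht⟩
  have h1 := h.supp _ (fy_ne hz).2
  have h2 := norm_add_le y (z - y)
  rw [add_sub_cancel] at h2
  linarith

theorem Orb.on [DecidableEq Y] {l : ℝ} (hl : 0 < l) {f : E → ℂ} (h : Orb l f) (t0 : Sp)
    {c : Y → E} (hc : Sep l c) : (ccSys Sp E).ON fun y => fy f t0 (c y) := by
  refine ⟨fun y => (h.nice t0 _).cc, fun y y' => ?_⟩
  show ip _ _ = _
  split_ifs with hy
  · rw [hy, ip, ipU_self, ← nr, h.nr_fy]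
    simp
  · refine Finset.sum_eq_zero fun t _ => ?_
    refine integral_eq_zero_of_ae (ae_of_all _ fun z => ?_)
    by_contra h0
    have h1 := right_ne_zero_of_mul h0
    have h2 : fy f t0 (c y) t z ≠ 0 := fun h => left_ne_zero_of_mul h1 (by simp [h])
    exact hy (hc.eq hl ((h.supp _ (fy_ne h2).2).trans (by linarith))
      ((h.supp _ (fy_ne (right_ne_zero_of_mul h1)).2).trans (by linarith)))

theorem sum_nr_ann_le {κ J : Type} [Fintype κ] [DecidableEq κ] [Fintype J] [DecidableEq J]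
    {f : J → Sp → E → ℂ} (hf : (ccSys Sp E).ON f) {u : Wv (Option κ) Sp} (hu : Nice u) :
    ∑ y, nr (ann (f y) u) ≤ nr u := by
  have h1 := pot_rest (U := fun _ => 1) locInt_one hu.cc
  have hi := fun y τ => integrable_pot locInt_one (hu.ann fun t => (hf.1 y t).1).cc τ
  rw [nr, h1.2]
  unfold nr pot
  rw [Finset.sum_comm]
  refine Finset.sum_le_sum fun τ _ => ?_
  rw [← integral_finsetSum _ fun y _ => hi y τ]
  refine integral_mono (integrable_finsetSum _ fun y _ => hi y τ) (h1.1 τ) fun x => ?_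
  simp only [one_mul]
  have := (ccSys Sp E).bessel hf (slice u τ x) (hu.cc.slice τ x)
  simpa only [ccSys, nr, pot, one_mul, ann] using this

/-- a grid of well separated points in the cube -/
theorem exists_grid {l L : ℝ} (hl : 0 < l) (hL : 7 * l ≤ L) :
    ∃ (m : ℕ) (c : (Fin 3 → Fin m) → E), Sep l c ∧ (∀ y, ‖c y‖ + l < L / 2) ∧
      L / (14 * l) ≤ m := by
  have h7 : 0 < 7 * l := by positivity
  refine ⟨⌊L / (7 * l)⌋₊, fun y d => -(L / 2) + 7 * l * (y d + 1 / 2), ?_, ?_, ?_⟩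
  · intro y y' hne
    obtain ⟨d, hd⟩ := Function.ne_iff.mp hne
    refine le_trans ?_ (norm_le_pi_norm _ d)
    simp only [Pi.sub_apply, Real.norm_eq_abs]
    have h1 : -(L / 2) + 7 * l * (y d + 1 / 2) - (-(L / 2) + 7 * l * (y' d + 1 / 2)) =
        7 * l * (((y d : ℕ) : ℤ) - ((y' d : ℕ) : ℤ) : ℤ) := by
      push_cast; ring
    rw [h1, abs_mul, abs_of_pos h7]
    have h2 : (1 : ℤ) ≤ |((y d : ℕ) : ℤ) - ((y' d : ℕ) : ℤ)| :=
      Int.one_le_abs (sub_ne_zero.mpr fun h => hd (Fin.ext (by exact_mod_cast h)))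
    have h3 : (1 : ℝ) ≤ |((((y d : ℕ) : ℤ) - ((y' d : ℕ) : ℤ) : ℤ) : ℝ)| := by exact_mod_cast h2
    nlinarith
  · intro y
    have : ‖fun d => -(L / 2) + 7 * l * (y d + 1 / 2)‖ ≤ L / 2 - 7 * l / 2 := by
      refine (pi_norm_le_iff_of_nonneg (by linarith)).mpr fun d => ?_
      have h1 : ((y d : ℕ) : ℝ) + 1 ≤ L / (7 * l) := by
        have : ((y d : ℕ) + 1 : ℕ) ≤ ⌊L / (7 * l)⌋₊ := (y d).2
        have h2 := Nat.floor_le (a := L / (7 * l)) (by have := h7.le.trans hL; positivity)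
        have h3 : (((y d : ℕ) + 1 : ℕ) : ℝ) ≤ ⌊L / (7 * l)⌋₊ := by exact_mod_cast this
        push_cast at h3
        linarith
      rw [le_div_iff₀ h7] at h1
      have h0 : (0 : ℝ) ≤ (y d : ℕ) := Nat.cast_nonneg _
      rw [Real.norm_eq_abs, abs_le]
      constructor <;> nlinarith
    linarith
  · have h1 : 1 ≤ L / (7 * l) := by rw [le_div_iff₀ h7]; linarith
    have h2 := Nat.lt_floor_add_one (L / (7 * l))
    have h3 : (1 : ℝ) ≤ ⌊L / (7 * l)⌋₊ := by exact_mod_cast Nat.one_le_floor_iff _ |>.mpr h1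
    have h4 : L / (14 * l) = L / (7 * l) / 2 := by field_simp; ring
    linarith

end Pool.Agent.Lib.MP_0655ed_mp
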