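import Pool.Agent.Lib.MP_0655ed_mp.Abstract

open scoped ComplexConjugate
open Finset MeasureTheory

namespace Pool.Agent.Lib.MP_0655ed_mp

section generic
variable {T Y : Type} [Fintype T] [NormedAddCommGroup Y] [NormedSpace ℝ Y] [MeasureSpace Y]
  [BorelSpace Y] [FiniteDimensional ℝ Y] [Measure.IsAddHaarMeasure (volume : Measure Y)]

def Cc (ψ : T → Y → ℂ) : Prop := ∀ τ, Continuous (ψ τ) ∧ HasCompactSupport (ψ τ)

def Nice (ψ : T → Y → ℂ) : Prop := ∀ τ, ContDiff ℝ (⊤ : ℕ∞) (ψ τ) ∧ HasCompactSupport (ψ τ)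

noncomputable def Dv (v : Y) (ψ : T → Y → ℂ) : T → Y → ℂ := fun τ x => fderiv ℝ (ψ τ) x v

noncomputable def pot (U : Y → ℝ) (ψ : T → Y → ℂ) : ℝ := ∑ τ, ∫ x, U x * ‖ψ τ x‖ ^ 2

noncomputable def ipU (U : Y → ℝ) (φ ψ : T → Y → ℂ) : ℂ :=
  ∑ τ, ∫ x, (U x : ℂ) * (conj (φ τ x) * ψ τ x)

noncomputable def nr (ψ : T → Y → ℂ) : ℝ := pot (fun _ => 1) ψ

noncomputable def ip (φ ψ : T → Y → ℂ) : ℂ := ipU (fun _ => 1) φ ψ

def mulF (G : Y → ℝ) (ψ : T → Y → ℂ) : T → Y → ℂ := fun τ x => (G x : ℂ) * ψ τ x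

omit [Fintype T] [MeasureSpace Y] [BorelSpace Y] [FiniteDimensional ℝ Y]
  [Measure.IsAddHaarMeasure (volume : Measure Y)] in
theorem Nice.cc {ψ : T → Y → ℂ} (h : Nice ψ) : Cc ψ := fun τ => ⟨(h τ).1.continuous, (h τ).2⟩

omit [Fintype T] [MeasureSpace Y] [BorelSpace Y] [FiniteDimensional ℝ Y]
  [Measure.IsAddHaarMeasure (volume : Measure Y)] in
theorem Nice.diff {ψ : T → Y → ℂ} (h : Nice ψ) (τ : T) : Differentiable ℝ (ψ τ) :=
  (h τ).1.differentiable (by simp)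

omit [Fintype T] [MeasureSpace Y] [BorelSpace Y] [FiniteDimensional ℝ Y]
  [Measure.IsAddHaarMeasure (volume : Measure Y)] in
theorem Nice.dv {ψ : T → Y → ℂ} (h : Nice ψ) (v : Y) : Nice (Dv v ψ) := fun τ =>
  ⟨((h τ).1.fderiv_right (m := (⊤ : ℕ∞)) (by simp)).clm_apply contDiff_const,
    (h τ).2.fderiv_apply ℝ v⟩

omit [Fintype T] [MeasureSpace Y] [BorelSpace Y] [FiniteDimensional ℝ Y]
  [Measure.IsAddHaarMeasure (volume : Measure Y)] in
theorem Nice.add {φ ψ : T → Y → ℂ} (h : Nice φ) (h' : Nice ψ) : Nice (φ + ψ) := fun τ =>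
  ⟨(h τ).1.add (h' τ).1, (h τ).2.add (h' τ).2⟩

omit [Fintype T] [MeasureSpace Y] [BorelSpace Y] [FiniteDimensional ℝ Y]
  [Measure.IsAddHaarMeasure (volume : Measure Y)] in
theorem Nice.smul {ψ : T → Y → ℂ} (h : Nice ψ) (c : ℂ) : Nice (c • ψ) := fun τ =>
  ⟨(h τ).1.const_smul c, (h τ).2.smul_left (f := fun _ => c)⟩

omit [Fintype T] [MeasureSpace Y] [BorelSpace Y] [FiniteDimensional ℝ Y]
  [Measure.IsAddHaarMeasure (volume : Measure Y)] in
theorem Nice.zero : Nice (0 : T → Y → ℂ) := fun _ =>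
  ⟨contDiff_const, HasCompactSupport.zero⟩

omit [Fintype T] [MeasureSpace Y] [BorelSpace Y] [FiniteDimensional ℝ Y]
  [Measure.IsAddHaarMeasure (volume : Measure Y)] in
theorem Nice.sum {J : Type} (s : Finset J) {ψ : J → T → Y → ℂ} (h : ∀ j ∈ s, Nice (ψ j)) :
    Nice (∑ j ∈ s, ψ j) :=
  Finset.sum_induction _ _ (fun _ _ => Nice.add) Nice.zero h

omit [Fintype T] [MeasureSpace Y] [BorelSpace Y] [FiniteDimensional ℝ Y]
  [Measure.IsAddHaarMeasure (volume : Measure Y)] in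
theorem Nice.mulF {ψ : T → Y → ℂ} (h : Nice ψ) {G : Y → ℝ} (hG : ContDiff ℝ (⊤ : ℕ∞) G) :
    Nice (mulF G ψ) := fun τ =>
  ⟨(Complex.ofRealCLM.contDiff.comp hG).mul (h τ).1, (h τ).2.mul_left⟩

omit [Fintype T] [NormedSpace ℝ Y] [MeasureSpace Y] [BorelSpace Y] [FiniteDimensional ℝ Y]
  [Measure.IsAddHaarMeasure (volume : Measure Y)] in
theorem Cc.mulF {ψ : T → Y → ℂ} (h : Cc ψ) {G : Y → ℝ} (hG : Continuous G) :
    Cc (mulF G ψ) := fun τ =>
  ⟨(Complex.continuous_ofReal.comp hG).mul (h τ).1, (h τ).2.mul_left⟩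

omit [Fintype T] [NormedSpace ℝ Y] [MeasureSpace Y] [BorelSpace Y] [FiniteDimensional ℝ Y]
  [Measure.IsAddHaarMeasure (volume : Measure Y)] in
theorem Cc.add {φ ψ : T → Y → ℂ} (h : Cc φ) (h' : Cc ψ) : Cc (φ + ψ) := fun τ =>
  ⟨(h τ).1.add (h' τ).1, (h τ).2.add (h' τ).2⟩

omit [Fintype T] [NormedSpace ℝ Y] [MeasureSpace Y] [BorelSpace Y] [FiniteDimensional ℝ Y]
  [Measure.IsAddHaarMeasure (volume : Measure Y)] in
theorem Cc.smul {ψ : T → Y → ℂ} (h : Cc ψ) (c : ℂ) : Cc (c • ψ) := fun τ =>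
  ⟨(h τ).1.const_smul c, (h τ).2.smul_left (f := fun _ => c)⟩

omit [Fintype T] [MeasureSpace Y] [BorelSpace Y] [FiniteDimensional ℝ Y]
  [Measure.IsAddHaarMeasure (volume : Measure Y)] in
theorem Dv_add {φ ψ : T → Y → ℂ} (h : Nice φ) (h' : Nice ψ) (v : Y) :
    Dv v (φ + ψ) = Dv v φ + Dv v ψ := by
  funext τ x
  show fderiv ℝ (φ τ + ψ τ) x v = _
  rw [fderiv_add (h.diff τ x) (h'.diff τ x)]
  rfl

omit [Fintype T] [MeasureSpace Y] [BorelSpace Y] [FiniteDimensional ℝ Y]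
  [Measure.IsAddHaarMeasure (volume : Measure Y)] in
theorem Dv_smul {ψ : T → Y → ℂ} (h : Nice ψ) (c : ℂ) (v : Y) :
    Dv v (c • ψ) = c • Dv v ψ := by
  funext τ x
  show fderiv ℝ (c • ψ τ) x v = _
  rw [fderiv_const_smul (h.diff τ x)]
  rfl

omit [Fintype T] [MeasureSpace Y] [BorelSpace Y] [FiniteDimensional ℝ Y]
  [Measure.IsAddHaarMeasure (volume : Measure Y)] in
theorem Dv_sum {J : Type} (s : Finset J) {ψ : J → T → Y → ℂ} (h : ∀ j ∈ s, Nice (ψ j)) (v : Y) :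
    Dv v (∑ j ∈ s, ψ j) = ∑ j ∈ s, Dv v (ψ j) := by
  classical
  induction s using Finset.induction_on with
  | empty => funext τ x; simp [Dv]
  | insert a s ha ih =>
    rw [Finset.sum_insert ha, Finset.sum_insert ha, Dv_add (h a (by simp))
      (Nice.sum s fun j hj => h j (by simp [hj])), ih fun j hj => h j (by simp [hj])]

omit [Fintype T] [MeasureSpace Y] [BorelSpace Y] [FiniteDimensional ℝ Y]
  [Measure.IsAddHaarMeasure (volume : Measure Y)] in
theorem Dv_mulF {ψ : T → Y → ℂ} (h : Nice ψ) {G : Y → ℝ} (hG : Differentiable ℝ G) (v : Y)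
    (τ : T) (x : Y) :
    Dv v (mulF G ψ) τ x = (fderiv ℝ G x v : ℝ) * ψ τ x + G x * Dv v ψ τ x := by
  have h1 : HasFDerivAt (fun x => (G x : ℂ)) (Complex.ofRealCLM.comp (fderiv ℝ G x)) x :=
    Complex.ofRealCLM.hasFDerivAt.comp x (hG x).hasFDerivAt
  have h2 := h1.mul (h.diff τ x).hasFDerivAt
  show fderiv ℝ (fun x => (G x : ℂ) * ψ τ x) x v = _
  rw [show (fun x => (G x : ℂ) * ψ τ x) = (fun x => (G x : ℂ)) * ψ τ from rfl, h2.fderiv]
  simp [Dv]
  ring

omit [Fintype T] [NormedSpace ℝ Y] [FiniteDimensional ℝ Y]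
  [Measure.IsAddHaarMeasure (volume : Measure Y)] in
theorem integrable_pot {U : Y → ℝ} (hU : LocallyIntegrable U) {ψ : T → Y → ℂ} (h : Cc ψ) (τ : T) :
    Integrable (fun x => U x * ‖ψ τ x‖ ^ 2) :=
  hU.integrable_smul_right_of_hasCompactSupport (g := fun x => ‖ψ τ x‖ ^ 2)
    ((h τ).1.norm.pow 2) ((h τ).2.comp_left (g := fun z : ℂ => ‖z‖ ^ 2) (by simp))

omit [Fintype T] [NormedSpace ℝ Y] [FiniteDimensional ℝ Y]
  [Measure.IsAddHaarMeasure (volume : Measure Y)] in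
theorem integrable_ipU {U : Y → ℝ} (hU : LocallyIntegrable U) {φ ψ : T → Y → ℂ}
    (hφ : ∀ τ, Continuous (φ τ)) (h : Cc ψ) (τ : T) :
    Integrable (fun x => (U x : ℂ) * (conj (φ τ x) * ψ τ x)) := by
  have := hU.integrable_smul_right_of_hasCompactSupport (g := fun x => conj (φ τ x) * ψ τ x)
    ((Complex.continuous_conj.comp (hφ τ)).mul (h τ).1) (h τ).2.mul_left
  simpa only [Complex.real_smul] using this

omit [BorelSpace Y] in
theorem locInt_one : LocallyIntegrable (fun _ : Y => (1 : ℝ)) := locallyIntegrable_const 1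

omit [NormedAddCommGroup Y] [NormedSpace ℝ Y] [BorelSpace Y] [FiniteDimensional ℝ Y]
  [Measure.IsAddHaarMeasure (volume : Measure Y)] in
theorem ipU_self (U : Y → ℝ) (ψ : T → Y → ℂ) : ipU U ψ ψ = pot U ψ := by
  unfold ipU pot
  push_cast
  refine Finset.sum_congr rfl fun τ _ => ?_
  rw [← integral_complex_ofReal]
  refine integral_congr_ae (ae_of_all _ fun x => ?_)
  simp only [Complex.conj_mul']
  push_cast
  rfl

omit [NormedAddCommGroup Y] [NormedSpace ℝ Y] [BorelSpace Y] [FiniteDimensional ℝ Y]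
  [Measure.IsAddHaarMeasure (volume : Measure Y)] in
theorem ipU_symm (U : Y → ℝ) (φ ψ : T → Y → ℂ) : conj (ipU U ψ φ) = ipU U φ ψ := by
  unfold ipU
  rw [map_sum]
  refine Finset.sum_congr rfl fun τ _ => ?_
  rw [← integral_conj]
  refine integral_congr_ae (ae_of_all _ fun x => ?_)
  simp only [map_mul, Complex.conj_ofReal, Complex.conj_conj]
  ring

omit [NormedSpace ℝ Y] [FiniteDimensional ℝ Y]
  [Measure.IsAddHaarMeasure (volume : Measure Y)] in
theorem ipU_add {U : Y → ℝ} (hU : LocallyIntegrable U) {φ ψ χ : T → Y → ℂ}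
    (hφ : ∀ τ, Continuous (φ τ)) (h : Cc ψ) (h' : Cc χ) :
    ipU U φ (ψ + χ) = ipU U φ ψ + ipU U φ χ := by
  unfold ipU
  rw [← Finset.sum_add_distrib]
  refine Finset.sum_congr rfl fun τ _ => ?_
  rw [← integral_add (integrable_ipU hU hφ h τ) (integrable_ipU hU hφ h' τ)]
  refine integral_congr_ae (ae_of_all _ fun x => ?_)
  simp only [Pi.add_apply]
  ring

omit [NormedAddCommGroup Y] [NormedSpace ℝ Y] [BorelSpace Y] [FiniteDimensional ℝ Y]
  [Measure.IsAddHaarMeasure (volume : Measure Y)] in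
theorem ipU_smul (U : Y → ℝ) (φ ψ : T → Y → ℂ) (c : ℂ) :
    ipU U φ (c • ψ) = c * ipU U φ ψ := by
  unfold ipU
  rw [Finset.mul_sum]
  refine Finset.sum_congr rfl fun τ _ => ?_
  rw [← integral_const_mul]
  refine integral_congr_ae (ae_of_all _ fun x => ?_)
  simp only [Pi.smul_apply, smul_eq_mul]
  ring

omit [NormedSpace ℝ Y] [FiniteDimensional ℝ Y]
  [Measure.IsAddHaarMeasure (volume : Measure Y)] in
theorem ipU_sum {U : Y → ℝ} (hU : LocallyIntegrable U) {φ : T → Y → ℂ}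
    (hφ : ∀ τ, Continuous (φ τ)) {J : Type} (s : Finset J) {ψ : J → T → Y → ℂ}
    (h : ∀ j ∈ s, Cc (ψ j)) : ipU U φ (∑ j ∈ s, ψ j) = ∑ j ∈ s, ipU U φ (ψ j) := by
  unfold ipU
  rw [Finset.sum_comm]
  refine Finset.sum_congr rfl fun τ _ => ?_
  rw [← integral_finsetSum _ fun j hj => integrable_ipU hU hφ (h j hj) τ]
  refine integral_congr_ae (ae_of_all _ fun x => ?_)
  simp only [Finset.sum_apply, Finset.mul_sum]

omit [NormedAddCommGroup Y] [NormedSpace ℝ Y] [BorelSpace Y] [FiniteDimensional ℝ Y]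
  [Measure.IsAddHaarMeasure (volume : Measure Y)] in
theorem pot_smul (U : Y → ℝ) (ψ : T → Y → ℂ) (c : ℂ) : pot U (c • ψ) = ‖c‖ ^ 2 * pot U ψ := by
  unfold pot
  rw [Finset.mul_sum]
  refine Finset.sum_congr rfl fun τ _ => ?_
  rw [← integral_const_mul]
  refine integral_congr_ae (ae_of_all _ fun x => ?_)
  simp only [Pi.smul_apply, smul_eq_mul, norm_mul]
  ring

omit [NormedAddCommGroup Y] [NormedSpace ℝ Y] [BorelSpace Y] [FiniteDimensional ℝ Y]
  [Measure.IsAddHaarMeasure (volume : Measure Y)] in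
theorem pot_const_mul (U : Y → ℝ) (ψ : T → Y → ℂ) (c : ℝ) :
    pot (fun x => c * U x) ψ = c * pot U ψ := by
  unfold pot
  rw [Finset.mul_sum]
  refine Finset.sum_congr rfl fun τ _ => ?_
  rw [← integral_const_mul]
  refine integral_congr_ae (ae_of_all _ fun x => ?_)
  simp only
  ring

omit [NormedSpace ℝ Y] [FiniteDimensional ℝ Y]
  [Measure.IsAddHaarMeasure (volume : Measure Y)] in
theorem pot_add {U U' : Y → ℝ} (hU : LocallyIntegrable U) (hU' : LocallyIntegrable U')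
    {ψ : T → Y → ℂ} (h : Cc ψ) : pot (fun x => U x + U' x) ψ = pot U ψ + pot U' ψ := by
  unfold pot
  rw [← Finset.sum_add_distrib]
  refine Finset.sum_congr rfl fun τ _ => ?_
  rw [← integral_add (integrable_pot hU h τ) (integrable_pot hU' h τ)]
  refine integral_congr_ae (ae_of_all _ fun x => ?_)
  simp only
  ring

omit [NormedSpace ℝ Y] [FiniteDimensional ℝ Y]
  [Measure.IsAddHaarMeasure (volume : Measure Y)] in
theorem pot_sum {J : Type} (s : Finset J) {U : J → Y → ℝ} (hU : ∀ j ∈ s, LocallyIntegrable (U j))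
    {ψ : T → Y → ℂ} (h : Cc ψ) : pot (fun x => ∑ j ∈ s, U j x) ψ = ∑ j ∈ s, pot (U j) ψ := by
  unfold pot
  rw [Finset.sum_comm]
  refine Finset.sum_congr rfl fun τ _ => ?_
  rw [← integral_finsetSum _ fun j hj => integrable_pot (hU j hj) h τ]
  refine integral_congr_ae (ae_of_all _ fun x => ?_)
  simp only [Finset.sum_mul]

omit [NormedSpace ℝ Y] [FiniteDimensional ℝ Y]
  [Measure.IsAddHaarMeasure (volume : Measure Y)] in
theorem pot_mono {U U' : Y → ℝ} (hU : LocallyIntegrable U) (hU' : LocallyIntegrable U')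
    {ψ : T → Y → ℂ} (h : Cc ψ) (hle : ∀ x, U x ≤ U' x) : pot U ψ ≤ pot U' ψ :=
  Finset.sum_le_sum fun τ _ => integral_mono (integrable_pot hU h τ) (integrable_pot hU' h τ)
    fun x => mul_le_mul_of_nonneg_right (hle x) (by positivity)

omit [NormedAddCommGroup Y] [NormedSpace ℝ Y] [BorelSpace Y] [FiniteDimensional ℝ Y]
  [Measure.IsAddHaarMeasure (volume : Measure Y)] in
theorem pot_nonneg {U : Y → ℝ} (hU : ∀ x, 0 ≤ U x) (ψ : T → Y → ℂ) : 0 ≤ pot U ψ :=
  Finset.sum_nonneg fun _ _ => integral_nonneg fun x => mul_nonneg (hU x) (by positivity)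

omit [NormedAddCommGroup Y] [NormedSpace ℝ Y] [BorelSpace Y] [FiniteDimensional ℝ Y]
  [Measure.IsAddHaarMeasure (volume : Measure Y)] in
theorem nr_nonneg (ψ : T → Y → ℂ) : 0 ≤ nr ψ := pot_nonneg (fun _ => zero_le_one) ψ

omit [NormedAddCommGroup Y] [NormedSpace ℝ Y] [BorelSpace Y] [FiniteDimensional ℝ Y]
  [Measure.IsAddHaarMeasure (volume : Measure Y)] in
theorem pot_mulF (U G : Y → ℝ) (ψ : T → Y → ℂ) :
    pot U (mulF G ψ) = pot (fun x => G x ^ 2 * U x) ψ := by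
  unfold pot
  refine Finset.sum_congr rfl fun τ _ => integral_congr_ae (ae_of_all _ fun x => ?_)
  simp only [mulF, norm_mul, Complex.norm_real, Real.norm_eq_abs, mul_pow, sq_abs]
  ring

omit [NormedAddCommGroup Y] [NormedSpace ℝ Y] [BorelSpace Y] [FiniteDimensional ℝ Y]
  [Measure.IsAddHaarMeasure (volume : Measure Y)] in
theorem ip_mulF (G : Y → ℝ) (φ ψ : T → Y → ℂ) : ip (mulF G φ) ψ = ip φ (mulF G ψ) := by
  unfold ip ipU
  refine Finset.sum_congr rfl fun τ _ => integral_congr_ae (ae_of_all _ fun x => ?_)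
  simp only [mulF, map_mul, Complex.conj_ofReal]
  ring

theorem eq_zero_of_nr {ψ : T → Y → ℂ} (h : Cc ψ) (h0 : nr ψ = 0) : ψ = 0 := by
  funext τ
  have h1 := (Finset.sum_eq_zero_iff_of_nonneg fun τ _ =>
    integral_nonneg fun x => mul_nonneg zero_le_one (by positivity)).mp h0 τ (Finset.mem_univ τ)
  have h2 := (integral_eq_zero_iff_of_nonneg (fun x => mul_nonneg zero_le_one (by positivity))
    (integrable_pot locInt_one h τ)).mp h1
  have h3 := (Continuous.ae_eq_iff_eq volume (continuous_const.mul ((h τ).1.norm.pow 2))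
    continuous_const).mp h2
  funext x
  have : (1 : ℝ) * ‖ψ τ x‖ ^ 2 = 0 := congrFun h3 x
  simpa using this

/-- pointwise disjoint sums -/
theorem norm_sum_sq_of_disj {J : Type} (s : Finset J) (t : J → ℂ)
    (h : ∀ j ∈ s, ∀ j' ∈ s, j ≠ j' → t j = 0 ∨ t j' = 0) :
    ‖∑ j ∈ s, t j‖ ^ 2 = ∑ j ∈ s, ‖t j‖ ^ 2 := by
  by_cases h0 : ∀ j ∈ s, t j = 0
  · rw [Finset.sum_eq_zero h0, Finset.sum_eq_zero fun j hj => by simp [h0 j hj]]
    simp
  · push Not at h0
    obtain ⟨j, hj, h1⟩ := h0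
    have h2 : ∀ j' ∈ s, j' ≠ j → t j' = 0 := fun j' hj' hne =>
      (h j' hj' j hj hne).resolve_right h1
    rw [Finset.sum_eq_single_of_mem j hj h2,
      Finset.sum_eq_single_of_mem j hj fun j' hj' hne => by simp [h2 j' hj' hne]]

omit [NormedSpace ℝ Y] [FiniteDimensional ℝ Y]
  [Measure.IsAddHaarMeasure (volume : Measure Y)] in
theorem pot_sum_of_disj {U : Y → ℝ} (hU : LocallyIntegrable U) {J : Type} (s : Finset J)
    {t : J → T → Y → ℂ} (ht : ∀ j ∈ s, Cc (t j))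
    (h : ∀ τ x, ∀ j ∈ s, ∀ j' ∈ s, j ≠ j' → t j τ x = 0 ∨ t j' τ x = 0) :
    pot U (∑ j ∈ s, t j) = ∑ j ∈ s, pot U (t j) := by
  unfold pot
  rw [Finset.sum_comm]
  refine Finset.sum_congr rfl fun τ _ => ?_
  rw [← integral_finsetSum _ fun j hj => integrable_pot hU (ht j hj) τ]
  refine integral_congr_ae (ae_of_all _ fun x => ?_)
  simp only [Finset.sum_apply]
  rw [norm_sum_sq_of_disj s (fun j => t j τ x) (h τ x), Finset.mul_sum]

/-- the system of all continuous compactly supported functions -/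
noncomputable def ccSys (T Y : Type) [Fintype T] [NormedAddCommGroup Y] [NormedSpace ℝ Y]
    [MeasureSpace Y] [BorelSpace Y] [FiniteDimensional ℝ Y]
    [Measure.IsAddHaarMeasure (volume : Measure Y)] : Sys (T → Y → ℂ) where
  D := { carrier := {ψ | Cc ψ}
         add_mem' := fun h h' => Cc.add h h'
         zero_mem' := fun _ => ⟨continuous_const, HasCompactSupport.zero⟩
         smul_mem' := fun c _ h => Cc.smul h c }
  ip := ip
  B := ip
  nr := nr
  q := nr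
  ip_symm := fun _ _ _ _ => ipU_symm _ _ _
  ip_add := fun _ hx _ hy _ hz => ipU_add locInt_one (fun τ => (hx τ).1) hy hz
  ip_smul := fun _ _ _ _ c => ipU_smul _ _ _ c
  ip_self := fun _ _ => ipU_self _ _
  nr_nonneg := fun _ _ => nr_nonneg _
  nr_def := fun _ hx h => eq_zero_of_nr hx h
  B_symm := fun _ _ _ _ => ipU_symm _ _ _
  B_add := fun _ hx _ hy _ hz => ipU_add locInt_one (fun τ => (hx τ).1) hy hz
  B_smul := fun _ _ _ _ c => ipU_smul _ _ _ c
  B_self := fun _ _ => ipU_self _ _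

/-- IMS localisation, kinetic part -/
theorem ims {J : Type} [Fintype J] {G : J → Y → ℝ} (hG : ∀ j, ContDiff ℝ (⊤ : ℕ∞) (G j))
    (h1 : ∀ x, ∑ j, G j x ^ 2 = 1) {ψ : T → Y → ℂ} (h : Nice ψ) (v : Y) :
    ∑ j, nr (Dv v (mulF (G j) ψ)) =
      nr (Dv v ψ) + pot (fun x => ∑ j, (fderiv ℝ (G j) x v) ^ 2) ψ := by
  have hd : ∀ j, Differentiable ℝ (G j) := fun j => (hG j).differentiable (by simp)
  have h2 : ∀ x, ∑ j, G j x * fderiv ℝ (G j) x v = 0 := by
    intro x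
    have h3 : HasFDerivAt (fun x => ∑ j, G j x ^ 2)
        (∑ j, (2 • G j x ^ (2 - 1)) • fderiv ℝ (G j) x) x :=
      HasFDerivAt.fun_sum fun j _ => (hd j x).hasFDerivAt.pow 2
    have h4 : (fun x => ∑ j, G j x ^ 2) = fun _ => 1 := funext h1
    rw [h4] at h3
    have h5 := congrArg (fun L : Y →L[ℝ] ℝ => L v) (h3.unique (hasFDerivAt_const 1 x))
    simp only [_root_.sum_apply, _root_.smul_apply, smul_eq_mul,
      _root_.zero_apply, nsmul_eq_mul, Nat.cast_ofNat, Nat.add_one_sub_one,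
      pow_one, mul_assoc, ← Finset.mul_sum] at h5
    linarith
  have hc : Continuous fun x => ∑ j, (fderiv ℝ (G j) x v) ^ 2 :=
    continuous_finsetSum _ fun j _ =>
      (((hG j).continuous_fderiv (by simp)).clm_apply continuous_const).pow 2
  unfold nr pot
  rw [Finset.sum_comm, ← Finset.sum_add_distrib]
  refine Finset.sum_congr rfl fun τ _ => ?_
  rw [← integral_finsetSum _ fun j _ => integrable_pot locInt_one ((h.mulF (hG j)).dv v).cc τ,
    ← integral_add (integrable_pot locInt_one (h.dv v).cc τ)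
      (integrable_pot hc.locallyIntegrable h.cc τ)]
  refine integral_congr_ae (ae_of_all _ fun x => ?_)
  simp only [Dv_mulF h (hd _), one_mul]
  have h6 : ∀ a b : ℝ, ∀ p w : ℂ, ‖(a : ℂ) * p + b * w‖ ^ 2 =
      a ^ 2 * ‖p‖ ^ 2 + b ^ 2 * ‖w‖ ^ 2 + 2 * (b * a) * (p.re * w.re + p.im * w.im) := by
    intro a b p w
    simp only [Complex.sq_norm, Complex.normSq_apply, Complex.add_re, Complex.add_im,
      Complex.mul_re, Complex.mul_im, Complex.ofReal_re, Complex.ofReal_im]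
    ring
  simp only [h6, Finset.sum_add_distrib, ← Finset.sum_mul, ← Finset.mul_sum, h1, h2]
  ring

omit [NormedSpace ℝ Y] [FiniteDimensional ℝ Y]
  [Measure.IsAddHaarMeasure (volume : Measure Y)] in
theorem pot_part {J : Type} [Fintype J] {G : J → Y → ℝ} (hG : ∀ j, Continuous (G j))
    (h1 : ∀ x, ∑ j, G j x ^ 2 = 1) {U : Y → ℝ} (hU : LocallyIntegrable U) {ψ : T → Y → ℂ}
    (h : Cc ψ) : ∑ j, pot U (mulF (G j) ψ) = pot U ψ := by
  unfold pot
  rw [Finset.sum_comm]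
  refine Finset.sum_congr rfl fun τ _ => ?_
  rw [← integral_finsetSum _ fun j _ => integrable_pot hU (h.mulF (hG j)) τ]
  refine integral_congr_ae (ae_of_all _ fun x => ?_)
  simp only [mulF, norm_mul, Complex.norm_real, Real.norm_eq_abs, mul_pow, sq_abs,
    ← Finset.mul_sum, ← Finset.sum_mul, h1, one_mul]

end generic

end Pool.Agent.Lib.MP_0655ed_mp
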