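import Pool.Agent.Lib.MP_0655ed_mp.Conf

open scoped ComplexConjugate
open Finset MeasureTheory

set_option linter.unusedSectionVars false
set_option maxHeartbeats 400000

namespace Pool.Agent.Lib.MP_0655ed_mp

variable {σ Sp ι ι' κ : Type} [Fintype κ] [DecidableEq κ] [Fintype Sp]

def slice (u : Wv (Option κ) Sp) (τ : κ → Sp) (x : X κ) : Sp → E → ℂ :=
  fun t z => u (cons t τ) (cons z x)

noncomputable def ann (f : Sp → E → ℂ) (u : Wv (Option κ) Sp) : Wv κ Sp :=
  fun τ x => ip f (slice u τ x)

def tens (f : Sp → E → ℂ) (φ : Wv κ Sp) : Wv (Option κ) Sp :=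
  fun τ x => f (τ none) (x none) * φ (τ ∘ some) (x ∘ some)

noncomputable def inR (κ : Type) [Fintype κ] : X κ →L[ℝ] X (Option κ) :=
  (consL κ : (X κ × E) →L[ℝ] X (Option κ)).comp (ContinuousLinearMap.inl ℝ _ _)

noncomputable def inZ (κ : Type) [Fintype κ] : E →L[ℝ] X (Option κ) :=
  (consL κ : (X κ × E) →L[ℝ] X (Option κ)).comp (ContinuousLinearMap.inr ℝ _ _)

theorem cons_eq (z : E) (x : X κ) : cons z x = inR κ x + inZ κ z := by
  funext o
  cases o
  · show z = 0 + z
    simp
  · show x _ = x _ + 0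
    simp

theorem inR_dir (j : κ) (k : Fin 3) : inR κ (dir j k) = dir (some j) k := by
  funext o
  cases o
  · show (0 : E) = _
    simp [dir]
  · show dir j k _ = _
    simp [dir, Pi.single_apply]

theorem inZ_single (k : Fin 3) : inZ κ (Pi.single k 1) = dir none k := by
  funext o
  cases o
  · show (Pi.single k 1 : E) = _
    simp [dir]
  · show (0 : E) = _
    simp [dir]

theorem hasFDerivAt_consR (z : E) (x : X κ) : HasFDerivAt (fun x => cons z x) (inR κ) x := by
  simp only [cons_eq]
  exact (inR κ).hasFDerivAt.add_const _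

theorem hasFDerivAt_consZ (z : E) (x : X κ) : HasFDerivAt (fun z => cons z x) (inZ κ) z := by
  simp only [cons_eq]
  exact (inZ κ).hasFDerivAt.const_add _

theorem contDiff_consZ (x : X κ) : ContDiff ℝ (⊤ : ℕ∞) (fun z : E => cons z x) := by
  simp only [cons_eq]
  exact contDiff_const.add (inZ κ).contDiff

theorem compact_sliceZ {F : Type} [Zero F] {w : X (Option κ) → F} (h : HasCompactSupport w)
    (x : X κ) : HasCompactSupport fun z : E => w (cons z x) := by
  refine HasCompactSupport.intro (h.image (continuous_apply none)) fun z hz => ?_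
  by_contra h0
  exact hz ⟨cons z x, subset_tsupport _ h0, rfl⟩

theorem Cc.slice {u : Wv (Option κ) Sp} (h : Cc u) (τ : κ → Sp) (x : X κ) : Cc (slice u τ x) :=
  fun _ => ⟨(h _).1.comp (contDiff_consZ x).continuous, compact_sliceZ (h _).2 x⟩

theorem Nice.slice {u : Wv (Option κ) Sp} (h : Nice u) (τ : κ → Sp) (x : X κ) :
    Nice (slice u τ x) :=
  fun _ => ⟨(h _).1.comp (contDiff_consZ x), compact_sliceZ (h _).2 x⟩

theorem Dv_slice {u : Wv (Option κ) Sp} (h : Nice u) (τ : κ → Sp) (x : X κ) (k : Fin 3) :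
    Dv (Pi.single k 1) (slice u τ x) = slice (Dv (dir none k) u) τ x := by
  funext t z
  have := (h.diff (cons t τ) (cons z x)).hasFDerivAt.comp z (hasFDerivAt_consZ z x)
  show fderiv ℝ (u (cons t τ) ∘ fun z => cons z x) z _ = _
  rw [this.fderiv, ContinuousLinearMap.comp_apply, inZ_single]
  rfl

theorem fubini {F : Type} [NormedAddCommGroup F] [NormedSpace ℝ F]
    {G : (Option κ → Sp) → X (Option κ) → F} (hG : ∀ τ, Integrable (G τ)) :
    (∀ τ : κ → Sp, Integrable fun x : X κ => ∑ t, ∫ z : E, G (cons t τ) (cons z x)) ∧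
    ∑ τ, ∫ x, G τ x = ∑ τ : κ → Sp, ∫ x : X κ, ∑ t, ∫ z : E, G (cons t τ) (cons z x) := by
  have h1 : ∀ τ, Integrable fun x : X κ => ∫ z : E, G τ (cons z x) := fun τ =>
    (integrable_cons (hG τ)).integral_prod_left
  refine ⟨fun τ => integrable_finsetSum _ fun t _ => h1 _, ?_⟩
  rw [sum_cons]
  refine Finset.sum_congr rfl fun τ _ => ?_
  rw [integral_finsetSum _ fun t _ => h1 _]
  exact Finset.sum_congr rfl fun t _ => integral_cons (hG _)

theorem pot_rest {U : X κ → ℝ} (hU : LocallyIntegrable U) {u : Wv (Option κ) Sp} (h : Cc u) :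
    (∀ τ, Integrable fun x => U x * nr (slice u τ x)) ∧
    pot (fun x => U (x ∘ some)) u = ∑ τ, ∫ x, U x * nr (slice u τ x) := by
  have := fubini fun τ => integrable_pot (locInt_rest hU) h τ
  simp only [cons_comp_some, integral_const_mul, ← Finset.mul_sum] at this
  simpa only [nr, pot, one_mul, Pool.Agent.Lib.MP_0655ed_mp.slice] using this

theorem cont_tens {f : Sp → E → ℂ} (hf : ∀ t, Continuous (f t)) {φ : Wv κ Sp}
    (hφ : ∀ τ, Continuous (φ τ)) (τ) : Continuous (tens f φ τ) :=
  ((hf _).comp (continuous_apply none)).mul ((hφ _).comp (by fun_prop))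

theorem compact_tens {f : Sp → E → ℂ} (hf : ∀ t, HasCompactSupport (f t)) {φ : Wv κ Sp}
    (hφ : ∀ τ, HasCompactSupport (φ τ)) (τ) : HasCompactSupport (tens f φ τ) := by
  refine HasCompactSupport.intro (((hφ (τ ∘ some)).prod (hf (τ none))).image
    (consL κ).continuous) fun x hx => ?_
  by_contra h0
  exact hx ⟨(x ∘ some, x none), ⟨subset_tsupport _ (right_ne_zero_of_mul h0),
    subset_tsupport _ (left_ne_zero_of_mul h0)⟩, cons_eta x⟩

theorem Cc.tens {f : Sp → E → ℂ} (hf : Cc f) {φ : Wv κ Sp} (hφ : Cc φ) : Cc (tens f φ) :=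
  fun τ => ⟨cont_tens (fun t => (hf t).1) (fun t => (hφ t).1) τ,
    compact_tens (fun t => (hf t).2) (fun t => (hφ t).2) τ⟩

theorem Nice.tens {f : Sp → E → ℂ} (hf : Nice f) {φ : Wv κ Sp} (hφ : Nice φ) : Nice (tens f φ) :=
  fun τ => ⟨((hf _).1.comp (contDiff_apply ℝ E none)).mul ((hφ _).1.comp
      (contDiff_pi.mpr fun j => contDiff_apply ℝ E (some j))),
    compact_tens (fun t => (hf t).2) (fun t => (hφ t).2) τ⟩

theorem ip_tens {f : Sp → E → ℂ} (hf : ∀ t, Continuous (f t)) {φ : Wv κ Sp}
    (hφ : ∀ τ, Continuous (φ τ)) {u : Wv (Option κ) Sp} (hu : Cc u) :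
    ip (tens f φ) u = ip φ (ann f u) := by
  have := (fubini fun τ => integrable_ipU locInt_one (cont_tens hf hφ) hu τ).2
  refine this.trans (Finset.sum_congr rfl fun τ _ => integral_congr_ae (ae_of_all _ fun x => ?_))
  simp only [ann, ip, ipU, tens, slice, cons_none, cons_comp_some, Finset.mul_sum,
    ← integral_const_mul]
  refine Finset.sum_congr rfl fun t _ => integral_congr_ae (ae_of_all _ fun z => ?_)
  simp only [map_mul]
  push_cast
  ring

theorem pot_tens {U : X (Option κ) → ℝ} (hU : LocallyIntegrable U) {f : Sp → E → ℂ} (hf : Cc f)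
    {φ : Wv κ Sp} (hφ : Cc φ) :
    pot U (tens f φ) = pot (fun x => pot (fun z => U (cons z x)) f) φ := by
  have := (fubini fun τ => integrable_pot hU (hf.tens hφ) τ).2
  refine this.trans (Finset.sum_congr rfl fun τ _ => integral_congr_ae (ae_of_all _ fun x => ?_))
  simp only [pot, tens, cons_none, cons_comp_some, Finset.sum_mul, ← integral_mul_const]
  refine Finset.sum_congr rfl fun t _ => integral_congr_ae (ae_of_all _ fun z => ?_)
  simp only [norm_mul]
  ring

theorem pot_tens_rest {U : X κ → ℝ} (hU : LocallyIntegrable U) {f : Sp → E → ℂ} (hf : Cc f)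
    {φ : Wv κ Sp} (hφ : Cc φ) : pot (fun x => U (x ∘ some)) (tens f φ) = nr f * pot U φ := by
  rw [pot_tens (locInt_rest hU) hf hφ, ← pot_const_mul]
  congr 1
  funext x
  have := pot_const_mul (fun _ => (1 : ℝ)) f (U x)
  simp only [mul_one] at this
  simp only [cons_comp_some, this, nr]
  ring

theorem nr_tens {f : Sp → E → ℂ} (hf : Cc f) {φ : Wv κ Sp} (hφ : Cc φ) :
    nr (tens f φ) = nr f * nr φ := pot_tens_rest (U := fun _ => 1) locInt_one hf hφ

theorem Dv_tens {f : Sp → E → ℂ} (hf : Nice f) {φ : Wv κ Sp} (hφ : Nice φ) (v : X (Option κ)) :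
    Dv v (tens f φ) = tens (Dv (v none) f) φ + tens f (Dv (v ∘ some) φ) := by
  funext τ x
  let p : X (Option κ) →L[ℝ] E := ContinuousLinearMap.proj none
  let r : X (Option κ) →L[ℝ] X κ :=
    ContinuousLinearMap.pi fun j => ContinuousLinearMap.proj (some j)
  have h1 := (hf.diff (τ none) (p x)).hasFDerivAt.comp x p.hasFDerivAt
  have h2 := (hφ.diff (τ ∘ some) (r x)).hasFDerivAt.comp x r.hasFDerivAt
  have h3 := (h1.mul h2).fderiv
  show fderiv ℝ ((f (τ none) ∘ p) * (φ (τ ∘ some) ∘ r)) x v = _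
  rw [h3]
  simp only [_root_.add_apply, _root_.smul_apply, ContinuousLinearMap.comp_apply, smul_eq_mul,
    Function.comp_apply, Pi.add_apply, tens, Dv]
  rw [add_comm, mul_comm]
  rfl

theorem Dv_zero {T Y : Type} [NormedAddCommGroup Y] [NormedSpace ℝ Y] (ψ : T → Y → ℂ) :
    Dv 0 ψ = 0 := by
  funext τ x
  simp [Dv]

theorem Dv_tens_none {f : Sp → E → ℂ} (hf : Nice f) {φ : Wv κ Sp} (hφ : Nice φ) (k : Fin 3) :
    Dv (dir none k) (tens f φ) = tens (Dv (Pi.single k 1) f) φ := by
  rw [Dv_tens hf hφ]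
  have h1 : (dir none k : X (Option κ)) ∘ some = 0 := by funext j; simp [dir]
  have h2 : (dir none k : X (Option κ)) none = Pi.single k 1 := by simp [dir]
  rw [h1, h2, Dv_zero]
  funext τ x
  simp [tens]

theorem Dv_tens_some {f : Sp → E → ℂ} (hf : Nice f) {φ : Wv κ Sp} (hφ : Nice φ) (j : κ)
    (k : Fin 3) : Dv (dir (some j) k) (tens f φ) = tens f (Dv (dir j k) φ) := by
  rw [Dv_tens hf hφ]
  have h1 : (dir (some j) k : X (Option κ)) ∘ some = dir j k := by
    funext j; simp [dir, Pi.single_apply]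
  have h2 : (dir (some j) k : X (Option κ)) none = 0 := by simp [dir]
  rw [h1, h2, Dv_zero]
  funext τ x
  simp [tens]

noncomputable def kin1 (f : Sp → E → ℂ) : ℝ := ∑ k, nr (Dv (Pi.single k 1) f)

/-- potential created at `y` by the density of `f` -/
noncomputable def Vf (f : Sp → E → ℂ) (y : E) : ℝ := pot (fun z => vk (z - y)) f

theorem Vf_nonneg (f : Sp → E → ℂ) (y : E) : 0 ≤ Vf f y := pot_nonneg (fun _ => vk_nonneg _) f

theorem continuous_Vf {f : Sp → E → ℂ} (hf : Cc f) : Continuous (Vf f) := by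
  refine continuous_finsetSum _ fun t _ => ?_
  have := HasCompactSupport.continuous_convolution_left (ContinuousLinearMap.mul ℝ ℝ)
    (μ := volume) (f := fun z => ‖f t z‖ ^ 2)
    ((hf t).2.comp_left (g := fun z : ℂ => ‖z‖ ^ 2) (by simp)) ((hf t).1.norm.pow 2) locInt_vk
  refine this.congr fun y => ?_
  rw [convolution_mul]
  refine integral_congr_ae (ae_of_all _ fun z => ?_)
  simp only
  rw [← vk_neg (y - z), neg_sub, mul_comm]

theorem locInt_vk_sub (y : E) : LocallyIntegrable fun z : E => vk (z - y) := by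
  rw [locallyIntegrable_iff]
  intro K hK
  have h1 := locInt_vk.integrableOn_isCompact (hK.image (continuous_sub_right y))
  have h2 := ((measurePreserving_sub_right volume y).integrableOn_comp_preimage
    (Homeomorph.subRight y).measurableEmbedding).mpr h1
  exact h2.mono_set fun x hx => ⟨x, hx, rfl⟩

/-- total potential felt by the density of `f` -/
noncomputable def Phi [Fintype ι] (f : Sp → E → ℂ) (c : ι → ℝ) (x : X ι) : ℝ :=
  ∑ j, c j * Vf f (x j)

theorem continuous_Phi [Fintype ι] {f : Sp → E → ℂ} (hf : Cc f) (c : ι → ℝ) :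
    Continuous (Phi f c) :=
  continuous_finsetSum _ fun j _ =>
    continuous_const.mul ((continuous_Vf hf).comp (continuous_apply j))

theorem en_tens (P : Species σ Sp) (sp : Option κ → σ) {f : Sp → E → ℂ} (hf : Nice f)
    {φ : Wv κ Sp} (hφ : Nice φ) :
    en P sp (tens f φ) = nr f * en P (fun j => sp (some j)) φ +
      kin1 f / (2 * P.mass (sp none)) * nr φ +
      P.charge (sp none) * pot (Phi f fun j => P.charge (sp (some j))) φ := by
  have h1 : kin none (tens f φ) = kin1 f * nr φ := by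
    simp only [kin, kin1, Dv_tens_none hf hφ, nr_tens (hf.dv _).cc hφ.cc, Finset.sum_mul]
  have h2 : ∀ j, kin (some j) (tens f φ) = nr f * kin j φ := by
    intro j
    simp only [kin, Dv_tens_some hf hφ, nr_tens hf.cc (hφ.dv _).cc, Finset.mul_sum]
  have h3 : pot (potl (fun i => P.charge (sp i)) none) (tens f φ) =
      P.charge (sp none) * pot (Phi f fun j => P.charge (sp (some j))) φ := by
    rw [pot_tens (locInt_potl _ _) hf.cc hφ.cc, ← pot_const_mul]
    congr 1
    funext x
    simp only [potl_none, cons_none, cons_some]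
    rw [pot_sum (U := fun j z => P.charge (sp none) * P.charge (sp (some j)) * vk (z - x j)) _
      (fun j _ => (locInt_vk_sub (x j)).smul
      (P.charge (sp none) * P.charge (sp (some j)))) hf.cc]
    simp only [Phi, Finset.mul_sum, Vf, pot_const_mul, mul_assoc]
  have h4 : (coulomb fun i => P.charge (sp i)) = fun x =>
      coulomb (fun j => P.charge (sp (some j))) (x ∘ some) +
        potl (fun i => P.charge (sp i)) none x := funext fun x => coulomb_cons _ x
  unfold en
  rw [h4, pot_add (locInt_rest (locInt_coulomb _)) (locInt_potl _ _) (hf.tens hφ).cc, h3,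
    pot_tens_rest (locInt_coulomb _) hf.cc hφ.cc, Fintype.sum_option, h1]
  simp only [h2, mul_add, Finset.mul_sum, mul_div_assoc]
  ring

/-! annihilation -/

theorem contDiff_param {f : E → ℂ} (hf : Continuous f) {w : X (Option κ) → ℂ}
    (hw : ContDiff ℝ (⊤ : ℕ∞) w) (hc : HasCompactSupport w) :
    ContDiff ℝ (⊤ : ℕ∞) fun x : X κ => ∫ z, f z * w (cons z x) := by
  have := contDiffOn_convolution_right_with_param_comp (μ := volume) (n := ⊤)
    (ContinuousLinearMap.mul ℝ ℂ) (s := (Set.univ : Set (X κ))) (v := fun _ => (0 : E))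
    contDiffOn_const (f := f) (g := fun p y => w (cons (-y) p))
    (k := (fun x : X (Option κ) => -x none) '' tsupport w) isOpen_univ
    (hc.image (by fun_prop)) (fun p y _ hy => by
      by_contra h0
      exact hy ⟨cons (-y) p, subset_tsupport _ h0, by simp⟩) hf.locallyIntegrable
    (by
      refine (hw.comp ((consL κ).contDiff.comp (contDiff_fst.prodMk contDiff_snd.neg))).contDiffOn)
  rw [contDiffOn_univ] at this
  simpa [MeasureTheory.convolution] using this

theorem fderiv_param_gen {A Y : Type} [NormedAddCommGroup A] [NormedSpace ℝ A]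
    [FiniteDimensional ℝ A] [NormedAddCommGroup Y] [NormedSpace ℝ Y] [FiniteDimensional ℝ Y]
    (J : A →L[ℝ] Y) (c : E → A → Y) (p : Y → E) (hp : Continuous p) (hpc : ∀ z x, p (c z x) = z)
    (hcz : ∀ x, Continuous fun z => c z x) (hcx : ∀ z x, HasFDerivAt (c z) J x)
    {f : E → ℂ} (hf : Continuous f) {w : Y → ℂ}
    (hw : ContDiff ℝ (⊤ : ℕ∞) w) (hc : HasCompactSupport w) (x v : A) :
    fderiv ℝ (fun x : A => ∫ z, f z * w (c z x)) x v = ∫ z, f z * fderiv ℝ w (c z x) (J v) := by
  have hd : Continuous (fderiv ℝ w) := hw.continuous_fderiv (by simp)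
  obtain ⟨C, hC⟩ := hd.bounded_above_of_compact_support (hc.fderiv ℝ)
  have hK : IsCompact (p '' tsupport w) := hc.image hp
  have hF' : Continuous fun z => f z • (fderiv ℝ w (c z x)).comp J :=
    hf.smul ((hd.comp (hcz x)).clm_comp continuous_const)
  have hz0 : ∀ z x, z ∉ p '' tsupport w → fderiv ℝ w (c z x) = 0 := by
    intro z x hz
    by_contra h0
    exact hz ⟨c z x, support_fderiv_subset ℝ h0, hpc z x⟩
  have hz1 : ∀ z x, z ∉ p '' tsupport w → f z • (fderiv ℝ w (c z x)).comp J = 0 := by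
    intro z x hz
    ext y
    simp [hz0 z x hz]
  have hF'c : HasCompactSupport fun z => f z • (fderiv ℝ w (c z x)).comp J :=
    HasCompactSupport.intro hK fun z hz => hz1 z x hz
  have hFc : HasCompactSupport fun z => f z * w (c z x) :=
    HasCompactSupport.intro hK fun z hz => by
      have : w (c z x) = 0 := by
        by_contra h0
        exact hz ⟨c z x, subset_tsupport _ h0, hpc z x⟩
      simp [this]
  have hFm : ∀ x, Continuous fun z => f z * w (c z x) := fun x =>
    hf.mul (hw.continuous.comp (hcz x))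
  have hb : ∀ z x, ‖f z • (fderiv ℝ w (c z x)).comp J‖ ≤
      Set.indicator (p '' tsupport w) (fun z => ‖f z‖ * (C * ‖J‖)) z := by
    intro z x
    by_cases hz : z ∈ p '' tsupport w
    · rw [Set.indicator_of_mem hz, norm_smul]
      exact mul_le_mul_of_nonneg_left ((ContinuousLinearMap.opNorm_comp_le _ _).trans
        (mul_le_mul_of_nonneg_right (hC _) (norm_nonneg _))) (norm_nonneg _)
    · rw [Set.indicator_of_notMem hz]
      rw [hz1 z x hz, norm_zero]
  have hbi : Integrable (Set.indicator (p '' tsupport w) (fun z => ‖f z‖ * (C * ‖J‖))) :=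
    (integrable_indicator_iff hK.measurableSet).mpr
      ((hf.norm.mul continuous_const).continuousOn.integrableOn_compact hK)
  have hdd : ∀ z x, HasFDerivAt (fun x => f z * w (c z x)) (f z • (fderiv ℝ w (c z x)).comp J) x :=
    fun z x => ((hw.differentiable (by simp) (c z x)).hasFDerivAt.comp x (hcx z x)).const_mul (f z)
  have h : HasFDerivAt (fun x : A => ∫ z, f z * w (c z x))
      (∫ z, f z • (fderiv ℝ w (c z x)).comp J) x :=
    hasFDerivAt_integral_of_dominated_of_fderiv_le (μ := volume) (𝕜 := ℝ)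
      (F := fun (x : A) z => f z * w (c z x)) (x₀ := x) (s := Set.univ)
      (F' := fun x z => f z • (fderiv ℝ w (c z x)).comp J) Filter.univ_mem
      (Filter.Eventually.of_forall fun x => (hFm x).aestronglyMeasurable)
      ((hFm x).integrable_of_hasCompactSupport hFc) hF'.aestronglyMeasurable
      (ae_of_all _ fun z x _ => hb z x) hbi (ae_of_all _ fun z x _ => hdd z x)
  rw [h.fderiv, ContinuousLinearMap.integral_apply (hF'.integrable_of_hasCompactSupport hF'c)]
  rfl

theorem fderiv_param {f : E → ℂ} (hf : Continuous f) {w : X (Option κ) → ℂ}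
    (hw : ContDiff ℝ (⊤ : ℕ∞) w) (hc : HasCompactSupport w) (x v : X κ) :
    fderiv ℝ (fun x : X κ => ∫ z, f z * w (cons z x)) x v =
      ∫ z, f z * fderiv ℝ w (cons z x) (inR κ v) :=
  fderiv_param_gen (inR κ) (fun z x => cons z x) (fun x => x none) (continuous_apply none)
    (fun _ _ => rfl) (fun x => (contDiff_consZ x).continuous) hasFDerivAt_consR hf hw hc x v

theorem ann_eq (f : Sp → E → ℂ) (u : Wv (Option κ) Sp) (τ : κ → Sp) :
    ann f u τ = fun x => ∑ t, ∫ z, conj (f t z) * u (cons t τ) (cons z x) := by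
  funext x
  simp [ann, ip, ipU, slice]

theorem ann_ne {f : Sp → E → ℂ} {u : Wv (Option κ) Sp} {τ : κ → Sp} {x : X κ}
    (h : ann f u τ x ≠ 0) : ∃ t z, u (cons t τ) (cons z x) ≠ 0 := by
  by_contra h0
  push Not at h0
  exact h (by simp [ann_eq, h0])

theorem Nice.ann {f : Sp → E → ℂ} (hf : ∀ t, Continuous (f t)) {u : Wv (Option κ) Sp}
    (hu : Nice u) : Nice (ann f u) := by
  intro τ
  constructor
  · rw [ann_eq]
    exact ContDiff.sum fun t _ =>
      contDiff_param (Complex.continuous_conj.comp (hf t)) (hu _).1 (hu _).2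
  · have hc : Continuous fun x : X (Option κ) => x ∘ some := by fun_prop
    refine HasCompactSupport.intro
      (isCompact_iUnion fun t => (hu (cons t τ)).2.image hc) fun x hx => ?_
    by_contra h0
    obtain ⟨t, z, h⟩ := ann_ne h0
    exact hx (Set.mem_iUnion.mpr ⟨t, cons z x, subset_tsupport _ h, rfl⟩)

theorem Dv_ann {f : Sp → E → ℂ} (hf : ∀ t, Continuous (f t)) {u : Wv (Option κ) Sp}
    (hu : Nice u) (j : κ) (k : Fin 3) :
    Dv (dir j k) (ann f u) = ann f (Dv (dir (some j) k) u) := by
  funext τ x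
  rw [ann_eq]
  unfold Dv
  have hf' : ∀ t, Continuous fun z => conj (f t z) := fun t => Complex.continuous_conj.comp (hf t)
  rw [ann_eq, fderiv_fun_sum fun t _ => (contDiff_param (hf' t)
    (hu _).1 (hu _).2).differentiable (by simp) x, _root_.sum_apply]
  refine Finset.sum_congr rfl fun t _ => ?_
  rw [← inR_dir]
  exact fderiv_param (hf' t) (hu _).1 (hu _).2 x _

theorem cons_comp_swap {β : Type} (z : β) (x : κ → β) (i j : κ) :
    cons z (x ∘ Equiv.swap i j) = cons z x ∘ Equiv.swap (some i) (some j) := by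
  funext o
  cases o with
  | none => simp [Equiv.swap_apply_of_ne_of_ne]
  | some a =>
    simp only [cons_some, Function.comp_apply]
    rw [← (Option.some_injective κ).map_swap]
    rfl

theorem Tst.ann {P : Species σ Sp} {sp : Option κ → σ} {L : ℝ} {f : Sp → E → ℂ}
    (hf : ∀ t, Continuous (f t)) {u : Wv (Option κ) Sp} (hu : Tst P sp L u) :
    Tst P (fun j => sp (some j)) L (ann f u) := by
  refine ⟨fun τ => (hu.nice.ann hf τ).1, ?_, fun τ x hx i => ?_, fun i j hij hs => ?_⟩
  · obtain ⟨r, hr, hs⟩ := hu.supp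
    refine ⟨r, hr, fun τ x hx i => ?_⟩
    obtain ⟨t, z, h⟩ := ann_ne hx
    exact hs _ _ h (some i)
  · obtain ⟨t, z, h⟩ := ann_ne hx
    exact hu.spin _ _ h (some i)
  · have h1 := hu.sym (some i) (some j) (by simpa using hij) hs
    funext τ x
    have h2 : slice u (τ ∘ Equiv.swap i j) (x ∘ Equiv.swap i j) =
        eta P (sp (some i)) • slice u τ x := by
      funext t z
      have := congrFun (congrFun h1 (cons t τ)) (cons z x)
      simp only [slice, cons_comp_swap]
      exact this
    show ip f (slice u (τ ∘ Equiv.swap i j) (x ∘ Equiv.swap i j)) = _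
    rw [h2, ip, ipU_smul]
    rfl

end Pool.Agent.Lib.MP_0655ed_mp
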